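import Mathlib

set_option autoImplicit false

open Set Filter Topology Complex MeasureTheory Metric

namespace Pool.Agent.MP_4c0f47_an

noncomputable section

theorem circle_aux (z : ℂ) (r : ℝ) (hr : 0 < r) :
    (∮ w in C(0, r), w⁻¹ • (z - w)⁻¹) = I * ∫ θ in (0:ℝ)..(2 * Real.pi), (z - circleMap 0 r θ)⁻¹ := by
  unfold circleIntegral
  rw [← intervalIntegral.integral_const_mul]
  apply intervalIntegral.integral_congr
  intro θ _
  have hne : circleMap 0 r θ ≠ 0 := circleMap_ne_center hr.ne'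
  simp only [deriv_circleMap, smul_eq_mul]
  field_simp

theorem circle_in {z : ℂ} {r : ℝ} (hr : 0 < r) (h : r < ‖z‖) :
    ∫ θ in (0:ℝ)..(2 * Real.pi), (z - circleMap 0 r θ)⁻¹ = 2 * Real.pi / z := by
  have h1 := circle_aux z r hr
  have hd : DifferentiableOn ℂ (fun w : ℂ => (z - w)⁻¹) (closedBall 0 r) := by
    intro w hw
    have hne : z - w ≠ 0 := by
      intro h0
      rw [sub_eq_zero] at h0
      rw [← h0, mem_closedBall, dist_zero_right] at hw
      linarith
    exact ((differentiableAt_const z).sub differentiableAt_id).inv hne |>.differentiableWithinAt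
  have h2 := hd.circleIntegral_sub_inv_smul (mem_ball_self hr)
  simp only [sub_zero] at h2
  rw [h2] at h1
  have hI : (I : ℂ) ≠ 0 := Complex.I_ne_zero
  have h3 : I * ∫ θ in (0:ℝ)..(2 * Real.pi), (z - circleMap 0 r θ)⁻¹ = I * (2 * Real.pi / z) := by
    rw [← h1, smul_eq_mul]; ring
  exact mul_left_cancel₀ hI h3

theorem circle_out {z : ℂ} {r : ℝ} (hr : 0 < r) (h : ‖z‖ < r) (hz : z ≠ 0) :
    ∫ θ in (0:ℝ)..(2 * Real.pi), (z - circleMap 0 r θ)⁻¹ = 0 := by
  have h1 := circle_aux z r hr
  have h2 : (∮ w in C(0, r), w⁻¹ • (z - w)⁻¹) = ∮ w in C(0, r), z⁻¹ • ((w - 0)⁻¹ - (w - z)⁻¹) := by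
    apply circleIntegral.integral_congr hr.le
    intro w hw
    have hw0 : w ≠ 0 := by
      intro h0; rw [h0] at hw; simp at hw; linarith
    have hwz : z - w ≠ 0 := by
      intro h0
      rw [sub_eq_zero] at h0
      rw [← h0] at hw
      simp at hw; linarith
    have hwz' : w - z ≠ 0 := by
      intro h0; apply hwz; rw [← neg_sub, h0, neg_zero]
    simp only [smul_eq_mul, sub_zero]
    field_simp
    ring
  have c1 : CircleIntegrable (fun w : ℂ => (w - 0)⁻¹) 0 r := by
    rw [circleIntegrable_sub_inv_iff]; right; simp; intro h0; linarith [abs_of_pos hr]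
  have c2 : CircleIntegrable (fun w : ℂ => (w - z)⁻¹) 0 r := by
    rw [circleIntegrable_sub_inv_iff]; right; simp; intro h0
    rw [abs_of_pos hr] at h0; linarith
  rw [circleIntegral.integral_smul, circleIntegral.integral_sub c1 c2,
    circleIntegral.integral_sub_inv_of_mem_ball (mem_ball_self hr),
    circleIntegral.integral_sub_inv_of_mem_ball (by simpa using h), sub_self, smul_zero] at h2
  rw [h2] at h1
  rcases mul_eq_zero.1 h1.symm with h3 | h3
  · exact absurd h3 Complex.I_ne_zero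
  · exact h3

theorem circle_symm {z : ℂ} {r : ℝ} : ∫ θ in Ioo (-Real.pi) Real.pi,
    (z - Complex.polarCoord.symm (r, θ))⁻¹
      = ∫ θ in (0:ℝ)..(2 * Real.pi), (z - circleMap 0 r θ)⁻¹ := by
  have hper : Function.Periodic (fun θ : ℝ => (z - circleMap 0 r θ)⁻¹) (2 * Real.pi) := by
    intro θ
    simp only
    rw [periodic_circleMap 0 r θ]
  have h1 := hper.intervalIntegral_add_eq (-Real.pi) 0
  rw [zero_add, show -Real.pi + 2 * Real.pi = Real.pi by ring] at h1
  rw [← h1, intervalIntegral.integral_of_le (by linarith [Real.pi_pos]),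
    MeasureTheory.integral_Ioc_eq_integral_Ioo]
  apply setIntegral_congr_fun measurableSet_Ioo
  intro θ _
  simp only [Complex.polarCoord_symm_apply, circleMap, zero_add]
  rw [Complex.exp_mul_I]
  push_cast
  rfl

/-- the Cauchy kernel is locally integrable, uniformly -/
theorem lintegral_kernel (z : ℂ) {R : ℝ} (hR : 0 < R) (hz : ‖z‖ ≤ R) :
    ∫⁻ x in ball (0:ℂ) R, ‖(z - x)⁻¹‖ₑ ≤ ENNReal.ofReal (4 * Real.pi * R) := by
  have h1 : ∫⁻ x in ball (0:ℂ) R, ‖(z - x)⁻¹‖ₑ
      = ∫⁻ x, (ball (0:ℂ) R).indicator (fun x => ‖(z - x)⁻¹‖ₑ) x := by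
    rw [lintegral_indicator measurableSet_ball]
  rw [h1]
  have h2 : ∫⁻ x, (ball (0:ℂ) R).indicator (fun x => ‖(z - x)⁻¹‖ₑ) x
      = ∫⁻ y, (ball (0:ℂ) R).indicator (fun x => ‖(z - x)⁻¹‖ₑ) (z - y) := by
    rw [lintegral_sub_left_eq_self (fun x => (ball (0:ℂ) R).indicator (fun x => ‖(z - x)⁻¹‖ₑ) x) z]
  rw [h2]
  calc ∫⁻ y, (ball (0:ℂ) R).indicator (fun x => ‖(z - x)⁻¹‖ₑ) (z - y)
      ≤ ∫⁻ y, (ball (0:ℂ) (2 * R)).indicator (fun y => ‖y⁻¹‖ₑ) y := by
        apply lintegral_mono
        intro y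
        beta_reduce
        by_cases hy : z - y ∈ ball (0:ℂ) R
        · rw [indicator_of_mem hy, indicator_of_mem]
          · rw [sub_sub_cancel]
          · rw [mem_ball, dist_zero_right] at hy ⊢
            calc ‖y‖ = ‖z - (z - y)‖ := by rw [sub_sub_cancel]
              _ ≤ ‖z‖ + ‖z - y‖ := norm_sub_le _ _
              _ < 2 * R := by linarith
        · rw [indicator_of_notMem hy]; exact zero_le
    _ = ∫⁻ p in polarCoord.target, ENNReal.ofReal p.1 •
          (ball (0:ℂ) (2 * R)).indicator (fun y => ‖y⁻¹‖ₑ) (Complex.polarCoord.symm p) :=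
        (Complex.lintegral_comp_polarCoord_symm _).symm
    _ ≤ ∫⁻ p in polarCoord.target, (Ioo 0 (2 * R) ×ˢ Ioo (-Real.pi) Real.pi).indicator
          (fun _ => (1 : ENNReal)) p := by
        apply setLIntegral_mono' polarCoord.open_target.measurableSet
        intro p hp
        rw [polarCoord_target] at hp
        have hp0 : 0 < p.1 := hp.1
        by_cases hy : Complex.polarCoord.symm p ∈ ball (0:ℂ) (2 * R)
        · rw [indicator_of_mem hy]
          have hn : ‖Complex.polarCoord.symm p‖ = p.1 := by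
            rw [Complex.norm_polarCoord_symm, abs_of_pos hp0]
          rw [mem_ball, dist_zero_right, hn] at hy
          have hmem : p ∈ Ioo 0 (2 * R) ×ˢ Ioo (-Real.pi) Real.pi := ⟨⟨hp0, hy⟩, hp.2⟩
          rw [indicator_of_mem hmem]
          rw [← ofReal_norm, norm_inv, hn, smul_eq_mul, ← ENNReal.ofReal_mul hp0.le,
            mul_inv_cancel₀ hp0.ne', ENNReal.ofReal_one]
        · rw [indicator_of_notMem hy, smul_zero]; exact zero_le
    _ ≤ ∫⁻ p, (Ioo 0 (2 * R) ×ˢ Ioo (-Real.pi) Real.pi).indicator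
          (fun _ => (1 : ENNReal)) p := setLIntegral_le_lintegral _ _
    _ = ENNReal.ofReal (4 * Real.pi * R) := by
        rw [lintegral_indicator (measurableSet_Ioo.prod measurableSet_Ioo), lintegral_one,
          Measure.restrict_apply_univ, Measure.volume_eq_prod, Measure.prod_prod, Real.volume_Ioo,
          Real.volume_Ioo, ← ENNReal.ofReal_mul (by linarith)]
        congr 1; ring

theorem integrableOn_kernel (z : ℂ) {R : ℝ} (hR : 0 < R) (hz : ‖z‖ ≤ R) :
    IntegrableOn (fun x => (z - x)⁻¹) (ball (0:ℂ) R) := by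
  refine ⟨?_, ?_⟩
  · apply Measurable.aestronglyMeasurable
    exact (measurable_const.sub measurable_id).inv
  · rw [hasFiniteIntegral_def]
    exact lt_of_le_of_lt (lintegral_kernel z hR hz) ENNReal.ofReal_lt_top

theorem integral_kernel {z : ℂ} {R : ℝ} (hz : ‖z‖ < R) (hz0 : z ≠ 0) :
    ∫ x in ball (0:ℂ) R, (z - x)⁻¹ = Real.pi * (starRingEnd ℂ) z := by
  have hR : 0 < R := lt_of_le_of_lt (norm_nonneg _) hz
  have h1 : ∫ x in ball (0:ℂ) R, (z - x)⁻¹
      = ∫ x, (ball (0:ℂ) R).indicator (fun x => (z - x)⁻¹) x := by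
    rw [integral_indicator measurableSet_ball]
  rw [h1, ← Complex.integral_comp_polarCoord_symm]
  -- restrict to the box
  set g : ℝ × ℝ → ℂ := fun p => p.1 • (ball (0:ℂ) R).indicator (fun x => (z - x)⁻¹)
    (Complex.polarCoord.symm p) with hg
  have hgm : Measurable g := by
    apply Measurable.smul measurable_fst
    have m1 : Measurable ((ball (0:ℂ) R).indicator (fun x => (z - x)⁻¹)) :=
      Measurable.indicator (measurable_const.sub measurable_id).inv measurableSet_ball
    have m2 : Measurable (Complex.polarCoord.symm : ℝ × ℝ → ℂ) := by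
      have : (Complex.polarCoord.symm : ℝ × ℝ → ℂ) =
          fun p : ℝ × ℝ => (p.1 : ℂ) * (Real.cos p.2 + Real.sin p.2 * Complex.I) := by
        funext p; exact Complex.polarCoord_symm_apply p
      rw [this]; fun_prop
    exact m1.comp m2
  have hgi : IntegrableOn g (Ioi 0 ×ˢ Ioo (-Real.pi) Real.pi) := by
    refine ⟨hgm.aestronglyMeasurable, ?_⟩
    rw [hasFiniteIntegral_def, ← polarCoord_target]
    have : ∫⁻ p in polarCoord.target, ‖g p‖ₑ
        = ∫⁻ x, ‖(ball (0:ℂ) R).indicator (fun x => (z - x)⁻¹) x‖ₑ := by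
      rw [← Complex.lintegral_comp_polarCoord_symm]
      apply setLIntegral_congr_fun polarCoord.open_target.measurableSet
      intro p hp
      rw [polarCoord_target] at hp
      simp only [hg]
      rw [enorm_smul, smul_eq_mul, Real.enorm_of_nonneg (le_of_lt hp.1)]
    rw [this]
    have h2 : ∫⁻ x, ‖(ball (0:ℂ) R).indicator (fun x => (z - x)⁻¹) x‖ₑ
        = ∫⁻ x in ball (0:ℂ) R, ‖(z - x)⁻¹‖ₑ := by
      rw [← lintegral_indicator measurableSet_ball]
      apply lintegral_congr
      intro x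
      exact enorm_indicator_eq_indicator_enorm _ _
    rw [h2]
    exact lt_of_le_of_lt (lintegral_kernel z hR hz.le) ENNReal.ofReal_lt_top
  rw [polarCoord_target, Measure.volume_eq_prod, setIntegral_prod g hgi]
  have hin : ∀ r ∈ Ioi (0:ℝ), r ≠ ‖z‖ → r ≠ R → ∫ θ in Ioo (-Real.pi) Real.pi, g (r, θ)
      = (Ioo (0:ℝ) ‖z‖).indicator (fun r => (r : ℂ) * (2 * Real.pi / z)) r := by
    intro r hr hrz hrR
    have hr0 : 0 < r := hr
    have hn : ∀ θ : ℝ, ‖Complex.polarCoord.symm (r, θ)‖ = r := fun θ => by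
      rw [Complex.norm_polarCoord_symm, abs_of_pos hr0]
    by_cases hrR' : r < R
    · have : ∀ θ : ℝ, g (r, θ) = (r : ℂ) * (z - Complex.polarCoord.symm (r, θ))⁻¹ := by
        intro θ
        simp only [hg]
        rw [indicator_of_mem, Complex.real_smul]
        rw [mem_ball, dist_zero_right, hn]; exact hrR'
      simp_rw [this]
      rw [integral_const_mul, circle_symm]
      rcases lt_or_gt_of_ne hrz with h | h
      · have hmem : r ∈ Ioo (0:ℝ) ‖z‖ := ⟨hr0, h⟩
        rw [circle_in hr0 h, indicator_of_mem hmem]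
      · rw [circle_out hr0 h hz0, indicator_of_notMem, mul_zero]
        intro hh; linarith [hh.2]
    · have : ∀ θ : ℝ, g (r, θ) = 0 := by
        intro θ
        simp only [hg]
        rw [indicator_of_notMem, smul_zero]
        rw [mem_ball, dist_zero_right, hn]; exact hrR'
      simp_rw [this]
      rw [integral_zero, indicator_of_notMem]
      intro hh
      push Not at hrR'
      linarith [hh.2]
  have hae : ∀ᵐ r ∂(volume.restrict (Ioi (0:ℝ))), ∫ θ in Ioo (-Real.pi) Real.pi, g (r, θ)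
      = (Ioo (0:ℝ) ‖z‖).indicator (fun r => (r : ℂ) * (2 * Real.pi / z)) r := by
    have hne : ∀ᵐ r ∂(volume.restrict (Ioi (0:ℝ))), r ≠ ‖z‖ ∧ r ≠ R := by
      apply Filter.Eventually.and
      · exact (Measure.ae_ne _ _)
      · exact (Measure.ae_ne _ _)
    filter_upwards [hne, ae_restrict_mem measurableSet_Ioi] with r h1 h2
    exact hin r h2 h1.1 h1.2
  rw [integral_congr_ae hae]
  rw [setIntegral_indicator measurableSet_Ioo]
  have hset : Ioi (0:ℝ) ∩ Ioo 0 ‖z‖ = Ioo 0 ‖z‖ := by
    ext x; constructor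
    · exact fun h => h.2
    · exact fun h => ⟨h.1, h⟩
  rw [hset, integral_mul_const, ← MeasureTheory.integral_Ioc_eq_integral_Ioo,
    ← intervalIntegral.integral_of_le (norm_nonneg _)]
  have hint : ∫ x in (0:ℝ)..‖z‖, (x : ℂ) = ((‖z‖ ^ 2 / 2 : ℝ) : ℂ) := by
    rw [intervalIntegral.integral_ofReal, integral_id]
    congr 1; ring
  rw [hint]
  have hzz : z * (starRingEnd ℂ) z = ((‖z‖ ^ 2 : ℝ) : ℂ) := by
    rw [Complex.mul_conj, Complex.normSq_eq_norm_sq]
  field_simp
  push_cast at hzz ⊢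
  rw [← hzz]; ring

theorem integral_kernel' {z : ℂ} {R : ℝ} (hz : ‖z‖ < R) :
    ∫ x in ball (0:ℂ) R, (z - x)⁻¹ = Real.pi * (starRingEnd ℂ) z := by
  by_cases hz0 : z = 0
  · rw [hz0, map_zero, mul_zero, ← integral_indicator measurableSet_ball]
    set f : ℂ → ℂ := (ball (0:ℂ) R).indicator (fun x => ((0:ℂ) - x)⁻¹) with hf
    have h1 : ∫ x, f (-x) = ∫ x, f x := integral_neg_eq_self f volume
    have h2 : ∀ x, f (-x) = - f x := by
      intro x
      rw [hf]
      by_cases hx : x ∈ ball (0:ℂ) R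
      · have hx' : -x ∈ ball (0:ℂ) R := by simpa using hx
        rw [indicator_of_mem hx, indicator_of_mem hx']
        rw [zero_sub, zero_sub, inv_neg]
      · have hx' : -x ∉ ball (0:ℂ) R := by simpa using hx
        rw [indicator_of_notMem hx, indicator_of_notMem hx', neg_zero]
    simp_rw [h2] at h1
    rw [integral_neg] at h1
    have h3 : (2 : ℂ) * ∫ x, f x = 0 := by linear_combination -h1
    rcases mul_eq_zero.1 h3 with h | h
    · norm_num at h
    · exact h
  · exact integral_kernel hz hz0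

end

end Pool.Agent.MP_4c0f47_an
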