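import Pool.Agent.Lib.MP_4c0f47_an.WindNet
import Pool.Agent.Lib.MP_4c0f47_an.AreaA

set_option autoImplicit false

open Set Filter Topology Complex MeasureTheory Metric

namespace Pool.Agent.MP_4c0f47_an

noncomputable section

theorem volume_curve {z : ℝ → ℂ} {J : Set ℝ} (hz : ∀ t ∈ J, DifferentiableAt ℝ z t) :
    volume (z '' J) = 0 := by
  set s : Set ℂ := {w | w.im = 0 ∧ w.re ∈ J} with hs
  have himg : z '' J = (fun w : ℂ => z w.re) '' s := by
    ext p; constructor
    · rintro ⟨t, ht, rfl⟩; exact ⟨(t : ℂ), ⟨by simp, by simpa using ht⟩, by simp⟩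
    · rintro ⟨w, ⟨_, hw⟩, rfl⟩; exact ⟨w.re, hw, rfl⟩
  rw [himg]
  apply MeasureTheory.addHaar_image_eq_zero_of_differentiableOn_of_addHaar_eq_zero
  · intro w hw
    have : DifferentiableAt ℝ (fun w : ℂ => z w.re) w :=
      DifferentiableAt.comp w (hz w.re hw.2) Complex.reCLM.differentiableAt
    exact this.differentiableWithinAt
  · have hker : s ⊆ (LinearMap.ker Complex.imLm : Set ℂ) := by
      intro w hw; exact hw.1
    apply measure_mono_null hker
    apply Measure.addHaar_submodule
    intro htop
    have : (I : ℂ) ∈ LinearMap.ker Complex.imLm := by rw [htop]; trivial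
    simp at this

namespace Net

variable {N : Net}

theorem volume_carrier : volume N.carrier = 0 := by
  have hsub : N.carrier ⊆ N.verts ∪ ⋃ d : N.D, N.z d '' N.int d := by
    intro p hp
    rcases N.carrier_cases hp with h | ⟨d, t, ht, rfl⟩
    · exact Or.inl h
    · exact Or.inr (mem_iUnion.2 ⟨d, t, ht, rfl⟩)
  apply measure_mono_null hsub
  apply measure_union_null (N.finite_verts.measure_zero _)
  apply measure_iUnion_null
  intro d
  exact volume_curve (fun t ht => (N.hasDerivAt_z ht).differentiableAt)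

theorem integral_ind (d : N.D) {R : ℝ} (hR : ∀ t ∈ Icc 0 (N.L d), ‖N.z d t‖ < R) :
    IntegrableOn (N.ind d) (ball (0:ℂ) R) ∧
    ∫ x in ball (0:ℂ) R, N.ind d x
      = ∫ t in (0:ℝ)..(N.L d), dir (N.a d t) * (Real.pi * (starRingEnd ℂ) (N.z d t)) := by
  have hL := N.L_pos d
  have hRp : 0 < R := lt_of_le_of_lt (norm_nonneg _) (hR 0 ⟨le_rfl, hL.le⟩)
  have hg := N.geoL d
  set zt : ℝ → ℂ := IccExtend hL.le (fun t : Icc 0 (N.L d) => N.z d t) with hzt
  set at' : ℝ → ℂ := IccExtend hL.le (fun t : Icc 0 (N.L d) => dir (N.a d t)) with hat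
  have hztc : Continuous zt := by
    rw [hzt, continuous_IccExtend_iff]
    exact continuousOn_iff_continuous_restrict.1 hg.cz
  have hatc : Continuous at' := by
    rw [hat, continuous_IccExtend_iff]
    exact continuousOn_iff_continuous_restrict.1 (continuous_dir.comp_continuousOn hg.ca)
  have hzte : ∀ t ∈ Icc 0 (N.L d), zt t = N.z d t := fun t ht => by
    rw [hzt, IccExtend_of_mem _ _ ht]
  have hate : ∀ t ∈ Icc 0 (N.L d), at' t = dir (N.a d t) := fun t ht => by
    rw [hat, IccExtend_of_mem _ _ ht]
  have hatn : ∀ t, ‖at' t‖ ≤ 1 := by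
    intro t
    rw [hat]
    simp only [IccExtend, Function.comp]
    rw [norm_dir]
  have hztR : ∀ t, ‖zt t‖ < R := by
    intro t
    rw [hzt]
    simp only [IccExtend, Function.comp]
    exact hR _ (projIcc 0 (N.L d) hL.le t).2
  set f : ℂ → ℝ → ℂ := fun x t => at' t * (zt t - x)⁻¹ with hf
  have hfm : Measurable (Function.uncurry f) := by
    apply Measurable.mul (hatc.measurable.comp measurable_snd)
    exact ((hztc.measurable.comp measurable_snd).sub measurable_fst).inv
  have hint : Integrable (Function.uncurry f)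
      ((volume.restrict (ball (0:ℂ) R)).prod (volume.restrict (Ioc 0 (N.L d)))) := by
    refine ⟨hfm.aestronglyMeasurable, ?_⟩
    rw [hasFiniteIntegral_def, lintegral_prod_symm' _ (hfm.enorm)]
    calc ∫⁻ t in Ioc 0 (N.L d), ∫⁻ x in ball (0:ℂ) R, ‖Function.uncurry f (x, t)‖ₑ
        ≤ ∫⁻ t in Ioc 0 (N.L d), ENNReal.ofReal (4 * Real.pi * R) := by
          apply lintegral_mono
          intro t
          refine le_trans ?_ (lintegral_kernel (zt t) hRp (hztR t).le)
          apply lintegral_mono
          intro x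
          simp only [Function.uncurry, hf]
          rw [enorm_mul]
          calc ‖at' t‖ₑ * ‖(zt t - x)⁻¹‖ₑ ≤ 1 * ‖(zt t - x)⁻¹‖ₑ := by
                apply mul_le_mul_left
                rw [← ofReal_norm, ← ENNReal.ofReal_one]
                exact ENNReal.ofReal_le_ofReal (hatn t)
            _ = _ := one_mul _
      _ = ENNReal.ofReal (4 * Real.pi * R) * volume (Ioc 0 (N.L d)) := by
          rw [lintegral_const, Measure.restrict_apply_univ]
      _ < ⊤ := by
          rw [Real.volume_Ioc]
          exact ENNReal.mul_lt_top ENNReal.ofReal_lt_top ENNReal.ofReal_lt_top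
  have hind : ∀ x, N.ind d x = ∫ t in Ioc 0 (N.L d), f x t := by
    intro x
    unfold ind cind
    rw [intervalIntegral.integral_of_le hL.le]
    apply setIntegral_congr_fun measurableSet_Ioc
    intro t ht
    simp only [hf]
    rw [hate t (Ioc_subset_Icc_self ht), hzte t (Ioc_subset_Icc_self ht), div_eq_mul_inv]
  constructor
  · have := hint.integral_prod_left
    refine this.congr ?_
    apply Filter.Eventually.of_forall
    intro x
    simp only [Function.uncurry]
    exact (hind x).symm
  · simp_rw [hind]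
    rw [integral_integral_swap hint, intervalIntegral.integral_of_le hL.le]
    apply setIntegral_congr_fun measurableSet_Ioc
    intro t ht
    simp only [hf]
    rw [integral_const_mul, integral_kernel' (hztR t)]
    rw [hate t (Ioc_subset_Icc_self ht), hzte t (Ioc_subset_Icc_self ht)]

/-- `Im ∫ conj z dz` is the total turning -/
theorem im_integral (d : N.D) :
    (∫ t in (0:ℝ)..(N.L d), dir (N.a d t) * (Real.pi * (starRingEnd ℂ) (N.z d t))).im
      = Real.pi * N.turn d := by
  have hL := N.L_pos d
  have hg := N.geoL d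
  have hcont : ContinuousOn (fun t => dir (N.a d t) * (Real.pi * (starRingEnd ℂ) (N.z d t)))
      (Icc 0 (N.L d)) :=
    (continuous_dir.comp_continuousOn hg.ca).mul (continuousOn_const.mul
      (Complex.continuous_conj.comp_continuousOn hg.cz))
  have hii : IntervalIntegrable (fun t => dir (N.a d t) * (Real.pi * (starRingEnd ℂ) (N.z d t)))
      volume 0 (N.L d) := by
    apply ContinuousOn.intervalIntegrable; rwa [uIcc_of_le hL.le]
  have h1 : (∫ t in (0:ℝ)..(N.L d), dir (N.a d t) * (Real.pi * (starRingEnd ℂ) (N.z d t))).im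
      = ∫ t in (0:ℝ)..(N.L d), (dir (N.a d t) * (Real.pi * (starRingEnd ℂ) (N.z d t))).im := by
    have := Complex.imCLM.intervalIntegral_comp_comm hii
    simp only [Complex.imCLM_apply] at this
    exact this.symm
  rw [h1]
  have h2 : ∀ t, (dir (N.a d t) * (Real.pi * (starRingEnd ℂ) (N.z d t))).im
      = Real.pi * cross (N.z d t) (dir (N.a d t)) := by
    intro t
    simp [cross, Complex.mul_im, Complex.mul_re]; ring
  simp_rw [h2]
  rw [intervalIntegral.integral_const_mul]
  congr 1
  unfold turn
  apply intervalIntegral.integral_eq_sub_of_hasDeriv_right_of_le hL.le hg.ca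
  · intro t ht; exact (hg.da t ht).hasDerivWithinAt
  · apply ContinuousOn.intervalIntegrable
    rw [uIcc_of_le hL.le]
    exact hg.continuousOn_cross

/-- area formula from a winding number identity -/
theorem area_formula {S : Finset N.D} {F : Set ℂ} {R : ℝ} (hFR : F ⊆ ball (0:ℂ) R)
    (hFm : MeasurableSet F)
    (hR : ∀ d ∈ S, ∀ t ∈ Icc 0 (N.L d), ‖N.z d t‖ < R)
    (hw : ∀ x, x ∉ N.carrier → ∑ d ∈ S, N.ind d x = F.indicator (fun _ => 2 * Real.pi * I) x) :
    2 * (volume F).toReal = ∑ d ∈ S, N.turn d := by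
  have h1 : ∫ x in ball (0:ℂ) R, ∑ d ∈ S, N.ind d x
      = ∑ d ∈ S, ∫ x in ball (0:ℂ) R, N.ind d x :=
    integral_finsetSum S (fun d hd => (N.integral_ind d (hR d hd)).1)
  have h2 : ∫ x in ball (0:ℂ) R, ∑ d ∈ S, N.ind d x
      = ∫ x in ball (0:ℂ) R, F.indicator (fun _ => (2 * Real.pi * I : ℂ)) x := by
    apply integral_congr_ae
    apply ae_restrict_of_ae
    have : ∀ᵐ x ∂(volume : Measure ℂ), x ∉ N.carrier := measure_eq_zero_iff_ae_notMem.1 N.volume_carrier
    filter_upwards [this] with x hx
    exact hw x hx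
  have h3 : ∫ x in ball (0:ℂ) R, F.indicator (fun _ => (2 * Real.pi * I : ℂ)) x
      = ((volume F).toReal : ℂ) * (2 * Real.pi * I) := by
    rw [setIntegral_indicator hFm, inter_eq_self_of_subset_right hFR, setIntegral_const]
    rw [Complex.real_smul]; rfl
  rw [h2, h3] at h1
  have h4 := congrArg Complex.im h1
  rw [Complex.im_sum, Finset.sum_congr rfl (fun d hd => by
    rw [(N.integral_ind d (hR d hd)).2, N.im_integral d]), ← Finset.mul_sum] at h4
  have h5 : (((volume F).toReal : ℂ) * (2 * Real.pi * I)).im = (volume F).toReal * (2 * Real.pi) := by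
    have : ((volume F).toReal : ℂ) * (2 * Real.pi * I)
        = (((volume F).toReal * (2 * Real.pi) : ℝ) : ℂ) * I := by push_cast; ring
    rw [this]; simp
  rw [h5] at h4
  have hpi := Real.pi_pos
  have : Real.pi * (2 * (volume F).toReal) = Real.pi * ∑ d ∈ S, N.turn d := by linarith
  exact mul_left_cancel₀ hpi.ne' this

end Net

end

end Pool.Agent.MP_4c0f47_an
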