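import Pool.Agent.Lib.MP_4c0f47_an.AreaB

set_option autoImplicit false

open Set Filter Topology Complex MeasureTheory Metric

namespace Pool.Agent.MP_4c0f47_an

noncomputable section

namespace Net

variable {N : Net}

theorem ray_image_unbounded {d : N.D} (hd : N.isRay d) {F : Set ℂ}
    (hF : ∀ t ∈ N.int d, N.z d t ∈ closure F) : ¬ Bornology.IsBounded F := by
  intro hb
  obtain ⟨R, hR⟩ := (hb.closure).subset_closedBall 0
  have h1 := (tendsto_atTop.1 (N.ray_inf d hd) (R + 1))
  obtain ⟨M, hM⟩ := eventually_atTop.1 h1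
  have h2 := hM (max M 1) (le_max_left _ _)
  have h3 : max M 1 ∈ N.int d := ⟨lt_of_lt_of_le one_pos (le_max_right _ _), Or.inl hd⟩
  have h4 := hR (hF _ h3)
  rw [mem_closedBall, dist_zero_right] at h4
  linarith

theorem mem_closure_faceR {d : N.D} {t : ℝ} (ht : t ∈ N.int d) : N.z d t ∈ closure (N.faceR d) :=
  LC.mem_closure_side (by simp) (N.faceR_spec d t ht)

theorem faceL_ray {d : N.D} (hd : N.isRay d) : ¬ Bornology.IsBounded (N.faceL d) :=
  ray_image_unbounded hd (fun _ ht => N.mem_closure_faceL ht)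

theorem faceR_ray {d : N.D} (hd : N.isRay d) : ¬ Bornology.IsBounded (N.faceR d) :=
  ray_image_unbounded hd (fun _ ht => N.mem_closure_faceR ht)

open Classical in
/-- directed edges having `F` on their left -/
def bdry (N : Net) (F : Set ℂ) : Finset N.D := Finset.univ.filter (fun d => N.faceL d = F)

theorem mem_bdry {F : Set ℂ} {d : N.D} : d ∈ N.bdry F ↔ N.faceL d = F := by
  classical
  simp [bdry]

theorem bdry_arc {F : Set ℂ} (hF : Bornology.IsBounded F) {d : N.D} (hd : d ∈ N.bdry F) :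
    ¬ N.isRay d := by
  intro hr
  rw [mem_bdry] at hd
  exact N.faceL_ray hr (hd ▸ hF)

theorem left_mem_bdry {F : Set ℂ} (hF : Bornology.IsBounded F) {d : N.D} (hd : d ∈ N.bdry F) :
    N.left d ∈ N.bdry F := by
  have hr := bdry_arc hF hd
  rw [mem_bdry] at hd ⊢
  rw [faceL_left hr, hd]

open Classical in
theorem image_left {F : Set ℂ} (hF : Bornology.IsBounded F) :
    (N.bdry F).image N.left = N.bdry F := by
  apply Finset.eq_of_subset_of_card_le
  · intro e he
    obtain ⟨d, hd, rfl⟩ := Finset.mem_image.1 he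
    exact left_mem_bdry hF hd
  · rw [Finset.card_image_of_injOn]
    intro d hd d' hd' heq
    exact left_injective_on (bdry_arc hF hd) (bdry_arc hF hd') heq

theorem injOn_left {F : Set ℂ} (hF : Bornology.IsBounded F) :
    Set.InjOn N.left (N.bdry F) := fun _ hd _ hd' heq =>
  left_injective_on (bdry_arc hF hd) (bdry_arc hF hd') heq

theorem sum_left {A : Type*} [AddCommMonoid A] {F : Set ℂ} (hF : Bornology.IsBounded F)
    (h : N.D → A) : ∑ d ∈ N.bdry F, h (N.left d) = ∑ d ∈ N.bdry F, h d := by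
  classical
  conv_rhs => rw [← image_left hF]
  rw [Finset.sum_image]
  exact injOn_left hF

theorem prod_left {A : Type*} [CommMonoid A] {F : Set ℂ} (hF : Bornology.IsBounded F)
    (h : N.D → A) : ∏ d ∈ N.bdry F, h (N.left d) = ∏ d ∈ N.bdry F, h d := by
  classical
  conv_rhs => rw [← image_left hF]
  rw [Finset.prod_image]
  exact injOn_left hF

theorem sum_tgt {A : Type*} [AddCommMonoid A] {F : Set ℂ} (hF : Bornology.IsBounded F)
    (g : ℂ → A) : ∑ d ∈ N.bdry F, g (N.tgt d) = ∑ d ∈ N.bdry F, g (N.src d) := by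
  rw [← sum_left hF (fun d => g (N.src d))]
  apply Finset.sum_congr rfl
  intro d hd
  rw [N.src_left (bdry_arc hF hd)]

/-- boundary winding function -/
def W (N : Net) (F : Set ℂ) (x : ℂ) : ℂ := ∑ d ∈ N.bdry F, N.ind d x

open Classical in
theorem W_eq_wind (F : Set ℂ) : N.W F = N.wind (fun d => if N.faceL d = F then 1 else 0) := by
  funext x
  unfold W wind bdry
  rw [Finset.sum_filter]
  apply Finset.sum_congr rfl
  intro d _
  by_cases h : N.faceL d = F
  · simp [h]
  · simp [h]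

/-- components of the complement -/
def IsComp (N : Net) (F : Set ℂ) : Prop :=
  ∃ x ∈ N.carrierᶜ, F = connectedComponentIn N.carrierᶜ x

theorem IsComp.eq {F G : Set ℂ} (hF : N.IsComp F) (hG : N.IsComp G) {x : ℂ} (h1 : x ∈ F)
    (h2 : x ∈ G) : F = G := by
  obtain ⟨a, _, rfl⟩ := hF
  obtain ⟨b, _, rfl⟩ := hG
  rw [connectedComponentIn_eq h1, connectedComponentIn_eq h2]

theorem IsComp.sub {F : Set ℂ} (hF : N.IsComp F) : F ⊆ N.carrierᶜ := by
  obtain ⟨a, _, rfl⟩ := hF
  exact connectedComponentIn_subset _ _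

theorem IsComp.isOpen {F : Set ℂ} (hF : N.IsComp F) : IsOpen F := by
  obtain ⟨a, _, rfl⟩ := hF
  exact N.isClosed_carrier.isOpen_compl.connectedComponentIn

theorem IsComp.nonempty {F : Set ℂ} (hF : N.IsComp F) : F.Nonempty := by
  obtain ⟨a, ha, rfl⟩ := hF
  exact ⟨a, mem_connectedComponentIn ha⟩

theorem IsComp.isPreconnected {F : Set ℂ} (hF : N.IsComp F) : IsPreconnected F := by
  obtain ⟨a, ha, rfl⟩ := hF
  exact isPreconnected_connectedComponentIn

theorem isComp_faceL (d : N.D) : N.IsComp (N.faceL d) := N.faceL_comp d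
theorem isComp_faceR (d : N.D) : N.IsComp (N.faceR d) := N.faceR_comp d

theorem isComp_of {x : ℂ} (hx : x ∉ N.carrier) : N.IsComp (connectedComponentIn N.carrierᶜ x) :=
  ⟨x, hx, rfl⟩

theorem src_ne {d : N.D} {x : ℂ} (hx : x ∉ N.carrier) : N.src d - x ≠ 0 := by
  intro h
  rw [sub_eq_zero] at h
  exact hx (h ▸ N.mem_carrier (N.zero_mem_dom d))

theorem W_int {F : Set ℂ} (hF : Bornology.IsBounded F) {x : ℂ} (hx : x ∉ N.carrier) :
    ∃ n : ℤ, N.W F x = n * (2 * Real.pi * I) := by
  apply Complex.exp_eq_one_iff.1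
  unfold W
  rw [Complex.exp_sum]
  rw [Finset.prod_congr rfl (fun d _ => N.exp_ind d hx), Finset.prod_div_distrib]
  have : ∏ d ∈ N.bdry F, (N.tgt d - x) = ∏ d ∈ N.bdry F, (N.src d - x) := by
    rw [← prod_left hF (fun d => N.src d - x)]
    apply Finset.prod_congr rfl
    intro d hd
    rw [N.src_left (bdry_arc hF hd)]
  rw [this, div_self]
  apply Finset.prod_ne_zero_iff.2
  intro d _
  exact src_ne hx

theorem W_const {F : Set ℂ} (hF : Bornology.IsBounded F) {G : Set ℂ} (hG : N.IsComp G) {x y : ℂ}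
    (hx : x ∈ G) (hy : y ∈ G) : N.W F x = N.W F y := by
  have hsub := hG.sub
  apply const_of_int_valued hG.isPreconnected (f := N.W F)
  · intro u hu
    rw [W_eq_wind]
    exact (N.continuousAt_wind _ (hsub hu)).continuousWithinAt
  · intro u hu; exact W_int hF (hsub hu)
  · exact hx
  · exact hy

/-- the difference which will be shown to vanish -/
def MM (N : Net) (F : Set ℂ) (x : ℂ) : ℂ :=
  N.W F x - F.indicator (fun _ => (2 * Real.pi * I : ℂ)) x

theorem indicator_comp {F : Set ℂ} (hFc : N.IsComp F) {G : Set ℂ} (hG : N.IsComp G) {x : ℂ}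
    (hx : x ∈ G) (a : ℂ) : F.indicator (fun _ => a) x = if G = F then a else 0 := by
  by_cases h : G = F
  · rw [if_pos h, indicator_of_mem (h ▸ hx)]
  · rw [if_neg h, indicator_of_notMem]
    intro hxF
    exact h (hG.eq hFc hx hxF)

theorem MM_const {F : Set ℂ} (hF : Bornology.IsBounded F) (hFc : N.IsComp F) {G : Set ℂ}
    (hG : N.IsComp G) {x y : ℂ} (hx : x ∈ G) (hy : y ∈ G) : N.MM F x = N.MM F y := by
  unfold MM
  rw [W_const hF hG hx hy, indicator_comp hFc hG hx, indicator_comp hFc hG hy]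

theorem near_sides {d : N.D} {t : ℝ} (ht : t ∈ N.int d) : ∃ ρ > 0, ∀ w, w ∉ N.carrier →
    ‖w - N.z d t‖ < ρ → w ∈ N.faceL d ∨ w ∈ N.faceR d := by
  obtain ⟨δ1, hδ1, h1⟩ := N.faceL_spec d _ ht
  obtain ⟨δ2, hδ2, h2⟩ := N.faceR_spec d _ ht
  obtain ⟨ρ, hρ, h3⟩ := (N.lc d).near ht (lt_min hδ1 hδ2)
  refine ⟨ρ, hρ, fun w hw hlt => ?_⟩
  obtain ⟨t', ht', s, hs, ht'J, hwe⟩ := h3 w hlt
  have hm1 := min_le_left δ1 δ2
  have hm2 := min_le_right δ1 δ2
  rcases lt_trichotomy s 0 with hs0 | hs0 | hs0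
  · right
    rw [abs_of_neg hs0] at hs
    have := h2 t' ⟨by linarith [ht'.1], by linarith [ht'.2]⟩ (-s) ⟨by linarith, by linarith⟩
    rw [show (-1 : ℝ) * -s = s by ring, ← hwe] at this
    rw [← this.2]; exact mem_connectedComponentIn this.1
  · exfalso
    apply hw
    rw [hwe, hs0]
    have : pt (N.z d) (N.a d) t' 0 = N.z d t' := by simp [pt]
    rw [this]; exact (N.lc d).sub t' ht'J
  · left
    rw [abs_of_pos hs0] at hs
    have := h1 t' ⟨by linarith [ht'.1], by linarith [ht'.2]⟩ s ⟨hs0, by linarith⟩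
    rw [one_mul, ← hwe] at this
    rw [← this.2]; exact mem_connectedComponentIn this.1

/-- values of `MM` on the two sides of an edge agree -/
theorem MM_jump {F : Set ℂ} (hF : Bornology.IsBounded F) (hFc : N.IsComp F) (d : N.D) {x y : ℂ}
    (hx : x ∈ N.faceL d) (hy : y ∈ N.faceR d) : N.MM F x = N.MM F y := by
  classical
  have ht := N.half_mem_int d
  obtain ⟨δ1, hδ1, h1⟩ := N.faceL_spec d _ ht
  obtain ⟨δ2, hδ2, h2⟩ := N.faceR_spec d _ ht
  have hev : ∀ᶠ s in 𝓝[>] (0:ℝ), N.W F (pt (N.z d) (N.a d) (N.L d / 2) s)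
      - N.W F (pt (N.z d) (N.a d) (N.L d / 2) (-s)) = N.W F x - N.W F y := by
    filter_upwards [Ioo_mem_nhdsGT (show (0 : ℝ) < min δ1 δ2 from lt_min hδ1 hδ2)] with s hs
    have e1 := h1 (N.L d / 2) ⟨by linarith, by linarith⟩ s ⟨hs.1, lt_of_lt_of_le hs.2 (min_le_left _ _)⟩
    have e2 := h2 (N.L d / 2) ⟨by linarith, by linarith⟩ s ⟨hs.1, lt_of_lt_of_le hs.2 (min_le_right _ _)⟩
    rw [one_mul] at e1
    rw [neg_one_mul] at e2
    have m1 : pt (N.z d) (N.a d) (N.L d / 2) s ∈ N.faceL d := by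
      rw [← e1.2]; exact mem_connectedComponentIn e1.1
    have m2 : pt (N.z d) (N.a d) (N.L d / 2) (-s) ∈ N.faceR d := by
      rw [← e2.2]; exact mem_connectedComponentIn e2.1
    rw [W_const hF (N.isComp_faceL d) m1 hx, W_const hF (N.isComp_faceR d) m2 hy]
  unfold MM
  rw [indicator_comp hFc (N.isComp_faceL d) hx, indicator_comp hFc (N.isComp_faceR d) hy]
  by_cases hd : N.isRay d
  · have e1 : N.faceL d ≠ F := fun h => N.faceL_ray hd (h ▸ hF)
    have e2 : N.faceR d ≠ F := fun h => N.faceR_ray hd (h ▸ hF)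
    rw [if_neg e1, if_neg e2, sub_zero, sub_zero]
    -- continuity of `W F` across the ray
    have hcont : ContinuousAt (N.W F) (N.z d (N.L d / 2)) := by
      unfold W
      apply tendsto_finsetSum
      intro e he
      apply N.continuousAt_ind e
      intro t' ht' heq
      have hea := bdry_arc hF he
      rcases N.inj d e (N.L d / 2) t' ht.1 ht.2 ht'.1 (Or.inr ht'.2) heq.symm with ⟨h, _⟩ | ⟨h, _⟩
      · exact hea (h ▸ hd)
      · exact h hd
    have hptc : Continuous (fun s : ℝ => pt (N.z d) (N.a d) (N.L d / 2) s) := by unfold pt; fun_prop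
    have hpt0 : pt (N.z d) (N.a d) (N.L d / 2) 0 = N.z d (N.L d / 2) := by simp [pt]
    have hneg : Tendsto (fun s : ℝ => -s) (𝓝[>] (0:ℝ)) (𝓝 0) := by
      have := (continuous_neg (G := ℝ)).continuousAt (x := 0)
      have := this.tendsto
      rw [neg_zero] at this
      exact this.mono_left nhdsWithin_le_nhds
    rw [← hpt0] at hcont
    have hc1 : Tendsto (fun s : ℝ => N.W F (pt (N.z d) (N.a d) (N.L d / 2) s)) (𝓝 0)
        (𝓝 (N.W F (pt (N.z d) (N.a d) (N.L d / 2) 0))) :=
      hcont.tendsto.comp hptc.continuousAt.tendsto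
    have h3 := hc1.mono_left (nhdsWithin_le_nhds : 𝓝[>] (0:ℝ) ≤ 𝓝 0)
    have h4 := hc1.comp hneg
    have h5 := h3.sub h4
    rw [sub_self] at h5
    have h6 : Tendsto (fun _ : ℝ => N.W F x - N.W F y) (𝓝[>] (0:ℝ)) (𝓝 0) := h5.congr' hev
    have := tendsto_nhds_unique h6 tendsto_const_nhds
    exact (sub_eq_zero.1 this.symm)
  · set c : N.D → ℂ := fun d => if N.faceL d = F then 1 else 0 with hc
    have hc0 : ∀ e, N.isRay e → c e = 0 := by
      intro e he
      simp only [hc]
      rw [if_neg]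
      intro h; exact N.faceL_ray he (h ▸ hF)
    have hj := N.jump_wind c hc0 hd ht
    rw [W_eq_wind] at hev
    have hj2 := hj.congr' hev
    have hval := tendsto_nhds_unique hj2 tendsto_const_nhds
    have e3 : c (N.rev d) = if N.faceR d = F then 1 else 0 := by
      simp only [hc]; rw [N.faceL_rev hd]
    rw [e3] at hval
    simp only [hc] at hval
    rw [← W_eq_wind] at hval
    by_cases c1 : N.faceL d = F <;> by_cases c2 : N.faceR d = F
    · simp only [c1, c2, if_true] at hval ⊢; linear_combination -hval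
    · simp only [c1, c2, if_true, if_false] at hval ⊢; linear_combination -hval
    · simp only [c1, c2, if_true, if_false] at hval ⊢; linear_combination -hval
    · simp only [c1, c2, if_false] at hval ⊢; linear_combination -hval

theorem dense_compl : Dense N.carrierᶜ := by
  have : ∀ᵐ x ∂(volume : Measure ℂ), x ∉ N.carrier :=
    measure_eq_zero_iff_ae_notMem.1 N.volume_carrier
  exact Measure.dense_of_ae this

theorem exists_bound (N : Net) : ∃ R : ℝ, 0 < R ∧ ∀ d : N.D, ∀ t ∈ Icc 0 (N.L d), ‖N.z d t‖ < R := by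
  have key : ∀ d : N.D, ∃ R : ℝ, ∀ t ∈ Icc 0 (N.L d), ‖N.z d t‖ < R := by
    intro d
    obtain ⟨C, hC⟩ := isCompact_Icc.exists_bound_of_continuousOn (N.geoL d).cz
    exact ⟨C + 1, fun t ht => by linarith [hC t ht]⟩
  choose R hR using key
  refine ⟨∑ d, |R d| + 1, by positivity, fun d t ht => ?_⟩
  have h1 : |R d| ≤ ∑ d, |R d| :=
    Finset.single_le_sum (f := fun d => |R d|) (fun e _ => abs_nonneg _) (Finset.mem_univ d)
  linarith [hR d t ht, le_abs_self (R d)]

theorem W_far {F : Set ℂ} (hF : Bornology.IsBounded F) {R : ℝ}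
    (hR : ∀ d : N.D, ∀ t ∈ Icc 0 (N.L d), ‖N.z d t‖ < R) {x : ℂ} (hx : R ≤ ‖x‖) : N.W F x = 0 := by
  unfold W
  set c : ℂ := -(starRingEnd ℂ) x with hc
  have h1 : ∀ d ∈ N.bdry F, N.ind d x
      = Complex.log (c * (N.tgt d - x)) - Complex.log (c * (N.src d - x)) := by
    intro d _
    apply (N.geoL d).cind_log (N.L_pos d).le
    intro t ht
    rw [Complex.mem_slitPlane_iff]
    left
    have h2 : (c * (N.z d t - x)).re = ‖x‖ ^ 2 - ((starRingEnd ℂ) x * N.z d t).re := by
      have : c * (N.z d t - x) = (starRingEnd ℂ) x * x - (starRingEnd ℂ) x * N.z d t := by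
        rw [hc]; ring
      rw [this, Complex.sub_re, mul_comm _ x, Complex.mul_conj, Complex.ofReal_re,
        Complex.normSq_eq_norm_sq]
    have h3 : ((starRingEnd ℂ) x * N.z d t).re ≤ ‖x‖ * ‖N.z d t‖ := by
      calc _ ≤ ‖(starRingEnd ℂ) x * N.z d t‖ := Complex.re_le_norm _
        _ = _ := by rw [norm_mul, Complex.norm_conj]
    have h4 := hR d t ht
    have h5 := norm_nonneg (N.z d t)
    rw [h2]
    nlinarith
  rw [Finset.sum_congr rfl h1, Finset.sum_sub_distrib,
    sum_tgt hF (fun w => Complex.log (c * (w - x))), sub_self]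

theorem W_eq {F : Set ℂ} (hF : Bornology.IsBounded F) (hFc : N.IsComp F) {x : ℂ}
    (hx : x ∉ N.carrier) : N.W F x = F.indicator (fun _ => (2 * Real.pi * I : ℂ)) x := by
  -- local values
  set Val : ℂ → ℂ → Prop := fun p m => ∀ᶠ y in 𝓝 p, y ∉ N.carrier → N.MM F y = m with hVal
  have huniq : ∀ p m m', Val p m → Val p m' → m = m' := by
    intro p m m' h h'
    have hfr : ∃ᶠ y in 𝓝 p, y ∈ N.carrierᶜ := by
      rw [← mem_closure_iff_frequently]; exact N.dense_compl p
    obtain ⟨y, hy, h1, h2⟩ := (hfr.and_eventually (h.and h')).exists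
    rw [← h1 hy, ← h2 hy]
  have hex : ∀ p ∈ (N.verts)ᶜ, ∃ m, Val p m := by
    intro p hp
    by_cases hpc : p ∈ N.carrier
    · rcases N.carrier_cases hpc with h | ⟨d, t, ht, rfl⟩
      · exact absurd h hp
      · obtain ⟨xL, hxL⟩ := (N.isComp_faceL d).nonempty
        obtain ⟨xR, hxR⟩ := (N.isComp_faceR d).nonempty
        have hLR := MM_jump hF hFc d hxL hxR
        obtain ⟨ρ, hρ, h1⟩ := N.near_sides ht
        refine ⟨N.MM F xL, ?_⟩
        filter_upwards [ball_mem_nhds (N.z d t) hρ] with y hy hyc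
        rw [mem_ball, dist_eq_norm] at hy
        rcases h1 y hyc hy with h | h
        · exact MM_const hF hFc (N.isComp_faceL d) h hxL
        · rw [hLR]; exact MM_const hF hFc (N.isComp_faceR d) h hxR
    · have hcomp := N.isComp_of hpc
      have hmem : p ∈ connectedComponentIn N.carrierᶜ p := mem_connectedComponentIn hpc
      refine ⟨N.MM F p, ?_⟩
      filter_upwards [hcomp.isOpen.mem_nhds hmem] with y hy _
      exact MM_const hF hFc hcomp hy hmem
  have hconn : IsPreconnected (N.verts)ᶜ := by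
    have := N.finite_verts.countable.isPathConnected_compl_of_one_lt_rank (E := ℂ)
      (by rw [Complex.rank_real_complex]; norm_num)
    exact this.isConnected.isPreconnected
  -- far point
  obtain ⟨R1, hR1, hR1'⟩ := N.exists_bound
  obtain ⟨R2, hR2⟩ := hF.subset_closedBall 0
  set R : ℝ := max R1 (|R2| + 1) with hR
  have hfar : ∀ y : ℂ, R ≤ ‖y‖ → N.MM F y = 0 := by
    intro y hy
    unfold MM
    rw [W_far hF hR1' (le_trans (le_max_left _ _) hy), indicator_of_notMem, sub_zero]
    intro hyF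
    have := hR2 hyF
    rw [mem_closedBall, dist_zero_right] at this
    have h2 : |R2| + 1 ≤ ‖y‖ := le_trans (le_max_right _ _) hy
    linarith [le_abs_self R2]
  have hRp : 0 < R := lt_of_lt_of_le hR1 (le_max_left _ _)
  set q : ℂ := ((R + 1 : ℝ) : ℂ) with hq
  have hqn : ‖q‖ = R + 1 := by
    rw [hq, Complex.norm_real, Real.norm_of_nonneg (by linarith)]
  have hqV : q ∈ (N.verts)ᶜ := by
    rintro ⟨d, hd⟩
    have := hR1' d 0 ⟨le_rfl, (N.L_pos d).le⟩
    have h2 : ‖N.z d 0‖ = R + 1 := by rw [← hqn, ← hd]; rfl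
    have h3 : R1 ≤ R := le_max_left _ _
    linarith
  have hValq : Val q 0 := by
    have : ∀ᶠ y in 𝓝 q, R < ‖y‖ := by
      apply (continuous_norm.continuousAt).eventually (lt_mem_nhds _)
      show R < ‖q‖
      rw [hqn]; linarith
    filter_upwards [this] with y hy _
    exact hfar y hy.le
  have hxV : x ∈ (N.verts)ᶜ := by
    rintro ⟨d, hd⟩
    exact hx (hd ▸ N.mem_carrier (N.zero_mem_dom d))
  have key := hconn.induction₂ (fun p p' => ∀ m, Val p m ↔ Val p' m)
    (by
      intro p hp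
      obtain ⟨m, hm⟩ := hex p hp
      have h2 : ∀ᶠ p' in 𝓝 p, Val p' m := eventually_eventually_nhds.2 hm
      filter_upwards [h2.filter_mono nhdsWithin_le_nhds] with p' hp' m'
      constructor
      · intro h; rw [huniq _ _ _ h hm]; exact hp'
      · intro h; rw [huniq _ _ _ h hp']; exact hm)
    (fun a b c _ _ _ h1 h2 m => (h1 m).trans (h2 m))
    (fun a b _ _ h1 m => (h1 m).symm)
    hqV hxV
  have hx0 : Val x 0 := (key 0).1 hValq
  have := hx0.self_of_nhds hx
  unfold MM at this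
  exact sub_eq_zero.1 this

/-- **Area formula** for bounded components -/
theorem area_turn {F : Set ℂ} (hF : Bornology.IsBounded F) (hFc : N.IsComp F) :
    2 * (volume F).toReal = ∑ d ∈ N.bdry F, N.turn d := by
  obtain ⟨R1, hR1, hR1'⟩ := N.exists_bound
  obtain ⟨R2, hR2⟩ := hF.subset_closedBall 0
  apply N.area_formula (R := max R1 (|R2| + 1)) _ hFc.isOpen.measurableSet
  · intro d _ t ht
    exact lt_of_lt_of_le (hR1' d t ht) (le_max_left _ _)
  · intro x hx; exact W_eq hF hFc hx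
  · intro x hx
    have := hR2 hx
    rw [mem_closedBall, dist_zero_right] at this
    rw [mem_ball, dist_zero_right]
    have h2 := le_max_right R1 (|R2| + 1)
    linarith [le_abs_self R2]

theorem volume_pos {F : Set ℂ} (hF : Bornology.IsBounded F) (hFc : N.IsComp F) :
    0 < (volume F).toReal := by
  apply ENNReal.toReal_pos
  · exact (hFc.isOpen.measure_pos volume hFc.nonempty).ne'
  · exact hF.measure_lt_top.ne

theorem area_quant {F : Set ℂ} (hF : Bornology.IsBounded F) :
    ∃ k : ℤ, ∑ d ∈ N.bdry F, N.turn d = k * (Real.pi / 3) := by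
  have h1 : ∀ d ∈ N.bdry F, ∃ k : ℤ, N.a d (N.L d) = N.a (N.left d) 0 + k * (Real.pi / 3) := by
    intro d hd
    obtain ⟨k, hk⟩ := (Cong.of_dir (N.dir_left (bdry_arc hF hd)))
    exact ⟨-1 - k, by push_cast; rw [hk]; ring⟩
  choose! k hk using h1
  refine ⟨∑ d ∈ N.bdry F, k d, ?_⟩
  unfold turn
  rw [Finset.sum_sub_distrib, Finset.sum_congr rfl hk, Finset.sum_add_distrib,
    sum_left hF (fun d => N.a d 0)]
  push_cast
  rw [← Finset.sum_mul]; ring

theorem area_ge {F : Set ℂ} (hF : Bornology.IsBounded F) (hFc : N.IsComp F) :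
    Real.pi / 6 ≤ (volume F).toReal := by
  obtain ⟨k, hk⟩ := N.area_quant hF
  have h1 := area_turn hF hFc
  have h2 := volume_pos hF hFc
  rw [hk] at h1
  have hpi := Real.pi_pos
  have h3 : (0 : ℝ) < k := by
    by_contra hneg
    push Not at hneg
    have : (k : ℝ) * (Real.pi / 3) ≤ 0 := mul_nonpos_of_nonpos_of_nonneg hneg (by positivity)
    linarith
  have h4 : (1 : ℝ) ≤ k := by exact_mod_cast h3
  nlinarith

end Net

end

end Pool.Agent.MP_4c0f47_an
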