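import Pool.Agent.Lib.MP_4c0f47_an.SwpArea

set_option autoImplicit false

open Set Filter Topology Complex MeasureTheory

namespace Pool.Agent.MP_4c0f47_an

noncomputable section

namespace Net

variable {N : Net}

/-- an arc reached from a radial edge which meets the origin -/
def Two (g : N.D) : Prop := ∃ q, ∃ m : ℕ, N.CCW q ∧ N.ps q 0 = Real.pi / 3 ∧
  N.E (N.rot q) = 0 ∧ ‖N.src q‖ ∈ N.dom (N.rot q) ∧ (N.left)^[m] q = g ∧
  ∀ i ≤ m, N.CCW ((N.left)^[i] q)

/-- an arc of a purely counterclockwise cycle -/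
def Three (g : N.D) : Prop := ∀ k, N.CCW ((N.left)^[k] g)

theorem three_of {q g : N.D} (h1 : (N.left)^[Fintype.card N.D] q = g)
    (h2 : ∀ i ≤ Fintype.card N.D, N.CCW ((N.left)^[i] q)) : N.Three g := by
  set K := Fintype.card N.D with hK
  obtain ⟨i, j, hij, he⟩ : ∃ i j : ℕ, i < j ∧ j ≤ K ∧ (N.left)^[i] q = (N.left)^[j] q := by
    obtain ⟨x, y, hxy, he⟩ := Fintype.exists_ne_map_eq_of_card_lt
      (fun x : Fin (K + 1) => (N.left)^[(x : ℕ)] q) (by simp [hK])
    rcases lt_or_gt_of_ne (fun h => hxy (Fin.ext h) : (x : ℕ) ≠ y) with h | h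
    · exact ⟨x, y, h, by have := y.2; omega, he⟩
    · exact ⟨y, x, h, by have := x.2; omega, he.symm⟩
  obtain ⟨hjK, he⟩ := he
  have key : ∀ n : ℕ, i ≤ n → N.CCW ((N.left)^[n] q) := by
    intro n
    induction n using Nat.strong_induction_on with
    | _ n ih =>
      intro hin
      rcases le_or_gt n K with h | h
      · exact h2 n h
      · have h3 : (N.left)^[n] q = (N.left)^[n - j + i] q := by
          have h4 : n = (n - j) + j := by omega
          conv_lhs => rw [h4]
          rw [Function.iterate_add_apply, ← he, ← Function.iterate_add_apply]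
        rw [h3]
        exact ih _ (by omega) (by omega)
  intro k
  rw [← h1, ← Function.iterate_add_apply]
  exact key _ (by omega)

theorem CS.stp_true (N : Net) : N.stp true = N.left := rfl

theorem back_start {q : N.D} (hq : N.CCW q) (hp : ∀ p, N.CCW p → N.left p ≠ q) :
    (∃ S : Swp N, S.co.d0 = q ∧ (N.ps q 0 < Real.pi / 3 ∨ N.Out S.e)) ∨
      (N.ps q 0 = Real.pi / 3 ∧ N.E (N.rot q) = 0 ∧ ‖N.src q‖ ∈ N.dom (N.rot q)) := by
  obtain ⟨ϑ, hϑ⟩ := exists_polar (N.src q)
  have hn : 0 < ‖N.src q‖ := hq.norm_pos (N.zero_mem_dom q)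
  have hps := hq.ps_mem (N.zero_mem_dom q)
  have hd := hq.dir_a (N.zero_mem_dom q) hϑ
  have hd1 : dir (N.a (N.rot q) 0) = dir (ϑ + (N.ps q 0 + 2 * Real.pi / 3)) := by
    rw [N.dir_rot q _ hd]; congr 1; ring
  have hϑ1 : N.src (N.rot q) = (‖N.src (N.rot q)‖ : ℂ) * dir ϑ := by rw [N.src_rot]; exact hϑ
  have hn1 : 0 < ‖N.src (N.rot q)‖ := by rw [N.src_rot]; exact hn
  have hpi := Real.pi_pos
  have hE : 0 ≤ N.E (N.rot q) := by
    by_contra hcon
    push Not at hcon
    have harc : ¬ N.isRay (N.rot q) := by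
      intro h
      rw [N.E_ray h] at hcon
      exact lt_irrefl _ hcon
    refine hp (N.rev (N.rot q)) ?_ (N.left_rev_rot harc)
    rw [CCW, N.E_rev harc]
    linarith
  rcases hE.lt_or_eq with h | h
  · left
    have htip : N.Tip q := ⟨hq.arc, h, Or.inl hq⟩
    obtain ⟨S, hS⟩ := exists_swp htip
    refine ⟨S, ?_, Or.inl ?_⟩
    · rcases S.cod with ⟨_, h2⟩ | ⟨h1, _⟩
      · rw [h2, hS]
      · exfalso
        rw [hS] at h1
        exact hq.ne_of_E h1.1 rfl
    · by_contra hcon
      push Not at hcon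
      have h3 := (ccw_iff_sin hϑ1 hn1 hd1).1 h
      have h4 : Real.sin (N.ps q 0 + 2 * Real.pi / 3) ≤ 0 := by
        have h5 : Real.sin (N.ps q 0 + 2 * Real.pi / 3)
            = - Real.sin (N.ps q 0 + 2 * Real.pi / 3 - Real.pi) := by
          rw [Real.sin_sub_pi]; ring
        rw [h5]
        have := Real.sin_nonneg_of_nonneg_of_le_pi
          (x := N.ps q 0 + 2 * Real.pi / 3 - Real.pi) (by linarith) (by linarith [hps.2])
        linarith
      linarith
  · -- the third edge is radial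
    have hE0 : N.E (N.rot q) = 0 := h.symm
    have hc := N.cross_zero hE0 (N.zero_mem_dom _)
    have hs0 : N.z (N.rot q) 0 = N.src (N.rot q) := rfl
    rw [hs0, hd1] at hc
    conv at hc => lhs; rw [hϑ1]
    rw [cross_eq_sin] at hc
    have hc1 : Real.sin (N.ps q 0 + 2 * Real.pi / 3) = 0 := by
      rcases mul_eq_zero.1 hc with h1 | h1
      · exact absurd h1 hn1.ne'
      · convert h1 using 2; ring
    have hps3 : N.ps q 0 = Real.pi / 3 := by
      have h5 : Real.sin (N.ps q 0 + 2 * Real.pi / 3 - Real.pi) = 0 := by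
        rw [Real.sin_sub_pi, hc1, neg_zero]
      have h6 := (Real.sin_eq_zero_iff_of_lt_of_lt (x := N.ps q 0 + 2 * Real.pi / 3 - Real.pi)
        (by linarith [hps.1]) (by linarith [hps.2])).1 h5
      linarith
    by_cases hdom : ‖N.src q‖ ∈ N.dom (N.rot q)
    · right
      exact ⟨hps3, hE0, hdom⟩
    · left
      have harc : ¬ N.isRay (N.rot q) := by
        intro h1
        exact hdom ⟨hn.le, Or.inl h1⟩
      have hL : N.L (N.rot q) < ‖N.src q‖ := by
        by_contra hcon
        push Not at hcon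
        exact hdom ⟨hn.le, Or.inr hcon⟩
      have hd2 : dir (N.a (N.rot q) 0) = - dir ϑ := by
        rw [hd1, hps3, ← dir_add_pi]; congr 1; ring
      have hL0 := N.L_mem_dom (N.rot q)
      have htgt : N.tgt (N.rot q) = ((‖N.src q‖ - N.L (N.rot q) : ℝ) : ℂ) * dir ϑ := by
        have h1 := N.z_line hE0 hL0
        have h2 : N.z (N.rot q) (N.L (N.rot q)) = N.tgt (N.rot q) := rfl
        rw [h2, hd2, N.src_rot] at h1
        rw [h1]
        conv_lhs => rw [hϑ]
        push_cast; ring
      have hdrev : dir (N.a (N.rev (N.rot q)) 0) = dir ϑ := by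
        rw [N.dir_rev0 harc, N.a_const hE0 hL0, dir_add_pi, hd2, neg_neg]
      have hErev : N.E (N.rev (N.rot q)) = 0 := by rw [N.E_rev harc, hE0, neg_zero]
      have hpos : 0 < ‖N.src q‖ - N.L (N.rot q) := by linarith
      have hsrcrev : N.src (N.rev (N.rot q)) = ((‖N.src q‖ - N.L (N.rot q) : ℝ) : ℂ) * dir ϑ := by
        rw [N.src_rev harc, htgt]
      have hnrev : ‖N.src (N.rev (N.rot q))‖ = ‖N.src q‖ - N.L (N.rot q) := by
        rw [hsrcrev, norm_mul_dir, abs_of_pos hpos]
      have hϑrev : N.src (N.rev (N.rot q)) = (‖N.src (N.rev (N.rot q))‖ : ℂ) * dir ϑ := by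
        rw [hnrev, hsrcrev]
      have hOut : N.Out (N.rev (N.rot q)) := by
        refine ⟨hErev, ?_⟩
        rw [hsrcrev, hdrev, dot_eq_cos, sub_self, Real.cos_zero, mul_one]
        exact hpos
      have hccw : N.CCW (N.rot (N.rev (N.rot q))) := by
        refine (ccw_iff_sin (x := 2 * Real.pi / 3) (ϑ := ϑ) ?_ ?_ ?_).2 ?_
        · rw [N.src_rot]; exact hϑrev
        · rw [N.src_rot, hnrev]; exact hpos
        · rw [N.dir_rot _ ϑ hdrev]
        · exact Real.sin_pos_of_pos_of_lt_pi (by linarith) (by linarith)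
      have htip : N.Tip (N.rev (N.rot q)) := ⟨N.rev_ray _ harc, hccw, Or.inr hOut⟩
      obtain ⟨S, hS⟩ := exists_swp htip
      refine ⟨S, ?_, Or.inr (by rw [hS]; exact hOut)⟩
      rcases S.cod with ⟨h1, _⟩ | ⟨_, h2⟩
      · exfalso
        rw [hS] at h1
        exact h1.ne_of_E hErev rfl
      · rw [h2, hS, N.left_rev_rot harc]

theorem back {g : N.D} (hg : N.CCW g) (h0 : Real.pi / 3 ≤ N.ps g 0) :
    (∃ S : Swp N, ∃ m, m < S.co.n ∧ S.co.e m = g ∧ (1 ≤ m ∨ N.Out S.e)) ∨ N.Two g ∨
      N.Three g := by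
  by_cases hP : ∃ q, (N.left)^[Fintype.card N.D] q = g ∧
      ∀ i ≤ Fintype.card N.D, N.CCW ((N.left)^[i] q)
  · obtain ⟨q, h1, h2⟩ := hP
    exact Or.inr (Or.inr (three_of h1 h2))
  · obtain ⟨m, ⟨q, h1, h2⟩, h3⟩ : ∃ m : ℕ,
        (∃ q, (N.left)^[m] q = g ∧ ∀ i ≤ m, N.CCW ((N.left)^[i] q)) ∧
        ¬ (∃ q, (N.left)^[m + 1] q = g ∧ ∀ i ≤ m + 1, N.CCW ((N.left)^[i] q)) := by
      by_contra hcon
      push Not at hcon
      apply hP
      have : ∀ m : ℕ, ∃ q, (N.left)^[m] q = g ∧ ∀ i ≤ m, N.CCW ((N.left)^[i] q) := by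
        intro m
        induction m with
        | zero =>
          refine ⟨g, rfl, ?_⟩
          intro i hi
          have : i = 0 := by omega
          subst this
          exact hg
        | succ m ih =>
          obtain ⟨q, h1, h2⟩ := ih
          exact hcon m ⟨q, h1, h2⟩
      exact this _
    have hp : ∀ p, N.CCW p → N.left p ≠ q := by
      intro p hp he
      apply h3
      refine ⟨p, ?_, ?_⟩
      · rw [Function.iterate_succ_apply, he, h1]
      · intro i hi
        rcases Nat.eq_zero_or_pos i with h4 | h4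
        · subst h4; exact hp
        · obtain ⟨k, rfl⟩ : ∃ k, i = k + 1 := ⟨i - 1, by omega⟩
          rw [Function.iterate_succ_apply, he]
          exact h2 k (by omega)
    rcases back_start (h2 0 (by omega)) hp with ⟨S, hS, h4⟩ | ⟨h4, h5, h6⟩
    · left
      have he : ∀ i, S.co.e i = (N.left)^[i] q := by
        intro i
        rw [CS.e, S.coσ, hS]; rfl
      refine ⟨S, m, ?_, by rw [he, h1], ?_⟩
      · by_contra hcon
        push Not at hcon
        apply S.comax
        rw [he]
        exact h2 _ hcon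
      · rcases h4 with h4 | h4
        · left
          by_contra hcon
          have : m = 0 := by omega
          subst this
          have h7 : q = g := h1
          have h8 : N.ps q 0 < Real.pi / 3 := h4
          rw [h7] at h8
          linarith
        · exact Or.inr h4
    · right; left
      exact ⟨q, m, h2 0 (by omega), h4, h5, h6, h1, h2⟩

end Net

end

end Pool.Agent.MP_4c0f47_an
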