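import Pool.Agent.Lib.MP_4c0f47_an.Geo

set_option autoImplicit false

open Set Filter Topology Complex

namespace Pool.Agent.MP_4c0f47_an

noncomputable section

/-- `Γ` is, near every point `z t` (`t ∈ J`), just the curve `z`. -/
structure LC (Γ : Set ℂ) (J : Set ℝ) (z : ℝ → ℂ) (a : ℝ → ℝ) : Prop where
  opn : IsOpen J
  conn : IsPreconnected J
  ne : J.Nonempty
  dz : ∀ t ∈ J, HasDerivAt z (dir (a t)) t
  ca : ContinuousOn a J
  closed : IsClosed Γ
  sub : ∀ t ∈ J, z t ∈ Γ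
  iso : ∀ t ∈ J, ∀ ε > 0, ∃ ρ > 0, ∀ w ∈ Γ, ‖w - z t‖ < ρ → ∃ t' ∈ Ioo (t - ε) (t + ε), z t' = w

/-- point at signed distance `s` on the left of the curve -/
def pt (z : ℝ → ℂ) (a : ℝ → ℝ) (t s : ℝ) : ℂ := z t + (s : ℂ) * (I * dir (a t))

theorem conj_dir_mul (x y : ℝ) : dir x * (starRingEnd ℂ) (dir y) = dir (x - y) := by
  rw [← dir_neg, ← dir_add]; ring_nf

theorem cos_ge_half {x : ℝ} (h : |x| ≤ 1) : 1 / 2 ≤ Real.cos x := by
  have := Real.one_sub_sq_div_two_le_cos (x := x)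
  have h2 : x ^ 2 ≤ 1 := by rw [← sq_abs]; nlinarith [abs_nonneg x]
  linarith

namespace LC

variable {Γ : Set ℂ} {J : Set ℝ} {z : ℝ → ℂ} {a : ℝ → ℝ}

/-- generic chord estimate on an interval where the angle is almost constant -/
theorem chord_aux {t0 t1 : ℝ} (hdz : ∀ t ∈ Icc t0 t1, HasDerivAt z (dir (a t)) t) (h01 : t0 ≤ t1)
    (b : ℝ) (hb : ∀ t ∈ Icc t0 t1, |a t - b| ≤ 1) :
    1 / 2 * (t1 - t0) ≤ ((z t1 - z t0) * (starRingEnd ℂ) (dir b)).re := by
  have hd : ∀ t ∈ Icc t0 t1, HasDerivAt (fun s => (z s * (starRingEnd ℂ) (dir b)).re)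
      ((dir (a t) * (starRingEnd ℂ) (dir b)).re) t := by
    intro t ht
    exact (Complex.reCLM.hasFDerivAt.comp_hasDerivAt t ((hdz t ht).mul_const _))
  have h1 := Convex.mul_sub_le_image_sub_of_le_deriv (D := Icc t0 t1) (convex_Icc t0 t1)
    (f := fun s => (z s * (starRingEnd ℂ) (dir b)).re)
    (fun t ht => (hd t ht).continuousAt.continuousWithinAt)
    (by
      rw [interior_Icc]
      intro u hu
      exact (hd u (Ioo_subset_Icc_self hu)).differentiableAt.differentiableWithinAt)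
    (C := 1 / 2)
    (by
      rw [interior_Icc]
      intro u hu
      rw [(hd u (Ioo_subset_Icc_self hu)).deriv, conj_dir_mul, dir_re]
      exact cos_ge_half (hb u (Ioo_subset_Icc_self hu)))
    t0 (left_mem_Icc.2 h01) t1 (right_mem_Icc.2 h01) h01
  rw [sub_mul, Complex.sub_re]; exact h1

theorem chord (h : LC Γ J z a) {t : ℝ} (ht : t ∈ J) :
    ∃ ε > 0, Ioo (t - ε) (t + ε) ⊆ J ∧ ∀ t1 ∈ Ioo (t - ε) (t + ε), ∀ t2 ∈ Ioo (t - ε) (t + ε),
      ∀ t3 ∈ Ioo (t - ε) (t + ε), t1 ≤ t2 →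
        1 / 2 * (t2 - t1) ≤ ((z t2 - z t1) * (starRingEnd ℂ) (dir (a t3))).re := by
  have h1 : ∀ᶠ s in 𝓝 t, s ∈ J := h.opn.mem_nhds ht
  have h2 : ContinuousAt a t := h.ca.continuousAt h1
  have h3 : ∀ᶠ s in 𝓝 t, |a s - a t| < 1 / 2 := by
    have := (Metric.continuousAt_iff.1 h2) (1 / 2) (by norm_num)
    obtain ⟨δ, hδ, hδ2⟩ := this
    rw [Metric.eventually_nhds_iff]
    exact ⟨δ, hδ, fun s hs => by have := hδ2 hs; rwa [Real.dist_eq] at this⟩
  obtain ⟨ε, hε, hε2⟩ := Metric.eventually_nhds_iff.1 (h1.and h3)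
  refine ⟨ε, hε, fun s hs => (hε2 (by rw [Real.dist_eq, abs_lt]; constructor <;> linarith [hs.1, hs.2])).1, ?_⟩
  intro t1 h1 t2 h2 t3 h3 h12
  have key : ∀ s ∈ Icc t1 t2, s ∈ J ∧ |a s - a t| < 1 / 2 := fun s hs => hε2 (by
    rw [Real.dist_eq, abs_lt]; constructor <;> linarith [hs.1, hs.2, h1.1, h2.2])
  have k3 : t3 ∈ J ∧ |a t3 - a t| < 1 / 2 := hε2 (by
    rw [Real.dist_eq, abs_lt]; constructor <;> linarith [h3.1, h3.2])
  apply chord_aux (fun s hs => h.dz s (key s hs).1) h12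
  intro s hs
  have e1 := abs_lt.1 (key s hs).2
  have e2 := abs_lt.1 k3.2
  rw [abs_le]; constructor <;> linarith [e1.1, e1.2, e2.1, e2.2]

theorem pt_mul (t s : ℝ) : ((pt z a t s - z t) * (starRingEnd ℂ) (dir (a t))).re = 0 := by
  unfold pt
  have : (z t + (s : ℂ) * (I * dir (a t)) - z t) * (starRingEnd ℂ) (dir (a t))
      = (s : ℂ) * I * (dir (a t) * (starRingEnd ℂ) (dir (a t))) := by ring
  rw [this, conj_dir_mul, sub_self, dir_zero]
  simp

theorem norm_pt_sub (t s : ℝ) : ‖pt z a t s - z t‖ = |s| := by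
  unfold pt
  rw [add_sub_cancel_left, norm_mul, norm_mul, Complex.norm_I, norm_dir, Complex.norm_real]
  simp

theorem lipschitz_aux {t0 t1 : ℝ} (hdz : ∀ t ∈ Icc t0 t1, HasDerivAt z (dir (a t)) t)
    (h01 : t0 ≤ t1) : ‖z t1 - z t0‖ ≤ t1 - t0 := by
  have := Convex.norm_image_sub_le_of_norm_hasDerivWithin_le (f := z) (f' := fun t => dir (a t))
    (C := 1) (s := Icc t0 t1) (x := t0) (y := t1)
    (fun t ht => (hdz t ht).hasDerivWithinAt) (fun t _ => by rw [norm_dir]) (convex_Icc _ _)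
    (left_mem_Icc.2 h01) (right_mem_Icc.2 h01)
  rw [Real.norm_eq_abs, abs_of_nonneg (by linarith), one_mul] at this
  exact this

theorem off (h : LC Γ J z a) {t : ℝ} (ht : t ∈ J) :
    ∃ δ > 0, Ioo (t - δ) (t + δ) ⊆ J ∧ ∀ t' ∈ Ioo (t - δ) (t + δ), ∀ s : ℝ, s ≠ 0 → |s| < δ →
      pt z a t' s ∉ Γ := by
  obtain ⟨ε, hε, hεJ, hch⟩ := h.chord ht
  obtain ⟨ρ, hρ, hρ2⟩ := h.iso t ht ε hε
  refine ⟨min ε (ρ / 2), lt_min hε (by linarith), ?_, ?_⟩
  · intro s hs
    exact hεJ ⟨by linarith [hs.1, min_le_left ε (ρ / 2)], by linarith [hs.2, min_le_left ε (ρ / 2)]⟩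
  · intro t' ht' s hs hsδ hmem
    have hm1 := min_le_left ε (ρ / 2)
    have hm2 := min_le_right ε (ρ / 2)
    have ht'ε : t' ∈ Ioo (t - ε) (t + ε) := ⟨by linarith [ht'.1], by linarith [ht'.2]⟩
    have htε : t ∈ Ioo (t - ε) (t + ε) := ⟨by linarith, by linarith⟩
    have hzz : ‖z t' - z t‖ ≤ |t' - t| := by
      rcases le_total t t' with hle | hle
      · rw [abs_of_nonneg (by linarith)]
        exact lipschitz_aux (fun s hs => h.dz s (hεJ ⟨by linarith [hs.1], by linarith [hs.2, ht'ε.2]⟩)) hle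
      · rw [abs_of_nonpos (by linarith), norm_sub_rev, neg_sub]
        exact lipschitz_aux (fun s hs => h.dz s (hεJ ⟨by linarith [hs.1, ht'ε.1], by linarith [hs.2]⟩)) hle
    have hlt : ‖pt z a t' s - z t‖ < ρ := by
      calc ‖pt z a t' s - z t‖ = ‖(pt z a t' s - z t') + (z t' - z t)‖ := by ring_nf
        _ ≤ ‖pt z a t' s - z t'‖ + ‖z t' - z t‖ := norm_add_le _ _
        _ ≤ |s| + |t' - t| := by rw [norm_pt_sub]; linarith
        _ < ρ := by
          have : |t' - t| < min ε (ρ / 2) := by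
            rw [abs_lt]; constructor <;> linarith [ht'.1, ht'.2]
          linarith
    obtain ⟨t'', ht'', heq⟩ := hρ2 _ hmem hlt
    have h0 := pt_mul (z := z) (a := a) t' s
    rw [← heq] at h0
    have htt : t'' = t' := by
      rcases lt_trichotomy t'' t' with hlt | heq' | hgt
      · have := hch t'' ht'' t' ht'ε t' ht'ε hlt.le
        have e : ((z t' - z t'') * (starRingEnd ℂ) (dir (a t'))).re
            = - ((z t'' - z t') * (starRingEnd ℂ) (dir (a t'))).re := by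
          rw [← Complex.neg_re]; ring_nf
        rw [e, h0] at this
        linarith
      · exact heq'
      · have := hch t' ht'ε t'' ht'' t' ht'ε hgt.le
        rw [h0] at this
        linarith
    rw [htt] at heq
    have h1 := norm_pt_sub (z := z) (a := a) t' s
    rw [← heq, sub_self, norm_zero] at h1
    exact hs (abs_eq_zero.1 h1.symm)

theorem near (h : LC Γ J z a) {t : ℝ} (ht : t ∈ J) {δ : ℝ} (hδ : 0 < δ) :
    ∃ ρ > 0, ∀ w : ℂ, ‖w - z t‖ < ρ → ∃ t' ∈ Ioo (t - δ) (t + δ), ∃ s : ℝ, |s| < δ ∧ t' ∈ J ∧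
      w = pt z a t' s := by
  obtain ⟨ε, hε, hεJ, hch⟩ := h.chord ht
  set e : ℝ := min (ε / 2) (δ / 2) with he
  have he0 : 0 < e := lt_min (by linarith) (by linarith)
  have he1 : e ≤ ε / 2 := min_le_left _ _
  have he2 : e ≤ δ / 2 := min_le_right _ _
  have hsub : Icc (t - e) (t + e) ⊆ Ioo (t - ε) (t + ε) := fun s hs =>
    ⟨by linarith [hs.1], by linarith [hs.2]⟩
  refine ⟨min (e / 4) δ, lt_min (by linarith) hδ, fun w hw => ?_⟩
  have hw1 : ‖w - z t‖ < e / 4 := lt_of_lt_of_le hw (min_le_left _ _)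
  have hw2 : ‖w - z t‖ < δ := lt_of_lt_of_le hw (min_le_right _ _)
  have hcz : ContinuousOn z (Icc (t - e) (t + e)) := fun s hs =>
    (h.dz s (hεJ (hsub hs))).continuousAt.continuousWithinAt
  obtain ⟨t', ht', hmin⟩ := (isCompact_Icc (a := t - e) (b := t + e)).exists_isMinOn
    ⟨t, by constructor <;> linarith⟩ ((hcz.sub continuousOn_const).norm (α := ℝ) : ContinuousOn (fun s => ‖z s - w‖) _)
  have hmin' : ∀ s ∈ Icc (t - e) (t + e), ‖z t' - w‖ ≤ ‖z s - w‖ := fun s hs => hmin hs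
  have htt := hmin' t ⟨by linarith, by linarith⟩
  rw [norm_sub_rev (z t) w] at htt
  have htε : t ∈ Ioo (t - ε) (t + ε) := ⟨by linarith, by linarith⟩
  have hre : ∀ (x : ℂ), x.re ≤ ‖x‖ := Complex.re_le_norm
  have hne1 : t' ≠ t - e := by
    intro hh
    have h1 := hch (t - e) (hsub ⟨le_rfl, by linarith⟩) t htε t htε (by linarith)
    have h2 := hre ((z t - z (t - e)) * (starRingEnd ℂ) (dir (a t)))
    rw [norm_mul, Complex.norm_conj, norm_dir, mul_one] at h2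
    have h3 : ‖z t - z (t - e)‖ ≤ ‖w - z t‖ + ‖z t' - w‖ := by
      rw [hh]
      calc ‖z t - z (t - e)‖ = ‖(z t - w) + (w - z (t - e))‖ := by ring_nf
        _ ≤ ‖z t - w‖ + ‖w - z (t - e)‖ := norm_add_le _ _
        _ = _ := by rw [norm_sub_rev (z t) w, norm_sub_rev w (z (t - e))]
    linarith
  have hne2 : t' ≠ t + e := by
    intro hh
    have h1 := hch t htε (t + e) (hsub ⟨by linarith, le_rfl⟩) t htε (by linarith)
    have h2 := hre ((z (t + e) - z t) * (starRingEnd ℂ) (dir (a t)))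
    rw [norm_mul, Complex.norm_conj, norm_dir, mul_one] at h2
    have h3 : ‖z (t + e) - z t‖ ≤ ‖z t' - w‖ + ‖w - z t‖ := by
      rw [hh]
      calc ‖z (t + e) - z t‖ = ‖(z (t + e) - w) + (w - z t)‖ := by ring_nf
        _ ≤ _ := norm_add_le _ _
    linarith
  have ht'o : t' ∈ Ioo (t - e) (t + e) :=
    ⟨lt_of_le_of_ne ht'.1 (Ne.symm hne1), lt_of_le_of_ne ht'.2 hne2⟩
  have hd : HasDerivAt (fun s => ‖z s - w‖ ^ 2) (2 * inner ℝ (z t' - w) (dir (a t'))) t' :=
    ((h.dz t' (hεJ (hsub ht'))).sub_const w).norm_sq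
  have hloc : IsLocalMin (fun s => ‖z s - w‖ ^ 2) t' := by
    filter_upwards [Ioo_mem_nhds ht'o.1 ht'o.2] with s hs
    have := hmin' s (Ioo_subset_Icc_self hs)
    exact pow_le_pow_left₀ (norm_nonneg _) this 2
  have h0 := hloc.hasDerivAt_eq_zero hd
  have h0' : inner ℝ (z t' - w) (dir (a t')) = 0 := by linarith
  refine ⟨t', ⟨by linarith [ht'o.1], by linarith [ht'o.2]⟩,
    ((w - z t') * (starRingEnd ℂ) (dir (a t'))).im, ?_, hεJ (hsub ht'), ?_⟩
  · calc |((w - z t') * (starRingEnd ℂ) (dir (a t'))).im| ≤ ‖(w - z t') * (starRingEnd ℂ) (dir (a t'))‖ :=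
          Complex.abs_im_le_norm _
      _ = ‖z t' - w‖ := by rw [norm_mul, Complex.norm_conj, norm_dir, mul_one, norm_sub_rev]
      _ ≤ ‖w - z t‖ := htt
      _ < δ := hw2
  · have hre0 : ((w - z t') * (starRingEnd ℂ) (dir (a t'))).re = 0 := by
      rw [Complex.inner] at h0'
      have : ((w - z t') * (starRingEnd ℂ) (dir (a t'))).re
          = - ((starRingEnd ℂ) (z t' - w) * dir (a t')).re := by
        simp only [Complex.mul_re, Complex.sub_re, Complex.sub_im, Complex.conj_re, Complex.conj_im]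
        ring
      rw [this]
      rw [mul_comm] at h0'
      rw [h0']; simp
    set q := (w - z t') * (starRingEnd ℂ) (dir (a t')) with hq
    have hq2 : q = (q.im : ℂ) * I := by
      apply Complex.ext <;> simp [hre0]
    have hq3 : w - z t' = q * dir (a t') := by
      rw [hq, mul_assoc, mul_comm ((starRingEnd ℂ) (dir (a t'))), conj_dir_mul, sub_self, dir_zero, mul_one]
    unfold pt
    have : w = z t' + q * dir (a t') := by rw [← hq3]; ring
    rw [this]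
    conv_lhs => rw [hq2]
    ring

/-- `F` is the component of the complement on the side `σ` (`σ = 1` left, `σ = -1` right) -/
def IsSide (Γ : Set ℂ) (z : ℝ → ℂ) (a : ℝ → ℝ) (σ : ℝ) (F : Set ℂ) (t : ℝ) : Prop :=
  ∃ δ > 0, ∀ t' ∈ Ioo (t - δ) (t + δ), ∀ s ∈ Ioo 0 δ, pt z a t' (σ * s) ∉ Γ ∧
    connectedComponentIn Γᶜ (pt z a t' (σ * s)) = F

theorem IsSide.unique {σ : ℝ} {F F' : Set ℂ} {t : ℝ} (h : IsSide Γ z a σ F t)
    (h' : IsSide Γ z a σ F' t) : F = F' := by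
  obtain ⟨δ, hδ, h1⟩ := h
  obtain ⟨δ', hδ', h2⟩ := h'
  have hm : 0 < min δ δ' := lt_min hδ hδ'
  have e1 := (h1 t ⟨by linarith, by linarith⟩ (min δ δ' / 2)
    ⟨by linarith, by linarith [min_le_left δ δ']⟩).2
  have e2 := (h2 t ⟨by linarith, by linarith⟩ (min δ δ' / 2)
    ⟨by linarith, by linarith [min_le_right δ δ']⟩).2
  rw [← e1, ← e2]

theorem IsSide.eventually {σ : ℝ} {F : Set ℂ} {t : ℝ} (h : IsSide Γ z a σ F t) :
    ∀ᶠ t' in 𝓝 t, IsSide Γ z a σ F t' := by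
  obtain ⟨δ, hδ, h1⟩ := h
  filter_upwards [Ioo_mem_nhds (show t - δ / 2 < t by linarith) (show t < t + δ / 2 by linarith)]
    with t' ht'
  exact ⟨δ / 2, by linarith, fun u hu s hs => h1 u ⟨by linarith [hu.1, ht'.1], by linarith [hu.2, ht'.2]⟩ s
    ⟨hs.1, by linarith [hs.2]⟩⟩

theorem continuousOn_pt (h : LC Γ J z a) (σ : ℝ) :
    ContinuousOn (fun p : ℝ × ℝ => pt z a p.1 (σ * p.2)) (J ×ˢ univ) := by
  unfold pt
  have hz : ContinuousOn z J := fun t ht => (h.dz t ht).continuousAt.continuousWithinAt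
  have h1 : ContinuousOn (fun p : ℝ × ℝ => z p.1) (J ×ˢ univ) :=
    hz.comp continuousOn_fst (fun p hp => hp.1)
  have h2 : ContinuousOn (fun p : ℝ × ℝ => dir (a p.1)) (J ×ˢ univ) :=
    continuous_dir.comp_continuousOn (h.ca.comp continuousOn_fst (fun p hp => hp.1))
  refine h1.add (ContinuousOn.mul ?_ (continuousOn_const.mul h2))
  exact (Continuous.continuousOn (by fun_prop))

theorem exists_side_at (h : LC Γ J z a) {σ : ℝ} (hσ : |σ| = 1) {t : ℝ} (ht : t ∈ J) :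
    ∃ F, IsSide Γ z a σ F t := by
  obtain ⟨δ, hδ, hδJ, hoff⟩ := h.off ht
  set S : Set ℂ := (fun p : ℝ × ℝ => pt z a p.1 (σ * p.2)) '' (Ioo (t - δ) (t + δ) ×ˢ Ioo 0 δ) with hS
  have hσ0 : σ ≠ 0 := by intro hh; rw [hh] at hσ; simp at hσ
  have hSsub : S ⊆ Γᶜ := by
    rintro _ ⟨⟨t', s⟩, ⟨ht', hs⟩, rfl⟩
    simp only at ht' hs ⊢
    apply hoff t' ht' (σ * s) (mul_ne_zero hσ0 (ne_of_gt hs.1))
    rw [abs_mul, hσ, one_mul, abs_of_pos hs.1]; exact hs.2
  have hSc : IsPreconnected S := by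
    apply IsPreconnected.image (isPreconnected_Ioo.prod isPreconnected_Ioo)
    exact (h.continuousOn_pt σ).mono (fun p hp => ⟨hδJ hp.1, mem_univ _⟩)
  have ht0 : pt z a t (σ * (δ / 2)) ∈ S :=
    ⟨(t, δ / 2), ⟨⟨by linarith, by linarith⟩, ⟨by linarith, by linarith⟩⟩, rfl⟩
  refine ⟨connectedComponentIn Γᶜ (pt z a t (σ * (δ / 2))), δ, hδ, fun t' ht' s hs => ?_⟩
  have hmem : pt z a t' (σ * s) ∈ S := ⟨(t', s), ⟨ht', hs⟩, rfl⟩
  refine ⟨hSsub hmem, ?_⟩
  exact (connectedComponentIn_eq (hSc.subset_connectedComponentIn ht0 hSsub hmem)).symm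

theorem exists_side (h : LC Γ J z a) {σ : ℝ} (hσ : |σ| = 1) :
    ∃ F, ∀ t ∈ J, IsSide Γ z a σ F t := by
  obtain ⟨t0, ht0⟩ := h.ne
  obtain ⟨F, hF⟩ := h.exists_side_at hσ ht0
  refine ⟨F, fun t ht => ?_⟩
  have key := h.conn.induction₂ (fun x y => ∀ F, IsSide Γ z a σ F x ↔ IsSide Γ z a σ F y)
    (by
      intro x hx
      obtain ⟨F', hF'⟩ := h.exists_side_at hσ hx
      have := hF'.eventually
      apply Filter.Eventually.filter_mono nhdsWithin_le_nhds
      filter_upwards [this] with y hy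
      intro G
      constructor
      · intro hG; rw [hG.unique hF']; exact hy
      · intro hG; rw [hG.unique hy]; exact hF')
    (fun x y w _ _ _ h1 h2 G => (h1 G).trans (h2 G))
    (fun x y _ _ h1 G => (h1 G).symm)
    ht0 ht
  exact (key F).1 hF

/-- a component whose closure contains `z t` is one of the two sides -/
theorem side_cases (h : LC Γ J z a) {t : ℝ} (ht : t ∈ J) {FL FR F : Set ℂ}
    (hL : IsSide Γ z a 1 FL t) (hR : IsSide Γ z a (-1) FR t) {x : ℂ}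
    (hF : F = connectedComponentIn Γᶜ x) (hcl : z t ∈ closure F) : F = FL ∨ F = FR := by
  obtain ⟨δ1, hδ1, h1⟩ := hL
  obtain ⟨δ2, hδ2, h2⟩ := hR
  obtain ⟨ρ, hρ, h3⟩ := h.near ht (lt_min hδ1 hδ2)
  obtain ⟨w, hwF, hw⟩ := Metric.mem_closure_iff.1 hcl ρ hρ
  rw [dist_comm, dist_eq_norm] at hw
  obtain ⟨t', ht', s, hs, ht'J, hwe⟩ := h3 w hw
  have hm1 := min_le_left δ1 δ2
  have hm2 := min_le_right δ1 δ2
  have hFw : connectedComponentIn Γᶜ w = F := by
    rw [hF]; rw [hF] at hwF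
    exact (connectedComponentIn_eq hwF).symm
  have hwΓ : w ∉ Γ := by
    rw [hF] at hwF
    exact connectedComponentIn_subset _ _ hwF
  rcases lt_trichotomy s 0 with hs0 | hs0 | hs0
  · right
    rw [abs_of_neg hs0] at hs
    have := (h2 t' ⟨by linarith [ht'.1], by linarith [ht'.2]⟩ (-s) ⟨by linarith, by linarith⟩).2
    rw [show (-1 : ℝ) * -s = s by ring, ← hwe, hFw] at this
    exact this
  · exfalso
    apply hwΓ
    rw [hwe, hs0]
    have : pt z a t' 0 = z t' := by simp [pt]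
    rw [this]; exact h.sub t' ht'J
  · left
    rw [abs_of_pos hs0] at hs
    have := (h1 t' ⟨by linarith [ht'.1], by linarith [ht'.2]⟩ s ⟨hs0, by linarith⟩).2
    rw [one_mul, ← hwe, hFw] at this
    exact this

theorem mem_closure_side {σ : ℝ} (hσ : |σ| = 1) {F : Set ℂ} {t : ℝ} (h : IsSide Γ z a σ F t) :
    z t ∈ closure F := by
  obtain ⟨δ, hδ, h1⟩ := h
  rw [Metric.mem_closure_iff]
  intro ε hε
  have hm : 0 < min δ ε := lt_min hδ hε
  have := h1 t ⟨by linarith, by linarith⟩ (min δ ε / 2)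
    ⟨by linarith, by linarith [min_le_left δ ε]⟩
  refine ⟨pt z a t (σ * (min δ ε / 2)), ?_, ?_⟩
  · rw [← this.2]; exact mem_connectedComponentIn this.1
  · rw [dist_comm, dist_eq_norm, norm_pt_sub, abs_mul, hσ, one_mul, abs_of_pos (by linarith)]
    linarith [min_le_right δ ε]

theorem side_eq_comp {σ : ℝ} {F : Set ℂ} {t : ℝ} (h : IsSide Γ z a σ F t) :
    ∃ x ∈ Γᶜ, F = connectedComponentIn Γᶜ x := by
  obtain ⟨δ, hδ, h1⟩ := h
  have := h1 t ⟨by linarith, by linarith⟩ (δ / 2) ⟨by linarith, by linarith⟩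
  exact ⟨_, this.1, this.2.symm⟩

end LC

end

end Pool.Agent.MP_4c0f47_an
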