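import Pool.Agent.Lib.MP_4c0f47_an.Net
import Pool.Agent.Lib.MP_4c0f47_an.Side

set_option autoImplicit false

open Set Filter Topology Complex

namespace Pool.Agent.MP_4c0f47_an

noncomputable section

theorem norm_dir_sub_le (x y : ℝ) : ‖dir x - dir y‖ ≤ |x - y| := by
  have := Convex.norm_image_sub_le_of_norm_hasDerivWithin_le (f := dir)
    (f' := fun t => I * dir t) (C := 1) (s := univ) (x := y) (y := x)
    (fun t _ => (hasDerivAt_dir t).hasDerivWithinAt)
    (fun t _ => by rw [norm_mul, norm_dir, Complex.norm_I]; norm_num) convex_univ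
    (mem_univ _) (mem_univ _)
  rwa [one_mul, Real.norm_eq_abs] at this

theorem Geo.norm_sub_lin {z : ℝ → ℂ} {a : ℝ → ℝ} {s0 s1 : ℝ} (h : Geo z a s0 s1) {s t b η : ℝ}
    (hs : s0 ≤ s) (hst : s ≤ t) (ht : t ≤ s1) (hb : ∀ u ∈ Ioo s t, |a u - b| ≤ η) :
    ‖z t - z s - ((t - s : ℝ) : ℂ) * dir b‖ ≤ η * (t - s) := by
  set w := z t - z s - ((t - s : ℝ) : ℂ) * dir b with hw
  by_cases hw0 : w = 0
  · rw [hw0]; simp
    rcases eq_or_lt_of_le hst with h0 | h0
    · rw [h0]; simp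
    · have := hb ((s + t) / 2) ⟨by linarith, by linarith⟩
      have h1 : 0 ≤ η := le_trans (abs_nonneg _) this
      exact mul_nonneg h1 (by linarith)
  have hn : 0 < ‖w‖ := norm_pos_iff.2 hw0
  set c : ℂ := (starRingEnd ℂ) w / ‖w‖ with hc
  have hcn : ‖c‖ = 1 := by
    rw [hc, norm_div, Complex.norm_conj, Complex.norm_real, norm_norm]; field_simp
  have h1 := h.le_proj c (η + (dir b * c).re) hs hst ht (by
    intro u hu
    have h2 : (dir (a u) * c).re = ((dir (a u) - dir b) * c).re + (dir b * c).re := by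
      rw [sub_mul, Complex.sub_re]; ring
    rw [h2]
    have h3 : ((dir (a u) - dir b) * c).re ≤ η := by
      calc ((dir (a u) - dir b) * c).re ≤ ‖(dir (a u) - dir b) * c‖ := Complex.re_le_norm _
        _ = ‖dir (a u) - dir b‖ := by rw [norm_mul, hcn, mul_one]
        _ ≤ |a u - b| := norm_dir_sub_le _ _
        _ ≤ η := hb u hu
    linarith)
  have h2 : (w * c).re = ‖w‖ := by
    rw [hc, mul_div_assoc', Complex.mul_conj, Complex.normSq_eq_norm_sq]
    have : (((‖w‖ ^ 2 : ℝ) : ℂ) / (‖w‖ : ℂ)) = ((‖w‖ : ℝ) : ℂ) := by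
      push_cast; field_simp
    rw [this, Complex.ofReal_re]
  have h3 : (w * c).re = ((z t - z s) * c).re - (t - s) * (dir b * c).re := by
    rw [hw, sub_mul, Complex.sub_re, mul_assoc, Complex.re_ofReal_mul]
  rw [← h2, h3]; linarith

namespace Net

variable {N : Net}

theorem lc (d : N.D) : LC N.carrier (N.int d) (N.z d) (N.a d) where
  opn := N.isOpen_int d
  conn := N.isPreconnected_int d
  ne := by
    refine ⟨N.L d / 2, by have := N.L_pos d; linarith, Or.inr (by have := N.L_pos d; linarith)⟩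
  dz := fun t ht => N.hasDerivAt_z ht
  ca := (N.continuousOn_a d).mono (N.int_subset_dom d)
  closed := N.isClosed_carrier
  sub := fun t ht => N.mem_carrier (N.int_subset_dom d ht)
  iso := by
    intro t ht ε hε
    obtain ⟨ρ, hρ, h⟩ := N.exists_ball_regular d ht hε
    refine ⟨ρ, hρ, fun w hw hlt => ?_⟩
    obtain ⟨d', s, hs, rfl⟩ := mem_iUnion.1 hw
    rcases h d' s hs hlt with ⟨h1, h2⟩ | ⟨h1, h2, h3⟩
    · subst h1
      rw [abs_lt] at h2
      exact ⟨s, ⟨by linarith [h2.1], by linarith [h2.2]⟩, rfl⟩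
    · subst h2
      rw [abs_lt] at h3
      refine ⟨N.L d - s, ⟨by linarith [h3.1], by linarith [h3.2]⟩, ?_⟩
      rw [dom_eq_arc (N.rev_ray d h1), N.L_rev d h1] at hs
      exact (N.z_rev d h1 s hs).symm

theorem exists_faceL (d : N.D) : ∃ F, ∀ t ∈ N.int d, LC.IsSide N.carrier (N.z d) (N.a d) 1 F t :=
  (N.lc d).exists_side (by simp)

theorem exists_faceR (d : N.D) : ∃ F, ∀ t ∈ N.int d, LC.IsSide N.carrier (N.z d) (N.a d) (-1) F t :=
  (N.lc d).exists_side (by simp)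

/-- the component of the complement on the left of a directed edge -/
def faceL (d : N.D) : Set ℂ := (N.exists_faceL d).choose
/-- the component of the complement on the right of a directed edge -/
def faceR (d : N.D) : Set ℂ := (N.exists_faceR d).choose

theorem faceL_spec (d : N.D) : ∀ t ∈ N.int d, LC.IsSide N.carrier (N.z d) (N.a d) 1 (N.faceL d) t :=
  (N.exists_faceL d).choose_spec

theorem faceR_spec (d : N.D) :
    ∀ t ∈ N.int d, LC.IsSide N.carrier (N.z d) (N.a d) (-1) (N.faceR d) t :=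
  (N.exists_faceR d).choose_spec

theorem half_mem_int (d : N.D) : N.L d / 2 ∈ N.int d := by
  have := N.L_pos d
  exact ⟨by linarith, Or.inr (by linarith)⟩

theorem pt_rev {d : N.D} (h : ¬ N.isRay d) {t : ℝ} (ht : t ∈ Icc 0 (N.L d)) (s : ℝ) :
    pt (N.z (N.rev d)) (N.a (N.rev d)) t s = pt (N.z d) (N.a d) (N.L d - t) (-s) := by
  unfold pt
  rw [N.z_rev d h t ht, N.a_rev d h t ht]
  push_cast; ring

theorem faceL_rev {d : N.D} (h : ¬ N.isRay d) : N.faceL (N.rev d) = N.faceR d := by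
  have hr := N.faceL_spec (N.rev d) (N.L d / 2) (by
    have := N.half_mem_int (N.rev d); rwa [N.L_rev d h] at this)
  have hd := N.faceR_spec d (N.L d / 2) (N.half_mem_int d)
  have hL := N.L_pos d
  obtain ⟨δ, hδ, h1⟩ := hr
  apply LC.IsSide.unique _ hd
  refine ⟨min δ (N.L d / 2), lt_min hδ (by linarith), fun t' ht' s hs => ?_⟩
  have hm1 := min_le_left δ (N.L d / 2)
  have hm2 := min_le_right δ (N.L d / 2)
  have := h1 (N.L d - t') ⟨by linarith [ht'.2], by linarith [ht'.1]⟩ s ⟨hs.1, by linarith [hs.2]⟩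
  rw [N.pt_rev h ⟨by linarith [ht'.2], by linarith [ht'.1]⟩] at this
  rw [sub_sub_cancel, show -(1 * s) = -1 * s by ring] at this
  exact this

theorem faceR_rev {d : N.D} (h : ¬ N.isRay d) : N.faceR (N.rev d) = N.faceL d := by
  have := N.faceL_rev (N.rev_ray d h)
  rw [N.rev_rev d h] at this
  exact this.symm

theorem faceL_comp (d : N.D) : ∃ x ∈ N.carrierᶜ, N.faceL d = connectedComponentIn N.carrierᶜ x :=
  LC.side_eq_comp (N.faceL_spec d _ (N.half_mem_int d))

theorem faceR_comp (d : N.D) : ∃ x ∈ N.carrierᶜ, N.faceR d = connectedComponentIn N.carrierᶜ x :=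
  LC.side_eq_comp (N.faceR_spec d _ (N.half_mem_int d))

theorem mem_closure_faceL {d : N.D} {t : ℝ} (ht : t ∈ N.int d) : N.z d t ∈ closure (N.faceL d) :=
  LC.mem_closure_side (by simp) (N.faceL_spec d t ht)

theorem face_cases {d : N.D} {t : ℝ} (ht : t ∈ N.int d) {F : Set ℂ} {x : ℂ}
    (hF : F = connectedComponentIn N.carrierᶜ x) (hcl : N.z d t ∈ closure F) :
    F = N.faceL d ∨ F = N.faceR d :=
  (N.lc d).side_cases ht (N.faceL_spec d t ht) (N.faceR_spec d t ht) hF hcl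

/-! ## Behaviour near vertices -/

theorem exists_ball_vertex {v : ℂ} (hv : v ∈ N.verts) {ε : ℝ} (hε : 0 < ε) :
    ∃ ρ > 0, ∀ w ∈ N.carrier, ‖w - v‖ < ρ →
      ∃ d, N.src d = v ∧ ∃ t ∈ N.dom d, t < ε ∧ N.z d t = w := by
  have key : ∀ d' : N.D, ∃ ρ > 0, ∀ s ∈ N.dom d', ‖N.z d' s - v‖ < ρ →
      ∃ d, N.src d = v ∧ ∃ t ∈ N.dom d, t < ε ∧ N.z d t = N.z d' s := by
    intro d'
    obtain ⟨K1, hK1c, hK1⟩ : ∃ K1 : Set ℝ, IsClosed K1 ∧
        ∀ s, s ∈ K1 ↔ (N.src d' = v → ε ≤ s) := by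
      by_cases h : N.src d' = v
      · exact ⟨Ici ε, isClosed_Ici, fun s => ⟨fun hh _ => hh, fun hh => hh h⟩⟩
      · exact ⟨univ, isClosed_univ, fun s => ⟨fun _ hh => absurd hh h, fun _ => mem_univ _⟩⟩
    obtain ⟨K2, hK2c, hK2⟩ : ∃ K2 : Set ℝ, IsClosed K2 ∧
        ∀ s, s ∈ K2 ↔ (¬ N.isRay d' → N.tgt d' = v → s ≤ N.L d' - ε) := by
      by_cases h : ¬ N.isRay d' ∧ N.tgt d' = v
      · exact ⟨Iic (N.L d' - ε), isClosed_Iic, fun s => ⟨fun hh _ _ => hh, fun hh => hh h.1 h.2⟩⟩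
      · exact ⟨univ, isClosed_univ, fun s => ⟨fun _ h1 h2 => absurd ⟨h1, h2⟩ h,
          fun _ => mem_univ _⟩⟩
    obtain ⟨ρ, hρ, hρ2⟩ := N.exists_dist_pos d' v (N.dom d' ∩ (K1 ∩ K2))
      ((N.isClosed_dom d').inter (hK1c.inter hK2c)) (fun s hs => hs.1) (by
        rintro s ⟨hs, hs1, hs2⟩ heq
        rw [hK1] at hs1
        rw [hK2] at hs2
        rcases eq_or_lt_of_le hs.1 with h0 | h0
        · have := hs1 (by rw [src, h0]; exact heq)
          linarith
        · by_cases hr : N.isRay d'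
          · exact N.int_not_vert (d := d') (t := s) ⟨h0, Or.inl hr⟩ (heq ▸ hv)
          · have hsL := hs.2.resolve_left hr
            rcases eq_or_lt_of_le hsL with h1 | h1
            · have := hs2 hr (by rw [tgt, ← h1]; exact heq)
              linarith
            · exact N.int_not_vert (d := d') (t := s) ⟨h0, Or.inr h1⟩ (heq ▸ hv))
    refine ⟨ρ, hρ, fun s hs hlt => ?_⟩
    by_cases c1 : N.src d' = v ∧ s < ε
    · exact ⟨d', c1.1, s, hs, c1.2, rfl⟩
    by_cases c2 : ¬ N.isRay d' ∧ N.tgt d' = v ∧ N.L d' - ε < s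
    · have hs' := hs
      rw [dom_eq_arc c2.1] at hs'
      refine ⟨N.rev d', (N.src_rev c2.1).trans c2.2.1, N.L d' - s, ?_, by linarith [c2.2.2], ?_⟩
      · rw [dom_eq_arc (N.rev_ray d' c2.1), N.L_rev d' c2.1]
        exact ⟨by linarith [hs'.2], by linarith [hs'.1]⟩
      · rw [N.z_rev d' c2.1 _ ⟨by linarith [hs'.2], by linarith [hs'.1]⟩, sub_sub_cancel]
    · exfalso
      apply absurd hlt (not_lt.2 (hρ2 s ⟨hs, (hK1 s).2 ?_, (hK2 s).2 ?_⟩))
      · intro h; by_contra hh; exact c1 ⟨h, not_le.1 hh⟩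
      · intro h h'; by_contra hh; exact c2 ⟨h, h', not_le.1 hh⟩
  choose ρ hρ hρ2 using key
  by_cases hne : Nonempty N.D
  · obtain ⟨d0, -, hd0⟩ := Finset.exists_min_image (Finset.univ : Finset N.D) ρ
      Finset.univ_nonempty
    refine ⟨ρ d0, hρ d0, fun w hw hlt => ?_⟩
    obtain ⟨d', s, hs, rfl⟩ := mem_iUnion.1 hw
    exact hρ2 d' s hs (lt_of_lt_of_le hlt (hd0 d' (Finset.mem_univ _)))
  · obtain ⟨d, _⟩ := hv
    exact absurd ⟨d⟩ hne

/-- first order expansion of an edge at its source -/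
theorem near_src (d : N.D) {t : ℝ} (ht : t ∈ N.dom d) (h1 : t ≤ 1) :
    (∀ s ∈ Icc 0 t, |N.a d s - N.a d 0| ≤ (‖N.src d‖ + 1) * t) ∧
    ‖N.z d t - N.src d - (t : ℂ) * dir (N.a d 0)‖ ≤ (‖N.src d‖ + 1) * t * t := by
  have hg := N.geo' ht
  have hM : ∀ s ∈ Icc 0 t, |N.a d s - N.a d 0| ≤ (‖N.src d‖ + 1) * t := by
    intro s hs
    have h2 := hg.angle_drift (s := 0) (t := s) (R := ‖N.src d‖ + 1) le_rfl hs.1 hs.2 (by
      intro u hu
      have := hg.norm_le (s := 0) (t := u) le_rfl hu.1.le (by linarith [hu.2, hs.2])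
      have h3 : ‖N.z d 0‖ = ‖N.src d‖ := rfl
      linarith [hu.2, hs.2])
    calc |N.a d s - N.a d 0| ≤ (‖N.src d‖ + 1) * (s - 0) := h2
      _ ≤ (‖N.src d‖ + 1) * t := by
        apply mul_le_mul_of_nonneg_left (by linarith [hs.2]) (by positivity)
  refine ⟨hM, ?_⟩
  have := hg.norm_sub_lin (s := 0) (t := t) (b := N.a d 0) (η := (‖N.src d‖ + 1) * t) le_rfl
    ht.1 le_rfl (fun u hu => hM u (Ioo_subset_Icc_self hu))
  rw [sub_zero] at this
  exact this

end Net

end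

end Pool.Agent.MP_4c0f47_an
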