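import Pool.Agent.Lib.MP_4c0f47_an.Defs
import Pool.Agent.Lib.MP_4c0f47_an.Local

set_option autoImplicit false

open Set Filter Topology Complex

namespace Pool.Agent.MP_4c0f47_an

noncomputable section

theorem inner_eq_dot (z w : ℂ) : inner ℝ z w = dot z w := by
  rw [Complex.inner]
  simp [dot]
  ring

theorem perp_eq (z w : ℂ) (hw : w.re ^ 2 + w.im ^ 2 = 1) :
    -(z - (dot z w) • w) = (cross z w : ℂ) * (I * w) := by
  apply Complex.ext
  · simp only [dot, cross, Complex.neg_re, Complex.sub_re, Complex.real_smul, Complex.mul_re,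
      Complex.mul_im, Complex.I_re, Complex.I_im, Complex.ofReal_re, Complex.ofReal_im]
    linear_combination z.re * hw
  · simp only [dot, cross, Complex.neg_im, Complex.sub_im, Complex.real_smul, Complex.mul_re,
      Complex.mul_im, Complex.I_re, Complex.I_im, Complex.ofReal_re, Complex.ofReal_im]
    linear_combination z.im * hw

/-- the tangent angle of a solution -/
theorem exists_lift {γ : ℝ → ℂ} {S : Set ℝ} (hconv : Convex ℝ S) (hint : (interior S).Nonempty)
    (h0 : (0:ℝ) ∈ S) (ρ : ℝ → ℝ) (hρ : Continuous ρ) (hρS : ∀ t, ρ t ∈ S)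
    (hρid : ∀ t ∈ S, ρ t = t) (hsm : ContDiffOn ℝ 2 γ S)
    (hunit : ∀ t ∈ S, ‖derivWithin γ S t‖ = 1)
    (hshr : ∀ t ∈ interior S,
      deriv (deriv γ) t + (γ t - inner ℝ (γ t) (deriv γ t) • deriv γ t) = 0) :
    ∃ a : ℝ → ℝ, Continuous a ∧ (∀ t ∈ S, derivWithin γ S t = dir (a t)) ∧
      ∀ t ∈ interior S, HasDerivAt γ (dir (a t)) t ∧
        HasDerivAt a (cross (γ t) (dir (a t))) t := by
  have hud : UniqueDiffOn ℝ S := uniqueDiffOn_convex hconv hint
  have hcγ : ContinuousOn γ S := hsm.continuousOn
  have hcT : ContinuousOn (derivWithin γ S) S := hsm.continuousOn_derivWithin hud (by norm_num)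
  obtain ⟨a0, ha0⟩ := exists_dir (hunit 0 h0)
  set g : ℝ → ℝ := fun t => cross (γ t) (derivWithin γ S t) with hg
  have hcg : ContinuousOn g S := by
    simp only [hg, cross]
    exact ((Complex.continuous_re.comp_continuousOn hcγ).mul
      (Complex.continuous_im.comp_continuousOn hcT)).sub
      ((Complex.continuous_im.comp_continuousOn hcγ).mul
      (Complex.continuous_re.comp_continuousOn hcT))
  have hG : Continuous (fun t => g (ρ t)) := hcg.comp_continuous hρ hρS
  set a : ℝ → ℝ := fun t => a0 + ∫ x in (0:ℝ)..t, g (ρ x) with ha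
  have hda : ∀ t, HasDerivAt a (g (ρ t)) t := by
    intro t
    exact (hG.integral_hasStrictDerivAt 0 t).hasDerivAt.const_add a0
  have hca : Continuous a := continuous_iff_continuousAt.mpr (fun t => (hda t).continuousAt)
  have hTeq : ∀ t ∈ interior S, derivWithin γ S t = deriv γ t := fun t ht =>
    derivWithin_of_mem_nhds (mem_interior_iff_mem_nhds.mp ht)
  have hdγ : ∀ t ∈ interior S, HasDerivAt γ (derivWithin γ S t) t := by
    intro t ht
    rw [hTeq t ht]
    exact ((hsm.contDiffAt (mem_interior_iff_mem_nhds.mp ht)).differentiableAt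
      (by norm_num)).hasDerivAt
  have hdT : ∀ t ∈ interior S, HasDerivAt (derivWithin γ S) ((g t : ℂ) * (I * derivWithin γ S t)) t := by
    intro t ht
    have h1 : ContDiffAt ℝ 1 (deriv γ) t :=
      (hsm.contDiffAt (mem_interior_iff_mem_nhds.mp ht)).derivWithin (by norm_num)
    have h2 : HasDerivAt (deriv γ) (deriv (deriv γ) t) t :=
      (h1.differentiableAt (by norm_num)).hasDerivAt
    have h3 : derivWithin γ S =ᶠ[𝓝 t] deriv γ := by
      filter_upwards [isOpen_interior.mem_nhds ht] with u hu
      exact hTeq u hu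
    have h4 := h2.congr_of_eventuallyEq h3
    have h5 : deriv (deriv γ) t = (g t : ℂ) * (I * derivWithin γ S t) := by
      have h6 := hshr t ht
      rw [← hTeq t ht, inner_eq_dot] at h6
      have h7 : (derivWithin γ S t).re ^ 2 + (derivWithin γ S t).im ^ 2 = 1 := by
        rw [← norm_sq_eq, hunit t (interior_subset ht)]; norm_num
      rw [← perp_eq _ _ h7]
      exact eq_neg_of_add_eq_zero_left h6
    rw [h5] at h4
    exact h4
  set h : ℝ → ℂ := fun t => derivWithin γ S t * dir (-a t) with hh
  have hch : ContinuousOn h S :=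
    hcT.mul (continuous_dir.comp hca.neg).continuousOn
  have hdh : ∀ t ∈ interior S, HasDerivAt h 0 t := by
    intro t ht
    have h1 := hdT t ht
    have h2' : HasDerivAt (fun x : ℝ => -a x) (-(g (ρ t))) t := (hda t).neg
    have h2 : HasDerivAt (fun t => dir (-a t)) ((-(g (ρ t)) : ℝ) • (I * dir (-a t))) t := by
      have h2'' : HasDerivAt dir (I * dir (-a t)) ((fun x : ℝ => -a x) t) := hasDerivAt_dir (-a t)
      exact h2''.scomp t h2'
    have h3 := h1.mul h2
    rw [hρid t (interior_subset ht)] at h3
    have h4 : (g t : ℂ) * (I * derivWithin γ S t) * dir (-a t) +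
        derivWithin γ S t * ((-(g t) : ℝ) • (I * dir (-a t))) = 0 := by
      rw [Complex.real_smul]; push_cast; ring
    rw [h4] at h3
    exact h3
  obtain ⟨t0, ht0⟩ := hint
  have hconst : ∀ t ∈ interior S, h t = h t0 := by
    intro t ht
    exact isOpen_interior.is_const_of_deriv_eq_zero (hconv.interior.isPreconnected)
      (fun u hu => (hdh u hu).differentiableAt.differentiableWithinAt)
      (fun u hu => (hdh u hu).deriv) ht ht0
  have hconst2 : EqOn h (fun _ => h t0) S := by
    refine Set.EqOn.of_subset_closure (s := interior S) hconst hch continuousOn_const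
      interior_subset ?_
    rw [hconv.closure_interior_eq_closure_of_nonempty_interior ⟨t0, ht0⟩]
    exact subset_closure
  have hone : h 0 = 1 := by
    simp only [hh, ha]
    rw [intervalIntegral.integral_same, add_zero, ha0, dir_mul_neg]
  have hval : ∀ t ∈ S, derivWithin γ S t = dir (a t) := by
    intro t ht
    have h1 : h t = 1 := by rw [hconst2 ht, ← hone, hconst2 h0]
    calc derivWithin γ S t = derivWithin γ S t * (dir (a t) * dir (-a t)) := by
          rw [dir_mul_neg, mul_one]
      _ = h t * dir (a t) := by simp only [hh]; ring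
      _ = dir (a t) := by rw [h1, one_mul]
  refine ⟨a, hca, hval, fun t ht => ?_⟩
  have hts := interior_subset ht
  refine ⟨by rw [← hval t hts]; exact hdγ t ht, ?_⟩
  have := hda t
  rw [hρid t hts] at this
  rw [← hval t hts]
  exact this

namespace PlaneCurve

variable {c : PlaneCurve}

theorem dom_arc (h : c.kind = Kind.arc) : c.dom = Icc 0 c.len := by simp [dom, h]
theorem dom_ray (h : c.kind = Kind.ray) : c.dom = Ici 0 := by simp [dom, h]
theorem dom_line (h : c.kind = Kind.line) : c.dom = univ := by simp [dom, h]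
theorem dom_loop (h : c.kind = Kind.loop) : c.dom = univ := by simp [dom, h]

theorem exists_lift (hc : c.IsEmbedded)
    (hs : ∀ t ∈ interior c.dom, deriv (deriv c.γ) t +
      (c.γ t - inner ℝ (c.γ t) (deriv c.γ t) • deriv c.γ t) = 0) :
    ∃ a : ℝ → ℝ, Continuous a ∧ (∀ t ∈ c.dom, c.tan t = dir (a t)) ∧
      ∀ t ∈ interior c.dom, HasDerivAt c.γ (dir (a t)) t ∧
        HasDerivAt a (cross (c.γ t) (dir (a t))) t := by
  have hL := hc.len_pos
  cases hk : c.kind with
  | arc =>
    have hd := dom_arc hk
    refine Pool.Agent.MP_4c0f47_an.exists_lift (γ := c.γ) (S := c.dom) ?_ ?_ ?_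
      (fun t => max 0 (min t c.len)) (by fun_prop) ?_ ?_ hc.smooth hc.unit hs
    · rw [hd]; exact convex_Icc _ _
    · rw [hd, interior_Icc]; exact nonempty_Ioo.mpr hL
    · rw [hd]; exact ⟨le_rfl, hL.le⟩
    · intro t; rw [hd]; exact ⟨le_max_left _ _, max_le hL.le (min_le_right _ _)⟩
    · intro t ht; rw [hd] at ht
      rw [min_eq_left ht.2, max_eq_right ht.1]
  | ray =>
    have hd := dom_ray hk
    refine Pool.Agent.MP_4c0f47_an.exists_lift (γ := c.γ) (S := c.dom) ?_ ?_ ?_
      (fun t => max 0 t) (by fun_prop) ?_ ?_ hc.smooth hc.unit hs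
    · rw [hd]; exact convex_Ici _
    · rw [hd, interior_Ici]; exact ⟨1, by simp⟩
    · rw [hd]; exact mem_Ici.mpr le_rfl
    · intro t; rw [hd]; exact mem_Ici.mpr (le_max_left _ _)
    · intro t ht; rw [hd] at ht
      exact max_eq_right ht
  | line =>
    have hd := dom_line hk
    refine Pool.Agent.MP_4c0f47_an.exists_lift (γ := c.γ) (S := c.dom) ?_ ?_ ?_
      id continuous_id ?_ ?_ hc.smooth hc.unit hs
    · rw [hd]; exact convex_univ
    · rw [hd, interior_univ]; exact univ_nonempty
    · rw [hd]; exact mem_univ _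
    · intro t; rw [hd]; exact mem_univ _
    · intro t ht; rfl
  | loop =>
    have hd := dom_loop hk
    refine Pool.Agent.MP_4c0f47_an.exists_lift (γ := c.γ) (S := c.dom) ?_ ?_ ?_
      id continuous_id ?_ ?_ hc.smooth hc.unit hs
    · rw [hd]; exact convex_univ
    · rw [hd, interior_univ]; exact univ_nonempty
    · rw [hd]; exact mem_univ _
    · intro t; rw [hd]; exact mem_univ _
    · intro t ht; rfl

end PlaneCurve

/-! ## unit vectors at `120` degrees -/

/-- the rotation by `120` degrees -/
def om : ℂ := dir (2 * Real.pi / 3)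

theorem om_cube : om * om * om = 1 := by
  rw [om, ← dir_add, ← dir_add, ← dir_two_pi]
  congr 1; ring

theorem om_re : om.re = -1 / 2 := by
  rw [om, dir_re, show 2 * Real.pi / 3 = Real.pi - Real.pi / 3 by ring, Real.cos_pi_sub,
    Real.cos_pi_div_three]
  norm_num

theorem om_sq_re : (om * om).re = -1 / 2 := by
  rw [om, ← dir_add, dir_re, show 2 * Real.pi / 3 + 2 * Real.pi / 3 = Real.pi / 3 + Real.pi by ring,
    Real.cos_add_pi, Real.cos_pi_div_three]
  norm_num

theorem om_sq_ne_om : om * om ≠ om := by
  intro h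
  have h1 := om_cube
  rw [h, h] at h1
  have h2 := om_re
  rw [h1] at h2
  norm_num at h2

theorem om_ne_one : om ≠ 1 := by
  intro h
  have h2 := om_re
  rw [h] at h2
  norm_num at h2

theorem om_sq_ne_one : om * om ≠ 1 := by
  intro h
  have h1 := om_cube
  rw [h, one_mul] at h1
  exact om_ne_one h1

/-- unit vectors with inner product `-1/2` -/
theorem eq_mul_om {u v : ℂ} (hu : ‖u‖ = 1) (hv : ‖v‖ = 1) (h : inner ℝ u v = -1 / 2) :
    v = u * om ∨ v = u * (om * om) := by
  have hu0 : u ≠ 0 := by intro h0; rw [h0] at hu; simp at hu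
  set w := v / u with hw
  have hvw : v = u * w := by rw [hw]; field_simp
  have hwn : ‖w‖ = 1 := by rw [hw, norm_div, hu, hv]; norm_num
  have hw1 : w.re ^ 2 + w.im ^ 2 = 1 := by rw [← norm_sq_eq, hwn]; norm_num
  have hu1 : u.re ^ 2 + u.im ^ 2 = 1 := by rw [← norm_sq_eq, hu]; norm_num
  have hwre : w.re = -1 / 2 := by
    rw [inner_eq_dot, hvw] at h
    simp only [dot, Complex.mul_re, Complex.mul_im] at h
    have : w.re * (u.re ^ 2 + u.im ^ 2) = -1 / 2 := by linear_combination h
    rw [hu1, mul_one] at this
    exact this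
  have ho1 : om.re ^ 2 + om.im ^ 2 = 1 := by
    rw [← norm_sq_eq, om, norm_dir]; norm_num
  have him : w.im ^ 2 = om.im ^ 2 := by
    rw [om_re] at ho1; rw [hwre] at hw1; linarith
  have hoo : (om * om).im = - om.im := by
    rw [Complex.mul_im, om_re]; ring
  rcases sq_eq_sq_iff_eq_or_eq_neg.mp him with h1 | h1
  · left
    rw [hvw]
    congr 1
    apply Complex.ext
    · rw [hwre, om_re]
    · exact h1
  · right
    rw [hvw]
    congr 1
    apply Complex.ext
    · rw [hwre, om_sq_re]
    · rw [h1, hoo]

namespace PlaneCurve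

variable {c : PlaneCurve}

theorem zero_mem (hc : c.IsEmbedded) : (0:ℝ) ∈ c.dom := by
  cases hk : c.kind with
  | arc => rw [dom_arc hk]; exact ⟨le_rfl, hc.len_pos.le⟩
  | ray => rw [dom_ray hk]; exact mem_Ici.mpr le_rfl
  | line => rw [dom_line hk]; exact mem_univ _
  | loop => rw [dom_loop hk]; exact mem_univ _

theorem geo_fwd (hc : c.IsEmbedded) {a : ℝ → ℝ} (hac : Continuous a)
    (hd : ∀ t ∈ interior c.dom, HasDerivAt c.γ (dir (a t)) t ∧
        HasDerivAt a (cross (c.γ t) (dir (a t))) t) (hk : c.kind = Kind.arc ∨ c.kind = Kind.ray)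
    {t : ℝ} (h : c.kind = Kind.ray ∨ t ≤ c.len) : Geo c.γ a 0 t := by
  have h1 : Icc 0 t ⊆ c.dom := by
    intro s hs
    rcases hk with hk | hk
    · rw [dom_arc hk]
      rcases h with h | h
      · rw [hk] at h; exact absurd h (by simp)
      · exact ⟨hs.1, hs.2.trans h⟩
    · rw [dom_ray hk]; exact hs.1
  have h2 : Ioo 0 t ⊆ interior c.dom := by
    rw [← interior_Icc]
    exact interior_mono h1
  exact ⟨hc.smooth.continuousOn.mono h1, hac.continuousOn, fun s hs => (hd s (h2 hs)).1,
    fun s hs => (hd s (h2 hs)).2⟩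

/-- an interior point of the curve is hit only once -/
theorem inj_int (hc : c.IsEmbedded) (hk : c.kind = Kind.arc ∨ c.kind = Kind.ray) {s s' : ℝ}
    (hs : 0 < s) (hs2 : c.kind = Kind.ray ∨ s < c.len) (hs' : 0 ≤ s')
    (hs2' : c.kind = Kind.ray ∨ s' ≤ c.len) (h : c.γ s = c.γ s') : s' = s := by
  have he := hc.embeds
  rcases hk with hk | hk
  · simp only [Embeds, hk] at he
    simp only [hk, reduceCtorEq, false_or] at hs2 hs2'
    rcases eq_or_lt_of_le hs2' with h1 | h1
    · exact (he.2 ⟨hs, hs2.le⟩ ⟨by rw [h1]; exact hc.len_pos, hs2'⟩ h).symm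
    · exact (he.1 ⟨hs.le, hs2⟩ ⟨hs', h1⟩ h).symm
  · simp only [Embeds, hk] at he
    exact (he.1 (mem_Ici.mpr hs.le) (mem_Ici.mpr hs') h).symm

end PlaneCurve

namespace Network

variable {N : Network}

theorem norm_endDir (hN : N.IsNetwork) {e : Fin N.n × Bool} (he : N.IsEnd e) :
    ‖N.endDir e‖ = 1 := by
  obtain ⟨i, b⟩ := e
  have hc := hN.embedded i
  cases b with
  | false =>
    simp only [endDir, Bool.false_eq_true, if_false]
    exact hc.unit 0 (PlaneCurve.zero_mem hc)
  | true =>
    simp only [endDir, if_true, norm_neg]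
    have hk : (N.curve i).kind = Kind.arc := by
      rcases he with h | h
      · exact h
      · exact absurd h.2 (by simp)
    apply hc.unit
    rw [PlaneCurve.dom_arc hk]
    exact ⟨hc.len_pos.le, le_rfl⟩

theorem endDir_cases (hN : N.IsNetwork) (hR : N.IsRegular) {e e' : Fin N.n × Bool}
    (he : N.IsEnd e) (he' : N.IsEnd e') (hp : N.endPoint e' = N.endPoint e) (hne : e ≠ e') :
    N.endDir e' = N.endDir e * om ∨ N.endDir e' = N.endDir e * (om * om) := by
  have h1 : e ∈ N.endsAt (N.endPoint e) := ⟨he, rfl⟩
  have h2 : e' ∈ N.endsAt (N.endPoint e) := ⟨he', hp⟩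
  exact eq_mul_om (norm_endDir hN he) (norm_endDir hN he')
    ((hR _ ⟨e, h1⟩).2 e h1 e' h2 hne)

theorem endDir_inj (hN : N.IsNetwork) (hR : N.IsRegular) {e e' : Fin N.n × Bool}
    (he : N.IsEnd e) (he' : N.IsEnd e') (hp : N.endPoint e' = N.endPoint e)
    (h : N.endDir e' = N.endDir e) : e' = e := by
  by_contra hne
  have h0 : N.endDir e ≠ 0 := by
    intro h0
    have := norm_endDir hN he
    rw [h0] at this; simp at this
  have h3 := endDir_cases hN hR he he' hp (fun hh => hne hh.symm)
  rw [h] at h3
  rcases h3 with h3 | h3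
  · have : om = 1 := by
      apply mul_left_cancel₀ h0
      rw [← h3, mul_one]
    exact om_ne_one this
  · have : om * om = 1 := by
      apply mul_left_cancel₀ h0
      rw [← h3, mul_one]
    exact om_sq_ne_one this

theorem exists_rot (hN : N.IsNetwork) (hR : N.IsRegular) (d : {e : Fin N.n × Bool // N.IsEnd e}) :
    ∃ d' : {e : Fin N.n × Bool // N.IsEnd e}, N.endPoint d'.1 = N.endPoint d.1 ∧
      N.endDir d'.1 = N.endDir d.1 * om := by
  obtain ⟨e, he⟩ := d
  have h1 : e ∈ N.endsAt (N.endPoint e) := ⟨he, rfl⟩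
  have h3 := (hR _ ⟨e, h1⟩).1
  obtain ⟨e1, h1S, e2, h2S, h1e, h2e, h12⟩ : ∃ e1 ∈ N.endsAt (N.endPoint e),
      ∃ e2 ∈ N.endsAt (N.endPoint e), e1 ≠ e ∧ e2 ≠ e ∧ e1 ≠ e2 := by
    obtain ⟨x, y, w, hxy, hxw, hyw, hS⟩ := Set.ncard_eq_three.mp h3
    rw [hS] at h1
    rw [hS]
    rcases h1 with h | h | h
    · subst h
      exact ⟨y, by simp, w, by simp, hxy.symm, hxw.symm, hyw⟩
    · subst h
      exact ⟨x, by simp, w, by simp, hxy, hyw.symm, hxw⟩
    · have h' : e = w := h
      subst h'
      exact ⟨x, by simp, y, by simp, hxw, hyw, hxy⟩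
  have c1 := endDir_cases hN hR he h1S.1 h1S.2 h1e.symm
  have c2 := endDir_cases hN hR he h2S.1 h2S.2 h2e.symm
  rcases c1 with c1 | c1
  · exact ⟨⟨e1, h1S.1⟩, h1S.2, c1⟩
  · rcases c2 with c2 | c2
    · exact ⟨⟨e2, h2S.1⟩, h2S.2, c2⟩
    · exfalso
      apply h12
      exact endDir_inj hN hR h2S.1 h1S.1 (h1S.2.trans h2S.2.symm) (c1.trans c2.symm)

end Network

open Network in
theorem exists_net (N : Network) (hN : N.IsNetwork) (hR : N.IsRegular) (hS : N.IsShrinker)
    (h : ∀ i, (N.curve i).kind = Kind.arc ∨ (N.curve i).kind = Kind.ray) :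
    ∃ M : Net, M.carrier = N.carrier := by
  classical
  choose A hAc hAt hAd using fun i => PlaneCurve.exists_lift (hN.embedded i) (hS i)
  choose R hR1 hR2 using exists_rot hN hR
  have harc : ∀ {i : Fin N.n}, N.IsEnd (i, true) → (N.curve i).kind = Kind.arc := by
    intro i he
    rcases he with h | h
    · exact h
    · exact absurd h.2 (by simp)
  have hnr : ∀ {i : Fin N.n}, (N.curve i).kind = Kind.arc → ¬ (N.curve i).kind = Kind.ray := by
    intro i hi hi'
    rw [hi] at hi'
    exact absurd hi' (by simp)
  have hra : ∀ {i : Fin N.n}, ¬ (N.curve i).kind = Kind.ray → (N.curve i).kind = Kind.arc := by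
    intro i hi
    exact (h i).resolve_right hi
  have hdomain : ∀ (i : Fin N.n) (t : ℝ), t ∈ (N.curve i).dom ↔
      0 ≤ t ∧ ((N.curve i).kind = Kind.ray ∨ t ≤ (N.curve i).len) := by
    intro i t
    rcases h i with hk | hk
    · rw [PlaneCurve.dom_arc hk]
      simp [hk]
    · rw [PlaneCurve.dom_ray hk]
      simp [hk]
  let D := {e : Fin N.n × Bool // N.IsEnd e}
  let z : D → ℝ → ℂ := fun d t =>
    if d.1.2 then (N.curve d.1.1).γ ((N.curve d.1.1).len - t) else (N.curve d.1.1).γ t
  let a : D → ℝ → ℝ := fun d t =>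
    if d.1.2 then A d.1.1 ((N.curve d.1.1).len - t) + Real.pi else A d.1.1 t
  let L : D → ℝ := fun d => (N.curve d.1.1).len
  let ray : D → Prop := fun d => (N.curve d.1.1).kind = Kind.ray
  let rev : D → D := fun d =>
    if hd : (N.curve d.1.1).kind = Kind.arc then ⟨(d.1.1, !d.1.2), Or.inl hd⟩ else d
  have hrev1 : ∀ d : D, ¬ ray d → (rev d).1 = (d.1.1, !d.1.2) := by
    intro d hd
    simp only [rev]
    rw [dif_pos (hra hd)]
  have hz0 : ∀ d : D, z d 0 = N.endPoint d.1 := by
    rintro ⟨⟨i, b⟩, hd⟩
    cases b <;> simp [z, endPoint]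
  have ha0 : ∀ d : D, dir (a d 0) = N.endDir d.1 := by
    rintro ⟨⟨i, b⟩, hd⟩
    cases b with
    | false =>
      simp only [a, endDir, Bool.false_eq_true, if_false]
      exact (hAt i 0 (PlaneCurve.zero_mem (hN.embedded i))).symm
    | true =>
      simp only [a, endDir, if_true, sub_zero]
      rw [dir_add_pi, hAt i (N.curve i).len ((hdomain i _).mpr ⟨(hN.embedded i).len_pos.le,
        Or.inr le_rfl⟩)]
  have hpt : ∀ (d : D) (s : ℝ), 0 ≤ s → (ray d ∨ s ≤ L d) → ∃ σ, 0 ≤ σ ∧ (ray d ∨ σ ≤ L d) ∧
      z d s = (N.curve d.1.1).γ σ ∧ σ = if d.1.2 then (N.curve d.1.1).len - s else s := by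
    rintro ⟨⟨i, b⟩, hd⟩ s hs hs2
    cases b with
    | false => exact ⟨s, hs, hs2, by simp [z], by simp⟩
    | true =>
      have hi := harc hd
      refine ⟨(N.curve i).len - s, ?_, Or.inr ?_, by simp [z], by simp⟩
      · have := hs2.resolve_left (hnr hi)
        simp only [L] at this
        linarith
      · simp only [L]; linarith
  have hR1' : ∀ d : D, z (R d) 0 = z d 0 := by
    intro d; rw [hz0, hz0, hR1]
  let M : Net :=
    { D := D
      fin := Fintype.ofFinite _
      L := L
      isRay := ray
      z := z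
      a := a
      rev := rev
      rot := R
      L_pos := fun d => (hN.embedded d.1.1).len_pos
      geo := by
        rintro ⟨⟨i, b⟩, hd⟩ t ht ht2
        cases b with
        | false =>
          have := PlaneCurve.geo_fwd (hN.embedded i) (hAc i) (hAd i) (h i) ht2
          simpa [z, a] using this
        | true =>
          have hi := harc hd
          have ht3 : t ≤ (N.curve i).len := ht2.resolve_left (hnr hi)
          have := (PlaneCurve.geo_fwd (hN.embedded i) (hAc i) (hAd i) (h i)
            (t := (N.curve i).len) (Or.inr le_rfl)).reverse (N.curve i).len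
          have h3 := this.mono (t0 := 0) (t1 := t) (by simp) (by simpa using ht3)
          simpa [z, a] using h3
      rev_ray := by
        intro d hd
        show ¬ (N.curve (rev d).1.1).kind = Kind.ray
        rw [hrev1 d hd]
        exact hd
      rev_rev := by
        intro d hd
        have h1 : ¬ ray (rev d) := by
          show ¬ (N.curve (rev d).1.1).kind = Kind.ray
          rw [hrev1 d hd]
          exact hd
        apply Subtype.ext
        rw [hrev1 _ h1, hrev1 d hd]
        simp
      L_rev := by
        intro d hd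
        show (N.curve (rev d).1.1).len = (N.curve d.1.1).len
        rw [hrev1 d hd]
      z_rev := by
        intro d hd t ht
        have h1 := hrev1 d hd
        simp only [z]
        rw [h1]
        obtain ⟨⟨i, b⟩, hd'⟩ := d
        cases b with
        | false => simp [L]
        | true => simp [L]
      a_rev := by
        intro d hd t ht
        have h1 := hrev1 d hd
        simp only [a]
        rw [h1]
        obtain ⟨⟨i, b⟩, hd'⟩ := d
        cases b with
        | false => simp [L, dir_add_pi]
        | true => simp [L, dir_add_pi]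
      rot3 := by
        intro d
        apply Subtype.ext
        refine endDir_inj hN hR d.2 (R (R (R d))).2 (by rw [hR1, hR1, hR1]) ?_
        rw [hR2, hR2, hR2]
        calc N.endDir d.1 * om * om * om = N.endDir d.1 * (om * om * om) := by ring
          _ = N.endDir d.1 := by rw [om_cube, mul_one]
      z_rot := hR1'
      a_rot := by
        intro d
        rw [ha0, hR2, dir_add, ha0]
        rfl
      vertex := by
        intro d d' hdd
        rw [hz0, hz0] at hdd
        by_cases hne : d' = d
        · exact Or.inl hne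
        · right
          have hne' : d.1 ≠ d'.1 := fun hh => hne (Subtype.ext hh).symm
          rcases endDir_cases hN hR d.2 d'.2 hdd.symm hne' with c1 | c1
          · left
            apply Subtype.ext
            refine endDir_inj hN hR (R d).2 d'.2 (by rw [hR1, hdd]) ?_
            rw [hR2]; exact c1
          · right
            apply Subtype.ext
            refine endDir_inj hN hR (R (R d)).2 d'.2 (by rw [hR1, hR1, hdd]) ?_
            rw [hR2, hR2, c1]; ring
      inj := by
        intro d d' s s' hs hs2 hs' hs2' heq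
        obtain ⟨σ, hσ0, hσ1, hσ2, hσ3⟩ := hpt d s hs.le (hs2.imp id le_of_lt)
        obtain ⟨σ', hσ0', hσ1', hσ2', hσ3'⟩ := hpt d' s' hs' hs2'
        have hσpos : 0 < σ := by
          obtain ⟨⟨i, b⟩, hd⟩ := d
          cases b with
          | false => rw [hσ3]; simpa using hs
          | true =>
            rw [hσ3]
            have hi := harc hd
            have := hs2.resolve_left (hnr hi)
            simp only [L] at this
            simp only [if_true]
            linarith
        have hσlt : (N.curve d.1.1).kind = Kind.ray ∨ σ < (N.curve d.1.1).len := by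
          obtain ⟨⟨i, b⟩, hd⟩ := d
          cases b with
          | false => rw [hσ3]; simpa using hs2
          | true =>
            right
            rw [hσ3]
            simp only [if_true]
            linarith
        have heq2 : (N.curve d.1.1).γ σ = (N.curve d'.1.1).γ σ' := by
          rw [← hσ2, ← hσ2', heq]
        have hij : d'.1.1 = d.1.1 := by
          by_contra hne
          have hmem : (N.curve d.1.1).γ σ ∈ (N.curve d.1.1).carrier ∩ (N.curve d'.1.1).carrier := by
            refine ⟨⟨σ, (hdomain _ _).mpr ⟨hσ0, hσ1⟩, rfl⟩, ?_⟩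
            rw [heq2]
            exact ⟨σ', (hdomain _ _).mpr ⟨hσ0', hσ1'⟩, rfl⟩
          obtain ⟨⟨b, hb1, hb2⟩, _⟩ := hN.meet d.1.1 d'.1.1 (fun hh => hne hh.symm) _ hmem
          cases b with
          | false =>
            have hb3 : (N.curve d.1.1).γ 0 = (N.curve d.1.1).γ σ := by
              simpa [endPoint] using hb2
            have := PlaneCurve.inj_int (hN.embedded d.1.1) (h d.1.1) hσpos hσlt le_rfl
              (Or.inr (hN.embedded d.1.1).len_pos.le) hb3.symm
            linarith
          | true =>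
            have hi := harc hb1
            have hb3 : (N.curve d.1.1).γ (N.curve d.1.1).len = (N.curve d.1.1).γ σ := by
              simpa [endPoint] using hb2
            have := PlaneCurve.inj_int (hN.embedded d.1.1) (h d.1.1) hσpos hσlt
              (hN.embedded d.1.1).len_pos.le (Or.inr le_rfl) hb3.symm
            have h5 := hσlt.resolve_left (hnr hi)
            linarith
        obtain ⟨⟨i, b⟩, hd⟩ := d
        obtain ⟨⟨j, b'⟩, hd'⟩ := d'
        simp only at hij
        subst hij
        have hσσ : σ' = σ := PlaneCurve.inj_int (hN.embedded j) (h j) hσpos hσlt hσ0' hσ1' heq2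
        cases b <;> cases b'
        · left
          refine ⟨rfl, ?_⟩
          simp only [Bool.false_eq_true, if_false] at hσ3 hσ3'
          rw [← hσ3, ← hσ3', hσσ]
        · right
          have hi := harc hd'
          simp only [Bool.false_eq_true, if_false, if_true] at hσ3 hσ3'
          refine ⟨hnr hi, ?_, ?_⟩
          · apply Subtype.ext
            rw [hrev1 _ (hnr hi)]
            rfl
          · simp only [L]
            linarith
        · right
          have hi := harc hd
          simp only [Bool.false_eq_true, if_false, if_true] at hσ3 hσ3'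
          refine ⟨hnr hi, ?_, ?_⟩
          · apply Subtype.ext
            rw [hrev1 _ (hnr hi)]
            rfl
          · simp only [L]
            linarith
        · left
          refine ⟨rfl, ?_⟩
          simp only [if_true] at hσ3 hσ3'
          linarith
      ray_inf := by
        rintro ⟨⟨i, b⟩, hd⟩ hray
        have hk : (N.curve i).kind = Kind.ray := hray
        cases b with
        | false =>
          have he := (hN.embedded i).embeds
          simp only [PlaneCurve.Embeds, hk] at he
          simpa [z] using he.2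
        | true => exact absurd hk (hnr (harc hd)) }
  refine ⟨M, ?_⟩
  apply Set.Subset.antisymm
  · intro w hw
    obtain ⟨d, s, hs, rfl⟩ := mem_iUnion.1 hw
    obtain ⟨σ, hσ0, hσ1, hσ2, hσ3⟩ := hpt d s hs.1 hs.2
    refine mem_iUnion.2 ⟨d.1.1, σ, (hdomain _ _).mpr ⟨hσ0, hσ1⟩, hσ2.symm⟩
  · intro w hw
    obtain ⟨i, s, hs, rfl⟩ := mem_iUnion.1 hw
    have hs' := (hdomain i s).mp hs
    have he : N.IsEnd (i, false) := (h i).imp id (fun hh => ⟨hh, rfl⟩)
    exact mem_iUnion.2 ⟨(⟨(i, false), he⟩ : D), s, hs', by simp [M, z]⟩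

end

end Pool.Agent.MP_4c0f47_an
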