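import Pool.Agent.Lib.MP_4c0f47_an.Build

set_option autoImplicit false

open Set Filter Topology Complex

namespace Pool.Agent.MP_4c0f47_an

noncomputable section

theorem isClosedMap_of_tendsto {f : ℝ → ℂ} (hf : Continuous f)
    (h1 : Tendsto (fun t => ‖f t‖) atTop atTop) (h2 : Tendsto (fun t => ‖f t‖) atBot atTop) :
    IsClosedMap f := by
  have h3 : IsProperMap f := by
    rw [isProperMap_iff_tendsto_cocompact]
    refine ⟨hf, ?_⟩
    rw [cocompact_eq_atBot_atTop, ← Metric.cobounded_eq_cocompact, tendsto_sup]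
    exact ⟨tendsto_norm_atTop_iff_cobounded.mp h2, tendsto_norm_atTop_iff_cobounded.mp h1⟩
  exact h3.isClosedMap

namespace PlaneCurve

variable {c : PlaneCurve}

theorem loop_ne (hL : 0 < c.len) (hinj : InjOn c.γ (Ico 0 c.len))
    (hper : Function.Periodic c.γ c.len) {t y : ℝ} (h1 : t < y) (h2 : y < t + c.len) :
    c.γ t ≠ c.γ y := by
  intro heq
  have e1 : ∀ x : ℝ, c.γ (toIcoMod hL 0 x) = c.γ x := by
    intro x
    rw [← self_sub_toIcoDiv_zsmul hL 0 x]
    exact hper.sub_zsmul_eq _
  have m1 := toIcoMod_mem_Ico hL 0 t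
  have m2 := toIcoMod_mem_Ico hL 0 y
  rw [zero_add] at m1 m2
  have h3 : toIcoMod hL 0 t = toIcoMod hL 0 y := hinj m1 m2 (by rw [e1, e1, heq])
  rw [← self_sub_toIcoDiv_zsmul hL 0 t, ← self_sub_toIcoDiv_zsmul hL 0 y] at h3
  set m := toIcoDiv hL 0 t
  set n := toIcoDiv hL 0 y
  have h4 : y - t = ((n - m : ℤ) : ℝ) * c.len := by
    simp only [zsmul_eq_mul] at h3
    push_cast
    linarith
  have h5 : 0 < ((n - m : ℤ) : ℝ) * c.len := by linarith
  have h6 : ((n - m : ℤ) : ℝ) * c.len < 1 * c.len := by linarith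
  have h7 : (0:ℝ) < ((n - m : ℤ) : ℝ) := (mul_pos_iff_of_pos_right hL).mp h5
  have h8 : ((n - m : ℤ) : ℝ) < 1 := lt_of_mul_lt_mul_right h6 hL.le
  have h9 : 0 < n - m := by exact_mod_cast h7
  have h10 : n - m < 1 := by exact_mod_cast h8
  omega

theorem isClosed_carrier (hc : c.IsEmbedded) : IsClosed c.carrier := by
  have he := hc.embeds
  have hcont := hc.smooth.continuousOn
  unfold carrier
  cases hk : c.kind with
  | arc =>
    rw [dom_arc hk] at hcont ⊢
    exact (isCompact_Icc.image_of_continuousOn hcont).isClosed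
  | ray =>
    rw [dom_ray hk] at hcont ⊢
    simp only [Embeds, hk] at he
    have h1 : Continuous (fun t : ℝ => c.γ |t|) :=
      hcont.comp_continuous continuous_abs (fun t => abs_nonneg t)
    have h2 : IsClosedMap (fun t : ℝ => c.γ |t|) :=
      isClosedMap_of_tendsto h1 (he.2.comp tendsto_abs_atTop_atTop)
        (he.2.comp tendsto_abs_atBot_atTop)
    have h3 : c.γ '' Ici 0 = (fun t : ℝ => c.γ |t|) '' univ := by
      ext w
      constructor
      · rintro ⟨t, ht, rfl⟩
        exact ⟨t, mem_univ _, by simp only [abs_of_nonneg (mem_Ici.mp ht)]⟩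
      · rintro ⟨t, -, rfl⟩
        exact ⟨|t|, abs_nonneg t, rfl⟩
    rw [h3]
    exact h2 _ isClosed_univ
  | line =>
    rw [dom_line hk] at hcont ⊢
    simp only [Embeds, hk] at he
    exact isClosedMap_of_tendsto (continuousOn_univ.mp hcont) he.2.1 he.2.2 _ isClosed_univ
  | loop =>
    rw [dom_loop hk] at hcont ⊢
    simp only [Embeds, hk] at he
    rw [image_univ, ← he.2.image_Icc hc.len_pos 0]
    exact (isCompact_Icc.image_of_continuousOn (hcont.mono (subset_univ _))).isClosed

theorem iso_loop (hc : c.IsEmbedded) (hk : c.kind = Kind.line ∨ c.kind = Kind.loop) (t : ℝ)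
    (ε : ℝ) (hε : 0 < ε) : ∃ ρ > 0, ∀ w ∈ c.carrier, ‖w - c.γ t‖ < ρ →
      ∃ t' ∈ Ioo (t - ε) (t + ε), c.γ t' = w := by
  have he := hc.embeds
  have hcont := hc.smooth.continuousOn
  have key : ∀ K : Set ℂ, IsClosed K → c.γ t ∉ K → (∀ w ∈ c.carrier, w ∉ K →
      ∃ t' ∈ Ioo (t - ε) (t + ε), c.γ t' = w) → ∃ ρ > 0, ∀ w ∈ c.carrier, ‖w - c.γ t‖ < ρ →
      ∃ t' ∈ Ioo (t - ε) (t + ε), c.γ t' = w := by
    intro K hK htK h
    obtain ⟨ρ, hρ, hρ2⟩ := Metric.isOpen_iff.mp hK.isOpen_compl (c.γ t) htK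
    refine ⟨ρ, hρ, fun w hw hlt => h w hw ?_⟩
    exact hρ2 (by rw [Metric.mem_ball, dist_eq_norm]; exact hlt)
  rcases hk with hk | hk
  · rw [dom_line hk] at hcont
    simp only [Embeds, hk] at he
    have hcm := isClosedMap_of_tendsto (continuousOn_univ.mp hcont) he.2.1 he.2.2
    refine key (c.γ '' (Iic (t - ε) ∪ Ici (t + ε))) (hcm _ (isClosed_Iic.union isClosed_Ici)) ?_ ?_
    · rintro ⟨y, hy, hye⟩
      have := he.1 hye
      subst this
      rcases hy with hy | hy
      · have := mem_Iic.mp hy; linarith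
      · have := mem_Ici.mp hy; linarith
    · rintro w ⟨y, -, rfl⟩ hw
      refine ⟨y, ⟨?_, ?_⟩, rfl⟩
      · by_contra hh
        exact hw ⟨y, Or.inl (not_lt.mp hh), rfl⟩
      · by_contra hh
        exact hw ⟨y, Or.inr (not_lt.mp hh), rfl⟩
  · rw [dom_loop hk] at hcont
    simp only [Embeds, hk] at he
    have hL := hc.len_pos
    set η := min (ε / 2) (c.len / 2) with hη
    have hη0 : 0 < η := lt_min (by linarith) (by linarith)
    have hη1 : η ≤ ε / 2 := min_le_left _ _
    refine key (c.γ '' Icc (t + η) (t + c.len - η))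
      (isCompact_Icc.image_of_continuousOn (hcont.mono (subset_univ _))).isClosed ?_ ?_
    · rintro ⟨y, hy, hye⟩
      exact loop_ne hL he.1 he.2 (t := t) (y := y) (by linarith [hy.1]) (by linarith [hy.2])
        hye.symm
    · rintro w ⟨u, -, rfl⟩ hw
      obtain ⟨y, hy, hye⟩ := he.2.exists_mem_Ico hL u (t - η)
      refine ⟨y, ⟨by linarith [hy.1], ?_⟩, hye.symm⟩
      by_contra hh
      apply hw
      rw [hye]
      exact ⟨y, ⟨by linarith [not_lt.mp hh], by linarith [hy.2]⟩, rfl⟩

end PlaneCurve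

/-- a bounded component of the complement of a closed set has a boundary point on the set -/
theorem exists_mem_closure_comp {Γ : Set ℂ} (hΓ : IsClosed Γ) {x : ℂ} (hx : x ∈ Γᶜ)
    (hb : Bornology.IsBounded (connectedComponentIn Γᶜ x)) :
    ∃ p ∈ Γ, p ∈ closure (connectedComponentIn Γᶜ x) := by
  by_contra hcon
  push Not at hcon
  set F := connectedComponentIn Γᶜ x with hF
  have hopen : IsOpen F := hΓ.isOpen_compl.connectedComponentIn
  have hxF : x ∈ F := mem_connectedComponentIn hx
  have hsub : closure F ⊆ Γᶜ := fun p hp hpΓ => hcon p hpΓ hp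
  have hpre : IsPreconnected (closure F) := isPreconnected_connectedComponentIn.closure
  have h1 : closure F ⊆ F := hpre.subset_connectedComponentIn (subset_closure hxF) hsub
  have hclosed : IsClosed F := by
    rw [← closure_subset_iff_isClosed]
    exact h1
  have huniv : F = univ := IsClopen.eq_univ ⟨hclosed, hopen⟩ ⟨x, hxF⟩
  rw [huniv] at hb
  exact NormedSpace.unbounded_univ ℝ ℂ hb

namespace Network

variable {N : Network}

theorem carrier_eq_of_loop (hN : N.IsNetwork) {i : Fin N.n}
    (hk : (N.curve i).kind = Kind.line ∨ (N.curve i).kind = Kind.loop) :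
    N.carrier = (N.curve i).carrier := by
  classical
  have hdis : ∀ j, j ≠ i → ∀ p ∈ (N.curve j).carrier, p ∉ (N.curve i).carrier := by
    intro j hj p hp hpi
    obtain ⟨⟨b, hb1, hb2⟩, _⟩ := hN.meet i j hj.symm p ⟨hpi, hp⟩
    rcases hb1 with h | h <;> rcases hk with hk | hk
    · rw [hk] at h; exact absurd h (by simp)
    · rw [hk] at h; exact absurd h (by simp)
    · rw [hk] at h; exact absurd h.1 (by simp)
    · rw [hk] at h; exact absurd h.1 (by simp)
  have hsub : (N.curve i).carrier ⊆ N.carrier := fun p hp => mem_iUnion.2 ⟨i, hp⟩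
  have hne : ((N.curve i).carrier).Nonempty := by
    refine ⟨(N.curve i).γ 0, 0, ?_, rfl⟩
    rcases hk with hk | hk
    · rw [PlaneCurve.dom_line hk]; exact mem_univ _
    · rw [PlaneCurve.dom_loop hk]; exact mem_univ _
  refine Set.Subset.antisymm ?_ hsub
  set B : Set ℂ := ⋃ j ∈ (Finset.univ.filter (fun j => j ≠ i)), (N.curve j).carrier with hB
  have hBcl : IsClosed B :=
    isClosed_biUnion_finset (fun j _ => PlaneCurve.isClosed_carrier (hN.embedded j))
  have hcov : N.carrier ⊆ (N.curve i).carrier ∪ B := by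
    intro p hp
    obtain ⟨j, hj⟩ := mem_iUnion.1 hp
    by_cases hji : j = i
    · subst hji; exact Or.inl hj
    · right
      simp only [hB, mem_iUnion]
      exact ⟨j, by simp [hji], hj⟩
  intro p hp
  by_contra hpi
  have hpB : p ∈ B := (hcov hp).resolve_left hpi
  have h1 := (isPreconnected_closed_iff.mp hN.connected.isPreconnected) (N.curve i).carrier B
    (PlaneCurve.isClosed_carrier (hN.embedded i)) hBcl hcov
    (by
      obtain ⟨q, hq⟩ := hne
      exact ⟨q, hsub hq, hq⟩) ⟨p, hp, hpB⟩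
  obtain ⟨q, -, hqi, hqB⟩ := h1
  simp only [hB, mem_iUnion] at hqB
  obtain ⟨j, hj, hqj⟩ := hqB
  exact hdis j (by simpa using hj) q hqj hqi

end Network

theorem bounded_degenerate (N : Network) (hN : N.IsNetwork) (hS : N.IsShrinker)
    (h : ∃ i, (N.curve i).kind = Kind.line ∨ (N.curve i).kind = Kind.loop) :
    N.boundedRegions.encard ≤ 2 := by
  obtain ⟨i, hk⟩ := h
  have hcar := Network.carrier_eq_of_loop hN hk
  have hc := hN.embedded i
  obtain ⟨a, hac, hat, had⟩ := PlaneCurve.exists_lift hc (hS i)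
  have hdom : (N.curve i).dom = univ := by
    rcases hk with hk | hk
    · exact PlaneCurve.dom_line hk
    · exact PlaneCurve.dom_loop hk
  have hrange : N.carrier = range (N.curve i).γ := by
    rw [hcar, PlaneCurve.carrier, hdom, image_univ]
  have hlc : LC N.carrier univ (N.curve i).γ a :=
    { opn := isOpen_univ
      conn := isPreconnected_univ
      ne := univ_nonempty
      dz := fun t _ => (had t (by rw [hdom, interior_univ]; exact mem_univ _)).1
      ca := hac.continuousOn
      closed := by rw [hcar]; exact PlaneCurve.isClosed_carrier hc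
      sub := fun t _ => by rw [hrange]; exact mem_range_self t
      iso := by
        intro t _ ε hε
        rw [hcar]
        exact PlaneCurve.iso_loop hc hk t ε hε }
  obtain ⟨FL, hFL⟩ := hlc.exists_side (σ := 1) (by simp)
  obtain ⟨FR, hFR⟩ := hlc.exists_side (σ := -1) (by simp)
  have hsub : N.boundedRegions ⊆ {FL, FR} := by
    rintro F ⟨⟨x, hx, hF⟩, hb⟩
    rw [hF] at hb
    obtain ⟨p, hp, hpc⟩ := exists_mem_closure_comp hlc.closed hx hb
    rw [hrange] at hp
    obtain ⟨t, rfl⟩ := hp
    have := hlc.side_cases (mem_univ t) (hFL t (mem_univ t)) (hFR t (mem_univ t)) hF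
      (by rw [hF]; exact hpc)
    rcases this with h1 | h1
    · rw [h1]; simp
    · rw [h1]; simp
  calc N.boundedRegions.encard ≤ ({FL, FR} : Set (Set ℂ)).encard := Set.encard_le_encard hsub
    _ ≤ ({FR} : Set (Set ℂ)).encard + 1 := Set.encard_insert_le _ _
    _ = 2 := by rw [Set.encard_singleton]; norm_num

end

end Pool.Agent.MP_4c0f47_an
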