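import Pool.Agent.Lib.MP_4c0f47_an.CellDefs

set_option autoImplicit false

open Set Filter Topology

namespace Pool.Agent.MP_4c0f47_an

noncomputable section

/-! ### the function `gg` -/

theorem gg_pos {r : ℝ} (hr : 0 < r) : 0 < gg r := by
  unfold gg; positivity

theorem hasDerivAt_gg (r : ℝ) : HasDerivAt gg ((1 - r ^ 2) * Real.exp (-(r ^ 2) / 2)) r := by
  have h1 : HasDerivAt (fun r : ℝ => -(r ^ 2) / 2) (-r) r := by
    have := ((hasDerivAt_id r).pow 2).neg.div_const 2
    refine this.congr_deriv ?_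
    simp; ring
  have h2 := (hasDerivAt_id r).mul h1.exp
  refine h2.congr_deriv ?_
  simp; ring

theorem continuous_gg : Continuous gg := by
  unfold gg; fun_prop

theorem gg_antitone : AntitoneOn gg (Ici 1) := by
  apply antitoneOn_of_deriv_nonpos (convex_Ici 1) continuous_gg.continuousOn
  · intro x _; exact (hasDerivAt_gg x).differentiableAt.differentiableWithinAt
  · intro x hx
    rw [interior_Ici] at hx
    rw [(hasDerivAt_gg x).deriv]
    have hx1 : (1 : ℝ) < x := hx
    have : 1 - x ^ 2 ≤ 0 := by nlinarith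
    exact mul_nonpos_of_nonpos_of_nonneg this (Real.exp_pos _).le

theorem exp_bound1 : Real.exp (-(5 ^ 2 : ℝ) / 2) < 1 / 1000 := by
  have h1 : (1000 : ℝ) < Real.exp (25 / 2) := by
    have h2 : (2.7 : ℝ) < Real.exp 1 := by
      have := Real.exp_one_gt_d9; linarith
    have h3 : Real.exp (25 / 2) = Real.exp 1 ^ 12 * Real.exp (1 / 2) := by
      rw [← Real.exp_nat_mul, ← Real.exp_add]; norm_num
    rw [h3]
    have h4 : (1 : ℝ) ≤ Real.exp (1 / 2) := Real.one_le_exp (by norm_num)
    have h5 : (2.7 : ℝ) ^ 12 ≤ Real.exp 1 ^ 12 := pow_le_pow_left₀ (by norm_num) h2.le 12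
    have h6 : (1000 : ℝ) < 2.7 ^ 12 := by norm_num
    nlinarith
  have h7 : Real.exp (-(5 ^ 2 : ℝ) / 2) = (Real.exp (25 / 2))⁻¹ := by
    rw [← Real.exp_neg]; norm_num
  rw [h7, one_div]
  exact inv_strictAnti₀ (by norm_num) h1

theorem gg_small {r ρ : ℝ} (hr : 0 < r) (hρ : 5 ≤ ρ) (hrρ : r ≤ ρ) (h : gg r < gg ρ) :
    r < 1 / 10 := by
  by_contra hcon
  push Not at hcon
  rcases le_or_gt 1 r with h1 | h1
  · have := gg_antitone (show r ∈ Ici 1 from h1) (show ρ ∈ Ici 1 by
      show (1:ℝ) ≤ ρ; linarith) hrρ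
    linarith
  · have h2 : gg ρ ≤ gg 5 := gg_antitone (show (5 : ℝ) ∈ Ici 1 by
      show (1:ℝ) ≤ 5; norm_num) (show ρ ∈ Ici 1 by show (1:ℝ) ≤ ρ; linarith) hρ
    have h3 : gg 5 < 5 * (1 / 1000) := by
      unfold gg
      have := exp_bound1
      linarith
    have h4 : (1 / 10) * (1 / 2) ≤ gg r := by
      unfold gg
      have h5 : (1 / 2 : ℝ) ≤ Real.exp (-(r ^ 2) / 2) := by
        have h6 := Real.add_one_le_exp (-(r ^ 2) / 2)
        nlinarith
      apply mul_le_mul hcon h5 (by norm_num) hr.le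
    linarith

theorem sin_pi_twelve : (1 : ℝ) / 6 ≤ Real.sin (Real.pi / 12) := by
  have h := Real.mul_le_sin (x := Real.pi / 12) (by positivity) (by
    have := Real.pi_pos; linarith)
  have h2 : 2 / Real.pi * (Real.pi / 12) = 1 / 6 := by
    field_simp; norm_num
  linarith

theorem gg_ratio {ρ ρ' : ℝ} (hρ : 5 ≤ ρ) (hρ' : ρ + 1 ≤ ρ') :
    gg ρ' ≤ Real.sin (Real.pi / 12) * gg ρ := by
  have h1 : gg ρ' ≤ gg (ρ + 1) := gg_antitone (show (ρ + 1 : ℝ) ∈ Ici 1 by
      show (1:ℝ) ≤ ρ + 1; linarith) (show ρ' ∈ Ici 1 by show (1:ℝ) ≤ ρ'; linarith) hρ'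
  have h2 : gg (ρ + 1) = ((ρ + 1) * Real.exp (-ρ - 1 / 2)) * Real.exp (-(ρ ^ 2) / 2) := by
    unfold gg
    rw [mul_assoc, ← Real.exp_add]
    congr 2; ring
  have h3 : (ρ + 1) * Real.exp (-ρ - 1 / 2) ≤ 1 / 6 * ρ := by
    have h4 : Real.exp (-ρ - 1 / 2) ≤ Real.exp (-5) := by
      apply Real.exp_le_exp.2; linarith
    have h5 : Real.exp (-5) ≤ 1 / 32 := by
      rw [Real.exp_neg, one_div]
      apply inv_anti₀ (by norm_num)
      have h6 : (2 : ℝ) ≤ Real.exp 1 := by
        have := Real.exp_one_gt_d9; linarith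
      have h7 : Real.exp 5 = Real.exp 1 ^ 5 := by
        rw [← Real.exp_nat_mul]; norm_num
      rw [h7]
      calc (32 : ℝ) = 2 ^ 5 := by norm_num
        _ ≤ _ := pow_le_pow_left₀ (by norm_num) h6 5
    have h8 : Real.exp (-ρ - 1 / 2) ≤ 1 / 32 := h4.trans h5
    calc (ρ + 1) * Real.exp (-ρ - 1 / 2) ≤ (ρ + 1) * (1 / 32) :=
          mul_le_mul_of_nonneg_left h8 (by linarith)
      _ ≤ 1 / 6 * ρ := by linarith
  calc gg ρ' ≤ gg (ρ + 1) := h1
    _ = ((ρ + 1) * Real.exp (-ρ - 1 / 2)) * Real.exp (-(ρ ^ 2) / 2) := h2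
    _ ≤ (1 / 6 * ρ) * Real.exp (-(ρ ^ 2) / 2) :=
        mul_le_mul_of_nonneg_right h3 (Real.exp_pos _).le
    _ = 1 / 6 * gg ρ := by unfold gg; ring
    _ ≤ Real.sin (Real.pi / 12) * gg ρ :=
        mul_le_mul_of_nonneg_right sin_pi_twelve (gg_pos (by linarith)).le

/-! ### arcs -/

/-- a corner free piece of a chain, up to its end points -/
structure Arc (b γ : ℝ → ℝ) (x y : ℝ) : Prop where
  cb : ContinuousOn b (Icc x y)
  cγ : ContinuousOn γ (Icc x y)
  pos : ∀ u ∈ Icc x y, 0 < b u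
  ang : ∀ u ∈ Icc x y, γ u ∈ Ioo 0 Real.pi
  db : ∀ u ∈ Ioo x y, HasDerivAt b (b u * (Real.cos (γ u) / Real.sin (γ u))) u
  dγ : ∀ u ∈ Ioo x y, HasDerivAt γ (b u ^ 2 - 1) u

namespace Arc

variable {b γ : ℝ → ℝ} {x y : ℝ}

theorem mono (h : Arc b γ x y) {u v : ℝ} (hu : x ≤ u) (hv : v ≤ y) : Arc b γ u v where
  cb := h.cb.mono (Icc_subset_Icc hu hv)
  cγ := h.cγ.mono (Icc_subset_Icc hu hv)
  pos := fun w hw => h.pos w ⟨hu.trans hw.1, hw.2.trans hv⟩
  ang := fun w hw => h.ang w ⟨hu.trans hw.1, hw.2.trans hv⟩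
  db := fun w hw => h.db w ⟨hu.trans_lt hw.1, hw.2.trans_le hv⟩
  dγ := fun w hw => h.dγ w ⟨hu.trans_lt hw.1, hw.2.trans_le hv⟩

theorem sin_pos (h : Arc b γ x y) {u : ℝ} (hu : u ∈ Icc x y) : 0 < Real.sin (γ u) :=
  Real.sin_pos_of_pos_of_lt_pi (h.ang u hu).1 (h.ang u hu).2

theorem hasDerivAt_en (h : Arc b γ x y) {u : ℝ} (hu : u ∈ Ioo x y) :
    HasDerivAt (en b γ) 0 u := by
  have h1 := (hasDerivAt_gg (b u)).comp u (h.db u hu)
  have h2 := (h.dγ u hu).sin
  have h3 := h1.mul h2
  refine h3.congr_deriv ?_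
  have hs := h.sin_pos (Ioo_subset_Icc_self hu)
  simp only [gg, Function.comp]
  field_simp
  ring

theorem continuousOn_en (h : Arc b γ x y) : ContinuousOn (en b γ) (Icc x y) := by
  unfold en
  exact (continuous_gg.comp_continuousOn h.cb).mul (Real.continuous_sin.comp_continuousOn h.cγ)

theorem en_eq (h : Arc b γ x y) {u v : ℝ} (hu : u ∈ Icc x y) (hv : v ∈ Icc x y) :
    en b γ u = en b γ v := by
  wlog huv : u ≤ v generalizing u v
  · exact (this hv hu (le_of_not_ge huv)).symm
  have := constant_of_derivWithin_zero (f := en b γ) (a := x) (b := y)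
  have key : ∀ w ∈ Icc x y, en b γ w = en b γ x := by
    have hx : x ≤ y := hu.1.trans hu.2
    intro w hw
    have h0 := Convex.image_sub_le_mul_sub_of_deriv_le (D := Icc x y) (convex_Icc x y)
      h.continuousOn_en
      (by
        rw [interior_Icc]; intro z hz
        exact (h.hasDerivAt_en hz).differentiableAt.differentiableWithinAt)
      (C := 0) (by
        rw [interior_Icc]; intro z hz
        rw [(h.hasDerivAt_en hz).deriv]) x (left_mem_Icc.2 hx) w hw hw.1
    have h1 := Convex.mul_sub_le_image_sub_of_le_deriv (D := Icc x y) (convex_Icc x y)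
      h.continuousOn_en
      (by
        rw [interior_Icc]; intro z hz
        exact (h.hasDerivAt_en hz).differentiableAt.differentiableWithinAt)
      (C := 0) (by
        rw [interior_Icc]; intro z hz
        rw [(h.hasDerivAt_en hz).deriv]) x (left_mem_Icc.2 hx) w hw hw.1
    linarith
  rw [key u hu, key v hv]

end Arc

/-! ### the function `G` -/

def GG (r : ℝ) : ℝ := ∫ u in (1:ℝ)..r, Real.exp (u ^ 2 / 2) / u ^ 2

theorem contOn_ff : ContinuousOn (fun u : ℝ => Real.exp (u ^ 2 / 2) / u ^ 2) (Ioi 0) := by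
  apply ContinuousOn.div (by fun_prop) (by fun_prop)
  intro u hu
  have : (0:ℝ) < u := hu
  positivity

theorem intervalIntegrable_ff {p q : ℝ} (hp : 0 < p) (hq : 0 < q) :
    IntervalIntegrable (fun u : ℝ => Real.exp (u ^ 2 / 2) / u ^ 2) MeasureTheory.volume p q := by
  apply ContinuousOn.intervalIntegrable
  apply contOn_ff.mono
  intro u hu
  have := hu.1
  exact lt_of_lt_of_le (lt_min hp hq) this

theorem hasDerivAt_GG {r : ℝ} (hr : 0 < r) :
    HasDerivAt GG (Real.exp (r ^ 2 / 2) / r ^ 2) r := by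
  apply intervalIntegral.integral_hasDerivAt_right (intervalIntegrable_ff one_pos hr)
  · exact contOn_ff.stronglyMeasurableAtFilter isOpen_Ioi r hr
  · exact contOn_ff.continuousAt (Ioi_mem_nhds hr)

theorem GG_strictMono : StrictMonoOn GG (Ioi 0) := by
  apply strictMonoOn_of_deriv_pos (convex_Ioi 0)
  · intro r hr; exact (hasDerivAt_GG hr).continuousAt.continuousWithinAt
  · intro r hr
    rw [interior_Ioi] at hr
    rw [(hasDerivAt_GG hr).deriv]
    have : (0:ℝ) < r := hr
    positivity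

theorem GG_le {r : ℝ} (hr : 0 < r) (hr1 : r ≤ 1) :
    GG r ≤ - (Real.exp (r ^ 2 / 2) * (1 / r - 1)) := by
  -- compare derivatives of `GG u + exp(r²/2)(1/u - 1)` on `[r,1]`
  have hmono : MonotoneOn (fun u => GG u + Real.exp (r ^ 2 / 2) * (1 / u - 1)) (Icc r 1) := by
    apply monotoneOn_of_deriv_nonneg (convex_Icc r 1)
    · intro u hu
      have hu0 : 0 < u := hr.trans_le hu.1
      apply ContinuousAt.continuousWithinAt
      apply ContinuousAt.add (hasDerivAt_GG hu0).continuousAt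
      apply ContinuousAt.mul continuousAt_const
      apply ContinuousAt.sub _ continuousAt_const
      exact continuousAt_const.div continuousAt_id hu0.ne'
    · intro u hu
      rw [interior_Icc] at hu
      have hu0 : 0 < u := hr.trans hu.1
      have h1 : HasDerivAt (fun u : ℝ => 1 / u - 1) (-(u ^ 2)⁻¹) u := by
        simpa using (hasDerivAt_inv hu0.ne').sub_const 1
      exact ((hasDerivAt_GG hu0).add (h1.const_mul _)).differentiableAt.differentiableWithinAt
    · intro u hu
      rw [interior_Icc] at hu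
      have hu0 : 0 < u := hr.trans hu.1
      have h1 : HasDerivAt (fun u : ℝ => 1 / u - 1) (-(u ^ 2)⁻¹) u := by
        simpa using (hasDerivAt_inv hu0.ne').sub_const 1
      have h2 := (hasDerivAt_GG hu0).add (h1.const_mul (Real.exp (r ^ 2 / 2)))
      have h3 : deriv (fun u => GG u + Real.exp (r ^ 2 / 2) * (1 / u - 1)) u =
          Real.exp (u ^ 2 / 2) / u ^ 2 + Real.exp (r ^ 2 / 2) * (-(u ^ 2)⁻¹) := h2.deriv
      rw [h3]
      have h4 : Real.exp (r ^ 2 / 2) ≤ Real.exp (u ^ 2 / 2) := by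
        apply Real.exp_le_exp.2
        have := hu.1
        nlinarith
      have h5 : Real.exp (u ^ 2 / 2) / u ^ 2 + Real.exp (r ^ 2 / 2) * (-(u ^ 2)⁻¹) =
          (Real.exp (u ^ 2 / 2) - Real.exp (r ^ 2 / 2)) * (u ^ 2)⁻¹ := by
        rw [div_eq_mul_inv]; ring
      rw [h5]
      apply mul_nonneg (by linarith) (by positivity)
  have := hmono (left_mem_Icc.2 hr1) (right_mem_Icc.2 hr1) hr1
  have h1 : GG 1 = 0 := by simp [GG]
  simp only [h1] at this
  norm_num at this
  have e : 1 / r = r⁻¹ := one_div r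
  rw [e]
  linarith

theorem exp_eight : (2000 : ℝ) ≤ Real.exp 8 := by
  have h2 : (2.7 : ℝ) < Real.exp 1 := by
    have := Real.exp_one_gt_d9; linarith
  have h3 : Real.exp 8 = Real.exp 1 ^ 8 := by
    rw [← Real.exp_nat_mul]; norm_num
  rw [h3]
  calc (2000 : ℝ) ≤ 2.7 ^ 8 := by norm_num
    _ ≤ _ := pow_le_pow_left₀ (by norm_num) h2.le 8

theorem GG_five : (20 : ℝ) ≤ GG 5 := by
  have h1 : GG 5 = GG 4 + ∫ u in (4:ℝ)..5, Real.exp (u ^ 2 / 2) / u ^ 2 := by
    unfold GG
    rw [intervalIntegral.integral_add_adjacent_intervals]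
    · exact intervalIntegrable_ff (by norm_num) (by norm_num)
    · exact intervalIntegrable_ff (by norm_num) (by norm_num)
  have h2 : 0 ≤ GG 4 := by
    have h := GG_strictMono.monotoneOn (show (1:ℝ) ∈ Ioi 0 by show (0:ℝ) < 1; norm_num)
      (show (4:ℝ) ∈ Ioi 0 by show (0:ℝ) < 4; norm_num) (by norm_num)
    have h1 : GG 1 = 0 := by simp [GG]
    linarith
  have h3 : (20:ℝ) * (5 - 4) ≤ ∫ u in (4:ℝ)..5, Real.exp (u ^ 2 / 2) / u ^ 2 := by
    have h4 : ∫ _u in (4:ℝ)..5, (20:ℝ) = 20 * (5 - 4) := by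
      simp; norm_num
    rw [← h4]
    apply intervalIntegral.integral_mono_on (by norm_num)
    · simp
    · exact intervalIntegrable_ff (by norm_num) (by norm_num)
    · intro u hu
      have hu1 := hu.1
      have hu2 := hu.2
      have h5 : Real.exp 8 ≤ Real.exp (u ^ 2 / 2) := by
        apply Real.exp_le_exp.2; nlinarith
      have h6 : u ^ 2 ≤ 25 := by nlinarith
      rw [le_div_iff₀ (by positivity)]
      have := exp_eight
      nlinarith
  linarith

/-- `h r = gg r (K - G r)` is strictly monotone on `(0, 0.93]` -/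
theorem hh_mono {K : ℝ} (hK : 20 ≤ K) {r r' : ℝ} (hr : 0 < r) (hrr : r < r')
    (hr' : r' ≤ 93 / 100) : gg r * (K - GG r) < gg r' * (K - GG r') := by
  have hd : ∀ u ∈ Icc r r', HasDerivAt (fun u => gg u * (K - GG u))
      ((1 - u ^ 2) * Real.exp (-(u ^ 2) / 2) * (K - GG u) +
        gg u * (-(Real.exp (u ^ 2 / 2) / u ^ 2))) u := by
    intro u hu
    have hu0 : 0 < u := hr.trans_le hu.1
    exact (hasDerivAt_gg u).mul ((hasDerivAt_GG hu0).const_sub K)
  have hmono : StrictMonoOn (fun u => gg u * (K - GG u)) (Icc r r') := by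
    apply strictMonoOn_of_deriv_pos (convex_Icc r r')
    · intro u hu; exact (hd u hu).continuousAt.continuousWithinAt
    · intro u hu
      rw [interior_Icc] at hu
      have hu' := Ioo_subset_Icc_self hu
      rw [(hd u hu').deriv]
      have hu0 : 0 < u := hr.trans_le hu'.1
      have hu1 : u ≤ 93 / 100 := hu'.2.trans hr'
      have h1 := GG_le hu0 (by linarith)
      have h2 : gg u * (-(Real.exp (u ^ 2 / 2) / u ^ 2)) = - (1 / u) := by
        unfold gg
        have h3 : Real.exp (-(u ^ 2) / 2) = (Real.exp (u ^ 2 / 2))⁻¹ := by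
          rw [← Real.exp_neg]; congr 1; ring
        rw [h3]
        have h4 := Real.exp_pos (u ^ 2 / 2)
        field_simp
      rw [h2]
      have h5 : 0 ≤ (1 - u ^ 2) * Real.exp (-(u ^ 2) / 2) := by
        apply mul_nonneg (by nlinarith) (Real.exp_pos _).le
      have h6 : (1 - u ^ 2) * Real.exp (-(u ^ 2) / 2) *
          (20 + Real.exp (u ^ 2 / 2) * (1 / u - 1)) ≤
          (1 - u ^ 2) * Real.exp (-(u ^ 2) / 2) * (K - GG u) := by
        apply mul_le_mul_of_nonneg_left _ h5
        linarith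
      have h7 : (1 - u ^ 2) * Real.exp (-(u ^ 2) / 2) *
          (20 + Real.exp (u ^ 2 / 2) * (1 / u - 1)) =
          20 * ((1 - u ^ 2) * Real.exp (-(u ^ 2) / 2)) + (1 - u ^ 2) * (1 / u - 1) := by
        have h3 : Real.exp (-(u ^ 2) / 2) = (Real.exp (u ^ 2 / 2))⁻¹ := by
          rw [← Real.exp_neg]; congr 1; ring
        rw [h3]
        have h4 := Real.exp_pos (u ^ 2 / 2)
        field_simp
      have h8 : (1 - u ^ 2) * (1 / u - 1) - 1 / u = -1 - u + u ^ 2 := by
        field_simp; ring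
      have h9 : 1 - u ^ 2 / 2 ≤ Real.exp (-(u ^ 2) / 2) := by
        have := Real.add_one_le_exp (-(u ^ 2) / 2)
        linarith
      have h10 : (1 - u ^ 2) * (1 - u ^ 2 / 2) ≤ (1 - u ^ 2) * Real.exp (-(u ^ 2) / 2) := by
        apply mul_le_mul_of_nonneg_left h9 (by nlinarith)
      have h11 : 0 < 20 * ((1 - u ^ 2) * (1 - u ^ 2 / 2)) + (-1 - u + u ^ 2) := by
        nlinarith [mul_nonneg hu0.le (sub_nonneg.2 hu1), sq_nonneg (u ^ 2),
          mul_nonneg (mul_nonneg hu0.le hu0.le) (sub_nonneg.2 hu1)]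
      linarith
  exact hmono (left_mem_Icc.2 hrr.le) (right_mem_Icc.2 hrr.le) hrr

/-- For an arc, `E * (G (b y) - G (b x)) = ∫ cos γ`. -/
theorem Arc.integral_cos {b γ : ℝ → ℝ} {x y : ℝ} (h : Arc b γ x y) (hxy : x ≤ y) {E : ℝ}
    (hE : ∀ u ∈ Icc x y, en b γ u = E) :
    ∫ u in x..y, Real.cos (γ u) = E * (GG (b y) - GG (b x)) := by
  have hE0 : 0 < E := by
    rw [← hE x (left_mem_Icc.2 hxy)]
    exact mul_pos (gg_pos (h.pos x (left_mem_Icc.2 hxy))) (h.sin_pos (left_mem_Icc.2 hxy))
  have h1 : ∫ u in x..y, Real.cos (γ u) = E * GG (b y) - E * GG (b x) := by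
    have := MeasureTheory.integral_eq_of_hasDerivAt_off_countable_of_le
      (fun u => E * GG (b u)) (fun u => Real.cos (γ u)) hxy (s := ∅) countable_empty
      (by
        apply ContinuousOn.mul continuousOn_const
        have hc : ContinuousOn GG (Ioi 0) := fun r hr =>
          (hasDerivAt_GG hr).continuousAt.continuousWithinAt
        exact hc.comp h.cb (fun u hu => h.pos u hu))
      (by
        intro u hu
        have hu' : u ∈ Icc x y := Ioo_subset_Icc_self hu.1
        have h2 := ((hasDerivAt_GG (h.pos u hu')).comp u (h.db u hu.1)).const_mul E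
        refine h2.congr_deriv ?_
        have h3 := hE u hu'
        have hs := h.sin_pos hu'
        have hb := h.pos u hu'
        rw [← h3]
        unfold en gg
        have h4 : Real.exp (-(b u ^ 2) / 2) = (Real.exp (b u ^ 2 / 2))⁻¹ := by
          rw [← Real.exp_neg]; congr 1; ring
        rw [h4]
        have h5 := Real.exp_pos (b u ^ 2 / 2)
        field_simp)
      (by
        apply ContinuousOn.intervalIntegrable
        rw [uIcc_of_le hxy]
        exact Real.continuous_cos.comp_continuousOn h.cγ)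
    exact this
  rw [h1]; ring

/-- EXIT lemma -/
theorem arc_exit {a α b β : ℝ → ℝ} {x y : ℝ} (hxy : x < y) (ha : Arc a α x y) (hb : Arc b β x y)
    (hab : ∀ u ∈ Icc x y, a u ≤ b u) (habx : a x < b x)
    (h1 : α x ≤ β x) (h2 : β x ≤ Real.pi / 2)
    (h3 : b x ≤ 93 / 100) : b y < 5 := by
  by_contra hcon
  push Not at hcon
  have hxm : x ∈ Icc x y := left_mem_Icc.2 hxy.le
  have hym : y ∈ Icc x y := right_mem_Icc.2 hxy.le
  -- α ≤ β on the interval
  have hmono : MonotoneOn (β - α) (Icc x y) := by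
    apply monotoneOn_of_deriv_nonneg (convex_Icc x y) (hb.cγ.sub ha.cγ)
    · intro u hu
      rw [interior_Icc] at hu
      exact ((hb.dγ u hu).sub (ha.dγ u hu)).differentiableAt.differentiableWithinAt
    · intro u hu
      rw [interior_Icc] at hu
      have := ((hb.dγ u hu).sub (ha.dγ u hu)).deriv
      have h4 : deriv (β - α) u = b u ^ 2 - 1 - (a u ^ 2 - 1) := this
      rw [h4]
      have h5 := hab u (Ioo_subset_Icc_self hu)
      have h6 := ha.pos u (Ioo_subset_Icc_self hu)
      nlinarith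
  have hle : ∀ u ∈ Icc x y, α u ≤ β u := by
    intro u hu
    have := hmono hxm hu hu.1
    simp only [Pi.sub_apply] at this
    linarith
  have hcos : ∫ u in x..y, Real.cos (β u) ≤ ∫ u in x..y, Real.cos (α u) := by
    apply intervalIntegral.integral_mono_on hxy.le
    · apply ContinuousOn.intervalIntegrable
      rw [uIcc_of_le hxy.le]
      exact Real.continuous_cos.comp_continuousOn hb.cγ
    · apply ContinuousOn.intervalIntegrable
      rw [uIcc_of_le hxy.le]
      exact Real.continuous_cos.comp_continuousOn ha.cγ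
    · intro u hu
      exact Real.cos_le_cos_of_nonneg_of_le_pi (ha.ang u hu).1.le (hb.ang u hu).2.le (hle u hu)
  rw [hb.integral_cos hxy.le (fun u hu => hb.en_eq hu hxm),
    ha.integral_cos hxy.le (fun u hu => ha.en_eq hu hxm)] at hcos
  have hax := ha.pos x hxm
  have hbx := hb.pos x hxm
  have hay := ha.pos y hym
  have hby := hb.pos y hym
  have hsa := ha.sin_pos hxm
  have hsb := hb.sin_pos hxm
  have hG1 : GG (a y) ≤ GG (b y) :=
    GG_strictMono.monotoneOn hay hby (hab y hym)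
  have hG2 : GG (a x) ≤ GG (b y) := by
    apply GG_strictMono.monotoneOn hax hby
    linarith
  have hss : Real.sin (α x) ≤ Real.sin (β x) := by
    apply Real.sin_le_sin_of_le_of_le_pi_div_two _ h2 h1
    have := (ha.ang x hxm).1
    have := Real.pi_pos
    linarith
  have hK : 20 ≤ GG (b y) := by
    have : GG 5 ≤ GG (b y) := GG_strictMono.monotoneOn (show (0:ℝ) < 5 by norm_num) hby hcon
    linarith [GG_five]
  have hGstrict : GG (a x) < GG (b y) := by
    apply GG_strictMono hax hby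
    linarith
  have e1 : en a α x * (GG (a y) - GG (a x)) ≤
      gg (a x) * Real.sin (β x) * (GG (b y) - GG (a x)) := by
    calc en a α x * (GG (a y) - GG (a x)) ≤ en a α x * (GG (b y) - GG (a x)) := by
          apply mul_le_mul_of_nonneg_left (by linarith)
          exact (mul_pos (gg_pos hax) hsa).le
      _ ≤ gg (a x) * Real.sin (β x) * (GG (b y) - GG (a x)) := by
          apply mul_le_mul_of_nonneg_right _ (by linarith)
          exact mul_le_mul_of_nonneg_left hss (gg_pos hax).le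
  have e2 : en b β x * (GG (b y) - GG (b x)) =
      Real.sin (β x) * (gg (b x) * (GG (b y) - GG (b x))) := by
    unfold en; ring
  have e3 : gg (a x) * Real.sin (β x) * (GG (b y) - GG (a x)) =
      Real.sin (β x) * (gg (a x) * (GG (b y) - GG (a x))) := by ring
  have e4 : Real.sin (β x) * (gg (b x) * (GG (b y) - GG (b x))) ≤
      Real.sin (β x) * (gg (a x) * (GG (b y) - GG (a x))) := by linarith
  have e5 : gg (b x) * (GG (b y) - GG (b x)) ≤ gg (a x) * (GG (b y) - GG (a x)) :=
    le_of_mul_le_mul_left e4 hsb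
  have e6 := hh_mono hK hax habx h3
  linarith

end

end Pool.Agent.MP_4c0f47_an
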