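import Pool.Agent.Lib.MP_4c0f47_an.CellArc

set_option autoImplicit false

open Set Filter Topology

namespace Pool.Agent.MP_4c0f47_an

noncomputable section

/-! ### counting corners near a point -/

theorem ev_filter_lt_left (C : Finset ℝ) (x : ℝ) :
    ∀ᶠ y in 𝓝[<] x, (C.filter (· < y)) = (C.filter (· < x)) := by
  have h : ∀ᶠ y in 𝓝[<] x, ∀ c ∈ C, (c < y ↔ c < x) := by
    rw [Filter.eventually_all_finset]
    intro c _
    rcases lt_or_ge c x with h | h
    · filter_upwards [mem_nhdsWithin_of_mem_nhds (Ioi_mem_nhds h)] with y hy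
      exact ⟨fun _ => h, fun _ => hy⟩
    · filter_upwards [self_mem_nhdsWithin] with y hy
      have hy' : y < x := hy
      exact ⟨fun h2 => by linarith, fun h2 => by linarith⟩
  filter_upwards [h] with y hy
  exact Finset.filter_congr hy

theorem ev_filter_lt_right (C : Finset ℝ) (x : ℝ) :
    ∀ᶠ y in 𝓝[>] x, (C.filter (· < y)) = (C.filter (· ≤ x)) := by
  have h : ∀ᶠ y in 𝓝[>] x, ∀ c ∈ C, (c < y ↔ c ≤ x) := by
    rw [Filter.eventually_all_finset]
    intro c _
    rcases lt_or_ge x c with h | h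
    · filter_upwards [mem_nhdsWithin_of_mem_nhds (Iio_mem_nhds h)] with y hy
      have hy' : y < c := hy
      exact ⟨fun h2 => by linarith, fun h2 => by linarith⟩
    · filter_upwards [self_mem_nhdsWithin] with y hy
      have hy' : x < y := hy
      exact ⟨fun _ => h, fun _ => by linarith⟩
  filter_upwards [h] with y hy
  exact Finset.filter_congr hy

theorem ev_filter_lt_self {C : Finset ℝ} {x : ℝ} (hx : x ∉ C) :
    ∀ᶠ y in 𝓝 x, (C.filter (· < y)) = (C.filter (· < x)) := by
  have h : ∀ᶠ y in 𝓝 x, ∀ c ∈ C, (c < y ↔ c < x) := by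
    rw [Filter.eventually_all_finset]
    intro c hc
    have hne : c ≠ x := fun h => hx (h ▸ hc)
    rcases lt_or_gt_of_ne hne with h | h
    · filter_upwards [Ioi_mem_nhds h] with y hy
      exact ⟨fun _ => h, fun _ => hy⟩
    · filter_upwards [Iio_mem_nhds h] with y hy
      have hy' : y < c := hy
      exact ⟨fun h2 => by linarith, fun h2 => by linarith⟩
  filter_upwards [h] with y hy
  exact Finset.filter_congr hy

theorem ev_notMem {C : Finset ℝ} {x : ℝ} (hx : x ∉ C) : ∀ᶠ y in 𝓝 x, y ∉ C := by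
  have : IsClosed (C : Set ℝ) := C.finite_toSet.isClosed
  exact this.isOpen_compl.mem_nhds hx

theorem ev_notMem' (C : Finset ℝ) (x : ℝ) : ∀ᶠ y in 𝓝[≠] x, y ∉ C := by
  have h : x ∉ C.erase x := by simp
  have := ev_notMem h
  filter_upwards [mem_nhdsWithin_of_mem_nhds this, self_mem_nhdsWithin] with y hy hne hyC
  exact hy (Finset.mem_erase.2 ⟨hne, hyC⟩)

theorem ev_notMem_left (C : Finset ℝ) (x : ℝ) : ∀ᶠ y in 𝓝[<] x, y ∉ C :=
  (ev_notMem' C x).filter_mono (nhdsWithin_mono x (fun _ hy => ne_of_lt hy))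

theorem ev_notMem_right (C : Finset ℝ) (x : ℝ) : ∀ᶠ y in 𝓝[>] x, y ∉ C :=
  (ev_notMem' C x).filter_mono (nhdsWithin_mono x (fun _ hy => ne_of_gt hy))

/-- total turning minus the corners -/
def reg (b β : ℝ → ℝ) (s x : ℝ) : ℝ := β s + ∫ u in s..x, (b u ^ 2 - 1)

/-- left limit of the angle at `x` -/
def lft (σ : ℝ) (b β : ℝ → ℝ) (C : Finset ℝ) (s x : ℝ) : ℝ :=
  reg b β s x + σ * (Real.pi / 3) * ((C.filter (· < x)).card : ℝ)

/-- right limit of the angle at `x` -/
def rgt (σ : ℝ) (b β : ℝ → ℝ) (C : Finset ℝ) (s x : ℝ) : ℝ :=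
  reg b β s x + σ * (Real.pi / 3) * ((C.filter (· ≤ x)).card : ℝ)

/-- continuation of the angle from `x` on -/
def ext (σ : ℝ) (b β : ℝ → ℝ) (C : Finset ℝ) (s x u : ℝ) : ℝ :=
  reg b β s u + σ * (Real.pi / 3) * ((C.filter (· ≤ x)).card : ℝ)

theorem filter_le_eq_lt {C : Finset ℝ} {x : ℝ} (hx : x ∉ C) :
    (C.filter (· ≤ x)) = (C.filter (· < x)) := by
  apply Finset.filter_congr
  intro c hc
  have hne : c ≠ x := fun h => hx (h ▸ hc)
  exact ⟨fun h => lt_of_le_of_ne h hne, le_of_lt⟩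

theorem card_filter_le {C : Finset ℝ} {x : ℝ} (hx : x ∈ C) :
    ((C.filter (· ≤ x)).card : ℝ) = ((C.filter (· < x)).card : ℝ) + 1 := by
  have h : C.filter (· ≤ x) = insert x (C.filter (· < x)) := by
    ext c
    simp only [Finset.mem_filter, Finset.mem_insert]
    constructor
    · rintro ⟨h1, h2⟩
      rcases eq_or_lt_of_le h2 with h | h
      · exact Or.inl h
      · exact Or.inr ⟨h1, h⟩
    · rintro (h | ⟨h1, h2⟩)
      · exact ⟨h ▸ hx, h.le⟩
      · exact ⟨h1, h2.le⟩
  rw [h, Finset.card_insert_of_notMem (by simp)]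
  push_cast; ring

theorem card_between (C : Finset ℝ) {x y : ℝ} (hxy : x < y) :
    ((C.filter (· < y)).card : ℝ) =
      ((C.filter (· ≤ x)).card : ℝ) + ((C.filter (fun c => x < c ∧ c < y)).card : ℝ) := by
  have h : C.filter (· < y) = (C.filter (· ≤ x)) ∪ (C.filter (fun c => x < c ∧ c < y)) := by
    ext c
    simp only [Finset.mem_filter, Finset.mem_union]
    constructor
    · rintro ⟨h1, h2⟩
      rcases le_or_gt c x with h | h
      · exact Or.inl ⟨h1, h⟩
      · exact Or.inr ⟨h1, h, h2⟩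
    · rintro (⟨h1, h2⟩ | ⟨h1, h2, h3⟩)
      · exact ⟨h1, by linarith⟩
      · exact ⟨h1, h3⟩
  rw [h, Finset.card_union_of_disjoint]
  · push_cast; ring
  · rw [Finset.disjoint_left]
    intro c h1 h2
    simp only [Finset.mem_filter] at h1 h2
    linarith [h1.2, h2.2.1]

theorem lft_sub_rgt {σ : ℝ} {b β : ℝ → ℝ} {C : Finset ℝ} {s t x y : ℝ}
    (hb : ContinuousOn b (Icc s t)) (hx : s ≤ x) (hxy : x < y) (hy : y ≤ t) :
    lft σ b β C s y - rgt σ b β C s x = (∫ u in x..y, (b u ^ 2 - 1)) +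
      σ * (Real.pi / 3) * ((C.filter (fun c => x < c ∧ c < y)).card : ℝ) := by
  have hI : ∀ p q : ℝ, s ≤ p → p ≤ t → s ≤ q → q ≤ t →
      IntervalIntegrable (fun u => b u ^ 2 - 1) MeasureTheory.volume p q := by
    intro p q h1 h2 h3 h4
    apply ContinuousOn.intervalIntegrable
    apply ContinuousOn.sub _ continuousOn_const
    apply ContinuousOn.pow
    apply hb.mono
    intro u hu
    rcases le_total p q with h | h
    · rw [uIcc_of_le h] at hu; exact ⟨h1.trans hu.1, hu.2.trans h4⟩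
    · rw [uIcc_of_ge h] at hu; exact ⟨h3.trans hu.1, hu.2.trans h2⟩
  unfold lft rgt reg
  rw [card_between C hxy]
  have h1 := intervalIntegral.integral_add_adjacent_intervals
    (hI s x le_rfl (by linarith) hx (by linarith)) (hI x y hx (by linarith) (by linarith) hy)
  rw [← h1]; ring

/-! ### chains -/

namespace Chain

variable {σ : ℝ} {b β : ℝ → ℝ} {C : Finset ℝ} {s t : ℝ}

theorem intg (h : Chain σ b β C s t) {p q : ℝ} (h1 : p ∈ Icc s t) (h2 : q ∈ Icc s t) :
    IntervalIntegrable (fun u => b u ^ 2 - 1) MeasureTheory.volume p q := by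
  apply ContinuousOn.intervalIntegrable
  apply ContinuousOn.sub _ continuousOn_const
  apply ContinuousOn.pow
  apply h.cont.mono
  exact uIcc_subset_Icc h1 h2

theorem reg_cont (h : Chain σ b β C s t) : ContinuousOn (reg b β s) (Icc s t) := by
  unfold reg
  apply ContinuousOn.add continuousOn_const
  have := intervalIntegral.continuousOn_primitive_interval'
    (h.intg (left_mem_Icc.2 h.lt.le) (right_mem_Icc.2 h.lt.le)) (left_mem_uIcc (a := s) (b := t))
  rwa [uIcc_of_le h.lt.le] at this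

theorem reg_deriv (h : Chain σ b β C s t) {x : ℝ} (hx : x ∈ Ioo s t) :
    HasDerivAt (reg b β s) (b x ^ 2 - 1) x := by
  unfold reg
  have hc : ContinuousOn (fun u => b u ^ 2 - 1) (Icc s t) :=
    (h.cont.pow 2).sub continuousOn_const
  have hnh : Icc s t ∈ 𝓝 x := Icc_mem_nhds hx.1 hx.2
  have h1 := intervalIntegral.integral_hasDerivAt_right
    (h.intg (left_mem_Icc.2 h.lt.le) (Ioo_subset_Icc_self hx))
    ((hc.mono Ioo_subset_Icc_self).stronglyMeasurableAtFilter isOpen_Ioo x hx)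
    (hc.continuousAt hnh)
  exact h1.const_add (β s)

theorem eq_lft (h : Chain σ b β C s t) {x : ℝ} (hx : x ∈ Icc s t) (hxC : x ∉ C) :
    β x = lft σ b β C s x := by
  classical
  choose! l hl using h.jump
  let f : ℝ → ℝ := fun x => (if x ∈ C then l x else β x) -
    σ * (Real.pi / 3) * ((C.filter (· < x)).card : ℝ)
  have hf1 : ∀ y, y ∉ C → f y = β y - σ * (Real.pi / 3) * ((C.filter (· < y)).card : ℝ) := by
    intro y hy
    simp only [f, if_neg hy]
  have hf2 : ∀ y, y ∈ C → f y = l y - σ * (Real.pi / 3) * ((C.filter (· < y)).card : ℝ) := by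
    intro y hy
    simp only [f, if_pos hy]
  have hcont : ContinuousOn f (Icc s t) := by
    intro y hy
    by_cases hyC : y ∈ C
    · apply ContinuousAt.continuousWithinAt
      rw [continuousAt_iff_continuous_left'_right']
      obtain ⟨hl1, hl2, hl3, hl4⟩ := hl y hyC
      constructor
      · have h1 : Tendsto (fun z => β z - σ * (Real.pi / 3) * ((C.filter (· < y)).card : ℝ))
            (𝓝[<] y) (𝓝 (f y)) := by
          rw [hf2 y hyC]
          exact hl3.sub_const _
        apply h1.congr'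
        filter_upwards [ev_filter_lt_left C y, ev_notMem_left C y] with z hz1 hz2
        rw [hf1 z hz2, hz1]
      · have h1 : Tendsto (fun z => β z - σ * (Real.pi / 3) * ((C.filter (· ≤ y)).card : ℝ))
            (𝓝[>] y) (𝓝 (f y)) := by
          rw [hf2 y hyC]
          have h2 := hl4.sub_const (σ * (Real.pi / 3) * ((C.filter (· ≤ y)).card : ℝ))
          convert h2 using 2
          rw [card_filter_le hyC]; ring
        apply h1.congr'
        filter_upwards [ev_filter_lt_right C y, ev_notMem_right C y] with z hz1 hz2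
        rw [hf1 z hz2, hz1]
    · have h1 : ContinuousWithinAt
          (fun z => β z - σ * (Real.pi / 3) * ((C.filter (· < y)).card : ℝ)) (Icc s t) y :=
        (h.contβ y hy hyC).sub continuousWithinAt_const
      apply h1.congr_of_eventuallyEq
      · filter_upwards [mem_nhdsWithin_of_mem_nhds (ev_filter_lt_self hyC),
          mem_nhdsWithin_of_mem_nhds (ev_notMem hyC)] with z hz1 hz2
        rw [hf1 z hz2]
        have : (C.filter (· < z)) = (C.filter (· < y)) := hz1
        rw [this]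
      · exact hf1 y hyC
  have hderiv : ∀ y ∈ Ioo s x \ (C : Set ℝ), HasDerivAt f (b y ^ 2 - 1) y := by
    intro y hy
    have hyC : y ∉ C := hy.2
    have h1 := (h.dβ y ⟨hy.1.1, hy.1.2.trans_le hx.2⟩ hyC).sub_const
      (σ * (Real.pi / 3) * ((C.filter (· < y)).card : ℝ))
    apply h1.congr_of_eventuallyEq
    filter_upwards [ev_filter_lt_self hyC, ev_notMem hyC] with z hz1 hz2
    rw [hf1 z hz2, hz1]
  have key := MeasureTheory.integral_eq_of_hasDerivAt_off_countable_of_le f
    (fun y => b y ^ 2 - 1) hx.1 (s := (C : Set ℝ)) C.countable_toSet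
    (hcont.mono (Icc_subset_Icc le_rfl hx.2)) hderiv
    (h.intg (left_mem_Icc.2 h.lt.le) hx)
  have hsC : s ∉ C := fun hs => lt_irrefl s (h.corners s hs).1
  have h0 : (C.filter (· < s)) = ∅ := by
    rw [Finset.filter_eq_empty_iff]
    intro c hc
    have := (h.corners c hc).1
    linarith
  rw [hf1 x hxC, hf1 s hsC, h0] at key
  unfold lft reg
  simp at key
  rw [show (∫ u in s..x, (b u ^ 2 - 1)) = _ from key]
  ring

theorem s_notMem (h : Chain σ b β C s t) : s ∉ C := fun hs => lt_irrefl s (h.corners s hs).1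

theorem t_notMem (h : Chain σ b β C s t) : t ∉ C := fun hs => lt_irrefl t (h.corners t hs).2

theorem eq_rgt (h : Chain σ b β C s t) {x : ℝ} (hx : x ∈ Icc s t) (hxC : x ∉ C) :
    β x = rgt σ b β C s x := by
  rw [h.eq_lft hx hxC]; unfold lft rgt; rw [filter_le_eq_lt hxC]

theorem rgt_eq (_h : Chain σ b β C s t) {x : ℝ} (hxC : x ∈ C) :
    rgt σ b β C s x = lft σ b β C s x + σ * (Real.pi / 3) := by
  unfold lft rgt; rw [card_filter_le hxC]; ring

theorem tend_left (h : Chain σ b β C s t) {x : ℝ} (hx : x ∈ Ioc s t) :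
    Tendsto β (𝓝[<] x) (𝓝 (lft σ b β C s x)) := by
  have hx' : x ∈ Icc s t := Ioc_subset_Icc_self hx
  have h1 : Tendsto (reg b β s) (𝓝[<] x) (𝓝 (reg b β s x)) := by
    have h2 : ContinuousWithinAt (reg b β s) (Icc s t) x := h.reg_cont x hx'
    have h3 : 𝓝[<] x ≤ 𝓝[Icc s t] x := by
      have : 𝓝[<] x = 𝓝[Ico s x] x := (nhdsWithin_Ico_eq_nhdsLT hx.1).symm
      rw [this]
      apply nhdsWithin_mono
      intro y hy
      exact ⟨hy.1, hy.2.le.trans hx.2⟩
    exact h2.mono_left h3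
  have h4 : Tendsto (fun y => reg b β s y + σ * (Real.pi / 3) * ((C.filter (· < x)).card : ℝ))
      (𝓝[<] x) (𝓝 (lft σ b β C s x)) := h1.add_const _
  apply h4.congr'
  have h5 : ∀ᶠ y in 𝓝[<] x, y ∈ Ico s x := by
    rw [← nhdsWithin_Ico_eq_nhdsLT hx.1]; exact self_mem_nhdsWithin
  filter_upwards [ev_filter_lt_left C x, ev_notMem_left C x, h5] with y hy1 hy2 hy3
  rw [h.eq_lft ⟨hy3.1, hy3.2.le.trans hx.2⟩ hy2]
  unfold lft
  rw [hy1]

theorem tend_right (h : Chain σ b β C s t) {x : ℝ} (hx : x ∈ Ico s t) :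
    Tendsto β (𝓝[>] x) (𝓝 (rgt σ b β C s x)) := by
  have hx' : x ∈ Icc s t := Ico_subset_Icc_self hx
  have h1 : Tendsto (reg b β s) (𝓝[>] x) (𝓝 (reg b β s x)) := by
    have h2 : ContinuousWithinAt (reg b β s) (Icc s t) x := h.reg_cont x hx'
    have h3 : 𝓝[>] x ≤ 𝓝[Icc s t] x := by
      have : 𝓝[>] x = 𝓝[Ioc x t] x := (nhdsWithin_Ioc_eq_nhdsGT hx.2).symm
      rw [this]
      apply nhdsWithin_mono
      intro y hy
      exact ⟨hx.1.trans hy.1.le, hy.2⟩
    exact h2.mono_left h3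
  have h4 : Tendsto (fun y => reg b β s y + σ * (Real.pi / 3) * ((C.filter (· ≤ x)).card : ℝ))
      (𝓝[>] x) (𝓝 (rgt σ b β C s x)) := h1.add_const _
  apply h4.congr'
  have h5 : ∀ᶠ y in 𝓝[>] x, y ∈ Ioc x t := by
    rw [← nhdsWithin_Ioc_eq_nhdsGT hx.2]; exact self_mem_nhdsWithin
  filter_upwards [ev_filter_lt_right C x, ev_notMem_right C x, h5] with y hy1 hy2 hy3
  rw [h.eq_lft ⟨hx.1.trans hy3.1.le, hy3.2⟩ hy2]
  unfold lft
  rw [hy1]

theorem lft_mem (h : Chain σ b β C s t) {x : ℝ} (hx : x ∈ Icc s t) :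
    lft σ b β C s x ∈ Ioo 0 Real.pi := by
  by_cases hxC : x ∈ C
  · obtain ⟨l, hl1, hl2, hl3, hl4⟩ := h.jump x hxC
    have h1 := h.tend_left ⟨(h.corners x hxC).1, hx.2⟩
    have := tendsto_nhds_unique h1 hl3
    rw [this]; exact hl1
  · rw [← h.eq_lft hx hxC]; exact h.ang x hx hxC

theorem rgt_mem (h : Chain σ b β C s t) {x : ℝ} (hx : x ∈ Icc s t) :
    rgt σ b β C s x ∈ Ioo 0 Real.pi := by
  by_cases hxC : x ∈ C
  · obtain ⟨l, hl1, hl2, hl3, hl4⟩ := h.jump x hxC
    have h1 := h.tend_right ⟨hx.1, (h.corners x hxC).2⟩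
    have := tendsto_nhds_unique h1 hl4
    rw [this]; exact hl2
  · rw [← h.eq_rgt hx hxC]; exact h.ang x hx hxC

theorem ext_self (x : ℝ) : ext σ b β C s x x = rgt σ b β C s x := rfl

theorem ext_right {x y : ℝ} (hxy : x < y) (hC : ∀ c ∈ C, c ∉ Ioo x y) :
    ext σ b β C s x y = lft σ b β C s y := by
  unfold ext lft
  rw [card_between C hxy]
  have : C.filter (fun c => x < c ∧ c < y) = ∅ := by
    rw [Finset.filter_eq_empty_iff]
    intro c hc h2; exact hC c hc h2
  rw [this]; simp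

theorem ext_eq (h : Chain σ b β C s t) {x y u : ℝ} (hx : s ≤ x) (hy : y ≤ t)
    (hC : ∀ c ∈ C, c ∉ Ioo x y) (hu : u ∈ Ioo x y) : ext σ b β C s x u = β u := by
  rw [ext_right hu.1 (fun c hc h2 => hC c hc ⟨h2.1, h2.2.trans hu.2⟩),
    h.eq_lft ⟨hx.trans hu.1.le, hu.2.le.trans hy⟩ (fun hc => hC u hc hu)]

theorem arc (h : Chain σ b β C s t) {x y : ℝ} (hx : s ≤ x) (hxy : x < y) (hy : y ≤ t)
    (hC : ∀ c ∈ C, c ∉ Ioo x y) : Arc b (ext σ b β C s x) x y where
  cb := h.cont.mono (Icc_subset_Icc hx hy)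
  cγ := by
    unfold ext
    exact (h.reg_cont.mono (Icc_subset_Icc hx hy)).add continuousOn_const
  pos := fun u hu => h.pos u ⟨hx.trans hu.1, hu.2.trans hy⟩
  ang := by
    intro u hu
    rcases eq_or_lt_of_le hu.1 with h1 | h1
    · rw [← h1, ext_self]; exact h.rgt_mem ⟨hx, hxy.le.trans hy⟩
    · rcases eq_or_lt_of_le hu.2 with h2 | h2
      · rw [h2, ext_right hxy hC]; exact h.lft_mem ⟨hx.trans hxy.le, hy⟩
      · rw [h.ext_eq hx hy hC ⟨h1, h2⟩]
        exact h.ang u ⟨hx.trans hu.1, hu.2.trans hy⟩ (fun hc => hC u hc ⟨h1, h2⟩)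
  db := by
    intro u hu
    rw [h.ext_eq hx hy hC hu]
    exact h.db u ⟨hx.trans_lt hu.1, hu.2.trans_le hy⟩ (fun hc => hC u hc hu)
  dγ := by
    intro u hu
    unfold ext
    exact (h.reg_deriv ⟨hx.trans_lt hu.1, hu.2.trans_le hy⟩).add_const _

/-- reflection `θ ↦ -θ` -/
theorem mirror (h : Chain σ b β C s t) :
    Chain σ (fun x => b (-x)) (fun x => Real.pi - β (-x)) (C.image (fun x => -x)) (-t) (-s) := by
  have hmem : ∀ x : ℝ, x ∈ C.image (fun x => -x) ↔ -x ∈ C := by
    intro x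
    simp only [Finset.mem_image]
    constructor
    · rintro ⟨a, ha, rfl⟩; simpa using ha
    · intro hx; exact ⟨-x, hx, by simp⟩
  refine ⟨by linarith [h.lt], ?_, ?_, ?_, ?_, ?_, ?_, ?_, ?_⟩
  · intro c hc
    rw [hmem] at hc
    have := h.corners _ hc
    exact ⟨by linarith [this.2], by linarith [this.1]⟩
  · apply h.cont.comp (by fun_prop)
    intro x hx
    exact ⟨by linarith [hx.2], by linarith [hx.1]⟩
  · intro x hx
    exact h.pos (-x) ⟨by linarith [hx.2], by linarith [hx.1]⟩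
  · intro x hx hxC
    rw [hmem] at hxC
    apply ContinuousWithinAt.sub continuousWithinAt_const
    have h1 := h.contβ (-x) ⟨by linarith [hx.2], by linarith [hx.1]⟩ hxC
    apply ContinuousWithinAt.comp (t := Icc s t) h1
    · exact continuous_neg.continuousWithinAt
    · intro y hy
      exact ⟨by linarith [hy.2], by linarith [hy.1]⟩
  · intro x hx hxC
    rw [hmem] at hxC
    have := h.ang (-x) ⟨by linarith [hx.2], by linarith [hx.1]⟩ hxC
    exact ⟨by linarith [this.2], by linarith [this.1]⟩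
  · intro x hx hxC
    rw [hmem] at hxC
    have h1 := h.db (-x) ⟨by linarith [hx.2], by linarith [hx.1]⟩ hxC
    have h2 := h1.comp x (hasDerivAt_neg x)
    refine h2.congr_deriv ?_
    rw [Real.cos_pi_sub, Real.sin_pi_sub]; ring
  · intro x hx hxC
    rw [hmem] at hxC
    have h1 := h.dβ (-x) ⟨by linarith [hx.2], by linarith [hx.1]⟩ hxC
    have h2 := (h1.comp x (hasDerivAt_neg x)).const_sub Real.pi
    refine h2.congr_deriv ?_
    ring
  · intro c hc
    rw [hmem] at hc
    obtain ⟨l, hl1, hl2, hl3, hl4⟩ := h.jump _ hc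
    refine ⟨Real.pi - (l + σ * (Real.pi / 3)), ⟨by linarith [hl2.2], by linarith [hl2.1]⟩,
      ⟨by linarith [hl1.2], by linarith [hl1.1]⟩, ?_, ?_⟩
    · apply Tendsto.const_sub
      apply hl4.comp
      rw [tendsto_nhdsWithin_iff]
      constructor
      · exact (continuous_neg.tendsto c).mono_left nhdsWithin_le_nhds
      · filter_upwards [self_mem_nhdsWithin] with y hy
        have : y < c := hy
        show -c < -y
        linarith
    · have h3 : Real.pi - (l + σ * (Real.pi / 3)) + σ * (Real.pi / 3) = Real.pi - l := by ring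
      rw [h3]
      apply Tendsto.const_sub
      apply hl3.comp
      rw [tendsto_nhdsWithin_iff]
      constructor
      · exact (continuous_neg.tendsto c).mono_left nhdsWithin_le_nhds
      · filter_upwards [self_mem_nhdsWithin] with y hy
        have : c < y := hy
        show -y < -c
        linarith

end Chain

end

end Pool.Agent.MP_4c0f47_an
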