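import Mathlib

set_option autoImplicit false

open Set Filter Topology

namespace Pool.Agent.MP_4c0f47_an

noncomputable section

/-- `r e^{-r²/2}` -/
def gg (r : ℝ) : ℝ := r * Real.exp (-(r ^ 2) / 2)

/-- energy of a polar graph: constant between corners -/
def en (b β : ℝ → ℝ) (x : ℝ) : ℝ := gg (b x) * Real.sin (β x)

/-- A chain of geodesic arcs written as a polar graph `r = b θ` over `[s,t]`; `β` is the angle
between the tangent vector (in the direction of increasing `θ`) and the outward radial direction.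
At the corners `C` the angle `β` jumps by `σ * π/3` (`σ = 1`: outer chain, `σ = -1`: inner chain);
the values of `β` at the corners are irrelevant. -/
structure Chain (σ : ℝ) (b β : ℝ → ℝ) (C : Finset ℝ) (s t : ℝ) : Prop where
  lt : s < t
  corners : ∀ c ∈ C, c ∈ Ioo s t
  cont : ContinuousOn b (Icc s t)
  pos : ∀ x ∈ Icc s t, 0 < b x
  contβ : ∀ x ∈ Icc s t, x ∉ C → ContinuousWithinAt β (Icc s t) x
  ang : ∀ x ∈ Icc s t, x ∉ C → β x ∈ Ioo 0 Real.pi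
  db : ∀ x ∈ Ioo s t, x ∉ C → HasDerivAt b (b x * (Real.cos (β x) / Real.sin (β x))) x
  dβ : ∀ x ∈ Ioo s t, x ∉ C → HasDerivAt β (b x ^ 2 - 1) x
  jump : ∀ c ∈ C, ∃ l ∈ Ioo 0 Real.pi, l + σ * (Real.pi / 3) ∈ Ioo 0 Real.pi ∧
    Tendsto β (𝓝[<] c) (𝓝 l) ∧ Tendsto β (𝓝[>] c) (𝓝 (l + σ * (Real.pi / 3)))

/-- A cell: the region `a θ < r < b θ`, `s < θ < t`, between an inner chain `(a, α)` and an outer
chain `(b, β)`. `i = 1`: the chains start at a common vertex; `i = 2`: they are joined by a radial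
segment at `θ = s`. Same for `j` at `θ = t`. The number of edges of the cell is
`i + j + Ca.card + Cb.card`. -/
structure Cell (a α b β : ℝ → ℝ) (Ca Cb : Finset ℝ) (s t : ℝ) (i j : ℕ) : Prop where
  outer : Chain 1 b β Cb s t
  inner : Chain (-1) a α Ca s t
  lt : ∀ x ∈ Ioo s t, a x < b x
  left : (i = 1 ∧ a s = b s ∧ α s = β s + 2 * Real.pi / 3) ∨
    (i = 2 ∧ a s < b s ∧ β s = Real.pi / 3 ∧ α s = 2 * Real.pi / 3)
  right : (j = 1 ∧ a t = b t ∧ β t = α t + 2 * Real.pi / 3) ∨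
    (j = 2 ∧ a t < b t ∧ β t = 2 * Real.pi / 3 ∧ α t = Real.pi / 3)

/-- no vertex radius in `[ρ, ρ']`, no energy in `[gg ρ', gg ρ]` -/
structure Gap (a α b β : ℝ → ℝ) (Ca Cb : Finset ℝ) (s t ρ ρ' : ℝ) : Prop where
  corner_b : ∀ c ∈ Cb, b c ∉ Icc ρ ρ'
  corner_a : ∀ c ∈ Ca, a c ∉ Icc ρ ρ'
  as : a s ∉ Icc ρ ρ'
  bs : b s ∉ Icc ρ ρ'
  at' : a t ∉ Icc ρ ρ'
  bt : b t ∉ Icc ρ ρ'
  en_b : ∀ x ∈ Icc s t, x ∉ Cb → en b β x ∉ Icc (gg ρ') (gg ρ)
  en_a : ∀ x ∈ Icc s t, x ∉ Ca → en a α x ∉ Icc (gg ρ') (gg ρ)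

end

end Pool.Agent.MP_4c0f47_an
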