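import Pool.Agent.Lib.MP_4c0f47_an.CellChain

set_option autoImplicit false

open Set Filter Topology

namespace Pool.Agent.MP_4c0f47_an

noncomputable section

/-! ### first and last hitting times -/

theorem first_hit {f : ℝ → ℝ} {p q ρ : ℝ} (hf : ContinuousOn f (Icc p q)) (hpq : p ≤ q)
    (hp : f p < ρ) (hq : ρ ≤ f q) :
    ∃ u ∈ Ioc p q, f u = ρ ∧ ∀ x ∈ Ico p u, f x < ρ := by
  have hS : IsCompact (Icc p q ∩ f ⁻¹' (Ici ρ)) := by
    apply IsCompact.of_isClosed_subset isCompact_Icc _ inter_subset_left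
    exact hf.preimage_isClosed_of_isClosed isClosed_Icc isClosed_Ici
  have hne : (Icc p q ∩ f ⁻¹' (Ici ρ)).Nonempty := ⟨q, right_mem_Icc.2 hpq, hq⟩
  obtain ⟨u, ⟨hu1, hu2⟩, hu3⟩ := hS.exists_isLeast hne
  have hu2' : ρ ≤ f u := hu2
  have hpu : p < u := by
    rcases eq_or_lt_of_le hu1.1 with h | h
    · rw [← h] at hu2'; linarith
    · exact h
  have hlt : ∀ x ∈ Ico p u, f x < ρ := by
    intro x hx
    by_contra hcon
    push Not at hcon
    have : u ≤ x := hu3 ⟨⟨hx.1, hx.2.le.trans hu1.2⟩, hcon⟩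
    exact absurd hx.2 (not_lt.2 this)
  refine ⟨u, ⟨hpu, hu1.2⟩, le_antisymm ?_ hu2', hlt⟩
  have h1 : Tendsto f (𝓝[Ico p u] u) (𝓝 (f u)) :=
    (hf u hu1).mono_left (nhdsWithin_mono u (fun x hx => ⟨hx.1, hx.2.le.trans hu1.2⟩))
  rw [nhdsWithin_Ico_eq_nhdsLT hpu] at h1
  apply le_of_tendsto h1
  rw [← nhdsWithin_Ico_eq_nhdsLT hpu]
  filter_upwards [self_mem_nhdsWithin] with x hx
  exact (hlt x hx).le

theorem last_hit {f : ℝ → ℝ} {p q ρ : ℝ} (hf : ContinuousOn f (Icc p q)) (hpq : p ≤ q)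
    (hp : ρ ≤ f p) (hq : f q < ρ) :
    ∃ u ∈ Ico p q, f u = ρ ∧ ∀ x ∈ Ioc u q, f x < ρ := by
  have hf' : ContinuousOn (fun x => f (-x)) (Icc (-q) (-p)) := by
    apply hf.comp (by fun_prop)
    intro x hx
    exact ⟨by linarith [hx.2], by linarith [hx.1]⟩
  obtain ⟨u, hu1, hu2, hu3⟩ := first_hit hf' (by linarith) (by simpa using hq) (by simpa using hp)
  refine ⟨-u, ⟨by linarith [hu1.2], by linarith [hu1.1]⟩, hu2, ?_⟩
  intro x hx
  have := hu3 (-x) ⟨by linarith [hx.2], by linarith [hx.1]⟩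
  simpa using this

/-! ### crossing the circle of radius `ρ` -/

variable {σ : ℝ} {b β : ℝ → ℝ} {C : Finset ℝ} {s t : ℝ}

theorem cos_nonneg_of_hit (h : Chain σ b β C s t) {ρ p u : ℝ}
    (hu : u ∈ Ioo s t) (huC : u ∉ C) (hp : p < u) (hlt : ∀ x ∈ Ioo p u, b x ≤ ρ)
    (hbu : b u = ρ) : 0 ≤ Real.cos (β u) := by
  by_contra hcon
  push Not at hcon
  have hu' := Ioo_subset_Icc_self hu
  have hs := Real.sin_pos_of_pos_of_lt_pi (h.ang u hu' huC).1 (h.ang u hu' huC).2
  have hb := h.pos u hu'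
  have hneg : b u * (Real.cos (β u) / Real.sin (β u)) < 0 :=
    mul_neg_of_pos_of_neg hb (div_neg_of_neg_of_pos hcon hs)
  have h1 := (h.db u hu huC).hasDerivWithinAt (s := Iio u)
  rw [hasDerivWithinAt_iff_tendsto_slope' (by simp)] at h1
  have h2 : ∀ᶠ x in 𝓝[<] u, 0 ≤ slope b u x := by
    have h3 : ∀ᶠ x in 𝓝[<] u, x ∈ Ioo p u := by
      rw [← nhdsWithin_Ioo_eq_nhdsLT hp]; exact self_mem_nhdsWithin
    filter_upwards [h3] with x hx
    rw [slope_def_field]
    apply div_nonneg_of_nonpos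
    · rw [hbu]; linarith [hlt x hx]
    · linarith [hx.2]
  have h4 := ge_of_tendsto h1 h2
  linarith

theorem hit_up (h : Chain σ b β C s t) {ρ ρ' p u : ℝ} (hρ : 5 ≤ ρ) (hρ' : ρ + 1 ≤ ρ')
    (hu : u ∈ Ioo s t) (huC : u ∉ C) (hp : p < u) (hlt : ∀ x ∈ Ioo p u, b x ≤ ρ)
    (hbu : b u = ρ) (hen : en b β u ∉ Icc (gg ρ') (gg ρ)) :
    β u < Real.pi / 12 ∧ en b β u < Real.sin (Real.pi / 12) * gg ρ := by
  have hu' := Ioo_subset_Icc_self hu
  have hcos := cos_nonneg_of_hit h hu huC hp hlt hbu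
  have hang := h.ang u hu' huC
  have hs := Real.sin_pos_of_pos_of_lt_pi hang.1 hang.2
  have hgg : 0 < gg ρ := gg_pos (by linarith)
  have hle : en b β u ≤ gg ρ := by
    unfold en; rw [hbu]
    calc gg ρ * Real.sin (β u) ≤ gg ρ * 1 :=
          mul_le_mul_of_nonneg_left (Real.sin_le_one _) hgg.le
      _ = gg ρ := mul_one _
  have h1 : en b β u < gg ρ' := by
    by_contra hcon
    push Not at hcon
    exact hen ⟨hcon, hle⟩
  have h2 := gg_ratio hρ hρ'
  have h3 : en b β u < Real.sin (Real.pi / 12) * gg ρ := by linarith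
  refine ⟨?_, h3⟩
  have h4 : Real.sin (β u) < Real.sin (Real.pi / 12) := by
    unfold en at h3; rw [hbu] at h3
    by_contra hcon
    push Not at hcon
    have := mul_le_mul_of_nonneg_left hcon hgg.le
    linarith
  have h5 : β u ≤ Real.pi / 2 := by
    by_contra hcon
    push Not at hcon
    have := Real.cos_neg_of_pi_div_two_lt_of_lt hcon (by linarith [hang.2, Real.pi_pos])
    linarith
  by_contra hcon
  push Not at hcon
  have := Real.sin_le_sin_of_le_of_le_pi_div_two (by linarith [Real.pi_pos]) h5 hcon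
  linarith

theorem en_mirror (b β : ℝ → ℝ) (x : ℝ) :
    en (fun x => b (-x)) (fun x => Real.pi - β (-x)) x = en b β (-x) := by
  unfold en; rw [Real.sin_pi_sub]

theorem mem_image_neg {C : Finset ℝ} {x : ℝ} : x ∈ C.image (fun x => -x) ↔ -x ∈ C := by
  simp only [Finset.mem_image]
  constructor
  · rintro ⟨a, ha, rfl⟩; simpa using ha
  · intro hx; exact ⟨-x, hx, by simp⟩

theorem hit_down (h : Chain σ b β C s t) {ρ ρ' p u : ℝ} (hρ : 5 ≤ ρ) (hρ' : ρ + 1 ≤ ρ')
    (hu : u ∈ Ioo s t) (huC : u ∉ C) (hp : u < p) (hlt : ∀ x ∈ Ioo u p, b x ≤ ρ)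
    (hbu : b u = ρ) (hen : en b β u ∉ Icc (gg ρ') (gg ρ)) :
    11 * Real.pi / 12 < β u ∧ en b β u < Real.sin (Real.pi / 12) * gg ρ := by
  have := hit_up h.mirror (p := -p) (u := -u) hρ hρ' ⟨by linarith [hu.2], by linarith [hu.1]⟩
    (by rw [mem_image_neg]; simpa using huC) (by linarith)
    (by
      intro x hx
      exact hlt (-x) ⟨by linarith [hx.2], by linarith [hx.1]⟩)
    (by simpa using hbu)
    (by rw [en_mirror]; simpa using hen)
  rw [en_mirror] at this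
  simp only [neg_neg] at this
  exact ⟨by linarith [this.1], this.2⟩

/-- on a piece of low energy the radius is small wherever the angle is not small -/
theorem Arc.small {γ : ℝ → ℝ} {x y : ℝ} (h : Arc b γ x y) {ρ v w : ℝ} (hρ : 5 ≤ ρ)
    (hv : v ∈ Icc x y) (hw : w ∈ Icc x y)
    (hen : en b γ w < Real.sin (Real.pi / 12) * gg ρ) (hb : b v ≤ ρ)
    (hs : Real.sin (Real.pi / 12) ≤ Real.sin (γ v)) : b v < 1 / 10 := by
  apply gg_small (h.pos v hv) hρ hb
  rw [h.en_eq hw hv] at hen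
  unfold en at hen
  have hsp := h.sin_pos hv
  have hgg : 0 < gg ρ := gg_pos (by linarith)
  by_contra hcon
  push Not at hcon
  have h1 : gg ρ * Real.sin (γ v) ≤ gg (b v) * Real.sin (γ v) :=
    mul_le_mul_of_nonneg_right hcon hsp.le
  have h2 : gg ρ * Real.sin (Real.pi / 12) ≤ gg ρ * Real.sin (γ v) :=
    mul_le_mul_of_nonneg_left hs hgg.le
  linarith

theorem Arc.mirror {γ : ℝ → ℝ} {x y : ℝ} (h : Arc b γ x y) :
    Arc (fun x => b (-x)) (fun x => Real.pi - γ (-x)) (-y) (-x) where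
  cb := by
    apply h.cb.comp (by fun_prop)
    intro z hz
    exact ⟨by linarith [hz.2], by linarith [hz.1]⟩
  cγ := by
    apply ContinuousOn.sub continuousOn_const
    apply h.cγ.comp (by fun_prop)
    intro z hz
    exact ⟨by linarith [hz.2], by linarith [hz.1]⟩
  pos := fun z hz => h.pos (-z) ⟨by linarith [hz.2], by linarith [hz.1]⟩
  ang := by
    intro z hz
    have := h.ang (-z) ⟨by linarith [hz.2], by linarith [hz.1]⟩
    exact ⟨by linarith [this.2], by linarith [this.1]⟩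
  db := by
    intro z hz
    have h1 := h.db (-z) ⟨by linarith [hz.2], by linarith [hz.1]⟩
    have h2 := h1.comp z (hasDerivAt_neg z)
    refine h2.congr_deriv ?_
    rw [Real.cos_pi_sub, Real.sin_pi_sub]; ring
  dγ := by
    intro z hz
    have h1 := h.dγ (-z) ⟨by linarith [hz.2], by linarith [hz.1]⟩
    have h2 := (h1.comp z (hasDerivAt_neg z)).const_sub Real.pi
    refine h2.congr_deriv ?_
    ring

/-- ENTRY lemma -/
theorem arc_entry {a α b β : ℝ → ℝ} {x y : ℝ} (hxy : x < y) (ha : Arc a α x y)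
    (hb : Arc b β x y)
    (hab : ∀ u ∈ Icc x y, a u ≤ b u) (haby : a y < b y)
    (h1 : β y ≤ α y) (h2 : Real.pi / 2 ≤ β y)
    (h3 : b y ≤ 93 / 100) : b x < 5 := by
  have := arc_exit (x := -y) (y := -x) (by linarith) ha.mirror hb.mirror
    (by
      intro u hu
      exact hab (-u) ⟨by linarith [hu.2], by linarith [hu.1]⟩)
    (by simpa using haby) (by simp only [neg_neg]; linarith) (by simp only [neg_neg]; linarith)
    (by simpa using h3)
  simpa using this

/-- a low energy outward arc: angle window of width `π/6` -/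
theorem Arc.window {a γ : ℝ → ℝ} {x y : ℝ} (hxy : x < y) (h : Arc a γ x y)
    (hx : 11 * Real.pi / 12 < γ x) (hy : γ y ≤ 2 * Real.pi / 3) :
    ∃ u v, x ≤ u ∧ u < v ∧ v ≤ y ∧ u + Real.pi / 6 ≤ v ∧
      ∀ w ∈ Icc u v, 3 * Real.pi / 4 ≤ γ w ∧ γ w ≤ 11 * Real.pi / 12 := by
  have hpi := Real.pi_pos
  obtain ⟨u, hu1, hu2, hu3⟩ := last_hit (f := γ) (ρ := 11 * Real.pi / 12) h.cγ hxy.le hx.le
    (by linarith)
  have hc : ContinuousOn (fun w => - γ w) (Icc u y) :=
    (h.cγ.mono (Icc_subset_Icc hu1.1 le_rfl)).neg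
  obtain ⟨v, hv1, hv2, hv3⟩ := first_hit (f := fun w => - γ w) (ρ := -(3 * Real.pi / 4)) hc
    hu1.2.le (by linarith) (by linarith)
  have hwin : ∀ w ∈ Icc u v, 3 * Real.pi / 4 ≤ γ w ∧ γ w ≤ 11 * Real.pi / 12 := by
    intro w hw
    constructor
    · rcases eq_or_lt_of_le hw.2 with h5 | h5
      · rw [h5]; linarith
      · have := hv3 w ⟨hw.1, h5⟩
        linarith
    · rcases eq_or_lt_of_le hw.1 with h5 | h5
      · rw [← h5]; linarith
      · exact (hu3 w ⟨h5, hw.2.trans hv1.2⟩).le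
  refine ⟨u, v, hu1.1, hv1.1, hv1.2, ?_, hwin⟩
  have h6 := Convex.mul_sub_le_image_sub_of_le_deriv (D := Icc u v) (convex_Icc u v)
    (f := γ) (h.cγ.mono (Icc_subset_Icc hu1.1 hv1.2))
    (by
      rw [interior_Icc]; intro z hz
      exact (h.dγ z ⟨hu1.1.trans_lt hz.1,
        hz.2.trans_le hv1.2⟩).differentiableAt.differentiableWithinAt)
    (C := -1)
    (by
      rw [interior_Icc]; intro z hz
      rw [(h.dγ z ⟨hu1.1.trans_lt hz.1, hz.2.trans_le hv1.2⟩).deriv]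
      nlinarith [sq_nonneg (a z)])
    u (left_mem_Icc.2 hv1.1.le) v (right_mem_Icc.2 hv1.1.le) hv1.1.le
  linarith

end

end Pool.Agent.MP_4c0f47_an
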