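import Pool.Agent.Lib.MP_4c0f47_an.CellHit

set_option autoImplicit false

open Set Filter Topology

namespace Pool.Agent.MP_4c0f47_an

noncomputable section

/-- selection of the innermost V -/
theorem Chain.select {a α : ℝ → ℝ} {Ca : Finset ℝ} {s t : ℝ} (h : Chain (-1) a α Ca s t)
    {p q : ℝ} (hpq : p < q)
    (hp : Real.pi / 3 ≤ rgt (-1) a α Ca s p) (hq : lft (-1) a α Ca s q < 2 * Real.pi / 3) :
    ∃ x y, x < y ∧ p ≤ x ∧ y ≤ q ∧ ((x ∈ Ca ∧ p < x) ∨ x = p) ∧ ((y ∈ Ca ∧ y < q) ∨ y = q) ∧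
      (∀ c ∈ Ca, c ∉ Ioo x y) ∧ Real.pi / 3 ≤ rgt (-1) a α Ca s x ∧
      lft (-1) a α Ca s y < 2 * Real.pi / 3 := by
  classical
  let S : Finset ℝ := (insert q (Ca.filter (fun c => p < c ∧ c < q))).filter
    (fun c => lft (-1) a α Ca s c < 2 * Real.pi / 3)
  have hqS : q ∈ S := Finset.mem_filter.2 ⟨Finset.mem_insert_self _ _, hq⟩
  have hSne : S.Nonempty := ⟨q, hqS⟩
  let y := S.min' hSne
  have hyS : y ∈ S := S.min'_mem hSne
  have hyle : ∀ c ∈ S, y ≤ c := fun c hc => S.min'_le c hc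
  have hy1 : (y ∈ Ca ∧ p < y ∧ y < q) ∨ y = q := by
    simp only [S, Finset.mem_filter, Finset.mem_insert] at hyS
    rcases hyS.1 with h1 | h1
    · exact Or.inr h1
    · exact Or.inl h1
  have hy2 : lft (-1) a α Ca s y < 2 * Real.pi / 3 := by
    simp only [S, Finset.mem_filter] at hyS
    exact hyS.2
  have hpy : p < y := by
    rcases hy1 with h1 | h1
    · exact h1.2.1
    · rw [h1]; exact hpq
  have hyq : y ≤ q := hyle q hqS
  let T : Finset ℝ := insert p (Ca.filter (fun c => p < c ∧ c < y))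
  have hTne : T.Nonempty := ⟨p, Finset.mem_insert_self _ _⟩
  let x := T.max' hTne
  have hxT : x ∈ T := T.max'_mem hTne
  have hxle : ∀ c ∈ T, c ≤ x := fun c hc => T.le_max' c hc
  have hx1 : (x ∈ Ca ∧ p < x ∧ x < y) ∨ x = p := by
    simp only [T, Finset.mem_filter, Finset.mem_insert] at hxT
    rcases hxT with h1 | h1
    · exact Or.inr h1
    · exact Or.inl h1
  have hxy : x < y := by
    rcases hx1 with h1 | h1
    · exact h1.2.2
    · rw [h1]; exact hpy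
  have hpx : p ≤ x := hxle p (Finset.mem_insert_self _ _)
  have hno : ∀ c ∈ Ca, c ∉ Ioo x y := by
    intro c hc hcc
    have : c ∈ T := by
      simp only [T, Finset.mem_filter, Finset.mem_insert]
      exact Or.inr ⟨hc, hpx.trans_lt hcc.1, hcc.2⟩
    have := hxle c this
    linarith [hcc.1]
  refine ⟨x, y, hxy, hpx, hyq, ?_, ?_, hno, ?_, hy2⟩
  · rcases hx1 with h1 | h1
    · exact Or.inl ⟨h1.1, h1.2.1⟩
    · exact Or.inr h1
  · rcases hy1 with h1 | h1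
    · exact Or.inl ⟨h1.1, h1.2.2⟩
    · exact Or.inr h1
  · rcases hx1 with h1 | h1
    · rw [h.rgt_eq h1.1]
      by_contra hcon
      push Not at hcon
      have h2 : lft (-1) a α Ca s x < 2 * Real.pi / 3 := by linarith
      have h3 : x ∈ S := by
        simp only [S, Finset.mem_filter, Finset.mem_insert]
        exact ⟨Or.inr ⟨h1.1, h1.2.1, h1.2.2.trans_le hyq⟩, h2⟩
      have := hyle x h3
      linarith
    · rw [h1]; exact hp

namespace Cell

variable {a α b β : ℝ → ℝ} {Ca Cb : Finset ℝ} {s t : ℝ} {i j : ℕ}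

/-- left and right limits of `β - α` -/
def DL (a α b β : ℝ → ℝ) (Ca Cb : Finset ℝ) (s x : ℝ) : ℝ :=
  lft 1 b β Cb s x - lft (-1) a α Ca s x

def DR (a α b β : ℝ → ℝ) (Ca Cb : Finset ℝ) (s x : ℝ) : ℝ :=
  rgt 1 b β Cb s x - rgt (-1) a α Ca s x

theorem ab_le (h : Cell a α b β Ca Cb s t i j) {x : ℝ} (hx : x ∈ Icc s t) : a x ≤ b x := by
  rcases eq_or_lt_of_le hx.1 with h1 | h1
  · rw [← h1]
    rcases h.left with h2 | h2
    · exact h2.2.1.le
    · exact h2.2.1.le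
  · rcases eq_or_lt_of_le hx.2 with h3 | h3
    · rw [h3]
      rcases h.right with h2 | h2
      · exact h2.2.1.le
      · exact h2.2.1.le
    · exact (h.lt x ⟨h1, h3⟩).le

theorem DR_s (h : Cell a α b β Ca Cb s t i j) :
    DR a α b β Ca Cb s s = - Real.pi + i * (Real.pi / 3) := by
  unfold DR
  have hs : s ∈ Icc s t := left_mem_Icc.2 h.outer.lt.le
  rw [← h.outer.eq_rgt hs h.outer.s_notMem, ← h.inner.eq_rgt hs h.inner.s_notMem]
  rcases h.left with h2 | h2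
  · rw [h2.1, h2.2.2]; push_cast; ring
  · rw [h2.1, h2.2.2.1, h2.2.2.2]; push_cast; ring

theorem DL_t (h : Cell a α b β Ca Cb s t i j) :
    DL a α b β Ca Cb s t = Real.pi - j * (Real.pi / 3) := by
  unfold DL
  have ht : t ∈ Icc s t := right_mem_Icc.2 h.outer.lt.le
  rw [← h.outer.eq_lft ht h.outer.t_notMem, ← h.inner.eq_lft ht h.inner.t_notMem]
  rcases h.right with h2 | h2
  · rw [h2.1, h2.2.2]; push_cast; ring
  · rw [h2.1, h2.2.2.1, h2.2.2.2]; push_cast; ring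

theorem i_mem (h : Cell a α b β Ca Cb s t i j) : i = 1 ∨ i = 2 := by
  rcases h.left with h2 | h2
  · exact Or.inl h2.1
  · exact Or.inr h2.1

theorem j_mem (h : Cell a α b β Ca Cb s t i j) : j = 1 ∨ j = 2 := by
  rcases h.right with h2 | h2
  · exact Or.inl h2.1
  · exact Or.inr h2.1

theorem intg_sq (h : Cell a α b β Ca Cb s t i j) {p q : ℝ} (h1 : p ∈ Icc s t) (h2 : q ∈ Icc s t) :
    IntervalIntegrable (fun u => b u ^ 2 - a u ^ 2) MeasureTheory.volume p q := by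
  apply ContinuousOn.intervalIntegrable
  have hs := uIcc_subset_Icc h1 h2
  exact ((h.outer.cont.mono hs).pow 2).sub ((h.inner.cont.mono hs).pow 2)

theorem integral_pos (h : Cell a α b β Ca Cb s t i j) {x y : ℝ} (hx : s ≤ x) (hxy : x < y)
    (hy : y ≤ t) : 0 < ∫ u in x..y, (b u ^ 2 - a u ^ 2) := by
  apply intervalIntegral.intervalIntegral_pos_of_pos_on
  · exact h.intg_sq ⟨hx, hxy.le.trans hy⟩ ⟨hx.trans hxy.le, hy⟩
  · intro u hu
    have h1 := h.lt u ⟨hx.trans_lt hu.1, hu.2.trans_le hy⟩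
    have h2 := h.inner.pos u ⟨hx.trans hu.1.le, hu.2.le.trans hy⟩
    nlinarith
  · exact hxy

theorem D_formula (h : Cell a α b β Ca Cb s t i j) {x y : ℝ} (hx : s ≤ x) (hxy : x < y)
    (hy : y ≤ t) : DL a α b β Ca Cb s y - DR a α b β Ca Cb s x =
      (∫ u in x..y, (b u ^ 2 - a u ^ 2)) + (Real.pi / 3) *
      (((Cb.filter (fun c => x < c ∧ c < y)).card + (Ca.filter (fun c => x < c ∧ c < y)).card : ℕ)
        : ℝ) := by
  unfold DL DR
  have h1 := lft_sub_rgt (σ := 1) (β := β) (C := Cb) h.outer.cont hx hxy hy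
  have h2 := lft_sub_rgt (σ := -1) (β := α) (C := Ca) h.inner.cont hx hxy hy
  have h3 : (∫ u in x..y, (b u ^ 2 - a u ^ 2)) =
      (∫ u in x..y, (b u ^ 2 - 1)) - ∫ u in x..y, (a u ^ 2 - 1) := by
    rw [← intervalIntegral.integral_sub]
    · congr 1; ext u; ring
    · exact h.outer.intg ⟨hx, hxy.le.trans hy⟩ ⟨hx.trans hxy.le, hy⟩
    · exact h.inner.intg ⟨hx, hxy.le.trans hy⟩ ⟨hx.trans hxy.le, hy⟩
  rw [h3]
  push_cast
  linarith

theorem DL_le_DR (h : Cell a α b β Ca Cb s t i j) (x : ℝ) :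
    DL a α b β Ca Cb s x ≤ DR a α b β Ca Cb s x := by
  have hpi := Real.pi_pos
  unfold DL DR
  have h1 : lft 1 b β Cb s x ≤ rgt 1 b β Cb s x := by
    by_cases hx : x ∈ Cb
    · rw [h.outer.rgt_eq hx]; linarith
    · unfold lft rgt; rw [filter_le_eq_lt hx]
  have h2 : rgt (-1) a α Ca s x ≤ lft (-1) a α Ca s x := by
    by_cases hx : x ∈ Ca
    · rw [h.inner.rgt_eq hx]; linarith
    · unfold lft rgt; rw [filter_le_eq_lt hx]
  linarith

theorem DL_le_DR' (h : Cell a α b β Ca Cb s t i j) {x : ℝ} (hx : x ∈ Cb) :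
    DL a α b β Ca Cb s x + Real.pi / 3 ≤ DR a α b β Ca Cb s x := by
  have hpi := Real.pi_pos
  unfold DL DR
  have h1 : rgt 1 b β Cb s x = lft 1 b β Cb s x + Real.pi / 3 := by
    rw [h.outer.rgt_eq hx]; ring
  have h2 : rgt (-1) a α Ca s x ≤ lft (-1) a α Ca s x := by
    by_cases hx : x ∈ Ca
    · rw [h.inner.rgt_eq hx]; linarith
    · unfold lft rgt; rw [filter_le_eq_lt hx]
  linarith

theorem DR_lt_DL (h : Cell a α b β Ca Cb s t i j) {x y : ℝ} (hx : s ≤ x) (hxy : x < y)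
    (hy : y ≤ t) : DR a α b β Ca Cb s x < DL a α b β Ca Cb s y := by
  have h1 := h.D_formula hx hxy hy
  have h2 := h.integral_pos hx hxy hy
  have h3 : 0 ≤ (Real.pi / 3) *
      (((Cb.filter (fun c => x < c ∧ c < y)).card + (Ca.filter (fun c => x < c ∧ c < y)).card : ℕ)
        : ℝ) := by
    have := Real.pi_pos
    positivity
  linarith

theorem filter_all {σ : ℝ} {f g : ℝ → ℝ} {C : Finset ℝ} (h : Chain σ f g C s t) :
    C.filter (fun c => s < c ∧ c < t) = C := by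
  rw [Finset.filter_eq_self]
  intro c hc; exact h.corners c hc

theorem total (h : Cell a α b β Ca Cb s t i j) : (∫ θ in s..t, (b θ ^ 2 - a θ ^ 2)) =
    (6 - (i + j + Ca.card + Cb.card : ℕ)) * (Real.pi / 3) := by
  have h1 := h.D_formula le_rfl h.outer.lt le_rfl
  rw [h.DR_s, h.DL_t, filter_all h.outer, filter_all h.inner] at h1
  push_cast at h1 ⊢
  linarith

theorem count (h : Cell a α b β Ca Cb s t i j) : i + j + Ca.card + Cb.card ≤ 5 := by
  have h1 := h.total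
  have h2 := h.integral_pos le_rfl h.outer.lt le_rfl
  rw [h1] at h2
  have hpi := Real.pi_pos
  have h3 : (0:ℝ) < 6 - (i + j + Ca.card + Cb.card : ℕ) := by
    by_contra hcon
    push Not at hcon
    have : (6 - ((i + j + Ca.card + Cb.card : ℕ) : ℝ)) * (Real.pi / 3) ≤ 0 :=
      mul_nonpos_of_nonpos_of_nonneg hcon (by positivity)
    linarith
  have h4 : ((i + j + Ca.card + Cb.card : ℕ) : ℝ) < (6 : ℕ) := by
    push_cast at h3 ⊢; linarith
  have h5 : i + j + Ca.card + Cb.card < 6 := by exact_mod_cast h4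
  omega

theorem alpha_s (h : Cell a α b β Ca Cb s t i j) :
    2 * Real.pi / 3 ≤ rgt (-1) a α Ca s s := by
  have hs : s ∈ Icc s t := left_mem_Icc.2 h.outer.lt.le
  rw [← h.inner.eq_rgt hs h.inner.s_notMem]
  rcases h.left with h2 | h2
  · have := (h.outer.ang s hs h.outer.s_notMem).1
    linarith [h2.2.2]
  · linarith [h2.2.2.2]

theorem alpha_t (h : Cell a α b β Ca Cb s t i j) :
    lft (-1) a α Ca s t ≤ Real.pi / 3 := by
  have ht : t ∈ Icc s t := right_mem_Icc.2 h.outer.lt.le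
  rw [← h.inner.eq_lft ht h.inner.t_notMem]
  rcases h.right with h2 | h2
  · have := (h.outer.ang t ht h.outer.t_notMem).2
    linarith [h2.2.2]
  · linarith [h2.2.2.2]

theorem exists_V (h : Cell a α b β Ca Cb s t i j) : ∃ x y, x < y ∧ (x ∈ Ca ∨ x = s) ∧
    (y ∈ Ca ∨ y = t) ∧ (∀ c ∈ Ca, c ∉ Ioo x y) ∧
    (∃ l, Real.pi / 3 ≤ l ∧ Tendsto α (𝓝[>] x) (𝓝 l)) ∧
    (∃ l, l < 2 * Real.pi / 3 ∧ Tendsto α (𝓝[<] y) (𝓝 l)) := by
  have hpi := Real.pi_pos
  obtain ⟨x, y, hxy, hx, hy, hx1, hy1, hC, hxl, hyl⟩ := h.inner.select h.inner.lt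
    (by linarith [h.alpha_s]) (by linarith [h.alpha_t])
  refine ⟨x, y, hxy, ?_, ?_, hC, ⟨_, hxl, h.inner.tend_right ⟨hx, hxy.trans_le hy⟩⟩,
    ⟨_, hyl, h.inner.tend_left ⟨hx.trans_lt hxy, hy⟩⟩⟩
  · rcases hx1 with h1 | h1
    · exact Or.inl h1.1
    · exact Or.inr h1
  · rcases hy1 with h1 | h1
    · exact Or.inl h1.1
    · exact Or.inr h1

theorem unit (h : Cell a α b β Ca Cb s t i j) {x y : ℝ} (hxy : x < y)
    (hx : x ∈ Cb ∨ (x = s ∧ i = 2)) (hy : y ∈ Cb ∨ (y = t ∧ j = 2)) :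
    ∃ θ ∈ Icc s t, a θ ≤ 1 := by
  by_contra hcon
  push Not at hcon
  have hpi := Real.pi_pos
  have h1 := lft_sub_rgt (σ := -1) (β := α) (C := Ca) h.inner.cont le_rfl h.inner.lt le_rfl
  rw [filter_all h.inner] at h1
  have h2 : 0 < ∫ u in s..t, (a u ^ 2 - 1) := by
    apply intervalIntegral.intervalIntegral_pos_of_pos_on
    · exact h.inner.intg (left_mem_Icc.2 h.inner.lt.le) (right_mem_Icc.2 h.inner.lt.le)
    · intro u hu
      have := hcon u (Ioo_subset_Icc_self hu)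
      nlinarith
    · exact h.inner.lt
  have h3 := h.alpha_s
  have h4 := h.alpha_t
  have h5 : (1 : ℝ) < Ca.card := by
    by_contra hc
    push Not at hc
    nlinarith
  have h6 : 1 < Ca.card := by exact_mod_cast h5
  have h7 := h.count
  have hi := h.i_mem
  have hj := h.j_mem
  rcases hx with hx | hx <;> rcases hy with hy | hy
  · have : 1 < Cb.card := Finset.one_lt_card.2 ⟨x, hx, y, hy, hxy.ne⟩
    omega
  · have : 0 < Cb.card := Finset.card_pos.2 ⟨x, hx⟩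
    omega
  · have : 0 < Cb.card := Finset.card_pos.2 ⟨y, hy⟩
    omega
  · omega

/-- few corners when `D` grows by less than `π/3` -/
theorem no_corner (h : Cell a α b β Ca Cb s t i j) {x y : ℝ} (hx : s ≤ x) (hxy : x < y)
    (hy : y ≤ t) (hD : DL a α b β Ca Cb s y - DR a α b β Ca Cb s x < Real.pi / 3) :
    (∀ c ∈ Ca, c ∉ Ioo x y) ∧ (∀ c ∈ Cb, c ∉ Ioo x y) := by
  have hpi := Real.pi_pos
  have h1 := h.D_formula hx hxy hy
  have h2 := h.integral_pos hx hxy hy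
  have h3 : (((Cb.filter (fun c => x < c ∧ c < y)).card +
      (Ca.filter (fun c => x < c ∧ c < y)).card : ℕ) : ℝ) < 1 := by
    by_contra hcon
    push Not at hcon
    nlinarith
  have h4 : (Cb.filter (fun c => x < c ∧ c < y)).card +
      (Ca.filter (fun c => x < c ∧ c < y)).card < 1 := by exact_mod_cast h3
  have h5 : (Cb.filter (fun c => x < c ∧ c < y)).card = 0 := by omega
  have h6 : (Ca.filter (fun c => x < c ∧ c < y)).card = 0 := by omega
  rw [Finset.card_eq_zero, Finset.filter_eq_empty_iff] at h5 h6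
  exact ⟨fun c hc hcc => h6 hc hcc, fun c hc hcc => h5 hc hcc⟩

/-- an outer chain which leaves the disc of radius `ρ` steeply cannot have started shallow -/
theorem no_exit (h : Cell a α b β Ca Cb s t i j) {ρ ρ' : ℝ} (hρ : 5 ≤ ρ) (hρ' : ρ + 1 ≤ ρ')
    {y u : ℝ} (hsy : s ≤ y) (hyu : y < u) (hut : u < t)
    (hD : 0 ≤ DR a α b β Ca Cb s y) (hβy : Real.pi / 4 < rgt 1 b β Cb s y)
    (hlt : ∀ x ∈ Ico y u, b x < ρ) (hbu : b u = ρ) (huC : u ∉ Cb)
    (hen : en b β u ∉ Icc (gg ρ') (gg ρ)) : False := by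
  have hpi := Real.pi_pos
  have hu' : u ∈ Icc s t := ⟨hsy.trans hyu.le, hut.le⟩
  obtain ⟨hβu, henu⟩ := hit_up h.outer hρ hρ' ⟨hsy.trans_lt hyu, hut⟩ huC hyu
    (fun x hx => (hlt x ⟨hx.1.le, hx.2⟩).le) hbu hen
  have hDu : DL a α b β Ca Cb s u < Real.pi / 12 := by
    unfold DL
    rw [← h.outer.eq_lft hu' huC]
    linarith [(h.inner.lft_mem hu').1]
  obtain ⟨hCa, hCb⟩ := h.no_corner hsy hyu hut.le (by linarith)
  have arca := h.inner.arc hsy hyu hut.le hCa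
  have arcb := h.outer.arc hsy hyu hut.le hCb
  set γa := ext (-1) a α Ca s y with hγa
  set γb := ext 1 b β Cb s y with hγb
  have hγby : γb y = rgt 1 b β Cb s y := rfl
  have hγbu : γb u = β u := by
    rw [hγb, Chain.ext_right hyu hCb, ← h.outer.eq_lft hu' huC]
  have hyIcc : y ∈ Icc y u := left_mem_Icc.2 hyu.le
  have huIcc : u ∈ Icc y u := right_mem_Icc.2 hyu.le
  -- intermediate value
  have hivt := intermediate_value_Icc' hyu.le arcb.cγ
  obtain ⟨x0, hx0, hx0'⟩ := hivt (show Real.pi / 4 ∈ Icc (γb u) (γb y) by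
    rw [hγbu, hγby]; exact ⟨by linarith, hβy.le⟩)
  have hyx0 : y < x0 := by
    rcases eq_or_lt_of_le hx0.1 with h1 | h1
    · rw [← h1, hγby] at hx0'; linarith
    · exact h1
  have hx0u : x0 < u := by
    rcases eq_or_lt_of_le hx0.2 with h1 | h1
    · rw [h1, hγbu] at hx0'; linarith
    · exact h1
  have henγ : en b γb u < Real.sin (Real.pi / 12) * gg ρ := by
    have : en b γb u = en b β u := by unfold en; rw [hγbu]
    rw [this]; exact henu
  have hsin : Real.sin (Real.pi / 12) ≤ Real.sin (γb x0) := by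
    rw [hx0']
    apply Real.sin_le_sin_of_le_of_le_pi_div_two <;> linarith
  have hbx0 := arcb.small hρ hx0 huIcc henγ (hlt x0 ⟨hx0.1, hx0u⟩).le hsin
  -- D at x0
  have hDx0 : γa x0 ≤ γb x0 := by
    have h1 := h.DR_lt_DL hsy hyx0 (hx0u.le.trans hut.le)
    unfold DL at h1
    rw [hγa, hγb, Chain.ext_right hyx0 (fun c hc hcc => hCa c hc ⟨hcc.1, hcc.2.trans hx0u⟩),
      Chain.ext_right hyx0 (fun c hc hcc => hCb c hc ⟨hcc.1, hcc.2.trans hx0u⟩)]
    linarith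
  have := arc_exit hx0u (arca.mono hx0.1 le_rfl) (arcb.mono hx0.1 le_rfl)
    (fun v hv => h.ab_le ⟨hsy.trans (hx0.1.trans hv.1), hv.2.trans hut.le⟩)
    (h.lt x0 ⟨hsy.trans_lt hyx0, hx0u.trans hut⟩) hDx0 (by rw [hx0']; linarith) (by linarith)
  rw [hbu] at this
  linarith

theorem T1_half (h : Cell a α b β Ca Cb s t i j) {ρ ρ' : ℝ} (hρ : 5 ≤ ρ) (hρ' : ρ + 1 ≤ ρ')
    (hg : Gap a α b β Ca Cb s t ρ ρ') {x y : ℝ} (hxy : x < y)
    (hx : x ∈ Cb ∨ (x = s ∧ i = 2)) (hy : y ∈ Cb ∨ (y = t ∧ j = 2)) (hby : b y < ρ) :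
    ∀ θ ∈ Icc s t, y < θ → b θ < ρ' := by
  intro θ hθ hyθ
  by_contra hcon
  push Not at hcon
  have hpi := Real.pi_pos
  have hyt : y < t := hyθ.trans_le hθ.2
  have hyCb : y ∈ Cb := by
    rcases hy with h1 | h1
    · exact h1
    · exact absurd h1.1 hyt.ne
  have hsx : s ≤ x := by
    rcases hx with h1 | h1
    · exact (h.outer.corners x h1).1.le
    · exact h1.1.ge
  have hDRx : -(Real.pi / 3) ≤ DR a α b β Ca Cb s x := by
    rcases hx with h1 | h1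
    · have h2 := h.DR_lt_DL le_rfl (h.outer.corners x h1).1 (hxy.le.trans hyt.le)
      rw [h.DR_s] at h2
      have h3 := h.DL_le_DR' h1
      have h4 : (1:ℝ) ≤ i := by
        rcases h.i_mem with h5 | h5 <;> rw [h5] <;> norm_num
      nlinarith
    · rw [h1.1, h.DR_s, h1.2]; push_cast; linarith
  have hDRy : 0 ≤ DR a α b β Ca Cb s y := by
    have h2 := h.DR_lt_DL hsx hxy hyt.le
    have h3 := h.DL_le_DR' hyCb
    linarith
  have hsy : s ≤ y := hsx.trans hxy.le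
  obtain ⟨u, hu1, hu2, hu3⟩ := first_hit (f := b) (ρ := ρ)
    (h.outer.cont.mono (Icc_subset_Icc hsy hθ.2)) hyθ.le hby (by linarith)
  have huθ : u < θ := by
    rcases eq_or_lt_of_le hu1.2 with h1 | h1
    · rw [h1] at hu2; linarith
    · exact h1
  have huCb : u ∉ Cb := by
    intro hc
    exact hg.corner_b u hc (by rw [hu2]; exact ⟨le_rfl, by linarith⟩)
  have hut : u < t := huθ.trans_le hθ.2
  apply h.no_exit hρ hρ' hsy hu1.1 hut hDRy _ hu3 hu2 huCb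
    (hg.en_b u ⟨hsy.trans hu1.1.le, hut.le⟩ huCb)
  rw [h.outer.rgt_eq hyCb]
  have := (h.outer.lft_mem ⟨hsy, hyt.le⟩).1
  linarith

theorem mirror (h : Cell a α b β Ca Cb s t i j) :
    Cell (fun x => a (-x)) (fun x => Real.pi - α (-x)) (fun x => b (-x))
      (fun x => Real.pi - β (-x)) (Ca.image (fun x => -x)) (Cb.image (fun x => -x)) (-t) (-s) j i
      where
  outer := h.outer.mirror
  inner := h.inner.mirror
  lt := fun x hx => h.lt (-x) ⟨by linarith [hx.2], by linarith [hx.1]⟩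
  left := by
    simp only [neg_neg]
    rcases h.right with h1 | h1
    · exact Or.inl ⟨h1.1, h1.2.1, by linarith [h1.2.2]⟩
    · exact Or.inr ⟨h1.1, h1.2.1, by linarith [h1.2.2.1], by linarith [h1.2.2.2]⟩
  right := by
    simp only [neg_neg]
    rcases h.left with h1 | h1
    · exact Or.inl ⟨h1.1, h1.2.1, by linarith [h1.2.2]⟩
    · exact Or.inr ⟨h1.1, h1.2.1, by linarith [h1.2.2.1], by linarith [h1.2.2.2]⟩

end Cell

theorem Gap.mirror {a α b β : ℝ → ℝ} {Ca Cb : Finset ℝ} {s t ρ ρ' : ℝ}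
    (h : Gap a α b β Ca Cb s t ρ ρ') :
    Gap (fun x => a (-x)) (fun x => Real.pi - α (-x)) (fun x => b (-x))
      (fun x => Real.pi - β (-x)) (Ca.image (fun x => -x)) (Cb.image (fun x => -x)) (-t) (-s)
      ρ ρ' where
  corner_b := fun c hc => h.corner_b (-c) (mem_image_neg.1 hc)
  corner_a := fun c hc => h.corner_a (-c) (mem_image_neg.1 hc)
  as := by simpa using h.at'
  bs := by simpa using h.bt
  at' := by simpa using h.as
  bt := by simpa using h.bs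
  en_b := by
    intro x hx hxC
    rw [en_mirror]
    exact h.en_b (-x) ⟨by linarith [hx.2], by linarith [hx.1]⟩ (fun hc => hxC (mem_image_neg.2 hc))
  en_a := by
    intro x hx hxC
    rw [en_mirror]
    exact h.en_a (-x) ⟨by linarith [hx.2], by linarith [hx.1]⟩ (fun hc => hxC (mem_image_neg.2 hc))

namespace Cell

variable {a α b β : ℝ → ℝ} {Ca Cb : Finset ℝ} {s t : ℝ} {i j : ℕ}

theorem T1 (h : Cell a α b β Ca Cb s t i j) {ρ ρ' : ℝ} (hρ : 5 ≤ ρ) (hρ' : ρ + 1 ≤ ρ')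
    (hg : Gap a α b β Ca Cb s t ρ ρ') {x y : ℝ} (hxy : x < y)
    (hx : x ∈ Cb ∨ (x = s ∧ i = 2)) (hy : y ∈ Cb ∨ (y = t ∧ j = 2))
    (hb : ∀ θ ∈ Icc x y, b θ < ρ) : ∀ θ ∈ Icc s t, b θ < ρ' := by
  intro θ hθ
  rcases lt_or_ge y θ with h1 | h1
  · exact h.T1_half hρ hρ' hg hxy hx hy (hb y (right_mem_Icc.2 hxy.le)) θ hθ h1
  rcases lt_or_ge θ x with h2 | h2
  · have := h.mirror.T1_half hρ hρ' hg.mirror (x := -y) (y := -x) (by linarith)
      (by
        rcases hy with h3 | h3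
        · exact Or.inl (mem_image_neg.2 (by simpa using h3))
        · exact Or.inr ⟨by rw [h3.1], h3.2⟩)
      (by
        rcases hx with h3 | h3
        · exact Or.inl (mem_image_neg.2 (by simpa using h3))
        · exact Or.inr ⟨by rw [h3.1], h3.2⟩)
      (by simpa using hb x (left_mem_Icc.2 hxy.le))
      (-θ) ⟨by linarith [hθ.2], by linarith [hθ.1]⟩ (by linarith)
    simpa using this
  · have := hb θ ⟨h2, h1⟩
    linarith

/-- the long sector cannot be cut off on the left -/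
theorem T2_core (h : Cell a α b β Ca Cb s t i j) {ρ ρ' : ℝ} (hρ : 5 ≤ ρ) (hρ' : ρ + 1 ≤ ρ')
    (hg : Gap a α b β Ca Cb s t ρ ρ')
    (hα : ∀ u v, s ≤ u → v ≤ t → u + Real.pi / 6 ≤ v → (∀ θ ∈ Ioo u v, a θ < 1 / 10) →
      ∃ θ ∈ Ioo u v, b θ ≤ 92 / 100)
    (hR : ∀ x ∈ Ioo s t, (∀ θ ∈ Icc x t, b θ < ρ') →
      (∫ θ in x..t, (b θ ^ 2 - a θ ^ 2)) < Real.pi / 12)
    {x y : ℝ} (hsx : s < x) (hxy : x < y) (hyt : y ≤ t) (hC : ∀ c ∈ Ca, c ∉ Ioo x y)
    (hax : a x = ρ) (hlt : ∀ θ ∈ Ioo x y, a θ < ρ)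
    (hαy : ∃ l, l ≤ 2 * Real.pi / 3 ∧ Tendsto α (𝓝[<] y) (𝓝 l)) : False := by
  have hpi := Real.pi_pos
  have hxt : x < t := hxy.trans_le hyt
  have hxI : x ∈ Icc s t := ⟨hsx.le, hxt.le⟩
  have hxCa : x ∉ Ca := by
    intro hc
    exact hg.corner_a x hc (by rw [hax]; exact ⟨le_rfl, by linarith⟩)
  obtain ⟨hαx, henx⟩ := hit_down h.inner hρ hρ' ⟨hsx, hxt⟩ hxCa hxy
    (fun z hz => (hlt z hz).le) hax (hg.en_a x hxI hxCa)
  have arca := h.inner.arc hsx.le hxy hyt hC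
  set γ := ext (-1) a α Ca s x with hγ
  have hγx : γ x = α x := by
    rw [hγ, Chain.ext_self, ← h.inner.eq_rgt hxI hxCa]
  have hγy : γ y ≤ 2 * Real.pi / 3 := by
    rw [hγ, Chain.ext_right hxy hC]
    obtain ⟨l, hl1, hl2⟩ := hαy
    have := tendsto_nhds_unique (h.inner.tend_left ⟨hsx.trans hxy, hyt⟩) hl2
    rw [this]; exact hl1
  obtain ⟨τ1, τ2, hτ1, hτ12, hτ2, hτ, hwin⟩ := arca.window hxy (by rw [hγx]; exact hαx) hγy
  have henγ : en a γ x < Real.sin (Real.pi / 12) * gg ρ := by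
    have : en a γ x = en a α x := by unfold en; rw [hγx]
    rw [this]; exact henx
  have hsmall : ∀ θ ∈ Ioo τ1 τ2, a θ < 1 / 10 := by
    intro θ hθ
    have hθI : θ ∈ Icc x y := ⟨hτ1.trans hθ.1.le, hθ.2.le.trans hτ2⟩
    apply arca.small hρ hθI (left_mem_Icc.2 hxy.le) henγ
    · exact (hlt θ ⟨hτ1.trans_lt hθ.1, hθ.2.trans_le hτ2⟩).le
    · have h1 := hwin θ (Ioo_subset_Icc_self hθ)
      rw [← Real.sin_pi_sub (γ θ)]
      apply Real.sin_le_sin_of_le_of_le_pi_div_two <;> linarith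
  obtain ⟨θ0, hθ0, hbθ0⟩ := hα τ1 τ2 (hsx.le.trans hτ1) (hτ2.trans hyt) hτ hsmall
  -- move off the corners
  obtain ⟨θ', hθ', hθ'C, hbθ'⟩ : ∃ θ' ∈ Ioo τ1 τ2, θ' ∉ Cb ∧ b θ' < 93 / 100 := by
    have hIoo : Ioo τ1 τ2 ⊆ Ioo s t := by
      intro z hz
      exact ⟨(hsx.trans_le hτ1).trans hz.1, hz.2.trans_le (hτ2.trans hyt)⟩
    have hcont : ContinuousAt b θ0 :=
      h.outer.cont.continuousAt (Icc_mem_nhds (hIoo hθ0).1 (hIoo hθ0).2)
    have h1 : ∀ᶠ z in 𝓝 θ0, b z < 93 / 100 := hcont.eventually_lt_const (by linarith)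
    have h2 : ∀ᶠ z in 𝓝 θ0, z ∈ Ioo τ1 τ2 := Ioo_mem_nhds hθ0.1 hθ0.2
    have h3 : ∀ᶠ z in 𝓝[≠] θ0, z ∉ Cb ∧ b z < 93 / 100 ∧ z ∈ Ioo τ1 τ2 := by
      filter_upwards [ev_notMem' Cb θ0, nhdsWithin_le_nhds h1, nhdsWithin_le_nhds h2]
        with z hz1 hz2 hz3
      exact ⟨hz1, hz2, hz3⟩
    obtain ⟨z, hz1, hz2, hz3⟩ := h3.exists
    exact ⟨z, hz3, hz1, hz2⟩
  have hxθ' : x < θ' := hτ1.trans_lt hθ'.1
  have hθ'y : θ' < y := hθ'.2.trans_le hτ2
  have hθ't : θ' < t := hθ'y.trans_le hyt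
  have hsθ' : s < θ' := hsx.trans hxθ'
  have hθ'I : θ' ∈ Icc s t := ⟨hsθ'.le, hθ't.le⟩
  have hθ'Ca : θ' ∉ Ca := fun hc => hC θ' hc ⟨hxθ', hθ'y⟩
  have hαθ' : γ θ' = α θ' := h.inner.ext_eq hsx.le hyt hC ⟨hxθ', hθ'y⟩
  have hwinθ' := hwin θ' (Ioo_subset_Icc_self hθ')
  rw [hαθ'] at hwinθ'
  have hβθ'π := (h.outer.ang θ' hθ'I hθ'C).2
  have hDL' : DL a α b β Ca Cb s θ' = β θ' - α θ' := by
    unfold DL; rw [← h.outer.eq_lft hθ'I hθ'C, ← h.inner.eq_lft hθ'I hθ'Ca]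
  have hDR' : DR a α b β Ca Cb s θ' = β θ' - α θ' := by
    unfold DR; rw [← h.outer.eq_rgt hθ'I hθ'C, ← h.inner.eq_rgt hθ'I hθ'Ca]
  -- last time before θ' with b = ρ
  have hbx : ρ ≤ b x := by rw [← hax]; exact (h.lt x ⟨hsx, hxt⟩).le
  obtain ⟨d, hd1, hd2, hd3⟩ := last_hit (f := b) (ρ := ρ)
    (h.outer.cont.mono (Icc_subset_Icc hsx.le hθ't.le)) hxθ'.le hbx (by linarith)
  have hsd : s < d := hsx.trans_le hd1.1
  have hdt : d < t := hd1.2.trans hθ't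
  have hdI : d ∈ Icc s t := ⟨hsd.le, hdt.le⟩
  have hdCb : d ∉ Cb := by
    intro hc
    exact hg.corner_b d hc (by rw [hd2]; exact ⟨le_rfl, by linarith⟩)
  obtain ⟨hβd, -⟩ := hit_down h.outer hρ hρ' ⟨hsd, hdt⟩ hdCb hd1.2
    (fun z hz => (hd3 z ⟨hz.1, hz.2.le⟩).le) hd2 (hg.en_b d hdI hdCb)
  have hDRd : -(Real.pi / 12) < DR a α b β Ca Cb s d := by
    unfold DR
    rw [← h.outer.eq_rgt hdI hdCb]
    linarith [(h.inner.rgt_mem hdI).2]
  obtain ⟨hCa1, hCb1⟩ := h.no_corner hsd.le hd1.2 hθ't.le (by rw [hDL']; linarith)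
  have hDdθ := h.DR_lt_DL hsd.le hd1.2 hθ't.le
  rw [hDL'] at hDdθ
  -- entry lemma
  have hDpos : 0 < β θ' - α θ' := by
    by_contra hcon
    push Not at hcon
    have arc1 := h.inner.arc hsd.le hd1.2 hθ't.le hCa1
    have arc2 := h.outer.arc hsd.le hd1.2 hθ't.le hCb1
    have e1 : ext (-1) a α Ca s d θ' = α θ' := by
      rw [Chain.ext_right hd1.2 hCa1, ← h.inner.eq_lft hθ'I hθ'Ca]
    have e2 : ext 1 b β Cb s d θ' = β θ' := by
      rw [Chain.ext_right hd1.2 hCb1, ← h.outer.eq_lft hθ'I hθ'C]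
    have := arc_entry hd1.2 arc1 arc2
      (fun v hv => h.ab_le ⟨hsd.le.trans hv.1, hv.2.trans hθ't.le⟩)
      (h.lt θ' ⟨hsθ', hθ't⟩) (by rw [e1, e2]; linarith) (by rw [e2]; linarith) hbθ'.le
    rw [hd2] at this
    linarith
  by_cases hcase : ∀ θ ∈ Icc θ' t, b θ < ρ'
  · have h1 := hR θ' ⟨hsθ', hθ't⟩ hcase
    have h2 := h.D_formula hsθ'.le hθ't le_rfl
    have h3 := h.integral_pos hsθ'.le hθ't le_rfl
    rw [h.DL_t, hDR'] at h2
    set N := (Cb.filter (fun c => θ' < c ∧ c < t)).card + (Ca.filter (fun c => θ' < c ∧ c < t)).card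
      with hN
    have h4 : ((N + j : ℕ) : ℝ) < 3 := by
      push_cast
      by_contra hc
      push Not at hc
      nlinarith
    have h5 : (2 : ℝ) < ((N + j : ℕ) : ℝ) := by
      push_cast
      by_contra hc
      push Not at hc
      nlinarith
    have h6 : N + j < 3 := by exact_mod_cast h4
    have h7 : 2 < N + j := by exact_mod_cast h5
    omega
  · push Not at hcase
    obtain ⟨θ1, hθ1, hbθ1⟩ := hcase
    obtain ⟨u, hu1, hu2, hu3⟩ := first_hit (f := b) (ρ := ρ)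
      (h.outer.cont.mono (Icc_subset_Icc hsθ'.le hθ1.2)) hθ1.1 (by linarith) (by linarith)
    have huθ : u < θ1 := by
      rcases eq_or_lt_of_le hu1.2 with h1 | h1
      · rw [h1] at hu2; linarith
      · exact h1
    have huCb : u ∉ Cb := by
      intro hc
      exact hg.corner_b u hc (by rw [hu2]; exact ⟨le_rfl, by linarith⟩)
    have hut : u < t := huθ.trans_le hθ1.2
    apply h.no_exit hρ hρ' hsθ'.le hu1.1 hut (by rw [hDR']; exact hDpos.le) _ hu3 hu2 huCb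
      (hg.en_b u ⟨hsθ'.le.trans hu1.1.le, hut.le⟩ huCb)
    rw [← h.outer.eq_rgt hθ'I hθ'C]
    linarith

theorem T2 (h : Cell a α b β Ca Cb s t i j) {ρ ρ' : ℝ} (hρ : 5 ≤ ρ) (hρ' : ρ + 1 ≤ ρ')
    (hg : Gap a α b β Ca Cb s t ρ ρ')
    (hα : ∀ u v, s ≤ u → v ≤ t → u + Real.pi / 6 ≤ v → (∀ θ ∈ Ioo u v, a θ < 1 / 10) →
      ∃ θ ∈ Ioo u v, b θ ≤ 92 / 100)
    (hR : ∀ x ∈ Ioo s t, (∀ θ ∈ Icc x t, b θ < ρ') →
      (∫ θ in x..t, (b θ ^ 2 - a θ ^ 2)) < Real.pi / 12)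
    (hL : ∀ x ∈ Ioo s t, (∀ θ ∈ Icc s x, b θ < ρ') →
      (∫ θ in s..x, (b θ ^ 2 - a θ ^ 2)) < Real.pi / 12)
    (hθ : ∃ θ ∈ Icc s t, a θ < ρ) :
    ∃ x y, x < y ∧ (x ∈ Ca ∨ x = s) ∧ (y ∈ Ca ∨ y = t) ∧ (∀ c ∈ Ca, c ∉ Ioo x y) ∧
      (∀ θ ∈ Icc x y, a θ < ρ) ∧ (∃ l, Real.pi / 3 ≤ l ∧ Tendsto α (𝓝[>] x) (𝓝 l)) ∧
      (∃ l, l < 2 * Real.pi / 3 ∧ Tendsto α (𝓝[<] y) (𝓝 l)) := by
  have hpi := Real.pi_pos
  obtain ⟨θ, hθI, haθ⟩ := hθ
  -- the left end
  obtain ⟨p, hp1, hp2, hp3, hp4⟩ : ∃ p, p ∈ Icc s θ ∧ (∀ z ∈ Ioc p θ, a z < ρ) ∧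
      ((p = s ∧ a p < ρ) ∨ (s < p ∧ p < θ ∧ a p = ρ)) ∧ Real.pi / 3 ≤ rgt (-1) a α Ca s p := by
    by_cases hc : ∀ z ∈ Icc s θ, a z < ρ
    · refine ⟨s, ⟨le_rfl, hθI.1⟩, fun z hz => hc z ⟨hz.1.le, hz.2⟩,
        Or.inl ⟨rfl, hc s ⟨le_rfl, hθI.1⟩⟩, by linarith [h.alpha_s]⟩
    · push Not at hc
      obtain ⟨z, hz, haz⟩ := hc
      obtain ⟨p, hp1, hp2, hp3⟩ := last_hit (f := a) (ρ := ρ)
        (h.inner.cont.mono (Icc_subset_Icc hz.1 hθI.2)) hz.2 haz haθ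
      have hsp : s < p := by
        rcases eq_or_lt_of_le (hz.1.trans hp1.1) with h1 | h1
        · exfalso; apply hg.as
          rw [h1, hp2]; exact ⟨le_rfl, by linarith⟩
        · exact h1
      have hpI : p ∈ Icc s t := ⟨hsp.le, hp1.2.le.trans hθI.2⟩
      have hpCa : p ∉ Ca := by
        intro hc
        exact hg.corner_a p hc (by rw [hp2]; exact ⟨le_rfl, by linarith⟩)
      obtain ⟨h5, -⟩ := hit_down h.inner hρ hρ' ⟨hsp, hp1.2.trans_le hθI.2⟩ hpCa hp1.2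
        (fun z hz => (hp3 z ⟨hz.1, hz.2.le⟩).le) hp2 (hg.en_a p hpI hpCa)
      refine ⟨p, ⟨hsp.le, hp1.2.le⟩, hp3, Or.inr ⟨hsp, hp1.2, hp2⟩, ?_⟩
      rw [← h.inner.eq_rgt hpI hpCa]; linarith
  obtain ⟨q, hq1, hq2, hq3, hq4⟩ : ∃ q, q ∈ Icc θ t ∧ (∀ z ∈ Ico θ q, a z < ρ) ∧
      ((q = t ∧ a q < ρ) ∨ (q < t ∧ θ < q ∧ a q = ρ)) ∧
      lft (-1) a α Ca s q < 2 * Real.pi / 3 := by
    by_cases hc : ∀ z ∈ Icc θ t, a z < ρ
    · refine ⟨t, ⟨hθI.2, le_rfl⟩, fun z hz => hc z ⟨hz.1, hz.2.le⟩,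
        Or.inl ⟨rfl, hc t ⟨hθI.2, le_rfl⟩⟩, by linarith [h.alpha_t]⟩
    · push Not at hc
      obtain ⟨z, hz, haz⟩ := hc
      obtain ⟨q, hq1, hq2, hq3⟩ := first_hit (f := a) (ρ := ρ)
        (h.inner.cont.mono (Icc_subset_Icc hθI.1 hz.2)) hz.1 haθ haz
      have hqt : q < t := by
        rcases eq_or_lt_of_le (hq1.2.trans hz.2) with h1 | h1
        · exfalso; apply hg.at'
          rw [← h1, hq2]; exact ⟨le_rfl, by linarith⟩
        · exact h1
      have hqI : q ∈ Icc s t := ⟨hθI.1.trans hq1.1.le, hqt.le⟩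
      have hqCa : q ∉ Ca := by
        intro hc
        exact hg.corner_a q hc (by rw [hq2]; exact ⟨le_rfl, by linarith⟩)
      obtain ⟨h5, -⟩ := hit_up h.inner hρ hρ' ⟨hθI.1.trans_lt hq1.1, hqt⟩ hqCa hq1.1
        (fun z hz => (hq3 z ⟨hz.1.le, hz.2⟩).le) hq2 (hg.en_a q hqI hqCa)
      refine ⟨q, ⟨hq1.1.le, hqt.le⟩, hq3, Or.inr ⟨hqt, hq1.1, hq2⟩, ?_⟩
      rw [← h.inner.eq_lft hqI hqCa]; linarith
  have hpq : p < q := by
    rcases hp3 with h1 | h1
    · rcases hq3 with h2 | h2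
      · rw [h1.1, h2.1]; exact h.inner.lt
      · exact hp1.2.trans_lt h2.2.1
    · exact h1.2.1.trans_le hq1.1
  have hlt : ∀ z ∈ Ioo p q, a z < ρ := by
    intro z hz
    rcases le_or_gt z θ with h1 | h1
    · exact hp2 z ⟨hz.1, h1⟩
    · exact hq2 z ⟨h1.le, hz.2⟩
  obtain ⟨x, y, hxy, hx, hy, hx1, hy1, hC, hxl, hyl⟩ := h.inner.select hpq hp4 hq4
  have hsx : s ≤ x := hp1.1.trans hx
  have hyt : y ≤ t := hy.trans hq1.2
  have hxtend := h.inner.tend_right ⟨hsx, hxy.trans_le hyt⟩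
  have hytend := h.inner.tend_left ⟨hsx.trans_lt hxy, hyt⟩
  have hx2 : (x ∈ Ca ∨ x = s) ∧ a x < ρ := by
    rcases hx1 with h1 | h1
    · exact ⟨Or.inl h1.1, hlt x ⟨h1.2, hxy.trans_le hy⟩⟩
    · rcases hp3 with h2 | h2
      · exact ⟨Or.inr (h1.trans h2.1), by rw [h1]; exact h2.2⟩
      · exfalso
        exact h.T2_core hρ hρ' hg hα hR (x := x) (y := y) (by rw [h1]; exact h2.1) hxy hyt hC
          (by rw [h1]; exact h2.2.2) (fun z hz => hlt z ⟨hx.trans_lt hz.1, hz.2.trans_le hy⟩)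
          ⟨_, hyl.le, hytend⟩
  have hy2 : (y ∈ Ca ∨ y = t) ∧ a y < ρ := by
    rcases hy1 with h1 | h1
    · exact ⟨Or.inl h1.1, hlt y ⟨hx.trans_lt hxy, h1.2⟩⟩
    · rcases hq3 with h2 | h2
      · exact ⟨Or.inr (h1.trans h2.1), by rw [h1]; exact h2.2⟩
      · exfalso
        refine h.mirror.T2_core hρ hρ' hg.mirror ?_ ?_ (x := -y) (y := -x) ?_ (by linarith)
          (by linarith) ?_ (by simp only [neg_neg]; rw [h1]; exact h2.2.2) ?_ ?_
        · intro u v hu hv huv hsm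
          obtain ⟨z, hz1, hz2⟩ := hα (-v) (-u) (by linarith) (by linarith) (by linarith)
            (by
              intro z hz
              have := hsm (-z) ⟨by linarith [hz.2], by linarith [hz.1]⟩
              simpa using this)
          exact ⟨-z, ⟨by linarith [hz1.2], by linarith [hz1.1]⟩, by simpa using hz2⟩
        · intro z hz hbz
          have h3 := hL (-z) ⟨by linarith [hz.2], by linarith [hz.1]⟩
            (by
              intro w hw
              have := hbz (-w) ⟨by linarith [hw.2], by linarith [hw.1]⟩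
              simpa using this)
          have h4 : (∫ θ in z..-s, (b (-θ) ^ 2 - a (-θ) ^ 2)) =
              ∫ θ in s..-z, (b θ ^ 2 - a θ ^ 2) := by
            rw [intervalIntegral.integral_comp_neg (fun θ => b θ ^ 2 - a θ ^ 2)]
            simp
          rw [h4]; exact h3
        · rw [h1]; linarith [h2.1]
        · intro c hc hcc
          exact hC (-c) (mem_image_neg.1 hc) ⟨by linarith [hcc.2], by linarith [hcc.1]⟩
        · intro z hz
          exact hlt (-z) ⟨by linarith [hz.2, hx], by linarith [hz.1, hy]⟩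
        · refine ⟨Real.pi - rgt (-1) a α Ca s x, by linarith, ?_⟩
          apply Tendsto.const_sub
          apply hxtend.comp
          rw [tendsto_nhdsWithin_iff]
          constructor
          · have : Tendsto (fun z : ℝ => -z) (𝓝 (-x)) (𝓝 (- -x)) := continuous_neg.tendsto (-x)
            rw [neg_neg] at this
            exact this.mono_left nhdsWithin_le_nhds
          · filter_upwards [self_mem_nhdsWithin] with z hz
            have : z < -x := hz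
            show x < -z
            linarith
  refine ⟨x, y, hxy, hx2.1, hy2.1, hC, ?_, ⟨_, hxl, hxtend⟩, ⟨_, hyl, hytend⟩⟩
  intro z hz
  rcases eq_or_lt_of_le hz.1 with h1 | h1
  · rw [← h1]; exact hx2.2
  · rcases eq_or_lt_of_le hz.2 with h2 | h2
    · rw [h2]; exact hy2.2
    · exact hlt z ⟨hx.trans_lt h1, h2.trans_le hy⟩

end Cell

end

end Pool.Agent.MP_4c0f47_an
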