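import Pool.Agent.Lib.MP_4c0f47_an.Polar

set_option autoImplicit false

open Set Filter Topology Complex MeasureTheory

namespace Pool.Agent.MP_4c0f47_an

noncomputable section

/-- sign of a turn -/
def sg (σ : Bool) : ℝ := if σ then 1 else -1

theorem sg_cases (σ : Bool) : sg σ = 1 ∨ sg σ = -1 := by cases σ <;> simp [sg]

theorem dir_inj_of_lt {x y : ℝ} (h : dir x = dir y) (h1 : |x - y| < 2 * Real.pi) : x = y := by
  obtain ⟨k, hk⟩ := dir_eq_iff.1 h
  have h2 : x - y = k * (2 * Real.pi) := by linarith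
  rw [h2, abs_mul, abs_of_pos (by positivity : (0 : ℝ) < 2 * Real.pi)] at h1
  have h3 : |(k : ℝ)| < 1 := by
    by_contra hcon
    push Not at hcon
    nlinarith [Real.pi_pos]
  have h4 : k = 0 := by
    have : |k| < 1 := by exact_mod_cast h3
    exact Int.abs_lt_one_iff.1 this
  rw [h4] at hk; simpa using hk

namespace Net

variable {N : Net}

/-- turn left (`true`) or right (`false`) at the end of an arc -/
def stp (σ : Bool) (d : N.D) : N.D := if σ then N.left d else N.right d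

theorem src_stp (σ : Bool) {d : N.D} (h : ¬ N.isRay d) : N.src (N.stp σ d) = N.tgt d := by
  cases σ
  · simp [stp, N.src_right h]
  · simp [stp, N.src_left h]

theorem dir_stp (σ : Bool) {d : N.D} (h : ¬ N.isRay d) :
    dir (N.a (N.stp σ d) 0) = dir (N.a d (N.L d) + sg σ * (Real.pi / 3)) := by
  cases σ
  · simp only [stp, sg, Bool.false_eq_true, if_false, N.dir_right h]; ring_nf
  · simp only [stp, sg, if_true, N.dir_left h]; ring_nf

theorem CCW.tgt_polar {d : N.D} (h : N.CCW d) {θ : ℝ}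
    (hθ : N.src d = (‖N.src d‖ : ℂ) * dir θ) :
    N.tgt d = (‖N.tgt d‖ : ℂ) * dir (θ + N.Dl d) :=
  h.polar (N.L_mem_dom d) hθ

theorem CCW.ps_stp {d : N.D} (h : N.CCW d) {σ : Bool} (h' : N.CCW (N.stp σ d)) :
    N.ps (N.stp σ d) 0 = N.ps d (N.L d) + sg σ * (Real.pi / 3) := by
  have hn : (‖N.src d‖ : ℂ) * dir (arg (N.src d)) = N.src d := Complex.norm_mul_exp_arg_mul_I _
  have h1 := h.tgt_polar hn.symm
  have h2 := h.dir_a (N.L_mem_dom d) h1
  have h3 : N.z (N.stp σ d) 0 = (‖N.z (N.stp σ d) 0‖ : ℂ) * dir (arg (N.src d) + N.Dl d) := by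
    have : N.z (N.stp σ d) 0 = N.tgt d := N.src_stp σ h.arc
    rw [this]; exact h1
  have h4 := h'.dir_a (N.zero_mem_dom _) h3
  rw [N.dir_stp σ h.arc, dir_add, h2, ← dir_add] at h4
  have h5 := h'.ps_mem (N.zero_mem_dom _)
  have h6 := h.ps_mem (N.L_mem_dom d)
  have h7 := dir_inj_of_lt h4 (by
    have hp := Real.pi_pos
    rw [abs_lt]
    rcases sg_cases σ with h8 | h8 <;> rw [h8] <;> constructor <;> linarith [h5.1, h5.2, h6.1, h6.2])
  linarith

end Net

/-- data of a chain of counterclockwise arcs turning always to the same side -/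
structure CS (N : Net) where
  σ : Bool
  d0 : N.D
  n : ℕ
  X0 : ℝ
  npos : 0 < n
  ccw : ∀ i < n, N.CCW ((N.stp σ)^[i] d0)
  start : N.src d0 = (‖N.src d0‖ : ℂ) * dir X0

namespace CS

variable {N : Net} (c : CS N)

def e (i : ℕ) : N.D := (N.stp c.σ)^[i] c.d0

theorem e_zero : c.e 0 = c.d0 := rfl
theorem e_succ (i : ℕ) : c.e (i + 1) = N.stp c.σ (c.e i) := by
  simp only [e, Function.iterate_succ_apply']

theorem e_ccw {i : ℕ} (h : i < c.n) : N.CCW (c.e i) := c.ccw i h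

/-- angles of the vertices of the chain -/
def X : ℕ → ℝ
  | 0 => c.X0
  | i + 1 => X i + N.Dl (c.e i)

theorem X_succ (i : ℕ) : c.X (i + 1) = c.X i + N.Dl (c.e i) := rfl

theorem X_lt_succ {i : ℕ} (h : i < c.n) : c.X i < c.X (i + 1) := by
  rw [X_succ]; linarith [(c.e_ccw h).Dl_pos]

theorem X_lt {i j : ℕ} (hij : i < j) (hj : j ≤ c.n) : c.X i < c.X j := by
  induction j with
  | zero => omega
  | succ j ih =>
    rcases Nat.lt_or_ge i j with h | h
    · exact lt_trans (ih h (by omega)) (c.X_lt_succ (by omega))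
    · have : i = j := by omega
      rw [this]; exact c.X_lt_succ (by omega)

theorem X_le {i j : ℕ} (hij : i ≤ j) (hj : j ≤ c.n) : c.X i ≤ c.X j := by
  rcases eq_or_lt_of_le hij with h | h
  · rw [h]
  · exact (c.X_lt h hj).le

theorem src_e {i : ℕ} (h : i < c.n) : N.src (c.e i) = (‖N.src (c.e i)‖ : ℂ) * dir (c.X i) := by
  induction i with
  | zero => exact c.start
  | succ i ih =>
    have h1 := ih (by omega)
    rw [e_succ, N.src_stp _ (c.e_ccw (by omega)).arc, X_succ]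
    exact (c.e_ccw (by omega)).tgt_polar h1

theorem tgt_e {i : ℕ} (h : i < c.n) :
    N.tgt (c.e i) = (‖N.tgt (c.e i)‖ : ℂ) * dir (c.X (i + 1)) := by
  rw [X_succ]; exact (c.e_ccw h).tgt_polar (c.src_e h)

/-- index of the edge above the angle `x` -/
def ix (x : ℝ) : ℕ := Nat.findGreatest (fun i => c.X i ≤ x) (c.n - 1)

theorem ix_lt (x : ℝ) : c.ix x < c.n := by
  have := Nat.findGreatest_le (P := fun i => c.X i ≤ x) (c.n - 1)
  have := c.npos
  unfold ix; omega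

theorem ix_eq {i : ℕ} (hi : i < c.n) {x : ℝ} (h1 : c.X i ≤ x) (h2 : x < c.X (i + 1) ∨ i + 1 = c.n) :
    c.ix x = i := by
  unfold ix
  rw [Nat.findGreatest_eq_iff]
  refine ⟨by omega, fun _ => h1, ?_⟩
  intro j hj hjn hle
  rcases h2 with h2 | h2
  · have := c.X_le (i := i + 1) (j := j) hj (by omega)
    linarith
  · omega

/-- radius function of the chain -/
def b (x : ℝ) : ℝ := N.Rr (c.e (c.ix x)) (x - c.X (c.ix x))
/-- angle function of the chain -/
def β (x : ℝ) : ℝ := N.Bb (c.e (c.ix x)) (x - c.X (c.ix x))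

def s : ℝ := c.X 0
def t : ℝ := c.X c.n

theorem s_lt_t : c.s < c.t := c.X_lt c.npos le_rfl

theorem β_eq {i : ℕ} (hi : i < c.n) {x : ℝ} (h1 : c.X i ≤ x) (h2 : x < c.X (i + 1) ∨ i + 1 = c.n) :
    c.β x = N.Bb (c.e i) (x - c.X i) := by
  unfold β; rw [c.ix_eq hi h1 h2]

theorem Tm_tgt {i : ℕ} (hi : i < c.n) : N.Rr (c.e i) (N.Dl (c.e i)) = ‖N.tgt (c.e i)‖ := by
  rw [Net.Rr, (c.e_ccw hi).Tm_Dl]; rfl

theorem Tm_src {i : ℕ} (hi : i < c.n) : N.Rr (c.e i) 0 = ‖N.src (c.e i)‖ := by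
  rw [Net.Rr, (c.e_ccw hi).Tm_zero]; rfl

theorem src_succ {i : ℕ} (hi : i < c.n) : N.src (c.e (i + 1)) = N.tgt (c.e i) := by
  rw [e_succ, N.src_stp _ (c.e_ccw hi).arc]

theorem b_eq {i : ℕ} (hi : i < c.n) {x : ℝ} (h1 : c.X i ≤ x) (h2 : x ≤ c.X (i + 1)) :
    c.b x = N.Rr (c.e i) (x - c.X i) := by
  rcases eq_or_lt_of_le h2 with h3 | h3
  · by_cases h4 : i + 1 = c.n
    · unfold b; rw [c.ix_eq hi h1 (Or.inr h4)]
    · have h5 : i + 1 < c.n := by omega
      unfold b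
      rw [c.ix_eq h5 (by rw [h3]) (Or.inl (by rw [h3]; exact c.X_lt_succ h5))]
      rw [h3, sub_self, c.Tm_src h5, c.src_succ hi]
      have : c.X (i + 1) - c.X i = N.Dl (c.e i) := by rw [X_succ]; ring
      rw [this, c.Tm_tgt hi]
  · unfold b; rw [c.ix_eq hi h1 (Or.inl h3)]

theorem b_dir {i : ℕ} (hi : i < c.n) {x : ℝ} (h1 : c.X i ≤ x) (h2 : x ≤ c.X (i + 1)) :
    (c.b x : ℂ) * dir x = N.z (c.e i) (N.Tm (c.e i) (x - c.X i)) := by
  rw [c.b_eq hi h1 h2]
  have h3 : x - c.X i ∈ Icc 0 (N.Dl (c.e i)) := by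
    rw [X_succ] at h2; exact ⟨by linarith, by linarith⟩
  rw [(c.e_ccw hi).z_Tm h3 (c.src_e hi)]
  congr 2; ring

theorem exists_piece {x : ℝ} (h : x ∈ Icc c.s c.t) : ∃ i < c.n, c.X i ≤ x ∧ x ≤ c.X (i + 1) := by
  refine ⟨c.ix x, c.ix_lt x, ?_, ?_⟩
  · have := Nat.findGreatest_spec (P := fun i => c.X i ≤ x) (m := 0) (n := c.n - 1) (by omega) h.1
    exact this
  · by_cases h1 : c.ix x + 1 = c.n
    · rw [h1]; exact h.2
    · by_contra hcon
      push Not at hcon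
      have h2 := c.ix_lt x
      have := Nat.findGreatest_is_greatest (P := fun i => c.X i ≤ x) (k := c.ix x + 1)
        (n := c.n - 1) (by unfold ix; omega) (by omega)
      exact this hcon.le

open Classical in
/-- corners of the chain -/
def C : Finset ℝ := (Finset.Ico 1 c.n).image c.X

theorem mem_C {x : ℝ} : x ∈ c.C ↔ ∃ i, 1 ≤ i ∧ i < c.n ∧ c.X i = x := by
  simp [C, and_assoc]

theorem sub_mem {i : ℕ} {x : ℝ} (h1 : c.X i ≤ x) (h2 : x ≤ c.X (i + 1)) :
    x - c.X i ∈ Icc 0 (N.Dl (c.e i)) := by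
  rw [X_succ] at h2; exact ⟨by linarith, by linarith⟩

theorem sub_mem' {i : ℕ} {x : ℝ} (h1 : c.X i < x) (h2 : x < c.X (i + 1)) :
    x - c.X i ∈ Ioo 0 (N.Dl (c.e i)) := by
  rw [X_succ] at h2; exact ⟨by linarith, by linarith⟩

theorem cont_b_piece {i : ℕ} (hi : i < c.n) : ContinuousOn c.b (Icc (c.X i) (c.X (i + 1))) := by
  have h1 : ContinuousOn (fun x => N.Rr (c.e i) (x - c.X i)) (Icc (c.X i) (c.X (i + 1))) :=
    (c.e_ccw hi).continuousOn_Rr.comp (by fun_prop) (fun x hx => c.sub_mem hx.1 hx.2)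
  exact h1.congr (fun x hx => c.b_eq hi hx.1 hx.2)

theorem cont_b {m : ℕ} (hm : m ≤ c.n) : ContinuousOn c.b (Icc (c.X 0) (c.X m)) := by
  induction m with
  | zero => simp
  | succ m ih =>
    have h1 : Icc (c.X 0) (c.X (m + 1)) = Icc (c.X 0) (c.X m) ∪ Icc (c.X m) (c.X (m + 1)) :=
      (Icc_union_Icc_eq_Icc (c.X_le (by omega) (by omega)) (c.X_le (by omega) hm)).symm
    rw [h1]
    exact (ih (by omega)).union_of_isClosed (c.cont_b_piece (by omega)) isClosed_Icc isClosed_Icc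

theorem b_near {i : ℕ} (hi : i < c.n) {x : ℝ} (h1 : c.X i < x) (h2 : x < c.X (i + 1)) :
    c.b =ᶠ[𝓝 x] fun y => N.Rr (c.e i) (y - c.X i) := by
  filter_upwards [Ioo_mem_nhds h1 h2] with y hy using c.b_eq hi hy.1.le hy.2.le

theorem β_near {i : ℕ} (hi : i < c.n) {x : ℝ} (h1 : c.X i < x) (h2 : x < c.X (i + 1)) :
    c.β =ᶠ[𝓝 x] fun y => N.Bb (c.e i) (y - c.X i) := by
  filter_upwards [Ioo_mem_nhds h1 h2] with y hy using c.β_eq hi hy.1.le (Or.inl hy.2)

/-- strict version: a non corner interior angle is strictly inside a piece -/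
theorem exists_piece' {x : ℝ} (h : x ∈ Ioo c.s c.t) (hx : x ∉ c.C) :
    ∃ i < c.n, c.X i < x ∧ x < c.X (i + 1) := by
  obtain ⟨i, hi, h1, h2⟩ := c.exists_piece (Ioo_subset_Icc_self h)
  refine ⟨i, hi, lt_of_le_of_ne h1 ?_, lt_of_le_of_ne h2 ?_⟩
  · intro h3
    rcases Nat.eq_zero_or_pos i with h4 | h4
    · rw [h4] at h3; exact absurd h.1 (by rw [s, h3]; exact lt_irrefl _)
    · exact hx (c.mem_C.2 ⟨i, h4, hi, h3⟩)
  · intro h3
    by_cases h4 : i + 1 = c.n
    · rw [h4] at h3; exact absurd h.2 (by rw [t, ← h3]; exact lt_irrefl _)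
    · exact hx (c.mem_C.2 ⟨i + 1, by omega, by omega, h3.symm⟩)

theorem tendsto_β_right {i : ℕ} (hi : i < c.n) :
    Tendsto c.β (𝓝[>] (c.X i)) (𝓝 (N.ps (c.e i) 0)) := by
  have h0 := (c.e_ccw hi).continuousOn_Bb 0 ⟨le_rfl, (c.e_ccw hi).Dl_pos.le⟩
  have h1 : Tendsto (fun x => N.Bb (c.e i) (x - c.X i)) (𝓝[>] (c.X i))
      (𝓝 (N.Bb (c.e i) 0)) := by
    apply h0.tendsto.comp
    apply tendsto_nhdsWithin_iff.2
    refine ⟨?_, ?_⟩
    · have : Tendsto (fun x => x - c.X i) (𝓝 (c.X i)) (𝓝 (c.X i - c.X i)) :=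
        (continuous_id.sub continuous_const).tendsto _
      rw [sub_self] at this
      exact this.mono_left nhdsWithin_le_nhds
    · filter_upwards [Ioo_mem_nhdsGT (c.X_lt_succ hi)] with y hy
      exact c.sub_mem hy.1.le hy.2.le
  have h2 : N.Bb (c.e i) 0 = N.ps (c.e i) 0 := by rw [Net.Bb, (c.e_ccw hi).Tm_zero]
  rw [h2] at h1
  apply h1.congr'
  filter_upwards [Ioo_mem_nhdsGT (c.X_lt_succ hi)] with y hy
  exact (c.β_eq hi hy.1.le (Or.inl hy.2)).symm

theorem tendsto_β_left {i : ℕ} (hi : i < c.n) :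
    Tendsto c.β (𝓝[<] (c.X (i + 1))) (𝓝 (N.ps (c.e i) (N.L (c.e i)))) := by
  have h0 := (c.e_ccw hi).continuousOn_Bb (N.Dl (c.e i)) ⟨(c.e_ccw hi).Dl_pos.le, le_rfl⟩
  have h1 : Tendsto (fun x => N.Bb (c.e i) (x - c.X i)) (𝓝[<] (c.X (i + 1)))
      (𝓝 (N.Bb (c.e i) (N.Dl (c.e i)))) := by
    apply h0.tendsto.comp
    apply tendsto_nhdsWithin_iff.2
    refine ⟨?_, ?_⟩
    · have : Tendsto (fun x => x - c.X i) (𝓝 (c.X (i + 1))) (𝓝 (c.X (i + 1) - c.X i)) :=
        (continuous_id.sub continuous_const).tendsto _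
      have e : c.X (i + 1) - c.X i = N.Dl (c.e i) := by rw [X_succ]; ring
      rw [e] at this
      exact this.mono_left nhdsWithin_le_nhds
    · filter_upwards [Ioo_mem_nhdsLT (c.X_lt_succ hi)] with y hy
      exact c.sub_mem hy.1.le hy.2.le
  have h2 : N.Bb (c.e i) (N.Dl (c.e i)) = N.ps (c.e i) (N.L (c.e i)) := by
    rw [Net.Bb, (c.e_ccw hi).Tm_Dl]
  rw [h2] at h1
  apply h1.congr'
  filter_upwards [Ioo_mem_nhdsLT (c.X_lt_succ hi)] with y hy
  exact (c.β_eq hi hy.1.le (Or.inl hy.2)).symm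

theorem ps_succ {i : ℕ} (hi : i + 1 < c.n) :
    N.ps (c.e (i + 1)) 0 = N.ps (c.e i) (N.L (c.e i)) + sg c.σ * (Real.pi / 3) := by
  have h1 : N.CCW (N.stp c.σ (c.e i)) := by rw [← e_succ]; exact c.e_ccw hi
  rw [e_succ]; exact (c.e_ccw (by omega)).ps_stp h1

theorem β_s : c.β c.s = N.ps c.d0 0 := by
  rw [s, c.β_eq c.npos le_rfl, sub_self, Net.Bb, (c.e_ccw c.npos).Tm_zero]; rfl
  left; exact c.X_lt_succ c.npos

theorem β_t : c.β c.t = N.ps (c.e (c.n - 1)) (N.L (c.e (c.n - 1))) := by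
  have hn := c.npos
  have h1 : c.n - 1 < c.n := by omega
  have h2 : c.n - 1 + 1 = c.n := by omega
  have h3 : c.X (c.n - 1) ≤ c.X c.n := c.X_le (by omega) le_rfl
  rw [t, c.β_eq h1 h3 (Or.inr h2)]
  have e : c.X c.n - c.X (c.n - 1) = N.Dl (c.e (c.n - 1)) := by
    conv_lhs => rw [← h2, X_succ]
    simp
  rw [e, Net.Bb, (c.e_ccw h1).Tm_Dl]

theorem b_s : c.b c.s = ‖N.src c.d0‖ := by
  rw [s, c.b_eq c.npos le_rfl (c.X_lt_succ c.npos).le, sub_self, c.Tm_src c.npos]; rfl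

theorem b_t : c.b c.t = ‖N.tgt (c.e (c.n - 1))‖ := by
  have hn := c.npos
  have h1 : c.n - 1 < c.n := by omega
  have h2 : c.n - 1 + 1 = c.n := by omega
  have h3 : c.X (c.n - 1) ≤ c.X c.n := c.X_le (by omega) le_rfl
  rw [t, c.b_eq h1 h3 (by rw [h2])]
  have e : c.X c.n - c.X (c.n - 1) = N.Dl (c.e (c.n - 1)) := by
    conv_lhs => rw [← h2, X_succ]
    simp
  rw [e, c.Tm_tgt h1]

theorem chain : Chain (sg c.σ) c.b c.β c.C c.s c.t where
  lt := c.s_lt_t
  corners := by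
    intro x hx
    obtain ⟨i, h1, h2, rfl⟩ := c.mem_C.1 hx
    exact ⟨c.X_lt (by omega) (by omega), c.X_lt h2 le_rfl⟩
  cont := c.cont_b le_rfl
  pos := by
    intro x hx
    obtain ⟨i, hi, h1, h2⟩ := c.exists_piece hx
    rw [c.b_eq hi h1 h2]
    exact (c.e_ccw hi).Rr_pos (c.sub_mem h1 h2)
  contβ := by
    intro x hx hxC
    rcases eq_or_lt_of_le hx.1 with h1 | h1
    · -- left end
      rw [← h1]
      have h2 := c.tendsto_β_right c.npos
      have h3 : N.ps (c.e 0) 0 = c.β c.s := c.β_s.symm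
      rw [h3] at h2
      have h4 : ContinuousWithinAt c.β (Ioi c.s) c.s := h2
      have h5 : ContinuousWithinAt c.β (Ici c.s) c.s := by
        rw [← continuousWithinAt_Ioi_iff_Ici]; exact h4
      exact h5.mono (fun y hy => hy.1)
    · rcases eq_or_lt_of_le hx.2 with h2 | h2
      · rw [h2]
        have hn := c.npos
        have h3 := c.tendsto_β_left (i := c.n - 1) (by omega)
        have h4 : c.X (c.n - 1 + 1) = c.t := by
          have : c.n - 1 + 1 = c.n := by omega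
          rw [this]; rfl
        rw [h4, ← c.β_t] at h3
        have h5 : ContinuousWithinAt c.β (Iio c.t) c.t := h3
        have h6 : ContinuousWithinAt c.β (Iic c.t) c.t := by
          rw [← continuousWithinAt_Iio_iff_Iic]; exact h5
        exact h6.mono (fun y hy => hy.2)
      · obtain ⟨i, hi, h3, h4⟩ := c.exists_piece' ⟨h1, h2⟩ hxC
        apply ContinuousAt.continuousWithinAt
        have h5 := c.β_near hi h3 h4
        rw [continuousAt_congr h5]
        have h6 : ContinuousAt (N.Bb (c.e i)) (x - c.X i) :=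
          ((c.e_ccw hi).hasDerivAt_Bb (c.sub_mem' h3 h4)).continuousAt
        exact ContinuousAt.comp (f := fun y => y - c.X i) h6 (by fun_prop)
  ang := by
    intro x hx _
    have h1 := c.ix_lt x
    unfold β
    apply (c.e_ccw h1).Bb_mem
    obtain ⟨i, hi, h2, h3⟩ := c.exists_piece hx
    rcases eq_or_lt_of_le h3 with h4 | h4
    · by_cases h5 : i + 1 = c.n
      · rw [c.ix_eq hi h2 (Or.inr h5)]; exact c.sub_mem h2 h3
      · have h6 : i + 1 < c.n := by omega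
        rw [c.ix_eq h6 (by rw [h4]) (Or.inl (by rw [h4]; exact c.X_lt_succ h6))]
        exact c.sub_mem (by rw [h4]) (by rw [h4]; exact (c.X_lt_succ h6).le)
    · rw [c.ix_eq hi h2 (Or.inl h4)]; exact c.sub_mem h2 h3
  db := by
    intro x hx hxC
    obtain ⟨i, hi, h3, h4⟩ := c.exists_piece' hx hxC
    have h5 := ((c.e_ccw hi).hasDerivAt_Rr (c.sub_mem' h3 h4)).comp_sub_const x (c.X i)
    have h6 := h5.congr_of_eventuallyEq (c.b_near hi h3 h4)
    rw [c.b_eq hi h3.le h4.le, c.β_eq hi h3.le (Or.inl h4)]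
    exact h6
  dβ := by
    intro x hx hxC
    obtain ⟨i, hi, h3, h4⟩ := c.exists_piece' hx hxC
    have h5 := ((c.e_ccw hi).hasDerivAt_Bb (c.sub_mem' h3 h4)).comp_sub_const x (c.X i)
    have h6 := h5.congr_of_eventuallyEq (c.β_near hi h3 h4)
    rw [c.b_eq hi h3.le h4.le]
    exact h6
  jump := by
    intro x hx
    obtain ⟨i, h1, h2, rfl⟩ := c.mem_C.1 hx
    obtain ⟨j, rfl⟩ : ∃ j, i = j + 1 := ⟨i - 1, by omega⟩
    have h3 := c.ps_succ h2
    refine ⟨N.ps (c.e j) (N.L (c.e j)), (c.e_ccw (by omega)).ps_mem (N.L_mem_dom _), ?_, ?_, ?_⟩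
    · rw [← h3]; exact (c.e_ccw h2).ps_mem (N.zero_mem_dom _)
    · exact c.tendsto_β_left (by omega)
    · rw [← h3]; exact c.tendsto_β_right h2

end CS

end

end Pool.Agent.MP_4c0f47_an
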