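import Pool.Agent.Lib.MP_4c0f47_an.TwoCount

set_option autoImplicit false

open Set Filter Topology Complex MeasureTheory

namespace Pool.Agent.MP_4c0f47_an

noncomputable section

/-- energy/radius gaps exist for every cell (proved in GapLevel) -/
def GapLevels : Prop := ∀ (a α b β : ℝ → ℝ) (Ca Cb : Finset ℝ) (s t : ℝ) (i j : ℕ),
  Cell a α b β Ca Cb s t i j → ∀ ρ : ℝ, 1 ≤ ρ →
    ∃ k : ℕ, k < 13 ∧ Gap a α b β Ca Cb s t (ρ + 2 * k) (ρ + 2 * k + 1)

namespace Swp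

variable {N : Net} (S : Swp N)

theorem T_eq1 : S.T = S.co.t := S.closing.1
theorem T_eq2 : S.T = S.ci.t := S.closing.2.1

/-- adjacent inner corners bound an inner edge -/
theorem adj {x y : ℝ} (hxy : x < y) (hx : x ∈ S.ci.C ∨ x = S.ϑ) (hy : y ∈ S.ci.C ∨ y = S.T)
    (hC : ∀ c ∈ S.ci.C, c ∉ Ioo x y) : ∃ j < S.ci.n, x = S.ci.X j ∧ y = S.ci.X (j + 1) := by
  have hn := S.ci.npos
  obtain ⟨i, hi, hxi⟩ : ∃ i < S.ci.n, S.ci.X i = x := by
    rcases hx with h | h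
    · obtain ⟨i, _, h2, h3⟩ := S.ci.mem_C.1 h
      exact ⟨i, h2, h3⟩
    · exact ⟨0, hn, by rw [h]; exact S.ciX⟩
  obtain ⟨k, hk, hk1, hyk⟩ : ∃ k ≤ S.ci.n, 1 ≤ k ∧ S.ci.X k = y := by
    rcases hy with h | h
    · obtain ⟨k, h1, h2, h3⟩ := S.ci.mem_C.1 h
      exact ⟨k, h2.le, h1, h3⟩
    · exact ⟨S.ci.n, le_rfl, hn, by rw [h, S.T_eq2]; rfl⟩
  have hik : i < k := by
    by_contra hcon
    push Not at hcon
    have := S.ci.X_le hcon hi.le
    linarith
  refine ⟨i, hi, hxi.symm, ?_⟩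
  by_cases h1 : k = i + 1
  · rw [← h1, hyk]
  · exfalso
    have h2 : i + 1 < k := by omega
    have h3 : S.ci.X (i + 1) ∈ S.ci.C := S.ci.mem_C.2 ⟨i + 1, by omega, by omega, rfl⟩
    apply hC _ h3
    constructor
    · rw [← hxi]; exact S.ci.X_lt_succ hi
    · rw [← hyk]; exact S.ci.X_lt h2 hk

end Swp

namespace Net

variable {N : Net}

/-- inner arcs of V type, i.e. reversed arcs of N type -/
def Vt (g : N.D) : Prop := N.CCW g ∧ Real.pi / 3 ≤ N.ps g 0 ∧ N.ps g (N.L g) < 2 * Real.pi / 3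

end Net

namespace Swp

variable {N : Net} (S : Swp N)

theorem vt_of {x y : ℝ} {j : ℕ} (hj : j < S.ci.n) (hx : x = S.ci.X j) (hy : y = S.ci.X (j + 1))
    (h1 : ∃ l, Real.pi / 3 ≤ l ∧ Tendsto S.α (𝓝[>] x) (𝓝 l))
    (h2 : ∃ l, l < 2 * Real.pi / 3 ∧ Tendsto S.α (𝓝[<] y) (𝓝 l)) : N.Vt (S.ci.e j) := by
  refine ⟨S.ci.e_ccw hj, ?_, ?_⟩
  · obtain ⟨l, h3, h4⟩ := h1
    rw [hx] at h4
    have := tendsto_nhds_unique h4 (S.ci.tendsto_β_right hj)
    rw [← this]; exact h3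
  · obtain ⟨l, h3, h4⟩ := h2
    rw [hy] at h4
    have := tendsto_nhds_unique h4 (S.ci.tendsto_β_left hj)
    rw [← this]; exact h3

theorem exists_vt : ∃ j < S.ci.n, N.Vt (S.ci.e j) := by
  obtain ⟨i, j, hc⟩ := S.cell
  obtain ⟨x, y, hxy, hx, hy, hC, h1, h2⟩ := hc.exists_V
  obtain ⟨j, hj, hxj, hyj⟩ := S.adj hxy hx hy hC
  exact ⟨j, hj, S.vt_of hj hxj hyj h1 h2⟩

/-- an outer edge of N type lies between two outer corners -/
theorem corners_of {i j : ℕ} (hc : Cell S.a S.α S.b S.β S.ci.C S.co.C S.ϑ S.T i j) {m : ℕ}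
    (hm : m < S.co.n) (hg : N.Vt (S.co.e m)) (h1 : 1 ≤ m ∨ N.Out S.e) :
    S.co.X m < S.co.X (m + 1) ∧ (S.co.X m ∈ S.co.C ∨ (S.co.X m = S.ϑ ∧ i = 2)) ∧
      (S.co.X (m + 1) ∈ S.co.C ∨ (S.co.X (m + 1) = S.T ∧ j = 2)) := by
  refine ⟨S.co.X_lt_succ hm, ?_, ?_⟩
  · by_cases h2 : 1 ≤ m
    · left
      exact S.co.mem_C.2 ⟨m, h2, hm, rfl⟩
    · right
      have h3 : m = 0 := by omega
      subst h3
      refine ⟨S.coX, ?_⟩
      have hO : N.Out S.e := by
        rcases h1 with h1 | h1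
        · exact absurd h1 h2
        · exact h1
      rcases hc.left with ⟨h4, h5, _⟩ | ⟨h4, _⟩
      · exfalso
        rcases S.cod with ⟨h6, _⟩ | ⟨_, h6⟩
        · exact h6.ne_of_E hO.1 rfl
        · have hlc := hO.left_ccw S.tip.1 S.hϑ
          have hbs := S.co.b_s
          rw [S.co_s, h6, hlc.2.2.2] at hbs
          have hb : S.b S.ϑ = S.co.b S.ϑ := rfl
          rw [S.a_start, hb, hbs] at h5
          linarith [N.L_pos S.e]
      · exact h4
  · left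
    by_contra hcon
    have h2 : m + 1 = S.co.n := by
      by_contra h3
      exact hcon (S.co.mem_C.2 ⟨m + 1, by omega, by omega, rfl⟩)
    have h3 : S.co.last = S.co.e m := by rw [CS.last]; congr 1; omega
    have h4 : S.β S.T = N.ps (S.co.e m) (N.L (S.co.e m)) := by
      have := S.co.β_t'
      rw [h3, ← S.T_eq1] at this
      exact this
    have h5 := hg.2.2
    rw [← h4] at h5
    have hα : 0 < S.α S.T := by
      have := (S.chain_ci.ang S.T ⟨S.lt_T.le, S.T_le2⟩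
        (by rw [S.T_eq2]; exact S.ci.chain.t_notMem)).1
      exact this
    rcases hc.right with ⟨_, _, h6⟩ | ⟨_, _, h6, _⟩
    · rw [h6] at h5; linarith
    · rw [h6] at h5; linarith

theorem co_n_le {i j : ℕ} (hc : Cell S.a S.α S.b S.β S.ci.C S.co.C S.ϑ S.T i j) :
    S.co.n ≤ 4 := by
  have h1 := hc.count
  have h2 := S.co.card_C
  have h3 := S.co.npos
  rcases hc.i_mem with h4 | h4 <;> rcases hc.j_mem with h5 | h5 <;> omega

variable {S}

theorem co_d0 {S' : Swp N} (h : S.e = S'.e) : S.co.d0 = S'.co.d0 := by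
  rcases S.cod with ⟨h1, h2⟩ | ⟨h1, h2⟩ <;> rcases S'.cod with ⟨h3, h4⟩ | ⟨h3, h4⟩
  · rw [h2, h4, h]
  · rw [← h] at h3; exact absurd rfl (h1.ne_of_E h3.1)
  · rw [← h] at h3; exact absurd rfl (h3.ne_of_E h1.1)
  · rw [h2, h4, h]

end Swp

namespace Net

variable {N : Net}

open Classical in
/-- type one arcs are at most four times as many as tips -/
theorem card_type1 (G U : Finset N.D) (h : ∀ g ∈ G, ∃ S : Swp N, ∃ m, m < S.co.n ∧
    S.co.e m = g ∧ S.e ∈ U) : G.card ≤ 4 * U.card := by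
  have key : G ⊆ (U ×ˢ Finset.range 4).image
      (fun p => (N.left)^[p.2] (if N.CCW p.1 then p.1 else N.left p.1)) := by
    intro g hg
    obtain ⟨S, m, hm, he, hU⟩ := h g hg
    obtain ⟨i, j, hc⟩ := S.cell
    have h4 := S.co_n_le hc
    rw [Finset.mem_image]
    refine ⟨(S.e, m), ?_, ?_⟩
    · rw [Finset.mem_product, Finset.mem_range]
      exact ⟨hU, by show m < 4; omega⟩
    · show (N.left)^[m] (if N.CCW S.e then S.e else N.left S.e) = g
      rw [← he, CS.e, S.coσ]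
      have : S.co.d0 = (if N.CCW S.e then S.e else N.left S.e) := by
        rcases S.cod with ⟨h1, h2⟩ | ⟨h1, h2⟩
        · rw [if_pos h1, h2]
        · rw [if_neg (fun h3 => h3.ne_of_E h1.1 rfl), h2]
      rw [this]; rfl
  refine (Finset.card_le_card key).trans (Finset.card_image_le.trans ?_)
  rw [Finset.card_product, Finset.card_range]
  omega

/-- tips are determined by inner arcs -/
theorem card_inner (U G : Finset N.D) (h : ∀ e ∈ U, ∃ S : Swp N, S.e = e ∧ ∃ j < S.ci.n,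
    S.ci.e j ∈ G) : U.card ≤ G.card := by
  classical
  have h' : ∀ e : N.D, ∃ g : N.D, e ∈ U → g ∈ G ∧ ∃ S : Swp N, S.e = e ∧ ∃ j < S.ci.n,
      S.ci.e j = g := by
    intro e
    by_cases he : e ∈ U
    · obtain ⟨S, h1, j, hj, h2⟩ := h e he
      exact ⟨_, fun _ => ⟨h2, S, h1, j, hj, rfl⟩⟩
    · exact ⟨e, fun h3 => absurd h3 he⟩
  choose f hf using h'
  apply Finset.card_le_card_of_injOn f
  · intro e he
    exact (hf e he).1
  · intro e he e' he' heq
    obtain ⟨S, h1, j, hj, h2⟩ := (hf e he).2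
    obtain ⟨S', h1', j', hj', h2'⟩ := (hf e' he').2
    have := (Swp.e_of_ci hj hj' (by rw [h2, h2', heq])).2
    rw [h1, h1'] at this
    exact this

theorem card_area (U : Finset N.D) {R δ : ℝ} (hR : 0 ≤ R) (hδ : 0 < δ)
    (h : ∀ e ∈ U, ∃ S : Swp N, S.e = e ∧
      ENNReal.ofReal δ ≤ volume (S.img ∩ Metric.ball 0 R)) :
    (U.card : ℝ) * δ ≤ Real.pi * R ^ 2 := by
  classical
  have h' : ∀ e : N.D, ∃ A : Set ℂ, e ∈ U → ∃ S : Swp N, S.e = e ∧ A = S.img ∧
      ENNReal.ofReal δ ≤ volume (S.img ∩ Metric.ball 0 R) := by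
    intro e
    by_cases he : e ∈ U
    · obtain ⟨S, h1, h2⟩ := h e he
      exact ⟨S.img, fun _ => ⟨S, h1, rfl, h2⟩⟩
    · exact ⟨∅, fun h3 => absurd h3 he⟩
  choose A hA using h'
  apply card_le_of_area U A
  · intro e he
    obtain ⟨S, _, h2, _⟩ := hA e he
    rw [h2]; exact S.measurableSet_img
  · intro e he e' he' hne
    obtain ⟨S, h1, h2, _⟩ := hA e he
    obtain ⟨S', h1', h2', _⟩ := hA e' he'
    rw [h2, h2']
    apply Swp.disjoint_img
    rw [h1, h1']; exact hne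
  · exact hR
  · exact hδ
  · intro e he
    obtain ⟨S, _, h2, h3⟩ := hA e he
    rw [h2]; exact h3

end Net

end

end Pool.Agent.MP_4c0f47_an
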