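import Pool.Agent.Lib.MP_4c0f47_an.Faces

set_option autoImplicit false

open Set Filter Topology Complex MeasureTheory

namespace Pool.Agent.MP_4c0f47_an

noncomputable section

theorem sign_const {f : ℝ → ℝ} (hf : ContinuousOn f (Ici 0)) (h : ∀ x, 0 ≤ x → f x ≠ 0) :
    (∀ x, 0 ≤ x → 0 < f x) ∨ (∀ x, 0 ≤ x → f x < 0) := by
  by_contra hcon
  push Not at hcon
  obtain ⟨⟨x, hx, hfx⟩, ⟨y, hy, hfy⟩⟩ := hcon
  obtain ⟨w, hw, hfw⟩ := isPreconnected_Ici.intermediate_value hx hy hf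
    (show (0:ℝ) ∈ Icc (f x) (f y) from ⟨hfx, hfy⟩)
  exact h w hw hfw

namespace Net

variable {N : Net}

/-- all edges of the `left` orbit are counterclockwise -/
def Cyc (g : N.D) : Prop := ∀ k, N.CCW (N.left^[k] g)

theorem Cyc.ccw {g : N.D} (h : N.Cyc g) : N.CCW g := h 0

theorem Cyc.iter {g : N.D} (h : N.Cyc g) (i : ℕ) : N.Cyc (N.left^[i] g) := by
  intro k
  rw [← Function.iterate_add_apply]; exact h _

theorem Cyc.period {g : N.D} (h : N.Cyc g) : ∃ P, 0 < P ∧ N.left^[P] g = g := by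
  obtain ⟨i, j, hij, he⟩ := Finite.exists_ne_map_eq_of_infinite (fun n : ℕ => N.left^[n] g)
  have key : ∀ i j : ℕ, i < j → N.left^[i] g = N.left^[j] g → ∃ P, 0 < P ∧ N.left^[P] g = g := by
    intro i
    induction i with
    | zero => intro j hj he; exact ⟨j, hj, he.symm⟩
    | succ i ih =>
      intro j hj he
      obtain ⟨k, rfl⟩ : ∃ k, j = k + 1 := ⟨j - 1, by omega⟩
      rw [Function.iterate_succ_apply', Function.iterate_succ_apply'] at he
      exact ih k (by omega) (left_injective_on (h i).arc (h k).arc he)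
  rcases lt_or_gt_of_ne hij with h1 | h1
  · exact key i j h1 he
  · exact key j i h1 he.symm

theorem Cyc.pred {g : N.D} (h : N.Cyc g) : ∃ p, N.Cyc p ∧ N.left p = g := by
  obtain ⟨P, hP, he⟩ := h.period
  obtain ⟨k, rfl⟩ : ∃ k, P = k + 1 := ⟨P - 1, by omega⟩
  exact ⟨N.left^[k] g, h.iter k, (Function.iterate_succ_apply' N.left k g).symm.trans he⟩

theorem Cyc.rot_not {g : N.D} (h : N.Cyc g) : ¬ N.CCW (N.rot g) := by
  obtain ⟨p, hp, rfl⟩ := h.pred
  have : N.rot (N.left p) = N.rev p := by rw [left, N.rot3]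
  rw [this]; exact hp.ccw.not_rev

theorem Cyc.src_inj {g h : N.D} (hg : N.Cyc g) (hh : N.Cyc h) (he : N.src g = N.src h) :
    g = h := by
  rcases vertex_cases he with h1 | h1 | h1
  · exact h1
  · exfalso
    apply hh.rot_not
    rw [← h1]; exact hg.ccw
  · exfalso
    apply hg.rot_not
    rw [h1, N.rot3]; exact hh.ccw

theorem Cyc.inj {g h : N.D} (hg : N.Cyc g) (hh : N.Cyc h) {t u : ℝ} (ht0 : 0 ≤ t)
    (ht1 : t < N.L g) (hu0 : 0 ≤ u) (hu1 : u < N.L h) (he : N.z g t = N.z h u) :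
    g = h ∧ t = u := by
  rcases eq_or_lt_of_le ht0 with h1 | h1
  · rcases eq_or_lt_of_le hu0 with h2 | h2
    · have ht : t = 0 := h1.symm
      have hu : u = 0 := h2.symm
      rw [ht, hu] at he
      exact ⟨hg.src_inj hh he, by rw [ht, hu]⟩
    · rcases N.inj h g u t h2 (Or.inr hu1) ht0 (Or.inr ht1.le) he.symm with ⟨h3, h4⟩ | ⟨_, h3, _⟩
      · exact ⟨h3, h4⟩
      · exact absurd (h3 ▸ hg.ccw) hh.ccw.not_rev
  · rcases N.inj g h t u h1 (Or.inr ht1) hu0 (Or.inr hu1.le) he with ⟨h3, h4⟩ | ⟨_, h3, _⟩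
    · exact ⟨h3.symm, h4.symm⟩
    · exact absurd (h3 ▸ hh.ccw) hg.ccw.not_rev

/-- angles of the vertices of the orbit -/
def Y (g : N.D) : ℕ → ℝ
  | 0 => 0
  | i + 1 => Y g i + N.Dl (N.left^[i] g)

theorem Y_zero (g : N.D) : N.Y g 0 = 0 := rfl
theorem Y_succ (g : N.D) (i : ℕ) : N.Y g (i + 1) = N.Y g i + N.Dl (N.left^[i] g) := rfl

theorem Cyc.Y_lt {g : N.D} (h : N.Cyc g) : StrictMono (N.Y g) := by
  apply strictMono_nat_of_lt_succ
  intro n
  rw [Y_succ]; linarith [(h n).Dl_pos]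

theorem Cyc.Y_nonneg {g : N.D} (h : N.Cyc g) (i : ℕ) : 0 ≤ N.Y g i := by
  have := h.Y_lt.monotone (Nat.zero_le i)
  rwa [Y_zero] at this

theorem Y_add (g : N.D) (i j : ℕ) : N.Y g (i + j) = N.Y g i + N.Y (N.left^[i] g) j := by
  induction j with
  | zero => rw [Y_zero]; simp
  | succ j ih =>
    rw [← add_assoc, Y_succ, ih, Y_succ, ← Function.iterate_add_apply, add_comm j i]; ring

theorem exists_Dl_min (N : Net) : ∃ δ > 0, ∀ d : N.D, N.CCW d → δ ≤ N.Dl d := by
  classical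
  by_cases hne : (Finset.univ.filter (fun d : N.D => N.CCW d)).Nonempty
  · obtain ⟨d0, hd0, hmin⟩ := Finset.exists_min_image _ N.Dl hne
    have h0 : N.CCW d0 := (Finset.mem_filter.1 hd0).2
    exact ⟨N.Dl d0, h0.Dl_pos, fun d hd => hmin d (Finset.mem_filter.2 ⟨Finset.mem_univ _, hd⟩)⟩
  · refine ⟨1, one_pos, fun d hd => ?_⟩
    exact absurd ⟨d, Finset.mem_filter.2 ⟨Finset.mem_univ _, hd⟩⟩ hne

theorem Cyc.exists_Y_gt {g : N.D} (h : N.Cyc g) (x : ℝ) : ∃ i, x < N.Y g i := by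
  obtain ⟨δ, hδ, h1⟩ := N.exists_Dl_min
  have h2 : ∀ i : ℕ, i * δ ≤ N.Y g i := by
    intro i
    induction i with
    | zero => rw [Y_zero]; simp
    | succ i ih =>
      rw [Y_succ]; push_cast
      linarith [h1 _ (h i)]
  obtain ⟨i, hi⟩ := exists_nat_gt (x / δ)
  refine ⟨i, lt_of_lt_of_le ?_ (h2 i)⟩
  rwa [div_lt_iff₀ hδ] at hi

theorem Cyc.exists_idx {g : N.D} (h : N.Cyc g) {x : ℝ} (hx : 0 ≤ x) :
    ∃ i, N.Y g i ≤ x ∧ x < N.Y g (i + 1) := by
  classical
  have hex : ∃ i, x < N.Y g i := h.exists_Y_gt x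
  have h1 := Nat.find_spec hex
  have h0 : 0 < Nat.find hex := by
    rw [Nat.find_pos, Y_zero]; linarith
  obtain ⟨k, hk⟩ : ∃ k, Nat.find hex = k + 1 := ⟨Nat.find hex - 1, by omega⟩
  refine ⟨k, ?_, hk ▸ h1⟩
  have := Nat.find_min hex (m := k) (by omega)
  exact not_lt.1 this

/-- index of the edge at angle `x` -/
def idx (g : N.D) (x : ℝ) : ℕ := sInf {i | x < N.Y g (i + 1)}

theorem Cyc.idx_eq {g : N.D} (h : N.Cyc g) {x : ℝ} {i : ℕ} (h1 : N.Y g i ≤ x)
    (h2 : x < N.Y g (i + 1)) : N.idx g x = i := by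
  apply IsLeast.csInf_eq
  refine ⟨h2, ?_⟩
  intro j hj
  have hj' : x < N.Y g (j + 1) := hj
  have h3 : N.Y g i < N.Y g (j + 1) := h1.trans_lt hj'
  have := h.Y_lt.lt_iff_lt.1 h3
  omega

/-- radius along the orbit, as a function of the swept angle -/
def bb (g : N.D) (x : ℝ) : ℝ := N.Rr (N.left^[N.idx g x] g) (x - N.Y g (N.idx g x))

theorem Cyc.bb_eq {g : N.D} (h : N.Cyc g) {x : ℝ} {i : ℕ} (h1 : N.Y g i ≤ x)
    (h2 : x ≤ N.Y g (i + 1)) : N.bb g x = N.Rr (N.left^[i] g) (x - N.Y g i) := by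
  rcases eq_or_lt_of_le h2 with h3 | h3
  · have h4 : N.idx g x = i + 1 := h.idx_eq h3.ge (by rw [h3]; exact h.Y_lt (by omega))
    unfold bb
    rw [h4, h3, sub_self]
    have h5 : N.Y g (i + 1) - N.Y g i = N.Dl (N.left^[i] g) := by rw [Y_succ]; ring
    rw [h5, Rr, Rr, (h i).Tm_Dl, (h (i + 1)).Tm_zero]
    have h6 : N.src (N.left^[i + 1] g) = N.tgt (N.left^[i] g) := by
      rw [Function.iterate_succ_apply', N.src_left (h i).arc]
    have h7 : N.z (N.left^[i + 1] g) 0 = N.z (N.left^[i] g) (N.L (N.left^[i] g)) := h6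
    rw [h7]
  · unfold bb
    rw [h.idx_eq h1 h3]

theorem Cyc.src_polar {g : N.D} (h : N.Cyc g) {θ : ℝ} (hθ : N.src g = (‖N.src g‖ : ℂ) * dir θ)
    (i : ℕ) : N.src (N.left^[i] g) = (‖N.src (N.left^[i] g)‖ : ℂ) * dir (θ + N.Y g i) := by
  induction i with
  | zero => rw [Y_zero, add_zero]; exact hθ
  | succ i ih =>
    rw [Function.iterate_succ_apply', N.src_left (h i).arc, Y_succ, ← add_assoc]
    exact (h i).tgt_polar ih

theorem Cyc.sub_mem {g : N.D} (_h : N.Cyc g) {x : ℝ} {i : ℕ} (h1 : N.Y g i ≤ x)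
    (h2 : x ≤ N.Y g (i + 1)) : x - N.Y g i ∈ Icc 0 (N.Dl (N.left^[i] g)) := by
  rw [Y_succ] at h2; exact ⟨by linarith, by linarith⟩

theorem Cyc.bb_pt {g : N.D} (h : N.Cyc g) {θ : ℝ} (hθ : N.src g = (‖N.src g‖ : ℂ) * dir θ)
    {x : ℝ} {i : ℕ} (h1 : N.Y g i ≤ x) (h2 : x ≤ N.Y g (i + 1)) :
    (N.bb g x : ℂ) * dir (θ + x) =
      N.z (N.left^[i] g) (N.Tm (N.left^[i] g) (x - N.Y g i)) := by
  rw [h.bb_eq h1 h2, (h i).z_Tm (h.sub_mem h1 h2) (h.src_polar hθ i)]
  congr 2; ring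

theorem Cyc.bb_pos {g : N.D} (h : N.Cyc g) {x : ℝ} (hx : 0 ≤ x) : 0 < N.bb g x := by
  obtain ⟨i, h1, h2⟩ := h.exists_idx hx
  rw [h.bb_eq h1 h2.le]
  exact (h i).Rr_pos (h.sub_mem h1 h2.le)

theorem Cyc.bb_shift {g : N.D} (h : N.Cyc g) (i : ℕ) {w : ℝ} (hw : 0 ≤ w) :
    N.bb g (N.Y g i + w) = N.bb (N.left^[i] g) w := by
  obtain ⟨j, h1, h2⟩ := (h.iter i).exists_idx hw
  rw [(h.iter i).bb_eq h1 h2.le, ← Function.iterate_add_apply, add_comm j i]
  have h3 := Y_add g i j
  have h4 := Y_add g i (j + 1)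
  rw [h.bb_eq (i := i + j) (by rw [h3]; linarith) (by rw [add_assoc, h4]; linarith), h3]
  congr 1; ring

theorem Cyc.cont_bb {g : N.D} (h : N.Cyc g) : ContinuousOn (N.bb g) (Ici 0) := by
  have hpiece : ∀ i, ContinuousOn (N.bb g) (Icc (N.Y g i) (N.Y g (i + 1))) := by
    intro i
    have h1 : ContinuousOn (fun x => N.Rr (N.left^[i] g) (x - N.Y g i))
        (Icc (N.Y g i) (N.Y g (i + 1))) :=
      (h i).continuousOn_Rr.comp (by fun_prop) (fun x hx => h.sub_mem hx.1 hx.2)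
    exact h1.congr (fun x hx => h.bb_eq hx.1 hx.2)
  have hall : ∀ m, ContinuousOn (N.bb g) (Icc (N.Y g 0) (N.Y g m)) := by
    intro m
    induction m with
    | zero => simp
    | succ m ih =>
      have h1 : Icc (N.Y g 0) (N.Y g (m + 1)) = Icc (N.Y g 0) (N.Y g m) ∪
          Icc (N.Y g m) (N.Y g (m + 1)) :=
        (Icc_union_Icc_eq_Icc (h.Y_lt.monotone (by omega)) (h.Y_lt.monotone (by omega))).symm
      rw [h1]
      exact ih.union_of_isClosed (hpiece m) isClosed_Icc isClosed_Icc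
  intro x hx
  obtain ⟨i, hi⟩ := h.exists_Y_gt x
  have h1 := hall i x ⟨by rw [Y_zero]; exact hx, hi.le⟩
  apply h1.mono_of_mem_nhdsWithin
  rw [mem_nhdsWithin]
  refine ⟨Iio (N.Y g i), isOpen_Iio, hi, ?_⟩
  rintro y ⟨hy1, hy2⟩
  exact ⟨by rw [Y_zero]; exact hy2, le_of_lt hy1⟩

/-- forward uniqueness, in a precise form -/
theorem Cyc.meet {g h : N.D} (hg : N.Cyc g) (hh : N.Cyc h) {θ η : ℝ}
    (hθ : N.src g = (‖N.src g‖ : ℂ) * dir θ) (hη : N.src h = (‖N.src h‖ : ℂ) * dir η)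
    {x y : ℝ} (hx : 0 ≤ x) (hy : 0 ≤ y) (hd : dir (θ + x) = dir (η + y))
    (hb : N.bb g x = N.bb h y) : ∃ i j, N.Y g i ≤ x ∧ N.Y h j ≤ y ∧ y < N.Y h (j + 1) ∧
      x < N.Y g (i + 1) ∧
      N.left^[i] g = N.left^[j] h ∧ x - N.Y g i = y - N.Y h j := by
  obtain ⟨i, h1, h2⟩ := hg.exists_idx hx
  obtain ⟨j, h3, h4⟩ := hh.exists_idx hy
  have e1 := hg.bb_pt hθ h1 h2.le
  have e2 := hh.bb_pt hη h3 h4.le
  have e3 : N.z (N.left^[i] g) (N.Tm (N.left^[i] g) (x - N.Y g i)) =
      N.z (N.left^[j] h) (N.Tm (N.left^[j] h) (y - N.Y h j)) := by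
    rw [← e1, ← e2, hb, hd]
  have m1 := hg.sub_mem h1 h2.le
  have m2 := hh.sub_mem h3 h4.le
  have lt1 : x - N.Y g i < N.Dl (N.left^[i] g) := by rw [Y_succ] at h2; linarith
  have lt2 : y - N.Y h j < N.Dl (N.left^[j] h) := by rw [Y_succ] at h4; linarith
  have t1 := (hg i).Tm_spec m1
  have t2 := (hh j).Tm_spec m2
  have l1 : N.Tm (N.left^[i] g) (x - N.Y g i) < N.L (N.left^[i] g) := by
    have := (hg i).Tm_lt m1.1 lt1 le_rfl
    rwa [(hg i).Tm_Dl] at this
  have l2 : N.Tm (N.left^[j] h) (y - N.Y h j) < N.L (N.left^[j] h) := by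
    have := (hh j).Tm_lt m2.1 lt2 le_rfl
    rwa [(hh j).Tm_Dl] at this
  obtain ⟨e4, e5⟩ := (hg.iter i).inj (hh.iter j) t1.1.1 l1 t2.1.1 l2 e3
  refine ⟨i, j, h1, h3, h4, h2, e4, ?_⟩
  rw [← t1.2, ← t2.2, e5, e4]

theorem Cyc.merge {g h : N.D} (hg : N.Cyc g) (hh : N.Cyc h) {θ η : ℝ}
    (hθ : N.src g = (‖N.src g‖ : ℂ) * dir θ) (hη : N.src h = (‖N.src h‖ : ℂ) * dir η)
    {x y : ℝ} (hx : 0 ≤ x) (hy : 0 ≤ y) (hd : dir (θ + x) = dir (η + y))
    (hb : N.bb g x = N.bb h y) {s : ℝ} (hs : 0 ≤ s) : N.bb g (x + s) = N.bb h (y + s) := by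
  obtain ⟨i, j, h1, h3, _, _, e4, e5⟩ := hg.meet hh hθ hη hx hy hd hb
  have a1 : x + s = N.Y g i + (x - N.Y g i + s) := by ring
  have a2 : y + s = N.Y h j + (x - N.Y g i + s) := by rw [e5]; ring
  rw [a1, a2, hg.bb_shift i (by linarith), hh.bb_shift j (by linarith), e4]

theorem dir_add_two_pi (x : ℝ) : dir (x + 2 * Real.pi) = dir x := by
  rw [dir_add, dir_two_pi, mul_one]

theorem Cyc.bb_periodic {g : N.D} (h : N.Cyc g) {x : ℝ} (hx : 0 ≤ x) :
    N.bb g (x + 2 * Real.pi) = N.bb g x := by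
  have hpi := Real.pi_pos
  set θ := Complex.arg (N.src g) with hθdef
  have hθ : N.src g = (‖N.src g‖ : ℂ) * dir θ := polar_arg _
  obtain ⟨P, hP, hPe⟩ := h.period
  have hT : ∀ w, 0 ≤ w → N.bb g (w + N.Y g P) = N.bb g w := by
    intro w hw
    rw [add_comm, h.bb_shift P hw, hPe]
  have hTk : ∀ k : ℕ, ∀ w, 0 ≤ w → N.bb g (w + k * N.Y g P) = N.bb g w := by
    intro k
    induction k with
    | zero => intro w hw; simp
    | succ k ih =>
      intro w hw
      have h1 : w + ((k + 1 : ℕ) : ℝ) * N.Y g P = (w + k * N.Y g P) + N.Y g P := by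
        push_cast; ring
      rw [h1, hT _ (by have := h.Y_nonneg P; positivity), ih w hw]
  have hYpos : 0 < N.Y g P := by
    have := h.Y_lt hP; rwa [Y_zero] at this
  -- the total angle is a multiple of `2π`
  obtain ⟨n, hn⟩ : ∃ n : ℤ, N.Y g P = n * (2 * Real.pi) := by
    have h1 := h.src_polar hθ P
    rw [hPe] at h1
    have h0 : N.src g ≠ 0 := h.ccw.ne_zero (N.zero_mem_dom g)
    have h2 := dir_eq_of_polar h0 h1 hθ
    obtain ⟨n, hn⟩ := dir_eq_iff.1 h2
    exact ⟨n, by linarith⟩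
  have hnpos : 0 < n := by
    by_contra hc
    push Not at hc
    have : (n : ℝ) ≤ 0 := by exact_mod_cast hc
    have : (n : ℝ) * (2 * Real.pi) ≤ 0 := mul_nonpos_of_nonpos_of_nonneg this (by positivity)
    linarith
  have hcont : ContinuousOn (fun x => N.bb g (x + 2 * Real.pi) - N.bb g x) (Ici 0) := by
    apply ContinuousOn.sub _ h.cont_bb
    apply h.cont_bb.comp (by fun_prop)
    intro y hy
    have : (0:ℝ) ≤ y := hy
    show (0:ℝ) ≤ y + 2 * Real.pi
    positivity
  by_cases hz : ∀ y, 0 ≤ y → N.bb g (y + 2 * Real.pi) - N.bb g y ≠ 0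
  · exfalso
    have hvals : ∀ k : ℕ, 0 ≤ 2 * Real.pi * k := fun k => by positivity
    have hend : N.bb g (2 * Real.pi * n.toNat) = N.bb g 0 := by
      have h1 := hT 0 le_rfl
      have h2 : (n.toNat : ℝ) = (n : ℝ) := by
        have : ((n.toNat : ℤ) : ℝ) = (n : ℝ) := by rw [Int.toNat_of_nonneg hnpos.le]
        exact_mod_cast this
      rw [h2]
      rw [zero_add, hn] at h1
      rw [← h1]; congr 1; ring
    have hn0 : 0 < n.toNat := by omega
    rcases sign_const hcont hz with hs | hs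
    · have hinc : ∀ k : ℕ, 0 < k → N.bb g 0 < N.bb g (2 * Real.pi * k) := by
        intro k hk
        induction k with
        | zero => omega
        | succ k ih =>
          have h1 := hs (2 * Real.pi * k) (hvals k)
          have h2 : 2 * Real.pi * ((k + 1 : ℕ) : ℝ) = 2 * Real.pi * k + 2 * Real.pi := by
            push_cast; ring
          rw [h2]
          rcases Nat.eq_zero_or_pos k with h3 | h3
          · rw [h3] at h1 ⊢; simp at h1 ⊢; linarith
          · linarith [ih h3]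
      linarith [hinc _ hn0]
    · have hinc : ∀ k : ℕ, 0 < k → N.bb g (2 * Real.pi * k) < N.bb g 0 := by
        intro k hk
        induction k with
        | zero => omega
        | succ k ih =>
          have h1 := hs (2 * Real.pi * k) (hvals k)
          have h2 : 2 * Real.pi * ((k + 1 : ℕ) : ℝ) = 2 * Real.pi * k + 2 * Real.pi := by
            push_cast; ring
          rw [h2]
          rcases Nat.eq_zero_or_pos k with h3 | h3
          · rw [h3] at h1 ⊢; simp at h1 ⊢; linarith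
          · linarith [ih h3]
      linarith [hinc _ hn0]
  · push Not at hz
    obtain ⟨y, hy, hyz⟩ := hz
    have heq : N.bb g (y + 2 * Real.pi) = N.bb g y := by linarith
    have hfwd : ∀ s, 0 ≤ s → N.bb g (y + 2 * Real.pi + s) = N.bb g (y + s) := by
      intro s hs
      exact h.merge h hθ hθ (by positivity) hy (by rw [← add_assoc, dir_add_two_pi]) heq hs
    -- go far to the right by periodicity
    obtain ⟨k, hk⟩ := exists_nat_gt (y / N.Y g P)
    rw [div_lt_iff₀ hYpos] at hk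
    have h1 := hfwd (x + k * N.Y g P - y) (by linarith)
    have h2 : y + 2 * Real.pi + (x + k * N.Y g P - y) = (x + 2 * Real.pi) + k * N.Y g P := by ring
    have h3 : y + (x + k * N.Y g P - y) = x + k * N.Y g P := by ring
    rw [h2, h3, hTk k _ (by positivity), hTk k x hx] at h1
    exact h1

/-- the orbit closes up after one turn -/
theorem Cyc.exists_P {g : N.D} (h : N.Cyc g) : ∃ P, N.left^[P] g = g ∧ N.Y g P = 2 * Real.pi := by
  have hpi := Real.pi_pos
  set θ := Complex.arg (N.src g) with hθdef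
  have hθ : N.src g = (‖N.src g‖ : ℂ) * dir θ := polar_arg _
  have h1 := h.bb_periodic le_rfl
  obtain ⟨i, j, a1, a2, a3, _, a4, a5⟩ := h.meet h hθ hθ (x := 0 + 2 * Real.pi) (y := 0)
    (by positivity) le_rfl (by rw [← add_assoc, dir_add_two_pi]) h1
  have hj : j = 0 := by
    by_contra hj
    have := h.Y_lt (Nat.pos_of_ne_zero hj)
    rw [Y_zero] at this
    linarith
  rw [hj] at a4 a5
  rw [Y_zero] at a5
  exact ⟨i, a4, by linarith⟩

theorem Cyc.intble {g : N.D} (h : N.Cyc g) {p q : ℝ} (hp : 0 ≤ p) (hq : 0 ≤ q) :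
    IntervalIntegrable (fun x => N.bb g x ^ 2) volume p q := by
  apply ContinuousOn.intervalIntegrable
  apply ContinuousOn.pow
  apply h.cont_bb.mono
  intro x hx
  exact le_trans (le_min hp hq) hx.1

theorem CCW.integral_Rr {d : N.D} (h : N.CCW d) :
    ∫ φ in (0:ℝ)..(N.Dl d), N.Rr d φ ^ 2 = N.Dl d + (N.ps d (N.L d) - N.ps d 0) := by
  have h1 : ∫ φ in (0:ℝ)..(N.Dl d), (N.Rr d φ ^ 2 - 1) = N.Bb d (N.Dl d) - N.Bb d 0 := by
    apply intervalIntegral.integral_eq_sub_of_hasDerivAt_of_le h.Dl_pos.le h.continuousOn_Bb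
    · intro x hx; exact h.hasDerivAt_Bb hx
    · apply ContinuousOn.intervalIntegrable
      rw [uIcc_of_le h.Dl_pos.le]
      exact (h.continuousOn_Rr.pow 2).sub continuousOn_const
  have h2 : ∫ φ in (0:ℝ)..(N.Dl d), (N.Rr d φ ^ 2 - 1) =
      (∫ φ in (0:ℝ)..(N.Dl d), N.Rr d φ ^ 2) - ∫ _φ in (0:ℝ)..(N.Dl d), (1:ℝ) := by
    apply intervalIntegral.integral_sub
    · apply ContinuousOn.intervalIntegrable
      rw [uIcc_of_le h.Dl_pos.le]
      exact h.continuousOn_Rr.pow 2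
    · simp
  rw [h2, Bb, Bb, h.Tm_Dl, h.Tm_zero] at h1
  simp at h1
  linarith

theorem Cyc.integral_Y {g : N.D} (h : N.Cyc g) (i : ℕ) :
    ∫ x in (0:ℝ)..(N.Y g i), N.bb g x ^ 2 =
      N.Y g i - i * (Real.pi / 3) + (N.ps (N.left^[i] g) 0 - N.ps g 0) := by
  induction i with
  | zero => rw [Y_zero]; simp
  | succ i ih =>
    have h1 := intervalIntegral.integral_add_adjacent_intervals
      (h.intble le_rfl (h.Y_nonneg i)) (h.intble (h.Y_nonneg i) (h.Y_nonneg (i + 1)))
    rw [← h1, ih]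
    have hle : N.Y g i ≤ N.Y g (i + 1) := h.Y_lt.monotone (by omega)
    have h2 : ∫ x in (N.Y g i)..(N.Y g (i + 1)), N.bb g x ^ 2 =
        ∫ φ in (0:ℝ)..(N.Dl (N.left^[i] g)), N.Rr (N.left^[i] g) φ ^ 2 := by
      have h3 : ∫ x in (N.Y g i)..(N.Y g (i + 1)), N.bb g x ^ 2 =
          ∫ x in (N.Y g i)..(N.Y g (i + 1)), (fun φ => N.Rr (N.left^[i] g) φ ^ 2) (x - N.Y g i) := by
        apply intervalIntegral.integral_congr
        intro x hx
        rw [uIcc_of_le hle] at hx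
        simp only
        rw [h.bb_eq hx.1 hx.2]
      rw [h3, intervalIntegral.integral_comp_sub_right (fun φ => N.Rr (N.left^[i] g) φ ^ 2)]
      rw [sub_self, Y_succ, add_sub_cancel_left]
    rw [h2, (h i).integral_Rr]
    have h4 : N.ps (N.left^[i + 1] g) 0 =
        N.ps (N.left^[i] g) (N.L (N.left^[i] g)) + Real.pi / 3 := by
      have h5 := (h i).ps_stp (σ := true) (by
        have := h (i + 1)
        rw [Function.iterate_succ_apply'] at this
        exact this)
      rw [Function.iterate_succ_apply']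
      simpa [stp, sg] using h5
    rw [h4, Y_succ]; push_cast; ring

theorem Cyc.integral_two_pi {g : N.D} (h : N.Cyc g) {P : ℕ} (hP : N.left^[P] g = g)
    (hY : N.Y g P = 2 * Real.pi) :
    ∫ x in (0:ℝ)..(2 * Real.pi), N.bb g x ^ 2 = 2 * Real.pi - P * (Real.pi / 3) := by
  have := h.integral_Y P
  rw [hY, hP] at this
  rw [this]; ring

theorem Cyc.P_le {g : N.D} (h : N.Cyc g) {P : ℕ} (hP : N.left^[P] g = g)
    (hY : N.Y g P = 2 * Real.pi) : P ≤ 5 := by
  have hpi := Real.pi_pos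
  have h1 := h.integral_two_pi hP hY
  have h2 : 0 < ∫ x in (0:ℝ)..(2 * Real.pi), N.bb g x ^ 2 := by
    apply intervalIntegral.intervalIntegral_pos_of_pos_on
    · exact h.intble le_rfl (by positivity)
    · intro x hx
      have := h.bb_pos hx.1.le
      positivity
    · positivity
  have h3 : (P : ℝ) < 6 := by
    by_contra hc
    push Not at hc
    nlinarith
  have : P < 6 := by exact_mod_cast h3
  omega

theorem Cyc.same {g h : N.D} (hg : N.Cyc g) (hh : N.Cyc h) {P : ℕ} (hP : N.left^[P] g = g)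
    (hY : N.Y g P = 2 * Real.pi) (hP' : N.left^[P] h = h) (hY' : N.Y h P = 2 * Real.pi) :
    ∃ k < P, N.left^[k] g = h := by
  have hpi := Real.pi_pos
  set θ := Complex.arg (N.src g) with hθdef
  have hθ : N.src g = (‖N.src g‖ : ℂ) * dir θ := polar_arg _
  set η := Complex.arg (N.src h) with hηdef
  have hη : N.src h = (‖N.src h‖ : ℂ) * dir η := polar_arg _
  set x0 := fr (η - θ) with hx0
  have hx0m := fr_mem (η - θ)
  have hd : dir (θ + x0) = dir η := by
    rw [dir_add, hx0, dir_fr, ← dir_add]; congr 1; ring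
  have hcont1 : ContinuousOn (fun s => N.bb g (x0 + s)) (Ici 0) := by
    apply hg.cont_bb.comp (by fun_prop)
    intro y hy
    have : (0:ℝ) ≤ y := hy
    show (0:ℝ) ≤ x0 + y
    linarith
  have hcont : ContinuousOn (fun s => N.bb g (x0 + s) - N.bb h s) (Ici 0) :=
    hcont1.sub hh.cont_bb
  -- the two integrals agree
  have hint1 : ∫ s in (0:ℝ)..(2 * Real.pi), N.bb g (x0 + s) ^ 2 =
      ∫ s in (0:ℝ)..(2 * Real.pi), N.bb g s ^ 2 := by
    have e1 : ∫ s in (0:ℝ)..(2 * Real.pi), N.bb g (x0 + s) ^ 2 =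
        ∫ s in x0..(x0 + 2 * Real.pi), N.bb g s ^ 2 := by
      rw [intervalIntegral.integral_comp_add_left (fun s => N.bb g s ^ 2)]
      rw [add_zero]
    have e2 := intervalIntegral.integral_add_adjacent_intervals
      (hg.intble le_rfl hx0m.1) (hg.intble hx0m.1 (show 0 ≤ x0 + 2 * Real.pi by linarith [hx0m.1]))
    have e3 := intervalIntegral.integral_add_adjacent_intervals
      (hg.intble le_rfl (show 0 ≤ 2 * Real.pi by positivity))
      (hg.intble (show 0 ≤ 2 * Real.pi by positivity) (show 0 ≤ x0 + 2 * Real.pi by linarith [hx0m.1]))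
    have e4 : ∫ s in (2 * Real.pi)..(x0 + 2 * Real.pi), N.bb g s ^ 2 =
        ∫ s in (0:ℝ)..x0, N.bb g s ^ 2 := by
      have e5 : ∫ s in (0:ℝ)..x0, N.bb g s ^ 2 =
          ∫ s in (0:ℝ)..x0, (fun s => N.bb g s ^ 2) (s + 2 * Real.pi) := by
        apply intervalIntegral.integral_congr
        intro s hs
        rw [uIcc_of_le hx0m.1] at hs
        simp only
        rw [hg.bb_periodic hs.1]
      rw [e5, intervalIntegral.integral_comp_add_right (fun s => N.bb g s ^ 2)]
      rw [zero_add]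
    rw [e1]
    have e6 : (∫ s in (0:ℝ)..x0, N.bb g s ^ 2) +
        ∫ s in x0..(x0 + 2 * Real.pi), N.bb g s ^ 2 =
        (∫ s in (0:ℝ)..(2 * Real.pi), N.bb g s ^ 2) +
        ∫ s in (2 * Real.pi)..(x0 + 2 * Real.pi), N.bb g s ^ 2 := by rw [e2, e3]
    rw [e4] at e6
    linarith
  have hA := hg.integral_two_pi hP hY
  have hB := hh.integral_two_pi hP' hY'
  have hii1 : IntervalIntegrable (fun s => N.bb g (x0 + s) ^ 2) volume 0 (2 * Real.pi) := by
    apply ContinuousOn.intervalIntegrable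
    apply ContinuousOn.pow
    apply hcont1.mono
    intro x hx
    rw [uIcc_of_le (by positivity)] at hx
    exact hx.1
  have hii2 := hh.intble le_rfl (show 0 ≤ 2 * Real.pi by positivity)
  by_cases hz : ∀ s, 0 ≤ s → N.bb g (x0 + s) - N.bb h s ≠ 0
  · exfalso
    rcases sign_const hcont hz with hs | hs
    · have : 0 < ∫ s in (0:ℝ)..(2 * Real.pi), (N.bb g (x0 + s) ^ 2 - N.bb h s ^ 2) := by
        apply intervalIntegral.intervalIntegral_pos_of_pos_on
        · exact hii1.sub hii2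
        · intro x hx
          have h1 := hs x hx.1.le
          have h2 := hh.bb_pos hx.1.le
          nlinarith
        · positivity
      rw [intervalIntegral.integral_sub hii1 hii2, hint1, hA, hB] at this
      linarith
    · have : 0 < ∫ s in (0:ℝ)..(2 * Real.pi), (N.bb h s ^ 2 - N.bb g (x0 + s) ^ 2) := by
        apply intervalIntegral.intervalIntegral_pos_of_pos_on
        · exact hii2.sub hii1
        · intro x hx
          have h1 := hs x hx.1.le
          have h2 := hg.bb_pos (show 0 ≤ x0 + x by linarith [hx.1, hx0m.1])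
          nlinarith
        · positivity
      rw [intervalIntegral.integral_sub hii2 hii1, hint1, hA, hB] at this
      linarith
  · push Not at hz
    obtain ⟨s0, hs0, hsz⟩ := hz
    have heq : N.bb g (x0 + s0) = N.bb h s0 := by linarith
    -- equality at the origin by periodicity
    have hperg : ∀ k : ℕ, ∀ w, 0 ≤ w → N.bb g (w + k * (2 * Real.pi)) = N.bb g w := by
      intro k
      induction k with
      | zero => intro w hw; simp
      | succ k ih =>
        intro w hw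
        have h1 : w + ((k + 1 : ℕ) : ℝ) * (2 * Real.pi) = (w + k * (2 * Real.pi)) + 2 * Real.pi := by
          push_cast; ring
        rw [h1, hg.bb_periodic (by positivity), ih w hw]
    have hperh : ∀ k : ℕ, ∀ w, 0 ≤ w → N.bb h (w + k * (2 * Real.pi)) = N.bb h w := by
      intro k
      induction k with
      | zero => intro w hw; simp
      | succ k ih =>
        intro w hw
        have h1 : w + ((k + 1 : ℕ) : ℝ) * (2 * Real.pi) = (w + k * (2 * Real.pi)) + 2 * Real.pi := by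
          push_cast; ring
        rw [h1, hh.bb_periodic (by positivity), ih w hw]
    have h2pi : (0:ℝ) < 2 * Real.pi := by positivity
    obtain ⟨k, hk⟩ := exists_nat_gt (s0 / (2 * Real.pi))
    rw [div_lt_iff₀ h2pi] at hk
    have h1 := hg.merge hh hθ hη (x := x0 + s0) (y := s0) (by linarith) hs0
      (by rw [← add_assoc, dir_add, hd, ← dir_add]) heq (s := k * (2 * Real.pi) - s0) (by linarith)
    have h2 : x0 + s0 + (k * (2 * Real.pi) - s0) = x0 + k * (2 * Real.pi) := by ring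
    have h3 : s0 + (k * (2 * Real.pi) - s0) = 0 + k * (2 * Real.pi) := by ring
    rw [h2, h3, hperg k x0 hx0m.1, hperh k 0 le_rfl] at h1
    obtain ⟨i, j, a1, a2, a3, a6, a4, a5⟩ := hg.meet hh hθ hη (x := x0) (y := 0) hx0m.1 le_rfl
      (by rw [add_zero]; exact hd) h1
    have hj : j = 0 := by
      by_contra hj
      have := hh.Y_lt (Nat.pos_of_ne_zero hj)
      rw [Y_zero] at this
      linarith
    rw [hj] at a4
    refine ⟨i, ?_, a4⟩
    have : N.Y g i < N.Y g P := by rw [hY]; linarith [hx0m.2]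
    exact hg.Y_lt.lt_iff_lt.1 this

/-- (C3) -/
theorem cycles_le (N : Net) : {g : N.D | ∀ k, N.CCW (N.left^[k] g)}.encard ≤ 15 := by
  classical
  set G : Finset N.D := Finset.univ.filter (fun g => N.Cyc g) with hG
  have hset : {g : N.D | ∀ k, N.CCW (N.left^[k] g)} = (G : Set N.D) := by
    ext g
    rw [hG, Finset.coe_filter]
    constructor
    · intro h; exact ⟨Finset.mem_univ _, h⟩
    · intro h; exact h.2
  rw [hset, Set.encard_coe_eq_coe_finsetCard]
  set Gp : ℕ → Finset N.D := fun p => G.filter (fun g => N.left^[p] g = g ∧ N.Y g p = 2 * Real.pi)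
    with hGp
  have hsub : G ⊆ (Finset.range 6).biUnion Gp := by
    intro g hg
    have hgc : N.Cyc g := (Finset.mem_filter.1 hg).2
    obtain ⟨P, h1, h2⟩ := hgc.exists_P
    rw [Finset.mem_biUnion]
    exact ⟨P, Finset.mem_range.2 (by have := hgc.P_le h1 h2; omega),
      Finset.mem_filter.2 ⟨hg, h1, h2⟩⟩
  have hcard : ∀ p, (Gp p).card ≤ p := by
    intro p
    rcases (Gp p).eq_empty_or_nonempty with h | ⟨g, hg⟩
    · rw [h]; simp
    · obtain ⟨hgG, hg1, hg2⟩ := Finset.mem_filter.1 hg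
      have hgc : N.Cyc g := (Finset.mem_filter.1 hgG).2
      have : Gp p ⊆ (Finset.range p).image (fun k => N.left^[k] g) := by
        intro h hh
        obtain ⟨hhG, hh1, hh2⟩ := Finset.mem_filter.1 hh
        have hhc : N.Cyc h := (Finset.mem_filter.1 hhG).2
        obtain ⟨k, hk, hke⟩ := hgc.same hhc hg1 hg2 hh1 hh2
        exact Finset.mem_image.2 ⟨k, Finset.mem_range.2 hk, hke⟩
      calc (Gp p).card ≤ ((Finset.range p).image (fun k => N.left^[k] g)).card :=
            Finset.card_le_card this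
        _ ≤ (Finset.range p).card := Finset.card_image_le
        _ = p := Finset.card_range p
  have h1 : G.card ≤ 15 := by
    calc G.card ≤ ((Finset.range 6).biUnion Gp).card := Finset.card_le_card hsub
      _ ≤ ∑ p ∈ Finset.range 6, (Gp p).card := Finset.card_biUnion_le
      _ ≤ ∑ p ∈ Finset.range 6, p := Finset.sum_le_sum (fun p _ => hcard p)
      _ = 15 := by decide
  exact_mod_cast h1

end Net

end

end Pool.Agent.MP_4c0f47_an
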