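import Mathlib

set_option autoImplicit false

open Set Filter Topology

namespace Pool.Agent.MP_4c0f47_an

noncomputable section

/-! The plane is `ℂ`, with its Euclidean norm and real inner product. -/

/-- The kinds of curves of a network: a compact arc (two ends, which may be the same point of the
plane, as for the loop of a spoon), a properly embedded noncompact curve with one endpoint or with
none, and a closed curve without endpoint. -/
inductive Kind
  | arc
  | ray
  | line
  | loop

/-- A plane curve parametrised by arclength. The number `len` is the length of an arc and the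
period of a closed curve; it plays no role for rays and lines. -/
structure PlaneCurve where
  kind : Kind
  len : ℝ
  γ : ℝ → ℂ

namespace PlaneCurve

/-- Domain of the parameter. -/
def dom (c : PlaneCurve) : Set ℝ :=
  match c.kind with
  | Kind.arc => Icc 0 c.len
  | Kind.ray => Ici 0
  | Kind.line => univ
  | Kind.loop => univ

/-- The set of points of the curve. -/
def carrier (c : PlaneCurve) : Set ℂ := c.γ '' c.dom

/-- Tangent vector (one sided at the ends). -/
def tan (c : PlaneCurve) (t : ℝ) : ℂ := derivWithin c.γ c.dom t

/-- Injectivity and properness, according to the kind of the curve. For an arc the two endpoints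
are allowed to coincide. -/
def Embeds (c : PlaneCurve) : Prop :=
  match c.kind with
  | Kind.arc => InjOn c.γ (Ico 0 c.len) ∧ InjOn c.γ (Ioc 0 c.len)
  | Kind.ray => InjOn c.γ (Ici 0) ∧ Tendsto (fun t => ‖c.γ t‖) atTop atTop
  | Kind.line => Function.Injective c.γ ∧ Tendsto (fun t => ‖c.γ t‖) atTop atTop ∧
      Tendsto (fun t => ‖c.γ t‖) atBot atTop
  | Kind.loop => InjOn c.γ (Ico 0 c.len) ∧ Function.Periodic c.γ c.len

/-- Embedded curve of class `C²` up to its endpoints, parametrised by arclength. -/
structure IsEmbedded (c : PlaneCurve) : Prop where
  len_pos : 0 < c.len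
  smooth : ContDiffOn ℝ 2 c.γ c.dom
  unit : ∀ t ∈ c.dom, ‖c.tan t‖ = 1
  embeds : c.Embeds

end PlaneCurve

/-- A finite family of plane curves. -/
structure Network where
  n : ℕ
  curve : Fin n → PlaneCurve

namespace Network

/-- The union of the curves. -/
def carrier (N : Network) : Set ℂ := ⋃ i, (N.curve i).carrier

/-- `(i, false)` is the initial end of the `i`-th curve, which exists for arcs and rays;
`(i, true)` is the final end of the `i`-th curve, which exists for arcs. -/
def IsEnd (N : Network) (e : Fin N.n × Bool) : Prop :=
  (N.curve e.1).kind = Kind.arc ∨ ((N.curve e.1).kind = Kind.ray ∧ e.2 = false)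

/-- The endpoint at an end. -/
def endPoint (N : Network) (e : Fin N.n × Bool) : ℂ :=
  if e.2 then (N.curve e.1).γ (N.curve e.1).len else (N.curve e.1).γ 0

/-- The unit tangent vector at an end, pointing into the curve. -/
def endDir (N : Network) (e : Fin N.n × Bool) : ℂ :=
  if e.2 then -(N.curve e.1).tan (N.curve e.1).len else (N.curve e.1).tan 0

/-- The ends located at the point `p`. -/
def endsAt (N : Network) (p : ℂ) : Set (Fin N.n × Bool) :=
  {e | N.IsEnd e ∧ N.endPoint e = p}

/-- A network: a connected set which is a finite union of embedded `C²` curves, two distinct curves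
meeting only at common endpoints. -/
structure IsNetwork (N : Network) : Prop where
  embedded : ∀ i, (N.curve i).IsEmbedded
  meet : ∀ i j, i ≠ j → ∀ p ∈ (N.curve i).carrier ∩ (N.curve j).carrier,
    (∃ b, (i, b) ∈ N.endsAt p) ∧ (∃ b, (j, b) ∈ N.endsAt p)
  connected : IsConnected N.carrier

/-- A regular network: at every endpoint exactly three curve ends meet, and their inward unit
tangents form pairwise angles `2π/3` (inner product `-1/2`). -/
def IsRegular (N : Network) : Prop :=
  ∀ p, (N.endsAt p).Nonempty → (N.endsAt p).ncard = 3 ∧
    ∀ e ∈ N.endsAt p, ∀ e' ∈ N.endsAt p, e ≠ e' → inner ℝ (N.endDir e) (N.endDir e') = -1 / 2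

/-- The shrinker equation `k + x^⊥ = 0` at every interior point of every curve (at the endpoints it
then holds by continuity); `deriv (deriv γ)` is the curvature vector, because the curves are
parametrised by arclength. -/
def IsShrinker (N : Network) : Prop :=
  ∀ i, ∀ t ∈ interior (N.curve i).dom,
    deriv (deriv (N.curve i).γ) t +
      ((N.curve i).γ t -
        inner ℝ ((N.curve i).γ t) (deriv (N.curve i).γ t) • deriv (N.curve i).γ t) = 0

/-- The bounded regions: bounded connected components of the complement. -/
def boundedRegions (N : Network) : Set (Set ℂ) :=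
  {F | (∃ x ∈ N.carrierᶜ, F = connectedComponentIn N.carrierᶜ x) ∧ Bornology.IsBounded F}

end Network

end

end Pool.Agent.MP_4c0f47_an
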