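import Pool.Agent.Lib.MP_4c0f47_an.SweepF

set_option autoImplicit false

open Set Filter Topology Complex MeasureTheory

namespace Pool.Agent.MP_4c0f47_an

noncomputable section

namespace CS

variable {N : Net}

theorem eq_of_e_eq {c c' : CS N} (hσ : c.σ = c'.σ) (h1 : ∀ p, N.CCW p → N.stp c.σ p ≠ c.d0)
    (h2 : ∀ p, N.CCW p → N.stp c'.σ p ≠ c'.d0) {i j : ℕ} (hi : i < c.n) (hj : j < c'.n)
    (he : c.e i = c'.e j) : i = j ∧ c.d0 = c'.d0 := by
  induction i generalizing j with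
  | zero =>
    rcases Nat.eq_zero_or_pos j with h3 | h3
    · subst h3; exact ⟨rfl, he⟩
    · exfalso
      obtain ⟨k, rfl⟩ : ∃ k, j = k + 1 := ⟨j - 1, by omega⟩
      rw [c'.e_succ] at he
      refine h1 (c'.e k) (c'.e_ccw (by omega)) ?_
      rw [hσ]; exact he.symm
  | succ i ih =>
    rcases Nat.eq_zero_or_pos j with h3 | h3
    · exfalso
      subst h3
      rw [c.e_succ, hσ] at he
      exact h2 (c.e i) (c.e_ccw (by omega)) he
    · obtain ⟨k, rfl⟩ : ∃ k, j = k + 1 := ⟨j - 1, by omega⟩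
      rw [c.e_succ, c'.e_succ, hσ] at he
      have h4 := Net.stp_inj _ (c.e_ccw (i := i) (by omega)).arc (c'.e_ccw (i := k) (by omega)).arc he
      obtain ⟨h5, h6⟩ := ih (by omega) (by omega) h4
      exact ⟨by omega, h6⟩

theorem X_sub {c c' : CS N} (hσ : c.σ = c'.σ) (hd : c.d0 = c'.d0) (i : ℕ) :
    c.X i - c.X0 = c'.X i - c'.X0 ∧ c.e i = c'.e i := by
  have he : ∀ i, c.e i = c'.e i := by intro i; simp only [e, hσ, hd]
  refine ⟨?_, he i⟩
  induction i with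
  | zero => simp [X]
  | succ i ih => rw [X_succ, X_succ, he i]; linarith

end CS

namespace Swp

variable {N : Net} (S S' : Swp N)

theorem start_co : ∀ p, N.CCW p → N.stp S.co.σ p ≠ S.co.d0 := by
  intro p hp he
  rw [S.coσ] at he
  rcases S.cod with ⟨h1, h2⟩ | ⟨h1, h2⟩
  · rw [h2] at he
    have h3 := Net.left_rev_rot (e := S.e) S.tip.2.1.arc
    have h4 : p = N.rev (N.rot S.e) := Net.stp_inj true hp.arc (N.rev_ray _ S.tip.2.1.arc)
      (he.trans h3.symm)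
    exact S.tip.2.1.not_rev (by rw [← h4]; exact hp)
  · rw [h2] at he
    have h4 : p = S.e := Net.stp_inj true hp.arc S.tip.1 he
    exact (hp.ne_of_E h1.1) h4

theorem start_ci : ∀ p, N.CCW p → N.stp S.ci.σ p ≠ S.ci.d0 := by
  intro p hp he
  rw [S.ciσ, S.cid] at he
  have h1 : N.rev p = S.e := Net.rot_inj he
  have h2 : N.rev S.e = p := by rw [← h1, N.rev_rev _ hp.arc]
  rcases S.tip.2.2 with h3 | h3
  · exact h3.not_rev (by rw [h2]; exact hp)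
  · exact hp.ne_of_E (f := p) (by rw [← h2, N.E_rev S.tip.1, h3.1, neg_zero]) rfl

variable {S S'}

theorem e_of_d0 (h : S.co.d0 = S'.co.d0) : S.e = S'.e := by
  rcases S.cod with ⟨h1, h2⟩ | ⟨h1, h2⟩ <;> rcases S'.cod with ⟨h3, h4⟩ | ⟨h3, h4⟩
  · rw [← h2, ← h4, h]
  · exfalso
    rw [h2, h4] at h
    have h5 := Net.left_rev_rot (e := S.e) S.tip.2.1.arc
    have h6 : N.rev (N.rot S.e) = S'.e :=
      Net.stp_inj true (N.rev_ray _ S.tip.2.1.arc) S'.tip.1 (h5.trans h)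
    have h7 : N.E (N.rev (N.rot S.e)) = 0 := by rw [h6]; exact h3.1
    rw [N.E_rev S.tip.2.1.arc, neg_eq_zero] at h7
    exact S.tip.2.1.ne_of_E h7 rfl
  · exfalso
    rw [h2, h4] at h
    have h5 := Net.left_rev_rot (e := S'.e) S'.tip.2.1.arc
    have h6 : N.rev (N.rot S'.e) = S.e :=
      Net.stp_inj true (N.rev_ray _ S'.tip.2.1.arc) S.tip.1 (h5.trans h.symm)
    have h7 : N.E (N.rev (N.rot S'.e)) = 0 := by rw [h6]; exact h1.1
    rw [N.E_rev S'.tip.2.1.arc, neg_eq_zero] at h7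
    exact S'.tip.2.1.ne_of_E h7 rfl
  · rw [h2, h4] at h
    exact Net.stp_inj true S.tip.1 S'.tip.1 h

/-- outer edges determine the tip -/
theorem e_of_co {i j : ℕ} (hi : i < S.co.n) (hj : j < S'.co.n) (h : S.co.e i = S'.co.e j) :
    i = j ∧ S.e = S'.e := by
  have h1 := CS.eq_of_e_eq (S.coσ.trans S'.coσ.symm) S.start_co S'.start_co hi hj h
  exact ⟨h1.1, e_of_d0 h1.2⟩

/-- inner edges determine the tip -/
theorem e_of_ci {i j : ℕ} (hi : i < S.ci.n) (hj : j < S'.ci.n) (h : S.ci.e i = S'.ci.e j) :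
    i = j ∧ S.e = S'.e := by
  have h1 := CS.eq_of_e_eq (S.ciσ.trans S'.ciσ.symm) S.start_ci S'.start_ci hi hj h
  refine ⟨h1.1, ?_⟩
  have h2 := h1.2
  rw [S.cid, S'.cid] at h2
  exact Net.rot_inj h2

variable (S)

/-- the swept region in polar coordinates -/
def reg : Set (ℝ × ℝ) := {p | p.2 ∈ Ioo S.ϑ S.T ∧ S.a p.2 < p.1 ∧ p.1 < S.b p.2}

theorem reg_pos {p : ℝ × ℝ} (hp : p ∈ S.reg) : 0 < p.1 :=
  lt_trans (S.pos_a (Ioo_subset_Icc_self hp.1)) hp.2.1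

theorem isOpen_reg : IsOpen S.reg := by
  have h1 : S.reg = (univ ×ˢ Ioo S.ϑ S.T) ∩ (fun p : ℝ × ℝ => (p.1 - S.a p.2, S.b p.2 - p.1)) ⁻¹'
      (Ioi 0 ×ˢ Ioi 0) := by
    ext p
    simp only [reg, mem_setOf_eq, mem_inter_iff, mem_prod, mem_univ, true_and, mem_preimage,
      mem_Ioi, sub_pos]
  rw [h1]
  apply ContinuousOn.isOpen_inter_preimage
  · have ha : ContinuousOn (fun p : ℝ × ℝ => S.a p.2) (univ ×ˢ Ioo S.ϑ S.T) :=
      (S.cont_a.mono Ioo_subset_Icc_self).comp continuousOn_snd (fun p hp => hp.2)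
    have hb : ContinuousOn (fun p : ℝ × ℝ => S.b p.2) (univ ×ˢ Ioo S.ϑ S.T) :=
      (S.cont_b.mono Ioo_subset_Icc_self).comp continuousOn_snd (fun p hp => hp.2)
    exact (continuousOn_fst.sub ha).prodMk (hb.sub continuousOn_fst)
  · exact isOpen_univ.prod isOpen_Ioo
  · exact isOpen_Ioi.prod isOpen_Ioi

theorem b_mem {θ : ℝ} (h : θ ∈ Icc S.ϑ S.T) : (S.b θ : ℂ) * dir θ ∈ N.carrier := by
  obtain ⟨i, hi, h1, h2⟩ := S.co.exists_piece (x := θ)
    ⟨by rw [S.co_s]; exact h.1, h.2.trans S.T_le1⟩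
  have := S.co.b_dir hi h1 h2
  have h3 : S.co.b θ = S.b θ := rfl
  rw [h3] at this
  rw [this]
  exact N.mem_carrier ((S.co.e_ccw hi).mem_dom.2 ((S.co.e_ccw hi).Tm_spec (S.co.sub_mem h1 h2)).1)

theorem a_mem {θ : ℝ} (h : θ ∈ Icc S.ϑ S.T) : (S.a θ : ℂ) * dir θ ∈ N.carrier := by
  obtain ⟨i, hi, h1, h2⟩ := S.ci.exists_piece (x := θ)
    ⟨by rw [S.ci_s]; exact h.1, h.2.trans S.T_le2⟩
  have := S.ci.b_dir hi h1 h2
  have h3 : S.ci.b θ = S.a θ := rfl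
  rw [h3] at this
  rw [this]
  exact N.mem_carrier ((S.ci.e_ccw hi).mem_dom.2 ((S.ci.e_ccw hi).Tm_spec (S.ci.sub_mem h1 h2)).1)

variable {S}

/-- overlapping swept regions come from the same tip -/
theorem overlap {r θ θ' : ℝ} (h : (r, θ) ∈ S.reg) (h' : (r, θ') ∈ S'.reg)
    (hd : dir θ = dir θ') : S.e = S'.e ∧ θ - S.ϑ = θ' - S'.ϑ := by
  -- avoid the corners
  set δ := θ' - θ with hδ
  have hshift : ∀ x, dir (x + δ) = dir x := by
    intro x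
    obtain ⟨k, hk⟩ := dir_eq_iff.1 hd
    rw [dir_eq_iff]
    exact ⟨-k, by rw [hδ, hk]; push_cast; ring⟩
  have hU : IsOpen ((fun x : ℝ => ((r, x) : ℝ × ℝ)) ⁻¹' S.reg ∩
      (fun x : ℝ => ((r, x + δ) : ℝ × ℝ)) ⁻¹' S'.reg) :=
    (S.isOpen_reg.preimage (by fun_prop)).inter (S'.isOpen_reg.preimage (by fun_prop))
  have hne : ((fun x : ℝ => ((r, x) : ℝ × ℝ)) ⁻¹' S.reg ∩
      (fun x : ℝ => ((r, x + δ) : ℝ × ℝ)) ⁻¹' S'.reg).Nonempty := by
    refine ⟨θ, h, ?_⟩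
    have : θ + δ = θ' := by rw [hδ]; ring
    simp only [mem_preimage]; rw [this]; exact h'
  have hinf : ((fun x : ℝ => ((r, x) : ℝ × ℝ)) ⁻¹' S.reg ∩
      (fun x : ℝ => ((r, x + δ) : ℝ × ℝ)) ⁻¹' S'.reg).Infinite := by
    obtain ⟨x, hx⟩ := hne
    exact infinite_of_mem_nhds x (hU.mem_nhds hx)
  have hfin : ((S.co.C : Set ℝ) ∪ (fun x : ℝ => x + δ) ⁻¹' (S'.co.C : Set ℝ)).Finite := by
    apply (S.co.C.finite_toSet).union
    apply S'.co.C.finite_toSet.preimage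
    intro x _ y _ hxy
    simpa using hxy
  obtain ⟨x, hx, hxC⟩ := (hinf.diff hfin).nonempty
  obtain ⟨hx1, hx2⟩ := hx
  simp only [mem_preimage] at hx1 hx2
  have hxC1 : x ∉ S.co.C := fun h0 => hxC (Or.inl h0)
  have hxC2 : x + δ ∉ S'.co.C := fun h0 => hxC (Or.inr h0)
  have hr : 0 < r := S.reg_pos hx1
  have hxI := hx1.1
  have hxI' := hx2.1
  simp only at hxI hxI'
  -- the outer radii agree
  have hbb : S.b x = S'.b (x + δ) := by
    rcases lt_trichotomy (S.b x) (S'.b (x + δ)) with h1 | h1 | h1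
    · exfalso
      have h2 := S.b_mem (Ioo_subset_Icc_self hxI)
      rw [← hshift x] at h2
      exact S'.emp (x + δ) hxI' (S.b x) (by linarith [hx2.2.1, hx1.2.2]) h1 h2
    · exact h1
    · exfalso
      have h2 := S'.b_mem (Ioo_subset_Icc_self hxI')
      rw [hshift x] at h2
      exact S.emp x hxI (S'.b (x + δ)) (by linarith [hx1.2.1, hx2.2.2]) h1 h2
  obtain ⟨i, hi, i1, i2⟩ := S.co.exists_piece' (x := x)
    ⟨by rw [S.co_s]; exact hxI.1, lt_of_lt_of_le hxI.2 S.T_le1⟩ hxC1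
  obtain ⟨j, hj, j1, j2⟩ := S'.co.exists_piece' (x := x + δ)
    ⟨by rw [S'.co_s]; exact hxI'.1, lt_of_lt_of_le hxI'.2 S'.T_le1⟩ hxC2
  have e1 := S.co.b_dir hi i1.le i2.le
  have e2 := S'.co.b_dir hj j1.le j2.le
  have e3 : N.z (S.co.e i) (N.Tm (S.co.e i) (x - S.co.X i))
      = N.z (S'.co.e j) (N.Tm (S'.co.e j) (x + δ - S'.co.X j)) := by
    rw [← e1, ← e2, hshift]
    have : S.co.b x = S'.co.b (x + δ) := hbb
    rw [this]
  have hc1 := S.co.e_ccw hi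
  have hc2 := S'.co.e_ccw hj
  have t1 := hc1.Tm_mem (S.co.sub_mem' i1 i2)
  have t2 := hc2.Tm_mem (S'.co.sub_mem' j1 j2)
  rcases N.inj _ _ _ _ t1.1 (Or.inr t1.2) t2.1.le (Or.inr t2.2.le) e3 with ⟨h1, h2⟩ | ⟨_, h1, _⟩
  · obtain ⟨h3, h4⟩ := e_of_co hi hj h1.symm
    refine ⟨h4, ?_⟩
    subst h3
    have h5 := CS.eq_of_e_eq (S.coσ.trans S'.coσ.symm) S.start_co S'.start_co hi hj h1.symm
    have h6 := (CS.X_sub (S.coσ.trans S'.coσ.symm) h5.2 i).1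
    have g1 := (hc1.Tm_spec (Ioo_subset_Icc_self (S.co.sub_mem' i1 i2))).2
    have g2 := (hc2.Tm_spec (Ioo_subset_Icc_self (S'.co.sub_mem' j1 j2))).2
    rw [h2, h1] at g2
    rw [S.coX, S'.coX] at h6
    linarith
  · exact absurd hc2 (by rw [h1]; exact hc1.not_rev)

end Swp

end

end Pool.Agent.MP_4c0f47_an
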