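import Pool.Agent.Lib.MP_4c0f47_an.Near

set_option autoImplicit false

open Set Filter Topology Complex MeasureTheory

namespace Pool.Agent.MP_4c0f47_an

noncomputable section

theorem mul_conj_dir (w : ℂ) (m : ℝ) : w = (w * (starRingEnd ℂ) (dir m)) * dir m := by
  have h : (starRingEnd ℂ) (dir m) * dir m = 1 := by
    rw [mul_comm, conj_dir_mul]; simp [dir_zero]
  rw [mul_assoc, h, mul_one]

/-- polar coordinates near `r0 dir m` -/
theorem polar_near {r0 m ε : ℝ} (hr0 : 0 < r0) (hε : 0 < ε) :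
    ∃ δ > 0, ∀ w : ℂ, ‖w - (r0 : ℂ) * dir m‖ < δ → ∃ r θ : ℝ, 0 < r ∧ |r - r0| < ε ∧
      |θ - m| < ε ∧ w = (r : ℂ) * dir θ ∧
      ((w * (starRingEnd ℂ) (dir m)).im < 0 → θ < m) ∧
      (0 < (w * (starRingEnd ℂ) (dir m)).im → m < θ) := by
  have hc : ContinuousAt Complex.arg (r0 : ℂ) :=
    Complex.continuousAt_arg (Complex.ofReal_mem_slitPlane.2 hr0)
  rw [Metric.continuousAt_iff] at hc
  obtain ⟨δ, hδ, h1⟩ := hc ε hε
  refine ⟨min (min δ ε) r0, by positivity, fun w hw => ?_⟩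
  simp only [lt_min_iff] at hw
  obtain ⟨⟨hw1, hw2⟩, hw3⟩ := hw
  set u := w * (starRingEnd ℂ) (dir m) with hu
  have e1 : ‖u - (r0 : ℂ)‖ = ‖w - (r0 : ℂ) * dir m‖ := by
    have : w - (r0 : ℂ) * dir m = (u - (r0 : ℂ)) * dir m := by
      rw [sub_mul, hu, ← mul_conj_dir]
    rw [this, norm_mul, norm_dir, mul_one]
  have hun : u ≠ 0 := by
    intro h0
    rw [h0, zero_sub, norm_neg, Complex.norm_real, Real.norm_eq_abs, abs_of_pos hr0] at e1
    linarith
  have h2 := h1 (x := u) (by rw [dist_eq_norm, e1]; exact hw1)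
  rw [Complex.arg_ofReal_of_nonneg hr0.le, Real.dist_eq, sub_zero] at h2
  have e2 : u = (‖u‖ : ℂ) * dir (Complex.arg u) := (Complex.norm_mul_exp_arg_mul_I u).symm
  refine ⟨‖u‖, m + Complex.arg u, norm_pos_iff.2 hun, ?_, ?_, ?_, ?_, ?_⟩
  · have : |‖u‖ - ‖(r0 : ℂ)‖| ≤ ‖u - r0‖ := abs_norm_sub_norm_le _ _
    rw [Complex.norm_real, Real.norm_eq_abs, abs_of_pos hr0] at this
    linarith
  · rw [add_sub_cancel_left]; exact h2
  · rw [mul_conj_dir w m, ← hu, dir_add]
    conv_lhs => rw [e2]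
    ring
  · intro h3
    have : Complex.arg u < 0 := Complex.arg_neg_iff.2 h3
    linarith
  · intro h3
    have h4 : 0 ≤ Complex.arg u := Complex.arg_nonneg_iff.2 h3.le
    have h5 : Complex.arg u ≠ 0 := by
      intro h6
      rw [Complex.arg_eq_zero_iff] at h6
      rw [h6.2] at h3
      exact lt_irrefl _ h3
    have : 0 < Complex.arg u := lt_of_le_of_ne h4 (Ne.symm h5)
    linarith

namespace Net

variable {N : Net}

theorem cross_zero {d : N.D} (hE : N.E d = 0) {t : ℝ} (ht : t ∈ N.dom d) :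
    cross (N.z d t) (dir (N.a d t)) = 0 := by
  have h := N.E_eq ht
  rw [hE] at h
  rcases mul_eq_zero.1 h with h1 | h1
  · exact h1
  · exact absurd h1 (Real.exp_pos _).ne'

theorem a_const {d : N.D} (hE : N.E d = 0) {t : ℝ} (ht : t ∈ N.dom d) : N.a d t = N.a d 0 := by
  have hg := N.geo' ht
  apply eq_of_hasDerivAt_zero ht.1 hg.ca
  intro x hx
  have h1 := hg.da x hx
  rwa [N.cross_zero hE (N.dom_of_le ht hx.1.le hx.2.le)] at h1

theorem z_line {d : N.D} (hE : N.E d = 0) {t : ℝ} (ht : t ∈ N.dom d) :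
    N.z d t = N.src d + (t : ℂ) * dir (N.a d 0) := by
  have hg := N.geo' ht
  have h1 := hg.norm_sub_lin (s := 0) (t := t) (b := N.a d 0) (η := 0) le_rfl ht.1 le_rfl (by
    intro u hu
    rw [N.a_const hE (N.dom_of_le ht hu.1.le hu.2.le)]; simp)
  rw [zero_mul] at h1
  have h2 := norm_le_zero_iff.1 h1
  have h3 : N.z d t = N.z d 0 + ((t - 0 : ℝ) : ℂ) * dir (N.a d 0) := by
    linear_combination h2
  rw [h3, sub_zero]; rfl

/-- at a vertex some edge leaves with decreasing angle -/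
theorem exists_down (e : N.D) (m : ℝ) : ∃ d, N.src d = N.src e ∧ Real.sin (N.a d 0 - m) < 0 := by
  by_contra hcon
  push Not at hcon
  have h0 := hcon e rfl
  have h1 := hcon (N.rot e) (N.src_rot e)
  have h2 := hcon (N.rot (N.rot e)) (by rw [N.src_rot, N.src_rot])
  have e1 : Real.sin (N.a (N.rot e) 0 - m) = Real.sin (N.a e 0 - m + 2 * Real.pi / 3) := by
    have h3 := N.a_rot e
    have : dir (N.a (N.rot e) 0 - m) = dir (N.a e 0 - m + 2 * Real.pi / 3) := by
      rw [dir_sub, h3, ← dir_sub]; ring_nf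
    have := congrArg Complex.im this
    rwa [dir_im, dir_im] at this
  have e2 : Real.sin (N.a (N.rot (N.rot e)) 0 - m) = Real.sin (N.a e 0 - m + 4 * Real.pi / 3) := by
    have h3 := N.rot_dir2 e
    have : dir (N.a (N.rot (N.rot e)) 0 - m) = dir (N.a e 0 - m + 4 * Real.pi / 3) := by
      rw [dir_sub, h3, mul_assoc, mul_comm (dir _) (dir (-m)), ← mul_assoc, ← dir_add, ← dir_add]
      ring_nf
    have := congrArg Complex.im this
    rwa [dir_im, dir_im] at this
  rw [e1, Real.sin_add] at h1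
  rw [e2, Real.sin_add] at h2
  have c1 : Real.cos (2 * Real.pi / 3) = -1 / 2 := by
    have := congrArg Complex.re dir_two_pi_div_three; rwa [dir_re] at this
  have c2 : Real.sin (2 * Real.pi / 3) = Real.sqrt 3 / 2 := by
    have := congrArg Complex.im dir_two_pi_div_three; rwa [dir_im] at this
  have c3 : Real.cos (4 * Real.pi / 3) = -1 / 2 := by
    have := congrArg Complex.re dir_four_pi_div_three; rwa [dir_re] at this
  have c4 : Real.sin (4 * Real.pi / 3) = -(Real.sqrt 3 / 2) := by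
    have := congrArg Complex.im dir_four_pi_div_three; rwa [dir_im] at this
  rw [c1, c2] at h1
  rw [c3, c4] at h2
  have h3 := sqrt3_bounds.1
  have h4 : Real.sin (N.a e 0 - m) = 0 := by nlinarith
  rw [h4] at h1 h2
  have h5 : Real.cos (N.a e 0 - m) = 0 := by nlinarith
  have := Real.sin_sq_add_cos_sq (N.a e 0 - m)
  rw [h4, h5] at this
  norm_num at this

theorem vertex_down {d : N.D} {m : ℝ} (hm : (N.src d * (starRingEnd ℂ) (dir m)).im = 0)
    (hs : Real.sin (N.a d 0 - m) < 0) {δ : ℝ} (hδ : 0 < δ) :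
    ∃ w ∈ N.carrier, ‖w - N.src d‖ < δ ∧ (w * (starRingEnd ℂ) (dir m)).im < 0 := by
  set c := - Real.sin (N.a d 0 - m) with hc
  have hcpos : 0 < c := by linarith
  set M := ‖N.src d‖ + 1 with hM
  have hMpos : 0 < M := by positivity
  set t := min (min 1 (N.L d)) (min (δ / 4) (min (c / (2 * M)) (1 / (4 * M)))) with ht
  have hLp := N.L_pos d
  have htpos : 0 < t := by positivity
  have ht1 : t ≤ 1 := (min_le_left _ _).trans (min_le_left _ _)
  have ht2 : t ≤ N.L d := (min_le_left _ _).trans (min_le_right _ _)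
  have ht3 : t ≤ δ / 4 := (min_le_right _ _).trans (min_le_left _ _)
  have ht4 : t ≤ c / (2 * M) := (min_le_right _ _).trans ((min_le_right _ _).trans (min_le_left _ _))
  have ht5 : t ≤ 1 / (4 * M) :=
    (min_le_right _ _).trans ((min_le_right _ _).trans (min_le_right _ _))
  have htd : t ∈ N.dom d := ⟨htpos.le, Or.inr ht2⟩
  have h1 := (N.near_src d htd ht1).2
  have e4 : M * t ≤ c / 2 := by
    calc M * t ≤ M * (c / (2 * M)) := by gcongr
      _ = c / 2 := by field_simp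
  have e5 : M * t ≤ 1 / 4 := by
    calc M * t ≤ M * (1 / (4 * M)) := by gcongr
      _ = 1 / 4 := by field_simp
  set q := N.z d t - N.src d - (t : ℂ) * dir (N.a d 0) with hq
  have e0 : N.z d t = N.src d + (t : ℂ) * dir (N.a d 0) + q := by rw [hq]; ring
  refine ⟨N.z d t, N.mem_carrier htd, ?_, ?_⟩
  · have : N.z d t - N.src d = (t : ℂ) * dir (N.a d 0) + q := by rw [e0]; ring
    rw [this]
    refine lt_of_le_of_lt (norm_add_le _ _) ?_
    rw [norm_mul_dir, abs_of_pos htpos]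
    have : ‖q‖ ≤ 1 / 4 * t := h1.trans (by gcongr)
    linarith
  · rw [e0, add_mul, add_mul, Complex.add_im, Complex.add_im, hm, zero_add, mul_assoc,
      conj_dir_mul, Complex.im_ofReal_mul, dir_im]
    have h2 : |(q * (starRingEnd ℂ) (dir m)).im| ≤ c / 2 * t := by
      calc _ ≤ ‖q * (starRingEnd ℂ) (dir m)‖ := Complex.abs_im_le_norm _
        _ = ‖q‖ := by rw [norm_mul, Complex.norm_conj, norm_dir, mul_one]
        _ ≤ c / 2 * t := h1.trans (by gcongr)
    have h3 := (abs_le.1 h2).2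
    have h4 : t * Real.sin (N.a d 0 - m) = - (c * t) := by rw [hc]; ring
    rw [h4]
    nlinarith [mul_pos hcpos htpos]

theorem edge_down {d : N.D} {m t : ℝ} (ht : t ∈ N.int d)
    (hm : (N.z d t * (starRingEnd ℂ) (dir m)).im = 0)
    (hs : Real.sin (N.a d t - m) ≠ 0) {δ : ℝ} (hδ : 0 < δ) :
    ∃ w ∈ N.carrier, ‖w - N.z d t‖ < δ ∧ (w * (starRingEnd ℂ) (dir m)).im < 0 := by
  by_contra hcon
  push Not at hcon
  have h1 := N.hasDerivAt_z ht
  have h2 : HasDerivAt (fun s => (N.z d s * (starRingEnd ℂ) (dir m)).im)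
      ((dir (N.a d t) * (starRingEnd ℂ) (dir m)).im) t :=
    (Complex.imCLM.hasFDerivAt.comp_hasDerivAt t (h1.mul_const _))
  have h3 : IsLocalMin (fun s => (N.z d s * (starRingEnd ℂ) (dir m)).im) t := by
    have hcz : Tendsto (fun s => ‖N.z d s - N.z d t‖) (𝓝 t) (𝓝 0) := by
      have : ContinuousAt (fun s => ‖N.z d s - N.z d t‖) t :=
        (h1.continuousAt.sub continuousAt_const).norm
      have h5 := this.tendsto
      simpa using h5
    filter_upwards [(N.isOpen_int d).mem_nhds ht, hcz.eventually_lt_const hδ] with s hs1 hs2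
    rw [hm]
    exact hcon _ (N.mem_carrier (N.int_subset_dom d hs1)) hs2
  have h4 := h3.hasDerivAt_eq_zero h2
  rw [conj_dir_mul, dir_im] at h4
  exact hs h4

/-- `θ` is minimal among the carrier points in the region: impossible -/
theorem no_min {a b : ℝ → ℝ} {θ1 θ2 : ℝ} (hac : ContinuousOn a (Icc θ1 θ2))
    (hbc : ContinuousOn b (Icc θ1 θ2)) (ha0 : ∀ x ∈ Icc θ1 θ2, 0 ≤ a x)
    (hU : ∀ x ∈ Ioo θ1 θ2, ∃ ε > 0, ∀ r θ : ℝ, 0 < r → |r - b x| < ε → |θ - x| < ε →
      (r : ℂ) * dir θ ∈ N.carrier → b θ ≤ r)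
    {m : ℝ} (hm : m ∈ Ioo θ1 θ2) {r0 : ℝ} (h1 : a m < r0) (h2 : r0 < b m)
    (hcar : (r0 : ℂ) * dir m ∈ N.carrier)
    (hmin : ∀ θ ∈ Ioo θ1 θ2, ∀ r, a θ < r → r < b θ → (r : ℂ) * dir θ ∈ N.carrier → m ≤ θ) :
    False := by
  have hmI : m ∈ Icc θ1 θ2 := Ioo_subset_Icc_self hm
  have ham := ha0 m hmI
  -- no carrier points with smaller angle
  have LOC : ∀ r1, a m < r1 → r1 < b m → ∃ δ > 0, ∀ w ∈ N.carrier, ‖w - (r1 : ℂ) * dir m‖ < δ →
      ¬ (w * (starRingEnd ℂ) (dir m)).im < 0 := by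
    intro r1 h3 h4
    have hca : ContinuousAt a m := hac.continuousAt (Icc_mem_nhds hm.1 hm.2)
    have hcb : ContinuousAt b m := hbc.continuousAt (Icc_mem_nhds hm.1 hm.2)
    have e1 : ∀ᶠ θ in 𝓝 m, a θ < (a m + r1) / 2 :=
      hca.tendsto.eventually_lt_const (by linarith)
    have e2 : ∀ᶠ θ in 𝓝 m, (r1 + b m) / 2 < b θ :=
      hcb.tendsto.eventually_const_lt (by linarith)
    have e3 : ∀ᶠ θ in 𝓝 m, θ ∈ Ioo θ1 θ2 := Ioo_mem_nhds hm.1 hm.2
    obtain ⟨ε, hε, h5⟩ := Metric.eventually_nhds_iff.1 (e1.and (e2.and e3))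
    obtain ⟨δ, hδ, h6⟩ := polar_near (r0 := r1) (m := m)
      (ε := min ε (min ((r1 - a m) / 2) ((b m - r1) / 2))) (by linarith) (by
        have : 0 < (r1 - a m) / 2 := by linarith
        have : 0 < (b m - r1) / 2 := by linarith
        positivity)
    refine ⟨δ, hδ, fun w hw hwd him => ?_⟩
    obtain ⟨r, θ, hr, hr1, hθ1, hwe, h7, _⟩ := h6 w hwd
    simp only [lt_min_iff] at hr1 hθ1
    have h8 := h7 him
    obtain ⟨h9, h10, h11⟩ := h5 (y := θ) (by rw [Real.dist_eq]; exact hθ1.1)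
    have h12 := abs_lt.1 hr1.2.1
    have h13 := abs_lt.1 hr1.2.2
    have := hmin θ h11 r (by linarith [h12.1]) (by linarith [h13.2]) (by rw [← hwe]; exact hw)
    linarith
  have him0 : ∀ r1 : ℝ, (((r1 : ℂ) * dir m) * (starRingEnd ℂ) (dir m)).im = 0 := by
    intro r1
    rw [mul_assoc, conj_dir_mul]; simp [dir_zero]
  have V : ∀ r1, a m < r1 → r1 < b m → (r1 : ℂ) * dir m ∉ N.verts := by
    rintro r1 h3 h4 ⟨e, he⟩
    obtain ⟨δ, hδ, h5⟩ := LOC r1 h3 h4
    obtain ⟨d, hd, hs⟩ := N.exists_down e m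
    rw [he] at hd
    obtain ⟨w, hw, hw1, hw2⟩ := N.vertex_down (d := d) (m := m) (by rw [hd]; exact him0 r1) hs hδ
    rw [hd] at hw1
    exact h5 w hw hw1 hw2
  rcases N.carrier_cases hcar with h3 | ⟨d, t, ht, he⟩
  · exact V r0 h1 h2 h3
  have htd := N.int_subset_dom d ht
  by_cases hs : Real.sin (N.a d t - m) = 0
  · -- radial edge
    have hE : N.E d = 0 := by
      rw [← N.E_eq htd, he, cross_eq_sin, hs]; ring
    have hat : N.a d t = N.a d 0 := N.a_const hE htd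
    rw [hat] at hs
    -- direction
    have hη : ∃ η : ℝ, (η = 1 ∨ η = -1) ∧ dir (N.a d 0) = (η : ℂ) * dir m := by
      have h4 : Real.cos (N.a d 0 - m) = 1 ∨ Real.cos (N.a d 0 - m) = -1 := by
        have := Real.sin_sq_add_cos_sq (N.a d 0 - m)
        rw [hs] at this
        have h5 : (Real.cos (N.a d 0 - m) - 1) * (Real.cos (N.a d 0 - m) + 1) = 0 := by linarith
        rcases mul_eq_zero.1 h5 with h6 | h6
        · left; linarith
        · right; linarith
      refine ⟨Real.cos (N.a d 0 - m), h4, ?_⟩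
      have h5 : dir (N.a d 0 - m) = (Real.cos (N.a d 0 - m) : ℂ) := by
        apply Complex.ext
        · rw [dir_re, Complex.ofReal_re]
        · rw [dir_im, hs, Complex.ofReal_im]
      rw [← h5, ← dir_add]; ring_nf
    obtain ⟨η, hη1, hη2⟩ := hη
    have hηsq : η * η = 1 := by rcases hη1 with h | h <;> rw [h] <;> norm_num
    have hline : ∀ s ∈ N.dom d, N.z d s = ((r0 + η * (s - t) : ℝ) : ℂ) * dir m := by
      intro s hs1
      have e1 := N.z_line hE hs1
      have e2 := N.z_line hE htd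
      rw [e2, hη2] at he
      rw [e1, hη2]
      push_cast
      linear_combination he
    -- all radii up to `b m` are reached
    have hall : ∀ r, r0 ≤ r → r < b m → (r : ℂ) * dir m ∈ N.carrier := by
      intro r h4 h5
      by_contra hcon
      rcases hη1 with h6 | h6
      · -- outward
        have h7 : ¬ (N.isRay d ∨ t + (r - r0) ≤ N.L d) := by
          intro h8
          apply hcon
          have h9 : t + (r - r0) ∈ N.dom d := ⟨by linarith [htd.1], h8⟩
          have h10 := hline _ h9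
          rw [h6] at h10
          have : r0 + 1 * (t + (r - r0) - t) = r := by ring
          rw [this] at h10
          rw [← h10]; exact N.mem_carrier h9
        push Not at h7
        have h8 : (N.tgt d) = ((r0 + (N.L d - t) : ℝ) : ℂ) * dir m := by
          have := hline _ (N.L_mem_dom d)
          rw [h6, one_mul] at this; exact this
        have h9 : t ≤ N.L d := by
          rcases ht.2 with h10 | h10
          · exact absurd h10 h7.1
          · exact h10.le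
        apply V (r0 + (N.L d - t)) (by linarith) (by linarith [h7.2])
        rw [← h8]; exact N.tgt_mem_verts h7.1
      · -- inward
        have h7 : ¬ (0 ≤ t - (r - r0)) := by
          intro h8
          apply hcon
          have h9 : t - (r - r0) ∈ N.dom d := N.dom_of_le htd h8 (by linarith)
          have h10 := hline _ h9
          rw [h6] at h10
          have : r0 + -1 * (t - (r - r0) - t) = r := by ring
          rw [this] at h10
          rw [← h10]; exact N.mem_carrier h9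
        push Not at h7
        have h8 : (N.src d) = ((r0 + t : ℝ) : ℂ) * dir m := by
          have := hline _ (N.zero_mem_dom d)
          rw [h6] at this
          have e : r0 + -1 * (0 - t) = r0 + t := by ring
          rw [e] at this; exact this
        apply V (r0 + t) (by linarith [htd.1]) (by linarith)
        rw [← h8]; exact ⟨d, rfl⟩
    obtain ⟨ε, hε, h4⟩ := hU m hm
    have h5 : max r0 (b m - ε / 2) < b m := max_lt h2 (by linarith)
    have h6 := h4 (max r0 (b m - ε / 2)) m (lt_of_lt_of_le (by linarith) (le_max_left _ _)) (by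
      rw [abs_lt]; constructor
      · linarith [le_max_right r0 (b m - ε / 2)]
      · linarith) (by simpa using hε) (hall _ (le_max_left _ _) h5)
    linarith
  · obtain ⟨δ, hδ, h5⟩ := LOC r0 h1 h2
    obtain ⟨w, hw, hw1, hw2⟩ := N.edge_down (m := m) ht (by rw [he]; exact him0 r0) hs hδ
    rw [he] at hw1
    exact h5 w hw hw1 hw2

/-- the emptiness lemma of the angular sweep -/
theorem empty {a b : ℝ → ℝ} {θ1 θ2 : ℝ} (hac : ContinuousOn a (Icc θ1 θ2))
    (hbc : ContinuousOn b (Icc θ1 θ2)) (ha0 : ∀ x ∈ Icc θ1 θ2, 0 ≤ a x)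
    (hL : ∀ r0 ∈ Icc (a θ1) (b θ1), ∃ ε > 0, ∀ r θ : ℝ, 0 < r → |r - r0| < ε → θ1 < θ →
      θ < θ1 + ε → (r : ℂ) * dir θ ∈ N.carrier → ¬ (a θ < r ∧ r < b θ))
    (hU : ∀ x ∈ Ioo θ1 θ2, ∃ ε > 0, ∀ r θ : ℝ, 0 < r → |r - b x| < ε → |θ - x| < ε →
      (r : ℂ) * dir θ ∈ N.carrier → b θ ≤ r)
    (hD : ∀ x ∈ Ioo θ1 θ2, ∃ ε > 0, ∀ r θ : ℝ, 0 < r → |r - a x| < ε → |θ - x| < ε →
      (r : ℂ) * dir θ ∈ N.carrier → r ≤ a θ) :
    ∀ θ ∈ Ioo θ1 θ2, ∀ r, a θ < r → r < b θ → (r : ℂ) * dir θ ∉ N.carrier := by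
  intro θ0 hθ0 r00 hr1 hr2 hc
  -- the infimum of the bad angles
  set A : Set ℝ := {θ | θ ∈ Ioo θ1 θ2 ∧ ∃ r, a θ < r ∧ r < b θ ∧ (r : ℂ) * dir θ ∈ N.carrier}
    with hA
  have hθA : θ0 ∈ A := ⟨hθ0, r00, hr1, hr2, hc⟩
  have hbdd : BddBelow A := ⟨θ1, fun θ hθ => hθ.1.1.le⟩
  set m := sInf A with hm
  have hm1 : θ1 ≤ m := le_csInf ⟨_, hθA⟩ (fun θ hθ => hθ.1.1.le)
  have hm2 : m ≤ θ0 := csInf_le hbdd hθA
  have hmI : m ∈ Icc θ1 θ2 := ⟨hm1, hm2.trans hθ0.2.le⟩
  -- approximating sequence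
  have hseq : ∀ k : ℕ, ∃ θ r : ℝ, m ≤ θ ∧ θ < m + 1 / (k + 1) ∧ θ ∈ Ioo θ1 θ2 ∧ a θ < r ∧ r < b θ ∧
      (r : ℂ) * dir θ ∈ N.carrier := by
    intro k
    obtain ⟨θ, hθ, hlt⟩ := exists_lt_of_csInf_lt ⟨_, hθA⟩
      (show sInf A < m + 1 / ((k : ℝ) + 1) by rw [← hm]; linarith [show (0:ℝ) < 1 / ((k : ℝ) + 1) by positivity])
    obtain ⟨h1, r, h2, h3, h4⟩ := hθ
    exact ⟨θ, r, csInf_le hbdd ⟨h1, r, h2, h3, h4⟩, hlt, h1, h2, h3, h4⟩
  choose θk rk hk1 hk2 hk3 hk4 hk5 hk6 using hseq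
  have hθlim : Tendsto θk atTop (𝓝 m) := by
    have h1 : Tendsto (fun k : ℕ => m + 1 / ((k : ℝ) + 1)) atTop (𝓝 (m + 0)) :=
      tendsto_const_nhds.add tendsto_one_div_add_atTop_nhds_zero_nat
    rw [add_zero] at h1
    exact tendsto_of_tendsto_of_tendsto_of_le_of_le tendsto_const_nhds h1 hk1
      (fun k => (hk2 k).le)
  -- bounded radii
  obtain ⟨M, hM⟩ : ∃ M, ∀ x ∈ Icc θ1 θ2, b x ≤ M := by
    obtain ⟨x0, _, hx0⟩ := isCompact_Icc.exists_isMaxOn ⟨m, hmI⟩ hbc
    exact ⟨b x0, fun x hx => hx0 hx⟩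
  have hrk : ∀ k, rk k ∈ Icc 0 M := fun k =>
    ⟨(ha0 _ (Ioo_subset_Icc_self (hk3 k))).trans (hk4 k).le,
      (hk5 k).le.trans (hM _ (Ioo_subset_Icc_self (hk3 k)))⟩
  obtain ⟨r0, _, φ, hφ, hrlim⟩ := isCompact_Icc.tendsto_subseq hrk
  have hθlim' : Tendsto (θk ∘ φ) atTop (𝓝 m) := hθlim.comp hφ.tendsto_atTop
  have hθw : Tendsto (θk ∘ φ) atTop (𝓝[Icc θ1 θ2] m) :=
    tendsto_nhdsWithin_iff.2 ⟨hθlim', Eventually.of_forall
      (fun k => Ioo_subset_Icc_self (hk3 _))⟩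
  have halim : Tendsto (fun k => a (θk (φ k))) atTop (𝓝 (a m)) := (hac m hmI).tendsto.comp hθw
  have hblim : Tendsto (fun k => b (θk (φ k))) atTop (𝓝 (b m)) := (hbc m hmI).tendsto.comp hθw
  have har : a m ≤ r0 := le_of_tendsto_of_tendsto' halim hrlim (fun k => (hk4 _).le)
  have hrb : r0 ≤ b m := le_of_tendsto_of_tendsto' hrlim hblim (fun k => (hk5 _).le)
  have hrpos : ∀ k, 0 < rk k := fun k =>
    lt_of_le_of_lt (ha0 _ (Ioo_subset_Icc_self (hk3 k))) (hk4 k)
  have evr : ∀ ε > 0, ∀ᶠ k in atTop, |rk (φ k) - r0| < ε := by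
    intro ε hε
    have := (Metric.tendsto_nhds.1 hrlim) ε hε
    simpa [Real.dist_eq] using this
  have evθ : ∀ ε > 0, ∀ᶠ k in atTop, |θk (φ k) - m| < ε := by
    intro ε hε
    have := (Metric.tendsto_nhds.1 hθlim') ε hε
    simpa [Real.dist_eq] using this
  rcases eq_or_lt_of_le hm1 with h1 | h1
  · -- the left end
    obtain ⟨ε, hε, h2⟩ := hL r0 ⟨by rw [h1]; exact har, by rw [h1]; exact hrb⟩
    obtain ⟨k, hk⟩ := ((evr ε hε).and (evθ ε hε)).exists
    refine h2 (rk (φ k)) (θk (φ k)) (hrpos _) hk.1 (hk3 _).1 ?_ (hk6 _) ⟨hk4 _, hk5 _⟩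
    rw [h1]; linarith [(abs_lt.1 hk.2).2]
  have hmo : m ∈ Ioo θ1 θ2 := ⟨h1, lt_of_le_of_lt hm2 hθ0.2⟩
  rcases eq_or_lt_of_le har with h2 | h2
  · obtain ⟨ε, hε, h3⟩ := hD m hmo
    rw [← h2] at evr
    obtain ⟨k, hk⟩ := ((evr ε hε).and (evθ ε hε)).exists
    have := h3 (rk (φ k)) (θk (φ k)) (hrpos _) hk.1 hk.2 (hk6 _)
    linarith [hk4 (φ k)]
  rcases eq_or_lt_of_le hrb with h3 | h3
  · obtain ⟨ε, hε, h4⟩ := hU m hmo
    rw [h3] at evr
    obtain ⟨k, hk⟩ := ((evr ε hε).and (evθ ε hε)).exists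
    have := h4 (rk (φ k)) (θk (φ k)) (hrpos _) hk.1 hk.2 (hk6 _)
    linarith [hk5 (φ k)]
  · -- interior minimum
    have hcar : (r0 : ℂ) * dir m ∈ N.carrier := by
      have h4 : Tendsto (fun k => ((rk (φ k) : ℝ) : ℂ) * dir (θk (φ k))) atTop
          (𝓝 ((r0 : ℂ) * dir m)) := by
        apply Tendsto.mul
        · exact (Complex.continuous_ofReal.tendsto _).comp hrlim
        · exact (continuous_dir.tendsto _).comp hθlim'
      exact N.isClosed_carrier.mem_of_tendsto h4 (Eventually.of_forall (fun k => hk6 _))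
    refine no_min hac hbc ha0 hU hmo h2 h3 hcar ?_
    intro θ hθ r h4 h5 h6
    exact csInf_le hbdd ⟨hθ, r, h4, h5, h6⟩

end Net

end

end Pool.Agent.MP_4c0f47_an
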