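import Pool.Agent.Lib.MP_4c0f47_an.SweepA
import Pool.Agent.Lib.MP_4c0f47_an.AreaC

set_option autoImplicit false

open Set Filter Topology Complex MeasureTheory

namespace Pool.Agent.MP_4c0f47_an

noncomputable section

/-- representative in `[0, 2π)` -/
def fr (x : ℝ) : ℝ := x - 2 * Real.pi * ⌊x / (2 * Real.pi)⌋

theorem fr_mem (x : ℝ) : 0 ≤ fr x ∧ fr x < 2 * Real.pi := by
  have h2 : (0 : ℝ) < 2 * Real.pi := by positivity
  have h3 := Int.floor_le (x / (2 * Real.pi))
  have h4 := Int.lt_floor_add_one (x / (2 * Real.pi))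
  rw [le_div_iff₀ h2] at h3
  rw [div_lt_iff₀ h2] at h4
  unfold fr
  constructor <;> linarith

theorem dir_fr (x : ℝ) : dir (fr x) = dir x := by
  rw [dir_eq_iff]
  exact ⟨-⌊x / (2 * Real.pi)⌋, by unfold fr; push_cast; ring⟩

theorem fr_unique {x y : ℝ} (h : dir x = dir y) (h0 : 0 ≤ y) (h1 : y < 2 * Real.pi) :
    fr x = y := by
  apply dir_inj_of_lt
  · rw [dir_fr, h]
  · have := fr_mem x
    rw [abs_lt]; constructor <;> linarith [this.1, this.2]

theorem fr_congr {x y : ℝ} (h : dir x = dir y) : fr x = fr y :=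
  fr_unique (h.trans (dir_fr y).symm) (fr_mem y).1 (fr_mem y).2

theorem fr_add (x : ℝ) : fr (x + Real.pi / 3) = fr x + Real.pi / 3 ∨
    (5 * Real.pi / 3 ≤ fr x ∧ fr (x + Real.pi / 3) = fr x + Real.pi / 3 - 2 * Real.pi) := by
  have hpi := Real.pi_pos
  have hm := fr_mem x
  have hd : dir (x + Real.pi / 3) = dir (fr x + Real.pi / 3) := by
    rw [dir_add, dir_add, dir_fr]
  rcases lt_or_ge (fr x) (5 * Real.pi / 3) with h | h
  · left
    exact fr_unique hd (by linarith) (by linarith)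
  · right
    refine ⟨h, fr_unique ?_ (by linarith) (by linarith)⟩
    rw [hd, dir_eq_iff]
    exact ⟨1, by push_cast; ring⟩

theorem fr_sub {x y : ℝ} (hxy : x ≤ y) (h : ∀ n : ℤ, 2 * Real.pi * n ∉ Icc x y) :
    fr y - fr x = y - x := by
  have h2 : (0 : ℝ) < 2 * Real.pi := by positivity
  have h3 := Int.floor_le (y / (2 * Real.pi))
  rw [le_div_iff₀ h2] at h3
  have h4 : ⌊x / (2 * Real.pi)⌋ = ⌊y / (2 * Real.pi)⌋ := by
    apply le_antisymm
    · exact Int.floor_le_floor (by gcongr)
    · rw [Int.le_floor, le_div_iff₀ h2]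
      by_contra hcon
      push Not at hcon
      exact h ⌊y / (2 * Real.pi)⌋ ⟨by linarith, by linarith⟩
  unfold fr
  rw [h4]; ring

theorem fr_sub_of_cont {f : ℝ → ℝ} {s t : ℝ} (hst : s ≤ t) (hf : ContinuousOn f (Icc s t))
    (h : (∀ u ∈ Icc s t, Real.sin (f u) ≠ 0) ∨ (∀ u ∈ Icc s t, Real.sin (f u) = 0)) :
    fr (f t) - fr (f s) = f t - f s := by
  have hpi := Real.pi_pos
  rcases h with h | h
  · have key : ∀ n : ℤ, ∀ u ∈ Icc s t, f u ≠ 2 * Real.pi * n := by
      intro n u hu heq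
      apply h u hu
      rw [heq, show 2 * Real.pi * n = ((2 * n : ℤ) : ℝ) * Real.pi by push_cast; ring]
      exact Real.sin_int_mul_pi _
    rcases le_total (f s) (f t) with h1 | h1
    · apply fr_sub h1
      intro n hn
      obtain ⟨u, hu, he⟩ := intermediate_value_Icc hst hf hn
      exact key n u hu he
    · have := fr_sub h1 (by
        intro n hn
        obtain ⟨u, hu, he⟩ := intermediate_value_Icc' hst hf hn
        exact key n u hu he)
      linarith
  · -- constant
    have hval : ∀ u ∈ Icc s t, ∃ n : ℤ, (n : ℝ) * Real.pi = f u := by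
      intro u hu
      exact Real.sin_eq_zero_iff.1 (h u hu)
    have key : f s = f t := by
      by_contra hne
      have hs := hval s (left_mem_Icc.2 hst)
      obtain ⟨k, hk⟩ := hs
      have hmid : ∀ δ : ℝ, 0 < δ → δ < Real.pi → ∀ u ∈ Icc s t, f u ≠ f s + δ ∧ f u ≠ f s - δ := by
        intro δ h0 h1 u hu
        obtain ⟨m, hm⟩ := hval u hu
        constructor
        · intro he
          have h2 : ((m - k : ℤ) : ℝ) * Real.pi = δ := by push_cast; rw [sub_mul, hm, hk, he]; ring
          have h3 : (0 : ℝ) < ((m - k : ℤ) : ℝ) := by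
            by_contra hc
            push Not at hc
            nlinarith
          have h4 : ((m - k : ℤ) : ℝ) < 1 := by
            by_contra hc
            push Not at hc
            nlinarith
          have h5 : 0 < m - k := by exact_mod_cast h3
          have h6 : m - k < 1 := by exact_mod_cast h4
          omega
        · intro he
          have h2 : ((k - m : ℤ) : ℝ) * Real.pi = δ := by push_cast; rw [sub_mul, hm, hk, he]; ring
          have h3 : (0 : ℝ) < ((k - m : ℤ) : ℝ) := by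
            by_contra hc
            push Not at hc
            nlinarith
          have h4 : ((k - m : ℤ) : ℝ) < 1 := by
            by_contra hc
            push Not at hc
            nlinarith
          have h5 : 0 < k - m := by exact_mod_cast h3
          have h6 : k - m < 1 := by exact_mod_cast h4
          omega
      rcases lt_or_gt_of_ne hne with h1 | h1
      · set δ := min (f t - f s) Real.pi / 2 with hδ
        have hδ0 : 0 < δ := by
          have := lt_min (sub_pos.2 h1) hpi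
          linarith
        have hδ1 : δ < Real.pi := by
          have := min_le_right (f t - f s) Real.pi
          linarith
        have hδ2 : δ ≤ f t - f s := by
          have := min_le_left (f t - f s) Real.pi
          linarith
        obtain ⟨u, hu, he⟩ := intermediate_value_Icc hst hf (show f s + δ ∈ Icc (f s) (f t) from
          ⟨by linarith, by linarith⟩)
        exact (hmid δ hδ0 hδ1 u hu).1 he
      · set δ := min (f s - f t) Real.pi / 2 with hδ
        have hδ0 : 0 < δ := by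
          have := lt_min (sub_pos.2 h1) hpi
          linarith
        have hδ1 : δ < Real.pi := by
          have := min_le_right (f s - f t) Real.pi
          linarith
        have hδ2 : δ ≤ f s - f t := by
          have := min_le_left (f s - f t) Real.pi
          linarith
        obtain ⟨u, hu, he⟩ := intermediate_value_Icc' hst hf (show f s - δ ∈ Icc (f t) (f s) from
          ⟨by linarith, by linarith⟩)
        exact (hmid δ hδ0 hδ1 u hu).2 he
    rw [key]; ring

namespace Net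

variable {N : Net}

theorem polar_arg (w : ℂ) : w = (‖w‖ : ℂ) * dir (Complex.arg w) :=
  (Complex.norm_mul_exp_arg_mul_I w).symm

theorem dir_eq_of_polar {w : ℂ} (hw : w ≠ 0) {θ θ' : ℝ} (h : w = (‖w‖ : ℂ) * dir θ)
    (h' : w = (‖w‖ : ℂ) * dir θ') : dir θ = dir θ' := by
  have hn : (‖w‖ : ℂ) ≠ 0 := by
    rw [Complex.ofReal_ne_zero]; exact (norm_pos_iff.2 hw).ne'
  exact mul_left_cancel₀ hn (h.symm.trans h')

/-- polar form along an edge which avoids the origin -/
theorem polar_of_off {d : N.D} (h0 : ∀ t ∈ Icc 0 (N.L d), N.z d t ≠ 0) {t : ℝ}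
    (ht : t ∈ Icc 0 (N.L d)) {θ : ℝ} (hθ : N.src d = (‖N.src d‖ : ℂ) * dir θ) :
    N.z d t = (‖N.z d t‖ : ℂ) * dir (θ + N.ang d t) := by
  have htd : t ∈ N.dom d := ⟨ht.1, Or.inr ht.2⟩
  have hg := (N.geo' htd)
  have h1 := hg.exp_cind ht.1 (x := 0) (fun u hu => h0 u ⟨hu.1, hu.2.trans ht.2⟩)
  rw [sub_zero, sub_zero] at h1
  have h00 : N.z d 0 ≠ 0 := h0 0 ⟨le_rfl, (N.L_pos d).le⟩
  set w := cind (N.z d) (N.a d) 0 t 0 with hw
  have h2 : N.z d t = N.z d 0 * Complex.exp w := by rw [h1]; field_simp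
  have h3 : Complex.exp w = (Real.exp w.re : ℂ) * dir (N.ang d t) := by
    conv_lhs => rw [← Complex.re_add_im w]
    rw [Complex.exp_add, dir, ang, ← hw, Complex.ofReal_exp]
  have h4 : ‖N.z d t‖ = ‖N.z d 0‖ * Real.exp w.re := by
    rw [h2, norm_mul, h3, norm_mul, norm_dir, mul_one, Complex.norm_real, Real.norm_eq_abs,
      abs_of_pos (Real.exp_pos _)]
  rw [h4, h2, h3, dir_add]
  simp only [src] at hθ
  conv_lhs => rw [hθ]
  push_cast
  ring

theorem continuousOn_ang_of_off {d : N.D} (h0 : ∀ t ∈ Icc 0 (N.L d), N.z d t ≠ 0) :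
    ContinuousOn (N.ang d) (Icc 0 (N.L d)) := by
  have hg := N.geoL d
  have hc : ContinuousOn (fun t => dir (N.a d t) / (N.z d t - 0)) (Icc 0 (N.L d)) :=
    hg.cont_integrand (fun t ht => h0 t ht)
  have hi : IntervalIntegrable (fun t => dir (N.a d t) / (N.z d t - 0)) volume 0 (N.L d) :=
    ContinuousOn.intervalIntegrable_of_Icc (N.L_pos d).le hc
  have h1 := intervalIntegral.continuousOn_primitive_interval' hi (a := 0) (by
    rw [uIcc_of_le (N.L_pos d).le]; exact ⟨le_rfl, (N.L_pos d).le⟩)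
  rw [uIcc_of_le (N.L_pos d).le] at h1
  exact Complex.continuous_im.comp_continuousOn h1

/-- angle of the initial direction relative to the outward radial direction -/
def psi0 (d : N.D) : ℝ := fr (N.a d 0 - Complex.arg (N.src d))
/-- angle of the final direction relative to the outward radial direction -/
def psi1 (d : N.D) : ℝ := fr (N.a d (N.L d) - Complex.arg (N.tgt d))

theorem psi_sub {d : N.D} (h0 : ∀ t ∈ Icc 0 (N.L d), N.z d t ≠ 0) :
    N.psi1 d - N.psi0 d = N.turn d - (N.ind d 0).im := by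
  set θ := Complex.arg (N.src d) with hθ
  have hsrc : N.src d = (‖N.src d‖ : ℂ) * dir θ := polar_arg _
  set f : ℝ → ℝ := fun t => N.a d t - (θ + N.ang d t) with hf
  have hL := (N.L_pos d).le
  have hcont : ContinuousOn f (Icc 0 (N.L d)) :=
    (N.geoL d).ca.sub (continuousOn_const.add (continuousOn_ang_of_off h0))
  have hcross : ∀ t ∈ Icc 0 (N.L d), cross (N.z d t) (dir (N.a d t)) =
      ‖N.z d t‖ * Real.sin (f t) := by
    intro t ht
    have h1 := polar_of_off h0 ht hsrc
    conv_lhs => rw [h1]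
    rw [cross_eq_sin]
  have hE : ∀ t ∈ Icc 0 (N.L d), (Real.sin (f t) = 0 ↔ N.E d = 0) := by
    intro t ht
    have h1 := N.E_eq (d := d) (t := t) ⟨ht.1, Or.inr ht.2⟩
    rw [hcross t ht] at h1
    have hn : ‖N.z d t‖ ≠ 0 := (norm_pos_iff.2 (h0 t ht)).ne'
    have he := (Real.exp_pos (-(‖N.z d t‖ ^ 2) / 2)).ne'
    rw [← h1]
    constructor
    · intro h; rw [h]; ring
    · intro h
      rcases mul_eq_zero.1 h with h | h
      · rcases mul_eq_zero.1 h with h | h
        · exact absurd h hn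
        · exact h
      · exact absurd h he
  have hkey := fr_sub_of_cont hL hcont (by
    by_cases hE0 : N.E d = 0
    · right; intro u hu; exact (hE u hu).2 hE0
    · left; intro u hu hs; exact hE0 ((hE u hu).1 hs))
  have e0 : fr (f 0) = N.psi0 d := by
    rw [psi0, hf]
    simp only [N.ang_zero, add_zero]
    rw [hθ]
  have e1 : fr (f (N.L d)) = N.psi1 d := by
    rw [psi1]
    apply fr_congr
    have h1 := polar_of_off h0 (right_mem_Icc.2 hL) hsrc
    have h2 : N.tgt d = (‖N.tgt d‖ : ℂ) * dir (Complex.arg (N.tgt d)) := polar_arg _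
    have h3 := dir_eq_of_polar (h0 (N.L d) (right_mem_Icc.2 hL)) h1 h2
    rw [hf]
    simp only
    rw [dir_sub, dir_neg, h3, ← dir_neg, ← dir_sub]
  rw [← e0, ← e1, hkey, hf]
  simp only [N.ang_zero]
  unfold turn ang ind
  ring

theorem sin_psi1 (d : N.D) : ‖N.tgt d‖ * Real.sin (N.psi1 d) =
    cross (N.tgt d) (dir (N.a d (N.L d))) := by
  have h2 : N.tgt d = (‖N.tgt d‖ : ℂ) * dir (Complex.arg (N.tgt d)) := polar_arg _
  conv_rhs => rw [h2]
  rw [cross_eq_sin, ← dir_im, ← dir_im, psi1, dir_fr]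

theorem sin_psi0 (d : N.D) : ‖N.src d‖ * Real.sin (N.psi0 d) =
    cross (N.src d) (dir (N.a d 0)) := by
  have h2 : N.src d = (‖N.src d‖ : ℂ) * dir (Complex.arg (N.src d)) := polar_arg _
  conv_rhs => rw [h2]
  rw [cross_eq_sin, ← dir_im, ← dir_im, psi0, dir_fr]

theorem cos_psi0 (d : N.D) : ‖N.src d‖ * Real.cos (N.psi0 d) =
    dot (N.src d) (dir (N.a d 0)) := by
  have h2 : N.src d = (‖N.src d‖ : ℂ) * dir (Complex.arg (N.src d)) := polar_arg _
  conv_rhs => rw [h2]
  rw [dot_eq_cos, ← dir_re, ← dir_re, psi0, dir_fr]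

theorem psi_left {d : N.D} (h : ¬ N.isRay d) :
    N.psi0 (N.left d) = N.psi1 d + Real.pi / 3 ∨
    (5 * Real.pi / 3 ≤ N.psi1 d ∧ N.psi0 (N.left d) < Real.pi / 3) := by
  have h1 : N.psi0 (N.left d) = fr (N.a d (N.L d) - Complex.arg (N.tgt d) + Real.pi / 3) := by
    rw [psi0]
    apply fr_congr
    rw [N.src_left h, dir_sub, N.dir_left h, ← dir_sub]
    congr 1; ring
  rw [h1, psi1]
  rcases fr_add (N.a d (N.L d) - Complex.arg (N.tgt d)) with h2 | h2
  · exact Or.inl h2
  · right
    refine ⟨h2.1, ?_⟩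
    rw [h2.2]
    linarith [(fr_mem (N.a d (N.L d) - Complex.arg (N.tgt d))).2]

theorem tip_of {d : N.D} (h : ¬ N.isRay d) (hl : ¬ N.isRay (N.left d)) (h0 : N.tgt d ≠ 0)
    (h1 : 5 * Real.pi / 3 ≤ N.psi1 d) (h2 : N.psi0 (N.left d) < Real.pi / 3) :
    N.Tip (N.left d) := by
  have hpi := Real.pi_pos
  have hn : 0 < ‖N.tgt d‖ := norm_pos_iff.2 h0
  have hrot : N.rot (N.left d) = N.rev d := by rw [left, N.rot3]
  refine ⟨hl, ?_, ?_⟩
  · rw [hrot, CCW, N.E_rev h]
    have h3 : Real.sin (N.psi1 d) < 0 := by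
      have h4 := (fr_mem (N.a d (N.L d) - Complex.arg (N.tgt d))).2
      have h5 : N.psi1 d < 2 * Real.pi := h4
      have h6 : Real.sin (N.psi1 d) = Real.sin (N.psi1 d - 2 * Real.pi) := (Real.sin_sub_two_pi _).symm
      rw [h6]
      apply Real.sin_neg_of_neg_of_neg_pi_lt <;> linarith
    have h7 := N.sin_psi1 d
    have h8 : cross (N.tgt d) (dir (N.a d (N.L d))) < 0 := by
      rw [← h7]; exact mul_neg_of_pos_of_neg hn h3
    have h9 := N.E_eq (N.L_mem_dom d)
    have h10 : N.E d < 0 := by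
      rw [← h9]; exact mul_neg_of_neg_of_pos h8 (Real.exp_pos _)
    linarith
  · have hs : N.src (N.left d) = N.tgt d := N.src_left h
    have h3 : 0 ≤ N.psi0 (N.left d) := (fr_mem _).1
    rcases eq_or_lt_of_le h3 with h4 | h4
    · right
      constructor
      · rw [E, ← sin_psi0, ← h4]; simp
      · rw [← cos_psi0, ← h4, hs]; simpa using hn
    · left
      rw [CCW, E, ← sin_psi0, hs]
      have : 0 < Real.sin (N.psi0 (N.left d)) :=
        Real.sin_pos_of_pos_of_lt_pi h4 (by linarith)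
      positivity

theorem off_of_closure {F : Set ℂ} (hF : Bornology.IsBounded F) (h0 : (0 : ℂ) ∉ closure F)
    {d : N.D} (hd : d ∈ N.bdry F) : ∀ t ∈ Icc 0 (N.L d), N.z d t ≠ 0 := by
  have hr := bdry_arc hF hd
  rw [mem_bdry] at hd
  intro t ht heq
  apply h0
  rw [← heq]
  have hc : ContinuousWithinAt (N.z d) (Ioo 0 (N.L d)) t :=
    ((N.geoL d).cz t ht).mono Ioo_subset_Icc_self
  have hcl : t ∈ closure (Ioo 0 (N.L d)) := by
    rw [closure_Ioo (N.L_pos d).ne]; exact ht
  have h1 : MapsTo (N.z d) (Ioo 0 (N.L d)) (closure F) := by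
    intro u hu
    rw [← hd]
    exact N.mem_closure_faceL (by rw [int_eq_arc hr]; exact hu)
  have := hc.mem_closure hcl h1
  rwa [closure_closure] at this

theorem W_zero {F : Set ℂ} (hF : Bornology.IsBounded F) (hFc : N.IsComp F)
    (h0 : (0 : ℂ) ∉ closure F) : N.W F 0 = 0 := by
  have hc : ContinuousAt (N.W F) 0 := by
    unfold W
    apply tendsto_finsetSum
    intro d hd
    exact N.continuousAt_ind d (off_of_closure hF h0 hd)
  have hfr : ∃ᶠ y in 𝓝 (0:ℂ), y ∈ N.carrierᶜ := by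
    rw [← mem_closure_iff_frequently]; exact N.dense_compl 0
  have hev : ∀ᶠ y in 𝓝 (0:ℂ), y ∉ F := by
    have : (closure F)ᶜ ∈ 𝓝 (0:ℂ) := isClosed_closure.isOpen_compl.mem_nhds h0
    filter_upwards [this] with y hy hyF
    exact hy (subset_closure hyF)
  by_contra hne
  have h1 : ∀ᶠ y in 𝓝 (0:ℂ), N.W F y ≠ 0 := hc.eventually_ne hne
  obtain ⟨y, hy, h2, h3⟩ := (hfr.and_eventually (hev.and h1)).exists
  apply h3
  rw [W_eq hF hFc hy, indicator_of_notMem h2]

/-- (C1) -/
theorem exists_tip {N : Net} {F : Set ℂ} (hF : Bornology.IsBounded F) (hFc : N.IsComp F)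
    (h0 : (0:ℂ) ∉ closure F) : ∃ e ∈ N.bdry F, N.Tip e := by
  by_contra hcon
  push Not at hcon
  have hpi := Real.pi_pos
  have hstep : ∀ d ∈ N.bdry F, N.psi0 (N.left d) = N.psi1 d + Real.pi / 3 := by
    intro d hd
    have hr := bdry_arc hF hd
    have hl := left_mem_bdry hF hd
    rcases psi_left hr with h | h
    · exact h
    · exact absurd (tip_of hr (bdry_arc hF hl)
        (off_of_closure hF h0 hd _ (right_mem_Icc.2 (N.L_pos d).le)) h.1 h.2) (hcon _ hl)
  have h1 : ∑ d ∈ N.bdry F, N.turn d = ∑ d ∈ N.bdry F, (N.psi1 d - N.psi0 d) +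
      (N.W F 0).im := by
    unfold W
    rw [Complex.im_sum, ← Finset.sum_add_distrib]
    apply Finset.sum_congr rfl
    intro d hd
    rw [psi_sub (off_of_closure hF h0 hd)]; ring
  have h2 : ∑ d ∈ N.bdry F, (N.psi1 d - N.psi0 d) = -((N.bdry F).card * (Real.pi / 3)) := by
    rw [Finset.sum_sub_distrib, ← sum_left hF N.psi0, Finset.sum_congr rfl hstep,
      Finset.sum_add_distrib, Finset.sum_const, nsmul_eq_mul]
    ring
  have h3 := area_turn hF hFc
  have h4 := volume_pos hF hFc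
  rw [h1, h2, W_zero hF hFc h0] at h3
  have h5 : 0 ≤ ((N.bdry F).card : ℝ) * (Real.pi / 3) := by positivity
  simp only [Complex.zero_im] at h3
  linarith

theorem encard_le_three {S : Set (Set ℂ)} {G : ℕ → Set ℂ} (h : ∀ F ∈ S, ∃ k < 3, F = G k) :
    S.encard ≤ 3 := by
  have hsub : S ⊆ G '' (Finset.range 3 : Set ℕ) := by
    intro F hF
    obtain ⟨k, hk, rfl⟩ := h F hF
    exact ⟨k, by simpa using hk, rfl⟩
  calc S.encard ≤ (G '' (Finset.range 3 : Set ℕ)).encard := Set.encard_le_encard hsub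
    _ ≤ (Finset.range 3 : Set ℕ).encard := Set.encard_image_le _ _
    _ = 3 := by rw [Set.encard_coe_eq_coe_finsetCard]; simp

theorem central_vertex (e : N.D) (he : N.src e = 0) : ∃ G : ℕ → Set ℂ, ∀ F : Set ℂ,
    N.IsComp F → (0 : ℂ) ∈ closure F → ∃ k < 3, F = G k := by
  have hpi := Real.pi_pos
  have h0v : (0 : ℂ) ∈ N.verts := ⟨e, he⟩
  obtain ⟨ρ0, hρ0, hball⟩ := exists_ball_vertex h0v (ε := 1) one_pos
  set a0 := N.a e 0 with ha0
  have hline : ∀ d : N.D, N.src d = 0 → ∀ t ∈ N.dom d, N.z d t = (t : ℂ) * dir (N.a d 0) := by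
    intro d hd t ht
    have hE : N.E d = 0 := by
      rw [E, hd]; simp [cross]
    rw [N.z_line hE ht, hd, zero_add]
  have hdir : ∀ d : N.D, N.src d = 0 → ∃ j : ℤ, dir (N.a d 0) = dir (a0 + 2 * Real.pi / 3 * j) := by
    intro d hd
    rcases vertex_cases (hd.trans he.symm) with h | h | h
    · exact ⟨0, by rw [h]; simp [ha0]⟩
    · refine ⟨1, ?_⟩
      rw [h, rot_dir1, ← dir_add]; congr 1; push_cast; ring
    · refine ⟨2, ?_⟩
      rw [h, rot_dir2, ← dir_add]; congr 1; push_cast; ring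
  have hedge : ∀ k : ℕ, k < 3 → ∃ d : N.D, N.src d = 0 ∧
      dir (N.a d 0) = dir (a0 + 2 * Real.pi / 3 * k) := by
    intro k hk
    interval_cases k
    · exact ⟨e, he, by simp [ha0]⟩
    · refine ⟨N.rot e, by rw [N.src_rot]; exact he, ?_⟩
      rw [rot_dir1, ← dir_add]; congr 1; push_cast; ring
    · refine ⟨N.rot (N.rot e), by rw [N.src_rot, N.src_rot]; exact he, ?_⟩
      rw [rot_dir2, ← dir_add]; congr 1; push_cast; ring
  have : Nonempty N.D := ⟨e⟩
  choose! dd hdd using hedge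
  set ρ := min ρ0 (min (N.L (dd 0)) (min (N.L (dd 1)) (N.L (dd 2)))) with hρ
  have hρpos : 0 < ρ := by
    have := N.L_pos (dd 0)
    have := N.L_pos (dd 1)
    have := N.L_pos (dd 2)
    positivity
  have hρL : ∀ k, k < 3 → ρ ≤ N.L (dd k) := by
    intro k hk
    interval_cases k
    · exact (min_le_right _ _).trans (min_le_left _ _)
    · exact (min_le_right _ _).trans ((min_le_right _ _).trans (min_le_left _ _))
    · exact (min_le_right _ _).trans ((min_le_right _ _).trans (min_le_right _ _))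
  set S : ℕ → Set ℂ := fun k => (fun p : ℝ × ℝ => (p.1 : ℂ) * dir p.2) ''
    (Ioo 0 ρ ×ˢ Ioo (a0 + 2 * Real.pi / 3 * k) (a0 + 2 * Real.pi / 3 * (k + 1))) with hS
  have hSconn : ∀ k, IsPreconnected (S k) := by
    intro k
    apply IsPreconnected.image
    · exact isPreconnected_Ioo.prod isPreconnected_Ioo
    · apply Continuous.continuousOn
      exact (Complex.continuous_ofReal.comp continuous_fst).mul (continuous_dir.comp continuous_snd)
  have hSsub : ∀ k, S k ⊆ N.carrierᶜ := by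
    rintro k w ⟨⟨r, θ⟩, ⟨hr, hθ⟩, rfl⟩ hwc
    simp only at hr hθ hwc
    have hnorm : ‖(r : ℂ) * dir θ‖ = r := by
      rw [norm_mul, norm_dir, mul_one, Complex.norm_real, Real.norm_of_nonneg hr.1.le]
    obtain ⟨d, hd, t, ht, ht1, hz⟩ := hball _ hwc (by
      rw [sub_zero, hnorm]
      exact hr.2.trans_le (min_le_left _ _))
    obtain ⟨j, hj⟩ := hdir d hd
    rw [hline d hd t ht, hj] at hz
    have hnorm2 : ‖(t : ℂ) * dir (a0 + 2 * Real.pi / 3 * j)‖ = t := by
      rw [norm_mul, norm_dir, mul_one, Complex.norm_real, Real.norm_of_nonneg ht.1]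
    have hrt : r = t := by rw [← hnorm, ← hz, hnorm2]
    rw [← hrt] at hz
    have hr0 : (r : ℂ) ≠ 0 := by rw [Complex.ofReal_ne_zero]; exact hr.1.ne'
    have hdd := mul_left_cancel₀ hr0 hz
    obtain ⟨n, hn⟩ := dir_eq_iff.1 hdd
    have h1 : a0 + 2 * Real.pi / 3 * k < a0 + 2 * Real.pi / 3 * (j - 3 * n) := by
      have : a0 + 2 * Real.pi / 3 * (j - 3 * n) = θ := by linarith
      rw [this]; exact hθ.1
    have h2 : a0 + 2 * Real.pi / 3 * (j - 3 * n) < a0 + 2 * Real.pi / 3 * (k + 1) := by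
      have : a0 + 2 * Real.pi / 3 * (j - 3 * n) = θ := by linarith
      rw [this]; exact hθ.2
    have h3 : (k : ℝ) < j - 3 * n := by
      by_contra hc
      push Not at hc
      have := mul_le_mul_of_nonneg_left hc (show 0 ≤ 2 * Real.pi / 3 by positivity)
      linarith
    have h4 : (j : ℝ) - 3 * n < k + 1 := by
      by_contra hc
      push Not at hc
      have := mul_le_mul_of_nonneg_left hc (show 0 ≤ 2 * Real.pi / 3 by positivity)
      linarith
    have h5 : ((k : ℤ)) < j - 3 * n := by exact_mod_cast h3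
    have h6 : j - 3 * n < (k : ℤ) + 1 := by exact_mod_cast h4
    omega
  have hcover : ∀ w : ℂ, w ∉ N.carrier → ‖w‖ < ρ → ∃ k < 3, w ∈ S k := by
    intro w hw hwρ
    have hw0 : w ≠ 0 := by
      rintro rfl
      apply hw
      rw [← he]; exact N.mem_carrier (N.zero_mem_dom e)
    have hwn : 0 < ‖w‖ := norm_pos_iff.2 hw0
    set φ := fr (Complex.arg w - a0) with hφ
    have hφm := fr_mem (Complex.arg w - a0)
    have hwe : w = (‖w‖ : ℂ) * dir (a0 + φ) := by
      conv_lhs => rw [polar_arg w]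
      congr 1
      rw [dir_add, hφ, dir_fr, ← dir_add]; congr 1; ring
    have hne : ∀ k : ℕ, k < 3 → φ ≠ 2 * Real.pi / 3 * k := by
      intro k hk heq
      apply hw
      have h1 := (hdd k hk)
      have ht : ‖w‖ ∈ N.dom (dd k) := ⟨hwn.le, Or.inr (hwρ.le.trans (hρL k hk))⟩
      have h2 := hline (dd k) h1.1 ‖w‖ ht
      rw [h1.2, ← heq, ← hwe] at h2
      rw [← h2]; exact N.mem_carrier ht
    have mk : ∀ k : ℕ, 2 * Real.pi / 3 * k < φ → φ < 2 * Real.pi / 3 * (k + 1) → w ∈ S k := by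
      intro k h1 h2
      exact ⟨(‖w‖, a0 + φ), ⟨⟨hwn, hwρ⟩, ⟨by simp only; linarith, by simp only; linarith⟩⟩,
        hwe.symm⟩
    have c0 := hne 0 (by norm_num)
    have c1 := hne 1 (by norm_num)
    have c2 := hne 2 (by norm_num)
    push_cast at c0 c1 c2
    rcases lt_or_gt_of_ne c1 with h1 | h1
    · refine ⟨0, by norm_num, mk 0 ?_ ?_⟩
      · push_cast
        rcases eq_or_lt_of_le hφm.1 with h | h
        · exfalso; apply c0; rw [hφ, ← h]; ring
        · linarith
      · push_cast; linarith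
    · rcases lt_or_gt_of_ne c2 with h2 | h2
      · exact ⟨1, by norm_num, mk 1 (by push_cast; linarith) (by push_cast; linarith)⟩
      · exact ⟨2, by norm_num, mk 2 (by push_cast; linarith) (by push_cast; linarith [hφm.2])⟩
  set P : ℕ → ℂ := fun k => ((ρ / 2 : ℝ) : ℂ) * dir (a0 + 2 * Real.pi / 3 * k + Real.pi / 3) with hP
  have hPS : ∀ k, P k ∈ S k := by
    intro k
    exact ⟨(ρ / 2, a0 + 2 * Real.pi / 3 * k + Real.pi / 3), ⟨⟨by simp only; linarith, by simp only; linarith⟩,
      ⟨by simp only; linarith, by simp only; linarith⟩⟩, rfl⟩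
  refine ⟨fun k => connectedComponentIn N.carrierᶜ (P k), ?_⟩
  intro F hF hcl
  obtain ⟨w, hwF, hwd⟩ := Metric.mem_closure_iff.1 hcl ρ hρpos
  rw [dist_comm, dist_zero_right] at hwd
  obtain ⟨k, hk, hwS⟩ := hcover w (hF.sub hwF) hwd
  refine ⟨k, hk, ?_⟩
  have h1 : w ∈ connectedComponentIn N.carrierᶜ (P k) :=
    (hSconn k).subset_connectedComponentIn (hPS k) (hSsub k) hwS
  exact hF.eq (N.isComp_of (hSsub k (hPS k))) hwF h1

/-- (C2) -/
theorem central_le (N : Net) : {F : Set ℂ | N.IsComp F ∧ (0:ℂ) ∈ closure F}.encard ≤ 3 := by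
  by_cases h0 : (0:ℂ) ∈ N.carrier
  · rcases N.carrier_cases h0 with ⟨e, he⟩ | ⟨d, t, ht, hd⟩
    · obtain ⟨G, hG⟩ := central_vertex e he
      exact encard_le_three (G := G) (fun F hF => hG F hF.1 hF.2)
    · apply encard_le_three (G := fun k => if k = 0 then N.faceL d else N.faceR d)
      rintro F ⟨⟨x, _, hFx⟩, hcl⟩
      rcases N.face_cases ht hFx (by rw [hd]; exact hcl) with h | h
      · exact ⟨0, by norm_num, by simpa using h⟩
      · exact ⟨1, by norm_num, by simpa using h⟩
  · apply encard_le_three (G := fun _ => connectedComponentIn N.carrierᶜ 0)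
    rintro F ⟨hF, hcl⟩
    refine ⟨0, by norm_num, ?_⟩
    have hc := N.isComp_of h0
    have hm : (0:ℂ) ∈ connectedComponentIn N.carrierᶜ 0 := mem_connectedComponentIn h0
    obtain ⟨w, hw1, hw2⟩ := mem_closure_iff_nhds.1 hcl _ (hc.isOpen.mem_nhds hm)
    exact hF.eq hc hw2 hw1

end Net

end

end Pool.Agent.MP_4c0f47_an
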