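import Pool.Agent.Lib.MP_4c0f47_an.CellLemmas

set_option autoImplicit false

open Set Filter Topology

namespace Pool.Agent.MP_4c0f47_an

noncomputable section

theorem gg_strictAnti : StrictAntiOn gg (Ici 1) := by
  apply strictAntiOn_of_deriv_neg (convex_Ici 1) continuous_gg.continuousOn
  intro x hx
  rw [interior_Ici] at hx
  rw [(hasDerivAt_gg x).deriv]
  have hx1 : (1 : ℝ) < x := hx
  have : 1 - x ^ 2 < 0 := by nlinarith
  exact mul_neg_of_neg_of_pos this (Real.exp_pos _)

namespace Chain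

variable {σ : ℝ} {b β : ℝ → ℝ} {C : Finset ℝ} {s t : ℝ}

theorem en_const (h : Chain σ b β C s t) {x y : ℝ} (hx : x ∈ Icc s t) (hy : y ∈ Icc s t)
    (hxC : x ∉ C) (hyC : y ∉ C) (hxy : x < y) (hC : ∀ c ∈ C, c ∉ Ioo x y) :
    en b β x = en b β y := by
  have harc := h.arc hx.1 hxy hy.2 hC
  have h1 := harc.en_eq (left_mem_Icc.2 hxy.le) (right_mem_Icc.2 hxy.le)
  unfold en at h1 ⊢
  rw [ext_self, ext_right hxy hC, ← h.eq_rgt hx hxC, ← h.eq_lft hy hyC] at h1
  exact h1

theorem exists_energies (h : Chain σ b β C s t) :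
    ∃ F : Finset ℝ, F.card ≤ C.card + 1 ∧ ∀ x ∈ Icc s t, x ∉ C → en b β x ∈ F := by
  classical
  have key : ∀ k : ℕ, ∃ e : ℝ, ∀ x ∈ Icc s t, x ∉ C → (C.filter (fun c => c < x)).card = k →
      en b β x = e := by
    intro k
    by_cases hk : ∃ x ∈ Icc s t, x ∉ C ∧ (C.filter (fun c => c < x)).card = k
    · obtain ⟨x0, hx0, hx0C, hx0k⟩ := hk
      refine ⟨en b β x0, fun x hx hxC hxk => ?_⟩
      have hno : ∀ u v : ℝ, u < v → (C.filter (fun c => c < u)).card = k →
          (C.filter (fun c => c < v)).card = k → ∀ c ∈ C, c ∉ Ioo u v := by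
        intro u v huv hu hv c hc hcI
        have hss : C.filter (fun c => c < u) ⊂ C.filter (fun c => c < v) := by
          rw [Finset.ssubset_iff_of_subset]
          · refine ⟨c, Finset.mem_filter.2 ⟨hc, hcI.2⟩, fun hh => ?_⟩
            exact absurd (Finset.mem_filter.1 hh).2 (not_lt.2 hcI.1.le)
          · intro d hd
            rw [Finset.mem_filter] at hd ⊢
            exact ⟨hd.1, hd.2.trans huv⟩
        have := Finset.card_lt_card hss
        omega
      rcases lt_trichotomy x x0 with hlt | heq | hgt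
      · exact h.en_const hx hx0 hxC hx0C hlt (hno x x0 hlt hxk hx0k)
      · rw [heq]
      · exact (h.en_const hx0 hx hx0C hxC hgt (hno x0 x hgt hx0k hxk)).symm
    · exact ⟨0, fun x hx hxC hxk => absurd ⟨x, hx, hxC, hxk⟩ hk⟩
  choose e he using key
  refine ⟨(Finset.range (C.card + 1)).image e, ?_, fun x hx hxC => ?_⟩
  · exact Finset.card_image_le.trans (by rw [Finset.card_range])
  · rw [he _ x hx hxC rfl]
    refine Finset.mem_image_of_mem e (Finset.mem_range.2 ?_)
    have := Finset.card_filter_le C (fun c => c < x)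
    omega

end Chain

theorem Cell.gap_level {a α b β : ℝ → ℝ} {Ca Cb : Finset ℝ} {s t : ℝ} {i j : ℕ}
    (h : Cell a α b β Ca Cb s t i j) {ρ : ℝ} (hρ : 1 ≤ ρ) :
    ∃ k : ℕ, k < 13 ∧ Gap a α b β Ca Cb s t (ρ + 2 * k) (ρ + 2 * k + 1) := by
  classical
  by_contra hcon
  push Not at hcon
  obtain ⟨Fb, hFb, hFb2⟩ := h.outer.exists_energies
  obtain ⟨Fa, hFa, hFa2⟩ := h.inner.exists_energies
  set RB : Finset ℝ := (Cb.image b ∪ Ca.image a) ∪ {a s, b s, a t, b t} with hRB
  set EB : Finset ℝ := Fb ∪ Fa with hEB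
  have hij : 1 ≤ i ∧ 1 ≤ j := by
    constructor
    · rcases h.left with h1 | h1 <;> omega
    · rcases h.right with h1 | h1 <;> omega
  have hcount := h.count
  have hRBc : RB.card ≤ Cb.card + Ca.card + 4 := by
    refine (Finset.card_union_le _ _).trans ?_
    have e1 : (Cb.image b ∪ Ca.image a).card ≤ Cb.card + Ca.card :=
      (Finset.card_union_le _ _).trans (Nat.add_le_add Finset.card_image_le Finset.card_image_le)
    have e2 : ({a s, b s, a t, b t} : Finset ℝ).card ≤ 4 := Finset.card_le_four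
    omega
  have hEBc : EB.card ≤ Cb.card + Ca.card + 2 := by
    refine (Finset.card_union_le _ _).trans ?_
    omega
  have hbad : ∀ k ∈ Finset.range 13, (∃ r ∈ RB, r ∈ Icc (ρ + 2 * (k:ℝ)) (ρ + 2 * k + 1)) ∨
      (∃ e ∈ EB, e ∈ Icc (gg (ρ + 2 * k + 1)) (gg (ρ + 2 * (k:ℝ)))) := by
    intro k hk
    by_contra hno
    push Not at hno
    obtain ⟨hno1, hno2⟩ := hno
    apply hcon k (Finset.mem_range.1 hk)
    exact
      { corner_b := fun c hc => hno1 _ (by
          rw [hRB]; simp only [Finset.mem_union, Finset.mem_image]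
          exact Or.inl (Or.inl ⟨c, hc, rfl⟩))
        corner_a := fun c hc => hno1 _ (by
          rw [hRB]; simp only [Finset.mem_union, Finset.mem_image]
          exact Or.inl (Or.inr ⟨c, hc, rfl⟩))
        as := hno1 _ (by rw [hRB]; simp)
        bs := hno1 _ (by rw [hRB]; simp)
        at' := hno1 _ (by rw [hRB]; simp)
        bt := hno1 _ (by rw [hRB]; simp)
        en_b := fun x hx hxC => hno2 _ (Finset.mem_union_left _ (hFb2 x hx hxC))
        en_a := fun x hx hxC => hno2 _ (Finset.mem_union_right _ (hFa2 x hx hxC)) }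
  set S1 := (Finset.range 13).filter
    (fun k : ℕ => ∃ r ∈ RB, r ∈ Icc (ρ + 2 * (k:ℝ)) (ρ + 2 * k + 1)) with hS1
  set S2 := (Finset.range 13).filter
    (fun k : ℕ => ∃ e ∈ EB, e ∈ Icc (gg (ρ + 2 * k + 1)) (gg (ρ + 2 * (k:ℝ)))) with hS2
  have hcov : Finset.range 13 ⊆ S1 ∪ S2 := by
    intro k hk
    rw [Finset.mem_union, hS1, hS2, Finset.mem_filter, Finset.mem_filter]
    rcases hbad k hk with h1 | h1
    · exact Or.inl ⟨hk, h1⟩
    · exact Or.inr ⟨hk, h1⟩
  have hsep : ∀ k l : ℕ, k < l → ρ + 2 * (k:ℝ) + 1 < ρ + 2 * l := by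
    intro k l hkl
    have : (k:ℝ) + 1 ≤ l := by exact_mod_cast hkl
    linarith
  have hc1 : S1.card ≤ RB.card := by
    refine Finset.card_le_card_of_forall_subsingleton
      (fun (k : ℕ) (r : ℝ) => r ∈ Icc (ρ + 2 * (k:ℝ)) (ρ + 2 * k + 1)) ?_ ?_
    · intro k hk
      exact (Finset.mem_filter.1 hk).2
    · intro r hr k hk l hl
      rcases lt_trichotomy k l with hlt | heq | hgt
      · have := hsep k l hlt
        linarith [hk.2.2, hl.2.1]
      · exact heq
      · have := hsep l k hgt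
        linarith [hl.2.2, hk.2.1]
  have hc2 : S2.card ≤ EB.card := by
    refine Finset.card_le_card_of_forall_subsingleton
      (fun (k : ℕ) (e : ℝ) => e ∈ Icc (gg (ρ + 2 * k + 1)) (gg (ρ + 2 * (k:ℝ)))) ?_ ?_
    · intro k hk
      exact (Finset.mem_filter.1 hk).2
    · have hgg : ∀ k l : ℕ, k < l → gg (ρ + 2 * (l:ℝ)) < gg (ρ + 2 * k + 1) := by
        intro k l hkl
        have hk0 : (0:ℝ) ≤ k := by positivity
        have hl0 : (0:ℝ) ≤ l := by positivity
        exact gg_strictAnti (mem_Ici.2 (by linarith)) (mem_Ici.2 (by linarith)) (hsep k l hkl)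
      intro e he k hk l hl
      rcases lt_trichotomy k l with hlt | heq | hgt
      · have := hgg k l hlt
        linarith [hk.2.1, hl.2.2]
      · exact heq
      · have := hgg l k hgt
        linarith [hl.2.1, hk.2.2]
  have htot := Finset.card_le_card hcov
  rw [Finset.card_range] at htot
  have hu := Finset.card_union_le S1 S2
  omega

end

end Pool.Agent.MP_4c0f47_an
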