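import Mathlib

set_option autoImplicit false

open Set Filter Topology Complex

namespace Pool.Agent.MP_4c0f47_an

noncomputable section

/-- unit vector of angle `a` -/
def dir (a : ℝ) : ℂ := Complex.exp (a * I)

/-- cross product of plane vectors -/
def cross (z w : ℂ) : ℝ := z.re * w.im - z.im * w.re

/-- dot product of plane vectors -/
def dot (z w : ℂ) : ℝ := z.re * w.re + z.im * w.im

theorem dir_re (a : ℝ) : (dir a).re = Real.cos a := by
  simp [dir, Complex.exp_ofReal_mul_I_re]

theorem dir_im (a : ℝ) : (dir a).im = Real.sin a := by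
  simp [dir, Complex.exp_ofReal_mul_I_im]

theorem norm_dir (a : ℝ) : ‖dir a‖ = 1 := by
  simp [dir, Complex.norm_exp_ofReal_mul_I]

theorem dir_ne_zero (a : ℝ) : dir a ≠ 0 := by
  intro h; have := norm_dir a; rw [h] at this; simp at this

theorem dir_add (a b : ℝ) : dir (a + b) = dir a * dir b := by
  simp only [dir]
  rw [← Complex.exp_add]; congr 1; push_cast; ring

theorem dir_zero : dir 0 = 1 := by simp [dir]

theorem dir_neg (a : ℝ) : dir (-a) = (starRingEnd ℂ) (dir a) := by
  apply Complex.ext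
  · simp [dir_re]
  · simp [dir_im]

theorem dir_mul_neg (a : ℝ) : dir a * dir (-a) = 1 := by
  rw [← dir_add]; simp [dir_zero]

theorem dir_sub (a b : ℝ) : dir (a - b) = dir a * dir (-b) := by
  rw [sub_eq_add_neg, dir_add]

theorem dir_pi : dir Real.pi = -1 := by simp [dir, Complex.exp_pi_mul_I]

theorem dir_two_pi : dir (2 * Real.pi) = 1 := by
  have := dir_add Real.pi Real.pi
  rw [dir_pi] at this
  rw [two_mul, this]; norm_num

theorem dir_add_pi (a : ℝ) : dir (a + Real.pi) = - dir a := by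
  rw [dir_add, dir_pi]; ring

theorem dir_pi_div_two : dir (Real.pi / 2) = I := by
  apply Complex.ext <;> simp [dir_re, dir_im]

theorem dir_eq_iff {a b : ℝ} : dir a = dir b ↔ ∃ n : ℤ, a = b + n * (2 * Real.pi) := by
  simp only [dir]
  rw [Complex.exp_eq_exp_iff_exists_int]
  constructor
  · rintro ⟨n, hn⟩
    refine ⟨n, ?_⟩
    have h2 : ((a : ℂ) - b - n * (2 * Real.pi)) * I = 0 := by
      have : (a : ℂ) * I = b * I + n * (2 * Real.pi * I) := hn
      linear_combination this
    have h3 : ((a : ℂ) - b - n * (2 * Real.pi)) = 0 := by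
      rcases mul_eq_zero.1 h2 with h | h
      · exact h
      · exact absurd h Complex.I_ne_zero
    have h4 := congrArg Complex.re h3
    simp at h4
    have h5 : (((n : ℂ) * (2 * (Real.pi : ℂ))) : ℂ).re = n * (2 * Real.pi) := by
      have : ((n : ℂ) * (2 * (Real.pi : ℂ))) = ((n * (2 * Real.pi) : ℝ) : ℂ) := by push_cast; ring
      rw [this, Complex.ofReal_re]
    have h6 : ((a : ℂ) - b - n * (2 * Real.pi)).re = a - b - n * (2 * Real.pi) := by
      have : ((a : ℂ) - b - n * (2 * Real.pi)) = ((a - b - n * (2 * Real.pi) : ℝ) : ℂ) := by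
        push_cast; ring
      rw [this, Complex.ofReal_re]
    rw [h3] at h6
    simp at h6
    linarith
  · rintro ⟨n, hn⟩
    refine ⟨n, ?_⟩
    rw [hn]; push_cast; ring

theorem exists_dir {w : ℂ} (h : ‖w‖ = 1) : ∃ a : ℝ, w = dir a := by
  refine ⟨Complex.arg w, ?_⟩
  have := Complex.norm_mul_exp_arg_mul_I w
  rw [h] at this
  simp at this
  rw [dir, this]

theorem hasDerivAt_dir (a : ℝ) : HasDerivAt dir (I * dir a) a := by
  have h1 : HasDerivAt (fun x : ℝ => ((x : ℂ) * I)) (1 * I) a :=
    (Complex.ofRealCLM.hasDerivAt (x := a)).mul_const I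
  have h2 := h1.cexp
  have h3 : cexp ((a : ℂ) * I) * (1 * I) = I * dir a := by simp [dir]; ring
  rw [h3] at h2
  exact h2

theorem continuous_dir : Continuous dir := by
  unfold dir; fun_prop

/-! cross and dot -/

theorem cross_I_mul (z w : ℂ) : cross z (I * w) = dot z w := by
  simp [cross, dot]

theorem dot_I_mul (z w : ℂ) : dot z (I * w) = - cross z w := by
  simp [cross, dot]; ring

theorem cross_mul_mul (u z w : ℂ) : cross (u * z) (u * w) = (u.re ^ 2 + u.im ^ 2) * cross z w := by
  simp [cross]; ring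

theorem dot_mul_mul (u z w : ℂ) : dot (u * z) (u * w) = (u.re ^ 2 + u.im ^ 2) * dot z w := by
  simp [dot]; ring

theorem dir_sq (a : ℝ) : (dir a).re ^ 2 + (dir a).im ^ 2 = 1 := by
  rw [dir_re, dir_im]; exact Real.cos_sq_add_sin_sq a

theorem cross_dir_mul (a : ℝ) (z w : ℂ) : cross (dir a * z) (dir a * w) = cross z w := by
  rw [cross_mul_mul, dir_sq, one_mul]

theorem dot_dir_mul (a : ℝ) (z w : ℂ) : dot (dir a * z) (dir a * w) = dot z w := by
  rw [dot_mul_mul, dir_sq, one_mul]

theorem norm_sq_eq (z : ℂ) : ‖z‖ ^ 2 = z.re ^ 2 + z.im ^ 2 := by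
  rw [← Complex.normSq_eq_norm_sq, Complex.normSq_apply]; ring

theorem cross_sq_add_dot_sq (z w : ℂ) : cross z w ^ 2 + dot z w ^ 2 = ‖z‖ ^ 2 * ‖w‖ ^ 2 := by
  rw [norm_sq_eq, norm_sq_eq]; simp only [cross, dot]; ring

theorem cross_sq_add_dot_sq_dir (z : ℂ) (a : ℝ) :
    cross z (dir a) ^ 2 + dot z (dir a) ^ 2 = ‖z‖ ^ 2 := by
  rw [cross_sq_add_dot_sq, norm_dir]; ring

theorem abs_cross_le (z w : ℂ) : |cross z w| ≤ ‖z‖ * ‖w‖ := by
  apply abs_le_of_sq_le_sq _ (by positivity)
  have := cross_sq_add_dot_sq z w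
  nlinarith [sq_nonneg (dot z w)]

theorem abs_dot_le (z w : ℂ) : |dot z w| ≤ ‖z‖ * ‖w‖ := by
  apply abs_le_of_sq_le_sq _ (by positivity)
  have := cross_sq_add_dot_sq z w
  nlinarith [sq_nonneg (cross z w)]

theorem abs_cross_dir_le (z : ℂ) (a : ℝ) : |cross z (dir a)| ≤ ‖z‖ := by
  have := abs_cross_le z (dir a); rwa [norm_dir, mul_one] at this

theorem abs_dot_dir_le (z : ℂ) (a : ℝ) : |dot z (dir a)| ≤ ‖z‖ := by
  have := abs_dot_le z (dir a); rwa [norm_dir, mul_one] at this

theorem cross_add_left (z z' w : ℂ) : cross (z + z') w = cross z w + cross z' w := by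
  simp [cross]; ring
theorem cross_sub_left (z z' w : ℂ) : cross (z - z') w = cross z w - cross z' w := by
  simp [cross]; ring
theorem cross_add_right (z w w' : ℂ) : cross z (w + w') = cross z w + cross z w' := by
  simp [cross]; ring
theorem cross_sub_right (z w w' : ℂ) : cross z (w - w') = cross z w - cross z w' := by
  simp [cross]; ring
theorem cross_neg_right (z w : ℂ) : cross z (-w) = - cross z w := by
  simp [cross]; ring
theorem cross_neg_left (z w : ℂ) : cross (-z) w = - cross z w := by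
  simp [cross]; ring
theorem dot_neg_right (z w : ℂ) : dot z (-w) = - dot z w := by
  simp [dot]; ring
theorem cross_self (z : ℂ) : cross z z = 0 := by simp only [cross]; ring
theorem dot_self (z : ℂ) : dot z z = ‖z‖ ^ 2 := by rw [norm_sq_eq]; simp only [dot]; ring

/-- A geodesic (arclength solution of the shrinker equation) on `[s0, s1]`: `z` position,
`a` tangent angle. -/
structure Geo (z : ℝ → ℂ) (a : ℝ → ℝ) (s0 s1 : ℝ) : Prop where
  cz : ContinuousOn z (Icc s0 s1)
  ca : ContinuousOn a (Icc s0 s1)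
  dz : ∀ t ∈ Ioo s0 s1, HasDerivAt z (dir (a t)) t
  da : ∀ t ∈ Ioo s0 s1, HasDerivAt a (cross (z t) (dir (a t))) t

namespace Geo

variable {z : ℝ → ℂ} {a : ℝ → ℝ} {s0 s1 : ℝ}

theorem mono (h : Geo z a s0 s1) {t0 t1 : ℝ} (h0 : s0 ≤ t0) (h1 : t1 ≤ s1) : Geo z a t0 t1 where
  cz := h.cz.mono (Icc_subset_Icc h0 h1)
  ca := h.ca.mono (Icc_subset_Icc h0 h1)
  dz := fun t ht => h.dz t ⟨lt_of_le_of_lt h0 ht.1, lt_of_lt_of_le ht.2 h1⟩
  da := fun t ht => h.da t ⟨lt_of_le_of_lt h0 ht.1, lt_of_lt_of_le ht.2 h1⟩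

theorem shift (h : Geo z a s0 s1) (c : ℝ) :
    Geo (fun t => z (t + c)) (fun t => a (t + c)) (s0 - c) (s1 - c) where
  cz := by
    apply h.cz.comp (by fun_prop)
    intro t ht; exact ⟨by linarith [ht.1], by linarith [ht.2]⟩
  ca := by
    apply h.ca.comp (by fun_prop)
    intro t ht; exact ⟨by linarith [ht.1], by linarith [ht.2]⟩
  dz := by
    intro t ht
    have := (h.dz (t + c) ⟨by linarith [ht.1], by linarith [ht.2]⟩)
    exact this.comp_add_const t c
  da := by
    intro t ht
    have := (h.da (t + c) ⟨by linarith [ht.1], by linarith [ht.2]⟩)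
    exact this.comp_add_const t c

/-- reversal -/
theorem reverse (h : Geo z a s0 s1) (c : ℝ) :
    Geo (fun t => z (c - t)) (fun t => a (c - t) + Real.pi) (c - s1) (c - s0) where
  cz := by
    apply h.cz.comp (by fun_prop)
    intro t ht; exact ⟨by linarith [ht.2], by linarith [ht.1]⟩
  ca := by
    apply ContinuousOn.add _ continuousOn_const
    apply h.ca.comp (by fun_prop)
    intro t ht; exact ⟨by linarith [ht.2], by linarith [ht.1]⟩
  dz := by
    intro t ht
    have h1 := (h.dz (c - t) ⟨by linarith [ht.2], by linarith [ht.1]⟩)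
    have h2 : HasDerivAt (fun x : ℝ => c - x) (-1) t := by
      simpa using (hasDerivAt_id t).const_sub c
    have h3 := h1.scomp t h2
    rw [dir_add_pi]
    have h4 : (-1 : ℝ) • dir (a (c - t)) = - dir (a (c - t)) := by simp
    rw [h4] at h3
    exact h3
  da := by
    intro t ht
    have h1 := (h.da (c - t) ⟨by linarith [ht.2], by linarith [ht.1]⟩)
    have h2 : HasDerivAt (fun x : ℝ => c - x) (-1) t := by
      simpa using (hasDerivAt_id t).const_sub c
    have h3 := (h1.comp t h2).add_const Real.pi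
    rw [dir_add_pi, cross_neg_right]
    have h4 : cross (z (c - t)) (dir (a (c - t))) * -1 = -cross (z (c - t)) (dir (a (c - t))) := by
      ring
    rw [h4] at h3
    exact h3

theorem hasDerivAt_proj (h : Geo z a s0 s1) (c : ℂ) {t : ℝ} (ht : t ∈ Ioo s0 s1) :
    HasDerivAt (fun s => (z s * c).re) ((dir (a t) * c).re) t := by
  have h1 := (h.dz t ht).mul_const c
  exact (Complex.reCLM.hasFDerivAt.comp_hasDerivAt t h1)

theorem continuousOn_proj (h : Geo z a s0 s1) (c : ℂ) :
    ContinuousOn (fun s => (z s * c).re) (Icc s0 s1) :=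
  Complex.continuous_re.comp_continuousOn (h.cz.mul continuousOn_const)

/-- mean value lower bound for a linear projection -/
theorem proj_le (h : Geo z a s0 s1) (c : ℂ) (m : ℝ) {s t : ℝ} (hs : s0 ≤ s) (hst : s ≤ t)
    (ht : t ≤ s1) (hm : ∀ u ∈ Ioo s t, m ≤ (dir (a u) * c).re) :
    m * (t - s) ≤ ((z t - z s) * c).re := by
  have hg := h.mono hs ht
  have h1 := Convex.mul_sub_le_image_sub_of_le_deriv (D := Icc s t) (convex_Icc s t)
    (f := fun s => (z s * c).re) (hg.continuousOn_proj c)
    (by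
      rw [interior_Icc]
      intro u hu
      exact (hg.hasDerivAt_proj c hu).differentiableAt.differentiableWithinAt)
    (C := m)
    (by
      rw [interior_Icc]
      intro u hu
      rw [(hg.hasDerivAt_proj c hu).deriv]
      exact hm u hu)
    s (left_mem_Icc.2 hst) t (right_mem_Icc.2 hst) hst
  have h2 : ((z t - z s) * c).re = (z t * c).re - (z s * c).re := by
    rw [sub_mul, Complex.sub_re]
  rw [h2]; exact h1

theorem le_proj (h : Geo z a s0 s1) (c : ℂ) (m : ℝ) {s t : ℝ} (hs : s0 ≤ s) (hst : s ≤ t)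
    (ht : t ≤ s1) (hm : ∀ u ∈ Ioo s t, (dir (a u) * c).re ≤ m) :
    ((z t - z s) * c).re ≤ m * (t - s) := by
  have := h.proj_le (-c) (-m) hs hst ht (by
    intro u hu; have := hm u hu; rw [mul_neg, Complex.neg_re]; linarith)
  rw [mul_neg, Complex.neg_re] at this
  linarith

theorem norm_sub_le (h : Geo z a s0 s1) {s t : ℝ} (hs : s0 ≤ s) (hst : s ≤ t) (ht : t ≤ s1) :
    ‖z t - z s‖ ≤ t - s := by
  have hg := h.mono hs ht
  by_cases hw : z t - z s = 0
  · rw [hw]; simp; exact hst
  have hn : 0 < ‖z t - z s‖ := norm_pos_iff.2 hw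
  set w := z t - z s with hwdef
  have h1 := h.le_proj ((starRingEnd ℂ) w / ‖w‖) 1 hs hst ht (by
    intro u hu
    calc (dir (a u) * ((starRingEnd ℂ) w / ‖w‖)).re ≤ ‖dir (a u) * ((starRingEnd ℂ) w / ‖w‖)‖ :=
          Complex.re_le_norm _
      _ = 1 := by
          rw [norm_mul, norm_dir, norm_div, Complex.norm_conj, Complex.norm_real, norm_norm]
          field_simp)
  rw [← hwdef] at h1
  have h2 : (w * ((starRingEnd ℂ) w / ‖w‖)).re = ‖w‖ := by
    rw [mul_div_assoc', Complex.mul_conj, Complex.normSq_eq_norm_sq]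
    have : (((‖w‖ ^ 2 : ℝ) : ℂ) / (‖w‖ : ℂ)) = ((‖w‖ : ℝ) : ℂ) := by
      push_cast; field_simp
    rw [this, Complex.ofReal_re]
  rw [h2] at h1
  linarith

/-- norm of position grows at most linearly -/
theorem norm_le (h : Geo z a s0 s1) {s t : ℝ} (hs : s0 ≤ s) (hst : s ≤ t) (ht : t ≤ s1) :
    ‖z t‖ ≤ ‖z s‖ + (t - s) := by
  have := h.norm_sub_le hs hst ht
  calc ‖z t‖ = ‖z s + (z t - z s)‖ := by ring_nf
    _ ≤ ‖z s‖ + ‖z t - z s‖ := norm_add_le _ _
    _ ≤ _ := by linarith

theorem norm_ge (h : Geo z a s0 s1) {s t : ℝ} (hs : s0 ≤ s) (hst : s ≤ t) (ht : t ≤ s1) :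
    ‖z s‖ - (t - s) ≤ ‖z t‖ := by
  have := h.norm_sub_le hs hst ht
  have h2 : ‖z s‖ ≤ ‖z t‖ + ‖z t - z s‖ := by
    calc ‖z s‖ = ‖z t - (z t - z s)‖ := by ring_nf
      _ ≤ _ := _root_.norm_sub_le _ _
  linarith

/-- drift of the tangent angle -/
theorem angle_drift (h : Geo z a s0 s1) {s t R : ℝ} (hs : s0 ≤ s) (hst : s ≤ t) (ht : t ≤ s1)
    (hR : ∀ u ∈ Ioo s t, ‖z u‖ ≤ R) : |a t - a s| ≤ R * (t - s) := by
  have hg := h.mono hs ht
  -- use the mean value inequality on the open interval together with continuity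
  have up := Convex.image_sub_le_mul_sub_of_deriv_le (D := Icc s t) (convex_Icc s t)
    (f := a) hg.ca
    (by
      rw [interior_Icc]; intro u hu
      exact (hg.da u hu).differentiableAt.differentiableWithinAt)
    (C := R)
    (by
      rw [interior_Icc]; intro u hu
      rw [(hg.da u hu).deriv]
      exact le_trans (le_abs_self _) (le_trans (abs_cross_dir_le _ _) (hR u hu)))
    s (left_mem_Icc.2 hst) t (right_mem_Icc.2 hst) hst
  have lo := Convex.mul_sub_le_image_sub_of_le_deriv (D := Icc s t) (convex_Icc s t)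
    (f := a) hg.ca
    (by
      rw [interior_Icc]; intro u hu
      exact (hg.da u hu).differentiableAt.differentiableWithinAt)
    (C := -R)
    (by
      rw [interior_Icc]; intro u hu
      rw [(hg.da u hu).deriv]
      have := abs_le.1 (le_trans (abs_cross_dir_le (z u) (a u)) (hR u hu))
      exact this.1)
    s (left_mem_Icc.2 hst) t (right_mem_Icc.2 hst) hst
  rw [abs_le]; constructor <;> linarith

/-- derivative of `dot z T` is `1 - κ²` -/
theorem hasDerivAt_dot (h : Geo z a s0 s1) {t : ℝ} (ht : t ∈ Ioo s0 s1) :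
    HasDerivAt (fun s => dot (z s) (dir (a s))) (1 - cross (z t) (dir (a t)) ^ 2) t := by
  have hz := h.dz t ht
  have ha := h.da t ht
  have hd : HasDerivAt (fun s => dir (a s)) ((cross (z t) (dir (a t))) • (I * dir (a t))) t :=
    (hasDerivAt_dir (a t)).scomp t ha
  have zre := (Complex.reCLM.hasFDerivAt.comp_hasDerivAt t hz)
  have zim := (Complex.imCLM.hasFDerivAt.comp_hasDerivAt t hz)
  have dre := (Complex.reCLM.hasFDerivAt.comp_hasDerivAt t hd)
  have dim := (Complex.imCLM.hasFDerivAt.comp_hasDerivAt t hd)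
  simp only [Complex.reCLM_apply, Complex.imCLM_apply] at zre zim dre dim
  have h1 := (zre.mul dre).add (zim.mul dim)
  refine h1.congr_deriv ?_
  have e := dir_sq (a t)
  simp only [Function.comp_def, Complex.reCLM_apply, Complex.imCLM_apply]
  simp only [cross, Complex.real_smul, Complex.mul_re, Complex.mul_im, Complex.ofReal_re,
    Complex.ofReal_im, Complex.I_re, Complex.I_im]
  linear_combination e

/-- derivative of `κ` is `κ * dot z T` -/
theorem hasDerivAt_cross (h : Geo z a s0 s1) {t : ℝ} (ht : t ∈ Ioo s0 s1) :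
    HasDerivAt (fun s => cross (z s) (dir (a s)))
      (cross (z t) (dir (a t)) * dot (z t) (dir (a t))) t := by
  have hz := h.dz t ht
  have ha := h.da t ht
  have hd : HasDerivAt (fun s => dir (a s)) ((cross (z t) (dir (a t))) • (I * dir (a t))) t :=
    (hasDerivAt_dir (a t)).scomp t ha
  have zre := (Complex.reCLM.hasFDerivAt.comp_hasDerivAt t hz)
  have zim := (Complex.imCLM.hasFDerivAt.comp_hasDerivAt t hz)
  have dre := (Complex.reCLM.hasFDerivAt.comp_hasDerivAt t hd)
  have dim := (Complex.imCLM.hasFDerivAt.comp_hasDerivAt t hd)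
  simp only [Complex.reCLM_apply, Complex.imCLM_apply] at zre zim dre dim
  have h1 := (zre.mul dim).sub (zim.mul dre)
  refine h1.congr_deriv ?_
  simp only [Function.comp_def, Complex.reCLM_apply, Complex.imCLM_apply]
  simp only [cross, dot, Complex.real_smul, Complex.mul_re, Complex.mul_im, Complex.ofReal_re,
    Complex.ofReal_im, Complex.I_re, Complex.I_im]
  ring

/-- derivative of `‖z‖²` -/
theorem hasDerivAt_normSq (h : Geo z a s0 s1) {t : ℝ} (ht : t ∈ Ioo s0 s1) :
    HasDerivAt (fun s => ‖z s‖ ^ 2) (2 * dot (z t) (dir (a t))) t := by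
  have hz := h.dz t ht
  have zre := (Complex.reCLM.hasFDerivAt.comp_hasDerivAt t hz)
  have zim := (Complex.imCLM.hasFDerivAt.comp_hasDerivAt t hz)
  simp only [Complex.reCLM_apply, Complex.imCLM_apply] at zre zim
  have h1 := (zre.pow 2).add (zim.pow 2)
  have h2 : (fun s => ‖z s‖ ^ 2) =
      ((fun s => (z s).re) ^ 2 + (fun s => (z s).im) ^ 2 : ℝ → ℝ) := by
    funext s; simp [norm_sq_eq]
  rw [h2]
  refine h1.congr_deriv ?_
  simp only [Function.comp_def, Complex.reCLM_apply, Complex.imCLM_apply]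
  simp only [dot, Nat.cast_ofNat]
  ring

theorem continuousOn_cross (h : Geo z a s0 s1) :
    ContinuousOn (fun s => cross (z s) (dir (a s))) (Icc s0 s1) := by
  unfold cross
  have h1 := h.cz
  have h2 : ContinuousOn (fun s => dir (a s)) (Icc s0 s1) := continuous_dir.comp_continuousOn h.ca
  exact ((Complex.continuous_re.comp_continuousOn h1).mul
    (Complex.continuous_im.comp_continuousOn h2)).sub
    ((Complex.continuous_im.comp_continuousOn h1).mul (Complex.continuous_re.comp_continuousOn h2))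

theorem continuousOn_dot (h : Geo z a s0 s1) :
    ContinuousOn (fun s => dot (z s) (dir (a s))) (Icc s0 s1) := by
  unfold dot
  have h1 := h.cz
  have h2 : ContinuousOn (fun s => dir (a s)) (Icc s0 s1) := continuous_dir.comp_continuousOn h.ca
  exact ((Complex.continuous_re.comp_continuousOn h1).mul
    (Complex.continuous_re.comp_continuousOn h2)).add
    ((Complex.continuous_im.comp_continuousOn h1).mul (Complex.continuous_im.comp_continuousOn h2))

end Geo

end

end Pool.Agent.MP_4c0f47_an
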