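import Pool.Agent.Lib.MP_4c0f47_an.Wind

set_option autoImplicit false

open Set Filter Topology Complex MeasureTheory

namespace Pool.Agent.MP_4c0f47_an

noncomputable section

theorem log_neg_of_im_pos {w : ℂ} (h : 0 < w.im) :
    Complex.log (-w) = Complex.log w - Real.pi * I := by
  unfold Complex.log
  rw [norm_neg, Complex.arg_neg_eq_arg_sub_pi_of_im_pos h]
  push_cast; ring

theorem log_neg_of_im_neg {w : ℂ} (h : w.im < 0) :
    Complex.log (-w) = Complex.log w + Real.pi * I := by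
  unfold Complex.log
  rw [norm_neg, Complex.arg_neg_eq_arg_add_pi_of_im_neg h]
  push_cast; ring

theorem I_conj_dir_mul (b s : ℝ) :
    I * (starRingEnd ℂ) (dir b) * ((s : ℂ) * (I * dir b)) = -(s : ℂ) := by
  have : I * (starRingEnd ℂ) (dir b) * ((s : ℂ) * (I * dir b))
      = (s : ℂ) * (I * I) * (dir b * (starRingEnd ℂ) (dir b)) := by ring
  rw [this, conj_dir_mul, sub_self, dir_zero, Complex.I_mul_I]; ring

theorem Geo.jump {z : ℝ → ℂ} {a : ℝ → ℝ} {s0 s1 : ℝ} (h : Geo z a s0 s1) {t0 : ℝ}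
    (ht0 : t0 ∈ Ioo s0 s1) (hinj : ∀ t ∈ Icc s0 s1, z t = z t0 → t = t0) :
    Tendsto (fun s : ℝ => cind z a s0 s1 (pt z a t0 s) - cind z a s0 s1 (pt z a t0 (-s)))
      (𝓝[>] 0) (𝓝 (2 * Real.pi * I)) := by
  have h01 : s0 ≤ s1 := by linarith [ht0.1, ht0.2]
  -- choose ε
  have hca : ContinuousAt a t0 := h.ca.continuousAt (Icc_mem_nhds ht0.1 ht0.2)
  obtain ⟨ε0, hε0, hε0'⟩ := Metric.continuousAt_iff.1 hca 1 one_pos
  set ε : ℝ := min (ε0 / 2) (min ((t0 - s0) / 2) ((s1 - t0) / 2)) with hε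
  have hεp : 0 < ε := lt_min (by linarith) (lt_min (by linarith [ht0.1]) (by linarith [ht0.2]))
  have hε1 : ε ≤ ε0 / 2 := min_le_left _ _
  have hε2 : ε ≤ (t0 - s0) / 2 := le_trans (min_le_right _ _) (min_le_left _ _)
  have hε3 : ε ≤ (s1 - t0) / 2 := le_trans (min_le_right _ _) (min_le_right _ _)
  have hang : ∀ t ∈ Icc (t0 - ε) (t0 + ε), |a t - a t0| ≤ 1 := by
    intro t ht
    have := hε0' (show dist t t0 < ε0 by
      rw [Real.dist_eq, abs_lt]; constructor <;> linarith [ht.1, ht.2])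
    rw [Real.dist_eq] at this
    exact this.le
  have hch1 : ∀ t ∈ Icc t0 (t0 + ε),
      1 / 2 * (t - t0) ≤ ((z t - z t0) * (starRingEnd ℂ) (dir (a t0))).re := by
    intro t ht
    apply h.proj_le _ (1 / 2) ht0.1.le ht.1 (by linarith [ht.2])
    intro u hu
    rw [conj_dir_mul, dir_re]
    exact cos_ge_half (hang u ⟨by linarith [hu.1], by linarith [hu.2, ht.2]⟩)
  have hch2 : ∀ t ∈ Icc (t0 - ε) t0,
      ((z t - z t0) * (starRingEnd ℂ) (dir (a t0))).re ≤ -(1 / 2 * (t0 - t)) := by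
    intro t ht
    have := h.proj_le ((starRingEnd ℂ) (dir (a t0))) (1 / 2) (s := t) (t := t0)
      (by linarith [ht.1]) ht.2 ht0.2.le (by
        intro u hu
        rw [conj_dir_mul, dir_re]
        exact cos_ge_half (hang u ⟨by linarith [hu.1, ht.1], by linarith [hu.2]⟩))
    have e : ((z t - z t0) * (starRingEnd ℂ) (dir (a t0))).re
        = - ((z t0 - z t) * (starRingEnd ℂ) (dir (a t0))).re := by
      rw [← Complex.neg_re]; ring_nf
    rw [e]; linarith
  -- slit plane conditions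
  set c : ℂ := I * (starRingEnd ℂ) (dir (a t0)) with hc
  have him : ∀ x : ℂ, (c * x).im = (x * (starRingEnd ℂ) (dir (a t0))).re := by
    intro x; rw [hc]; simp [Complex.mul_im, Complex.mul_re]; ring
  have hcx : ∀ t s : ℝ, c * (z t - pt z a t0 s) = c * (z t - z t0) + (s : ℂ) := by
    intro t s
    unfold pt
    have : c * (z t - (z t0 + (s : ℂ) * (I * dir (a t0))))
        = c * (z t - z t0) - c * ((s : ℂ) * (I * dir (a t0))) := by ring
    rw [this, hc, I_conj_dir_mul]; ring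
  have hslit1 : ∀ s : ℝ, 0 < s → ∀ t ∈ Icc (t0 - ε) (t0 + ε), c * (z t - pt z a t0 s) ∈ slitPlane := by
    intro s hs t ht
    rw [hcx, Complex.mem_slitPlane_iff]
    rcases lt_trichotomy t t0 with hlt | heq | hgt
    · right
      have := hch2 t ⟨ht.1, hlt.le⟩
      rw [Complex.add_im, him, Complex.ofReal_im, add_zero]
      intro h0; rw [h0] at this; linarith
    · left; rw [heq]; simp [hs]
    · right
      have := hch1 t ⟨hgt.le, ht.2⟩
      rw [Complex.add_im, him, Complex.ofReal_im, add_zero]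
      intro h0; rw [h0] at this; linarith
  have hslit2 : ∀ s : ℝ, 0 < s → ∀ t ∈ Icc (t0 - ε) (t0 + ε),
      (-c) * (z t - pt z a t0 (-s)) ∈ slitPlane := by
    intro s hs t ht
    rw [neg_mul, hcx, Complex.mem_slitPlane_iff]
    rcases lt_trichotomy t t0 with hlt | heq | hgt
    · right
      have := hch2 t ⟨ht.1, hlt.le⟩
      rw [Complex.neg_im, Complex.add_im, him, Complex.ofReal_im, add_zero]
      intro h0; rw [neg_eq_zero] at h0; rw [h0] at this; linarith
    · left; rw [heq]; simp [hs]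
    · right
      have := hch1 t ⟨hgt.le, ht.2⟩
      rw [Complex.neg_im, Complex.add_im, him, Complex.ofReal_im, add_zero]
      intro h0; rw [neg_eq_zero] at h0; rw [h0] at this; linarith
  -- the middle pieces
  have gm := h.mono (t0 := t0 - ε) (t1 := t0 + ε) (by linarith) (by linarith)
  have gl := h.mono (t0 := s0) (t1 := t0 - ε) le_rfl (by linarith)
  have gr := h.mono (t0 := t0 + ε) (t1 := s1) (by linarith) le_rfl
  have hptc : Continuous (fun s : ℝ => pt z a t0 s) := by unfold pt; fun_prop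
  have hpt0 : pt z a t0 0 = z t0 := by simp [pt]
  -- away from the middle
  have hlne : ∀ t ∈ Icc s0 (t0 - ε), z t ≠ z t0 := fun t ht heq => by
    have := hinj t ⟨ht.1, by linarith [ht.2, ht0.2]⟩ heq
    linarith [ht.2]
  have hrne : ∀ t ∈ Icc (t0 + ε) s1, z t ≠ z t0 := fun t ht heq => by
    have := hinj t ⟨by linarith [ht.1, ht0.1], ht.2⟩ heq
    linarith [ht.1]
  have cl : ContinuousAt (fun s : ℝ => cind z a s0 (t0 - ε) (pt z a t0 s)) 0 := by
    have h1 := gl.continuousAt_cind (by linarith) hlne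
    rw [← hpt0] at h1
    exact ContinuousAt.comp (f := fun s : ℝ => pt z a t0 s) h1 hptc.continuousAt
  have cr : ContinuousAt (fun s : ℝ => cind z a (t0 + ε) s1 (pt z a t0 s)) 0 := by
    have h1 := gr.continuousAt_cind (by linarith) hrne
    rw [← hpt0] at h1
    exact ContinuousAt.comp (f := fun s : ℝ => pt z a t0 s) h1 hptc.continuousAt
  obtain ⟨ρ1, hρ1, hρ1'⟩ := gl.dist_pos hlne
  obtain ⟨ρ2, hρ2, hρ2'⟩ := gr.dist_pos hrne
  have hoff : ∀ s : ℝ, s ≠ 0 → |s| < min ρ1 ρ2 → ∀ t ∈ Icc s0 s1, z t ≠ pt z a t0 s := by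
    intro s hs hsρ t ht heq
    have hm1 := min_le_left ρ1 ρ2
    have hm2 := min_le_right ρ1 ρ2
    have hd : ‖z t - z t0‖ = |s| := by rw [heq, LC.norm_pt_sub]
    by_cases h1 : t ≤ t0 - ε
    · have := hρ1' t ⟨ht.1, h1⟩; linarith
    by_cases h2 : t0 + ε ≤ t
    · have := hρ2' t ⟨h2, ht.2⟩; linarith
    push Not at h1 h2
    rcases lt_or_gt_of_ne hs with hneg | hpos
    · have := hslit2 (-s) (by linarith) t ⟨h1.le, h2.le⟩
      rw [neg_neg, heq, sub_self, mul_zero] at this
      exact Complex.slitPlane_ne_zero this rfl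
    · have := hslit1 s hpos t ⟨h1.le, h2.le⟩
      rw [heq, sub_self, mul_zero] at this
      exact Complex.slitPlane_ne_zero this rfl
  -- formula
  set W : ℝ → ℂ := fun t => c * (z t - z t0) with hW
  have hev : ∀ᶠ s in 𝓝[>] (0 : ℝ),
      (cind z a s0 (t0 - ε) (pt z a t0 s) - cind z a s0 (t0 - ε) (pt z a t0 (-s)))
      + (cind z a (t0 + ε) s1 (pt z a t0 s) - cind z a (t0 + ε) s1 (pt z a t0 (-s)))
      + ((Complex.log (W (t0 + ε) + (s : ℂ)) - Complex.log (W (t0 - ε) + (s : ℂ)))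
      - (Complex.log (-(W (t0 + ε) - (s : ℂ))) - Complex.log (-(W (t0 - ε) - (s : ℂ)))))
      = cind z a s0 s1 (pt z a t0 s) - cind z a s0 s1 (pt z a t0 (-s)) := by
    filter_upwards [Ioo_mem_nhdsGT (show (0 : ℝ) < min ρ1 ρ2 from lt_min hρ1 hρ2)] with s hs
    have o1 := hoff s (ne_of_gt hs.1) (by rw [abs_of_pos hs.1]; exact hs.2)
    have o2 := hoff (-s) (by linarith [hs.1]) (by rw [abs_neg, abs_of_pos hs.1]; exact hs.2)
    rw [h.cind_split (t := t0 - ε) (by linarith) (by linarith) o1,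
      h.cind_split (t := t0 - ε) (by linarith) (by linarith) o2,
      (h.mono (t0 := t0 - ε) (by linarith) le_rfl).cind_split (t := t0 + ε) (by linarith)
        (by linarith) (fun t ht => o1 t ⟨by linarith [ht.1], ht.2⟩),
      (h.mono (t0 := t0 - ε) (by linarith) le_rfl).cind_split (t := t0 + ε) (by linarith)
        (by linarith) (fun t ht => o2 t ⟨by linarith [ht.1], ht.2⟩),
      gm.cind_log (by linarith) (hslit1 s hs.1), gm.cind_log (by linarith) (hslit2 s hs.1)]
    rw [neg_mul, neg_mul, hcx, hcx, hcx, hcx]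
    simp only [hW]
    push_cast
    ring_nf
  apply Tendsto.congr' hev
  have imP : 0 < (W (t0 + ε)).im := by
    simp only [hW]; rw [him]
    have := hch1 (t0 + ε) ⟨by linarith, le_rfl⟩; linarith
  have imN : (W (t0 - ε)).im < 0 := by
    simp only [hW]; rw [him]
    have := hch2 (t0 - ε) ⟨le_rfl, by linarith⟩; linarith
  have lim0 : ∀ {f : ℝ → ℂ}, ContinuousAt f 0 →
      Tendsto (fun s => f s - f (-s)) (𝓝[>] 0) (𝓝 0) := by
    intro f hf
    have h1 : Tendsto f (𝓝[>] 0) (𝓝 (f 0)) := hf.tendsto.mono_left nhdsWithin_le_nhds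
    have h2 : Tendsto (fun s : ℝ => f (-s)) (𝓝[>] 0) (𝓝 (f 0)) := by
      have hneg : Tendsto (fun s : ℝ => -s) (𝓝[>] (0:ℝ)) (𝓝 0) := by
        have := (continuous_neg (G := ℝ)).continuousAt (x := 0)
        have := this.tendsto
        rw [neg_zero] at this
        exact this.mono_left nhdsWithin_le_nhds
      exact hf.tendsto.comp hneg
    have := h1.sub h2
    rwa [sub_self] at this
  have hlog : ∀ (w : ℂ), w.im ≠ 0 → Tendsto (fun s : ℝ => Complex.log (w + (s : ℂ))) (𝓝[>] 0)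
      (𝓝 (Complex.log w)) := by
    intro w hw
    have hc1 : ContinuousAt (fun s : ℝ => Complex.log (w + (s : ℂ))) 0 := by
      apply ContinuousAt.clog
      · fun_prop
      · rw [Complex.mem_slitPlane_iff]; right; simpa using hw
    have := hc1.tendsto
    simp only [Complex.ofReal_zero, add_zero] at this
    exact this.mono_left nhdsWithin_le_nhds
  have hlog2 : ∀ (w : ℂ), w.im ≠ 0 → Tendsto (fun s : ℝ => Complex.log (-(w - (s : ℂ)))) (𝓝[>] 0)
      (𝓝 (Complex.log (-w))) := by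
    intro w hw
    have := hlog (-w) (by simpa using hw)
    refine this.congr (fun s => ?_)
    ring_nf
  have hlim := ((lim0 cl).add (lim0 cr)).add
    (((hlog _ (ne_of_gt imP)).sub (hlog _ (ne_of_lt imN))).sub
      ((hlog2 _ (ne_of_gt imP)).sub (hlog2 _ (ne_of_lt imN))))
  have hval : (0 : ℂ) + 0 + ((Complex.log (W (t0 + ε)) - Complex.log (W (t0 - ε)))
      - (Complex.log (-W (t0 + ε)) - Complex.log (-W (t0 - ε)))) = 2 * Real.pi * I := by
    rw [log_neg_of_im_pos imP, log_neg_of_im_neg imN]; ring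
  rw [hval] at hlim
  exact hlim

end

end Pool.Agent.MP_4c0f47_an
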