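import Pool.Agent.Lib.MP_4c0f47_an.Tips
import Pool.Agent.Lib.MP_4c0f47_an.Faces
import Pool.Agent.Lib.MP_4c0f47_an.BuildLoop

set_option autoImplicit false

open Set Filter Topology Complex MeasureTheory

namespace Pool.Agent.MP_4c0f47_an

noncomputable section

namespace Net

/-- a net has a bounded number of bounded complementary components -/
theorem bounded_le (hgap : GapLevels) (N : Net) :
    {F : Set ℂ | N.IsComp F ∧ Bornology.IsBounded F}.encard ≤ 400003 := by
  classical
  have h1 : {F : Set ℂ | N.IsComp F ∧ Bornology.IsBounded F} ⊆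
      {F : Set ℂ | N.IsComp F ∧ (0:ℂ) ∈ closure F} ∪
      N.faceL '' ((Finset.univ.filter (fun e : N.D => N.Tip e) : Finset N.D) : Set N.D) := by
    rintro F ⟨hF, hb⟩
    by_cases h0 : (0:ℂ) ∈ closure F
    · exact Or.inl ⟨hF, h0⟩
    · right
      obtain ⟨e, he, ht⟩ := exists_tip hb hF h0
      refine ⟨e, ?_, N.mem_bdry.1 he⟩
      simp [ht]
  have h2 := N.central_le
  have h3 : (N.faceL '' ((Finset.univ.filter (fun e : N.D => N.Tip e) : Finset N.D) :
      Set N.D)).encard ≤ 400000 := by
    refine (Set.encard_image_le _ _).trans ?_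
    rw [Set.encard_coe_eq_coe_finsetCard]
    exact_mod_cast tips_le hgap N
  calc _ ≤ _ := Set.encard_le_encard h1
    _ ≤ _ := Set.encard_union_le _ _
    _ ≤ 3 + 400000 := add_le_add h2 h3
    _ = 400003 := by norm_num

end Net

theorem main_bound (hgap : GapLevels) (N : Network) (hN : N.IsNetwork) (hR : N.IsRegular)
    (hS : N.IsShrinker) : N.boundedRegions.encard ≤ (400003 : ℕ) := by
  by_cases h : ∀ i, (N.curve i).kind = Kind.arc ∨ (N.curve i).kind = Kind.ray
  · obtain ⟨M, hM⟩ := exists_net N hN hR hS h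
    have h1 : N.boundedRegions = {F : Set ℂ | M.IsComp F ∧ Bornology.IsBounded F} := by
      rw [Network.boundedRegions, ← hM]
      rfl
    rw [h1]
    exact_mod_cast M.bounded_le hgap
  · push Not at h
    obtain ⟨i, h1, h2⟩ := h
    have h3 : (N.curve i).kind = Kind.line ∨ (N.curve i).kind = Kind.loop := by
      cases hk : (N.curve i).kind
      · exact absurd hk h1
      · exact absurd hk h2
      · exact Or.inl rfl
      · exact Or.inr rfl
    refine (bounded_degenerate N hN hS ⟨i, h3⟩).trans ?_
    norm_num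

end

end Pool.Agent.MP_4c0f47_an
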