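import Pool.Agent.Lib.MP_4c0f47_an.Local

set_option autoImplicit false

open Set Filter Topology Complex

namespace Pool.Agent.MP_4c0f47_an

noncomputable section

theorem cos_pi_div_three' : Real.cos (Real.pi / 3) = 1 / 2 := Real.cos_pi_div_three

theorem dir_pi_div_three : dir (Real.pi / 3) = ⟨1 / 2, Real.sqrt 3 / 2⟩ := by
  apply Complex.ext
  · rw [dir_re, Real.cos_pi_div_three]
  · rw [dir_im, Real.sin_pi_div_three]

theorem dir_two_pi_div_three : dir (2 * Real.pi / 3) = ⟨-1 / 2, Real.sqrt 3 / 2⟩ := by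
  have h : 2 * Real.pi / 3 = Real.pi - Real.pi / 3 := by ring
  apply Complex.ext
  · rw [dir_re, h, Real.cos_pi_sub, Real.cos_pi_div_three]; norm_num
  · rw [dir_im, h, Real.sin_pi_sub, Real.sin_pi_div_three]

theorem dir_four_pi_div_three : dir (4 * Real.pi / 3) = ⟨-1 / 2, -(Real.sqrt 3 / 2)⟩ := by
  have h : 4 * Real.pi / 3 = Real.pi / 3 + Real.pi := by ring
  rw [h, dir_add_pi, dir_pi_div_three]
  apply Complex.ext <;> simp <;> norm_num

theorem sqrt3_bounds : 1.73 < Real.sqrt 3 ∧ Real.sqrt 3 < 1.74 := by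
  constructor
  · rw [Real.lt_sqrt (by norm_num)]; norm_num
  · rw [Real.sqrt_lt' (by norm_num)]; norm_num

namespace Net

variable {N : Net}

theorem vertex_cases {d e : N.D} (h : N.src d = N.src e) :
    d = e ∨ d = N.rot e ∨ d = N.rot (N.rot e) := N.vertex e d h.symm

theorem rot_dir1 (e : N.D) : dir (N.a (N.rot e) 0) = dir (N.a e 0) * dir (2 * Real.pi / 3) := by
  rw [N.a_rot, dir_add]

theorem rot_dir2 (e : N.D) :
    dir (N.a (N.rot (N.rot e)) 0) = dir (N.a e 0) * dir (4 * Real.pi / 3) := by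
  rw [rot_dir1, rot_dir1, mul_assoc, ← dir_add]; ring_nf

theorem src_expand {d : N.D} {t : ℝ} (ht : t ∈ N.dom d) (h1 : t ≤ 1)
    (hM : (‖N.src d‖ + 1) * t ≤ 1 / 10) (c : ℂ) (hc : ‖c‖ = 1) :
    ∃ q : ℂ, ‖q‖ ≤ t / 10 ∧ (N.z d t - N.src d) * c = (t : ℂ) * (dir (N.a d 0) * c) + q := by
  refine ⟨(N.z d t - N.src d - (t : ℂ) * dir (N.a d 0)) * c, ?_, by ring⟩
  rw [norm_mul, hc, mul_one]
  have := (N.near_src d ht h1).2
  nlinarith [ht.1]

theorem self_off {e : N.D} {r : ℝ} (hM : (‖N.src e‖ + 1) * r ≤ 1 / 10)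
    (hr1 : r ≤ 1) {t t'' s : ℝ} (ht : t ∈ N.dom e) (ht'' : t'' ∈ N.dom e) (htr : t ≤ r)
    (htr'' : t'' ≤ r) (heq : N.z e t'' = pt (N.z e) (N.a e) t s) : s = 0 := by
  have hpos : 0 < ‖N.src e‖ + 1 := by positivity
  have hb : ∀ x ∈ N.dom e, x ≤ r → |N.a e x - N.a e 0| ≤ 1 / 10 := by
    intro x hx hxr
    have := (N.near_src e hx (by linarith)).1 x ⟨hx.1, le_rfl⟩
    have h2 : (‖N.src e‖ + 1) * x ≤ (‖N.src e‖ + 1) * r := mul_le_mul_of_nonneg_left hxr hpos.le
    linarith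
  have h0 := LC.pt_mul (z := N.z e) (a := N.a e) t s
  rw [← heq] at h0
  have hch : ∀ t1 t2 : ℝ, t1 ∈ N.dom e → t2 ∈ N.dom e → t1 ≤ r → t2 ≤ r → t1 ≤ t2 →
      1 / 2 * (t2 - t1) ≤ ((N.z e t2 - N.z e t1) * (starRingEnd ℂ) (dir (N.a e t))).re := by
    intro t1 t2 h1 h2 h1r h2r h12
    apply (N.geo' h2).proj_le _ (1 / 2) h1.1 h12 le_rfl
    intro u hu
    rw [conj_dir_mul, dir_re]
    apply cos_ge_half
    have hu' : u ∈ N.dom e := N.dom_of_le h2 (by linarith [h1.1, hu.1]) hu.2.le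
    have e1 := abs_le.1 (hb u hu' (by linarith [hu.2]))
    have e2 := abs_le.1 (hb t ht htr)
    rw [abs_le]; constructor <;> linarith [e1.1, e1.2, e2.1, e2.2]
  have htt : t'' = t := by
    rcases lt_trichotomy t'' t with hlt | heq' | hgt
    · have := hch t'' t ht'' ht htr'' htr hlt.le
      have e : ((N.z e t - N.z e t'') * (starRingEnd ℂ) (dir (N.a e t))).re
          = - ((N.z e t'' - N.z e t) * (starRingEnd ℂ) (dir (N.a e t))).re := by
        rw [← Complex.neg_re]; ring_nf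
      rw [e, h0] at this
      linarith
    · exact heq'
    · have := hch t t'' ht ht'' htr htr'' hgt.le
      rw [h0] at this
      linarith
  rw [htt] at heq
  have h1 := LC.norm_pt_sub (z := N.z e) (a := N.a e) t s
  rw [← heq, sub_self, norm_zero] at h1
  exact abs_eq_zero.1 h1.symm

theorem pt_expand {e : N.D} {t : ℝ} (ht : t ∈ N.dom e) (h1 : t ≤ 1)
    (hM : (‖N.src e‖ + 1) * t ≤ 1 / 10) (s : ℝ) (hs : |s| ≤ t) (c : ℂ) (hc : ‖c‖ = 1) :
    ∃ q : ℂ, ‖q‖ ≤ t / 5 ∧ (pt (N.z e) (N.a e) t s - N.src e) * c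
      = ((t : ℂ) + s * I) * (dir (N.a e 0) * c) + q := by
  obtain ⟨q, hq, hq2⟩ := N.src_expand ht h1 hM c hc
  refine ⟨q + (s : ℂ) * I * ((dir (N.a e t) - dir (N.a e 0)) * c), ?_, ?_⟩
  · have h2 := (N.near_src e ht h1).1 t ⟨ht.1, le_rfl⟩
    have h3 : ‖(s : ℂ) * I * ((dir (N.a e t) - dir (N.a e 0)) * c)‖ ≤ t * (1 / 10) := by
      rw [norm_mul, norm_mul, norm_mul, Complex.norm_I, hc, mul_one, mul_one, Complex.norm_real,
        Real.norm_eq_abs]
      apply mul_le_mul hs _ (norm_nonneg _) ht.1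
      exact le_trans (norm_dir_sub_le _ _) (le_trans h2 hM)
    calc _ ≤ ‖q‖ + ‖(s : ℂ) * I * ((dir (N.a e t) - dir (N.a e 0)) * c)‖ := norm_add_le _ _
      _ ≤ t / 10 + t * (1 / 10) := add_le_add hq h3
      _ = t / 5 := by ring
  · unfold pt
    have : (N.z e t + (s : ℂ) * (I * dir (N.a e t)) - N.src e) * c
        = (N.z e t - N.src e) * c + (s : ℂ) * I * (dir (N.a e t) * c) := by ring
    rw [this, hq2]; ring

/-- near a vertex, the normal segments at an edge do not meet the network -/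
theorem vertex_off (e : N.D) : ∃ r > 0, r ≤ 1 ∧ (‖N.src e‖ + 1) * r ≤ 1 / 10 ∧
    ∀ t ∈ Ioo 0 r, t ∈ N.int e ∧ ∀ s : ℝ, s ≠ 0 → |s| ≤ t →
      pt (N.z e) (N.a e) t s ∉ N.carrier := by
  have hpos : 0 < ‖N.src e‖ + 1 := by positivity
  set r0 : ℝ := min 1 (1 / (10 * (‖N.src e‖ + 1))) with hr0
  have hr0p : 0 < r0 := lt_min one_pos (by positivity)
  have hr01 : r0 ≤ 1 := min_le_left _ _
  have hr02 : (‖N.src e‖ + 1) * r0 ≤ 1 / 10 := by
    calc (‖N.src e‖ + 1) * r0 ≤ (‖N.src e‖ + 1) * (1 / (10 * (‖N.src e‖ + 1))) :=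
          mul_le_mul_of_nonneg_left (min_le_right _ _) hpos.le
      _ = 1 / 10 := by field_simp
  obtain ⟨ρ, hρ, hρ2⟩ := N.exists_ball_vertex (v := N.src e) ⟨e, rfl⟩ hr0p
  set r : ℝ := min (min r0 (ρ / 2)) (N.L e) with hr
  have hrp : 0 < r := lt_min (lt_min hr0p (by linarith)) (N.L_pos e)
  have hrr0 : r ≤ r0 := le_trans (min_le_left _ _) (min_le_left _ _)
  have hrρ : r ≤ ρ / 2 := le_trans (min_le_left _ _) (min_le_right _ _)
  have hrL : r ≤ N.L e := min_le_right _ _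
  have hMr : (‖N.src e‖ + 1) * r ≤ 1 / 10 :=
    le_trans (mul_le_mul_of_nonneg_left hrr0 hpos.le) hr02
  refine ⟨r, hrp, le_trans hrr0 hr01, hMr, fun t ht => ⟨⟨ht.1, Or.inr (by linarith [ht.2])⟩, ?_⟩⟩
  intro s hs hst hmem
  have htd : t ∈ N.dom e := ⟨ht.1.le, Or.inr (by linarith [ht.2])⟩
  have ht1 : t ≤ 1 := by linarith [ht.2]
  have hMt : (‖N.src e‖ + 1) * t ≤ 1 / 10 :=
    le_trans (mul_le_mul_of_nonneg_left ht.2.le hpos.le) hMr
  have hlt : ‖pt (N.z e) (N.a e) t s - N.src e‖ < ρ := by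
    have h1 : ‖N.z e t - N.src e‖ ≤ t := by
      have := (N.geo' htd).norm_sub_le (s := 0) (t := t) le_rfl ht.1.le le_rfl
      rwa [sub_zero] at this
    calc ‖pt (N.z e) (N.a e) t s - N.src e‖
        = ‖(pt (N.z e) (N.a e) t s - N.z e t) + (N.z e t - N.src e)‖ := by ring_nf
      _ ≤ |s| + t := by
          refine le_trans (norm_add_le _ _) ?_
          rw [LC.norm_pt_sub]; linarith
      _ < ρ := by linarith [ht.2]
  obtain ⟨d, hd, t'', ht''d, ht''r, heq⟩ := hρ2 _ hmem hlt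
  have hcn : ‖(starRingEnd ℂ) (dir (N.a e 0))‖ = 1 := by rw [Complex.norm_conj, norm_dir]
  obtain ⟨q, hq, hq2⟩ := N.pt_expand htd ht1 hMt s hst _ hcn
  have hM'' : (‖N.src d‖ + 1) * t'' ≤ 1 / 10 := by
    rw [hd]
    exact le_trans (mul_le_mul_of_nonneg_left ht''r.le hpos.le) hr02
  obtain ⟨q'', hq'', hq2''⟩ := N.src_expand ht''d (by linarith) hM'' _ hcn
  rw [heq, hd, hq2, conj_dir_mul, sub_self, dir_zero] at hq2''
  rw [mul_one] at hq2''
  have hre : t - t / 5 ≤ ((t : ℂ) + s * I + q).re := by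
    have := abs_le.1 (le_trans (Complex.abs_re_le_norm q) hq)
    simp only [Complex.add_re, Complex.ofReal_re, Complex.mul_re, Complex.ofReal_im,
      Complex.I_re, Complex.I_im, mul_zero, zero_mul, sub_zero]
    linarith [this.1]
  have ht''0 : 0 ≤ t'' := ht''d.1
  rcases N.vertex_cases hd with h | h | h
  · subst h
    have hsrc : r0 ≤ 1 := hr01
    exact hs (N.self_off hr02 hr01 htd ht''d (by linarith [ht.2]) ht''r.le heq)
  · rw [h, rot_dir1, mul_comm (dir (N.a e 0)), mul_assoc, conj_dir_mul, sub_self, dir_zero,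
      mul_one, dir_two_pi_div_three] at hq2''
    rw [hq2''] at hre
    have := abs_le.1 (le_trans (Complex.abs_re_le_norm q'') hq'')
    simp only [Complex.add_re, Complex.mul_re, Complex.ofReal_re, Complex.ofReal_im, zero_mul,
      sub_zero] at hre
    linarith [this.2, ht.1]
  · rw [h, rot_dir2, mul_comm (dir (N.a e 0)), mul_assoc, conj_dir_mul, sub_self, dir_zero,
      mul_one, dir_four_pi_div_three] at hq2''
    rw [hq2''] at hre
    have := abs_le.1 (le_trans (Complex.abs_re_le_norm q'') hq'')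
    simp only [Complex.add_re, Complex.mul_re, Complex.ofReal_re, Complex.ofReal_im, zero_mul,
      sub_zero] at hre
    linarith [this.2, ht.1]

/-- the open cone in the middle of the sector between `e` and `rot e` -/
def cone (e : N.D) (ρ : ℝ) : Set ℂ :=
  {w | ‖w - N.src e‖ < ρ ∧
    ((w - N.src e) * (starRingEnd ℂ) (dir (N.a e 0 + Real.pi / 3))).im <
      (1 / 2) * ((w - N.src e) * (starRingEnd ℂ) (dir (N.a e 0 + Real.pi / 3))).re ∧
    -((w - N.src e) * (starRingEnd ℂ) (dir (N.a e 0 + Real.pi / 3))).im <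
      (1 / 2) * ((w - N.src e) * (starRingEnd ℂ) (dir (N.a e 0 + Real.pi / 3))).re}

theorem convex_cone (e : N.D) (ρ : ℝ) : Convex ℝ (N.cone e ρ) := by
  intro x hx y hy a b ha hb hab
  obtain ⟨hx1, hx2, hx3⟩ := hx
  obtain ⟨hy1, hy2, hy3⟩ := hy
  have e1 : a • x + b • y - N.src e = (a : ℂ) * (x - N.src e) + (b : ℂ) * (y - N.src e) := by
    have : (a : ℂ) + b = 1 := by exact_mod_cast hab
    simp only [Complex.real_smul]
    linear_combination (N.src e) * this
  set c := (starRingEnd ℂ) (dir (N.a e 0 + Real.pi / 3)) with hc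
  have e2 : (a • x + b • y - N.src e) * c = (a : ℂ) * ((x - N.src e) * c)
      + (b : ℂ) * ((y - N.src e) * c) := by rw [e1]; ring
  refine ⟨?_, ?_, ?_⟩
  · rw [e1]
    calc ‖(a : ℂ) * (x - N.src e) + (b : ℂ) * (y - N.src e)‖
        ≤ ‖(a : ℂ) * (x - N.src e)‖ + ‖(b : ℂ) * (y - N.src e)‖ := norm_add_le _ _
      _ = a * ‖x - N.src e‖ + b * ‖y - N.src e‖ := by
          rw [norm_mul, norm_mul, Complex.norm_real, Complex.norm_real, Real.norm_of_nonneg ha,
            Real.norm_of_nonneg hb]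
      _ < ρ := by
          rcases eq_or_lt_of_le ha with h0 | h0
          · rw [← h0] at hab ⊢
            have : b = 1 := by linarith
            rw [this]; linarith
          · nlinarith [norm_nonneg (x - N.src e), norm_nonneg (y - N.src e)]
  · rw [e2]
    simp only [Complex.add_im, Complex.add_re, Complex.im_ofReal_mul, Complex.re_ofReal_mul]
    rcases eq_or_lt_of_le ha with h0 | h0
    · rw [← h0] at hab ⊢
      have : b = 1 := by linarith
      rw [this]; linarith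
    · nlinarith
  · rw [e2]
    simp only [Complex.add_im, Complex.add_re, Complex.im_ofReal_mul, Complex.re_ofReal_mul]
    rcases eq_or_lt_of_le ha with h0 | h0
    · rw [← h0] at hab ⊢
      have : b = 1 := by linarith
      rw [this]; linarith
    · nlinarith

theorem cone_off (e : N.D) : ∃ ρ > 0, N.cone e ρ ⊆ N.carrierᶜ := by
  have hpos : 0 < ‖N.src e‖ + 1 := by positivity
  set r0 : ℝ := min 1 (1 / (10 * (‖N.src e‖ + 1))) with hr0
  have hr0p : 0 < r0 := lt_min one_pos (by positivity)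
  have hr01 : r0 ≤ 1 := min_le_left _ _
  have hr02 : (‖N.src e‖ + 1) * r0 ≤ 1 / 10 := by
    calc (‖N.src e‖ + 1) * r0 ≤ (‖N.src e‖ + 1) * (1 / (10 * (‖N.src e‖ + 1))) :=
          mul_le_mul_of_nonneg_left (min_le_right _ _) hpos.le
      _ = 1 / 10 := by field_simp
  obtain ⟨ρ, hρ, hρ2⟩ := N.exists_ball_vertex (v := N.src e) ⟨e, rfl⟩ hr0p
  refine ⟨ρ, hρ, ?_⟩
  rintro w ⟨hw1, hw2, hw3⟩ hmem
  obtain ⟨d, hd, t, htd, htr, heq⟩ := hρ2 w hmem hw1
  have hcn : ‖(starRingEnd ℂ) (dir (N.a e 0 + Real.pi / 3))‖ = 1 := by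
    rw [Complex.norm_conj, norm_dir]
  have hM : (‖N.src d‖ + 1) * t ≤ 1 / 10 := by
    rw [hd]
    exact le_trans (mul_le_mul_of_nonneg_left htr.le hpos.le) hr02
  obtain ⟨q, hq, hq2⟩ := N.src_expand htd (by linarith) hM _ hcn
  rw [heq, hd] at hq2
  rw [hq2] at hw2 hw3
  have q1 := abs_le.1 (le_trans (Complex.abs_re_le_norm q) hq)
  have q2 := abs_le.1 (le_trans (Complex.abs_im_le_norm q) hq)
  have ht0 : 0 ≤ t := htd.1
  have h3 := sqrt3_bounds
  rcases N.vertex_cases hd with h | h | h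
  · have : dir (N.a d 0) * (starRingEnd ℂ) (dir (N.a e 0 + Real.pi / 3))
        = ⟨1 / 2, -(Real.sqrt 3 / 2)⟩ := by
      rw [h, conj_dir_mul, show N.a e 0 - (N.a e 0 + Real.pi / 3) = -(Real.pi / 3) by ring, dir_neg,
        dir_pi_div_three]
      apply Complex.ext <;> simp
    rw [this] at hw2 hw3
    simp only [Complex.add_re, Complex.add_im, Complex.re_ofReal_mul, Complex.im_ofReal_mul] at hw2 hw3
    nlinarith
  · have : dir (N.a d 0) * (starRingEnd ℂ) (dir (N.a e 0 + Real.pi / 3))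
        = ⟨1 / 2, (Real.sqrt 3 / 2)⟩ := by
      rw [h, rot_dir1, ← dir_add, conj_dir_mul,
        show N.a e 0 + 2 * Real.pi / 3 - (N.a e 0 + Real.pi / 3) = (Real.pi / 3) by ring,
        dir_pi_div_three]
    rw [this] at hw2 hw3
    simp only [Complex.add_re, Complex.add_im, Complex.re_ofReal_mul, Complex.im_ofReal_mul] at hw2 hw3
    nlinarith
  · have : dir (N.a d 0) * (starRingEnd ℂ) (dir (N.a e 0 + Real.pi / 3)) = -1 := by
      rw [h, rot_dir2, ← dir_add, conj_dir_mul,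
        show N.a e 0 + 4 * Real.pi / 3 - (N.a e 0 + Real.pi / 3) = Real.pi by ring, dir_pi]
    rw [this] at hw2 hw3
    simp only [Complex.add_re, Complex.add_im, Complex.re_ofReal_mul, Complex.im_ofReal_mul,
      Complex.neg_re, Complex.neg_im, Complex.one_re, Complex.one_im] at hw2 hw3
    nlinarith

/-- the component on the side `σ` of `e` contains the point at normal distance `t` -/
theorem side_comp (e : N.D) {σ : ℝ} (hσ : |σ| = 1) {F : Set ℂ}
    (hF : ∀ t ∈ N.int e, LC.IsSide N.carrier (N.z e) (N.a e) σ F t)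
    {t : ℝ} (ht : t ∈ N.int e)
    (hoff : ∀ s : ℝ, s ≠ 0 → |s| ≤ t → pt (N.z e) (N.a e) t s ∉ N.carrier) :
    connectedComponentIn N.carrierᶜ (pt (N.z e) (N.a e) t (σ * t)) = F := by
  obtain ⟨δ, hδ, h1⟩ := hF t ht
  have ht0 : 0 < t := ht.1
  have hσ0 : σ ≠ 0 := by intro hh; rw [hh] at hσ; simp at hσ
  set S : Set ℂ := (fun s : ℝ => pt (N.z e) (N.a e) t (σ * s)) '' Ioc 0 t with hS
  have hSsub : S ⊆ N.carrierᶜ := by
    rintro _ ⟨s, hs, rfl⟩
    apply hoff _ (mul_ne_zero hσ0 (ne_of_gt hs.1))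
    rw [abs_mul, hσ, one_mul, abs_of_pos hs.1]; exact hs.2
  have hSc : IsPreconnected S := by
    apply isPreconnected_Ioc.image
    apply Continuous.continuousOn
    unfold pt; fun_prop
  have hm : 0 < min δ t := lt_min hδ ht0
  have hmem : pt (N.z e) (N.a e) t (σ * (min δ t / 2)) ∈ S :=
    ⟨min δ t / 2, ⟨by linarith, by linarith [min_le_right δ t]⟩, rfl⟩
  have hmem2 : pt (N.z e) (N.a e) t (σ * t) ∈ S := ⟨t, ⟨ht0, le_rfl⟩, rfl⟩
  have h2 := (h1 t ⟨by linarith, by linarith⟩ (min δ t / 2)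
    ⟨by linarith, by linarith [min_le_left δ t]⟩).2
  rw [← h2]
  exact connectedComponentIn_eq (hSc.subset_connectedComponentIn hmem2 hSsub hmem)

theorem faceL_eq_faceR_rot (e : N.D) : N.faceL e = N.faceR (N.rot e) := by
  obtain ⟨ρ, hρ, hcone⟩ := N.cone_off e
  obtain ⟨r, hr, hr1, hMr, h1⟩ := N.vertex_off e
  obtain ⟨r', hr', hr1', hMr', h1'⟩ := N.vertex_off (N.rot e)
  set t : ℝ := min (min r r') (ρ / 2) / 2 with ht
  have hm : 0 < min (min r r') (ρ / 2) := lt_min (lt_min hr hr') (by linarith)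
  have ht0 : 0 < t := by rw [ht]; linarith
  have htr : t < r := by
    have : min (min r r') (ρ / 2) ≤ r := le_trans (min_le_left _ _) (min_le_left _ _)
    rw [ht]; linarith
  have htr' : t < r' := by
    have : min (min r r') (ρ / 2) ≤ r' := le_trans (min_le_left _ _) (min_le_right _ _)
    rw [ht]; linarith
  have htρ : t ≤ ρ / 4 := by
    have : min (min r r') (ρ / 2) ≤ ρ / 2 := min_le_right _ _
    rw [ht]; linarith
  obtain ⟨hti, hoff⟩ := h1 t ⟨ht0, htr⟩
  obtain ⟨hti', hoff'⟩ := h1' t ⟨ht0, htr'⟩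
  have c1 := N.side_comp e (σ := 1) (by simp) (N.faceL_spec e) hti hoff
  have c2 := N.side_comp (N.rot e) (σ := -1) (by simp) (N.faceR_spec (N.rot e)) hti' hoff'
  rw [← c1, ← c2]
  have h3 := sqrt3_bounds
  have hsq : Real.sqrt 3 * Real.sqrt 3 = 3 := Real.mul_self_sqrt (by norm_num)
  have hcn : ‖(starRingEnd ℂ) (dir (N.a e 0 + Real.pi / 3))‖ = 1 := by
    rw [Complex.norm_conj, norm_dir]
  have hpos : 0 < ‖N.src e‖ + 1 := by positivity
  have hbound : ∀ d : N.D, N.src d = N.src e → t ∈ N.int d → ∀ s : ℝ, |s| ≤ t →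
      ‖pt (N.z d) (N.a d) t s - N.src e‖ < ρ := by
    intro d hd hti s hs
    have h1 : ‖N.z d t - N.src d‖ ≤ t := by
      have := (N.geo' (N.int_subset_dom d hti)).norm_sub_le (s := 0) (t := t) le_rfl hti.1.le le_rfl
      rwa [sub_zero] at this
    rw [← hd]
    calc ‖pt (N.z d) (N.a d) t s - N.src d‖
        = ‖(pt (N.z d) (N.a d) t s - N.z d t) + (N.z d t - N.src d)‖ := by ring_nf
      _ ≤ |s| + t := by
          refine le_trans (norm_add_le _ _) ?_
          rw [LC.norm_pt_sub]; linarith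
      _ < ρ := by linarith
  have m1 : pt (N.z e) (N.a e) t (1 * t) ∈ N.cone e ρ := by
    obtain ⟨q, hq, hq2⟩ := N.pt_expand (N.int_subset_dom e hti) (by linarith)
      (le_trans (mul_le_mul_of_nonneg_left htr.le hpos.le) hMr) (1 * t)
      (by rw [one_mul, abs_of_pos ht0]) _ hcn
    have : dir (N.a e 0) * (starRingEnd ℂ) (dir (N.a e 0 + Real.pi / 3))
        = ⟨1 / 2, -(Real.sqrt 3 / 2)⟩ := by
      rw [conj_dir_mul, show N.a e 0 - (N.a e 0 + Real.pi / 3) = -(Real.pi / 3) by ring, dir_neg,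
        dir_pi_div_three]
      apply Complex.ext <;> simp
    rw [this] at hq2
    have q1 := abs_le.1 (le_trans (Complex.abs_re_le_norm q) hq)
    have q2 := abs_le.1 (le_trans (Complex.abs_im_le_norm q) hq)
    refine ⟨hbound e rfl hti _ (by rw [one_mul, abs_of_pos ht0]), ?_, ?_⟩
    · rw [hq2]
      simp only [one_mul, Complex.add_re, Complex.add_im, Complex.mul_re, Complex.mul_im,
        Complex.ofReal_re, Complex.ofReal_im, Complex.I_re, Complex.I_im]
      nlinarith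
    · rw [hq2]
      simp only [one_mul, Complex.add_re, Complex.add_im, Complex.mul_re, Complex.mul_im,
        Complex.ofReal_re, Complex.ofReal_im, Complex.I_re, Complex.I_im]
      nlinarith
  have m2 : pt (N.z (N.rot e)) (N.a (N.rot e)) t (-1 * t) ∈ N.cone e ρ := by
    have hpos' : 0 < ‖N.src (N.rot e)‖ + 1 := by positivity
    obtain ⟨q, hq, hq2⟩ := N.pt_expand (N.int_subset_dom _ hti') (by linarith)
      (le_trans (mul_le_mul_of_nonneg_left htr'.le hpos'.le) hMr') (-1 * t)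
      (by rw [neg_one_mul, abs_neg, abs_of_pos ht0]) _ hcn
    have : dir (N.a (N.rot e) 0) * (starRingEnd ℂ) (dir (N.a e 0 + Real.pi / 3))
        = ⟨1 / 2, (Real.sqrt 3 / 2)⟩ := by
      rw [rot_dir1, ← dir_add, conj_dir_mul,
        show N.a e 0 + 2 * Real.pi / 3 - (N.a e 0 + Real.pi / 3) = (Real.pi / 3) by ring,
        dir_pi_div_three]
    rw [this, N.src_rot e] at hq2
    have q1 := abs_le.1 (le_trans (Complex.abs_re_le_norm q) hq)
    have q2 := abs_le.1 (le_trans (Complex.abs_im_le_norm q) hq)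
    refine ⟨hbound _ (N.src_rot e) hti' _ (by rw [neg_one_mul, abs_neg, abs_of_pos ht0]), ?_, ?_⟩
    · rw [hq2]
      simp only [neg_mul, one_mul, Complex.ofReal_neg, Complex.add_re, Complex.add_im, Complex.mul_re,
        Complex.mul_im, Complex.neg_re, Complex.neg_im,
        Complex.ofReal_re, Complex.ofReal_im, Complex.I_re, Complex.I_im]
      nlinarith
    · rw [hq2]
      simp only [neg_mul, one_mul, Complex.ofReal_neg, Complex.add_re, Complex.add_im, Complex.mul_re,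
        Complex.mul_im, Complex.neg_re, Complex.neg_im,
        Complex.ofReal_re, Complex.ofReal_im, Complex.I_re, Complex.I_im]
      nlinarith
  exact connectedComponentIn_eq
    ((N.convex_cone e ρ).isPreconnected.subset_connectedComponentIn m1 hcone m2)

theorem faceL_left {d : N.D} (h : ¬ N.isRay d) : N.faceL (N.left d) = N.faceL d := by
  rw [faceL_eq_faceR_rot, left, N.rot3, N.faceR_rev h]

theorem left_injective_on {d d' : N.D} (h : ¬ N.isRay d) (h' : ¬ N.isRay d')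
    (heq : N.left d = N.left d') : d = d' := by
  unfold left at heq
  have h1 : N.rev d = N.rev d' := by
    have := congrArg N.rot heq
    rwa [N.rot3, N.rot3] at this
  have := congrArg N.rev h1
  rwa [N.rev_rev d h, N.rev_rev d' h'] at this

end Net

end

end Pool.Agent.MP_4c0f47_an
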