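import Pool.Agent.Lib.MP_4c0f47_an.ChainNet
import Pool.Agent.Lib.MP_4c0f47_an.Vertex

set_option autoImplicit false

open Set Filter Topology Complex MeasureTheory

namespace Pool.Agent.MP_4c0f47_an

noncomputable section

theorem norm_mul_dir (r θ : ℝ) : ‖(r : ℂ) * dir θ‖ = |r| := by
  rw [norm_mul, norm_dir, mul_one, Complex.norm_real, Real.norm_eq_abs]

theorem polar_inj {r r' θ θ' : ℝ} (hr : 0 < r) (hr' : 0 < r')
    (h : (r : ℂ) * dir θ = (r' : ℂ) * dir θ') : r = r' ∧ dir θ = dir θ' := by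
  have h1 := congrArg norm h
  rw [norm_mul_dir, norm_mul_dir, abs_of_pos hr, abs_of_pos hr'] at h1
  refine ⟨h1, ?_⟩
  rw [h1] at h
  have : (r' : ℂ) ≠ 0 := by exact_mod_cast hr'.ne'
  exact mul_left_cancel₀ this h

namespace Net

variable {N : Net}

/-- the point of an arc seen at the angle `θ` -/
theorem CCW.graph {d : N.D} (h : N.CCW d) {ϑ : ℝ} (hϑ : N.src d = (‖N.src d‖ : ℂ) * dir ϑ)
    {s r θ : ℝ} (hs : s ∈ Icc 0 (N.L d)) (hr : 0 < r) (he : (r : ℂ) * dir θ = N.z d s)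
    (hc : |θ - (ϑ + N.ang d s)| < 2 * Real.pi) :
    θ = ϑ + N.ang d s ∧ r = ‖N.z d s‖ := by
  have hsd := h.mem_dom.2 hs
  rw [h.polar hsd hϑ] at he
  obtain ⟨h1, h2⟩ := polar_inj hr (h.norm_pos hsd) he
  exact ⟨dir_inj_of_lt h2 hc, h1⟩

theorem dir_mul_conj_re (x y : ℝ) : (dir x * (starRingEnd ℂ) (dir y)).re = Real.cos (x - y) := by
  rw [conj_dir_mul, dir_re]

/-- ordering of the edges at a vertex: `f` points outwards (`c = 1`) or inwards (`c = -1`) -/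
theorem order_vertex {f g : N.D} (hsrc : N.src g = N.src f) (hne : g ≠ f) {ϑ c : ℝ}
    (hc : c = 1 ∨ c = -1) (hcos : 1 / 2 ≤ c * Real.cos (ϑ - N.a f 0)) :
    ∃ ε > 0, ∀ t ∈ N.dom f, t < ε → ∀ t' ∈ N.dom g, t' < ε → ∀ θ, |θ - ϑ| < ε → ∀ h > 0,
      N.z f t + ((c * h : ℝ) : ℂ) * dir θ ≠ N.z g t' := by
  set M := ‖N.src f‖ + 1 with hM
  have hMpos : 0 < M := by positivity
  refine ⟨min (1 / 10) (1 / (10 * M)), by positivity, ?_⟩
  intro t ht htε t' ht' ht'ε θ hθ h hh heq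
  have a1 : t ≤ 1 := by linarith [lt_of_lt_of_le htε (min_le_left _ _)]
  have a2 : (‖N.src f‖ + 1) * t ≤ 1 / 10 := by
    have h1 : t ≤ 1 / (10 * M) := (lt_of_lt_of_le htε (min_le_right _ _)).le
    calc M * t ≤ M * (1 / (10 * M)) := by gcongr
      _ = 1 / 10 := by field_simp
  have a3 : t' ≤ 1 := by linarith [lt_of_lt_of_le ht'ε (min_le_left _ _)]
  have a4 : (‖N.src g‖ + 1) * t' ≤ 1 / 10 := by
    rw [hsrc]
    have h1 : t' ≤ 1 / (10 * M) := (lt_of_lt_of_le ht'ε (min_le_right _ _)).le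
    calc M * t' ≤ M * (1 / (10 * M)) := by gcongr
      _ = 1 / 10 := by field_simp
  have hnc : ‖(starRingEnd ℂ) (dir (N.a f 0))‖ = 1 := by rw [Complex.norm_conj, norm_dir]
  obtain ⟨q, hq, hq2⟩ := N.src_expand ht a1 a2 _ hnc
  obtain ⟨q', hq', hq2'⟩ := N.src_expand ht' a3 a4 _ hnc
  -- cosine between g and f
  have hgf : (dir (N.a g 0) * (starRingEnd ℂ) (dir (N.a f 0))).re = -1 / 2 := by
    have hself : dir (N.a f 0) * (starRingEnd ℂ) (dir (N.a f 0)) = 1 := by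
      rw [conj_dir_mul]; simp [dir_zero]
    rcases N.vertex_cases hsrc with h1 | h1 | h1
    · exact absurd h1 hne
    · rw [h1, N.rot_dir1, mul_right_comm, hself, one_mul, dir_two_pi_div_three]
    · rw [h1, N.rot_dir2, mul_right_comm, hself, one_mul, dir_four_pi_div_three]
  have hff : (dir (N.a f 0) * (starRingEnd ℂ) (dir (N.a f 0))).re = 1 := by
    rw [conj_dir_mul]; simp [dir_zero]
  have e1 := congrArg Complex.re hq2
  have e2 := congrArg Complex.re hq2'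
  rw [Complex.add_re, Complex.re_ofReal_mul, hff] at e1
  rw [Complex.add_re, Complex.re_ofReal_mul, hgf] at e2
  have e3 : ((N.z g t' - N.src g) * (starRingEnd ℂ) (dir (N.a f 0))).re
      = ((N.z f t - N.src f) * (starRingEnd ℂ) (dir (N.a f 0))).re
        + c * h * (dir θ * (starRingEnd ℂ) (dir (N.a f 0))).re := by
    rw [← heq, hsrc, ← Complex.re_ofReal_mul, ← Complex.add_re]
    congr 1; push_cast; ring
  have e4 : c * (dir θ * (starRingEnd ℂ) (dir (N.a f 0))).re ≥ 1 / 2 - 1 / 10 := by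
    have h1 : (dir ϑ * (starRingEnd ℂ) (dir (N.a f 0))).re = Real.cos (ϑ - N.a f 0) :=
      dir_mul_conj_re _ _
    have h2 : |((dir θ - dir ϑ) * (starRingEnd ℂ) (dir (N.a f 0))).re| ≤ 1 / 10 := by
      calc _ ≤ ‖(dir θ - dir ϑ) * (starRingEnd ℂ) (dir (N.a f 0))‖ := Complex.abs_re_le_norm _
        _ = ‖dir θ - dir ϑ‖ := by rw [norm_mul, hnc, mul_one]
        _ ≤ |θ - ϑ| := norm_dir_sub_le _ _
        _ ≤ 1 / 10 := (lt_of_lt_of_le hθ (min_le_left _ _)).le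
    rw [sub_mul, Complex.sub_re, h1] at h2
    have h3 := abs_le.1 h2
    rcases hc with hc | hc <;> rw [hc] at hcos ⊢ <;> linarith [h3.1, h3.2]
  have b1 := Complex.abs_re_le_norm q
  have b2 := Complex.abs_re_le_norm q'
  have b3 := abs_le.1 b1
  have b4 := abs_le.1 b2
  have ht0 : 0 ≤ t := ht.1
  have ht0' : 0 ≤ t' := ht'.1
  have e5 : c * h * (dir θ * (starRingEnd ℂ) (dir (N.a f 0))).re > 0 := by
    have : c * h * (dir θ * (starRingEnd ℂ) (dir (N.a f 0))).re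
      = h * (c * (dir θ * (starRingEnd ℂ) (dir (N.a f 0))).re) := by ring
    rw [this]
    apply mul_pos hh; linarith
  linarith

theorem norm_polar_sub_le (r r0 θ θ0 : ℝ) :
    ‖(r : ℂ) * dir θ - (r0 : ℂ) * dir θ0‖ ≤ |r - r0| + |r0| * |θ - θ0| := by
  have h1 : (r : ℂ) * dir θ - (r0 : ℂ) * dir θ0
      = ((r - r0 : ℝ) : ℂ) * dir θ + (r0 : ℂ) * (dir θ - dir θ0) := by push_cast; ring
  rw [h1]
  refine (norm_add_le _ _).trans ?_
  rw [norm_mul_dir, norm_mul, Complex.norm_real, Real.norm_eq_abs]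
  gcongr
  exact norm_dir_sub_le _ _

theorem cos_ge_half' {x : ℝ} (h : |x| ≤ Real.pi / 3) : 1 / 2 ≤ Real.cos x := by
  rw [← Real.cos_abs, ← Real.cos_pi_div_three]
  apply Real.cos_le_cos_of_nonneg_of_le_pi (abs_nonneg _) _ h
  linarith [Real.pi_pos]

theorem CCW.third {d : N.D} (h : N.CCW d) {σ : Bool} (h' : N.CCW (N.stp σ d)) {ϑ : ℝ}
    (hϑ : N.tgt d = (‖N.tgt d‖ : ℂ) * dir ϑ) :
    1 / 2 ≤ sg σ * Real.cos (ϑ - N.a (N.stp (!σ) d) 0) := by
  have h1 := h.dir_a (N.L_mem_dom d) hϑ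
  have h2 := h'.ps_mem (N.zero_mem_dom _)
  rw [h.ps_stp h'] at h2
  have h3 := h.ps_mem (N.L_mem_dom d)
  have h4 : dir (N.a (N.stp (!σ) d) 0) = dir (ϑ + N.ps d (N.L d) - sg σ * (Real.pi / 3)) := by
    rw [N.dir_stp _ h.arc, dir_add, h1, ← dir_add]
    congr 1
    cases σ <;> simp [sg] <;> ring
  have h5 : Real.cos (ϑ - N.a (N.stp (!σ) d) 0)
      = Real.cos (N.ps d (N.L d) - sg σ * (Real.pi / 3)) := by
    rw [← dir_mul_conj_re, h4, dir_mul_conj_re, ← Real.cos_neg]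
    congr 1; ring
  rw [h5]
  have hp := Real.pi_pos
  cases σ
  · simp only [sg, Bool.false_eq_true, if_false] at h2 ⊢
    have : Real.cos (N.ps d (N.L d) - -1 * (Real.pi / 3))
        = - Real.cos (N.ps d (N.L d) - 2 * Real.pi / 3) := by
      rw [← Real.cos_add_pi]; congr 1; ring
    rw [this]
    have := cos_ge_half' (x := N.ps d (N.L d) - 2 * Real.pi / 3) (by
      rw [abs_le]; constructor <;> linarith [h2.1, h2.2, h3.1, h3.2])
    linarith
  · simp only [sg, if_true] at h2 ⊢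
    have := cos_ge_half' (x := N.ps d (N.L d) - 1 * (Real.pi / 3)) (by
      rw [abs_le]; constructor <;> linarith [h2.1, h2.2, h3.1, h3.2])
    linarith

theorem vertex_three {d : N.D} {σ : Bool} (h : ¬ N.isRay d) {d' : N.D}
    (hd' : N.src d' = N.tgt d) : d' = N.rev d ∨ d' = N.stp σ d ∨ d' = N.stp (!σ) d := by
  rw [← N.src_rev h] at hd'
  rcases N.vertex_cases hd' with h1 | h1 | h1
  · left; exact h1
  · right
    cases σ
    · left; rw [h1]; rfl
    · right; rw [h1]; rfl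
  · right
    cases σ
    · right; rw [h1]; rfl
    · left; rw [h1]; rfl

end Net

namespace CS

variable {N : Net} (c : CS N)

theorem on_edge {i : ℕ} (hi : i < c.n) {s' r θ x : ℝ} (hs : s' ∈ Icc 0 (N.L (c.e i)))
    (hr : 0 < r) (he : (r : ℂ) * dir θ = N.z (c.e i) s') (h1 : |θ - x| < Real.pi)
    (h2 : |c.X i + N.ang (c.e i) s' - x| < Real.pi) :
    θ = c.X i + N.ang (c.e i) s' ∧ θ ∈ Icc (c.X i) (c.X (i + 1)) ∧ c.b θ = r := by
  have hccw := c.e_ccw hi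
  obtain ⟨h3, h4⟩ := hccw.graph (c.src_e hi) hs hr he (by
    have : θ - (c.X i + N.ang (c.e i) s')
      = (θ - x) - (c.X i + N.ang (c.e i) s' - x) := by ring
    rw [this]
    calc _ ≤ |θ - x| + |c.X i + N.ang (c.e i) s' - x| := abs_sub _ _
      _ < Real.pi + Real.pi := add_lt_add h1 h2
      _ = 2 * Real.pi := by ring)
  have h5 := hccw.ang_mem hs
  have h6 : θ ∈ Icc (c.X i) (c.X (i + 1)) := by
    rw [h3, X_succ]; exact ⟨by linarith [h5.1], by linarith [h5.2]⟩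
  refine ⟨h3, h6, ?_⟩
  rw [c.b_eq hi h6.1 h6.2, h4, Net.Rr, h3]
  congr 2
  have : c.X i + N.ang (c.e i) s' - c.X i = N.ang (c.e i) s' := by ring
  rw [this, hccw.Tm_ang hs]

theorem ang_near {i : ℕ} (hi : i < c.n) {τ : ℝ} (hτ : τ ∈ Icc 0 (N.L (c.e i))) {ε : ℝ}
    (hε : 0 < ε) : ∃ δ > 0, ∀ s' ∈ Icc 0 (N.L (c.e i)), |s' - τ| < δ →
      |N.ang (c.e i) s' - N.ang (c.e i) τ| < ε := by
  have h1 := (c.e_ccw hi).continuousOn_ang τ hτ
  rw [Metric.continuousWithinAt_iff] at h1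
  obtain ⟨δ, hδ, h2⟩ := h1 ε hε
  refine ⟨δ, hδ, fun s' hs' hd => ?_⟩
  have := h2 hs' (by rw [Real.dist_eq]; exact hd)
  rwa [Real.dist_eq] at this

theorem Tm_near {i : ℕ} (hi : i < c.n) {φ : ℝ} (hφ : φ ∈ Icc 0 (N.Dl (c.e i))) {ε : ℝ}
    (hε : 0 < ε) : ∃ δ > 0, ∀ φ' ∈ Icc 0 (N.Dl (c.e i)), |φ' - φ| < δ →
      |N.Tm (c.e i) φ' - N.Tm (c.e i) φ| < ε := by
  have h1 := (c.e_ccw hi).continuousOn_Tm φ hφ
  rw [Metric.continuousWithinAt_iff] at h1
  obtain ⟨δ, hδ, h2⟩ := h1 ε hε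
  refine ⟨δ, hδ, fun s' hs' hd => ?_⟩
  have := h2 hs' (by rw [Real.dist_eq]; exact hd)
  rwa [Real.dist_eq] at this

theorem near_reg {i : ℕ} (hi : i < c.n) {x : ℝ} (h1 : c.X i < x) (h2 : x < c.X (i + 1)) :
    ∃ ε > 0, ∀ r θ : ℝ, 0 < r → |r - c.b x| < ε → |θ - x| < ε → (r : ℂ) * dir θ ∈ N.carrier →
      c.b θ = r := by
  have hccw := c.e_ccw hi
  have hx0 := c.sub_mem' h1 h2
  set τ := N.Tm (c.e i) (x - c.X i) with hτdef
  have hτ : τ ∈ Ioo 0 (N.L (c.e i)) := hccw.Tm_mem hx0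
  have hang : N.ang (c.e i) τ = x - c.X i := (hccw.Tm_spec (Ioo_subset_Icc_self hx0)).2
  obtain ⟨δ, hδ, h3⟩ := c.ang_near hi (Ioo_subset_Icc_self hτ) Real.pi_pos
  obtain ⟨ρ, hρ, h4⟩ := N.exists_ball_regular (c.e i) (hccw.mem_int.2 hτ) hδ
  set M := |c.b x| + 1 with hM
  have hMpos : 0 < M := by positivity
  refine ⟨min (Real.pi) (ρ / (2 * M)), by positivity, ?_⟩
  intro r θ hr hr1 hθ1 hc
  obtain ⟨d', s', hs', he⟩ := mem_iUnion.1 hc
  have h5 : ‖N.z d' s' - N.z (c.e i) τ‖ < ρ := by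
    rw [he, ← c.b_dir hi h1.le h2.le]
    refine lt_of_le_of_lt (Net.norm_polar_sub_le _ _ _ _) ?_
    have e1 : |r - c.b x| < ρ / (2 * M) := lt_of_lt_of_le hr1 (min_le_right _ _)
    have e2 : |θ - x| < ρ / (2 * M) := lt_of_lt_of_le hθ1 (min_le_right _ _)
    have e3 : |c.b x| * |θ - x| ≤ |c.b x| * (ρ / (2 * M)) := by gcongr
    have e4 : ρ / (2 * M) + |c.b x| * (ρ / (2 * M)) = ρ / 2 := by
      rw [hM]; field_simp; ring
    linarith
  have key : ∀ s'' ∈ Icc 0 (N.L (c.e i)), |s'' - τ| < δ → (r : ℂ) * dir θ = N.z (c.e i) s'' →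
      c.b θ = r := by
    intro s'' hs'' hd hee
    refine (c.on_edge hi hs'' hr hee (lt_of_lt_of_le hθ1 (min_le_left _ _)) ?_).2.2
    have := h3 s'' hs'' hd
    rw [hang] at this
    have e : c.X i + N.ang (c.e i) s'' - x = N.ang (c.e i) s'' - (x - c.X i) := by ring
    rw [e]; exact this
  rcases h4 d' s' hs' h5 with ⟨h6, h7⟩ | ⟨h6, h7, h8⟩
  · subst h6
    exact key s' (hccw.mem_dom.1 hs') h7 he.symm
  · have hs2 : s' ∈ Icc 0 (N.L (c.e i)) := by
      rw [h7, N.dom_eq_arc (N.rev_ray _ h6), N.L_rev _ h6] at hs'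
      exact hs'
    refine key (N.L (c.e i) - s') ⟨by linarith [hs2.2], by linarith [hs2.1]⟩ h8 ?_
    rw [← he, h7, N.z_rev _ h6 _ hs2]

/-- near a corner of the chain -/
theorem near_corner {i : ℕ} (hi : i + 1 < c.n) :
    ∃ ε > 0, ∀ r θ : ℝ, 0 < r → |r - c.b (c.X (i + 1))| < ε → |θ - c.X (i + 1)| < ε →
      (r : ℂ) * dir θ ∈ N.carrier → sg c.σ * c.b θ ≤ sg c.σ * r := by
  have hi0 : i < c.n := by omega
  have hA := c.e_ccw hi0
  have hB := c.e_ccw hi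
  have hB' : N.CCW (N.stp c.σ (c.e i)) := by rw [← e_succ]; exact hB
  set x := c.X (i + 1) with hx
  have hXi : c.X i < x := c.X_lt_succ hi0
  have hXi2 : x < c.X (i + 2) := c.X_lt_succ hi
  have htgt : N.tgt (c.e i) = (‖N.tgt (c.e i)‖ : ℂ) * dir x := c.tgt_e hi0
  -- the third edge
  set f := N.stp (!c.σ) (c.e i) with hf
  have hthird := hA.third hB' htgt
  have hfsrc : N.src f = N.tgt (c.e i) := N.src_stp _ hA.arc
  have hgsrc1 : N.src (c.e (i + 1)) = N.tgt (c.e i) := c.src_succ hi0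
  have hgsrc2 : N.src (N.rev (c.e i)) = N.tgt (c.e i) := N.src_rev hA.arc
  have hcos : N.a f 0 = N.a (N.stp (!c.σ) (c.e i)) 0 := rfl
  -- `f` is different from the two chain edges
  have hcosA : Real.cos (x - N.a f 0) = (dir x * (starRingEnd ℂ) (dir (N.a f 0))).re :=
    (Net.dir_mul_conj_re _ _).symm
  have hne1 : c.e (i + 1) ≠ f := by
    rw [hf, e_succ]
    intro h0
    have e1 := N.dir_stp c.σ hA.arc
    have e2 := N.dir_stp (!c.σ) hA.arc
    rw [h0, e2] at e1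
    have hp := Real.pi_pos
    have h3 := dir_inj_of_lt e1 (by
      cases c.σ <;> simp only [sg, Bool.not_true, Bool.not_false, Bool.false_eq_true, if_true,
        if_false] <;> rw [abs_lt] <;> constructor <;> linarith)
    revert h3
    cases c.σ <;> simp only [sg, Bool.not_true, Bool.not_false, Bool.false_eq_true, if_true,
        if_false] <;> intro h3 <;> linarith
  have hne2 : N.rev (c.e i) ≠ f := by
    intro h0
    have e1 := N.dir_rev0 hA.arc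
    have e2 := N.dir_stp (!c.σ) hA.arc
    rw [h0, e2] at e1
    have hp := Real.pi_pos
    have h3 := dir_inj_of_lt e1 (by
      cases c.σ <;> simp only [sg, Bool.not_true, Bool.not_false, Bool.false_eq_true, if_true,
        if_false] <;> rw [abs_lt] <;> constructor <;> linarith)
    revert h3
    cases c.σ <;> simp only [sg, Bool.not_true, Bool.not_false, Bool.false_eq_true, if_true,
        if_false] <;> intro h3 <;> linarith
  obtain ⟨ε1, hε1, ho1⟩ := N.order_vertex (f := f) (g := c.e (i + 1)) (by rw [hfsrc, hgsrc1])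
    hne1 (ϑ := x) (sg_cases c.σ) hthird
  obtain ⟨ε2, hε2, ho2⟩ := N.order_vertex (f := f) (g := N.rev (c.e i)) (by rw [hfsrc, hgsrc2])
    hne2 (ϑ := x) (sg_cases c.σ) hthird
  -- times near the vertex
  obtain ⟨δ1, hδ1, hT1⟩ := c.Tm_near hi (φ := 0) ⟨le_rfl, hB.Dl_pos.le⟩ hε1
  obtain ⟨δ2, hδ2, hT2⟩ := c.Tm_near hi0 (φ := N.Dl (c.e i)) ⟨hA.Dl_pos.le, le_rfl⟩ hε2
  obtain ⟨δ3, hδ3, hA3⟩ := c.ang_near hi (τ := 0) ⟨le_rfl, (N.L_pos _).le⟩ Real.pi_pos
  obtain ⟨δ4, hδ4, hA4⟩ := c.ang_near hi0 (τ := N.L (c.e i)) ⟨(N.L_pos _).le, le_rfl⟩ Real.pi_pos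
  obtain ⟨ρ, hρ, hv⟩ := N.exists_ball_vertex (v := N.tgt (c.e i)) (N.tgt_mem_verts hA.arc)
    (ε := min (min ε1 ε2) (min δ3 δ4)) (by positivity)
  have hbx : (c.b x : ℂ) * dir x = N.tgt (c.e i) := by
    rw [c.b_dir hi0 hXi.le le_rfl]
    have : x - c.X i = N.Dl (c.e i) := by rw [hx, X_succ]; ring
    rw [this, hA.Tm_Dl]; rfl
  set M := |c.b x| + 1 with hM
  have hMpos : 0 < M := by positivity
  refine ⟨min (min (min Real.pi (ρ / (2 * M))) (min δ1 δ2)) (min (min (x - c.X i)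
    (c.X (i + 2) - x)) (min ε1 ε2)), ?_, ?_⟩
  · have : 0 < x - c.X i := by linarith
    have : 0 < c.X (i + 2) - x := by linarith
    positivity
  intro r θ hr hr1 hθ1 hc
  simp only [lt_min_iff] at hr1 hθ1
  obtain ⟨⟨⟨r1, r2⟩, r3, r4⟩, ⟨r5, r6⟩, r7, r8⟩ := hr1
  obtain ⟨⟨⟨t1, t2⟩, t3, t4⟩, ⟨t5, t6⟩, t7, t8⟩ := hθ1
  have h5 : ‖(r : ℂ) * dir θ - N.tgt (c.e i)‖ < ρ := by
    rw [← hbx]
    refine lt_of_le_of_lt (Net.norm_polar_sub_le _ _ _ _) ?_
    have e3 : |c.b x| * |θ - x| ≤ |c.b x| * (ρ / (2 * M)) := by gcongr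
    have e4 : ρ / (2 * M) + |c.b x| * (ρ / (2 * M)) = ρ / 2 := by
      rw [hM]; field_simp; ring
    linarith
  obtain ⟨d, hdsrc, τ, hτd, hτε, he⟩ := hv _ hc h5
  simp only [lt_min_iff] at hτε
  obtain ⟨⟨q1, q2⟩, q3, q4⟩ := hτε
  rcases N.vertex_three (σ := c.σ) hA.arc hdsrc with h6 | h6 | h6
  · -- on the previous edge
    subst h6
    have hs2 : τ ∈ Icc 0 (N.L (c.e i)) := by
      rw [N.dom_eq_arc (N.rev_ray _ hA.arc), N.L_rev _ hA.arc] at hτd
      exact hτd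
    rw [N.z_rev _ hA.arc _ hs2] at he
    have h7 := c.on_edge hi0 (s' := N.L (c.e i) - τ) (x := x)
      ⟨by linarith [hs2.2], by linarith [hs2.1]⟩ hr he.symm t1 (by
      have e1 := hA4 (N.L (c.e i) - τ) ⟨by linarith [hs2.2], by linarith [hs2.1]⟩ (by
        rw [sub_sub_cancel_left, abs_neg, abs_of_nonneg hs2.1]; exact q4)
      have e2 : c.X i + N.ang (c.e i) (N.L (c.e i) - τ) - x
        = N.ang (c.e i) (N.L (c.e i) - τ) - N.ang (c.e i) (N.L (c.e i)) := by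
        rw [hx, X_succ, Net.Dl]; ring
      rw [e2]; exact e1)
    rw [h7.2.2]
  · -- on the next edge
    rw [← e_succ] at h6
    subst h6
    have hs2 : τ ∈ Icc 0 (N.L (c.e (i + 1))) := hB.mem_dom.1 hτd
    have h7 := c.on_edge hi (s' := τ) (x := x) hs2 hr he.symm t1 (by
      have e1 := hA3 τ hs2 (by rw [sub_zero, abs_of_nonneg hs2.1]; exact q3)
      have e2 : c.X (i + 1) + N.ang (c.e (i + 1)) τ - x
        = N.ang (c.e (i + 1)) τ - N.ang (c.e (i + 1)) 0 := by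
        rw [N.ang_zero]; ring
      rw [e2]; exact e1)
    rw [h7.2.2]
  · -- on the third edge
    rw [← hf] at h6
    subst h6
    by_contra hcon
    push Not at hcon
    -- the point of the chain at the angle θ
    set h := sg c.σ * (c.b θ - r) with hh
    have hhpos : 0 < h := by rw [hh]; linarith
    have hsq : sg c.σ * sg c.σ = 1 := by rcases sg_cases c.σ with h8 | h8 <;> rw [h8] <;> norm_num
    have e0 : N.z f τ + ((sg c.σ * h : ℝ) : ℂ) * dir θ = (c.b θ : ℂ) * dir θ := by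
      rw [he]
      have : sg c.σ * h = c.b θ - r := by rw [hh, ← mul_assoc, hsq, one_mul]
      rw [this]; push_cast; ring
    rcases le_total x θ with h9 | h9
    · have h10 : θ ≤ c.X (i + 2) := by
        have := (abs_lt.1 t6).2; linarith
      have e1 := c.b_dir hi h9 h10
      have e2 := hT1 (θ - x) (c.sub_mem h9 h10) (by rw [sub_zero]; exact t3)
      rw [hB.Tm_zero, sub_zero] at e2
      have e3 := ((hB).Tm_spec (c.sub_mem h9 h10)).1
      refine ho1 τ hτd q1 _ (hB.mem_dom.2 e3) ?_ θ t7 h hhpos (by rw [e0, e1])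
      exact lt_of_le_of_lt (le_abs_self _) e2
    · have h10 : c.X i ≤ θ := by
        have := (abs_lt.1 t5).1; linarith
      have e1 := c.b_dir hi0 h10 h9
      have e2 := hT2 (θ - c.X i) (c.sub_mem h10 h9) (by
        have : θ - c.X i - N.Dl (c.e i) = θ - x := by rw [hx, X_succ]; ring
        rw [this]; exact t4)
      rw [hA.Tm_Dl] at e2
      have e3 := (hA.Tm_spec (c.sub_mem h10 h9)).1
      set T := N.Tm (c.e i) (θ - c.X i) with hT
      have e4 : N.z (N.rev (c.e i)) (N.L (c.e i) - T) = N.z (c.e i) T := by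
        rw [N.z_rev _ hA.arc _ ⟨by linarith [e3.2], by linarith [e3.1]⟩]
        congr 1; ring
      refine ho2 τ hτd q2 (N.L (c.e i) - T) ?_ ?_ θ t8 h hhpos (by rw [e0, e1, e4])
      · rw [N.dom_eq_arc (N.rev_ray _ hA.arc), N.L_rev _ hA.arc]
        exact ⟨by linarith [e3.2], by linarith [e3.1]⟩
      · have := (abs_lt.1 e2).1
        linarith

theorem near_chain {x : ℝ} (hx : x ∈ Ioo c.s c.t) :
    ∃ ε > 0, ∀ r θ : ℝ, 0 < r → |r - c.b x| < ε → |θ - x| < ε → (r : ℂ) * dir θ ∈ N.carrier →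
      sg c.σ * c.b θ ≤ sg c.σ * r := by
  by_cases hxC : x ∈ c.C
  · obtain ⟨i, h1, h2, rfl⟩ := c.mem_C.1 hxC
    obtain ⟨j, rfl⟩ : ∃ j, i = j + 1 := ⟨i - 1, by omega⟩
    exact c.near_corner h2
  · obtain ⟨i, hi, h3, h4⟩ := c.exists_piece' hx hxC
    obtain ⟨ε, hε, h5⟩ := c.near_reg hi h3 h4
    exact ⟨ε, hε, fun r θ h6 h7 h8 h9 => by rw [h5 r θ h6 h7 h8 h9]⟩

end CS

end

end Pool.Agent.MP_4c0f47_an
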