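import Pool.Agent.Lib.MP_4c0f47_an.Geo

set_option autoImplicit false

open Set Filter Topology Complex

namespace Pool.Agent.MP_4c0f47_an

noncomputable section

/-- Combinatorial/analytic structure of a regular shrinker with at least one triple junction:
finitely many directed edges (arcs in both directions, rays outgoing). -/
structure Net where
  D : Type
  fin : Fintype D
  L : D → ℝ
  isRay : D → Prop
  z : D → ℝ → ℂ
  a : D → ℝ → ℝ
  rev : D → D
  rot : D → D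
  L_pos : ∀ d, 0 < L d
  geo : ∀ d t, 0 ≤ t → (isRay d ∨ t ≤ L d) → Geo (z d) (a d) 0 t
  rev_ray : ∀ d, ¬ isRay d → ¬ isRay (rev d)
  rev_rev : ∀ d, ¬ isRay d → rev (rev d) = d
  L_rev : ∀ d, ¬ isRay d → L (rev d) = L d
  z_rev : ∀ d, ¬ isRay d → ∀ t ∈ Icc 0 (L d), z (rev d) t = z d (L d - t)
  a_rev : ∀ d, ¬ isRay d → ∀ t ∈ Icc 0 (L d), dir (a (rev d) t) = - dir (a d (L d - t))
  rot3 : ∀ d, rot (rot (rot d)) = d
  z_rot : ∀ d, z (rot d) 0 = z d 0
  a_rot : ∀ d, dir (a (rot d) 0) = dir (a d 0 + 2 * Real.pi / 3)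
  vertex : ∀ d d', z d 0 = z d' 0 → d' = d ∨ d' = rot d ∨ d' = rot (rot d)
  inj : ∀ d d' s s', 0 < s → (isRay d ∨ s < L d) → 0 ≤ s' → (isRay d' ∨ s' ≤ L d') →
    z d s = z d' s' → (d' = d ∧ s' = s) ∨ (¬ isRay d ∧ d' = rev d ∧ s' = L d - s)
  ray_inf : ∀ d, isRay d → Tendsto (fun t => ‖z d t‖) atTop atTop

namespace Net

variable (N : Net)

instance : Fintype N.D := N.fin

/-- parameter domain of a directed edge -/
def dom (d : N.D) : Set ℝ := {t | 0 ≤ t ∧ (N.isRay d ∨ t ≤ N.L d)}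

/-- interior of the parameter domain -/
def int (d : N.D) : Set ℝ := {t | 0 < t ∧ (N.isRay d ∨ t < N.L d)}

def src (d : N.D) : ℂ := N.z d 0
def tgt (d : N.D) : ℂ := N.z d (N.L d)

def carrier : Set ℂ := ⋃ d : N.D, N.z d '' N.dom d

variable {N}

theorem int_subset_dom (d : N.D) : N.int d ⊆ N.dom d := by
  rintro t ⟨h0, h1⟩
  exact ⟨h0.le, h1.imp id le_of_lt⟩

theorem zero_mem_dom (d : N.D) : (0 : ℝ) ∈ N.dom d := ⟨le_rfl, Or.inr (N.L_pos d).le⟩

theorem L_mem_dom (d : N.D) : N.L d ∈ N.dom d := ⟨(N.L_pos d).le, Or.inr le_rfl⟩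

theorem dom_of_le {d : N.D} {s t : ℝ} (h : t ∈ N.dom d) (hs : 0 ≤ s) (hst : s ≤ t) :
    s ∈ N.dom d := ⟨hs, h.2.imp id (fun h => hst.trans h)⟩

theorem geo' {d : N.D} {t : ℝ} (h : t ∈ N.dom d) : Geo (N.z d) (N.a d) 0 t := N.geo d t h.1 h.2

theorem mem_int_iff {d : N.D} {t : ℝ} : t ∈ N.int d ↔ 0 < t ∧ (N.isRay d ∨ t < N.L d) := Iff.rfl

theorem exists_gt_of_int {d : N.D} {t : ℝ} (h : t ∈ N.int d) : ∃ u ∈ N.dom d, t < u := by
  rcases h.2 with h2 | h2
  · exact ⟨t + 1, ⟨by linarith [h.1], Or.inl h2⟩, by linarith⟩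
  · exact ⟨N.L d, N.L_mem_dom d, h2⟩

theorem hasDerivAt_z {d : N.D} {t : ℝ} (h : t ∈ N.int d) :
    HasDerivAt (N.z d) (dir (N.a d t)) t := by
  obtain ⟨u, hu, htu⟩ := N.exists_gt_of_int h
  exact (N.geo' hu).dz t ⟨h.1, htu⟩

theorem hasDerivAt_a {d : N.D} {t : ℝ} (h : t ∈ N.int d) :
    HasDerivAt (N.a d) (cross (N.z d t) (dir (N.a d t))) t := by
  obtain ⟨u, hu, htu⟩ := N.exists_gt_of_int h
  exact (N.geo' hu).da t ⟨h.1, htu⟩

theorem src_rot (d : N.D) : N.src (N.rot d) = N.src d := N.z_rot d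

theorem src_rev {d : N.D} (h : ¬ N.isRay d) : N.src (N.rev d) = N.tgt d := by
  have := N.z_rev d h 0 ⟨le_rfl, (N.L_pos d).le⟩
  simpa [src, tgt] using this

theorem tgt_rev {d : N.D} (h : ¬ N.isRay d) : N.tgt (N.rev d) = N.src d := by
  have := N.z_rev d h (N.L d) ⟨(N.L_pos d).le, le_rfl⟩
  simp only [tgt, src, N.L_rev d h]
  simpa using this

/-- turn left by 60 degrees at the end of an arc -/
def left (d : N.D) : N.D := N.rot (N.rot (N.rev d))
/-- turn right by 60 degrees at the end of an arc -/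
def right (d : N.D) : N.D := N.rot (N.rev d)

theorem src_left {d : N.D} (h : ¬ N.isRay d) : N.src (N.left d) = N.tgt d := by
  rw [left, src_rot, src_rot, src_rev h]

theorem src_right {d : N.D} (h : ¬ N.isRay d) : N.src (N.right d) = N.tgt d := by
  rw [right, src_rot, src_rev h]

theorem dir_rev0 {d : N.D} (h : ¬ N.isRay d) :
    dir (N.a (N.rev d) 0) = dir (N.a d (N.L d) + Real.pi) := by
  have := N.a_rev d h 0 ⟨le_rfl, (N.L_pos d).le⟩
  rw [this, dir_add_pi]; simp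

theorem dir_rot (d : N.D) (b : ℝ) (h : dir (N.a d 0) = dir b) :
    dir (N.a (N.rot d) 0) = dir (b + 2 * Real.pi / 3) := by
  rw [N.a_rot, dir_add, h, ← dir_add]

theorem dir_right {d : N.D} (h : ¬ N.isRay d) :
    dir (N.a (N.right d) 0) = dir (N.a d (N.L d) - Real.pi / 3) := by
  have := N.dir_rot (N.rev d) _ (N.dir_rev0 h)
  rw [right, this, dir_eq_iff]
  exact ⟨1, by push_cast; ring⟩

theorem dir_left {d : N.D} (h : ¬ N.isRay d) :
    dir (N.a (N.left d) 0) = dir (N.a d (N.L d) + Real.pi / 3) := by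
  have := N.dir_rot (N.rev d) _ (N.dir_rev0 h)
  have := N.dir_rot (N.rot (N.rev d)) _ this
  rw [left, this, dir_eq_iff]
  exact ⟨1, by push_cast; ring⟩

/-- angle relation modulo `π/3` -/
def Cong (x y : ℝ) : Prop := ∃ k : ℤ, x = y + k * (Real.pi / 3)

theorem Cong.refl (x : ℝ) : Cong x x := ⟨0, by simp⟩
theorem Cong.symm {x y : ℝ} (h : Cong x y) : Cong y x := by
  obtain ⟨k, hk⟩ := h; exact ⟨-k, by push_cast; linarith⟩
theorem Cong.trans {x y w : ℝ} (h : Cong x y) (h' : Cong y w) : Cong x w := by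
  obtain ⟨k, hk⟩ := h; obtain ⟨l, hl⟩ := h'
  exact ⟨k + l, by push_cast; rw [hk, hl]; ring⟩
theorem Cong.add {x y x' y' : ℝ} (h : Cong x y) (h' : Cong x' y') : Cong (x + x') (y + y') := by
  obtain ⟨k, hk⟩ := h; obtain ⟨l, hl⟩ := h'
  exact ⟨k + l, by push_cast; rw [hk, hl]; ring⟩
theorem Cong.of_dir {x y : ℝ} (h : dir x = dir y) : Cong x y := by
  obtain ⟨n, hn⟩ := dir_eq_iff.1 h
  exact ⟨6 * n, by push_cast; rw [hn]; ring⟩

theorem cong_of_src {d d' : N.D} (h : N.src d = N.src d') : Cong (N.a d' 0) (N.a d 0) := by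
  have h1 : ∀ e : N.D, Cong (N.a (N.rot e) 0) (N.a e 0) := by
    intro e
    have := Cong.of_dir (N.a_rot e)
    refine this.trans ⟨2, by push_cast; ring⟩
  rcases N.vertex d d' h with rfl | rfl | rfl
  · exact Cong.refl _
  · exact h1 d
  · exact (h1 _).trans (h1 _)

theorem cong_rev {d : N.D} (h : ¬ N.isRay d) : Cong (N.a (N.rev d) 0) (N.a d (N.L d)) :=
  (Cong.of_dir (N.dir_rev0 h)).trans ⟨3, by push_cast; ring⟩

/-- total turning along a directed edge -/
def turn (d : N.D) : ℝ := N.a d (N.L d) - N.a d 0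

/-- walks: lists of directed arcs -/
def Walk : ℂ → List N.D → ℂ → Prop
  | u, [], w => u = w
  | u, d :: l, w => ¬ N.isRay d ∧ N.src d = u ∧ Walk (N.tgt d) l w

theorem walk_append {u v w : ℂ} {l l' : List N.D} (h : Walk u l v) (h' : Walk v l' w) :
    Walk u (l ++ l') w := by
  induction l generalizing u with
  | nil => simp only [Walk] at h; subst h; exact h'
  | cons d l ih => exact ⟨h.1, h.2.1, ih h.2.2⟩

theorem walk_single {d : N.D} (h : ¬ N.isRay d) : Walk (N.src d) [d] (N.tgt d) :=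
  ⟨h, rfl, rfl⟩

theorem walk_concat {u v : ℂ} {l : List N.D} {d : N.D} (h : Walk u l v) (hd : ¬ N.isRay d)
    (hs : N.src d = v) : Walk u (l ++ [d]) (N.tgt d) :=
  walk_append h ⟨hd, hs, rfl⟩

theorem walk_arcs {u w : ℂ} {l : List N.D} (h : Walk u l w) : ∀ d ∈ l, ¬ N.isRay d := by
  induction l generalizing u with
  | nil => simp
  | cons d l ih =>
    intro e he
    rcases List.mem_cons.1 he with rfl | he
    · exact h.1
    · exact ih h.2.2 e he

theorem walk_reverse {u w : ℂ} {l : List N.D} (h : Walk u l w) :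
    Walk w (l.reverse.map N.rev) u := by
  induction l generalizing u with
  | nil => simp only [Walk] at h; subst h; simp [Walk]
  | cons d l ih =>
    simp only [List.reverse_cons, List.map_append, List.map_cons, List.map_nil]
    refine walk_append (ih h.2.2) ⟨N.rev_ray d h.1, N.src_rev h.1, ?_⟩
    simp only [Walk]
    rw [N.tgt_rev h.1, h.2.1]

/-- holonomy of a walk modulo `π/3` -/
theorem walk_turn {u w : ℂ} {l : List N.D} (h : Walk u l w) (d0 d1 : N.D) (h0 : N.src d0 = u)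
    (h1 : N.src d1 = w) : Cong (l.map N.turn).sum (N.a d1 0 - N.a d0 0) := by
  induction l generalizing u d0 with
  | nil =>
    simp only [Walk] at h
    subst h
    have := cong_of_src (h0.trans h1.symm)
    simp only [List.map_nil, List.sum_nil]
    obtain ⟨k, hk⟩ := this
    exact ⟨-k, by push_cast; rw [hk]; ring⟩
  | cons d l ih =>
    simp only [List.map_cons, List.sum_cons]
    have e1 := ih h.2.2 (N.rev d) (N.src_rev h.1)
    have e2 : Cong (N.a d 0) (N.a d0 0) := cong_of_src (h0.trans h.2.1.symm)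
    have e3 := N.cong_rev h.1
    obtain ⟨k1, hk1⟩ := e1
    obtain ⟨k2, hk2⟩ := e2
    obtain ⟨k3, hk3⟩ := e3
    refine ⟨k1 - k3 - k2, ?_⟩
    rw [hk1]
    unfold turn
    push_cast
    linarith

/-- closed walks have total turning in `(π/3) ℤ` -/
theorem closed_walk_turn {u : ℂ} {l : List N.D} (h : Walk u l u) :
    ∃ k : ℤ, (l.map N.turn).sum = k * (Real.pi / 3) := by
  cases l with
  | nil => exact ⟨0, by simp⟩
  | cons d l =>
    have := walk_turn h d d h.2.1 h.2.1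
    obtain ⟨k, hk⟩ := this
    exact ⟨k, by rw [hk]; ring⟩

/-! ## Isolation of regular points -/

theorem isClosed_dom (d : N.D) : IsClosed (N.dom d) := by
  by_cases h : N.isRay d
  · have : N.dom d = Ici 0 := by ext t; simp [dom, h]
    rw [this]; exact isClosed_Ici
  · have : N.dom d = Icc 0 (N.L d) := by ext t; simp [dom, h]
    rw [this]; exact isClosed_Icc

theorem dom_eq_ray {d : N.D} (h : N.isRay d) : N.dom d = Ici 0 := by ext t; simp [dom, h]
theorem dom_eq_arc {d : N.D} (h : ¬ N.isRay d) : N.dom d = Icc 0 (N.L d) := by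
  ext t; simp [dom, h]
theorem int_eq_ray {d : N.D} (h : N.isRay d) : N.int d = Ioi 0 := by ext t; simp [int, h]
theorem int_eq_arc {d : N.D} (h : ¬ N.isRay d) : N.int d = Ioo 0 (N.L d) := by
  ext t; simp [int, h]

theorem continuousOn_z (d : N.D) : ContinuousOn (N.z d) (N.dom d) := by
  intro t ht
  by_cases h : N.isRay d
  · rw [dom_eq_ray h] at ht ⊢
    have h1 := (N.geo d (t + 1) (by linarith [mem_Ici.1 ht]) (Or.inl h)).cz
    have h2 := h1 t ⟨ht, by linarith⟩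
    apply h2.mono_of_mem_nhdsWithin
    rw [mem_nhdsWithin]
    exact ⟨Iio (t + 1), isOpen_Iio, by simp, fun x hx => ⟨hx.2, le_of_lt hx.1⟩⟩
  · rw [dom_eq_arc h] at ht ⊢
    exact (N.geo d (N.L d) (N.L_pos d).le (Or.inr le_rfl)).cz t ht

theorem continuousOn_a (d : N.D) : ContinuousOn (N.a d) (N.dom d) := by
  intro t ht
  by_cases h : N.isRay d
  · rw [dom_eq_ray h] at ht ⊢
    have h1 := (N.geo d (t + 1) (by linarith [mem_Ici.1 ht]) (Or.inl h)).ca
    have h2 := h1 t ⟨ht, by linarith⟩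
    apply h2.mono_of_mem_nhdsWithin
    rw [mem_nhdsWithin]
    exact ⟨Iio (t + 1), isOpen_Iio, by simp, fun x hx => ⟨hx.2, le_of_lt hx.1⟩⟩
  · rw [dom_eq_arc h] at ht ⊢
    exact (N.geo d (N.L d) (N.L_pos d).le (Or.inr le_rfl)).ca t ht

theorem isOpen_int (d : N.D) : IsOpen (N.int d) := by
  by_cases h : N.isRay d
  · rw [int_eq_ray h]; exact isOpen_Ioi
  · rw [int_eq_arc h]; exact isOpen_Ioo

theorem isPreconnected_int (d : N.D) : IsPreconnected (N.int d) := by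
  by_cases h : N.isRay d
  · rw [int_eq_ray h]; exact isPreconnected_Ioi
  · rw [int_eq_arc h]; exact isPreconnected_Ioo

/-- key compactness statement: a closed set of parameters whose image misses `p` stays at positive
distance from `p` -/
theorem exists_dist_pos (d : N.D) (p : ℂ) (K : Set ℝ) (hK : IsClosed K) (hKd : K ⊆ N.dom d)
    (hp : ∀ s ∈ K, N.z d s ≠ p) : ∃ ρ > 0, ∀ s ∈ K, ρ ≤ ‖N.z d s - p‖ := by
  -- reduce to a compact set
  obtain ⟨M, hM⟩ : ∃ M : ℝ, ∀ s ∈ K, M < s → 1 ≤ ‖N.z d s - p‖ := by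
    by_cases h : N.isRay d
    · have := N.ray_inf d h
      have h1 := (tendsto_atTop.1 this (‖p‖ + 1))
      obtain ⟨M, hM⟩ := (eventually_atTop.1 h1)
      refine ⟨M, fun s _ hs => ?_⟩
      have h2 := hM s hs.le
      have h3 : ‖N.z d s‖ ≤ ‖N.z d s - p‖ + ‖p‖ := by
        calc ‖N.z d s‖ = ‖(N.z d s - p) + p‖ := by ring_nf
          _ ≤ _ := norm_add_le _ _
      linarith
    · refine ⟨N.L d, fun s hs hlt => ?_⟩
      have := hKd hs
      rw [dom_eq_arc h] at this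
      exact absurd this.2 (not_le.2 hlt)
  have hcomp : IsCompact (K ∩ Iic M) := by
    have h1 : K ∩ Iic M ⊆ Icc 0 M := fun s hs => ⟨(hKd hs.1).1, hs.2⟩
    exact (isCompact_Icc).of_isClosed_subset (hK.inter isClosed_Iic) h1
  have hcont : ContinuousOn (fun s => ‖N.z d s - p‖) (K ∩ Iic M) :=
    ((N.continuousOn_z d).mono (fun s hs => hKd hs.1)).sub continuousOn_const |>.norm
  by_cases hne : (K ∩ Iic M).Nonempty
  · obtain ⟨s0, hs0, hmin⟩ := hcomp.exists_isMinOn hne hcont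
    have hpos : 0 < ‖N.z d s0 - p‖ := norm_pos_iff.2 (sub_ne_zero.2 (hp s0 hs0.1))
    refine ⟨min 1 ‖N.z d s0 - p‖, lt_min one_pos hpos, fun s hs => ?_⟩
    by_cases hsM : s ≤ M
    · exact le_trans (min_le_right _ _) (hmin ⟨hs, hsM⟩)
    · exact le_trans (min_le_left _ _) (hM s hs (not_le.1 hsM))
  · refine ⟨1, one_pos, fun s hs => ?_⟩
    by_cases hsM : s ≤ M
    · exact absurd ⟨s, hs, hsM⟩ hne
    · exact hM s hs (not_le.1 hsM)

theorem exists_ball_regular (d : N.D) {t0 : ℝ} (ht0 : t0 ∈ N.int d) {ε : ℝ} (hε : 0 < ε) :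
    ∃ ρ > 0, ∀ d' : N.D, ∀ s ∈ N.dom d', ‖N.z d' s - N.z d t0‖ < ρ →
      (d' = d ∧ |s - t0| < ε) ∨ (¬ N.isRay d ∧ d' = N.rev d ∧ |N.L d - s - t0| < ε) := by
  have key : ∀ d' : N.D, ∃ ρ > 0, ∀ s ∈ N.dom d', ‖N.z d' s - N.z d t0‖ < ρ →
      (d' = d ∧ |s - t0| < ε) ∨ (¬ N.isRay d ∧ d' = N.rev d ∧ |N.L d - s - t0| < ε) := by
    intro d'
    obtain ⟨K1, hK1c, hK1⟩ : ∃ K1 : Set ℝ, IsClosed K1 ∧
        ∀ s, s ∈ K1 ↔ (d' = d → ε ≤ |s - t0|) := by
      by_cases h : d' = d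
      · refine ⟨{s : ℝ | ε ≤ |s - t0|}, isClosed_le continuous_const (by fun_prop), fun s => ?_⟩
        exact ⟨fun hh _ => hh, fun hh => hh h⟩
      · exact ⟨univ, isClosed_univ, fun s => ⟨fun _ hh => absurd hh h, fun _ => mem_univ _⟩⟩
    obtain ⟨K2, hK2c, hK2⟩ : ∃ K2 : Set ℝ, IsClosed K2 ∧
        ∀ s, s ∈ K2 ↔ (¬ N.isRay d → d' = N.rev d → ε ≤ |N.L d - s - t0|) := by
      by_cases h : ¬ N.isRay d ∧ d' = N.rev d
      · refine ⟨{s : ℝ | ε ≤ |N.L d - s - t0|}, isClosed_le continuous_const (by fun_prop),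
          fun s => ?_⟩
        exact ⟨fun hh _ _ => hh, fun hh => hh h.1 h.2⟩
      · exact ⟨univ, isClosed_univ, fun s => ⟨fun _ h1 h2 => absurd ⟨h1, h2⟩ h,
          fun _ => mem_univ _⟩⟩
    set K : Set ℝ := N.dom d' ∩ (K1 ∩ K2) with hKdef
    have hK : IsClosed K := (N.isClosed_dom d').inter (hK1c.inter hK2c)
    obtain ⟨ρ, hρ, hρ2⟩ := N.exists_dist_pos d' (N.z d t0) K hK (fun s hs => hs.1) (by
      rintro s ⟨hs, hs1, hs2⟩ heq
      rw [hK1] at hs1
      rw [hK2] at hs2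
      rcases N.inj d d' t0 s ht0.1 ht0.2 hs.1 hs.2 heq.symm with ⟨h1, h2⟩ | ⟨h1, h2, h3⟩
      · have := hs1 h1
        rw [h2] at this; simp at this; linarith
      · have := hs2 h1 h2
        rw [h3] at this
        have e : N.L d - (N.L d - t0) - t0 = 0 := by ring
        rw [e] at this; simp at this; linarith)
    refine ⟨ρ, hρ, fun s hs hlt => ?_⟩
    by_contra hcon
    push Not at hcon
    have hsK : s ∈ K := ⟨hs, (hK1 s).2 (fun h => hcon.1 h), (hK2 s).2 (fun h h' => hcon.2 h h')⟩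
    exact absurd hlt (not_lt.2 (hρ2 s hsK))
  choose ρ hρ hρ2 using key
  by_cases hne : Nonempty N.D
  · obtain ⟨d0, -, hd0⟩ := Finset.exists_min_image (Finset.univ : Finset N.D) ρ
      Finset.univ_nonempty
    exact ⟨ρ d0, hρ d0, fun d' s hs hlt =>
      hρ2 d' s hs (lt_of_lt_of_le hlt (hd0 d' (Finset.mem_univ _)))⟩
  · exact absurd ⟨d⟩ hne

theorem isClosed_carrier : IsClosed N.carrier := by
  rw [← isOpen_compl_iff, Metric.isOpen_iff]
  intro p hp
  have key : ∀ d : N.D, ∃ ρ > 0, ∀ s ∈ N.dom d, ρ ≤ ‖N.z d s - p‖ := by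
    intro d
    apply N.exists_dist_pos d p (N.dom d) (N.isClosed_dom d) (fun s hs => hs)
    intro s hs heq
    exact hp (mem_iUnion.2 ⟨d, s, hs, heq⟩)
  choose ρ hρ hρ2 using key
  by_cases hne : Nonempty N.D
  · obtain ⟨d0, -, hd0⟩ := Finset.exists_min_image (Finset.univ : Finset N.D) ρ
      Finset.univ_nonempty
    refine ⟨ρ d0, hρ d0, fun q hq hqc => ?_⟩
    obtain ⟨d, s, hs, heq⟩ := mem_iUnion.1 hqc
    have h1 := hρ2 d s hs
    rw [heq] at h1
    rw [Metric.mem_ball, dist_eq_norm] at hq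
    linarith [hd0 d (Finset.mem_univ _)]
  · refine ⟨1, one_pos, fun q _ hqc => ?_⟩
    obtain ⟨d, _⟩ := mem_iUnion.1 hqc
    exact hne ⟨d⟩

theorem mem_carrier {d : N.D} {s : ℝ} (h : s ∈ N.dom d) : N.z d s ∈ N.carrier :=
  mem_iUnion.2 ⟨d, s, h, rfl⟩

/-- the set of vertices -/
def verts (N : Net) : Set ℂ := range N.src

theorem finite_verts : (N.verts).Finite := finite_range _

theorem tgt_mem_verts {d : N.D} (h : ¬ N.isRay d) : N.tgt d ∈ N.verts := ⟨N.rev d, N.src_rev h⟩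

/-- an interior point is not a vertex -/
theorem int_not_vert {d : N.D} {t : ℝ} (ht : t ∈ N.int d) : N.z d t ∉ N.verts := by
  rintro ⟨d', h⟩
  rcases N.inj d d' t 0 ht.1 ht.2 le_rfl (Or.inr (N.L_pos d').le) h.symm with ⟨_, h2⟩ | ⟨h1, _, h3⟩
  · exact absurd h2 (ne_of_lt ht.1)
  · rcases ht.2 with h4 | h4
    · exact h1 h4
    · linarith

/-- every point of the carrier is a vertex or an interior point of a directed edge -/
theorem carrier_cases {p : ℂ} (hp : p ∈ N.carrier) :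
    p ∈ N.verts ∨ ∃ d, ∃ t ∈ N.int d, N.z d t = p := by
  obtain ⟨d, s, hs, rfl⟩ := mem_iUnion.1 hp
  rcases eq_or_lt_of_le hs.1 with h0 | h0
  · left; exact ⟨d, by rw [src, ← h0]⟩
  · rcases hs.2 with h | h
    · right; exact ⟨d, s, ⟨h0, Or.inl h⟩, rfl⟩
    · rcases eq_or_lt_of_le h with h1 | h1
      · by_cases hr : N.isRay d
        · right; exact ⟨d, s, ⟨h0, Or.inl hr⟩, rfl⟩
        · left; rw [h1]; exact N.tgt_mem_verts hr
      · right; exact ⟨d, s, ⟨h0, Or.inr h1⟩, rfl⟩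

end Net

end

end Pool.Agent.MP_4c0f47_an
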