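import Pool.Agent.Lib.MP_4c0f47_an.Back
import Pool.Agent.Lib.MP_4c0f47_an.CellLemmas

set_option autoImplicit false

open Set Filter Topology Complex MeasureTheory

namespace Pool.Agent.MP_4c0f47_an

noncomputable section

namespace Net

variable {N : Net}

theorem line_ball {d : N.D} {ϑ : ℝ} (hline : ∀ t ∈ N.dom d, ∃ r : ℝ, N.z d t = (r : ℂ) * dir ϑ)
    {t0 : ℝ} (ht0 : t0 ∈ N.int d) :
    ∃ ρ > 0, ∀ w ∈ N.carrier, ‖w - N.z d t0‖ < ρ → ∃ r : ℝ, w = (r : ℂ) * dir ϑ := by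
  obtain ⟨ρ, hρ, hball⟩ := N.exists_ball_regular d ht0 one_pos
  refine ⟨ρ, hρ, ?_⟩
  intro w hw hd
  obtain ⟨d', s', hs', he⟩ := mem_iUnion.1 hw
  rcases hball d' s' hs' (by rw [he]; exact hd) with ⟨h6, _⟩ | ⟨hr, h7, _⟩
  · rw [← he, h6]; rw [h6] at hs'; exact hline _ hs'
  · rw [← he, h7]; rw [h7] at hs'
    have ht' : s' ∈ Icc 0 (N.L d) := by
      rw [N.dom_eq_arc (N.rev_ray _ hr), N.L_rev _ hr] at hs'
      exact hs'
    rw [N.z_rev _ hr _ ht']
    exact hline _ (by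
      rw [N.dom_eq_arc hr]; exact ⟨by linarith [ht'.2], by linarith [ht'.1]⟩)

theorem not_line {r θ ϑ : ℝ} (hr : 0 < r) (h : Real.sin (θ - ϑ) ≠ 0) (r1 : ℝ) :
    (r : ℂ) * dir θ ≠ (r1 : ℂ) * dir ϑ := by
  intro he
  have h6 := congrArg (fun w => (w * (starRingEnd ℂ) (dir ϑ)).im) he
  simp only [Net.im_polar, sub_self, Real.sin_zero, mul_zero] at h6
  rcases mul_eq_zero.1 h6 with h9 | h9
  · exact hr.ne' h9
  · exact h h9

theorem polar_small {r0 ϑ ρ : ℝ} (hρ : 0 < ρ) : ∃ ε > 0, ∀ r θ : ℝ, |r - r0| < ε → ϑ < θ →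
    θ < ϑ + ε → ‖(r : ℂ) * dir θ - (r0 : ℂ) * dir ϑ‖ < ρ ∧ θ - ϑ < Real.pi := by
  set M := |r0| + 1 with hM
  have hMpos : 0 < M := by positivity
  have hp := Real.pi_pos
  refine ⟨min Real.pi (ρ / (2 * M)), by positivity, ?_⟩
  intro r θ hr1 hθ1 hθ2
  have q1 : |r - r0| < ρ / (2 * M) := lt_of_lt_of_le hr1 (min_le_right _ _)
  have q2 : |θ - ϑ| < ρ / (2 * M) := by
    rw [abs_of_pos (by linarith)]
    linarith [min_le_right Real.pi (ρ / (2 * M))]
  have q3 : θ - ϑ < Real.pi := by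
    linarith [min_le_left Real.pi (ρ / (2 * M))]
  refine ⟨?_, q3⟩
  refine lt_of_le_of_lt (Net.norm_polar_sub_le _ _ _ _) ?_
  have e3 : |r0| * |θ - ϑ| ≤ |r0| * (ρ / (2 * M)) := by gcongr
  have e4 : ρ / (2 * M) + |r0| * (ρ / (2 * M)) = ρ / 2 := by
    rw [hM]; field_simp; ring
  linarith

theorem vertex_L1 (c : CS N) {r0 : ℝ} {e0 : N.D}
    (hv : N.src e0 = (r0 : ℂ) * dir c.s)
    (hd : ∀ d, N.src d = N.src e0 → d = c.d0 ∨ Swp.Dn d c.s) :
    ∃ ε > 0, ∀ r θ : ℝ, 0 < r → |r - r0| < ε → c.s < θ → θ < c.s + ε →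
      (r : ℂ) * dir θ ∈ N.carrier → ¬ r < c.b θ := by
  have hp := Real.pi_pos
  obtain ⟨δ1, hδ1, hA1⟩ := c.ang_near c.npos (τ := 0) ⟨le_rfl, (N.L_pos _).le⟩ hp
  have key : ∀ d : N.D, ∃ ε > 0, Swp.Dn d c.s → ∀ t ∈ N.dom d, t < ε →
      (N.z d t * (starRingEnd ℂ) (dir c.s)).im ≤ 0 := by
    intro d
    by_cases h : Swp.Dn d c.s
    · obtain ⟨ε, hε, h1⟩ := h
      exact ⟨ε, hε, fun _ => h1⟩
    · exact ⟨1, one_pos, fun h' => absurd h' h⟩
  choose ε hε hε2 using key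
  obtain ⟨ε0, hε0, hmin⟩ : ∃ ε0 > 0, ∀ d, ε0 ≤ ε d := by
    have : Nonempty N.D := ⟨e0⟩
    obtain ⟨d0, -, hd0⟩ := Finset.exists_min_image (Finset.univ : Finset N.D) ε
      Finset.univ_nonempty
    exact ⟨ε d0, hε d0, fun d => hd0 d (Finset.mem_univ _)⟩
  obtain ⟨ρ, hρ, hball⟩ := N.exists_ball_vertex (v := N.src e0) ⟨e0, rfl⟩
    (ε := min ε0 δ1) (by positivity)
  obtain ⟨η, hη, hη2⟩ := polar_small (r0 := r0) (ϑ := c.s) hρ
  refine ⟨η, hη, ?_⟩
  intro r θ hr hr1 hθ1 hθ2 hc hlt2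
  obtain ⟨h5, q3⟩ := hη2 r θ hr1 hθ1 hθ2
  rw [← hv] at h5
  obtain ⟨d, hdsrc, t, htd, htε, he⟩ := hball _ hc h5
  simp only [lt_min_iff] at htε
  rcases hd d hdsrc with h6 | h6
  · subst h6
    have hC := c.e_ccw c.npos
    have hs2 : t ∈ Icc 0 (N.L (c.e 0)) := hC.mem_dom.1 htd
    have h7 := c.on_edge c.npos (s' := t) (x := c.s) hs2 hr he.symm
      (by rw [abs_of_pos (by linarith)]; exact q3) (by
      have e1 := hA1 t hs2 (by rw [sub_zero, abs_of_nonneg hs2.1]; exact htε.2)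
      have e0 : c.X 0 = c.s := rfl
      have e2 : c.X 0 + N.ang (c.e 0) t - c.s
        = N.ang (c.e 0) t - N.ang (c.e 0) 0 := by
        rw [N.ang_zero, e0]; ring
      rw [e2]; exact e1)
    have : c.b θ = r := h7.2.2
    linarith
  · have h7 := hε2 d h6 t htd (lt_of_lt_of_le htε.1 (hmin d))
    rw [he, Net.im_polar] at h7
    have h8 : 0 < Real.sin (θ - c.s) := Real.sin_pos_of_pos_of_lt_pi (by linarith) q3
    nlinarith [mul_pos hr h8]

/-- the carrier near the origin, seen from a radial edge through the origin -/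
theorem germ {w : N.D} {ϑ : ℝ} (hE : N.E w = 0) (hw : ‖N.src w‖ ∈ N.dom w)
    (hn : 0 < ‖N.src w‖) (hϑ : N.src w = (‖N.src w‖ : ℂ) * dir ϑ)
    (hdir : dir (N.a w 0) = - dir ϑ) :
    ∃ ω ∈ Icc (2 * Real.pi / 3) Real.pi, ∃ ε > 0,
      (∀ r : ℝ, r ∈ Ioo 0 ε → (r : ℂ) * dir (ϑ + ω) ∈ N.carrier) ∧
      (∀ r : ℝ, r ∈ Ioo 0 ε → ∀ θ ∈ Ioo ϑ (ϑ + ω), (r : ℂ) * dir θ ∉ N.carrier) := by
  have hp := Real.pi_pos
  have hline : ∀ t ∈ N.dom w, N.z w t = ((‖N.src w‖ - t : ℝ) : ℂ) * dir ϑ := by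
    intro t ht
    rw [N.z_line hE ht, hdir]
    conv_lhs => rw [hϑ]
    push_cast; ring
  by_cases hint : ‖N.src w‖ ∈ N.int w
  · obtain ⟨ρ, hρ, hb⟩ := line_ball (fun t ht => ⟨_, hline t ht⟩) hint
    have hz : N.z w ‖N.src w‖ = 0 := by
      rw [hline _ hw, sub_self]; simp
    rw [hz] at hb
    obtain ⟨u, hu, hu2⟩ := N.exists_gt_of_int hint
    refine ⟨Real.pi, ⟨by linarith, le_rfl⟩, min ρ (u - ‖N.src w‖), lt_min hρ (by linarith), ?_, ?_⟩
    · intro r hr
      have h1 : ‖N.src w‖ + r ∈ N.dom w := N.dom_of_le hu (by linarith [hr.1])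
        (by linarith [hr.2, min_le_right ρ (u - ‖N.src w‖)])
      have h2 := hline _ h1
      have h3 : (r : ℂ) * dir (ϑ + Real.pi) = N.z w (‖N.src w‖ + r) := by
        rw [h2, dir_add_pi]; push_cast; ring
      rw [h3]
      exact N.mem_carrier h1
    · intro r hr θ hθ hc
      have h1 : ‖(r : ℂ) * dir θ - 0‖ < ρ := by
        rw [sub_zero, norm_mul_dir, abs_of_pos hr.1]
        exact lt_of_lt_of_le hr.2 (min_le_left _ _)
      obtain ⟨r1, h2⟩ := hb _ hc h1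
      refine not_line hr.1 ?_ r1 h2
      exact (Real.sin_pos_of_pos_of_lt_pi (by linarith [hθ.1]) (by linarith [hθ.2])).ne'
  · have harc : ¬ N.isRay w := fun h => hint ⟨hn, Or.inl h⟩
    have hL : N.L w = ‖N.src w‖ := by
      rcases hw.2 with h1 | h1
      · exact absurd h1 harc
      · by_contra hcon
        exact hint ⟨hn, Or.inr (lt_of_le_of_ne h1 (fun h => hcon h.symm))⟩
    have htgt : N.tgt w = 0 := by
      have := hline _ (N.L_mem_dom w)
      rw [hL, sub_self] at this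
      rw [tgt, hL, this]; simp
    set f := N.rev w with hf
    have hsf : N.src f = 0 := by rw [hf, N.src_rev harc, htgt]
    have hdf : dir (N.a f 0) = dir ϑ := by
      rw [hf, N.dir_rev0 harc, N.a_const hE (N.L_mem_dom w), dir_add_pi, hdir, neg_neg]
    have hE0 : ∀ d : N.D, N.src d = 0 → N.E d = 0 := by
      intro d hd
      rw [E, hd]
      simp [cross]
    have hz : ∀ d : N.D, N.src d = 0 → ∀ t ∈ N.dom d, N.z d t = (t : ℂ) * dir (N.a d 0) := by
      intro d hd t ht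
      rw [N.z_line (hE0 d hd) ht, hd, zero_add]
    obtain ⟨ρ, hρ, hball⟩ := N.exists_ball_vertex (v := 0) ⟨f, hsf⟩ (ε := 1) one_pos
    have hd1 : dir (N.a (N.rot f) 0) = dir (ϑ + 2 * Real.pi / 3) := N.dir_rot f _ hdf
    have hd2 : dir (N.a (N.rot (N.rot f)) 0) = dir (ϑ + 4 * Real.pi / 3) := by
      rw [N.dir_rot _ _ hd1]; congr 1; ring
    have hsf1 : N.src (N.rot f) = 0 := by rw [N.src_rot, hsf]
    refine ⟨2 * Real.pi / 3, ⟨le_rfl, by linarith⟩, min ρ (N.L (N.rot f)),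
      lt_min hρ (N.L_pos _), ?_, ?_⟩
    · intro r hr
      have h1 : r ∈ N.dom (N.rot f) := N.dom_of_le (N.L_mem_dom _) hr.1.le
        (hr.2.le.trans (min_le_right _ _))
      have h2 := hz _ hsf1 r h1
      rw [hd1] at h2
      rw [← h2]
      exact N.mem_carrier h1
    · intro r hr θ hθ hc
      have h1 : ‖(r : ℂ) * dir θ - 0‖ < ρ := by
        rw [sub_zero, norm_mul_dir, abs_of_pos hr.1]
        exact lt_of_lt_of_le hr.2 (min_le_left _ _)
      obtain ⟨d, hd, t, ht, _, he⟩ := hball _ hc h1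
      rw [hz d hd t ht] at he
      have ht0 : 0 < t := by
        rcases ht.1.lt_or_eq with h | h
        · exact h
        · exfalso
          rw [← h] at he
          have := congrArg norm he
          rw [norm_mul_dir, norm_mul_dir] at this
          simp only [abs_zero] at this
          exact hr.1.ne' (abs_eq_zero.1 this.symm)
      have h3 := (polar_inj ht0 hr.1 he).2
      have h4 : d = f ∨ d = N.rot f ∨ d = N.rot (N.rot f) :=
        N.vertex_cases (hd.trans hsf.symm)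
      rcases h4 with h4 | h4 | h4
      · rw [h4, hdf] at h3
        have := dir_inj_of_lt h3 (by rw [abs_lt]; constructor <;> linarith [hθ.1, hθ.2])
        linarith [hθ.1]
      · rw [h4, hd1] at h3
        have := dir_inj_of_lt h3 (by rw [abs_lt]; constructor <;> linarith [hθ.1, hθ.2])
        linarith [hθ.2]
      · rw [h4, hd2] at h3
        have := dir_inj_of_lt h3 (by rw [abs_lt]; constructor <;> linarith [hθ.1, hθ.2])
        linarith [hθ.2]

theorem origin_bound (c : CS N) (hσ : c.σ = true) (hps : N.ps c.d0 0 = Real.pi / 3)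
    (hE : N.E (N.rot c.d0) = 0) (hw : ‖N.src c.d0‖ ∈ N.dom (N.rot c.d0)) :
    c.t ≤ c.s + Real.pi := by
  have hp := Real.pi_pos
  have hq : N.CCW c.d0 := c.e_ccw c.npos
  have hn : 0 < ‖N.src c.d0‖ := hq.norm_pos (N.zero_mem_dom _)
  have hs : N.src c.d0 = (‖N.src c.d0‖ : ℂ) * dir c.s := c.start
  have hs1 : N.src (N.rot c.d0) = (‖N.src (N.rot c.d0)‖ : ℂ) * dir c.s := by
    rw [N.src_rot]; exact hs
  have hda := hq.dir_a (N.zero_mem_dom _) hs
  have hdir : dir (N.a (N.rot c.d0) 0) = - dir c.s := by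
    rw [N.dir_rot _ _ hda, hps, ← dir_add_pi]; congr 1; ring
  obtain ⟨ω, hω, ε0, hε0, hg1, hg2⟩ := germ (w := N.rot c.d0) hE (by rw [N.src_rot]; exact hw)
    (by rw [N.src_rot]; exact hn) hs1 hdir
  have hline : ∀ t ∈ N.dom (N.rot c.d0), N.z (N.rot c.d0) t
      = ((‖N.src c.d0‖ - t : ℝ) : ℂ) * dir c.s := by
    intro t ht
    rw [N.z_line hE ht, hdir, N.src_rot]
    conv_lhs => rw [hs]
    push_cast; ring
  by_contra hcon
  push Not at hcon
  set m := c.s + ω with hm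
  have hm1 : c.s < m := by linarith [hω.1]
  have hm2 : m < c.t := by linarith [hω.2]
  have hbs : c.b c.s = ‖N.src c.d0‖ := c.b_s
  have hU : ∀ x ∈ Ioo c.s c.t, ∃ ε > 0, ∀ r θ : ℝ, 0 < r → |r - c.b x| < ε → |θ - x| < ε →
      (r : ℂ) * dir θ ∈ N.carrier → c.b θ ≤ r := by
    intro x hx
    obtain ⟨ε, hε, h1⟩ := c.near_chain hx
    refine ⟨ε, hε, ?_⟩
    intro r θ h2 h3 h4 h5
    have := h1 r θ h2 h3 h4 h5
    rw [hσ, show sg true = 1 from rfl, one_mul, one_mul] at this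
    exact this
  have hempty : ∀ θ ∈ Ioo c.s m, ∀ r : ℝ, (0 : ℝ) < r → r < c.b θ →
      (r : ℂ) * dir θ ∉ N.carrier := by
    apply Net.empty (a := fun _ => (0 : ℝ)) (b := c.b) continuousOn_const
      (c.chain.cont.mono (Icc_subset_Icc le_rfl hm2.le)) (fun _ _ => le_rfl)
    · -- left end
      intro r0 hr0
      rcases eq_or_lt_of_le hr0.1 with h1 | h1
      · refine ⟨min ε0 ω, lt_min hε0 (by linarith [hω.1]), ?_⟩
        intro r θ hr hr1 hθ1 hθ2 hc _
        rw [← h1, sub_zero, abs_of_pos hr] at hr1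
        exact hg2 r ⟨hr, lt_of_lt_of_le hr1 (min_le_left _ _)⟩ θ
          ⟨hθ1, by linarith [min_le_right ε0 ω]⟩ hc
      rcases eq_or_lt_of_le hr0.2 with h2 | h2
      · obtain ⟨ε, hε, h3⟩ := vertex_L1 c (r0 := r0) (e0 := c.d0) (by rw [h2, hbs]; exact hs) (by
          intro d hd
          rcases N.vertex_cases hd with h5 | h5 | h5
          · left; exact h5
          · right
            rw [h5]
            exact Swp.dn_radial (fun t ht => ⟨_, hline t ht⟩)
          · right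
            rw [h5]
            refine Swp.dn_of_dir (x := 5 * Real.pi / 3) ?_ ?_ ?_
            · rw [N.src_rot, N.src_rot]; exact hs
            · rw [N.rot_dir2, hda, hps, ← dir_add]; ring_nf
            · apply sin_le_neg_half <;> linarith)
        refine ⟨ε, hε, ?_⟩
        intro r θ hr hr1 hθ1 hθ2 hc hh
        exact h3 r θ hr hr1 hθ1 hθ2 hc hh.2
      · have ht0 : ‖N.src c.d0‖ - r0 ∈ N.int (N.rot c.d0) := by
          rw [hbs] at h2
          refine ⟨by linarith, ?_⟩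
          rcases hw.2 with h3 | h3
          · exact Or.inl h3
          · exact Or.inr (by linarith)
        obtain ⟨ρ, hρ, hb⟩ := line_ball (fun t ht => ⟨_, hline t ht⟩) ht0
        rw [hline _ (N.int_subset_dom _ ht0)] at hb
        have e1 : ‖N.src c.d0‖ - (‖N.src c.d0‖ - r0) = r0 := by ring
        rw [e1] at hb
        obtain ⟨η, hη, hη2⟩ := polar_small (r0 := r0) (ϑ := c.s) hρ
        refine ⟨η, hη, ?_⟩
        intro r θ hr hr1 hθ1 hθ2 hc _
        obtain ⟨h5, h6⟩ := hη2 r θ hr1 hθ1 hθ2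
        obtain ⟨r1, h7⟩ := hb _ hc h5
        refine not_line hr ?_ r1 h7
        exact (Real.sin_pos_of_pos_of_lt_pi (by linarith) (by linarith)).ne'
    · intro x hx
      exact hU x ⟨hx.1, hx.2.trans hm2⟩
    · intro x hx
      refine ⟨min ε0 (min (x - c.s) (m - x)), lt_min hε0 (lt_min (by linarith [hx.1])
        (by linarith [hx.2])), ?_⟩
      intro r θ hr hr1 hθ hc
      exfalso
      rw [sub_zero, abs_of_pos hr] at hr1
      simp only [lt_min_iff] at hr1 hθ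
      have h1 := abs_lt.1 hθ.2.1
      have h2 := abs_lt.1 hθ.2.2
      exact hg2 r ⟨hr, hr1.1⟩ θ ⟨by linarith, by linarith⟩ hc
  have hbm : 0 < c.b m := c.chain.pos m ⟨hm1.le, hm2.le⟩
  refine Net.no_min (a := fun _ => (0 : ℝ)) (b := c.b) (θ1 := c.s) (θ2 := c.t)
    continuousOn_const c.chain.cont (fun _ _ => le_rfl) hU ⟨hm1, hm2⟩
    (r0 := min ε0 (c.b m) / 2) ?_ ?_ ?_ ?_
  · have := lt_min hε0 hbm
    show (0 : ℝ) < min ε0 (c.b m) / 2
    linarith
  · have := lt_min hε0 hbm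
    linarith [min_le_right ε0 (c.b m)]
  · have := lt_min hε0 hbm
    exact hg1 _ ⟨by linarith, by linarith [min_le_left ε0 (c.b m)]⟩
  · intro θ hθ r hr1 hr2 hc
    by_contra h
    push Not at h
    exact hempty θ ⟨hθ.1, h⟩ r hr1 hr2 hc

theorem _root_.Pool.Agent.MP_4c0f47_an.CS.card_C (c : CS N) : c.C.card = c.n - 1 := by
  rw [CS.C, Finset.card_image_of_injOn, Nat.card_Ico]
  intro i hi j hj hij
  simp only [Finset.coe_Ico, mem_Ico] at hi hj
  rcases lt_trichotomy i j with h | h | h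
  · exact absurd hij (c.X_lt h (by omega)).ne
  · exact h
  · exact absurd hij (c.X_lt h (by omega)).ne'

/-- a chain of outer type with total angle at most `π` has few edges -/
theorem count_bound (c : CS N) (hσ : c.σ = true) (hps : Real.pi / 3 ≤ N.ps c.d0 0)
    (ht : c.t ≤ c.s + Real.pi) : c.n ≤ 5 := by
  have hp := Real.pi_pos
  have hC := c.chain
  rw [hσ, show sg true = 1 from rfl] at hC
  have hst := c.s_lt_t
  have h1 := lft_sub_rgt (σ := 1) (b := c.b) (β := c.β) (C := c.C) (s := c.s) (t := c.t)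
    (x := c.s) (y := c.t) hC.cont le_rfl hst le_rfl
  have h2 := hC.eq_lft (x := c.t) ⟨hst.le, le_rfl⟩ hC.t_notMem
  have h3 := hC.eq_rgt (x := c.s) ⟨le_rfl, hst.le⟩ hC.s_notMem
  rw [← h2, ← h3, Cell.filter_all hC, c.card_C, c.β_s] at h1
  have h4 := (hC.ang c.t ⟨hst.le, le_rfl⟩ hC.t_notMem).2
  have h5 : ∫ u in c.s..c.t, (-1 : ℝ) ≤ ∫ u in c.s..c.t, (c.b u ^ 2 - 1) := by
    apply intervalIntegral.integral_mono_on hst.le (by simp)
      (hC.intg ⟨le_rfl, hst.le⟩ ⟨hst.le, le_rfl⟩)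
    intro u _
    nlinarith [sq_nonneg (c.b u)]
  rw [intervalIntegral.integral_const, smul_eq_mul] at h5
  have h6 : ((c.n - 1 : ℕ) : ℝ) = (c.n : ℝ) - 1 := by
    have := c.npos
    push_cast [Nat.cast_sub (show 1 ≤ c.n by omega)]
    ring
  rw [h6] at h1
  by_contra hcon
  push Not at hcon
  have h7 : (6 : ℝ) ≤ c.n := by exact_mod_cast hcon
  have h8 : Real.pi / 3 * 5 ≤ 1 * (Real.pi / 3) * ((c.n : ℝ) - 1) := by
    nlinarith
  nlinarith

end Net

end

end Pool.Agent.MP_4c0f47_an
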