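import Pool.Agent.Lib.MP_4c0f47_an.WindNet
import Pool.Agent.Lib.MP_4c0f47_an.CellDefs

set_option autoImplicit false

open Set Filter Topology Complex MeasureTheory

namespace Pool.Agent.MP_4c0f47_an

noncomputable section

theorem eq_of_hasDerivAt_zero {f : ℝ → ℝ} {s t : ℝ} (hst : s ≤ t) (hc : ContinuousOn f (Icc s t))
    (hd : ∀ x ∈ Ioo s t, HasDerivAt f 0 x) : f t = f s := by
  rcases eq_or_lt_of_le hst with h | h
  · rw [h]
  · obtain ⟨c, _, h2⟩ := exists_hasDerivAt_eq_slope f (fun _ => 0) h hc hd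
    have h3 : t - s ≠ 0 := by linarith [sub_pos.2 h] |> fun (h : 0 < t - s) => h.ne'
    rw [eq_comm, div_eq_zero_iff] at h2
    rcases h2 with h2 | h2
    · linarith
    · exact absurd h2 h3

namespace Geo

variable {z : ℝ → ℂ} {a : ℝ → ℝ} {s0 s1 : ℝ}

/-- conservation of `κ e^{-r²/2}` -/
theorem energy (h : Geo z a s0 s1) {t : ℝ} (ht : t ∈ Icc s0 s1) :
    cross (z t) (dir (a t)) * Real.exp (-(‖z t‖ ^ 2) / 2)
      = cross (z s0) (dir (a s0)) * Real.exp (-(‖z s0‖ ^ 2) / 2) := by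
  have hg := h.mono le_rfl ht.2
  apply eq_of_hasDerivAt_zero (f := fun t => cross (z t) (dir (a t)) * Real.exp (-(‖z t‖ ^ 2) / 2))
    ht.1
  · apply hg.continuousOn_cross.mul
    apply Real.continuous_exp.comp_continuousOn
    exact ((hg.cz.norm.pow 2).neg).div_const 2
  · intro x hx
    have h1 := hg.hasDerivAt_cross hx
    have h2 := ((hg.hasDerivAt_normSq hx).neg.div_const 2).exp
    have h3 := h1.mul h2
    refine h3.congr_deriv ?_
    simp only [Pi.neg_apply]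
    ring

end Geo

namespace Net

variable {N : Net}

/-- energy of a directed edge: positive for edges going counterclockwise around the origin -/
def E (d : N.D) : ℝ := cross (N.src d) (dir (N.a d 0)) * Real.exp (-(‖N.src d‖ ^ 2) / 2)

theorem E_eq {d : N.D} {t : ℝ} (ht : t ∈ N.dom d) :
    cross (N.z d t) (dir (N.a d t)) * Real.exp (-(‖N.z d t‖ ^ 2) / 2) = N.E d :=
  (N.geo' ht).energy ⟨ht.1, le_rfl⟩

theorem E_rev {d : N.D} (h : ¬ N.isRay d) : N.E (N.rev d) = - N.E d := by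
  have h1 := N.E_eq (N.L_mem_dom d)
  rw [← h1, E, N.src_rev h, N.dir_rev0 h, dir_add_pi, cross_neg_right]
  simp only [tgt]; ring

theorem E_ray {d : N.D} (h : N.isRay d) : N.E d = 0 := by
  have h1 : Tendsto (fun t => ‖N.z d t‖ * Real.exp (-(‖N.z d t‖ ^ 2) / 2)) atTop (𝓝 0) := by
    have h2 : Tendsto (fun r : ℝ => r * Real.exp (-(r ^ 2) / 2)) atTop (𝓝 0) := by
      have h3 : Tendsto (fun r : ℝ => r * Real.exp (-r)) atTop (𝓝 0) := by
        have := Real.tendsto_pow_mul_exp_neg_atTop_nhds_zero 1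
        simpa using this
      apply squeeze_zero' (g := fun r : ℝ => r * Real.exp (-r)) _ _ h3
      · filter_upwards [eventually_ge_atTop (0 : ℝ)] with r hr
        positivity
      · filter_upwards [eventually_ge_atTop (2 : ℝ)] with r hr
        apply mul_le_mul_of_nonneg_left _ (by linarith)
        apply Real.exp_le_exp.2
        nlinarith
    exact h2.comp (N.ray_inf d h)
  have h2 : ∀ t, 0 ≤ t → |N.E d| ≤ ‖N.z d t‖ * Real.exp (-(‖N.z d t‖ ^ 2) / 2) := by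
    intro t ht
    rw [← N.E_eq (t := t) ⟨ht, Or.inl h⟩, abs_mul, abs_of_pos (Real.exp_pos _)]
    exact mul_le_mul_of_nonneg_right (abs_cross_dir_le _ _) (Real.exp_pos _).le
  have h3 : |N.E d| ≤ 0 := by
    apply ge_of_tendsto h1
    filter_upwards [eventually_ge_atTop (0 : ℝ)] with t ht using h2 t ht
  exact abs_nonpos_iff.1 h3

/-- counterclockwise edges -/
def CCW (d : N.D) : Prop := 0 < N.E d

theorem CCW.arc {d : N.D} (h : N.CCW d) : ¬ N.isRay d := by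
  intro hr
  rw [CCW, N.E_ray hr] at h
  exact lt_irrefl _ h

theorem CCW.cross_pos {d : N.D} (h : N.CCW d) {t : ℝ} (ht : t ∈ N.dom d) :
    0 < cross (N.z d t) (dir (N.a d t)) := by
  rw [CCW, ← N.E_eq ht] at h
  exact (pos_iff_pos_of_mul_pos h).2 (Real.exp_pos _)

theorem CCW.ne_zero {d : N.D} (h : N.CCW d) {t : ℝ} (ht : t ∈ N.dom d) : N.z d t ≠ 0 := by
  intro h0
  have := h.cross_pos ht
  rw [h0] at this
  simp [cross] at this

theorem CCW.norm_pos {d : N.D} (h : N.CCW d) {t : ℝ} (ht : t ∈ N.dom d) : 0 < ‖N.z d t‖ :=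
  norm_pos_iff.2 (h.ne_zero ht)

theorem CCW.not_rev {d : N.D} (h : N.CCW d) : ¬ N.CCW (N.rev d) := by
  rw [CCW, N.E_rev h.arc]
  have : 0 < N.E d := h
  linarith

theorem CCW.mem_dom {d : N.D} (h : N.CCW d) {t : ℝ} : t ∈ N.dom d ↔ t ∈ Icc 0 (N.L d) := by
  rw [dom_eq_arc h.arc]

theorem CCW.mem_int {d : N.D} (h : N.CCW d) {t : ℝ} : t ∈ N.int d ↔ t ∈ Ioo 0 (N.L d) := by
  rw [int_eq_arc h.arc]

/-- angle between the tangent and the outward radial direction, in `(0, π)` for `CCW` edges -/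
def ps (d : N.D) (t : ℝ) : ℝ := Real.arccos (dot (N.z d t) (dir (N.a d t)) / ‖N.z d t‖)

/-- angle swept from the origin -/
def ang (d : N.D) (t : ℝ) : ℝ := (cind (N.z d) (N.a d) 0 t 0).im

theorem dot_eq_cos {r θ α : ℝ} : dot ((r : ℂ) * dir θ) (dir α) = r * Real.cos (α - θ) := by
  rw [Real.cos_sub]
  simp only [dot, Complex.mul_re, Complex.mul_im, Complex.ofReal_re, Complex.ofReal_im, dir_re,
    dir_im]
  ring

theorem cross_eq_sin {r θ α : ℝ} : cross ((r : ℂ) * dir θ) (dir α) = r * Real.sin (α - θ) := by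
  rw [Real.sin_sub]
  simp only [cross, Complex.mul_re, Complex.mul_im, Complex.ofReal_re, Complex.ofReal_im, dir_re,
    dir_im]
  ring

theorem cos_ps {d : N.D} {t : ℝ} (h : N.z d t ≠ 0) :
    Real.cos (N.ps d t) = dot (N.z d t) (dir (N.a d t)) / ‖N.z d t‖ := by
  have hn : 0 < ‖N.z d t‖ := norm_pos_iff.2 h
  have h1 := abs_le.1 (abs_dot_dir_le (N.z d t) (N.a d t))
  rw [ps, Real.cos_arccos]
  · rw [le_div_iff₀ hn]; linarith [h1.1]
  · rw [div_le_iff₀ hn]; linarith [h1.2]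

theorem sin_ps {d : N.D} {t : ℝ} (h : N.z d t ≠ 0) (hc : 0 ≤ cross (N.z d t) (dir (N.a d t))) :
    Real.sin (N.ps d t) = cross (N.z d t) (dir (N.a d t)) / ‖N.z d t‖ := by
  have hn : 0 < ‖N.z d t‖ := norm_pos_iff.2 h
  rw [ps, Real.sin_arccos]
  rw [Real.sqrt_eq_iff_eq_sq]
  · have := cross_sq_add_dot_sq_dir (N.z d t) (N.a d t)
    field_simp
    linarith
  · have := cross_sq_add_dot_sq_dir (N.z d t) (N.a d t)
    rw [div_pow, sub_nonneg, div_le_one (by positivity)]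
    nlinarith [sq_nonneg (cross (N.z d t) (dir (N.a d t)))]
  · positivity

theorem CCW.ps_mem {d : N.D} (h : N.CCW d) {t : ℝ} (ht : t ∈ N.dom d) :
    N.ps d t ∈ Ioo 0 Real.pi := by
  have h1 := N.sin_ps (h.ne_zero ht) (h.cross_pos ht).le
  have h2 : 0 < Real.sin (N.ps d t) := by
    rw [h1]; exact div_pos (h.cross_pos ht) (h.norm_pos ht)
  have h3 : 0 ≤ N.ps d t := Real.arccos_nonneg _
  have h4 : N.ps d t ≤ Real.pi := Real.arccos_le_pi _
  constructor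
  · rcases eq_or_lt_of_le h3 with h5 | h5
    · rw [← h5] at h2; simp at h2
    · exact h5
  · rcases eq_or_lt_of_le h4 with h5 | h5
    · rw [h5] at h2; simp at h2
    · exact h5

/-- tangent direction in polar terms -/
theorem CCW.dir_a {d : N.D} (h : N.CCW d) {t : ℝ} (ht : t ∈ N.dom d) {θ : ℝ}
    (hθ : N.z d t = (‖N.z d t‖ : ℂ) * dir θ) : dir (N.a d t) = dir (θ + N.ps d t) := by
  have hn := h.norm_pos ht
  have h1 := N.cos_ps (h.ne_zero ht)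
  have h2 := N.sin_ps (h.ne_zero ht) (h.cross_pos ht).le
  set r := ‖N.z d t‖ with hr
  rw [hθ, dot_eq_cos, mul_div_cancel_left₀ _ hn.ne'] at h1
  rw [hθ, cross_eq_sin, mul_div_cancel_left₀ _ hn.ne'] at h2
  have h3 : dir (N.a d t - θ) = dir (N.ps d t) := by
    apply Complex.ext
    · rw [dir_re, dir_re, h1]
    · rw [dir_im, dir_im, h2]
  rw [dir_add, ← h3, ← dir_add]; ring_nf

theorem CCW.off {d : N.D} (h : N.CCW d) {u : ℝ} (hu : u ≤ N.L d) :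
    ∀ t ∈ Icc 0 u, N.z d t ≠ 0 := fun t ht => h.ne_zero (h.mem_dom.2 ⟨ht.1, ht.2.trans hu⟩)

theorem ang_zero (d : N.D) : N.ang d 0 = 0 := by simp [ang, cind]

theorem im_div (z w : ℂ) : (w / z).im = cross z w / ‖z‖ ^ 2 := by
  rw [Complex.div_im, Complex.normSq_eq_norm_sq, cross]; ring

theorem CCW.hasDerivAt_ang {d : N.D} (h : N.CCW d) {t : ℝ} (ht : t ∈ Ioo 0 (N.L d)) :
    HasDerivAt (N.ang d) (cross (N.z d t) (dir (N.a d t)) / ‖N.z d t‖ ^ 2) t := by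
  have hg := N.geoL d
  have hc : ContinuousOn (fun t => dir (N.a d t) / (N.z d t - 0)) (Icc 0 (N.L d)) :=
    hg.cont_integrand (fun t ht => h.off le_rfl t ht)
  have hi : IntervalIntegrable (fun t => dir (N.a d t) / (N.z d t - 0)) volume 0 t := by
    apply ContinuousOn.intervalIntegrable_of_Icc ht.1.le
    exact hc.mono (Icc_subset_Icc le_rfl ht.2.le)
  have h1 : HasDerivAt (fun u => cind (N.z d) (N.a d) 0 u 0) (dir (N.a d t) / (N.z d t - 0)) t := by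
    apply intervalIntegral.integral_hasDerivAt_right hi
    · exact (hc.mono Ioo_subset_Icc_self).stronglyMeasurableAtFilter isOpen_Ioo t ht
    · exact hc.continuousAt (Icc_mem_nhds ht.1 ht.2)
  have h2 := (Complex.imCLM.hasFDerivAt.comp_hasDerivAt t h1)
  simp only [Complex.imCLM_apply, sub_zero, im_div] at h2
  exact h2

theorem CCW.continuousOn_ang {d : N.D} (h : N.CCW d) : ContinuousOn (N.ang d) (Icc 0 (N.L d)) := by
  have hg := N.geoL d
  have hc : ContinuousOn (fun t => dir (N.a d t) / (N.z d t - 0)) (Icc 0 (N.L d)) :=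
    hg.cont_integrand (fun t ht => h.off le_rfl t ht)
  have hi : IntervalIntegrable (fun t => dir (N.a d t) / (N.z d t - 0)) volume 0 (N.L d) :=
    ContinuousOn.intervalIntegrable_of_Icc (N.L_pos d).le hc
  have h1 := intervalIntegral.continuousOn_primitive_interval' hi (a := 0) (by
    rw [uIcc_of_le (N.L_pos d).le]; exact ⟨le_rfl, (N.L_pos d).le⟩)
  rw [uIcc_of_le (N.L_pos d).le] at h1
  exact Complex.continuous_im.comp_continuousOn h1

theorem CCW.polar {d : N.D} (h : N.CCW d) {t : ℝ} (ht : t ∈ N.dom d) {θ : ℝ}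
    (hθ : N.src d = (‖N.src d‖ : ℂ) * dir θ) :
    N.z d t = (‖N.z d t‖ : ℂ) * dir (θ + N.ang d t) := by
  have ht' := h.mem_dom.1 ht
  have hg := (N.geo' ht)
  have h1 := hg.exp_cind ht.1 (x := 0) (h.off ht'.2)
  rw [sub_zero, sub_zero] at h1
  have h0 : N.z d 0 ≠ 0 := h.ne_zero (N.zero_mem_dom d)
  set w := cind (N.z d) (N.a d) 0 t 0 with hw
  have h2 : N.z d t = N.z d 0 * Complex.exp w := by rw [h1]; field_simp
  have h3 : Complex.exp w = (Real.exp w.re : ℂ) * dir (N.ang d t) := by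
    conv_lhs => rw [← Complex.re_add_im w]
    rw [Complex.exp_add, dir, ang, ← hw, Complex.ofReal_exp]
  have h4 : ‖N.z d t‖ = ‖N.z d 0‖ * Real.exp w.re := by
    rw [h2, norm_mul, h3, norm_mul, norm_dir, mul_one, Complex.norm_real, Real.norm_eq_abs,
      abs_of_pos (Real.exp_pos _)]
  rw [h4, h2, h3, dir_add]
  simp only [src] at hθ
  conv_lhs => rw [hθ]
  push_cast
  ring

theorem CCW.exists_rate {d : N.D} (h : N.CCW d) : ∃ c > 0, ∀ t1 t2, 0 ≤ t1 → t1 ≤ t2 →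
    t2 ≤ N.L d → c * (t2 - t1) ≤ N.ang d t2 - N.ang d t1 := by
  have hcz : ContinuousOn (fun t => ‖N.z d t‖) (Icc 0 (N.L d)) := (N.geoL d).cz.norm
  obtain ⟨t0, ht0, hmax⟩ := isCompact_Icc.exists_isMaxOn
    (nonempty_Icc.2 (N.L_pos d).le) hcz
  set M := ‖N.z d t0‖ with hM
  have hMpos : 0 < M := h.norm_pos (h.mem_dom.2 ht0)
  refine ⟨N.E d / M ^ 2, div_pos h (by positivity), fun t1 t2 h1 h12 h2 => ?_⟩
  have hsub : Icc t1 t2 ⊆ Icc 0 (N.L d) := Icc_subset_Icc h1 h2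
  refine Convex.mul_sub_le_image_sub_of_le_deriv (D := Icc t1 t2) (convex_Icc t1 t2)
    (f := N.ang d) (h.continuousOn_ang.mono hsub) ?_ ?_
    t1 (left_mem_Icc.2 h12) t2 (right_mem_Icc.2 h12) h12
  · rw [interior_Icc]
    intro u hu
    exact (h.hasDerivAt_ang ⟨lt_of_le_of_lt h1 hu.1,
      lt_of_lt_of_le hu.2 h2⟩).differentiableAt.differentiableWithinAt
  · rw [interior_Icc]
    intro u hu
    have hu' : u ∈ Ioo 0 (N.L d) := ⟨lt_of_le_of_lt h1 hu.1, lt_of_lt_of_le hu.2 h2⟩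
    have hud : u ∈ N.dom d := h.mem_dom.2 (Ioo_subset_Icc_self hu')
    rw [(h.hasDerivAt_ang hu').deriv]
    have e1 := N.E_eq hud
    have e2 : N.E d ≤ cross (N.z d u) (dir (N.a d u)) := by
      rw [← e1]
      have hc := h.cross_pos hud
      have : Real.exp (-(‖N.z d u‖ ^ 2) / 2) ≤ 1 := by
        rw [Real.exp_le_one_iff]; nlinarith [sq_nonneg ‖N.z d u‖]
      nlinarith
    have e3 : ‖N.z d u‖ ≤ M := hmax (Ioo_subset_Icc_self hu')
    have e4 := h.norm_pos hud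
    have hE : 0 < N.E d := h
    exact div_le_div₀ (h.cross_pos hud).le e2 (by positivity) (by gcongr)

theorem CCW.ang_strictMono {d : N.D} (h : N.CCW d) : StrictMonoOn (N.ang d) (Icc 0 (N.L d)) := by
  intro t1 h1 t2 h2 h12
  obtain ⟨c, hc, h3⟩ := h.exists_rate
  have := h3 t1 t2 h1.1 h12.le h2.2
  nlinarith [mul_pos hc (sub_pos.2 h12)]

/-- total angle swept by an edge -/
def Dl (d : N.D) : ℝ := N.ang d (N.L d)

theorem CCW.Dl_pos {d : N.D} (h : N.CCW d) : 0 < N.Dl d := by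
  have := h.ang_strictMono (left_mem_Icc.2 (N.L_pos d).le) (right_mem_Icc.2 (N.L_pos d).le)
    (N.L_pos d)
  rwa [N.ang_zero] at this

theorem CCW.ang_mem {d : N.D} (h : N.CCW d) {t : ℝ} (ht : t ∈ Icc 0 (N.L d)) :
    N.ang d t ∈ Icc 0 (N.Dl d) := by
  have hm := h.ang_strictMono.monotoneOn
  constructor
  · rw [← N.ang_zero d]; exact hm (left_mem_Icc.2 (N.L_pos d).le) ht ht.1
  · exact hm ht (right_mem_Icc.2 (N.L_pos d).le) ht.2

/-- the time at which the angle `φ` is reached -/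
def Tm (d : N.D) (φ : ℝ) : ℝ := Function.invFunOn (N.ang d) (Icc 0 (N.L d)) φ

theorem CCW.Tm_spec {d : N.D} (h : N.CCW d) {φ : ℝ} (hφ : φ ∈ Icc 0 (N.Dl d)) :
    N.Tm d φ ∈ Icc 0 (N.L d) ∧ N.ang d (N.Tm d φ) = φ := by
  have h1 := intermediate_value_Icc (N.L_pos d).le h.continuousOn_ang
  rw [N.ang_zero] at h1
  obtain ⟨t, ht, hte⟩ := h1 hφ
  exact ⟨Function.invFunOn_mem ⟨t, ht, hte⟩, Function.invFunOn_eq ⟨t, ht, hte⟩⟩

theorem CCW.Tm_ang {d : N.D} (h : N.CCW d) {t : ℝ} (ht : t ∈ Icc 0 (N.L d)) :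
    N.Tm d (N.ang d t) = t := by
  have h1 := h.Tm_spec (h.ang_mem ht)
  exact h.ang_strictMono.injOn h1.1 ht h1.2

theorem CCW.Tm_zero {d : N.D} (h : N.CCW d) : N.Tm d 0 = 0 := by
  have := h.Tm_ang (left_mem_Icc.2 (N.L_pos d).le)
  rwa [N.ang_zero] at this

theorem CCW.Tm_Dl {d : N.D} (h : N.CCW d) : N.Tm d (N.Dl d) = N.L d :=
  h.Tm_ang (right_mem_Icc.2 (N.L_pos d).le)

theorem CCW.Tm_lt {d : N.D} (h : N.CCW d) {φ φ' : ℝ} (h0 : 0 ≤ φ) (h1 : φ < φ')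
    (h2 : φ' ≤ N.Dl d) : N.Tm d φ < N.Tm d φ' := by
  have e1 := h.Tm_spec (φ := φ) ⟨h0, h1.le.trans h2⟩
  have e2 := h.Tm_spec (φ := φ') ⟨h0.trans h1.le, h2⟩
  rw [← h.ang_strictMono.lt_iff_lt e1.1 e2.1, e1.2, e2.2]
  exact h1

theorem CCW.Tm_mem {d : N.D} (h : N.CCW d) {φ : ℝ} (hφ : φ ∈ Ioo 0 (N.Dl d)) :
    N.Tm d φ ∈ Ioo 0 (N.L d) := by
  constructor
  · have := h.Tm_lt le_rfl hφ.1 hφ.2.le
    rwa [h.Tm_zero] at this
  · have := h.Tm_lt hφ.1.le hφ.2 le_rfl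
    rwa [h.Tm_Dl] at this

theorem CCW.Tm_lip {d : N.D} (h : N.CCW d) : ∃ K > 0, ∀ φ ∈ Icc 0 (N.Dl d), ∀ φ' ∈ Icc 0 (N.Dl d),
    |N.Tm d φ - N.Tm d φ'| ≤ K * |φ - φ'| := by
  obtain ⟨c, hc, h3⟩ := h.exists_rate
  refine ⟨1 / c, by positivity, ?_⟩
  have key : ∀ φ ∈ Icc 0 (N.Dl d), ∀ φ' ∈ Icc 0 (N.Dl d), φ ≤ φ' →
      |N.Tm d φ - N.Tm d φ'| ≤ 1 / c * |φ - φ'| := by
    intro φ hφ φ' hφ' hle
    have e1 := h.Tm_spec hφ
    have e2 := h.Tm_spec hφ'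
    have e3 : N.Tm d φ ≤ N.Tm d φ' := by
      rcases eq_or_lt_of_le hle with h4 | h4
      · rw [h4]
      · exact (h.Tm_lt hφ.1 h4 hφ'.2).le
    have e4 := h3 _ _ e1.1.1 e3 e2.1.2
    rw [e1.2, e2.2] at e4
    rw [abs_sub_comm, abs_of_nonneg (sub_nonneg.2 e3), abs_sub_comm,
      abs_of_nonneg (sub_nonneg.2 hle)]
    rw [div_mul_eq_mul_div, one_mul, le_div_iff₀ hc]
    linarith
  intro φ hφ φ' hφ'
  rcases le_total φ φ' with h4 | h4
  · exact key φ hφ φ' hφ' h4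
  · rw [abs_sub_comm, abs_sub_comm φ φ']
    exact key φ' hφ' φ hφ h4

theorem CCW.continuousOn_Tm {d : N.D} (h : N.CCW d) :
    ContinuousOn (N.Tm d) (Icc 0 (N.Dl d)) := by
  obtain ⟨K, hK, h1⟩ := h.Tm_lip
  rw [Metric.continuousOn_iff]
  intro φ hφ ε hε
  refine ⟨ε / K, by positivity, fun φ' hφ' hd => ?_⟩
  rw [Real.dist_eq] at hd ⊢
  have := h1 φ' hφ' φ hφ
  calc _ ≤ K * |φ' - φ| := this
    _ < K * (ε / K) := by gcongr
    _ = ε := by field_simp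

theorem CCW.hasDerivAt_Tm {d : N.D} (h : N.CCW d) {φ : ℝ} (hφ : φ ∈ Ioo 0 (N.Dl d)) :
    HasDerivAt (N.Tm d) (‖N.z d (N.Tm d φ)‖ ^ 2 / cross (N.z d (N.Tm d φ))
      (dir (N.a d (N.Tm d φ)))) φ := by
  have hT := h.Tm_mem hφ
  have hTd : N.Tm d φ ∈ N.dom d := h.mem_dom.2 (Ioo_subset_Icc_self hT)
  have h1 := h.hasDerivAt_ang hT
  have hne : cross (N.z d (N.Tm d φ)) (dir (N.a d (N.Tm d φ))) / ‖N.z d (N.Tm d φ)‖ ^ 2 ≠ 0 :=
    (div_pos (h.cross_pos hTd) (by have := h.norm_pos hTd; positivity)).ne'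
  have h2 := HasDerivAt.of_local_left_inverse (f := N.ang d) (g := N.Tm d) (a := φ)
    ((h.continuousOn_Tm).continuousAt (Icc_mem_nhds hφ.1 hφ.2)) h1 hne (by
      filter_upwards [Icc_mem_nhds hφ.1 hφ.2] with y hy using (h.Tm_spec hy).2)
  rwa [inv_div] at h2

theorem CCW.hasDerivAt_norm {d : N.D} (h : N.CCW d) {t : ℝ} (ht : t ∈ Ioo 0 (N.L d)) :
    HasDerivAt (fun t => ‖N.z d t‖) (dot (N.z d t) (dir (N.a d t)) / ‖N.z d t‖) t := by
  have htd : t ∈ N.dom d := h.mem_dom.2 (Ioo_subset_Icc_self ht)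
  have hn := h.norm_pos htd
  have h1 := (N.geoL d).hasDerivAt_normSq ht
  have h2 := h1.sqrt (by positivity)
  have h3 : (fun t => Real.sqrt (‖N.z d t‖ ^ 2)) = fun t => ‖N.z d t‖ := by
    funext u; rw [Real.sqrt_sq (norm_nonneg _)]
  rw [h3, Real.sqrt_sq (norm_nonneg _)] at h2
  refine h2.congr_deriv ?_
  field_simp

theorem CCW.hasDerivAt_ps {d : N.D} (h : N.CCW d) {t : ℝ} (ht : t ∈ Ioo 0 (N.L d)) :
    HasDerivAt (N.ps d) (cross (N.z d t) (dir (N.a d t)) * (‖N.z d t‖ ^ 2 - 1) /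
      ‖N.z d t‖ ^ 2) t := by
  have htd : t ∈ N.dom d := h.mem_dom.2 (Ioo_subset_Icc_self ht)
  have hn := h.norm_pos htd
  have hp := h.ps_mem htd
  have hk := h.cross_pos htd
  have hc := N.cos_ps (h.ne_zero htd)
  have hs := N.sin_ps (h.ne_zero htd) hk.le
  have h1 := ((N.geoL d).hasDerivAt_dot ht).div (h.hasDerivAt_norm ht) hn.ne'
  have hsin : 0 < Real.sin (N.ps d t) := Real.sin_pos_of_mem_Ioo hp
  have hx1 : dot (N.z d t) (dir (N.a d t)) / ‖N.z d t‖ ≠ -1 := by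
    rw [← hc]; intro h0
    have := Real.sin_sq_add_cos_sq (N.ps d t)
    rw [h0] at this; nlinarith
  have hx2 : dot (N.z d t) (dir (N.a d t)) / ‖N.z d t‖ ≠ 1 := by
    rw [← hc]; intro h0
    have := Real.sin_sq_add_cos_sq (N.ps d t)
    rw [h0] at this; nlinarith
  have h2 := (Real.hasDerivAt_arccos hx1 hx2).comp t h1
  have e1 : Real.sqrt (1 - (dot (N.z d t) (dir (N.a d t)) / ‖N.z d t‖) ^ 2)
      = cross (N.z d t) (dir (N.a d t)) / ‖N.z d t‖ := by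
    rw [← hs, ← hc, ← Real.sin_arccos, Real.arccos_cos hp.1.le hp.2.le]
  refine h2.congr_deriv ?_
  rw [e1]
  have e2 := cross_sq_add_dot_sq_dir (N.z d t) (N.a d t)
  set κ := cross (N.z d t) (dir (N.a d t))
  set δ := dot (N.z d t) (dir (N.a d t))
  set r := ‖N.z d t‖
  have e3 : δ ^ 2 = r ^ 2 - κ ^ 2 := by linarith
  field_simp
  ring_nf
  rw [e3]
  ring

/-- radius as a function of the swept angle -/
def Rr (d : N.D) (φ : ℝ) : ℝ := ‖N.z d (N.Tm d φ)‖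

/-- angle as a function of the swept angle -/
def Bb (d : N.D) (φ : ℝ) : ℝ := N.ps d (N.Tm d φ)

theorem CCW.hasDerivAt_Rr {d : N.D} (h : N.CCW d) {φ : ℝ} (hφ : φ ∈ Ioo 0 (N.Dl d)) :
    HasDerivAt (N.Rr d) (N.Rr d φ * (Real.cos (N.Bb d φ) / Real.sin (N.Bb d φ))) φ := by
  have hT := h.Tm_mem hφ
  have hTd : N.Tm d φ ∈ N.dom d := h.mem_dom.2 (Ioo_subset_Icc_self hT)
  have hn := h.norm_pos hTd
  have hk := h.cross_pos hTd
  have h1 := (h.hasDerivAt_norm hT).comp φ (h.hasDerivAt_Tm hφ)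
  refine h1.congr_deriv ?_
  rw [Rr, Bb, N.cos_ps (h.ne_zero hTd), N.sin_ps (h.ne_zero hTd) hk.le]
  field_simp

theorem CCW.hasDerivAt_Bb {d : N.D} (h : N.CCW d) {φ : ℝ} (hφ : φ ∈ Ioo 0 (N.Dl d)) :
    HasDerivAt (N.Bb d) (N.Rr d φ ^ 2 - 1) φ := by
  have hT := h.Tm_mem hφ
  have hTd : N.Tm d φ ∈ N.dom d := h.mem_dom.2 (Ioo_subset_Icc_self hT)
  have hn := h.norm_pos hTd
  have hk := h.cross_pos hTd
  have h1 := (h.hasDerivAt_ps hT).comp φ (h.hasDerivAt_Tm hφ)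
  refine h1.congr_deriv ?_
  rw [Rr]
  field_simp

theorem CCW.continuousOn_ps {d : N.D} (h : N.CCW d) : ContinuousOn (N.ps d) (Icc 0 (N.L d)) := by
  apply Real.continuous_arccos.comp_continuousOn
  apply (N.geoL d).continuousOn_dot.div (N.geoL d).cz.norm
  intro t ht
  exact (h.norm_pos (h.mem_dom.2 ht)).ne'

theorem CCW.continuousOn_Rr {d : N.D} (h : N.CCW d) :
    ContinuousOn (N.Rr d) (Icc 0 (N.Dl d)) :=
  (N.geoL d).cz.norm.comp h.continuousOn_Tm (fun _ hφ => (h.Tm_spec hφ).1)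

theorem CCW.continuousOn_Bb {d : N.D} (h : N.CCW d) :
    ContinuousOn (N.Bb d) (Icc 0 (N.Dl d)) :=
  h.continuousOn_ps.comp h.continuousOn_Tm (fun _ hφ => (h.Tm_spec hφ).1)

theorem CCW.Rr_pos {d : N.D} (h : N.CCW d) {φ : ℝ} (hφ : φ ∈ Icc 0 (N.Dl d)) : 0 < N.Rr d φ :=
  h.norm_pos (h.mem_dom.2 (h.Tm_spec hφ).1)

theorem CCW.Bb_mem {d : N.D} (h : N.CCW d) {φ : ℝ} (hφ : φ ∈ Icc 0 (N.Dl d)) :
    N.Bb d φ ∈ Ioo 0 Real.pi :=
  h.ps_mem (h.mem_dom.2 (h.Tm_spec hφ).1)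

theorem CCW.z_Tm {d : N.D} (h : N.CCW d) {φ : ℝ} (hφ : φ ∈ Icc 0 (N.Dl d)) {θ : ℝ}
    (hθ : N.src d = (‖N.src d‖ : ℂ) * dir θ) :
    N.z d (N.Tm d φ) = (N.Rr d φ : ℂ) * dir (θ + φ) := by
  have h1 := h.polar (h.mem_dom.2 (h.Tm_spec hφ).1) hθ
  rw [(h.Tm_spec hφ).2] at h1
  exact h1

theorem CCW.E_polar {d : N.D} (h : N.CCW d) {φ : ℝ} (hφ : φ ∈ Icc 0 (N.Dl d)) :
    gg (N.Rr d φ) * Real.sin (N.Bb d φ) = N.E d := by
  have hTd : N.Tm d φ ∈ N.dom d := h.mem_dom.2 (h.Tm_spec hφ).1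
  have hn := h.norm_pos hTd
  rw [← N.E_eq hTd, gg, Rr, Bb, N.sin_ps (h.ne_zero hTd) (h.cross_pos hTd).le]
  field_simp

end Net

end

end Pool.Agent.MP_4c0f47_an
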