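import Pool.Agent.Lib.MP_4c0f47_an.Empty

set_option autoImplicit false

open Set Filter Topology Complex MeasureTheory

namespace Pool.Agent.MP_4c0f47_an

noncomputable section

namespace Net

variable {N : Net}

theorem rot_inj {d d' : N.D} (h : N.rot d = N.rot d') : d = d' := by
  have := congrArg (fun x => N.rot (N.rot x)) h
  simpa [N.rot3] using this

theorem rev_inj {d d' : N.D} (h : ¬ N.isRay d) (h' : ¬ N.isRay d') (he : N.rev d = N.rev d') :
    d = d' := by
  rw [← N.rev_rev d h, he, N.rev_rev d' h']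

theorem stp_inj (σ : Bool) {d d' : N.D} (h : ¬ N.isRay d) (h' : ¬ N.isRay d')
    (he : N.stp σ d = N.stp σ d') : d = d' := by
  cases σ
  · exact rev_inj h h' (rot_inj he)
  · exact rev_inj h h' (rot_inj (rot_inj he))

/-- maximal chains of counterclockwise edges -/
theorem exists_max (σ : Bool) {d0 : N.D} (h0 : N.CCW d0)
    (hp : ∀ p, N.CCW p → N.stp σ p ≠ d0) :
    ∃ n, 0 < n ∧ (∀ i < n, N.CCW ((N.stp σ)^[i] d0)) ∧ ¬ N.CCW ((N.stp σ)^[n] d0) := by
  classical
  have hex : ∃ n, ¬ N.CCW ((N.stp σ)^[n] d0) := by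
    by_contra hcon
    push Not at hcon
    -- two equal terms
    obtain ⟨i, j, hij, he⟩ := Finite.exists_ne_map_eq_of_infinite (fun n : ℕ => (N.stp σ)^[n] d0)
    have key : ∀ i j : ℕ, i < j → (N.stp σ)^[i] d0 = (N.stp σ)^[j] d0 → False := by
      intro i
      induction i with
      | zero =>
        intro j hj he
        obtain ⟨k, rfl⟩ : ∃ k, j = k + 1 := ⟨j - 1, by omega⟩
        rw [Function.iterate_succ_apply'] at he
        exact hp _ (hcon k) he.symm
      | succ i ih =>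
        intro j hj he
        obtain ⟨k, rfl⟩ : ∃ k, j = k + 1 := ⟨j - 1, by omega⟩
        rw [Function.iterate_succ_apply', Function.iterate_succ_apply'] at he
        exact ih k (by omega) (stp_inj σ (hcon i).arc (hcon k).arc he)
    rcases lt_or_gt_of_ne hij with h | h
    · exact key i j h he
    · exact key j i h he.symm
  refine ⟨Nat.find hex, ?_, ?_, Nat.find_spec hex⟩
  · rw [Nat.find_pos]
    simpa using h0
  · intro i hi
    have := Nat.find_min hex hi
    push Not at this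
    exact this

/-- radial edge leaving a point different from the origin outwards -/
def Out (d : N.D) : Prop := N.E d = 0 ∧ 0 < dot (N.src d) (dir (N.a d 0))

/-- leftmost vertex of a face (in the angular sense) -/
def Tip (e : N.D) : Prop := ¬ N.isRay e ∧ N.CCW (N.rot e) ∧ (N.CCW e ∨ N.Out e)

theorem Out.dir_eq {d : N.D} (h : N.Out d) {ϑ : ℝ} (hϑ : N.src d = (‖N.src d‖ : ℂ) * dir ϑ) :
    dir (N.a d 0) = dir ϑ := by
  have h1 := h.2
  have h2 := N.cross_zero h.1 (N.zero_mem_dom d)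
  have hs : N.z d 0 = N.src d := rfl
  rw [hs] at h2
  rw [hϑ, dot_eq_cos] at h1
  rw [hϑ, cross_eq_sin] at h2
  have hn : 0 < ‖N.src d‖ := by
    by_contra hcon
    have : ‖N.src d‖ = 0 := le_antisymm (not_lt.1 hcon) (norm_nonneg _)
    rw [this] at h1; simp at h1
  have h3 : Real.sin (N.a d 0 - ϑ) = 0 := by
    rcases mul_eq_zero.1 h2 with h | h
    · exact absurd h hn.ne'
    · exact h
  have h4 : 0 < Real.cos (N.a d 0 - ϑ) := (pos_iff_pos_of_mul_pos h1).1 hn
  have h5 : Real.cos (N.a d 0 - ϑ) = 1 := by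
    have := Real.sin_sq_add_cos_sq (N.a d 0 - ϑ)
    rw [h3] at this
    nlinarith
  have h6 : dir (N.a d 0 - ϑ) = 1 := by
    apply Complex.ext
    · rw [dir_re, h5]; simp
    · rw [dir_im, h3]; simp
  calc dir (N.a d 0) = dir (N.a d 0 - ϑ) * dir ϑ := by rw [← dir_add]; ring_nf
    _ = dir ϑ := by rw [h6, one_mul]

theorem Out.line {d : N.D} (h : N.Out d) {ϑ : ℝ} (hϑ : N.src d = (‖N.src d‖ : ℂ) * dir ϑ)
    {t : ℝ} (ht : t ∈ N.dom d) : N.z d t = ((‖N.src d‖ + t : ℝ) : ℂ) * dir ϑ := by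
  rw [N.z_line h.1 ht, h.dir_eq hϑ]
  conv_lhs => rw [hϑ]
  push_cast; ring

theorem Out.norm_pos {d : N.D} (h : N.Out d) : 0 < ‖N.src d‖ := by
  rw [norm_pos_iff]
  intro h0
  have := h.2
  rw [h0] at this
  simp [dot] at this

/-- a test for counterclockwise edges -/
theorem ccw_iff_sin {d : N.D} {ϑ x : ℝ} (hϑ : N.src d = (‖N.src d‖ : ℂ) * dir ϑ)
    (hn : 0 < ‖N.src d‖) (hd : dir (N.a d 0) = dir (ϑ + x)) : N.CCW d ↔ 0 < Real.sin x := by
  have h1 : cross (N.src d) (dir (N.a d 0)) = ‖N.src d‖ * Real.sin x := by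
    rw [hd]
    conv_lhs => rw [hϑ]
    rw [cross_eq_sin]; congr 2; ring
  rw [CCW, E, h1]
  constructor
  · intro h
    have h2 := (pos_iff_pos_of_mul_pos h).2 (Real.exp_pos _)
    exact (pos_iff_pos_of_mul_pos h2).1 hn
  · intro h
    have := Real.exp_pos (-(‖N.src d‖ ^ 2) / 2)
    positivity

theorem E_zero_of_sin {d : N.D} {ϑ x : ℝ} (hϑ : N.src d = (‖N.src d‖ : ℂ) * dir ϑ)
    (hd : dir (N.a d 0) = dir (ϑ + x)) (hx : Real.sin x = 0) : N.E d = 0 := by
  have h1 : cross (N.src d) (dir (N.a d 0)) = ‖N.src d‖ * Real.sin x := by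
    rw [hd]
    conv_lhs => rw [hϑ]
    rw [cross_eq_sin]; congr 2; ring
  rw [E, h1, hx]; ring

theorem CCW.ps_eq {d : N.D} (h : N.CCW d) {ϑ x : ℝ} (hϑ : N.src d = (‖N.src d‖ : ℂ) * dir ϑ)
    (hd : dir (N.a d 0) = dir (ϑ + x)) (hx : x ∈ Ioo 0 Real.pi) : N.ps d 0 = x := by
  have h1 := h.dir_a (N.zero_mem_dom d) hϑ
  rw [hd] at h1
  have h2 := h.ps_mem (N.zero_mem_dom d)
  have h3 := dir_inj_of_lt h1 (by
    rw [abs_lt]; constructor <;> linarith [h2.1, h2.2, hx.1, hx.2, Real.pi_pos])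
  linarith

end Net

end

end Pool.Agent.MP_4c0f47_an
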