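import Pool.Agent.Lib.MP_4c0f47_an.SweepA

set_option autoImplicit false

open Set Filter Topology Complex MeasureTheory

namespace Pool.Agent.MP_4c0f47_an

noncomputable section

/-- data of a sweep starting at a tip: maximal outer and inner chains -/
structure Swp (N : Net) where
  e : N.D
  tip : N.Tip e
  ϑ : ℝ
  hϑ : N.src e = (‖N.src e‖ : ℂ) * dir ϑ
  co : CS N
  ci : CS N
  coσ : co.σ = true
  ciσ : ci.σ = false
  coX : co.X0 = ϑ
  ciX : ci.X0 = ϑ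
  cid : ci.d0 = N.rot e
  cod : (N.CCW e ∧ co.d0 = e) ∨ (N.Out e ∧ co.d0 = N.left e)
  comax : ¬ N.CCW (co.e co.n)
  cimax : ¬ N.CCW (ci.e ci.n)

namespace Net

variable {N : Net}

theorem Tip.norm_pos {e : N.D} (h : N.Tip e) : 0 < ‖N.src e‖ := by
  rcases h.2.2 with h1 | h1
  · exact h1.norm_pos (N.zero_mem_dom e)
  · exact h1.norm_pos

theorem exists_polar (w : ℂ) : ∃ ϑ : ℝ, w = (‖w‖ : ℂ) * dir ϑ :=
  ⟨Complex.arg w, (Complex.norm_mul_exp_arg_mul_I w).symm⟩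

theorem left_rev_rot {e : N.D} (h : ¬ N.isRay (N.rot e)) : N.left (N.rev (N.rot e)) = e := by
  rw [left, N.rev_rev _ h, N.rot3]

/-- for a radial tip, the edge after the wall -/
theorem Out.left_ccw {e : N.D} (h : N.Out e) (hr : ¬ N.isRay e) {ϑ : ℝ}
    (hϑ : N.src e = (‖N.src e‖ : ℂ) * dir ϑ) :
    N.CCW (N.left e) ∧ N.ps (N.left e) 0 = Real.pi / 3 ∧
      N.src (N.left e) = (‖N.src (N.left e)‖ : ℂ) * dir ϑ ∧
      ‖N.src (N.left e)‖ = ‖N.src e‖ + N.L e := by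
  have h1 := h.line hϑ (N.L_mem_dom e)
  have h2 : N.src (N.left e) = ((‖N.src e‖ + N.L e : ℝ) : ℂ) * dir ϑ := by
    rw [N.src_left hr]; exact h1
  have hpos : 0 < ‖N.src e‖ + N.L e := by linarith [h.norm_pos, N.L_pos e]
  have h3 : ‖N.src (N.left e)‖ = ‖N.src e‖ + N.L e := by
    rw [h2, norm_mul_dir, abs_of_pos hpos]
  have h4 : N.src (N.left e) = (‖N.src (N.left e)‖ : ℂ) * dir ϑ := by rw [h3]; exact h2
  have h5 : dir (N.a (N.left e) 0) = dir (ϑ + Real.pi / 3) := by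
    rw [N.dir_left hr, dir_add, N.a_const h.1 (N.L_mem_dom e), h.dir_eq hϑ, ← dir_add]
  have hp := Real.pi_pos
  have h6 : N.CCW (N.left e) := by
    rw [N.ccw_iff_sin h4 (by rw [h3]; exact hpos) h5]
    exact Real.sin_pos_of_pos_of_lt_pi (by positivity) (by linarith)
  exact ⟨h6, h6.ps_eq h4 h5 ⟨by positivity, by linarith⟩, h4, h3⟩

theorem exists_swp {e : N.D} (h : N.Tip e) : ∃ S : Swp N, S.e = e := by
  obtain ⟨ϑ, hϑ⟩ := exists_polar (N.src e)
  have hrot : N.src (N.rot e) = N.src e := N.src_rot e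
  -- inner chain
  have hi : ∀ p, N.CCW p → N.stp false p ≠ N.rot e := by
    intro p hp he
    have h1 : N.rev p = e := rot_inj he
    have h2 : N.rev e = p := by rw [← h1, N.rev_rev _ hp.arc]
    rcases h.2.2 with h3 | h3
    · exact h3.not_rev (by rw [h2]; exact hp)
    · have h4 : N.E p = 0 := by rw [← h2, N.E_rev h.1, h3.1, neg_zero]
      have : 0 < N.E p := hp
      linarith
  obtain ⟨ni, hni, hni1, hni2⟩ := exists_max false h.2.1 hi
  -- outer chain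
  rcases h.2.2 with h3 | h3
  · have ho : ∀ p, N.CCW p → N.stp true p ≠ e := by
      intro p hp he
      have h1 := left_rev_rot (e := e) h.2.1.arc
      have h2 : p = N.rev (N.rot e) := stp_inj true hp.arc (N.rev_ray _ h.2.1.arc)
        (he.trans h1.symm)
      exact h.2.1.not_rev (by rw [← h2]; exact hp)
    obtain ⟨no, hno, hno1, hno2⟩ := exists_max true h3 ho
    exact ⟨⟨e, h, ϑ, hϑ, ⟨true, e, no, ϑ, hno, hno1, hϑ⟩,
      ⟨false, N.rot e, ni, ϑ, hni, hni1, by rw [hrot]; exact hϑ⟩, rfl, rfl, rfl, rfl, rfl,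
      Or.inl ⟨h3, rfl⟩, hno2, hni2⟩, rfl⟩
  · obtain ⟨h4, h5, h6, h7⟩ := h3.left_ccw h.1 hϑ
    have ho : ∀ p, N.CCW p → N.stp true p ≠ N.left e := by
      intro p hp he
      have h2 : p = e := stp_inj true hp.arc h.1 he
      have : 0 < N.E p := hp
      rw [h2, h3.1] at this
      exact lt_irrefl _ this
    obtain ⟨no, hno, hno1, hno2⟩ := exists_max true h4 ho
    exact ⟨⟨e, h, ϑ, hϑ, ⟨true, N.left e, no, ϑ, hno, hno1, h6⟩,
      ⟨false, N.rot e, ni, ϑ, hni, hni1, by rw [hrot]; exact hϑ⟩, rfl, rfl, rfl, rfl, rfl,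
      Or.inr ⟨h3, rfl⟩, hno2, hni2⟩, rfl⟩

/-- an edge leaving a point of the ray of angle `ϑ` with decreasing angle -/
theorem down_im {f : N.D} {ϑ : ℝ} (hf : N.src f = (‖N.src f‖ : ℂ) * dir ϑ)
    (hs : Real.sin (N.a f 0 - ϑ) ≤ -1 / 2) :
    ∃ ε > 0, ∀ t ∈ N.dom f, t < ε → (N.z f t * (starRingEnd ℂ) (dir ϑ)).im ≤ 0 := by
  set M := ‖N.src f‖ + 1 with hM
  have hMpos : 0 < M := by positivity
  refine ⟨min 1 (1 / (4 * M)), by positivity, ?_⟩
  intro t ht htε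
  have ht1 : t ≤ 1 := (lt_of_lt_of_le htε (min_le_left _ _)).le
  have ht2 : t ≤ 1 / (4 * M) := (lt_of_lt_of_le htε (min_le_right _ _)).le
  have h1 := (N.near_src f ht ht1).2
  have e5 : M * t ≤ 1 / 4 := by
    calc M * t ≤ M * (1 / (4 * M)) := by gcongr
      _ = 1 / 4 := by field_simp
  set q := N.z f t - N.src f - (t : ℂ) * dir (N.a f 0) with hq
  have e0 : N.z f t = N.src f + (t : ℂ) * dir (N.a f 0) + q := by rw [hq]; ring
  have him : (N.src f * (starRingEnd ℂ) (dir ϑ)).im = 0 := by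
    rw [hf, mul_assoc, conj_dir_mul]; simp [dir_zero]
  rw [e0, add_mul, add_mul, Complex.add_im, Complex.add_im, him, zero_add, mul_assoc,
    conj_dir_mul, Complex.im_ofReal_mul, dir_im]
  have h2 : |(q * (starRingEnd ℂ) (dir ϑ)).im| ≤ 1 / 4 * t := by
    calc _ ≤ ‖q * (starRingEnd ℂ) (dir ϑ)‖ := Complex.abs_im_le_norm _
      _ = ‖q‖ := by rw [norm_mul, Complex.norm_conj, norm_dir, mul_one]
      _ ≤ 1 / 4 * t := h1.trans (mul_le_mul_of_nonneg_right e5 ht.1)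
  have h3 := (abs_le.1 h2).2
  have ht0 := ht.1
  nlinarith

theorem im_polar (r θ ϑ : ℝ) :
    (((r : ℂ) * dir θ) * (starRingEnd ℂ) (dir ϑ)).im = r * Real.sin (θ - ϑ) := by
  rw [mul_assoc, conj_dir_mul, Complex.im_ofReal_mul, dir_im]

end Net

namespace Swp

variable {N : Net} (S : Swp N)

def a : ℝ → ℝ := S.ci.b
def α : ℝ → ℝ := S.ci.β
def b : ℝ → ℝ := S.co.b
def β : ℝ → ℝ := S.co.β

theorem co_s : S.co.s = S.ϑ := S.coX
theorem ci_s : S.ci.s = S.ϑ := S.ciX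

theorem sg_co : sg S.co.σ = 1 := by rw [S.coσ]; rfl
theorem sg_ci : sg S.ci.σ = -1 := by rw [S.ciσ]; rfl

theorem chain_co : Chain 1 S.b S.β S.co.C S.ϑ S.co.t := by
  have := S.co.chain; rw [S.sg_co, S.co_s] at this; exact this

theorem chain_ci : Chain (-1) S.a S.α S.ci.C S.ϑ S.ci.t := by
  have := S.ci.chain; rw [S.sg_ci, S.ci_s] at this; exact this

theorem α_start : S.α S.ϑ = N.ps (N.rot S.e) 0 := by
  have := S.ci.β_s; rw [S.ci_s, S.cid] at this; exact this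

theorem a_start : S.a S.ϑ = ‖N.src S.e‖ := by
  have := S.ci.b_s; rw [S.ci_s, S.cid, N.src_rot] at this; exact this

/-- starting configuration -/
theorem start : ∃ i : ℕ, (i = 1 ∧ S.a S.ϑ = S.b S.ϑ ∧ S.α S.ϑ = S.β S.ϑ + 2 * Real.pi / 3) ∨
    (i = 2 ∧ S.a S.ϑ < S.b S.ϑ ∧ S.β S.ϑ = Real.pi / 3 ∧ S.α S.ϑ = 2 * Real.pi / 3) := by
  have hβ := S.co.β_s
  have hb := S.co.b_s
  rw [S.co_s] at hβ hb
  have hrs : N.src (N.rot S.e) = (‖N.src (N.rot S.e)‖ : ℂ) * dir S.ϑ := by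
    rw [N.src_rot]; exact S.hϑ
  have hrc := S.tip.2.1
  have hrm := hrc.ps_mem (N.zero_mem_dom _)
  have hp := Real.pi_pos
  rcases S.cod with ⟨h1, h2⟩ | ⟨h1, h2⟩
  · refine ⟨1, Or.inl ⟨rfl, ?_, ?_⟩⟩
    · rw [S.a_start, b, hb, h2]
    · rw [S.α_start, Swp.β, hβ, h2]
      have h3 := h1.dir_a (N.zero_mem_dom _) S.hϑ
      have h4 := hrc.dir_a (N.zero_mem_dom _) hrs
      have h5 := N.a_rot S.e
      rw [dir_add, h3, ← dir_add, h4] at h5
      have h6 := h1.ps_mem (N.zero_mem_dom _)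
      have h7 := dir_inj_of_lt h5 (by
        rw [abs_lt]; constructor <;> linarith [h6.1, h6.2, hrm.1, hrm.2])
      linarith
  · refine ⟨2, Or.inr ⟨rfl, ?_, ?_, ?_⟩⟩
    · rw [S.a_start, b, hb, h2, (h1.left_ccw S.tip.1 S.hϑ).2.2.2]
      linarith [N.L_pos S.e]
    · rw [Swp.β, hβ, h2]; exact (h1.left_ccw S.tip.1 S.hϑ).2.1
    · rw [S.α_start]
      have h5 := N.a_rot S.e
      rw [dir_add, h1.dir_eq S.hϑ, ← dir_add] at h5
      exact hrc.ps_eq hrs (by rw [h5]) ⟨by positivity, by linarith⟩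

end Swp

end

end Pool.Agent.MP_4c0f47_an
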