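import Pool.Agent.Lib.MP_4c0f47_an.SweepB

set_option autoImplicit false

open Set Filter Topology Complex MeasureTheory

namespace Pool.Agent.MP_4c0f47_an

noncomputable section

theorem sin_le_neg_half {x : ℝ} (h1 : 4 * Real.pi / 3 ≤ x) (h2 : x ≤ 5 * Real.pi / 3) :
    Real.sin x ≤ -1 / 2 := by
  have h3 : Real.sin x = - Real.cos (x - 3 * Real.pi / 2) := by
    rw [Real.cos_sub, show (3 * Real.pi / 2) = Real.pi / 2 + Real.pi by ring, Real.cos_add_pi,
      Real.sin_add_pi]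
    simp
  rw [h3]
  have := Net.cos_ge_half' (x := x - 3 * Real.pi / 2) (by
    rw [abs_le]; constructor <;> linarith [Real.pi_pos])
  linarith

namespace Swp

variable {N : Net} (S : Swp N)

/-- an edge staying in angles at most `ϑ` near its source -/
def Dn (d : N.D) (ϑ : ℝ) : Prop :=
  ∃ ε > 0, ∀ t ∈ N.dom d, t < ε → (N.z d t * (starRingEnd ℂ) (dir ϑ)).im ≤ 0

theorem dn_radial {d : N.D} {ϑ : ℝ} (h : ∀ t ∈ N.dom d, ∃ r : ℝ, N.z d t = (r : ℂ) * dir ϑ) :
    Dn d ϑ := by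
  refine ⟨1, one_pos, fun t ht _ => ?_⟩
  obtain ⟨r, hr⟩ := h t ht
  rw [hr, Net.im_polar, sub_self, Real.sin_zero, mul_zero]

theorem vertex_L {r0 : ℝ} (hr0 : 0 < r0) {e0 : N.D} (hv : N.src e0 = (r0 : ℂ) * dir S.ϑ)
    (hd : ∀ d, N.src d = N.src e0 → d = S.co.d0 ∨ d = S.ci.d0 ∨ Dn d S.ϑ) :
    ∃ ε > 0, ∀ r θ : ℝ, 0 < r → |r - r0| < ε → S.ϑ < θ → θ < S.ϑ + ε →
      (r : ℂ) * dir θ ∈ N.carrier → ¬ (S.a θ < r ∧ r < S.b θ) := by
  have hp := Real.pi_pos
  -- thresholds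
  obtain ⟨δ1, hδ1, hA1⟩ := S.co.ang_near S.co.npos (τ := 0) ⟨le_rfl, (N.L_pos _).le⟩ hp
  obtain ⟨δ2, hδ2, hA2⟩ := S.ci.ang_near S.ci.npos (τ := 0) ⟨le_rfl, (N.L_pos _).le⟩ hp
  have key : ∀ d : N.D, ∃ ε > 0, Dn d S.ϑ → ∀ t ∈ N.dom d, t < ε →
      (N.z d t * (starRingEnd ℂ) (dir S.ϑ)).im ≤ 0 := by
    intro d
    by_cases h : Dn d S.ϑ
    · obtain ⟨ε, hε, h1⟩ := h
      exact ⟨ε, hε, fun _ => h1⟩
    · exact ⟨1, one_pos, fun h' => absurd h' h⟩
  choose ε hε hε2 using key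
  obtain ⟨ε0, hε0, hmin⟩ : ∃ ε0 > 0, ∀ d, ε0 ≤ ε d := by
    have : Nonempty N.D := ⟨e0⟩
    obtain ⟨d0, -, hd0⟩ := Finset.exists_min_image (Finset.univ : Finset N.D) ε
      Finset.univ_nonempty
    exact ⟨ε d0, hε d0, fun d => hd0 d (Finset.mem_univ _)⟩
  obtain ⟨ρ, hρ, hball⟩ := N.exists_ball_vertex (v := N.src e0) ⟨e0, rfl⟩
    (ε := min ε0 (min δ1 δ2)) (by positivity)
  set M := |r0| + 1 with hM
  have hMpos : 0 < M := by positivity
  refine ⟨min Real.pi (ρ / (2 * M)), by positivity, ?_⟩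
  intro r θ hr hr1 hθ1 hθ2 hc ⟨hlt1, hlt2⟩
  have q1 : |r - r0| < ρ / (2 * M) := lt_of_lt_of_le hr1 (min_le_right _ _)
  have q2 : |θ - S.ϑ| < ρ / (2 * M) := by
    rw [abs_of_pos (by linarith)]
    linarith [min_le_right Real.pi (ρ / (2 * M))]
  have q3 : |θ - S.ϑ| < Real.pi := by
    rw [abs_of_pos (by linarith)]
    linarith [min_le_left Real.pi (ρ / (2 * M))]
  have h5 : ‖(r : ℂ) * dir θ - N.src e0‖ < ρ := by
    rw [hv]
    refine lt_of_le_of_lt (Net.norm_polar_sub_le _ _ _ _) ?_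
    have e3 : |r0| * |θ - S.ϑ| ≤ |r0| * (ρ / (2 * M)) := by gcongr
    have e4 : ρ / (2 * M) + |r0| * (ρ / (2 * M)) = ρ / 2 := by
      rw [hM]; field_simp; ring
    linarith
  obtain ⟨d, hdsrc, t, htd, htε, he⟩ := hball _ hc h5
  simp only [lt_min_iff] at htε
  rcases hd d hdsrc with h6 | h6 | h6
  · -- on the outer chain
    subst h6
    have hC := S.co.e_ccw S.co.npos
    have hs2 : t ∈ Icc 0 (N.L (S.co.e 0)) := hC.mem_dom.1 htd
    have h7 := S.co.on_edge S.co.npos (s' := t) (x := S.ϑ) hs2 hr he.symm q3 (by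
      have e1 := hA1 t hs2 (by rw [sub_zero, abs_of_nonneg hs2.1]; exact htε.2.1)
      have e0 : S.co.X 0 = S.ϑ := S.coX
      have e2 : S.co.X 0 + N.ang (S.co.e 0) t - S.ϑ
        = N.ang (S.co.e 0) t - N.ang (S.co.e 0) 0 := by
        rw [N.ang_zero, e0]; ring
      rw [e2]; exact e1)
    have : S.b θ = r := h7.2.2
    linarith
  · subst h6
    have hC := S.ci.e_ccw S.ci.npos
    have hs2 : t ∈ Icc 0 (N.L (S.ci.e 0)) := hC.mem_dom.1 htd
    have h7 := S.ci.on_edge S.ci.npos (s' := t) (x := S.ϑ) hs2 hr he.symm q3 (by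
      have e1 := hA2 t hs2 (by rw [sub_zero, abs_of_nonneg hs2.1]; exact htε.2.2)
      have e0 : S.ci.X 0 = S.ϑ := S.ciX
      have e2 : S.ci.X 0 + N.ang (S.ci.e 0) t - S.ϑ
        = N.ang (S.ci.e 0) t - N.ang (S.ci.e 0) 0 := by
        rw [N.ang_zero, e0]; ring
      rw [e2]; exact e1)
    have : S.a θ = r := h7.2.2
    linarith
  · have h7 := hε2 d h6 t htd (lt_of_lt_of_le htε.1 (hmin d))
    rw [he, Net.im_polar] at h7
    have h8 : 0 < Real.sin (θ - S.ϑ) := by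
      apply Real.sin_pos_of_pos_of_lt_pi (by linarith)
      have := (abs_lt.1 q3).2
      linarith
    nlinarith [mul_pos hr h8]

theorem dn_of_dir {d : N.D} {ϑ x : ℝ} (hd : N.src d = (‖N.src d‖ : ℂ) * dir ϑ)
    (h : dir (N.a d 0) = dir (ϑ + x)) (hx : Real.sin x ≤ -1 / 2) : Dn d ϑ := by
  apply N.down_im hd
  have h1 : dir (N.a d 0 - ϑ) = dir x := by
    rw [dir_sub, h, ← dir_sub]; ring_nf
  have h2 := congrArg Complex.im h1
  rw [dir_im, dir_im] at h2
  rw [h2]; exact hx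

theorem hL : ∀ r0 ∈ Icc (S.a S.ϑ) (S.b S.ϑ), ∃ ε > 0, ∀ r θ : ℝ, 0 < r → |r - r0| < ε →
    S.ϑ < θ → θ < S.ϑ + ε → (r : ℂ) * dir θ ∈ N.carrier → ¬ (S.a θ < r ∧ r < S.b θ) := by
  intro r0 hr0
  have hp := Real.pi_pos
  have hn := S.tip.norm_pos
  have hrot2src : N.src (N.rot (N.rot S.e)) = (‖N.src (N.rot (N.rot S.e))‖ : ℂ) * dir S.ϑ := by
    rw [N.src_rot, N.src_rot]; exact S.hϑ
  have hrc := S.tip.2.1
  have hrm := hrc.ps_mem (N.zero_mem_dom _)
  have hα := S.α_start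
  have hbs := S.co.b_s
  rw [S.co_s] at hbs
  rcases S.cod with ⟨h1, h2⟩ | ⟨h1, h2⟩
  · -- tip
    have hb : S.b S.ϑ = ‖N.src S.e‖ := by rw [b, hbs, h2]
    rw [S.a_start, hb] at hr0
    have hr0' : r0 = ‖N.src S.e‖ := le_antisymm hr0.2 hr0.1
    have h6 := h1.ps_mem (N.zero_mem_dom _)
    obtain ⟨i, h3⟩ := S.start
    have h4 : N.ps (N.rot S.e) 0 = N.ps S.e 0 + 2 * Real.pi / 3 := by
      have hβs : S.β S.ϑ = N.ps S.e 0 := by
        have := S.co.β_s; rw [S.co_s, h2] at this; exact this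
      rcases h3 with ⟨_, _, h3⟩ | ⟨_, h3, _⟩
      · rw [← hα, h3, hβs]
      · rw [S.a_start, hb] at h3; exact absurd h3 (lt_irrefl _)
    apply S.vertex_L (r0 := r0) (by rw [hr0']; exact hn) (e0 := S.e) (by rw [hr0']; exact S.hϑ)
    intro d hd
    rcases N.vertex_cases hd with h5 | h5 | h5
    · left; rw [h5, h2]
    · right; left; rw [h5, S.cid]
    · right; right
      rw [h5]
      refine dn_of_dir (x := N.ps S.e 0 + 4 * Real.pi / 3) hrot2src ?_ ?_
      · rw [N.rot_dir2, h1.dir_a (N.zero_mem_dom _) S.hϑ, ← dir_add]; ring_nf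
      · apply sin_le_neg_half <;> linarith [h6.1, hrm.2]
  · -- wall
    have hlc := h1.left_ccw S.tip.1 S.hϑ
    have hb : S.b S.ϑ = ‖N.src S.e‖ + N.L S.e := by rw [b, hbs, h2, hlc.2.2.2]
    rw [S.a_start, hb] at hr0
    have hline : ∀ t ∈ N.dom S.e, N.z S.e t = ((‖N.src S.e‖ + t : ℝ) : ℂ) * dir S.ϑ :=
      fun t ht => h1.line S.hϑ ht
    rcases eq_or_lt_of_le hr0.1 with h3 | h3
    · -- lower vertex
      apply S.vertex_L (r0 := r0) (by rw [← h3]; exact hn) (e0 := S.e) (by rw [← h3]; exact S.hϑ)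
      intro d hd
      rcases N.vertex_cases hd with h5 | h5 | h5
      · right; right
        rw [h5]
        exact dn_radial (fun t ht => ⟨_, hline t ht⟩)
      · right; left; rw [h5, S.cid]
      · right; right
        rw [h5]
        refine dn_of_dir (x := 4 * Real.pi / 3) hrot2src ?_ ?_
        · rw [N.rot_dir2, h1.dir_eq S.hϑ, ← dir_add]
        · apply sin_le_neg_half <;> linarith
    rcases eq_or_lt_of_le hr0.2 with h4 | h4
    · -- upper vertex
      have hr := S.tip.1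
      have htgt : N.tgt S.e = ((‖N.src S.e‖ + N.L S.e : ℝ) : ℂ) * dir S.ϑ :=
        hline _ (N.L_mem_dom _)
      have hLp := N.L_pos S.e
      apply S.vertex_L (r0 := r0) (by rw [h4]; linarith) (e0 := N.left S.e)
        (by rw [N.src_left hr, h4]; exact htgt)
      intro d hd
      rw [N.src_left hr] at hd
      rcases N.vertex_three (σ := true) hr hd with h5 | h5 | h5
      · right; right
        rw [h5]
        apply dn_radial
        intro t ht
        have ht' : t ∈ Icc 0 (N.L S.e) := by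
          rw [N.dom_eq_arc (N.rev_ray _ hr), N.L_rev _ hr] at ht
          exact ht
        rw [N.z_rev _ hr _ ht']
        exact ⟨_, hline _ (by rw [N.dom_eq_arc hr]; exact ⟨by linarith [ht'.2], by linarith [ht'.1]⟩)⟩
      · left; rw [h5, h2]; rfl
      · right; right
        rw [h5]
        have hsrc : N.src (N.stp (!true) S.e)
            = (‖N.src (N.stp (!true) S.e)‖ : ℂ) * dir S.ϑ := by
          rw [N.src_stp _ hr, htgt, norm_mul_dir, abs_of_pos (by linarith)]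
        refine dn_of_dir (x := 5 * Real.pi / 3) hsrc ?_ ?_
        · rw [N.dir_stp _ hr, dir_add, N.a_const h1.1 (N.L_mem_dom _), h1.dir_eq S.hϑ, ← dir_add,
            dir_eq_iff]
          exact ⟨-1, by simp [sg]; ring⟩
        · apply sin_le_neg_half <;> linarith
    · -- inside the wall
      have hr := S.tip.1
      set t0 := r0 - ‖N.src S.e‖ with ht0
      have ht0' : t0 ∈ N.int S.e := by
        rw [N.int_eq_arc hr]; exact ⟨by rw [ht0]; linarith, by rw [ht0]; linarith⟩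
      obtain ⟨ρ, hρ, hball⟩ := N.exists_ball_regular S.e ht0' one_pos
      have hz0 : N.z S.e t0 = (r0 : ℂ) * dir S.ϑ := by
        rw [hline _ (N.int_subset_dom _ ht0')]; congr 2; rw [ht0]; ring
      set M := |r0| + 1 with hM
      have hMpos : 0 < M := by positivity
      refine ⟨min Real.pi (ρ / (2 * M)), by positivity, ?_⟩
      intro r θ hr' hr1 hθ1 hθ2 hc _
      have q1 : |r - r0| < ρ / (2 * M) := lt_of_lt_of_le hr1 (min_le_right _ _)
      have q2 : |θ - S.ϑ| < ρ / (2 * M) := by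
        rw [abs_of_pos (by linarith)]
        linarith [min_le_right Real.pi (ρ / (2 * M))]
      have q3 : θ - S.ϑ < Real.pi := by
        linarith [min_le_left Real.pi (ρ / (2 * M))]
      have h5 : ‖(r : ℂ) * dir θ - N.z S.e t0‖ < ρ := by
        rw [hz0]
        refine lt_of_le_of_lt (Net.norm_polar_sub_le _ _ _ _) ?_
        have e3 : |r0| * |θ - S.ϑ| ≤ |r0| * (ρ / (2 * M)) := by gcongr
        have e4 : ρ / (2 * M) + |r0| * (ρ / (2 * M)) = ρ / 2 := by
          rw [hM]; field_simp; ring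
        linarith
      obtain ⟨d', s', hs', he⟩ := mem_iUnion.1 hc
      have key : ∃ r1 : ℝ, N.z d' s' = (r1 : ℂ) * dir S.ϑ := by
        rcases hball d' s' hs' (by rw [he]; exact h5) with ⟨h6, _⟩ | ⟨_, h7, _⟩
        · rw [h6]; rw [h6] at hs'; exact ⟨_, hline _ hs'⟩
        · rw [h7]; rw [h7] at hs'
          have ht' : s' ∈ Icc 0 (N.L S.e) := by
            rw [N.dom_eq_arc (N.rev_ray _ hr), N.L_rev _ hr] at hs'
            exact hs'
          rw [N.z_rev _ hr _ ht']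
          exact ⟨_, hline _ (by
            rw [N.dom_eq_arc hr]; exact ⟨by linarith [ht'.2], by linarith [ht'.1]⟩)⟩
      obtain ⟨r1, hr1e⟩ := key
      rw [he] at hr1e
      have h6 := congrArg (fun w => (w * (starRingEnd ℂ) (dir S.ϑ)).im) hr1e
      simp only [Net.im_polar, sub_self, Real.sin_zero, mul_zero] at h6
      have h8 : 0 < Real.sin (θ - S.ϑ) := Real.sin_pos_of_pos_of_lt_pi (by linarith) q3
      rcases mul_eq_zero.1 h6 with h9 | h9
      · exact hr'.ne' h9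
      · exact h8.ne' h9

end Swp

end

end Pool.Agent.MP_4c0f47_an
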