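import Pool.Agent.Lib.MP_4c0f47_an.SweepC

set_option autoImplicit false

open Set Filter Topology Complex MeasureTheory

namespace Pool.Agent.MP_4c0f47_an

noncomputable section

theorem cot_lt {x y : ℝ} (hx : x ∈ Ioo 0 Real.pi) (hy : y ∈ Ioo 0 Real.pi) (h : x < y) :
    Real.cos y / Real.sin y < Real.cos x / Real.sin x := by
  have h1 := Real.sin_pos_of_mem_Ioo hx
  have h2 := Real.sin_pos_of_mem_Ioo hy
  rw [div_lt_div_iff₀ h2 h1]
  have h3 : 0 < Real.sin (y - x) :=
    Real.sin_pos_of_pos_of_lt_pi (by linarith) (by linarith [hx.1, hy.2])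
  rw [Real.sin_sub] at h3
  linarith

/-- the ratio `b/a` increases when `β < α` -/
theorem log_ratio_lt {a α b β : ℝ → ℝ} {x y : ℝ} (hxy : x < y)
    (hac : ContinuousOn a (Icc x y)) (hbc : ContinuousOn b (Icc x y))
    (ha : ∀ u ∈ Icc x y, 0 < a u) (hb : ∀ u ∈ Icc x y, 0 < b u)
    (hda : ∀ u ∈ Ioo x y, HasDerivAt a (a u * (Real.cos (α u) / Real.sin (α u))) u)
    (hdb : ∀ u ∈ Ioo x y, HasDerivAt b (b u * (Real.cos (β u) / Real.sin (β u))) u)
    (hα : ∀ u ∈ Ioo x y, α u ∈ Ioo 0 Real.pi) (hβ : ∀ u ∈ Ioo x y, β u ∈ Ioo 0 Real.pi)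
    (hlt : ∀ u ∈ Ioo x y, β u < α u) :
    Real.log (b x) - Real.log (a x) < Real.log (b y) - Real.log (a y) := by
  have hc : ContinuousOn (fun u => Real.log (b u) - Real.log (a u)) (Icc x y) :=
    (hbc.log (fun u hu => (hb u hu).ne')).sub (hac.log (fun u hu => (ha u hu).ne'))
  have h1 := strictMonoOn_of_deriv_pos (convex_Icc x y) hc (by
    rw [interior_Icc]
    intro u hu
    have hu' := Ioo_subset_Icc_self hu
    have e1 : HasDerivAt (fun u => Real.log (b u) - Real.log (a u))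
        (b u * (Real.cos (β u) / Real.sin (β u)) / b u
          - a u * (Real.cos (α u) / Real.sin (α u)) / a u) u :=
      ((hdb u hu).log (hb u hu').ne').sub ((hda u hu).log (ha u hu').ne')
    rw [e1.deriv, mul_div_cancel_left₀ _ (hb u hu').ne', mul_div_cancel_left₀ _ (ha u hu').ne']
    have := cot_lt (hβ u hu) (hα u hu) (hlt u hu)
    linarith)
  exact h1 (left_mem_Icc.2 hxy.le) (right_mem_Icc.2 hxy.le) hxy

namespace CS

variable {N : Net} (c : CS N)

theorem exists_piece_left {x : ℝ} (h : x ∈ Ioc c.s c.t) :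
    ∃ i < c.n, c.X i < x ∧ x ≤ c.X (i + 1) := by
  obtain ⟨i, hi, h1, h2⟩ := c.exists_piece ⟨h.1.le, h.2⟩
  rcases eq_or_lt_of_le h1 with h3 | h3
  · rcases Nat.eq_zero_or_pos i with h4 | h4
    · rw [h4] at h3
      exact absurd h.1 (by rw [← h3]; exact lt_irrefl _)
    · refine ⟨i - 1, by omega, ?_, ?_⟩
      · rw [← h3]; exact c.X_lt (by omega) (by omega)
      · have : i - 1 + 1 = i := by omega
        rw [this, h3]
  · exact ⟨i, hi, h3, h2⟩

theorem not_C {i : ℕ} (hi : i < c.n) {x : ℝ} (h1 : c.X i < x) (h2 : x < c.X (i + 1)) :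
    x ∉ c.C := by
  intro h
  obtain ⟨j, _, hj, he⟩ := c.mem_C.1 h
  rcases Nat.lt_or_ge i j with h3 | h3
  · have := c.X_le (i := i + 1) (j := j) (by omega) (by omega)
    linarith
  · have := c.X_le (i := j) (j := i) h3 (by omega)
    linarith

theorem X0_le {i : ℕ} (hi : i ≤ c.n) : c.s ≤ c.X i := c.X_le (by omega) hi
theorem X_le_t {i : ℕ} (hi : i ≤ c.n) : c.X i ≤ c.t := c.X_le hi le_rfl

end CS

namespace Swp

variable {N : Net} (S : Swp N)

theorem start_lt : ∃ δ > 0, ∀ x, S.ϑ < x → x < S.ϑ + δ → S.a x < S.b x := by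
  have hb := S.chain_co
  have ha := S.chain_ci
  obtain ⟨i, h | h⟩ := S.start
  · -- tip
    obtain ⟨_, h1, h2⟩ := h
    have hsC : S.ϑ ∉ S.co.C := fun h => lt_irrefl _ (hb.corners _ h).1
    have hsC' : S.ϑ ∉ S.ci.C := fun h => lt_irrefl _ (ha.corners _ h).1
    have c1 := hb.contβ S.ϑ (left_mem_Icc.2 hb.lt.le) hsC
    have c2 := ha.contβ S.ϑ (left_mem_Icc.2 ha.lt.le) hsC'
    have hp := Real.pi_pos
    -- angle comparison near the start
    rw [Metric.continuousWithinAt_iff] at c1 c2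
    obtain ⟨δ1, hδ1, d1⟩ := c1 (Real.pi / 6) (by positivity)
    obtain ⟨δ2, hδ2, d2⟩ := c2 (Real.pi / 6) (by positivity)
    have e1 := S.co.X_lt_succ S.co.npos
    have e2 := S.ci.X_lt_succ S.ci.npos
    have e3 : S.co.X 0 = S.ϑ := S.coX
    have e4 : S.ci.X 0 = S.ϑ := S.ciX
    rw [e3] at e1
    rw [e4] at e2
    refine ⟨min (min δ1 δ2) (min (S.co.X 1 - S.ϑ) (S.ci.X 1 - S.ϑ)), ?_, ?_⟩
    · have : 0 < S.co.X 1 - S.ϑ := by simpa using e1
      have : 0 < S.ci.X 1 - S.ϑ := by simpa using e2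
      positivity
    intro x hx1 hx2
    have hx3 : x - S.ϑ < min (min δ1 δ2) (min (S.co.X 1 - S.ϑ) (S.ci.X 1 - S.ϑ)) := by linarith
    simp only [lt_min_iff] at hx3
    obtain ⟨⟨x1, x2⟩, x3, x4⟩ := hx3
    have xt1 : x < S.co.t := lt_of_lt_of_le (by linarith) (S.co.X_le_t (i := 1) S.co.npos)
    have xt2 : x < S.ci.t := lt_of_lt_of_le (by linarith) (S.ci.X_le_t (i := 1) S.ci.npos)
    have sub1 : Icc S.ϑ x ⊆ Icc S.ϑ S.co.t := Icc_subset_Icc le_rfl xt1.le
    have sub2 : Icc S.ϑ x ⊆ Icc S.ϑ S.ci.t := Icc_subset_Icc le_rfl xt2.le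
    have nC1 : ∀ u ∈ Ioo S.ϑ x, u ∉ S.co.C := fun u hu =>
      S.co.not_C S.co.npos (by rw [e3]; exact hu.1) (by simp only [zero_add]; linarith [hu.2])
    have nC2 : ∀ u ∈ Ioo S.ϑ x, u ∉ S.ci.C := fun u hu =>
      S.ci.not_C S.ci.npos (by rw [e4]; exact hu.1) (by simp only [zero_add]; linarith [hu.2])
    have key := log_ratio_lt (a := S.a) (b := S.b) (α := S.α) (β := S.β) hx1
      (ha.cont.mono sub2) (hb.cont.mono sub1) (fun u hu => ha.pos u (sub2 hu))
      (fun u hu => hb.pos u (sub1 hu))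
      (fun u hu => ha.db u ⟨hu.1, hu.2.trans xt2⟩ (nC2 u hu))
      (fun u hu => hb.db u ⟨hu.1, hu.2.trans xt1⟩ (nC1 u hu))
      (fun u hu => ha.ang u (sub2 (Ioo_subset_Icc_self hu)) (nC2 u hu))
      (fun u hu => hb.ang u (sub1 (Ioo_subset_Icc_self hu)) (nC1 u hu))
      (fun u hu => by
        have f1 := d1 (sub1 (Ioo_subset_Icc_self hu)) (by
          rw [Real.dist_eq, abs_of_pos (by linarith [hu.1])]; linarith [hu.2])
        have f2 := d2 (sub2 (Ioo_subset_Icc_self hu)) (by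
          rw [Real.dist_eq, abs_of_pos (by linarith [hu.1])]; linarith [hu.2])
        rw [Real.dist_eq] at f1 f2
        have g1 := (abs_lt.1 f1).2
        have g2 := (abs_lt.1 f2).1
        linarith)
    rw [h1, sub_self] at key
    have p1 := ha.pos x (sub2 (right_mem_Icc.2 hx1.le))
    exact (Real.log_lt_log_iff p1 (hb.pos x (sub1 (right_mem_Icc.2 hx1.le)))).1 (by linarith)
  · -- wall
    obtain ⟨_, h1, _⟩ := h
    have c1 := hb.cont S.ϑ (left_mem_Icc.2 hb.lt.le)
    have c2 := ha.cont S.ϑ (left_mem_Icc.2 ha.lt.le)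
    rw [Metric.continuousWithinAt_iff] at c1 c2
    obtain ⟨δ1, hδ1, d1⟩ := c1 ((S.b S.ϑ - S.a S.ϑ) / 2) (by linarith)
    obtain ⟨δ2, hδ2, d2⟩ := c2 ((S.b S.ϑ - S.a S.ϑ) / 2) (by linarith)
    refine ⟨min (min δ1 δ2) (min (S.co.t - S.ϑ) (S.ci.t - S.ϑ)), ?_, ?_⟩
    · have : 0 < S.co.t - S.ϑ := by linarith [hb.lt]
      have : 0 < S.ci.t - S.ϑ := by linarith [ha.lt]
      positivity
    intro x hx1 hx2
    have hx3 : x - S.ϑ < min (min δ1 δ2) (min (S.co.t - S.ϑ) (S.ci.t - S.ϑ)) := by linarith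
    simp only [lt_min_iff] at hx3
    obtain ⟨⟨x1, x2⟩, x3, x4⟩ := hx3
    have f1 := d1 (x := x) ⟨hx1.le, by linarith⟩ (by
      rw [Real.dist_eq, abs_of_pos (by linarith)]; exact x1)
    have f2 := d2 (x := x) ⟨hx1.le, by linarith⟩ (by
      rw [Real.dist_eq, abs_of_pos (by linarith)]; exact x2)
    rw [Real.dist_eq] at f1 f2
    have g1 := (abs_lt.1 f1).1
    have g2 := (abs_lt.1 f2).2
    linarith

/-- the two chains meet: this closes the cell at a common vertex -/
theorem meet {m : ℝ} (hm0 : S.ϑ < m) (hm1 : m ≤ S.co.t) (hm2 : m ≤ S.ci.t)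
    (hlt : ∀ x ∈ Ioo S.ϑ m, S.a x < S.b x) (heq : S.a m = S.b m) :
    m = S.co.t ∧ m = S.ci.t ∧ S.co.e S.co.n = N.rev (S.ci.e (S.ci.n - 1)) ∧
      S.β m = S.α m + 2 * Real.pi / 3 := by
  have hb := S.chain_co
  have ha := S.chain_ci
  have hp := Real.pi_pos
  obtain ⟨i, hi, i1, i2⟩ := S.co.exists_piece_left (x := m) ⟨by rw [S.co_s]; exact hm0, hm1⟩
  obtain ⟨j, hj, j1, j2⟩ := S.ci.exists_piece_left (x := m) ⟨by rw [S.ci_s]; exact hm0, hm2⟩
  set e := S.co.e i with he
  set g := S.ci.e j with hg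
  have hec : N.CCW e := S.co.e_ccw hi
  have hgc : N.CCW g := S.ci.e_ccw hj
  set τ := N.Tm e (m - S.co.X i) with hτ
  set σ' := N.Tm g (m - S.ci.X j) with hσ'
  have hτs := hec.Tm_spec (S.co.sub_mem i1.le i2)
  have hσs := hgc.Tm_spec (S.ci.sub_mem j1.le j2)
  have hpt : N.z e τ = N.z g σ' := by
    rw [← S.co.b_dir hi i1.le i2, ← S.ci.b_dir hj j1.le j2]
    have : S.co.b m = S.ci.b m := heq.symm
    rw [this]
  have hτ0 : 0 < τ := by
    have := hec.Tm_lt (φ := 0) (φ' := m - S.co.X i) le_rfl (by linarith)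
      (S.co.sub_mem i1.le i2).2
    rwa [hec.Tm_zero] at this
  have hσ0 : 0 < σ' := by
    have := hgc.Tm_lt (φ := 0) (φ' := m - S.ci.X j) le_rfl (by linarith)
      (S.ci.sub_mem j1.le j2).2
    rwa [hgc.Tm_zero] at this
  -- the edges are different
  have hne : e = g → τ = σ' → False := by
    intro h1 h2
    have h3 : S.co.X i = S.ci.X j := by
      have e1 := hτs.2
      have e2 := hσs.2
      rw [← hτ, h1] at e1
      rw [← hσ', ← h2] at e2
      linarith
    have h4 : (max (S.co.X i) S.ϑ + m) / 2 ∈ Ioo S.ϑ m := by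
      constructor
      · have : max (S.co.X i) S.ϑ < m := max_lt i1 hm0
        linarith [le_max_right (S.co.X i) S.ϑ]
      · have : max (S.co.X i) S.ϑ < m := max_lt i1 hm0
        linarith
    have h5 : S.co.X i ≤ (max (S.co.X i) S.ϑ + m) / 2 := by
      have : max (S.co.X i) S.ϑ < m := max_lt i1 hm0
      linarith [le_max_left (S.co.X i) S.ϑ]
    generalize (max (S.co.X i) S.ϑ + m) / 2 = x at h4 h5
    have h6 : S.b x = N.Rr e (x - S.co.X i) := S.co.b_eq hi h5 (by linarith [h4.2])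
    have h7 : S.a x = N.Rr g (x - S.ci.X j) :=
      S.ci.b_eq hj (by linarith) (by linarith [h4.2])
    have h8 := hlt x h4
    rw [h6, h7, h1, h3] at h8
    exact lt_irrefl _ h8
  have hτL := hτs.1.2
  have hσL := hσs.1.2
  rw [← hτ] at hτL
  rw [← hσ'] at hσL
  rcases eq_or_lt_of_le hτL with hτ1 | hτ1
  swap
  · exfalso
    rcases N.inj e g τ σ' hτ0 (Or.inr hτ1) hσ0.le (Or.inr hσL) hpt with ⟨h1, h2⟩ | ⟨_, h1, _⟩
    · exact hne h1.symm h2.symm
    · exact hec.not_rev (by rw [← h1]; exact hgc)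
  rcases eq_or_lt_of_le hσL with hσ1 | hσ1
  swap
  · exfalso
    rcases N.inj g e σ' τ hσ0 (Or.inr hσ1) hτ0.le (Or.inr hτL) hpt.symm with ⟨h1, h2⟩ | ⟨_, h1, _⟩
    · exact hne h1 h2
    · exact hgc.not_rev (by rw [← h1]; exact hec)
  -- both at their targets
  have hmX : m = S.co.X (i + 1) := by
    have := hτs.2
    rw [← hτ, hτ1] at this
    rw [CS.X_succ]
    have h2 : N.ang e (N.L e) = N.Dl e := rfl
    rw [← he]; linarith
  have hmY : m = S.ci.X (j + 1) := by
    have := hσs.2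
    rw [← hσ', hσ1] at this
    rw [CS.X_succ]
    have h2 : N.ang g (N.L g) = N.Dl g := rfl
    rw [← hg]; linarith
  have htgt : N.tgt e = N.tgt g := by
    have := hpt
    rw [hτ1, hσ1] at this; exact this
  have hpe := hec.ps_mem (N.L_mem_dom e)
  have hpg := hgc.ps_mem (N.L_mem_dom g)
  have hse : N.tgt e = (‖N.tgt e‖ : ℂ) * dir m := by
    have := S.co.tgt_e hi; rw [← hmX] at this; exact this
  have hsg : N.tgt g = (‖N.tgt g‖ : ℂ) * dir m := by
    have := S.ci.tgt_e hj; rw [← hmY] at this; exact this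
  have hde := hec.dir_a (N.L_mem_dom e) hse
  have hdg := hgc.dir_a (N.L_mem_dom g) hsg
  have hre := N.dir_rev0 hec.arc
  have hrg := N.dir_rev0 hgc.arc
  rw [dir_add, hde, ← dir_add] at hre
  rw [dir_add, hdg, ← dir_add] at hrg
  have hsrc : N.src (N.rev e) = N.src (N.rev g) := by
    rw [N.src_rev hec.arc, N.src_rev hgc.arc, htgt]
  rcases N.vertex_cases hsrc with h1 | h1 | h1
  · exfalso
    have h2 := Net.rev_inj hec.arc hgc.arc h1
    apply hne h2
    rw [hτ1, hσ1, h2]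
  · -- closing
    have h2 : N.left e = N.rev g := by rw [Net.left, h1, N.rot3]
    have h3 : N.right g = N.rev e := by rw [Net.right, h1]
    have h4 : i + 1 = S.co.n := by
      by_contra hcon
      have h5 := S.co.e_ccw (i := i + 1) (by omega)
      rw [CS.e_succ, S.coσ] at h5
      have h6 : N.stp true (S.co.e i) = N.rev g := h2
      rw [h6] at h5
      exact hgc.not_rev h5
    have h5 : j + 1 = S.ci.n := by
      by_contra hcon
      have h5 := S.ci.e_ccw (i := j + 1) (by omega)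
      rw [CS.e_succ, S.ciσ] at h5
      have h6 : N.stp false (S.ci.e j) = N.rev e := h3
      rw [h6] at h5
      exact hec.not_rev h5
    have h6 : S.co.n - 1 = i := by omega
    have h7 : S.ci.n - 1 = j := by omega
    have hmt : m = S.co.t := by rw [hmX, h4]; rfl
    have hmt' : m = S.ci.t := by rw [hmY, h5]; rfl
    refine ⟨hmt, hmt', ?_, ?_⟩
    · rw [← h4, CS.e_succ, S.coσ, h7]; exact h2
    · have hb1 : S.β m = N.ps e (N.L e) := by
        have := S.co.β_t; rw [← hmt, h6] at this; exact this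
      have ha1 : S.α m = N.ps g (N.L g) := by
        have := S.ci.β_t; rw [← hmt', h7] at this; exact this
      rw [hb1, ha1]
      rw [h1, N.rot_dir1, hrg, ← dir_add] at hre
      have h8 := dir_inj_of_lt hre (by
        rw [abs_lt]; constructor <;> linarith [hpe.1, hpe.2, hpg.1, hpg.2])
      linarith
  · -- impossible: the ratio would increase
    exfalso
    rw [h1, N.rot_dir2, hrg, ← dir_add] at hre
    have h8 : N.ps e (N.L e) = N.ps g (N.L g) - 2 * Real.pi / 3 := by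
      have h9 : dir (m + N.ps g (N.L g) + Real.pi + 4 * Real.pi / 3)
          = dir (m + N.ps g (N.L g) + Real.pi + 4 * Real.pi / 3 - 2 * Real.pi) := by
        rw [dir_eq_iff]; exact ⟨1, by push_cast; ring⟩
      rw [h9] at hre
      have h10 := dir_inj_of_lt hre (by
        rw [abs_lt]; constructor <;> linarith [hpe.1, hpe.2, hpg.1, hpg.2])
      linarith
    have t1 := S.co.tendsto_β_left hi
    have t2 := S.ci.tendsto_β_left hj
    rw [← hmX, ← he] at t1
    rw [← hmY, ← hg] at t2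
    have ev1 := t1.eventually_lt_const (u := N.ps e (N.L e) + Real.pi / 3) (by linarith)
    have ev2 := t2.eventually_const_lt (u := N.ps g (N.L g) - Real.pi / 3) (by linarith)
    have ev3 : ∀ᶠ x in 𝓝[<] m, x ∈ Ioo (max S.ϑ (max (S.co.X i) (S.ci.X j))) m :=
      Ioo_mem_nhdsLT (max_lt hm0 (max_lt i1 j1))
    have ev4 := ev1.and (ev2.and ev3)
    rw [eventually_nhdsWithin_iff, Metric.eventually_nhds_iff] at ev4
    obtain ⟨ε, hε, h9⟩ := ev4
    set x := max (m - ε / 2) ((max S.ϑ (max (S.co.X i) (S.ci.X j)) + m) / 2) with hx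
    have hM : max S.ϑ (max (S.co.X i) (S.ci.X j)) < m := max_lt hm0 (max_lt i1 j1)
    have hxm : x < m := max_lt (by linarith) (by linarith)
    have hxl : max S.ϑ (max (S.co.X i) (S.ci.X j)) < x :=
      lt_of_lt_of_le (by linarith) (le_max_right _ _)
    have hxϑ : S.ϑ < x := lt_of_le_of_lt (le_max_left _ _) hxl
    have hxi : S.co.X i < x := lt_of_le_of_lt ((le_max_left _ _).trans (le_max_right _ _)) hxl
    have hxj : S.ci.X j < x := lt_of_le_of_lt ((le_max_right _ _).trans (le_max_right _ _)) hxl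
    have sub1 : Icc x m ⊆ Icc S.ϑ S.co.t := Icc_subset_Icc hxϑ.le hm1
    have sub2 : Icc x m ⊆ Icc S.ϑ S.ci.t := Icc_subset_Icc hxϑ.le hm2
    have nC1 : ∀ u ∈ Ioo x m, u ∉ S.co.C := fun u hu =>
      S.co.not_C hi (by linarith [hu.1]) (by linarith [hu.2])
    have nC2 : ∀ u ∈ Ioo x m, u ∉ S.ci.C := fun u hu =>
      S.ci.not_C hj (by linarith [hu.1]) (by linarith [hu.2])
    have key := log_ratio_lt (a := S.a) (b := S.b) (α := S.α) (β := S.β) hxm
      (ha.cont.mono sub2) (hb.cont.mono sub1) (fun u hu => ha.pos u (sub2 hu))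
      (fun u hu => hb.pos u (sub1 hu))
      (fun u hu => ha.db u ⟨hxϑ.trans hu.1, lt_of_lt_of_le hu.2 hm2⟩ (nC2 u hu))
      (fun u hu => hb.db u ⟨hxϑ.trans hu.1, lt_of_lt_of_le hu.2 hm1⟩ (nC1 u hu))
      (fun u hu => ha.ang u (sub2 (Ioo_subset_Icc_self hu)) (nC2 u hu))
      (fun u hu => hb.ang u (sub1 (Ioo_subset_Icc_self hu)) (nC1 u hu))
      (fun u hu => by
        have f1 := h9 (y := u) (by
          rw [Real.dist_eq, abs_sub_comm, abs_of_pos (by linarith [hu.2])]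
          linarith [hu.1, le_max_left (m - ε / 2) ((max S.ϑ (max (S.co.X i) (S.ci.X j)) + m) / 2)])
          hu.2
        have g1 : S.β u < N.ps e (N.L e) + Real.pi / 3 := f1.1
        have g2 : N.ps g (N.L g) - Real.pi / 3 < S.α u := f1.2.1
        linarith)
    rw [heq, sub_self] at key
    have h10 := hlt x ⟨hxϑ, hxm⟩
    have h11 := Real.log_lt_log (ha.pos x (sub2 (left_mem_Icc.2 hxm.le))) h10
    linarith

end Swp

end

end Pool.Agent.MP_4c0f47_an
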