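import Pool.Agent.Lib.MP_4c0f47_an.SweepD

set_option autoImplicit false

open Set Filter Topology Complex MeasureTheory

namespace Pool.Agent.MP_4c0f47_an

noncomputable section

namespace Net

variable {N : Net}

theorem vertex_down' {d : N.D} {m : ℝ} (hm : (N.src d * (starRingEnd ℂ) (dir m)).im = 0)
    (hs : Real.sin (N.a d 0 - m) < 0) {δ : ℝ} (hδ : 0 < δ) :
    ∃ t ∈ N.int d, t < δ ∧ ‖N.z d t - N.src d‖ < δ ∧
      (N.z d t * (starRingEnd ℂ) (dir m)).im < 0 := by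
  set c := - Real.sin (N.a d 0 - m) with hc
  have hcpos : 0 < c := by linarith
  set M := ‖N.src d‖ + 1 with hM
  have hMpos : 0 < M := by positivity
  set t := min (min 1 (N.L d / 2)) (min (δ / 4) (min (c / (2 * M)) (1 / (4 * M)))) with ht
  have hLp := N.L_pos d
  have htpos : 0 < t := by positivity
  have ht1 : t ≤ 1 := (min_le_left _ _).trans (min_le_left _ _)
  have ht2 : t ≤ N.L d / 2 := (min_le_left _ _).trans (min_le_right _ _)
  have ht3 : t ≤ δ / 4 := (min_le_right _ _).trans (min_le_left _ _)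
  have ht4 : t ≤ c / (2 * M) := (min_le_right _ _).trans ((min_le_right _ _).trans (min_le_left _ _))
  have ht5 : t ≤ 1 / (4 * M) :=
    (min_le_right _ _).trans ((min_le_right _ _).trans (min_le_right _ _))
  have htd : t ∈ N.dom d := ⟨htpos.le, Or.inr (by linarith)⟩
  have h1 := (N.near_src d htd ht1).2
  have e4 : M * t ≤ c / 2 := by
    calc M * t ≤ M * (c / (2 * M)) := by gcongr
      _ = c / 2 := by field_simp
  have e5 : M * t ≤ 1 / 4 := by
    calc M * t ≤ M * (1 / (4 * M)) := by gcongr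
      _ = 1 / 4 := by field_simp
  set q := N.z d t - N.src d - (t : ℂ) * dir (N.a d 0) with hq
  have e0 : N.z d t = N.src d + (t : ℂ) * dir (N.a d 0) + q := by rw [hq]; ring
  refine ⟨t, ⟨htpos, Or.inr (by linarith)⟩, by linarith, ?_, ?_⟩
  · have : N.z d t - N.src d = (t : ℂ) * dir (N.a d 0) + q := by rw [e0]; ring
    rw [this]
    refine lt_of_le_of_lt (norm_add_le _ _) ?_
    rw [norm_mul_dir, abs_of_pos htpos]
    have : ‖q‖ ≤ 1 / 4 * t := h1.trans (by gcongr)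
    linarith
  · rw [e0, add_mul, add_mul, Complex.add_im, Complex.add_im, hm, zero_add, mul_assoc,
      conj_dir_mul, Complex.im_ofReal_mul, dir_im]
    have h2 : |(q * (starRingEnd ℂ) (dir m)).im| ≤ c / 2 * t := by
      calc _ ≤ ‖q * (starRingEnd ℂ) (dir m)‖ := Complex.abs_im_le_norm _
        _ = ‖q‖ := by rw [norm_mul, Complex.norm_conj, norm_dir, mul_one]
        _ ≤ c / 2 * t := h1.trans (by gcongr)
    have h3 := (abs_le.1 h2).2
    have h4 : t * Real.sin (N.a d 0 - m) = - (c * t) := by rw [hc]; ring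
    rw [h4]
    nlinarith [mul_pos hcpos htpos]

theorem rot_ne (d : N.D) : N.rot d ≠ d := by
  intro h
  have h1 := N.a_rot d
  rw [h] at h1
  have := dir_inj_of_lt h1 (by
    rw [abs_lt]; constructor <;> linarith [Real.pi_pos])
  linarith [Real.pi_pos]

theorem rot2_ne (d : N.D) : N.rot (N.rot d) ≠ d := by
  intro h
  have h1 := congrArg N.rot h
  rw [N.rot3] at h1
  exact N.rot_ne d h1.symm

theorem CCW.ne_of_E {d f : N.D} (h : N.CCW d) (hf : N.E f = 0) : d ≠ f := by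
  intro he
  rw [he, CCW, hf] at h
  exact lt_irrefl _ h

end Net

namespace Swp

variable {N : Net} (S : Swp N)

/-- end of the sweep -/
def T : ℝ := min S.co.t S.ci.t

theorem T_le1 : S.T ≤ S.co.t := min_le_left _ _
theorem T_le2 : S.T ≤ S.ci.t := min_le_right _ _
theorem lt_T : S.ϑ < S.T := lt_min S.chain_co.lt S.chain_ci.lt

theorem cont_a : ContinuousOn S.a (Icc S.ϑ S.T) :=
  S.chain_ci.cont.mono (Icc_subset_Icc le_rfl S.T_le2)
theorem cont_b : ContinuousOn S.b (Icc S.ϑ S.T) :=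
  S.chain_co.cont.mono (Icc_subset_Icc le_rfl S.T_le1)
theorem pos_a {x : ℝ} (hx : x ∈ Icc S.ϑ S.T) : 0 < S.a x :=
  S.chain_ci.pos x ⟨hx.1, hx.2.trans S.T_le2⟩
theorem pos_b {x : ℝ} (hx : x ∈ Icc S.ϑ S.T) : 0 < S.b x :=
  S.chain_co.pos x ⟨hx.1, hx.2.trans S.T_le1⟩

theorem lt_all : ∀ x ∈ Ioo S.ϑ S.T, S.a x < S.b x := by
  by_contra hcon
  push Not at hcon
  obtain ⟨x0, hx0, hx0'⟩ := hcon
  obtain ⟨δ, hδ, hst⟩ := S.start_lt
  set A : Set ℝ := {x | x ∈ Icc (S.ϑ + δ / 2) x0 ∧ S.b x ≤ S.a x} with hA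
  have hge : S.ϑ + δ ≤ x0 := by
    by_contra hc
    push Not at hc
    linarith [hst x0 hx0.1 hc]
  have hsub : Icc (S.ϑ + δ / 2) x0 ⊆ Icc S.ϑ S.T :=
    Icc_subset_Icc (by linarith) hx0.2.le
  have hAc : IsClosed A := by
    have : A = Icc (S.ϑ + δ / 2) x0 ∩ (fun x => S.a x - S.b x) ⁻¹' (Ici 0) := by
      ext x; simp [hA]
    rw [this]
    exact ContinuousOn.preimage_isClosed_of_isClosed ((S.cont_a.sub S.cont_b).mono hsub)
      isClosed_Icc isClosed_Ici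
  have hne : A.Nonempty := ⟨x0, ⟨by linarith, le_rfl⟩, hx0'⟩
  have hbdd : BddBelow A := ⟨S.ϑ + δ / 2, fun x hx => hx.1.1⟩
  have hm := hAc.csInf_mem hne hbdd
  set m := sInf A with hmdef
  have hmlt : ∀ x ∈ Ioo S.ϑ m, S.a x < S.b x := by
    intro x hx
    by_contra hc
    push Not at hc
    rcases lt_or_ge x (S.ϑ + δ) with h | h
    · linarith [hst x hx.1 h]
    · have : x ∈ A := ⟨⟨by linarith, by linarith [hx.2, hm.1.2]⟩, hc⟩
      have := csInf_le hbdd this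
      linarith [hx.2]
  have hmϑ : S.ϑ < m := by linarith [hm.1.1]
  have hmT : m < S.T := lt_of_le_of_lt hm.1.2 hx0.2
  have heq : S.a m = S.b m := by
    apply le_antisymm _ hm.2
    have hca : ContinuousAt S.a m := S.cont_a.continuousAt (Icc_mem_nhds hmϑ hmT)
    have hcb : ContinuousAt S.b m := S.cont_b.continuousAt (Icc_mem_nhds hmϑ hmT)
    have h1 : Tendsto S.a (𝓝[<] m) (𝓝 (S.a m)) := hca.tendsto.mono_left nhdsWithin_le_nhds
    have h2 : Tendsto S.b (𝓝[<] m) (𝓝 (S.b m)) := hcb.tendsto.mono_left nhdsWithin_le_nhds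
    apply le_of_tendsto_of_tendsto h1 h2
    filter_upwards [Ioo_mem_nhdsLT hmϑ] with x hx using (hmlt x hx).le
  have := S.meet hmϑ (hmT.le.trans S.T_le1) (hmT.le.trans S.T_le2) hmlt heq
  have h3 := this.1
  linarith [S.T_le1]

theorem le_T : S.a S.T ≤ S.b S.T := by
  have h1 : Tendsto S.a (𝓝[<] S.T) (𝓝 (S.a S.T)) := by
    have := S.cont_a S.T (right_mem_Icc.2 S.lt_T.le)
    have h3 : 𝓝[<] S.T = 𝓝[Ioo S.ϑ S.T] S.T := (nhdsWithin_Ioo_eq_nhdsLT S.lt_T).symm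
    rw [h3]
    exact (this.mono Ioo_subset_Icc_self)
  have h2 : Tendsto S.b (𝓝[<] S.T) (𝓝 (S.b S.T)) := by
    have := S.cont_b S.T (right_mem_Icc.2 S.lt_T.le)
    have h3 : 𝓝[<] S.T = 𝓝[Ioo S.ϑ S.T] S.T := (nhdsWithin_Ioo_eq_nhdsLT S.lt_T).symm
    rw [h3]
    exact (this.mono Ioo_subset_Icc_self)
  apply le_of_tendsto_of_tendsto h1 h2
  filter_upwards [Ioo_mem_nhdsLT S.lt_T] with x hx using (S.lt_all x hx).le

/-- the swept region contains no point of the network -/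
theorem emp : ∀ θ ∈ Ioo S.ϑ S.T, ∀ r, S.a θ < r → r < S.b θ → (r : ℂ) * dir θ ∉ N.carrier := by
  apply N.empty S.cont_a S.cont_b (fun x hx => (S.pos_a hx).le) S.hL
  · intro x hx
    obtain ⟨ε, hε, h⟩ := S.co.near_chain (x := x) ⟨by rw [S.co_s]; exact hx.1,
      lt_of_lt_of_le hx.2 S.T_le1⟩
    refine ⟨ε, hε, fun r θ h1 h2 h3 h4 => ?_⟩
    have := h r θ h1 h2 h3 h4
    rw [S.sg_co, one_mul, one_mul] at this; exact this
  · intro x hx
    obtain ⟨ε, hε, h⟩ := S.ci.near_chain (x := x) ⟨by rw [S.ci_s]; exact hx.1,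
      lt_of_lt_of_le hx.2 S.T_le2⟩
    refine ⟨ε, hε, fun r θ h1 h2 h3 h4 => ?_⟩
    have := h r θ h1 h2 h3 h4
    rw [S.sg_ci] at this
    have h5 : S.ci.b θ = S.a θ := rfl
    rw [h5] at this
    linarith

/-- near the right end: points with smaller angle and radius strictly between are swept -/
theorem right_near {r1 : ℝ} (h1 : S.a S.T < r1) (h2 : r1 < S.b S.T) :
    ∃ ε > 0, ∀ r θ : ℝ, |r - r1| < ε → θ < S.T → |θ - S.T| < ε → S.a θ < r ∧ r < S.b θ ∧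
      θ ∈ Ioo S.ϑ S.T := by
  have ca := S.cont_a S.T (right_mem_Icc.2 S.lt_T.le)
  have cb := S.cont_b S.T (right_mem_Icc.2 S.lt_T.le)
  rw [Metric.continuousWithinAt_iff] at ca cb
  obtain ⟨δ1, hδ1, d1⟩ := ca ((r1 - S.a S.T) / 2) (by linarith)
  obtain ⟨δ2, hδ2, d2⟩ := cb ((S.b S.T - r1) / 2) (by linarith)
  refine ⟨min (min δ1 δ2) (min (S.T - S.ϑ) (min ((r1 - S.a S.T) / 2) ((S.b S.T - r1) / 2))), ?_, ?_⟩
  · have := S.lt_T
    have : 0 < S.T - S.ϑ := by linarith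
    have : 0 < (r1 - S.a S.T) / 2 := by linarith
    have : 0 < (S.b S.T - r1) / 2 := by linarith
    positivity
  intro r θ hr hθ hθ2
  simp only [lt_min_iff] at hr hθ2
  obtain ⟨⟨a1, a2⟩, a3, a4, a5⟩ := hr
  obtain ⟨⟨b1, b2⟩, b3, b4, b5⟩ := hθ2
  have hθI : θ ∈ Icc S.ϑ S.T := ⟨by linarith [(abs_lt.1 b3).1], hθ.le⟩
  have e1 := d1 hθI (by rw [Real.dist_eq]; exact b1)
  have e2 := d2 hθI (by rw [Real.dist_eq]; exact b2)
  rw [Real.dist_eq] at e1 e2
  have f1 := abs_lt.1 e1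
  have f2 := abs_lt.1 e2
  have f3 := abs_lt.1 a4
  have f4 := abs_lt.1 a5
  exact ⟨by linarith [f1.2, f3.1], by linarith [f2.1, f4.2], by linarith [(abs_lt.1 b3).1], hθ⟩

theorem vert_right {r1 : ℝ} (h1 : S.a S.T < r1) (h2 : r1 < S.b S.T) :
    (r1 : ℂ) * dir S.T ∉ N.verts := by
  rintro ⟨e, he⟩
  have hr1 : 0 < r1 := lt_trans (S.pos_a (right_mem_Icc.2 S.lt_T.le)) h1
  obtain ⟨ε, hε, h3⟩ := S.right_near h1 h2
  obtain ⟨δ, hδ, h4⟩ := polar_near (m := S.T) hr1 hε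
  obtain ⟨d, hd, hs⟩ := N.exists_down e S.T
  rw [he] at hd
  obtain ⟨w, hw, hw1, hw2⟩ := N.vertex_down (d := d) (m := S.T) (by
    rw [hd, Net.im_polar]; simp) hs hδ
  rw [hd] at hw1
  obtain ⟨r, θ, hr, hr2, hθ, hwe, h5, _⟩ := h4 w hw1
  obtain ⟨h6, h7, h8⟩ := h3 r θ hr2 (h5 hw2) hθ
  exact S.emp θ h8 r h6 h7 (by rw [← hwe]; exact hw)

end Swp

end

end Pool.Agent.MP_4c0f47_an
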