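import Pool.Agent.Lib.MP_4c0f47_an.SweepE

set_option autoImplicit false

open Set Filter Topology Complex MeasureTheory

namespace Pool.Agent.MP_4c0f47_an

noncomputable section

namespace CS

variable {N : Net} (c : CS N)

/-- last edge of the chain -/
def last : N.D := c.e (c.n - 1)

theorem last_lt : c.n - 1 < c.n := by have := c.npos; omega
theorem last_ccw : N.CCW c.last := c.e_ccw c.last_lt
theorem last_succ : c.n - 1 + 1 = c.n := by have := c.npos; omega

theorem e_n : c.e c.n = N.stp c.σ c.last := by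
  have := c.e_succ (c.n - 1)
  rwa [c.last_succ] at this

theorem X_last : c.X (c.n - 1 + 1) = c.t := by rw [c.last_succ]; rfl

theorem tgt_last : N.tgt c.last = (‖N.tgt c.last‖ : ℂ) * dir c.t := by
  have := c.tgt_e c.last_lt
  rwa [c.X_last] at this

theorem tgt_last' : N.tgt c.last = (c.b c.t : ℂ) * dir c.t := by
  rw [c.b_t]; exact c.tgt_last

theorem β_t' : c.β c.t = N.ps c.last (N.L c.last) := c.β_t

/-- points of the chain near its end, seen from the last vertex -/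
theorem end_pt {ε : ℝ} (hε : 0 < ε) : ∃ δ > 0, ∀ θ, θ ≤ c.t → c.t - θ < δ →
    ∃ t' ∈ N.dom (N.rev c.last), t' < ε ∧ (c.b θ : ℂ) * dir θ = N.z (N.rev c.last) t' := by
  have hl := c.last_ccw
  have hlt := c.last_lt
  obtain ⟨δ, hδ, h1⟩ := c.Tm_near hlt (φ := N.Dl c.last) ⟨hl.Dl_pos.le, le_rfl⟩ hε
  have hX : c.X (c.n - 1) < c.t := by rw [← c.X_last]; exact c.X_lt_succ hlt
  refine ⟨min δ (c.t - c.X (c.n - 1)), by
    have : 0 < c.t - c.X (c.n - 1) := by linarith
    positivity, fun θ hθ1 hθ2 => ?_⟩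
  have h2 : c.X (c.n - 1) ≤ θ := by linarith [min_le_right δ (c.t - c.X (c.n - 1))]
  have h3 : θ ≤ c.X (c.n - 1 + 1) := by rw [c.X_last]; exact hθ1
  have h4 := c.sub_mem h2 h3
  have h5 := h1 _ h4 (by
    have e : θ - c.X (c.n - 1) - N.Dl c.last = θ - c.t := by
      rw [← c.X_last, X_succ]; simp only [last]; ring
    rw [e, abs_sub_comm, abs_of_nonneg (by linarith)]
    exact lt_of_lt_of_le hθ2 (min_le_left _ _))
  have h6 := (hl.Tm_spec h4).1
  rw [show N.Tm (c.e (c.n - 1)) (N.Dl c.last) = N.L c.last from hl.Tm_Dl] at h5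
  set τ := N.Tm (c.e (c.n - 1)) (θ - c.X (c.n - 1)) with hτ
  have h6' : τ ∈ Icc 0 (N.L c.last) := h6
  refine ⟨N.L c.last - τ, ?_, ?_, ?_⟩
  · rw [N.dom_eq_arc (N.rev_ray _ hl.arc), N.L_rev _ hl.arc]
    exact ⟨by linarith [h6'.2], by linarith [h6'.1]⟩
  · have := (abs_lt.1 h5).1; linarith
  · rw [N.z_rev _ hl.arc _ ⟨by linarith [h6'.2], by linarith [h6'.1]⟩, c.b_dir hlt h2 h3,
      sub_sub_cancel]
    rfl

end CS

namespace Swp

variable {N : Net} (S : Swp N)

/-- strict end of a chain: the next edge enters the swept region -/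
theorem end_strict (hlt : S.a S.T < S.b S.T) (c : CS N)
    (ht : S.T = c.t) {f : N.D} (hf : f ≠ N.rev c.last) (hf2 : N.rev f ≠ N.rev c.last)
    (hfr : N.src f = N.tgt c.last)
    (hs : Real.sin (N.a f 0 - S.T) < 0)
    (hcos : 1 / 2 ≤ (if c.σ then -1 else 1) * Real.cos (S.T - N.a f 0))
    (hcb : (c.σ = true ∧ c.b = S.b) ∨ (c.σ = false ∧ c.b = S.a)) : False := by
  have hl := c.last_ccw
  have hTI : S.T ∈ Icc S.ϑ S.T := right_mem_Icc.2 S.lt_T.le
  set κ : ℝ := if c.σ then -1 else 1 with hκ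
  have hκ1 : κ = 1 ∨ κ = -1 := by rw [hκ]; cases c.σ <;> simp
  obtain ⟨ε1, hε1, ho⟩ := N.order_vertex (f := f) (g := N.rev c.last)
    (by rw [hfr, N.src_rev hl.arc]) (Ne.symm hf) (ϑ := S.T) hκ1 hcos
  obtain ⟨δ2, hδ2, hend⟩ := c.end_pt hε1
  have hcpos : 0 < c.b c.t := c.chain.pos _ (right_mem_Icc.2 c.s_lt_t.le)
  have hsrcf : N.src f = (c.b c.t : ℂ) * dir S.T := by
    rw [hfr, c.tgt_last', ht]
  -- continuity of the two graphs at the end
  have ca := S.cont_a S.T hTI
  have cb := S.cont_b S.T hTI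
  rw [Metric.continuousWithinAt_iff] at ca cb
  obtain ⟨δ3, hδ3, d3⟩ := ca ((S.b S.T - S.a S.T) / 4) (by linarith)
  obtain ⟨δ4, hδ4, d4⟩ := cb ((S.b S.T - S.a S.T) / 4) (by linarith)
  have hTϑ := S.lt_T
  obtain ⟨δ5, hδ5, h5⟩ := polar_near (m := S.T) hcpos (ε := min (min ε1 δ2) (min (min δ3 δ4)
    (min (S.T - S.ϑ) ((S.b S.T - S.a S.T) / 4)))) (by
      have : 0 < S.T - S.ϑ := by linarith
      have : 0 < (S.b S.T - S.a S.T) / 4 := by linarith
      positivity)
  obtain ⟨t, ht1, ht2, ht3, ht4⟩ := N.vertex_down' (d := f) (m := S.T) (by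
    rw [hsrcf, Net.im_polar]; simp) hs (δ := min ε1 δ5) (by positivity)
  rw [hsrcf] at ht3
  obtain ⟨r, θ, hr, hr2, hθ, hwe, h6, _⟩ := h5 _ (lt_of_lt_of_le ht3 (min_le_right _ _))
  have h7 := h6 ht4
  simp only [lt_min_iff] at hr2 hθ
  obtain ⟨⟨r1, r2⟩, ⟨r3, r4⟩, r5, r6⟩ := hr2
  obtain ⟨⟨q1, q2⟩, ⟨q3, q4⟩, q5, q6⟩ := hθ
  have hθI : θ ∈ Icc S.ϑ S.T := ⟨by linarith [(abs_lt.1 q5).1], h7.le⟩
  have hθo : θ ∈ Ioo S.ϑ S.T := ⟨by linarith [(abs_lt.1 q5).1], h7⟩
  have e1 := d3 hθI (by rw [Real.dist_eq]; exact q3)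
  have e2 := d4 hθI (by rw [Real.dist_eq]; exact q4)
  rw [Real.dist_eq] at e1 e2
  have f1 := abs_lt.1 e1
  have f2 := abs_lt.1 e2
  have f3 := abs_lt.1 r6
  obtain ⟨t', ht'1, ht'2, ht'3⟩ := hend θ (by rw [← ht]; exact h7.le) (by
    rw [← ht]; have := (abs_lt.1 q2).1; linarith)
  have htd := N.int_subset_dom f ht1
  -- ordering
  have key : κ * (r - c.b θ) > 0 := by
    by_contra hcon
    push Not at hcon
    rcases eq_or_lt_of_le hcon with h8 | h8
    · -- common point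
      have h9 : r = c.b θ := by
        rcases hκ1 with h | h <;> rw [h] at h8 <;> linarith
      have hz : N.z f t = N.z (N.rev c.last) t' := by
        rw [hwe, h9, ht'3]
      rcases N.inj f (N.rev c.last) t t' ht1.1 ht1.2 ht'1.1 ht'1.2 hz with ⟨h10, _⟩ | ⟨_, h10, _⟩
      · exact hf h10.symm
      · exact hf2 h10.symm
    · refine ho t htd (lt_of_lt_of_le ht2 (min_le_left _ _)) t' ht'1 ht'2 θ q1 (-(κ * (r - c.b θ)))
        (by linarith) ?_
      rw [← ht'3, hwe]
      have hsq : κ * κ = 1 := by rcases hκ1 with h | h <;> rw [h] <;> norm_num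
      have : κ * -(κ * (r - c.b θ)) = c.b θ - r := by
        calc κ * -(κ * (r - c.b θ)) = -(κ * κ) * (r - c.b θ) := by ring
          _ = c.b θ - r := by rw [hsq]; ring
      rw [this]; push_cast; ring
  rcases hcb with ⟨g1, g2⟩ | ⟨g1, g2⟩
  · have hk : κ = -1 := by rw [hκ, g1]; simp
    rw [hk, g2] at key
    have h8 : c.b c.t = S.b S.T := by rw [← ht, g2]
    rw [h8] at f3
    exact S.emp θ hθo r (by linarith [f1.2, f3.1]) (by linarith) (by
      rw [← hwe]; exact N.mem_carrier htd)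
  · have hk : κ = 1 := by rw [hκ, g1]; simp
    rw [hk, g2] at key
    have h8 : c.b c.t = S.a S.T := by rw [← ht, g2]
    rw [h8] at f3
    exact S.emp θ hθo r (by linarith) (by linarith [f2.1, f3.2]) (by
      rw [← hwe]; exact N.mem_carrier htd)

theorem T_Ioc_ci : S.T ∈ Ioc S.ci.s S.ci.t := ⟨by rw [S.ci_s]; exact S.lt_T, S.T_le2⟩
theorem T_Ioc_co : S.T ∈ Ioc S.co.s S.co.t := ⟨by rw [S.co_s]; exact S.lt_T, S.T_le1⟩

/-- the outer chain ends first (strictly above the inner one): the cell is closed by a radial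
segment -/
theorem close_co (hlt : S.a S.T < S.b S.T) (ht : S.T = S.co.t) :
    S.T = S.ci.t ∧ S.β S.T = 2 * Real.pi / 3 ∧ S.α S.T = Real.pi / 3 ∧
      N.E (S.co.e S.co.n) = 0 ∧ ¬ N.isRay (S.co.e S.co.n) ∧
      N.left (S.co.e S.co.n) = N.rev S.ci.last := by
  have hp := Real.pi_pos
  set d := S.co.last with hd
  have hdc : N.CCW d := S.co.last_ccw
  set f := S.co.e S.co.n with hf
  have hfe : f = N.left d := by rw [hf, S.co.e_n, S.coσ]; rfl
  have hfn : ¬ N.CCW f := S.comax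
  have hfsrc : N.src f = N.tgt d := by rw [hfe, N.src_left hdc.arc]
  have hbT : S.b S.T = S.co.b S.co.t := by rw [ht]; rfl
  have hbpos : 0 < S.b S.T := S.pos_b (right_mem_Icc.2 S.lt_T.le)
  have hapos : 0 < S.a S.T := S.pos_a (right_mem_Icc.2 S.lt_T.le)
  have hsrc' : N.src f = (S.b S.T : ℂ) * dir S.T := by
    rw [hfsrc, S.co.tgt_last', hbT, ht]
  have hsrcn : ‖N.src f‖ = S.b S.T := by rw [hsrc', norm_mul_dir, abs_of_pos hbpos]
  have hsrc : N.src f = (‖N.src f‖ : ℂ) * dir S.T := by rw [hsrcn]; exact hsrc'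
  set β1 := N.ps d (N.L d) with hβ1
  have hβT : S.β S.T = β1 := by
    have := S.co.β_t'; rw [← ht] at this; exact this
  have hβm := hdc.ps_mem (N.L_mem_dom d)
  have htd : N.z d (N.L d) = (‖N.z d (N.L d)‖ : ℂ) * dir S.T := by
    rw [ht]; exact S.co.tgt_last
  have hda := hdc.dir_a (N.L_mem_dom d) htd
  have hdirf : dir (N.a f 0) = dir (S.T + (β1 + Real.pi / 3)) := by
    rw [hfe, N.dir_left hdc.arc, dir_add, hda, ← dir_add, ← hβ1, add_assoc]
  have hβge : 2 * Real.pi / 3 ≤ β1 := by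
    by_contra hcon
    push Not at hcon
    apply hfn
    rw [N.ccw_iff_sin hsrc (by rw [hsrcn]; exact hbpos) hdirf]
    apply Real.sin_pos_of_pos_of_lt_pi <;> linarith [hβm.1]
  have hsinf : Real.sin (N.a f 0 - S.T) = Real.sin (β1 + Real.pi / 3) := by
    have h1 : dir (N.a f 0 - S.T) = dir (β1 + Real.pi / 3) := by
      rw [dir_sub, hdirf, ← dir_sub]; ring_nf
    have := congrArg Complex.im h1
    rwa [dir_im, dir_im] at this
  have hfrev : f ≠ N.rev d := by
    rw [hfe]; exact N.rot2_ne _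
  rcases eq_or_lt_of_le hβge with hβe | hβl
  swap
  · exfalso
    refine S.end_strict hlt S.co ht (f := f) hfrev ?_ hfsrc ?_ ?_ (Or.inl ⟨S.coσ, rfl⟩)
    · intro h
      by_cases hr : N.isRay f
      · have h1 : 0 < Real.sin (β1 + Real.pi / 3 - Real.pi) :=
          Real.sin_pos_of_pos_of_lt_pi (by linarith) (by linarith [hβm.2])
        rw [Real.sin_sub_pi] at h1
        have h2 := N.E_ray hr
        have h3 := N.cross_zero h2 (N.zero_mem_dom f)
        have h4 : N.z f 0 = (S.b S.T : ℂ) * dir S.T := hsrc'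
        rw [h4, Net.cross_eq_sin, hsinf] at h3
        rcases mul_eq_zero.1 h3 with h5 | h5
        · exact hbpos.ne' h5
        · linarith
      · have := Net.rev_inj hr hdc.arc h
        rw [this] at hfn
        exact hfn hdc
    · rw [hsinf]
      have h1 : 0 < Real.sin (β1 + Real.pi / 3 - Real.pi) :=
        Real.sin_pos_of_pos_of_lt_pi (by linarith) (by linarith [hβm.2])
      rw [Real.sin_sub_pi] at h1
      linarith
    · rw [S.coσ]
      simp only [if_true]
      have h1 : Real.cos (S.T - N.a f 0) = Real.cos (β1 + Real.pi / 3) := by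
        rw [← Net.dir_mul_conj_re, hdirf, Net.dir_mul_conj_re, ← Real.cos_neg]
        congr 1; ring
      rw [h1]
      have h2 : Real.cos (β1 + Real.pi / 3) = - Real.cos (β1 + Real.pi / 3 - Real.pi) := by
        rw [Real.cos_sub_pi]; ring
      rw [h2]
      have := Net.cos_ge_half' (x := β1 + Real.pi / 3 - Real.pi) (by
        rw [abs_le]; constructor <;> linarith [hβm.2])
      linarith
  -- radial inward edge
  have hsin0 : Real.sin (β1 + Real.pi / 3) = 0 := by
    rw [← hβe]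
    have : 2 * Real.pi / 3 + Real.pi / 3 = Real.pi := by ring
    rw [this, Real.sin_pi]
  have hE : N.E f = 0 := N.E_zero_of_sin hsrc hdirf hsin0
  have hdirf' : dir (N.a f 0) = - dir S.T := by
    rw [hdirf, ← hβe]
    have : S.T + (2 * Real.pi / 3 + Real.pi / 3) = S.T + Real.pi := by ring
    rw [this, dir_add_pi]
  have hline : ∀ t ∈ N.dom f, N.z f t = ((S.b S.T - t : ℝ) : ℂ) * dir S.T := by
    intro t ht'
    rw [N.z_line hE ht', hsrc', hdirf']; push_cast; ring
  -- the point of the inner chain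
  obtain ⟨j, hj, j1, j2⟩ := S.ci.exists_piece_left S.T_Ioc_ci
  set g := S.ci.e j with hg
  have hgc : N.CCW g := S.ci.e_ccw hj
  have hσs := hgc.Tm_spec (S.ci.sub_mem j1.le j2)
  set σ' := N.Tm g (S.T - S.ci.X j) with hσ'
  have hpt : (S.a S.T : ℂ) * dir S.T = N.z g σ' := S.ci.b_dir hj j1.le j2
  have hσd : σ' ∈ N.dom g := hgc.mem_dom.2 hσs.1
  have hgf : g ≠ f := hgc.ne_of_E hE
  have hgrf : ¬ N.isRay f → g ≠ N.rev f := fun hr => hgc.ne_of_E (by rw [N.E_rev hr, hE, neg_zero])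
  by_cases hlong : N.isRay f ∨ S.b S.T - S.a S.T < N.L f
  · exfalso
    have ht0 : S.b S.T - S.a S.T ∈ N.int f := ⟨by linarith, hlong⟩
    have h1 := hline _ (N.int_subset_dom f ht0)
    rw [sub_sub_cancel, hpt] at h1
    rcases N.inj f g _ σ' ht0.1 ht0.2 hσd.1 hσd.2 h1 with ⟨h2, _⟩ | ⟨h2, h3, _⟩
    · exact hgf h2
    · exact hgrf h2 h3
  push Not at hlong
  obtain ⟨hfr, hfL⟩ := hlong
  have htgt : N.tgt f = ((S.b S.T - N.L f : ℝ) : ℂ) * dir S.T := hline _ (N.L_mem_dom f)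
  rcases eq_or_lt_of_le hfL with hL | hL
  swap
  · exfalso
    apply S.vert_right (r1 := S.b S.T - N.L f) (by linarith) (by linarith [N.L_pos f])
    rw [← htgt]; exact N.tgt_mem_verts hfr
  have htgt' : N.tgt f = N.z g σ' := by
    rw [htgt, hL, sub_sub_cancel, hpt]
  have hσL : σ' = N.L g := by
    by_contra hcon
    have h0 : 0 < σ' := by
      have := hgc.Tm_lt (φ := 0) (φ' := S.T - S.ci.X j) le_rfl (by linarith)
        (S.ci.sub_mem j1.le j2).2
      rwa [hgc.Tm_zero] at this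
    have h1 : σ' ∈ N.int g := ⟨h0, Or.inr (lt_of_le_of_ne hσs.1.2 hcon)⟩
    apply N.int_not_vert h1
    rw [← htgt']; exact N.tgt_mem_verts hfr
  have hTY : S.T = S.ci.X (j + 1) := by
    have h1 := hσs.2
    rw [hσL] at h1
    rw [CS.X_succ, ← hg]
    have h2 : N.ang g (N.L g) = N.Dl g := rfl
    linarith
  have htg : N.tgt g = N.tgt f := by rw [htgt', hσL]; rfl
  have hsg : N.tgt g = (‖N.tgt g‖ : ℂ) * dir S.T := by
    have := S.ci.tgt_e hj; rw [← hTY] at this; exact this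
  have hdg := hgc.dir_a (N.L_mem_dom g) hsg
  have hpg := hgc.ps_mem (N.L_mem_dom g)
  have hrg := N.dir_rev0 hgc.arc
  rw [dir_add, hdg, ← dir_add] at hrg
  have hrf : dir (N.a (N.rev f) 0) = dir S.T := by
    rw [N.dir_rev0 hfr, dir_add_pi, N.a_const hE (N.L_mem_dom f), hdirf', neg_neg]
  have hsrcs : N.src (N.rev g) = N.src (N.rev f) := by
    rw [N.src_rev hgc.arc, N.src_rev hfr, htg]
  rcases N.vertex_cases hsrcs with h1 | h1 | h1
  · exfalso
    exact hgf (Net.rev_inj hgc.arc hfr h1)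
  · exfalso
    rw [h1, N.rot_dir1, hrf, ← dir_add] at hrg
    have h2 := dir_inj_of_lt hrg (by
      rw [abs_lt]; constructor <;> linarith [hpg.1, hpg.2])
    linarith [hpg.1]
  · rw [h1, N.rot_dir2, hrf, ← dir_add] at hrg
    have h2 := dir_inj_of_lt hrg (by
      rw [abs_lt]; constructor <;> linarith [hpg.1, hpg.2])
    have h3 : N.right g = N.rev f := by rw [Net.right, h1, N.rot3]
    have h4 : j + 1 = S.ci.n := by
      by_contra hcon
      have h5 := S.ci.e_ccw (i := j + 1) (by omega)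
      rw [CS.e_succ, S.ciσ] at h5
      have h6 : N.stp false (S.ci.e j) = N.rev f := h3
      rw [h6] at h5
      exact (h5.ne_of_E (f := N.rev f) (by rw [N.E_rev hfr, hE, neg_zero])) rfl
    have h5 : S.T = S.ci.t := by rw [hTY, h4]; rfl
    have h6 : S.ci.last = g := by
      have : S.ci.n - 1 = j := by omega
      rw [CS.last, this]
    refine ⟨h5, by rw [hβT, ← hβe], ?_, hE, hfr, ?_⟩
    · have := S.ci.β_t'
      rw [← h5, h6] at this
      have h7 : S.α S.T = S.ci.β S.T := rfl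
      rw [h7, this]; linarith
    · rw [h6, Net.left]; exact h1.symm

/-- the inner chain cannot end first -/
theorem not_close_ci (hlt : S.a S.T < S.b S.T) (ht : S.T = S.ci.t) (hco : S.T < S.co.t) :
    False := by
  have hp := Real.pi_pos
  set d := S.ci.last with hd
  have hdc : N.CCW d := S.ci.last_ccw
  set f := S.ci.e S.ci.n with hf
  have hfe : f = N.right d := by rw [hf, S.ci.e_n, S.ciσ]; rfl
  have hfn : ¬ N.CCW f := S.cimax
  have hfsrc : N.src f = N.tgt d := by rw [hfe, N.src_right hdc.arc]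
  have haT : S.a S.T = S.ci.b S.ci.t := by rw [ht]; rfl
  have hbpos : 0 < S.b S.T := S.pos_b (right_mem_Icc.2 S.lt_T.le)
  have hapos : 0 < S.a S.T := S.pos_a (right_mem_Icc.2 S.lt_T.le)
  have hsrc' : N.src f = (S.a S.T : ℂ) * dir S.T := by
    rw [hfsrc, S.ci.tgt_last', haT, ht]
  have hsrcn : ‖N.src f‖ = S.a S.T := by rw [hsrc', norm_mul_dir, abs_of_pos hapos]
  have hsrc : N.src f = (‖N.src f‖ : ℂ) * dir S.T := by rw [hsrcn]; exact hsrc'
  set α1 := N.ps d (N.L d) with hα1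
  have hαm := hdc.ps_mem (N.L_mem_dom d)
  have htd : N.z d (N.L d) = (‖N.z d (N.L d)‖ : ℂ) * dir S.T := by
    rw [ht]; exact S.ci.tgt_last
  have hda := hdc.dir_a (N.L_mem_dom d) htd
  have hdirf : dir (N.a f 0) = dir (S.T + (α1 - Real.pi / 3)) := by
    rw [hfe, N.dir_right hdc.arc, dir_sub, hda, ← dir_sub, ← hα1, add_sub_assoc]
  have hαle : α1 ≤ Real.pi / 3 := by
    by_contra hcon
    push Not at hcon
    apply hfn
    rw [N.ccw_iff_sin hsrc (by rw [hsrcn]; exact hapos) hdirf]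
    apply Real.sin_pos_of_pos_of_lt_pi <;> linarith [hαm.2]
  have hsinf : Real.sin (N.a f 0 - S.T) = Real.sin (α1 - Real.pi / 3) := by
    have h1 : dir (N.a f 0 - S.T) = dir (α1 - Real.pi / 3) := by
      rw [dir_sub, hdirf, ← dir_sub]; ring_nf
    have := congrArg Complex.im h1
    rwa [dir_im, dir_im] at this
  have hfrev : f ≠ N.rev d := by
    rw [hfe]; exact N.rot_ne _
  rcases eq_or_lt_of_le hαle with hαe | hαl
  swap
  · have hneg : Real.sin (α1 - Real.pi / 3) < 0 :=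
      Real.sin_neg_of_neg_of_neg_pi_lt (by linarith) (by linarith [hαm.1])
    refine S.end_strict hlt S.ci ht (f := f) hfrev ?_ hfsrc ?_ ?_ (Or.inr ⟨S.ciσ, rfl⟩)
    · intro h
      by_cases hr : N.isRay f
      · have h2 := N.E_ray hr
        have h3 := N.cross_zero h2 (N.zero_mem_dom f)
        have h4 : N.z f 0 = (S.a S.T : ℂ) * dir S.T := hsrc'
        rw [h4, Net.cross_eq_sin, hsinf] at h3
        rcases mul_eq_zero.1 h3 with h5 | h5
        · exact hapos.ne' h5
        · linarith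
      · have := Net.rev_inj hr hdc.arc h
        rw [this] at hfn
        exact hfn hdc
    · rw [hsinf]; exact hneg
    · rw [S.ciσ]
      simp only [Bool.false_eq_true, if_false]
      have h1 : Real.cos (S.T - N.a f 0) = Real.cos (α1 - Real.pi / 3) := by
        rw [← Net.dir_mul_conj_re, hdirf, Net.dir_mul_conj_re, ← Real.cos_neg]
        congr 1; ring
      rw [h1]
      have := Net.cos_ge_half' (x := α1 - Real.pi / 3) (by
        rw [abs_le]; constructor <;> linarith [hαm.1])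
      linarith
  -- radial outward edge
  have hsin0 : Real.sin (α1 - Real.pi / 3) = 0 := by
    rw [hαe]; simp
  have hE : N.E f = 0 := N.E_zero_of_sin hsrc hdirf hsin0
  have hdirf' : dir (N.a f 0) = dir S.T := by
    rw [hdirf, hαe]; ring_nf
  have hline : ∀ t ∈ N.dom f, N.z f t = ((S.a S.T + t : ℝ) : ℂ) * dir S.T := by
    intro t ht'
    rw [N.z_line hE ht', hsrc', hdirf']; push_cast; ring
  -- the point of the outer chain
  obtain ⟨j, hj, j1, j2⟩ := S.co.exists_piece_left S.T_Ioc_co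
  set g := S.co.e j with hg
  have hgc : N.CCW g := S.co.e_ccw hj
  have hσs := hgc.Tm_spec (S.co.sub_mem j1.le j2)
  set σ' := N.Tm g (S.T - S.co.X j) with hσ'
  have hpt : (S.b S.T : ℂ) * dir S.T = N.z g σ' := S.co.b_dir hj j1.le j2
  have hσd : σ' ∈ N.dom g := hgc.mem_dom.2 hσs.1
  have hgf : g ≠ f := hgc.ne_of_E hE
  have hgrf : ¬ N.isRay f → g ≠ N.rev f := fun hr => hgc.ne_of_E (by rw [N.E_rev hr, hE, neg_zero])
  by_cases hlong : N.isRay f ∨ S.b S.T - S.a S.T < N.L f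
  · have ht0 : S.b S.T - S.a S.T ∈ N.int f := ⟨by linarith, hlong⟩
    have h1 := hline _ (N.int_subset_dom f ht0)
    rw [add_sub_cancel, hpt] at h1
    rcases N.inj f g _ σ' ht0.1 ht0.2 hσd.1 hσd.2 h1 with ⟨h2, _⟩ | ⟨h2, h3, _⟩
    · exact hgf h2
    · exact hgrf h2 h3
  push Not at hlong
  obtain ⟨hfr, hfL⟩ := hlong
  have htgt : N.tgt f = ((S.a S.T + N.L f : ℝ) : ℂ) * dir S.T := hline _ (N.L_mem_dom f)
  rcases eq_or_lt_of_le hfL with hL | hL
  swap
  · apply S.vert_right (r1 := S.a S.T + N.L f) (by linarith [N.L_pos f]) (by linarith)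
    rw [← htgt]; exact N.tgt_mem_verts hfr
  have htgt' : N.tgt f = N.z g σ' := by
    rw [htgt, hL, add_sub_cancel, hpt]
  have hσL : σ' = N.L g := by
    by_contra hcon
    have h0 : 0 < σ' := by
      have := hgc.Tm_lt (φ := 0) (φ' := S.T - S.co.X j) le_rfl (by linarith)
        (S.co.sub_mem j1.le j2).2
      rwa [hgc.Tm_zero] at this
    have h1 : σ' ∈ N.int g := ⟨h0, Or.inr (lt_of_le_of_ne hσs.1.2 hcon)⟩
    apply N.int_not_vert h1
    rw [← htgt']; exact N.tgt_mem_verts hfr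
  have hTY : S.T = S.co.X (j + 1) := by
    have h1 := hσs.2
    rw [hσL] at h1
    rw [CS.X_succ, ← hg]
    have h2 : N.ang g (N.L g) = N.Dl g := rfl
    linarith
  have hj1 : j + 1 < S.co.n := by
    rcases Nat.lt_or_ge (j + 1) S.co.n with h | h
    · exact h
    · have : j + 1 = S.co.n := by omega
      rw [this] at hTY
      have h2 : S.co.X S.co.n = S.co.t := rfl
      linarith
  have htg : N.tgt g = N.tgt f := by rw [htgt', hσL]; rfl
  have hsg : N.tgt g = (‖N.tgt g‖ : ℂ) * dir S.T := by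
    have := S.co.tgt_e hj; rw [← hTY] at this; exact this
  have hdg := hgc.dir_a (N.L_mem_dom g) hsg
  have hpg := hgc.ps_mem (N.L_mem_dom g)
  have hnext := (S.co.e_ccw hj1).ps_mem (N.zero_mem_dom _)
  rw [S.co.ps_succ hj1, S.sg_co, ← hg] at hnext
  have hrg := N.dir_rev0 hgc.arc
  rw [dir_add, hdg, ← dir_add] at hrg
  have hrf : dir (N.a (N.rev f) 0) = dir (S.T + Real.pi) := by
    rw [N.dir_rev0 hfr, dir_add, N.a_const hE (N.L_mem_dom f), hdirf', ← dir_add]
  have hsrcs : N.src (N.rev g) = N.src (N.rev f) := by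
    rw [N.src_rev hgc.arc, N.src_rev hfr, htg]
  rcases N.vertex_cases hsrcs with h1 | h1 | h1
  · exact hgf (Net.rev_inj hgc.arc hfr h1)
  · rw [h1, N.rot_dir1, hrf, ← dir_add] at hrg
    have h2 := dir_inj_of_lt hrg (by
      rw [abs_lt]; constructor <;> linarith [hpg.1, hpg.2])
    linarith [hnext.2]
  · rw [h1, N.rot_dir2, hrf, ← dir_add] at hrg
    have h2 := dir_inj_of_lt hrg (by
      rw [abs_lt]; constructor <;> linarith [hpg.1, hpg.2])
    linarith [hpg.2]

/-- the sweep theorem: both chains end at the same angle and close a cell -/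
theorem closing : S.T = S.co.t ∧ S.T = S.ci.t ∧
    ∃ j : ℕ, (j = 1 ∧ S.a S.T = S.b S.T ∧ S.β S.T = S.α S.T + 2 * Real.pi / 3) ∨
      (j = 2 ∧ S.a S.T < S.b S.T ∧ S.β S.T = 2 * Real.pi / 3 ∧ S.α S.T = Real.pi / 3) := by
  rcases eq_or_lt_of_le S.le_T with h | h
  · have h1 := S.meet S.lt_T S.T_le1 S.T_le2 S.lt_all h
    exact ⟨h1.1, h1.2.1, 1, Or.inl ⟨rfl, h, h1.2.2.2⟩⟩
  · rcases eq_or_lt_of_le S.T_le1 with h2 | h2
    · have h3 := S.close_co h h2
      exact ⟨h2, h3.1, 2, Or.inr ⟨rfl, h, h3.2.1, h3.2.2.1⟩⟩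
    · exfalso
      have h3 : S.T = S.ci.t := by
        rcases min_choice S.co.t S.ci.t with h4 | h4
        · have : S.T = S.co.t := h4
          linarith
        · exact h4
      exact S.not_close_ci h h3 h2

theorem cell : ∃ i j : ℕ, Cell S.a S.α S.b S.β S.ci.C S.co.C S.ϑ S.T i j := by
  obtain ⟨h1, h2, j, hj⟩ := S.closing
  obtain ⟨i, hi⟩ := S.start
  refine ⟨i, j, ⟨?_, ?_, S.lt_all, hi, hj⟩⟩
  · have := S.chain_co; rw [← h1] at this; exact this
  · have := S.chain_ci; rw [← h2] at this; exact this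

end Swp

end

end Pool.Agent.MP_4c0f47_an
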