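import Pool.Agent.Lib.MP_4c0f47_an.Disj

set_option autoImplicit false

open Set Filter Topology Complex MeasureTheory

namespace Pool.Agent.MP_4c0f47_an

noncomputable section

/-- polar coordinates -/
def plr (p : ℝ × ℝ) : ℂ := (p.1 : ℂ) * dir p.2

theorem plr_eq (p : ℝ × ℝ) : Complex.measurableEquivRealProd (plr p) = polarCoord.symm p := by
  have : plr p = ⟨p.1 * Real.cos p.2, p.1 * Real.sin p.2⟩ := by
    rw [plr]
    apply Complex.ext
    · rw [Complex.re_ofReal_mul, dir_re]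
    · rw [Complex.im_ofReal_mul, dir_im]
  rw [this]
  rfl

theorem volume_plr_image {A : Set (ℝ × ℝ)} (hA : MeasurableSet A) (h0 : ∀ p ∈ A, 0 ≤ p.1)
    (hinj : InjOn plr A) : volume (plr '' A) = ∫⁻ p in A, ENNReal.ofReal p.1 := by
  have h1 : plr '' A = Complex.measurableEquivRealProd ⁻¹' (polarCoord.symm '' A) := by
    ext z
    constructor
    · rintro ⟨p, hp, rfl⟩
      exact ⟨p, hp, (plr_eq p).symm⟩
    · rintro ⟨p, hp, hpz⟩
      refine ⟨p, hp, ?_⟩
      apply Complex.measurableEquivRealProd.injective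
      rw [plr_eq, hpz]
  have hinj2 : InjOn polarCoord.symm A := by
    intro p hp q hq hpq
    apply hinj hp hq
    apply Complex.measurableEquivRealProd.injective
    rw [plr_eq, plr_eq, hpq]
  rw [h1, Complex.volume_preserving_equiv_real_prod.measure_preimage_equiv,
    ← lintegral_abs_det_fderiv_eq_addHaar_image volume hA
      (fun p _ => (hasFDerivAt_polarCoord_symm p).hasFDerivWithinAt) hinj2]
  apply setLIntegral_congr_fun hA
  intro p hp
  simp only [det_fderivPolarCoordSymm, abs_of_nonneg (h0 p hp)]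

/-- region between two polar graphs -/
def btw (a b : ℝ → ℝ) (x y : ℝ) : Set (ℝ × ℝ) := {p | p.2 ∈ Ioo x y ∧ a p.2 < p.1 ∧ p.1 < b p.2}

theorem isOpen_btw {a b : ℝ → ℝ} {x y : ℝ} (ha : ContinuousOn a (Ioo x y))
    (hb : ContinuousOn b (Ioo x y)) : IsOpen (btw a b x y) := by
  have h1 : btw a b x y = (univ ×ˢ Ioo x y) ∩ (fun p : ℝ × ℝ => (p.1 - a p.2, b p.2 - p.1)) ⁻¹'
      (Ioi 0 ×ˢ Ioi 0) := by
    ext p
    simp only [btw, mem_ofPred_eq, mem_inter_iff, mem_prod, mem_univ, true_and, mem_preimage,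
      mem_Ioi, sub_pos]
  rw [h1]
  apply ContinuousOn.isOpen_inter_preimage
  · have ha : ContinuousOn (fun p : ℝ × ℝ => a p.2) (univ ×ˢ Ioo x y) :=
      ha.comp continuousOn_snd (fun p hp => hp.2)
    have hb : ContinuousOn (fun p : ℝ × ℝ => b p.2) (univ ×ˢ Ioo x y) :=
      hb.comp continuousOn_snd (fun p hp => hp.2)
    exact (continuousOn_fst.sub ha).prodMk (hb.sub continuousOn_fst)
  · exact isOpen_univ.prod isOpen_Ioo
  · exact isOpen_Ioi.prod isOpen_Ioi

theorem lintegral_btw {a b : ℝ → ℝ} {x y : ℝ} (hxy : x ≤ y) (ha : ContinuousOn a (Icc x y))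
    (hb : ContinuousOn b (Icc x y)) (h0 : ∀ θ ∈ Ioo x y, 0 ≤ a θ)
    (hab : ∀ θ ∈ Ioo x y, a θ ≤ b θ) :
    ∫⁻ p in btw a b x y, ENNReal.ofReal p.1 =
      ENNReal.ofReal ((∫ θ in x..y, (b θ ^ 2 - a θ ^ 2)) / 2) := by
  have hm : MeasurableSet (btw a b x y) :=
    (isOpen_btw (ha.mono Ioo_subset_Icc_self) (hb.mono Ioo_subset_Icc_self)).measurableSet
  rw [← lintegral_indicator hm, Measure.volume_eq_prod]
  have hmeas : Measurable ((btw a b x y).indicator (fun p : ℝ × ℝ => ENNReal.ofReal p.1)) :=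
    (ENNReal.measurable_ofReal.comp measurable_fst).indicator hm
  rw [lintegral_prod_symm _ hmeas.aemeasurable]
  have h1 : ∀ θ : ℝ, ∫⁻ r, (btw a b x y).indicator (fun p : ℝ × ℝ => ENNReal.ofReal p.1) (r, θ)
      = (Ioo x y).indicator (fun θ => ENNReal.ofReal ((b θ ^ 2 - a θ ^ 2) / 2)) θ := by
    intro θ
    by_cases hθ : θ ∈ Ioo x y
    · rw [indicator_of_mem hθ]
      have h2 : ∀ r : ℝ, (btw a b x y).indicator (fun p : ℝ × ℝ => ENNReal.ofReal p.1) (r, θ)
          = (Ioo (a θ) (b θ)).indicator (fun r => ENNReal.ofReal r) r := by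
        intro r
        by_cases hr : r ∈ Ioo (a θ) (b θ)
        · rw [indicator_of_mem hr, indicator_of_mem (show (r, θ) ∈ btw a b x y from ⟨hθ, hr⟩)]
        · rw [indicator_of_notMem hr, indicator_of_notMem]
          intro h
          exact hr h.2
      simp_rw [h2]
      rw [lintegral_indicator measurableSet_Ioo, restrict_Ioo_eq_restrict_Ioc,
        ← ofReal_integral_eq_lintegral_ofReal]
      · congr 1
        rw [← intervalIntegral.integral_of_le (hab θ hθ), integral_id]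
      · exact (continuous_id.intervalIntegrable _ _).1
      · refine (ae_restrict_iff' measurableSet_Ioc).2 (Eventually.of_forall ?_)
        intro r hr
        exact (h0 θ hθ).trans hr.1.le
    · rw [indicator_of_notMem hθ]
      have h2 : ∀ r : ℝ, (btw a b x y).indicator (fun p : ℝ × ℝ => ENNReal.ofReal p.1) (r, θ)
          = 0 := by
        intro r
        rw [indicator_of_notMem]
        intro h
        exact hθ h.1
      simp_rw [h2]
      simp
  simp_rw [h1]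
  rw [lintegral_indicator measurableSet_Ioo, restrict_Ioo_eq_restrict_Ioc,
    ← ofReal_integral_eq_lintegral_ofReal]
  · congr 1
    rw [← intervalIntegral.integral_of_le hxy, intervalIntegral.integral_div]
  · have : ContinuousOn (fun θ => (b θ ^ 2 - a θ ^ 2) / 2) (Icc x y) := by fun_prop
    have h3 : IntervalIntegrable (fun θ => (b θ ^ 2 - a θ ^ 2) / 2) volume x y :=
      ContinuousOn.intervalIntegrable (by rwa [uIcc_of_le hxy])
    exact h3.1
  · rw [← restrict_Ioo_eq_restrict_Ioc]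
    refine (ae_restrict_iff' measurableSet_Ioo).2 (Eventually.of_forall ?_)
    intro θ hθ
    have h2 := h0 θ hθ
    have h3 := hab θ hθ
    have h4 : a θ ^ 2 ≤ b θ ^ 2 := pow_le_pow_left₀ h2 h3 2
    show (0 : ℝ) ≤ (b θ ^ 2 - a θ ^ 2) / 2
    linarith

theorem volume_btw {a b : ℝ → ℝ} {x y : ℝ} (hxy : x ≤ y) (ha : ContinuousOn a (Icc x y))
    (hb : ContinuousOn b (Icc x y)) (h0 : ∀ θ ∈ Ioo x y, 0 ≤ a θ)
    (hab : ∀ θ ∈ Ioo x y, a θ ≤ b θ) (hinj : InjOn plr (btw a b x y)) :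
    volume (plr '' btw a b x y) = ENNReal.ofReal ((∫ θ in x..y, (b θ ^ 2 - a θ ^ 2)) / 2) := by
  rw [volume_plr_image (isOpen_btw (ha.mono Ioo_subset_Icc_self)
    (hb.mono Ioo_subset_Icc_self)).measurableSet _ hinj, lintegral_btw hxy ha hb h0 hab]
  intro p hp
  exact (h0 _ hp.1).trans hp.2.1.le

/-- counting disjoint sets by area -/
theorem card_le_of_area {ι : Type*} (s : Finset ι) (A : ι → Set ℂ)
    (hm : ∀ i ∈ s, MeasurableSet (A i)) (hd : ∀ i ∈ s, ∀ j ∈ s, i ≠ j → Disjoint (A i) (A j))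
    {R δ : ℝ} (hR : 0 ≤ R) (hδ : 0 < δ)
    (h : ∀ i ∈ s, ENNReal.ofReal δ ≤ volume (A i ∩ Metric.ball 0 R)) :
    (s.card : ℝ) * δ ≤ Real.pi * R ^ 2 := by
  have h1 : (∑ i ∈ s, volume (A i ∩ Metric.ball 0 R)) ≤ volume (Metric.ball (0 : ℂ) R) := by
    rw [← measure_biUnion_finset]
    · apply measure_mono
      intro z hz
      simp only [mem_iUnion, mem_inter_iff] at hz
      obtain ⟨i, _, h2⟩ := hz
      exact h2.2
    · intro i hi j hj hij
      exact (hd i hi j hj hij).mono inter_subset_left inter_subset_left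
    · intro i hi
      exact (hm i hi).inter measurableSet_ball
  have h2 : (s.card : ENNReal) * ENNReal.ofReal δ ≤ ∑ i ∈ s, volume (A i ∩ Metric.ball 0 R) := by
    rw [← nsmul_eq_mul]
    exact Finset.card_nsmul_le_sum s _ _ h
  have h3 := h2.trans h1
  rw [Complex.volume_ball] at h3
  have h4 : ENNReal.ofReal (s.card * δ) ≤ ENNReal.ofReal (Real.pi * R ^ 2) := by
    rw [ENNReal.ofReal_mul (by positivity), ENNReal.ofReal_natCast]
    refine h3.trans (le_of_eq ?_)
    rw [mul_comm Real.pi, ENNReal.ofReal_mul (by positivity), ENNReal.ofReal_pow hR]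
    congr 1
    rw [← NNReal.coe_real_pi, ENNReal.ofReal_coe_nnreal]
  exact (ENNReal.ofReal_le_ofReal_iff (by positivity)).1 h4

namespace Swp

variable {N : Net} (S S' : Swp N)

theorem reg_eq : S.reg = btw S.a S.b S.ϑ S.T := rfl

theorem injOn_plr : InjOn plr S.reg := by
  rintro ⟨r, θ⟩ hp ⟨r', θ'⟩ hq h
  obtain ⟨h1, h2⟩ := polar_inj (S.reg_pos hp) (S.reg_pos hq) h
  simp only at h1 h2
  subst h1
  have h3 := (overlap hp hq h2).2
  have : θ = θ' := by linarith
  rw [this]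

/-- the swept region -/
def img : Set ℂ := plr '' S.reg

theorem continuous_plr : Continuous plr := by
  have : plr = fun p : ℝ × ℝ => (p.1 : ℂ) * dir p.2 := rfl
  rw [this]
  exact (Complex.continuous_ofReal.comp continuous_fst).mul (continuous_dir.comp continuous_snd)

theorem measurableSet_img : MeasurableSet S.img :=
  S.isOpen_reg.measurableSet.image_of_continuousOn_injOn continuous_plr.continuousOn S.injOn_plr

variable {S S'}

theorem disjoint_img (h : S.e ≠ S'.e) : Disjoint S.img S'.img := by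
  rw [Set.disjoint_left]
  rintro z ⟨⟨r, θ⟩, hp, rfl⟩ ⟨⟨r', θ'⟩, hq, h2⟩
  obtain ⟨h3, h4⟩ := polar_inj (S'.reg_pos hq) (S.reg_pos hp) h2
  simp only at h3 h4
  subst h3
  exact h (overlap hp hq h4.symm).1

variable (S)

theorem volume_sub {x y : ℝ} (hx : S.ϑ ≤ x) (hxy : x ≤ y) (hy : y ≤ S.T) :
    volume (plr '' btw S.a S.b x y) =
      ENNReal.ofReal ((∫ θ in x..y, (S.b θ ^ 2 - S.a θ ^ 2)) / 2) := by
  have h1 : Icc x y ⊆ Icc S.ϑ S.T := Icc_subset_Icc hx hy
  have h2 : Ioo x y ⊆ Ioo S.ϑ S.T := Ioo_subset_Ioo hx hy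
  apply volume_btw hxy (S.cont_a.mono h1) (S.cont_b.mono h1)
  · intro θ hθ
    exact (S.pos_a (Ioo_subset_Icc_self (h2 hθ))).le
  · intro θ hθ
    exact (S.lt_all θ (h2 hθ)).le
  · apply S.injOn_plr.mono
    intro p hp
    exact ⟨h2 hp.1, hp.2⟩

theorem volume_img : volume S.img =
    ENNReal.ofReal ((∫ θ in S.ϑ..S.T, (S.b θ ^ 2 - S.a θ ^ 2)) / 2) :=
  S.volume_sub le_rfl S.lt_T.le le_rfl

theorem sub_ball {x y R : ℝ} (hx : S.ϑ ≤ x) (hy : y ≤ S.T)
    (hb : ∀ θ ∈ Ioo x y, S.b θ ≤ R) : plr '' btw S.a S.b x y ⊆ S.img ∩ Metric.ball 0 R := by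
  rintro z ⟨p, hp, rfl⟩
  have h1 : p ∈ S.reg := ⟨⟨lt_of_le_of_lt hx hp.1.1, lt_of_lt_of_le hp.1.2 hy⟩, hp.2⟩
  refine ⟨⟨p, h1, rfl⟩, ?_⟩
  rw [mem_ball_zero_iff, plr, norm_mul_dir, abs_of_pos (S.reg_pos h1)]
  exact lt_of_lt_of_le hp.2.2 (hb _ hp.1)

/-- the region has some area in the disc of radius `R` -/
def Fat (R : ℝ) : Prop := ENNReal.ofReal (1 / 10) ≤ volume (S.img ∩ Metric.ball 0 R)

variable {S}

theorem thin_int {R : ℝ} (h : ¬ S.Fat R) {x y : ℝ} (hx : S.ϑ ≤ x) (hxy : x ≤ y) (hy : y ≤ S.T)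
    (hb : ∀ θ ∈ Ioo x y, S.b θ ≤ R) :
    (∫ θ in x..y, (S.b θ ^ 2 - S.a θ ^ 2)) < Real.pi / 12 := by
  have h1 := measure_mono (μ := volume) (S.sub_ball hx hy hb)
  rw [S.volume_sub hx hxy hy] at h1
  have h2 : volume (S.img ∩ Metric.ball 0 R) < ENNReal.ofReal (1 / 10) := not_le.1 h
  have h3 := lt_of_le_of_lt h1 h2
  have h4 := (ENNReal.ofReal_lt_ofReal_iff (by norm_num)).1 h3
  have := Real.pi_gt_d2
  linarith

theorem thin_sector {R : ℝ} (hR : 1 ≤ R) (h : ¬ S.Fat R) {u v : ℝ} (hu : S.ϑ ≤ u)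
    (hv : v ≤ S.T) (huv : u + Real.pi / 6 ≤ v) (ha : ∀ θ ∈ Ioo u v, S.a θ < 1 / 10) :
    ∃ θ ∈ Ioo u v, S.b θ ≤ 92 / 100 := by
  by_contra hcon
  push Not at hcon
  apply h
  have hpi := Real.pi_gt_d2
  have h0 : u ≤ v := by linarith
  have hsub : btw (fun _ => (1 / 10 : ℝ)) (fun _ => 92 / 100) u v ⊆ S.reg := by
    intro p hp
    have h1 := hp.2.1
    have h2 := hp.2.2
    simp only at h1 h2
    exact ⟨⟨lt_of_le_of_lt hu hp.1.1, lt_of_lt_of_le hp.1.2 hv⟩, (ha _ hp.1).trans h1,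
      h2.trans (hcon _ hp.1)⟩
  have h1 := volume_btw (a := fun _ => (1 / 10 : ℝ)) (b := fun _ => 92 / 100) h0
    continuousOn_const continuousOn_const (fun _ _ => by norm_num) (fun _ _ => by norm_num)
    (S.injOn_plr.mono hsub)
  rw [intervalIntegral.integral_const] at h1
  have h2 : plr '' btw (fun _ => (1 / 10 : ℝ)) (fun _ => 92 / 100) u v
      ⊆ S.img ∩ Metric.ball 0 R := by
    rintro z ⟨p, hp, rfl⟩
    refine ⟨⟨p, hsub hp, rfl⟩, ?_⟩
    rw [mem_ball_zero_iff, plr, norm_mul_dir, abs_of_pos (S.reg_pos (hsub hp))]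
    have := hp.2.2
    simp only at this
    linarith
  refine le_trans ?_ (measure_mono h2)
  rw [h1]
  apply ENNReal.ofReal_le_ofReal
  rw [smul_eq_mul]
  nlinarith

end Swp

end

end Pool.Agent.MP_4c0f47_an
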