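import Pool.Agent.Lib.MP_4c0f47_an.Count
import Pool.Agent.Lib.MP_4c0f47_an.Cycles

set_option autoImplicit false

open Set Filter Topology Complex MeasureTheory

namespace Pool.Agent.MP_4c0f47_an

noncomputable section

namespace Net

variable {N : Net}

theorem three_finset (N : Net) : ∃ s : Finset N.D, s.card ≤ 15 ∧ ∀ g, N.Three g → g ∈ s := by
  classical
  refine ⟨Finset.univ.filter (fun g => N.Three g), ?_, ?_⟩
  · have h := N.cycles_le
    have h2 : {g : N.D | ∀ k, N.CCW (N.left^[k] g)} =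
        ((Finset.univ.filter (fun g => N.Three g) : Finset N.D) : Set N.D) := by
      ext g
      simp only [Finset.coe_filter, Finset.mem_univ, true_and]
      rfl
    rw [h2, Set.encard_coe_eq_coe_finsetCard] at h
    exact_mod_cast h
  · intro g hg
    simp [hg]

/-- `g` is an outer edge, of N type, of the cell swept from `S` -/
theorem type1_or {g : N.D} (hg : N.Vt g) {s2 s3 : Finset N.D} (h2 : ∀ g, N.Two g → g ∈ s2)
    (h3 : ∀ g, N.Three g → g ∈ s3) (hn2 : g ∉ s2) (hn3 : g ∉ s3) :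
    ∃ S : Swp N, ∃ m, m < S.co.n ∧ S.co.e m = g ∧ (1 ≤ m ∨ N.Out S.e) := by
  rcases back hg.1 hg.2.1 with h | h | h
  · exact h
  · exact absurd (h2 g h) hn2
  · exact absurd (h3 g h) hn3

end Net

namespace Swp

variable {N : Net} (S : Swp N)

theorem has_unit {m : ℕ} (hm : m < S.co.n) (hg : N.Vt (S.co.e m)) (h1 : 1 ≤ m ∨ N.Out S.e) :
    ∃ θ ∈ Icc S.ϑ S.T, S.a θ ≤ 1 := by
  obtain ⟨i, j, hc⟩ := S.cell
  obtain ⟨k1, k2, k3⟩ := S.corners_of hc hm hg h1
  exact hc.unit k1 k2 k3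

/-- thin cells have an inner arc of V type in a fixed disc -/
theorem thin_vt (hgap : GapLevels) {ρ0 R : ℝ} (hρ0 : 5 ≤ ρ0) (hR : ρ0 + 25 ≤ R)
    (hthin : ¬ S.Fat R) (h1 : ∃ θ ∈ Icc S.ϑ S.T, S.a θ ≤ 1) :
    ∃ j < S.ci.n, N.Vt (S.ci.e j) ∧
      ∀ φ ∈ Icc 0 (N.Dl (S.ci.e j)), N.Rr (S.ci.e j) φ < ρ0 + 24 := by
  obtain ⟨i, j, hc⟩ := S.cell
  obtain ⟨k, hk, hg⟩ := hgap _ _ _ _ _ _ _ _ _ _ hc ρ0 (by linarith)
  have hk' : (k : ℝ) ≤ 12 := by exact_mod_cast (show k ≤ 12 by omega)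
  have hk0 : (0 : ℝ) ≤ k := Nat.cast_nonneg k
  obtain ⟨x, y, hxy, hx, hy, hC, hlt, h2, h3⟩ := hc.T2 (ρ := ρ0 + 2 * k) (ρ' := ρ0 + 2 * k + 1)
    (by linarith) le_rfl hg
    (by
      intro u v hu hv huv ha
      exact thin_sector (R := R) (by linarith) hthin hu hv huv ha)
    (by
      intro x hx hb
      refine thin_int hthin hx.1.le hx.2.le le_rfl ?_
      intro θ hθ
      have := hb θ (Ioo_subset_Icc_self hθ)
      linarith)
    (by
      intro x hx hb
      refine thin_int hthin le_rfl hx.1.le hx.2.le ?_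
      intro θ hθ
      have := hb θ (Ioo_subset_Icc_self hθ)
      linarith)
    (by
      obtain ⟨θ, hθ, h4⟩ := h1
      exact ⟨θ, hθ, by linarith⟩)
  obtain ⟨j, hj, hxj, hyj⟩ := S.adj hxy hx hy hC
  refine ⟨j, hj, S.vt_of hj hxj hyj h2 h3, ?_⟩
  intro φ hφ
  have h5 : S.ci.X j + φ ∈ Icc x y := by
    rw [hxj, hyj, CS.X_succ]
    exact ⟨by linarith [hφ.1], by linarith [hφ.2]⟩
  have h6 := hlt _ h5
  have h7 : S.a (S.ci.X j + φ) = N.Rr (S.ci.e j) φ := by
    have := S.ci.b_eq hj (x := S.ci.X j + φ) (by linarith [hφ.1])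
      (by rw [CS.X_succ]; linarith [hφ.2])
    rw [add_sub_cancel_left] at this
    exact this
  rw [h7] at h6
  linarith

/-- cells behind an N type arc in a disc are contained in a larger disc -/
theorem bounded_of (hgap : GapLevels) {ρ0 : ℝ} (hρ0 : 5 ≤ ρ0) {m : ℕ}
    (hm : m < S.co.n) (hg : N.Vt (S.co.e m)) (h1 : 1 ≤ m ∨ N.Out S.e)
    (hr : ∀ φ ∈ Icc 0 (N.Dl (S.co.e m)), N.Rr (S.co.e m) φ < ρ0) :
    ENNReal.ofReal (Real.pi / 6) ≤ volume (S.img ∩ Metric.ball 0 (ρ0 + 25)) := by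
  obtain ⟨i, j, hc⟩ := S.cell
  obtain ⟨k1, k2, k3⟩ := S.corners_of hc hm hg h1
  obtain ⟨k, hk, hgp⟩ := hgap _ _ _ _ _ _ _ _ _ _ hc ρ0 (by linarith)
  have hk' : (k : ℝ) ≤ 12 := by exact_mod_cast (show k ≤ 12 by omega)
  have hk0 : (0 : ℝ) ≤ k := Nat.cast_nonneg k
  have h4 := hc.T1 (ρ := ρ0 + 2 * k) (ρ' := ρ0 + 2 * k + 1) (by linarith) le_rfl hgp k1 k2 k3 (by
    intro θ hθ
    have h5 : S.b θ = N.Rr (S.co.e m) (θ - S.co.X m) := S.co.b_eq hm hθ.1 hθ.2
    rw [h5]
    have := hr _ (S.co.sub_mem hθ.1 hθ.2)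
    linarith)
  have h5 : S.img ⊆ S.img ∩ Metric.ball 0 (ρ0 + 25) :=
    S.sub_ball le_rfl le_rfl (fun θ hθ => by
      have := h4 θ (Ioo_subset_Icc_self hθ)
      linarith)
  refine le_trans ?_ (measure_mono h5)
  rw [S.volume_img, hc.total]
  apply ENNReal.ofReal_le_ofReal
  have h6 : ((i + j + S.ci.C.card + S.co.C.card : ℕ) : ℝ) ≤ 5 := by exact_mod_cast hc.count
  have := Real.pi_pos
  nlinarith

end Swp

namespace Net

variable {N : Net}

open Classical in
/-- the number of tips is bounded -/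
theorem tips_le (hgap : GapLevels) (N : Net) :
    (Finset.univ.filter (fun e : N.D => N.Tip e)).card ≤ 400000 := by
  obtain ⟨s2, h2c, h2⟩ := two_finset N
  obtain ⟨s3, h3c, h3⟩ := three_finset N
  have hs : (s2 ∪ s3).card ≤ 30 := (Finset.card_union_le _ _).trans (by omega)
  have hpi := Real.pi_lt_d2
  have hpi0 := Real.pi_pos
  -- arcs
  set V := Finset.univ.filter (fun g : N.D => N.Vt g) with hV
  set U := Finset.univ.filter (fun e : N.D => ∃ S : Swp N, S.e = e ∧
    ∃ θ ∈ Icc S.ϑ S.T, S.a θ ≤ 1) with hU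
  set F := Finset.univ.filter (fun e : N.D => ∃ S : Swp N, S.e = e ∧ S.Fat 30) with hF
  set G := Finset.univ.filter (fun g : N.D => N.Vt g ∧
    ∀ φ ∈ Icc 0 (N.Dl g), N.Rr g φ < 29) with hG
  set C := Finset.univ.filter (fun e : N.D => ∃ S : Swp N, S.e = e ∧
    ENNReal.ofReal (Real.pi / 6) ≤ volume (S.img ∩ Metric.ball 0 54)) with hC
  -- area bounds
  have hFc : F.card ≤ 28350 := by
    have := card_area F (R := 30) (δ := 1 / 10) (by norm_num) (by norm_num) (by
      intro e he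
      rw [hF, Finset.mem_filter] at he
      exact he.2)
    have h5 : (F.card : ℝ) ≤ 28350 := by nlinarith
    exact_mod_cast h5
  have hCc : C.card ≤ 17496 := by
    have := card_area C (R := 54) (δ := Real.pi / 6) (by norm_num) (by positivity) (by
      intro e he
      rw [hC, Finset.mem_filter] at he
      exact he.2)
    have h5 : (C.card : ℝ) * Real.pi ≤ 17496 * Real.pi := by nlinarith
    have h6 : (C.card : ℝ) ≤ 17496 := le_of_mul_le_mul_right h5 hpi0
    exact_mod_cast h6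
  -- arcs in the disc
  have hGc : G.card ≤ 30 + 4 * C.card := by
    have h5 : (G \ (s2 ∪ s3)).card ≤ 4 * C.card := by
      apply card_type1
      intro g hg
      rw [Finset.mem_sdiff, hG, Finset.mem_filter] at hg
      obtain ⟨⟨_, hg1, hg2⟩, hg3⟩ := hg
      obtain ⟨S, m, hm, he, h1⟩ := type1_or hg1 h2 h3
        (fun h => hg3 (Finset.mem_union_left _ h)) (fun h => hg3 (Finset.mem_union_right _ h))
      refine ⟨S, m, hm, he, ?_⟩
      rw [hC, Finset.mem_filter]
      refine ⟨Finset.mem_univ _, S, rfl, ?_⟩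
      have := S.bounded_of hgap (ρ0 := 29) (by norm_num) hm (by rw [he]; exact hg1) h1
        (by rw [he]; exact hg2)
      norm_num at this
      exact this
    have h6 : G ⊆ (G \ (s2 ∪ s3)) ∪ (s2 ∪ s3) := by
      intro g hg
      by_cases h7 : g ∈ s2 ∪ s3
      · exact Finset.mem_union_right _ h7
      · exact Finset.mem_union_left _ (Finset.mem_sdiff.2 ⟨hg, h7⟩)
    have h7 := Finset.card_le_card h6
    have h8 := Finset.card_union_le (G \ (s2 ∪ s3)) (s2 ∪ s3)
    omega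
  -- cells with two outer corners
  have hUc : U.card ≤ F.card + G.card := by
    have h5 : (U \ F).card ≤ G.card := by
      apply card_inner
      intro e he
      rw [Finset.mem_sdiff, hU, Finset.mem_filter] at he
      obtain ⟨⟨_, S, hS, h1⟩, he2⟩ := he
      have hthin : ¬ S.Fat 30 := by
        intro h
        apply he2
        rw [hF, Finset.mem_filter]
        exact ⟨Finset.mem_univ _, S, hS, h⟩
      obtain ⟨j, hj, hv, hr⟩ := S.thin_vt hgap (ρ0 := 5) (R := 30) le_rfl (by norm_num) hthin h1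
      refine ⟨S, hS, j, hj, ?_⟩
      rw [hG, Finset.mem_filter]
      refine ⟨Finset.mem_univ _, hv, ?_⟩
      intro φ hφ
      have := hr φ hφ
      linarith
    have h6 : U ⊆ F ∪ (U \ F) := by
      intro g hg
      by_cases h7 : g ∈ F
      · exact Finset.mem_union_left _ h7
      · exact Finset.mem_union_right _ (Finset.mem_sdiff.2 ⟨hg, h7⟩)
    have h7 := Finset.card_le_card h6
    have h8 := Finset.card_union_le F (U \ F)
    omega
  -- all V type arcs
  have hVc : V.card ≤ 30 + 4 * U.card := by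
    have h5 : (V \ (s2 ∪ s3)).card ≤ 4 * U.card := by
      apply card_type1
      intro g hg
      rw [Finset.mem_sdiff, hV, Finset.mem_filter] at hg
      obtain ⟨⟨_, hg1⟩, hg3⟩ := hg
      obtain ⟨S, m, hm, he, h1⟩ := type1_or hg1 h2 h3
        (fun h => hg3 (Finset.mem_union_left _ h)) (fun h => hg3 (Finset.mem_union_right _ h))
      refine ⟨S, m, hm, he, ?_⟩
      rw [hU, Finset.mem_filter]
      refine ⟨Finset.mem_univ _, S, rfl, ?_⟩
      exact S.has_unit hm (by rw [he]; exact hg1) h1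
    have h6 : V ⊆ (V \ (s2 ∪ s3)) ∪ (s2 ∪ s3) := by
      intro g hg
      by_cases h7 : g ∈ s2 ∪ s3
      · exact Finset.mem_union_right _ h7
      · exact Finset.mem_union_left _ (Finset.mem_sdiff.2 ⟨hg, h7⟩)
    have h7 := Finset.card_le_card h6
    have h8 := Finset.card_union_le (V \ (s2 ∪ s3)) (s2 ∪ s3)
    omega
  have hTc : (Finset.univ.filter (fun e : N.D => N.Tip e)).card ≤ V.card := by
    apply card_inner
    intro e he
    rw [Finset.mem_filter] at he
    obtain ⟨S, hS⟩ := exists_swp he.2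
    obtain ⟨j, hj, hv⟩ := S.exists_vt
    refine ⟨S, hS, j, hj, ?_⟩
    rw [hV, Finset.mem_filter]
    exact ⟨Finset.mem_univ _, hv⟩
  omega

end Net

end

end Pool.Agent.MP_4c0f47_an
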