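import Pool.Agent.Lib.MP_4c0f47_an.Origin

set_option autoImplicit false

open Set Filter Topology Complex MeasureTheory

namespace Pool.Agent.MP_4c0f47_an

noncomputable section

namespace Net

variable {N : Net}

/-- radial edges running into the origin -/
def RO (w : N.D) : Prop := N.E w = 0 ∧ ‖N.src w‖ ∈ N.dom w ∧ 0 < ‖N.src w‖ ∧
  N.z w ‖N.src w‖ = 0

theorem ro_finset (N : Net) : ∃ s : Finset N.D, s.card ≤ 3 ∧ ∀ w, N.RO w → w ∈ s := by
  classical
  by_cases h1 : ∃ w0, N.RO w0 ∧ ‖N.src w0‖ ∈ N.int w0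
  · obtain ⟨w0, hw0, hint⟩ := h1
    refine ⟨{w0, N.rev w0}, Finset.card_le_two.trans (by norm_num), ?_⟩
    intro w hw
    rw [Finset.mem_insert, Finset.mem_singleton]
    rcases N.inj w0 w ‖N.src w0‖ ‖N.src w‖ hint.1 hint.2 hw.2.1.1 hw.2.1.2
      (by rw [hw0.2.2.2, hw.2.2.2]) with ⟨h2, _⟩ | ⟨_, h2, _⟩
    · exact Or.inl h2
    · exact Or.inr h2
  · have key : ∀ w, N.RO w → ¬ N.isRay w ∧ N.src (N.rev w) = 0 := by
      intro w hw
      have harc : ¬ N.isRay w := fun h => h1 ⟨w, hw, hw.2.2.1, Or.inl h⟩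
      refine ⟨harc, ?_⟩
      have hL : N.L w = ‖N.src w‖ := by
        rcases hw.2.1.2 with h2 | h2
        · exact absurd h2 harc
        · by_contra hcon
          exact h1 ⟨w, hw, hw.2.2.1, Or.inr (lt_of_le_of_ne h2 (fun h => hcon h.symm))⟩
      rw [N.src_rev harc, tgt, hL, hw.2.2.2]
    by_cases h2 : ∃ w0, N.RO w0
    · obtain ⟨w0, hw0⟩ := h2
      obtain ⟨k1, k2⟩ := key w0 hw0
      refine ⟨{N.rev (N.rev w0), N.rev (N.rot (N.rev w0)), N.rev (N.rot (N.rot (N.rev w0)))},
        Finset.card_le_three, ?_⟩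
      intro w hw
      obtain ⟨k3, k4⟩ := key w hw
      simp only [Finset.mem_insert, Finset.mem_singleton]
      have h5 : w = N.rev (N.rev w) := (N.rev_rev w k3).symm
      rcases N.vertex_cases (k4.trans k2.symm) with h6 | h6 | h6
      · left; rw [← h6]; exact h5
      · right; left; rw [← h6]; exact h5
      · right; right; rw [← h6]; exact h5
    · exact ⟨∅, by simp, fun w hw => absurd ⟨w, hw⟩ h2⟩

theorem two_finset (N : Net) : ∃ s : Finset N.D, s.card ≤ 15 ∧ ∀ g, N.Two g → g ∈ s := by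
  classical
  obtain ⟨s, hs1, hs2⟩ := ro_finset N
  refine ⟨(s ×ˢ Finset.range 5).image (fun p => (N.left)^[p.2] (N.rot (N.rot p.1))), ?_, ?_⟩
  · refine Finset.card_image_le.trans ?_
    rw [Finset.card_product, Finset.card_range]
    omega
  · rintro g ⟨q, m, hq, hps, hE, hw, hg, hall⟩
    rw [Finset.mem_image]
    have hp := Real.pi_pos
    obtain ⟨ϑ, hϑ⟩ := exists_polar (N.src q)
    have hn : 0 < ‖N.src q‖ := hq.norm_pos (N.zero_mem_dom _)
    refine ⟨(N.rot q, m), ?_, ?_⟩
    · rw [Finset.mem_product]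
      constructor
      · apply hs2
        refine ⟨hE, by rw [N.src_rot]; exact hw, by rw [N.src_rot]; exact hn, ?_⟩
        have hdir : dir (N.a (N.rot q) 0) = - dir ϑ := by
          rw [N.dir_rot _ _ (hq.dir_a (N.zero_mem_dom _) hϑ), hps, ← dir_add_pi]
          congr 1; ring
        rw [N.src_rot, N.z_line hE hw, hdir, N.src_rot]
        conv_lhs => lhs; rw [hϑ]
        ring
      · rw [Finset.mem_range]
        let c : CS N :=
          { σ := true, d0 := q, n := m + 1, X0 := ϑ, npos := by omega,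
            ccw := fun i hi => hall i (by omega), start := hϑ }
        have h1 : c.t ≤ c.s + Real.pi := origin_bound c rfl hps hE hw
        have h2 : c.n ≤ 5 := count_bound c rfl (by rw [show c.d0 = q from rfl, hps]) h1
        have h3 : c.n = m + 1 := rfl
        show m < 5
        omega
    · show (N.left)^[m] (N.rot (N.rot (N.rot q))) = g
      rw [N.rot3, hg]

end Net

end

end Pool.Agent.MP_4c0f47_an
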