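import Pool.Agent.Lib.MP_4c0f47_an.Vertex

set_option autoImplicit false

open Set Filter Topology Complex MeasureTheory

namespace Pool.Agent.MP_4c0f47_an

noncomputable section

/-- integral of `dz / (z - x)` along a curve -/
def cind (z : ℝ → ℂ) (a : ℝ → ℝ) (s0 s1 : ℝ) (x : ℂ) : ℂ :=
  ∫ t in s0..s1, dir (a t) / (z t - x)

namespace Geo

variable {z : ℝ → ℂ} {a : ℝ → ℝ} {s0 s1 : ℝ}

theorem cont_integrand (h : Geo z a s0 s1) {x : ℂ} (hx : ∀ t ∈ Icc s0 s1, z t ≠ x) :
    ContinuousOn (fun t => dir (a t) / (z t - x)) (Icc s0 s1) := by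
  apply ContinuousOn.div (continuous_dir.comp_continuousOn h.ca) (h.cz.sub continuousOn_const)
  intro t ht
  exact sub_ne_zero.2 (hx t ht)

theorem intble (h : Geo z a s0 s1) (h01 : s0 ≤ s1) {x : ℂ} (hx : ∀ t ∈ Icc s0 s1, z t ≠ x) :
    IntervalIntegrable (fun t => dir (a t) / (z t - x)) volume s0 s1 := by
  apply ContinuousOn.intervalIntegrable
  rw [uIcc_of_le h01]
  exact h.cont_integrand hx

theorem cind_log (h : Geo z a s0 s1) (h01 : s0 ≤ s1) {x c : ℂ}
    (hc : ∀ t ∈ Icc s0 s1, c * (z t - x) ∈ slitPlane) :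
    cind z a s0 s1 x = Complex.log (c * (z s1 - x)) - Complex.log (c * (z s0 - x)) := by
  have hx : ∀ t ∈ Icc s0 s1, z t ≠ x := by
    intro t ht heq
    have := hc t ht
    rw [heq, sub_self, mul_zero] at this
    exact (Complex.slitPlane_ne_zero this) rfl
  have hc0 : c ≠ 0 := by
    intro h0
    have := hc s0 (left_mem_Icc.2 h01)
    rw [h0, zero_mul] at this
    exact (Complex.slitPlane_ne_zero this) rfl
  unfold cind
  apply intervalIntegral.integral_eq_sub_of_hasDeriv_right_of_le h01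
    (f := fun t => Complex.log (c * (z t - x)))
  · apply ContinuousOn.clog
    · exact continuousOn_const.mul (h.cz.sub continuousOn_const)
    · exact hc
  · intro t ht
    have h1 : HasDerivAt (fun s => c * (z s - x)) (c * dir (a t)) t :=
      ((h.dz t ht).sub_const x).const_mul c
    have h2 := h1.clog_real (hc t (Ioo_subset_Icc_self ht))
    have h3 : c * dir (a t) / (c * (z t - x)) = dir (a t) / (z t - x) := by
      rw [mul_div_mul_left _ _ hc0]
    rw [h3] at h2
    exact h2.hasDerivWithinAt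
  · exact h.intble h01 hx

theorem exp_cind (h : Geo z a s0 s1) (h01 : s0 ≤ s1) {x : ℂ} (hx : ∀ t ∈ Icc s0 s1, z t ≠ x) :
    Complex.exp (cind z a s0 s1 x) = (z s1 - x) / (z s0 - x) := by
  have hint := h.intble h01 hx
  set φ : ℝ → ℂ := fun t => dir (a t) / (z t - x) with hφ
  set Φ : ℝ → ℂ := fun t => ∫ u in s0..t, φ u with hΦ
  have hcΦ : ContinuousOn Φ (Icc s0 s1) := by
    have := intervalIntegral.continuousOn_primitive_interval (μ := volume) (f := φ)
      (a := s0) (b := s1) (by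
        have := (h.cont_integrand hx).integrableOn_Icc (μ := volume)
        rwa [uIcc_of_le h01])
    rwa [uIcc_of_le h01] at this
  have hdΦ : ∀ t ∈ Ioo s0 s1, HasDerivAt Φ (φ t) t := by
    intro t ht
    have hca : ContinuousAt φ t := (h.cont_integrand hx).continuousAt (Icc_mem_nhds ht.1 ht.2)
    apply intervalIntegral.integral_hasDerivAt_right
    · apply hint.mono_set
      rw [uIcc_of_le ht.1.le, uIcc_of_le h01]; exact Icc_subset_Icc_right ht.2.le
    · exact ((h.cont_integrand hx).mono Ioo_subset_Icc_self).stronglyMeasurableAtFilter isOpen_Ioo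
        t ht
    · exact hca
  have hder : ∀ t ∈ Ioo s0 s1,
      HasDerivWithinAt (fun t => Complex.exp (-Φ t) * (z t - x)) 0 (Ioi t) t := by
    intro t ht
    have h1 := ((hdΦ t ht).neg.cexp).mul ((h.dz t ht).sub_const x)
    have hne : z t - x ≠ 0 := sub_ne_zero.2 (hx t (Ioo_subset_Icc_self ht))
    have h2 : Complex.exp (-Φ t) * -φ t * (z t - x) + Complex.exp (-Φ t) * dir (a t) = 0 := by
      rw [hφ]; field_simp; ring
    rw [← h2]
    exact h1.hasDerivWithinAt
  have hcont : ContinuousOn (fun t => Complex.exp (-Φ t) * (z t - x)) (Icc s0 s1) :=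
    (hcΦ.neg.cexp).mul (h.cz.sub continuousOn_const)
  have h0 := intervalIntegral.integral_eq_sub_of_hasDeriv_right_of_le h01 hcont hder
    (by simp)
  simp only [intervalIntegral.integral_zero] at h0
  have hΦ0 : Φ s0 = 0 := by rw [hΦ]; simp
  have hΦ1 : Φ s1 = cind z a s0 s1 x := rfl
  rw [hΦ0, hΦ1, neg_zero, Complex.exp_zero, one_mul] at h0
  have hne0 : z s0 - x ≠ 0 := sub_ne_zero.2 (hx s0 (left_mem_Icc.2 h01))
  have h1 : Complex.exp (-cind z a s0 s1 x) * (z s1 - x) = z s0 - x := (sub_eq_zero.1 h0.symm)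
  rw [eq_div_iff hne0, ← h1, ← mul_assoc, ← Complex.exp_add, add_neg_cancel, Complex.exp_zero,
    one_mul]

theorem dist_pos (h : Geo z a s0 s1) {x : ℂ} (hx : ∀ t ∈ Icc s0 s1, z t ≠ x) :
    ∃ ρ > 0, ∀ t ∈ Icc s0 s1, ρ ≤ ‖z t - x‖ := by
  by_cases hne : (Icc s0 s1).Nonempty
  · have hc : ContinuousOn (fun t => ‖z t - x‖) (Icc s0 s1) := (h.cz.sub continuousOn_const).norm
    obtain ⟨t0, ht0, hmin⟩ := isCompact_Icc.exists_isMinOn hne hc
    exact ⟨‖z t0 - x‖, norm_pos_iff.2 (sub_ne_zero.2 (hx t0 ht0)), fun t ht => hmin ht⟩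
  · exact ⟨1, one_pos, fun t ht => absurd ⟨t, ht⟩ hne⟩

theorem continuousAt_cind (h : Geo z a s0 s1) (h01 : s0 ≤ s1) {x : ℂ}
    (hx : ∀ t ∈ Icc s0 s1, z t ≠ x) : ContinuousAt (cind z a s0 s1) x := by
  obtain ⟨ρ, hρ, hρ2⟩ := h.dist_pos hx
  have hev : ∀ᶠ y in 𝓝 x, ∀ t ∈ Icc s0 s1, ρ / 2 ≤ ‖z t - y‖ := by
    filter_upwards [Metric.ball_mem_nhds x (show 0 < ρ / 2 by linarith)] with y hy t ht
    rw [Metric.mem_ball, dist_eq_norm] at hy
    have h1 := hρ2 t ht
    have h2 : ‖z t - x‖ ≤ ‖z t - y‖ + ‖y - x‖ := by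
      calc ‖z t - x‖ = ‖(z t - y) + (y - x)‖ := by ring_nf
        _ ≤ _ := norm_add_le _ _
    linarith
  unfold cind
  apply intervalIntegral.continuousAt_of_dominated_interval (bound := fun _ => 2 / ρ)
  · filter_upwards [hev] with y hy
    rw [uIoc_of_le h01]
    apply ContinuousOn.aestronglyMeasurable _ measurableSet_Ioc
    apply (h.cont_integrand (x := y) _).mono Ioc_subset_Icc_self
    intro t ht heq
    have := hy t ht
    rw [heq, sub_self, norm_zero] at this
    linarith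
  · filter_upwards [hev] with y hy
    apply Filter.Eventually.of_forall
    intro t ht
    rw [uIoc_of_le h01] at ht
    have := hy t (Ioc_subset_Icc_self ht)
    rw [norm_div, norm_dir]
    rw [div_le_div_iff₀ (by linarith) hρ]
    linarith
  · exact intervalIntegrable_const
  · apply Filter.Eventually.of_forall
    intro t ht
    rw [uIoc_of_le h01] at ht
    apply ContinuousAt.div continuousAt_const (by fun_prop)
    exact sub_ne_zero.2 (hx t (Ioc_subset_Icc_self ht))

theorem cind_split (h : Geo z a s0 s1) {t : ℝ} (h0 : s0 ≤ t) (h1 : t ≤ s1) {x : ℂ}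
    (hx : ∀ t ∈ Icc s0 s1, z t ≠ x) :
    cind z a s0 s1 x = cind z a s0 t x + cind z a t s1 x := by
  unfold cind
  rw [intervalIntegral.integral_add_adjacent_intervals]
  · exact (h.mono le_rfl h1).intble h0 (fun u hu => hx u ⟨hu.1, hu.2.trans h1⟩)
  · exact (h.mono h0 le_rfl).intble h1 (fun u hu => hx u ⟨h0.trans hu.1, hu.2⟩)

end Geo

end

end Pool.Agent.MP_4c0f47_an
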