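import Pool.Agent.Lib.MP_4c0f47_an.Jump

set_option autoImplicit false

open Set Filter Topology Complex MeasureTheory

namespace Pool.Agent.MP_4c0f47_an

noncomputable section

/-- a continuous function with values in `2πiℤ` is constant on preconnected sets -/
theorem const_of_int_valued {U : Set ℂ} (hU : IsPreconnected U) {f : ℂ → ℂ}
    (hc : ContinuousOn f U) (hf : ∀ x ∈ U, ∃ n : ℤ, f x = n * (2 * Real.pi * I)) :
    ∀ x ∈ U, ∀ y ∈ U, f x = f y := by
  have h2pi : (0 : ℝ) < 2 * Real.pi := by positivity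
  have hc' : ContinuousOn (fun x => (f x).im / (2 * Real.pi)) U :=
    (Complex.continuous_im.comp_continuousOn hc).div_const _
  have hval : ∀ x ∈ U, ∃ n : ℤ, (f x).im / (2 * Real.pi) = n ∧ f x = n * (2 * Real.pi * I) := by
    intro x hx
    obtain ⟨n, hn⟩ := hf x hx
    refine ⟨n, ?_, hn⟩
    rw [hn]
    have : ((n : ℂ) * (2 * Real.pi * I)).im = n * (2 * Real.pi) := by
      have : ((n : ℂ) * (2 * Real.pi * I)) = ((n * (2 * Real.pi) : ℝ) : ℂ) * I := by
        push_cast; ring
      rw [this]; simp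
    rw [this]; field_simp
  have key : ∀ x ∈ U, ∀ y ∈ U, ∀ n m : ℤ, (f x).im / (2 * Real.pi) = n →
      (f y).im / (2 * Real.pi) = m → n < m → False := by
    intro x hx y hy n m hn hm hnm
    have h1 := hU.intermediate_value hx hy hc'
    have h2 : (n : ℝ) + 1 ≤ m := by exact_mod_cast hnm
    obtain ⟨w, hw, hw2⟩ := h1 (show (n : ℝ) + 1 / 2 ∈ Icc ((f x).im / (2 * Real.pi))
      ((f y).im / (2 * Real.pi)) by rw [hn, hm]; constructor <;> linarith)
    obtain ⟨k, hk, -⟩ := hval w hw
    simp only at hw2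
    rw [hk] at hw2
    have h3 : (2 * k : ℤ) = 2 * n + 1 := by
      have : (2 * (k : ℝ)) = 2 * n + 1 := by linarith
      exact_mod_cast this
    omega
  intro x hx y hy
  obtain ⟨n, hn, hn'⟩ := hval x hx
  obtain ⟨m, hm, hm'⟩ := hval y hy
  have : n = m := by
    rcases lt_trichotomy n m with h | h | h
    · exact (key x hx y hy n m hn hm h).elim
    · exact h
    · exact (key y hy x hx m n hm hn h).elim
  rw [hn', hm', this]

namespace Net

variable {N : Net}

/-- integral of `dz/(z-x)` along an arc -/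
def ind (d : N.D) (x : ℂ) : ℂ := cind (N.z d) (N.a d) 0 (N.L d) x

theorem geoL (d : N.D) : Geo (N.z d) (N.a d) 0 (N.L d) := N.geo' (N.L_mem_dom d)

theorem off_arc {d : N.D} {x : ℂ} (hx : x ∉ N.carrier) : ∀ t ∈ Icc 0 (N.L d), N.z d t ≠ x := by
  intro t ht heq
  exact hx (heq ▸ N.mem_carrier ⟨ht.1, Or.inr ht.2⟩)

theorem exp_ind (d : N.D) {x : ℂ} (hx : x ∉ N.carrier) :
    Complex.exp (N.ind d x) = (N.tgt d - x) / (N.src d - x) :=
  (N.geoL d).exp_cind (N.L_pos d).le (N.off_arc hx)

theorem continuousAt_ind (d : N.D) {x : ℂ} (hx : ∀ t ∈ Icc 0 (N.L d), N.z d t ≠ x) :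
    ContinuousAt (N.ind d) x := (N.geoL d).continuousAt_cind (N.L_pos d).le hx

theorem rev_ne {d : N.D} (h : ¬ N.isRay d) : N.rev d ≠ d := by
  intro heq
  have hL := N.L_pos d
  have := N.a_rev d h (N.L d / 2) ⟨by linarith, by linarith⟩
  rw [heq, show N.L d - N.L d / 2 = N.L d / 2 by ring] at this
  have h2 : dir (N.a d (N.L d / 2)) = 0 := by
    have : (2 : ℂ) * dir (N.a d (N.L d / 2)) = 0 := by linear_combination this
    rcases mul_eq_zero.1 this with h | h
    · norm_num at h
    · exact h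
  exact dir_ne_zero _ h2

theorem ind_rev {d : N.D} (h : ¬ N.isRay d) (x : ℂ) : N.ind (N.rev d) x = - N.ind d x := by
  unfold ind cind
  rw [N.L_rev d h]
  have h1 : ∫ t in (0:ℝ)..(N.L d), dir (N.a (N.rev d) t) / (N.z (N.rev d) t - x)
      = ∫ t in (0:ℝ)..(N.L d), (fun u => -(dir (N.a d u) / (N.z d u - x))) (N.L d - t) := by
    apply intervalIntegral.integral_congr
    intro t ht
    rw [uIcc_of_le (N.L_pos d).le] at ht
    simp only
    rw [N.z_rev d h t ht, N.a_rev d h t ht, neg_div]
  rw [h1, intervalIntegral.integral_comp_sub_left (fun u => -(dir (N.a d u) / (N.z d u - x)))]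
  rw [sub_self, sub_zero, intervalIntegral.integral_neg]

/-- weighted sum of the integrals of `dz/(z-x)` -/
def wind (c : N.D → ℂ) (x : ℂ) : ℂ := ∑ d, c d * N.ind d x

theorem continuousAt_wind (c : N.D → ℂ) {x : ℂ} (hx : x ∉ N.carrier) :
    ContinuousAt (N.wind c) x := by
  unfold wind
  apply tendsto_finsetSum
  intro d _
  exact (continuousAt_const.mul (N.continuousAt_ind d (N.off_arc hx)))

theorem jump_wind (c : N.D → ℂ) (hc : ∀ d, N.isRay d → c d = 0) {d : N.D} (hd : ¬ N.isRay d)
    {t0 : ℝ} (ht0 : t0 ∈ N.int d) :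
    Tendsto (fun s : ℝ => N.wind c (pt (N.z d) (N.a d) t0 s) - N.wind c (pt (N.z d) (N.a d) t0 (-s)))
      (𝓝[>] 0) (𝓝 (2 * Real.pi * I * (c d - c (N.rev d)))) := by
  classical
  have ht0' : t0 ∈ Ioo 0 (N.L d) := by rwa [N.int_eq_arc hd] at ht0
  have hinj : ∀ t ∈ Icc 0 (N.L d), N.z d t = N.z d t0 → t = t0 := by
    intro t ht heq
    rcases N.inj d d t0 t ht0.1 ht0.2 ht.1 (Or.inr ht.2) heq.symm with ⟨_, h⟩ | ⟨h1, h2, _⟩
    · exact h
    · exact absurd h2.symm (N.rev_ne h1)
  have hj := (N.geoL d).jump ht0' hinj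
  have hptc : Continuous (fun s : ℝ => pt (N.z d) (N.a d) t0 s) := by unfold pt; fun_prop
  have hpt0 : pt (N.z d) (N.a d) t0 0 = N.z d t0 := by simp [pt]
  have hneg : Tendsto (fun s : ℝ => -s) (𝓝[>] (0:ℝ)) (𝓝 0) := by
    have := (continuous_neg (G := ℝ)).continuousAt (x := 0)
    have := this.tendsto
    rw [neg_zero] at this
    exact this.mono_left nhdsWithin_le_nhds
  have key : ∀ e : N.D, Tendsto (fun s : ℝ => c e * N.ind e (pt (N.z d) (N.a d) t0 s)
      - c e * N.ind e (pt (N.z d) (N.a d) t0 (-s))) (𝓝[>] 0)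
      (𝓝 (if e = d then 2 * Real.pi * I * c d else
        if e = N.rev d then -(2 * Real.pi * I * c (N.rev d)) else 0)) := by
    intro e
    by_cases h1 : e = d
    · subst h1
      rw [if_pos rfl]
      have := hj.const_mul (c e)
      have e1 : c e * (2 * Real.pi * I) = 2 * Real.pi * I * c e := by ring
      rw [e1] at this
      exact this.congr (fun s => by unfold ind; ring)
    · rw [if_neg h1]
      by_cases h2 : e = N.rev d
      · subst h2
        rw [if_pos rfl]
        have := hj.const_mul (-(c (N.rev d)))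
        have e1 : -(c (N.rev d)) * (2 * Real.pi * I) = -(2 * Real.pi * I * c (N.rev d)) := by ring
        rw [e1] at this
        exact this.congr (fun s => by rw [N.ind_rev hd, N.ind_rev hd]; unfold ind; ring)
      · rw [if_neg h2]
        by_cases hr : N.isRay e
        · rw [hc e hr]; simp
        · have hne : ∀ t ∈ Icc 0 (N.L e), N.z e t ≠ pt (N.z d) (N.a d) t0 0 := by
            intro t ht heq
            rw [hpt0] at heq
            rcases N.inj d e t0 t ht0.1 ht0.2 ht.1 (Or.inr ht.2) heq.symm with ⟨h, _⟩ | ⟨_, h, _⟩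
            · exact h1 h
            · exact h2 h
          have hcont := N.continuousAt_ind e hne
          have hc1 : Tendsto (fun s : ℝ => N.ind e (pt (N.z d) (N.a d) t0 s)) (𝓝 0)
              (𝓝 (N.ind e (pt (N.z d) (N.a d) t0 0))) :=
            hcont.tendsto.comp hptc.continuousAt.tendsto
          have h3 := (hc1.mono_left (nhdsWithin_le_nhds : 𝓝[>] (0:ℝ) ≤ 𝓝 0)).const_mul (c e)
          have h4 := (hc1.comp hneg).const_mul (c e)
          have := h3.sub h4
          rw [sub_self] at this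
          exact this
  have hsum := tendsto_finsetSum (Finset.univ : Finset N.D) (fun e _ => key e)
  have hval : (∑ e : N.D, (if e = d then 2 * Real.pi * I * c d else
        if e = N.rev d then -(2 * Real.pi * I * c (N.rev d)) else 0))
        = 2 * Real.pi * I * (c d - c (N.rev d)) := by
    have h1 : ∀ e : N.D, (if e = d then 2 * Real.pi * I * c d else
        if e = N.rev d then -(2 * Real.pi * I * c (N.rev d)) else (0:ℂ))
        = (if e = d then 2 * Real.pi * I * c d else 0)
          + (if e = N.rev d then -(2 * Real.pi * I * c (N.rev d)) else 0) := by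
      intro e
      by_cases h1 : e = d
      · have h2 : e ≠ N.rev d := by rw [h1]; exact (N.rev_ne hd).symm
        rw [if_pos h1, if_pos h1, if_neg h2, add_zero]
      · rw [if_neg h1, if_neg h1, zero_add]
    rw [Finset.sum_congr rfl (fun e _ => h1 e), Finset.sum_add_distrib]
    simp
    ring
  rw [hval] at hsum
  refine hsum.congr (fun s => ?_)
  unfold wind
  rw [← Finset.sum_sub_distrib]

end Net

end

end Pool.Agent.MP_4c0f47_an
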